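import Pool.Agent.P.MP_28369d_gt.SB.Defs

/-!
Proved toolbox: piecewise linear curves, polygons as curves, isotopy, counting in a period.
-/

namespace Pool.Agent.P.MP_28369d_gt.SB

open Set Filter Topology
open scoped RealInnerProductSpace

/-! ### piecewise linear interpolation -/

/-- Piecewise linear interpolation of a sequence. -/
noncomputable def pl {V : Type} [AddCommGroup V] [Module ℝ V] (f : ℤ → V) (τ : ℝ) : V :=
  f ⌊τ⌋ + Int.fract τ • (f (⌊τ⌋ + 1) - f ⌊τ⌋)

/-- The polygon as a periodic curve. -/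
noncomputable def Poly.γ (P : Poly) : ℝ → E := pl P.v

/-- `F` is injective modulo the period `T`. -/
def InjMod (F : ℝ → E) (T : ℝ) : Prop := ∀ s t, F s = F t → ∃ k : ℤ, t = s + k * T

/-- Lower Lipschitz bound for a closed curve of period `T`. -/
def LowB (F : ℝ → E) (T c : ℝ) : Prop := ∀ s t, |s - t| ≤ T / 2 → c * |s - t| ≤ ‖F s - F t‖

/-- `F` is affine on both sides of each point. -/
def LocAff {V : Type} [AddCommGroup V] [Module ℝ V] (F : ℝ → V) : Prop :=
  ∀ τ, ∃ δ > (0 : ℝ), ∃ a b : V, ∀ t, 0 ≤ t → t ≤ δ → F (τ + t) = F τ + t • a ∧ F (τ - t) = F τ - t • b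

section pl
variable {V W : Type} [AddCommGroup V] [Module ℝ V] [AddCommGroup W] [Module ℝ W]

@[simp] theorem pl_int (f : ℤ → V) (i : ℤ) : pl f i = f i := by simp [pl]

theorem pl_add (f : ℤ → V) (i : ℤ) {t : ℝ} (h0 : 0 ≤ t) (h1 : t ≤ 1) :
    pl f (i + t) = f i + t • (f (i + 1) - f i) := by
  rcases h1.lt_or_eq with h | h
  · have hf : ⌊(i : ℝ) + t⌋ = i := by
      rw [Int.floor_eq_iff]; constructor <;> linarith
    have : Int.fract ((i : ℝ) + t) = t := by rw [Int.fract, hf]; ring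
    simp only [pl, hf, this]
  · subst h
    have : (i : ℝ) + 1 = ((i + 1 : ℤ) : ℝ) := by push_cast; ring
    rw [this, pl_int]; simp

/-- On the closed edge `[i, i+1]`. -/
theorem pl_eq (f : ℤ → V) (i : ℤ) {τ : ℝ} (h0 : (i : ℝ) ≤ τ) (h1 : τ ≤ i + 1) :
    pl f τ = f i + (τ - i) • (f (i + 1) - f i) := by
  have := pl_add f i (t := τ - i) (by linarith) (by linarith)
  rwa [add_sub_cancel] at this

theorem pl_sub_of_edge (f : ℤ → V) (i : ℤ) {υ τ : ℝ} (h0 : (i : ℝ) ≤ τ) (h1 : τ ≤ i + 1)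
    (h2 : (i : ℝ) ≤ υ) (h3 : υ ≤ i + 1) : pl f τ - pl f υ = (τ - υ) • (f (i + 1) - f i) := by
  rw [pl_eq f i h0 h1, pl_eq f i h2 h3]; module

theorem per_zmul {α : Type} {n : ℕ} {f : ℤ → α} (h : ∀ i, f (i + n) = f i) (i k : ℤ) :
    f (i + k * n) = f i := by
  have : Function.Periodic f (n : ℤ) := h
  exact (this.int_mul k) i

theorem per_of_dvd {α : Type} {n : ℕ} {f : ℤ → α} (h : ∀ i, f (i + n) = f i) {i j : ℤ}
    (hd : (n : ℤ) ∣ j - i) : f j = f i := by
  obtain ⟨k, hk⟩ := hd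
  have : j = i + k * n := by linarith
  rw [this, per_zmul h]

theorem pl_add_int (f : ℤ → V) (τ : ℝ) (k : ℤ) : pl f (τ + k) = pl (fun i => f (i + k)) τ := by
  simp only [pl, Int.floor_add_intCast, Int.fract_add_intCast]
  rw [show ⌊τ⌋ + k + 1 = ⌊τ⌋ + 1 + k by ring]

theorem pl_per {n : ℕ} {f : ℤ → V} (h : ∀ i, f (i + n) = f i) (τ : ℝ) (k : ℤ) :
    pl f (τ + k * n) = pl f τ := by
  have : τ + (k : ℝ) * n = τ + ((k * n : ℤ) : ℝ) := by push_cast; ring
  rw [this, pl_add_int]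
  congr 1; funext i; exact per_zmul h i k

theorem pl_periodic {n : ℕ} {f : ℤ → V} (h : ∀ i, f (i + n) = f i) :
    Function.Periodic (pl f) (n : ℝ) := fun τ => by simpa using pl_per h τ 1

theorem pl_map (L : V →ₗ[ℝ] W) (f : ℤ → V) (τ : ℝ) : L (pl f τ) = pl (fun i => L (f i)) τ := by
  simp [pl]

theorem pl_lin (f g : ℤ → V) (a b : ℝ) (τ : ℝ) :
    pl (fun i => a • f i + b • g i) τ = a • pl f τ + b • pl g τ := by
  simp only [pl]; module

theorem pl_sub (f g : ℤ → V) (τ : ℝ) : pl (fun i => f i - g i) τ = pl f τ - pl g τ := by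
  simp only [pl]; module

theorem locAff_pl (f : ℤ → V) : LocAff (pl f) := by
  intro τ
  set i := ⌊τ⌋ with hi
  set j := ⌈τ⌉ - 1 with hj
  have h1 : (i : ℝ) ≤ τ := Int.floor_le τ
  have h2 : τ < i + 1 := Int.lt_floor_add_one τ
  have h3 : (j : ℝ) < τ := by
    have := Int.ceil_lt_add_one τ; rw [hj]; push_cast; linarith
  have h4 : τ ≤ j + 1 := by
    have := Int.le_ceil τ; rw [hj]; push_cast; linarith
  refine ⟨min (i + 1 - τ) (τ - j), lt_min (by linarith) (by linarith), f (i + 1) - f i,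
    f (j + 1) - f j, fun t h0 ht => ⟨?_, ?_⟩⟩
  · have ht1 := ht.trans (min_le_left _ _)
    have := pl_sub_of_edge f i (τ := τ + t) (υ := τ) (by linarith) (by linarith) h1 h2.le
    rw [add_sub_cancel_left] at this
    rw [← this]; abel
  · have ht1 := ht.trans (min_le_right _ _)
    have := pl_sub_of_edge f j (τ := τ) (υ := τ - t) h3.le h4 (by linarith) (by linarith)
    rw [sub_sub_cancel] at this
    rw [← this]; abel

end pl

theorem LocAff.continuous {V : Type} [NormedAddCommGroup V] [NormedSpace ℝ V] {F : ℝ → V}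
    (h : LocAff F) : Continuous F := by
  rw [continuous_iff_continuousAt]
  intro τ
  obtain ⟨δ, hδ, a, b, H⟩ := h τ
  rw [continuousAt_iff_continuous_left_right]
  constructor
  · have h1 : ContinuousWithinAt (fun s => F τ - (τ - s) • b) (Iic τ) τ := by fun_prop
    refine h1.congr_of_eventuallyEq ?_ (by simp)
    filter_upwards [Icc_mem_nhdsLE (show τ - δ < τ by linarith)] with s hs
    have := (H (τ - s) (by linarith [hs.2]) (by linarith [hs.1])).2
    rwa [sub_sub_cancel] at this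
  · have h1 : ContinuousWithinAt (fun s => F τ + (s - τ) • a) (Ici τ) τ := by fun_prop
    refine h1.congr_of_eventuallyEq ?_ (by simp)
    filter_upwards [Icc_mem_nhdsGE (show τ < τ + δ by linarith)] with s hs
    have := (H (s - τ) (by linarith [hs.1]) (by linarith [hs.2])).1
    rwa [add_sub_cancel] at this

theorem continuous_pl {V : Type} [NormedAddCommGroup V] [NormedSpace ℝ V] (f : ℤ → V) :
    Continuous (pl f) := (locAff_pl f).continuous

/-- A piecewise linear function whose slopes are positive on all edges meeting `(υ, τ)`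
increases from `υ` to `τ`. -/
theorem pl_lt (f : ℤ → ℝ) {υ τ : ℝ} (h : υ < τ)
    (H : ∀ i : ℤ, (i : ℝ) < τ → υ < i + 1 → f i < f (i + 1)) : pl f υ < pl f τ := by
  obtain ⟨m, hm⟩ : ∃ m : ℕ, τ ≤ (⌊υ⌋ : ℝ) + 1 + m := by
    obtain ⟨m, hm⟩ := exists_nat_ge (τ - ((⌊υ⌋ : ℝ) + 1)); exact ⟨m, by linarith⟩
  have h1 : (⌊υ⌋ : ℝ) ≤ υ := Int.floor_le υ
  have h2 : υ < ⌊υ⌋ + 1 := Int.lt_floor_add_one υ
  induction m generalizing τ with
  | zero =>
    have := pl_sub_of_edge f ⌊υ⌋ (τ := τ) (υ := υ) (by linarith) (by simpa using hm) h1 h2.le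
    have h3 := H ⌊υ⌋ (by linarith) h2
    have : 0 < pl f τ - pl f υ := by
      rw [this, smul_eq_mul]; exact mul_pos (by linarith) (by linarith)
    linarith
  | succ m ih =>
    by_cases hc : τ ≤ (⌊υ⌋ : ℝ) + 1 + m
    · exact ih h H hc
    · push Not at hc
      set j : ℤ := ⌊υ⌋ + 1 + m with hj
      have hjr : (j : ℝ) = (⌊υ⌋ : ℝ) + 1 + m := by rw [hj]; push_cast; ring
      have hm0 : (0 : ℝ) ≤ m := Nat.cast_nonneg m
      have a1 : pl f υ < pl f (j : ℝ) :=
        ih (by linarith) (fun i hi hi' => H i (by linarith) hi') (by linarith)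
      have := pl_sub_of_edge f j (τ := τ) (υ := j) (by linarith)
        (by push_cast at hm; linarith) le_rfl (by linarith)
      have h3 := H j (by linarith) (by linarith)
      have : 0 < pl f τ - pl f j := by
        rw [this, smul_eq_mul]; exact mul_pos (by linarith) (by linarith)
      linarith

theorem pl_gt (f : ℤ → ℝ) {υ τ : ℝ} (h : υ < τ)
    (H : ∀ i : ℤ, (i : ℝ) < τ → υ < i + 1 → f (i + 1) < f i) : pl f τ < pl f υ := by
  have := pl_lt (fun i => -f i) h (fun i a b => by have := H i a b; linarith)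
  simp only [pl, smul_eq_mul] at this ⊢
  linarith

/-! ### polygons as curves -/

theorem Poly.e_per (P : Poly) (i : ℤ) : P.e (i + P.n) = P.e i := by
  simp only [Poly.e]
  rw [show i + P.n + 1 = i + 1 + P.n by ring, P.per, P.per]

theorem Poly.γ_per (P : Poly) (τ : ℝ) (k : ℤ) : P.γ (τ + k * P.n) = P.γ τ := pl_per P.per τ k

theorem Poly.γ_periodic (P : Poly) : Function.Periodic P.γ (P.n : ℝ) := pl_periodic P.per

@[simp] theorem Poly.γ_int (P : Poly) (i : ℤ) : P.γ i = P.v i := pl_int _ _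

theorem Poly.γ_eq (P : Poly) (i : ℤ) {τ : ℝ} (h0 : (i : ℝ) ≤ τ) (h1 : τ ≤ i + 1) :
    P.γ τ = P.v i + (τ - i) • P.e i := pl_eq P.v i h0 h1

theorem Poly.γ_sub (P : Poly) (i : ℤ) {υ τ : ℝ} (h0 : (i : ℝ) ≤ τ) (h1 : τ ≤ i + 1)
    (h2 : (i : ℝ) ≤ υ) (h3 : υ ≤ i + 1) : P.γ τ - P.γ υ = (τ - υ) • P.e i :=
  pl_sub_of_edge P.v i h0 h1 h2 h3

theorem Poly.continuous_γ (P : Poly) : Continuous P.γ := continuous_pl _

theorem Poly.locAff_γ (P : Poly) : LocAff P.γ := locAff_pl _

theorem Poly.n_pos (P : Poly) : (0 : ℝ) < P.n := by exact_mod_cast P.pos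

theorem range_pl (f : ℤ → E) : range (pl f) = ⋃ i : ℤ, segment ℝ (f i) (f (i + 1)) := by
  ext x
  simp only [mem_range, mem_iUnion, segment_eq_image', mem_image]
  constructor
  · rintro ⟨τ, rfl⟩
    exact ⟨⌊τ⌋, Int.fract τ, ⟨Int.fract_nonneg τ, (Int.fract_lt_one τ).le⟩, rfl⟩
  · rintro ⟨i, t, ht, rfl⟩
    exact ⟨i + t, pl_add f i ht.1 ht.2⟩

theorem Poly.range_γ (P : Poly) : range P.γ = P.carrier := range_pl P.v

theorem Poly.γ_mem (P : Poly) (τ : ℝ) : P.γ τ ∈ P.carrier := P.range_γ ▸ mem_range_self τ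

theorem Poly.mem_carrier (P : Poly) {x : E} : x ∈ P.carrier ↔ ∃ τ, P.γ τ = x := by
  rw [← P.range_γ]; rfl

theorem Poly.injMod (P : Poly) : InjMod P.γ P.n := by
  intro s t h
  obtain ⟨⟨k, hk⟩, h2⟩ := P.simple ⌊s⌋ ⌊t⌋ (Int.fract s) (Int.fract t)
    ⟨Int.fract_nonneg s, Int.fract_lt_one s⟩ ⟨Int.fract_nonneg t, Int.fract_lt_one t⟩ h
  refine ⟨k, ?_⟩
  have h3 : ((⌊t⌋ : ℝ) - ⌊s⌋) = P.n * k := by exact_mod_cast hk
  have h4 := Int.floor_add_fract s
  have h5 := Int.floor_add_fract t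
  linarith

/-- A periodic sequence whose interpolation is injective modulo the period is a polygon. -/
def mkPoly (n : ℕ) (hn : 0 < n) (w : ℤ → E) (hw : ∀ i, w (i + n) = w i)
    (h : InjMod (pl w) n) : Poly where
  n := n
  v := w
  pos := hn
  per := hw
  simple := by
    intro i j s t hs ht he
    rw [← pl_add w i hs.1 hs.2.le, ← pl_add w j ht.1 ht.2.le] at he
    obtain ⟨k, hk⟩ := h _ _ he
    have h1 : t - s = ((i + k * n - j : ℤ) : ℝ) := by push_cast; linarith
    have h2 : i + k * n - j = 0 := by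
      have a1 : ((i + k * n - j : ℤ) : ℝ) < 1 := by rw [← h1]; linarith [ht.2, hs.1]
      have a2 : (-1 : ℝ) < ((i + k * n - j : ℤ) : ℝ) := by rw [← h1]; linarith [ht.1, hs.2]
      have b1 : i + k * n - j < 1 := by exact_mod_cast a1
      have b2 : -1 < i + k * n - j := by exact_mod_cast a2
      omega
    refine ⟨⟨k, by linarith⟩, ?_⟩
    rw [h2] at h1; simp at h1; linarith

theorem exists_shift {T : ℝ} (hT : 0 < T) (a τ : ℝ) : ∃ k : ℤ, a ≤ τ + k * T ∧ τ + k * T < a + T := by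
  refine ⟨-⌊(τ - a) / T⌋, ?_, ?_⟩
  · have := Int.floor_le ((τ - a) / T)
    rw [le_div_iff₀ hT] at this; push_cast; linarith
  · have := Int.lt_floor_add_one ((τ - a) / T)
    rw [div_lt_iff₀ hT] at this; push_cast; linarith

theorem Poly.carrier_eq_image (P : Poly) : P.carrier = P.γ '' Icc 0 P.n := by
  rw [← P.range_γ]
  refine Subset.antisymm ?_ (image_subset_range _ _)
  rintro _ ⟨τ, rfl⟩
  obtain ⟨k, h1, h2⟩ := exists_shift P.n_pos 0 τ
  exact ⟨τ + k * P.n, ⟨h1, by linarith⟩, P.γ_per τ k⟩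

theorem Poly.isCompact (P : Poly) : IsCompact P.carrier := by
  rw [P.carrier_eq_image]; exact isCompact_Icc.image P.continuous_γ

theorem Poly.isClosed (P : Poly) : IsClosed P.carrier := P.isCompact.isClosed

theorem Poly.e_ne (P : Poly) (i : ℤ) : P.e i ≠ 0 := by
  intro h
  have := (P.simple i i 0 (1 / 2) (by norm_num) (by norm_num)
    (by have h' : P.v (i + 1) - P.v i = 0 := h
        simp [h'])).2
  norm_num at this

theorem Poly.three_le (P : Poly) : 3 ≤ P.n := by
  have h0 := P.pos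
  by_contra hc
  have : P.n = 1 ∨ P.n = 2 := by omega
  rcases this with h | h
  · have := P.per 0
    rw [h] at this
    exact P.e_ne 0 (by simp only [Poly.e]; simpa [sub_eq_zero] using this)
  · have h1 := P.per 0
    rw [h] at h1
    have h2 : P.v (1 + 1) = P.v 0 := by simpa using h1
    have := (P.simple 0 1 (1 / 2) (1 / 2) (by norm_num) (by norm_num)
      (by rw [h2, zero_add]; module)).1
    rw [h] at this
    norm_num at this

theorem LowB.injMod {F : ℝ → E} {T c : ℝ} (hT : 0 < T) (hc : 0 < c) (hp : Function.Periodic F T)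
    (h : LowB F T c) : InjMod F T := by
  intro s t he
  obtain ⟨k, h1, h2⟩ := exists_shift hT (s - T / 2) t
  have h3 : F (t + k * T) = F t := (hp.int_mul k) t
  have := h s (t + k * T) (by rw [abs_le]; constructor <;> linarith)
  rw [h3, he, sub_self, norm_zero] at this
  have h4 : |s - (t + k * T)| = 0 := le_antisymm (by nlinarith [abs_nonneg (s - (t + k * T))]) (abs_nonneg _)
  rw [abs_eq_zero] at h4
  exact ⟨-k, by push_cast; linarith⟩

/-! ### isotopy -/

theorem Iso.refl (K : Set E) : Iso K K :=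
  ⟨fun _ => Homeomorph.refl E, continuous_snd, continuous_snd, fun _ => rfl, by simp⟩

theorem Iso.symm {K L : Set E} (h : Iso K L) : Iso L K := by
  obtain ⟨H, h1, h2, h3, h4⟩ := h
  refine ⟨fun t => (H t).symm, h2, h1, fun x => ?_, ?_⟩
  · rw [Homeomorph.symm_apply_eq, h3]
  · rw [← h4, ← image_comp]; simp

theorem Iso.trans {K L M : Set E} (h : Iso K L) (h' : Iso L M) : Iso K M := by
  obtain ⟨H, h1, h2, h3, h4⟩ := h
  obtain ⟨H', h1', h2', h3', h4'⟩ := h'
  refine ⟨fun t => (H t).trans (H' t), h1'.comp (continuous_fst.prodMk h1),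
    h2.comp (continuous_fst.prodMk h2'), fun x => by simp [h3, h3'], ?_⟩
  rw [← h4', ← h4, ← image_comp]; rfl

theorem Iso.homeo {K L : Set E} (h : Iso K L) : ∃ f : E ≃ₜ E, f '' K = L := by
  obtain ⟨H, -, -, -, h4⟩ := h; exact ⟨H 1, h4⟩

end Pool.Agent.P.MP_28369d_gt.SB
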