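import Pool.Agent.P.MP_28369d_gt.SB.Basic

/-!
Proved toolbox: counting indices in one period, number of maxima of a cyclic sequence.
-/

namespace Pool.Agent.P.MP_28369d_gt.SB

open Set Filter Topology
open scoped RealInnerProductSpace

/-- Number of indices `0 ≤ i < n` with property `A`. -/
noncomputable def win (n : ℕ) (A : ℤ → Prop) : ℕ := {i : ℤ | 0 ≤ i ∧ i < n ∧ A i}.ncard

/-- Number of indices `p ≤ i ≤ q` with property `A`. -/
noncomputable def cnt (p q : ℤ) (A : ℤ → Prop) : ℕ := {i : ℤ | p ≤ i ∧ i ≤ q ∧ A i}.ncard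

theorem fin_cnt (p q : ℤ) (A : ℤ → Prop) : {i : ℤ | p ≤ i ∧ i ≤ q ∧ A i}.Finite :=
  (finite_Icc p q).subset fun _ h => ⟨h.1, h.2.1⟩

theorem fin_win (n : ℕ) (A : ℤ → Prop) : {i : ℤ | 0 ≤ i ∧ i < n ∧ A i}.Finite :=
  (finite_Ico (0 : ℤ) n).subset fun _ h => ⟨h.1, h.2.1⟩

theorem win_eq_cnt (n : ℕ) (A : ℤ → Prop) : win n A = cnt 0 (n - 1) A := by
  unfold win cnt; congr 1; ext i; simp only [mem_ofPred_eq]
  constructor <;> rintro ⟨a, b, c⟩ <;> exact ⟨a, by omega, c⟩

theorem cnt_mono {p q p' q' : ℤ} {A B : ℤ → Prop}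
    (h : ∀ i, p ≤ i → i ≤ q → A i → p' ≤ i ∧ i ≤ q' ∧ B i) : cnt p q A ≤ cnt p' q' B :=
  ncard_le_ncard (fun i hi => h i hi.1 hi.2.1 hi.2.2) (fin_cnt _ _ _)

theorem win_mono {n : ℕ} {A B : ℤ → Prop} (h : ∀ i : ℤ, 0 ≤ i → i < n → A i → B i) :
    win n A ≤ win n B :=
  ncard_le_ncard (fun i hi => ⟨hi.1, hi.2.1, h i hi.1 hi.2.1 hi.2.2⟩) (fin_win _ _)

theorem win_congr {n : ℕ} {A B : ℤ → Prop} (h : ∀ i, A i ↔ B i) : win n A = win n B := by
  have : A = B := funext fun i => propext (h i)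
  rw [this]

theorem cnt_or (p q : ℤ) (A B : ℤ → Prop) :
    cnt p q (fun i => A i ∨ B i) ≤ cnt p q A + cnt p q B := by
  refine le_trans (le_of_eq ?_) (ncard_union_le _ _)
  unfold cnt; congr 1; ext i; simp only [mem_ofPred_eq, mem_union]; tauto

theorem win_or (n : ℕ) (A B : ℤ → Prop) : win n (fun i => A i ∨ B i) ≤ win n A + win n B := by
  simp only [win_eq_cnt]; exact cnt_or _ _ _ _

theorem cnt_le (p q : ℤ) (A : ℤ → Prop) : cnt p q A ≤ (q + 1 - p).toNat := by
  have : cnt p q A ≤ (Icc p q).ncard :=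
    ncard_le_ncard (fun i hi => ⟨hi.1, hi.2.1⟩) (finite_Icc p q)
  rwa [← Finset.coe_Icc, ncard_coe_finset, Int.card_Icc] at this

theorem win_le (n : ℕ) (A : ℤ → Prop) : win n A ≤ n := by
  rw [win_eq_cnt]; refine (cnt_le _ _ _).trans ?_; omega

/-- For a periodic property every window of length `n` has the same count. -/
theorem cnt_eq_win {n : ℕ} (hn : 0 < n) {A : ℤ → Prop} (hA : ∀ i, A (i + n) ↔ A i) (p : ℤ) :
    cnt p (p + n - 1) A = win n A := by
  have hA' : ∀ i k : ℤ, A (i + k * n) ↔ A i := fun i k =>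
    iff_of_eq (per_zmul (f := A) (fun i => propext (hA i)) i k)
  have hn' : (0 : ℤ) < n := by exact_mod_cast hn
  unfold cnt win
  refine ncard_congr (fun i _ => i % n) ?_ ?_ ?_
  · rintro i ⟨h1, h2, h3⟩
    refine ⟨Int.emod_nonneg _ hn'.ne', Int.emod_lt_of_pos _ hn', ?_⟩
    have : i % n = i + (-(i / n)) * n := by have := Int.emod_add_mul_ediv i n; linarith
    rw [this, hA']; exact h3
  · rintro i j ⟨h1, h2, -⟩ ⟨h3, h4, -⟩ h
    have h5 : (n : ℤ) ∣ j - i := Int.ModEq.dvd h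
    have := Int.eq_zero_of_abs_lt_dvd h5 (by rw [abs_lt]; constructor <;> omega)
    omega
  · rintro j ⟨h1, h2, h3⟩
    refine ⟨j + ((p - j + n - 1) / n) * n, ⟨?_, ?_, (hA' _ _).2 h3⟩, ?_⟩
    · have := Int.emod_add_mul_ediv (p - j + n - 1) n
      have := Int.emod_lt_of_pos (p - j + n - 1) hn'
      linarith
    · have := Int.emod_add_mul_ediv (p - j + n - 1) n
      have := Int.emod_nonneg (p - j + n - 1) hn'.ne'
      linarith
    · simp [Int.emod_eq_of_lt h1 h2]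

theorem win_shift {n : ℕ} (hn : 0 < n) {A : ℤ → Prop} (hA : ∀ i, A (i + n) ↔ A i) (s : ℤ) :
    win n (fun i => A (i + s)) = win n A := by
  rw [← cnt_eq_win hn hA s, win_eq_cnt]
  unfold cnt
  refine ncard_congr (fun i _ => i + s) ?_ ?_ ?_
  · rintro i ⟨h1, h2, h3⟩; exact ⟨by omega, by omega, h3⟩
  · intro i j _ _ h; simpa using h
  · rintro j ⟨h1, h2, h3⟩; exact ⟨j - s, ⟨by omega, by omega, by simpa using h3⟩, by simp⟩

/-- Pigeonhole: if between two `A`-indices there are at most `c` indices with `B`, then there are at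
most `(#A + 1) c` indices with `B`. -/
theorem cnt_le_mul (lo hi : ℤ) (A B : ℤ → Prop) (c : ℕ)
    (h : ∀ p q, lo ≤ p → p ≤ q → q ≤ hi → (∀ i, p ≤ i → i < q → ¬ A i) → cnt p q B ≤ c) :
    cnt lo hi B ≤ (cnt lo hi A + 1) * c := by
  classical
  set s : Finset ℤ := (fin_cnt lo hi B).toFinset with hs
  have hc : cnt lo hi B = s.card := ncard_eq_toFinset_card _ _
  rw [hc, mul_comm, ← Finset.card_range (cnt lo hi A + 1)]
  refine Finset.card_le_mul_card_image_of_maps_to (f := fun i => cnt lo (i - 1) A) ?_ c ?_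
  · intro i hi
    simp only [hs, Finite.mem_toFinset, mem_ofPred_eq] at hi
    rw [Finset.mem_range, Nat.lt_succ_iff]
    exact cnt_mono fun j a b c => ⟨a, by omega, c⟩
  · intro m _
    rcases (s.filter fun i => cnt lo (i - 1) A = m).eq_empty_or_nonempty with he | he
    · rw [he]; simp
    · set t := s.filter fun i => cnt lo (i - 1) A = m with ht
      have hp := t.min'_mem he
      have hq := t.max'_mem he
      simp only [ht, hs, Finset.mem_filter, Finite.mem_toFinset, mem_ofPred_eq] at hp hq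
      refine le_trans ?_ (h (t.min' he) (t.max' he) hp.1.1 (t.min'_le_max' he) hq.1.2.1 ?_)
      · unfold cnt
        rw [← ncard_coe_finset]
        refine ncard_le_ncard (fun i hi => ⟨t.min'_le i hi, t.le_max' i hi, ?_⟩) (fin_cnt _ _ _)
        have : i ∈ t := hi
        simp only [ht, hs, Finset.mem_filter, Finite.mem_toFinset, mem_ofPred_eq] at this
        exact this.1.2.2
      · intro i h1 h2 hA
        have : cnt lo (t.min' he - 1) A < cnt lo (t.max' he - 1) A := by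
          refine ncard_lt_ncard ⟨fun j hj => ⟨hj.1, by have := hj.2.1; omega, hj.2.2⟩, fun hsub => ?_⟩
            (fin_cnt _ _ _)
          have := (hsub (show i ∈ {i | lo ≤ i ∧ i ≤ t.max' he - 1 ∧ A i} from
            ⟨hp.1.1.trans h1, by omega, hA⟩)).2.1
          omega
        have e1 := hp.2
        have e2 := hq.2
        change cnt lo (t.min' he - 1) A = m at e1
        change cnt lo (t.max' he - 1) A = m at e2
        omega

/-! ### maxima -/

theorem mx_eq_win (n : ℕ) (f : ℤ → ℝ) : mx n f =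
    win n fun i => 0 < f i ∧ ∃ j, i < j ∧ f j < 0 ∧ ∀ k, i < k → k < j → f k = 0 := rfl

theorem mx_le (n : ℕ) (f : ℤ → ℝ) : mx n f ≤ n := win_le _ _

/-- For a nowhere vanishing sequence. -/
theorem mx_of_ne {n : ℕ} {f : ℤ → ℝ} (h : ∀ i, f i ≠ 0) :
    mx n f = win n fun i => 0 < f i ∧ f (i + 1) < 0 := by
  rw [mx_eq_win]
  refine win_congr fun i => and_congr_right fun _ => ⟨?_, fun h1 => ⟨i + 1, by omega, h1, fun k a b => by omega⟩⟩
  rintro ⟨j, h1, h2, h3⟩
  by_cases hj : j = i + 1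
  · exact hj ▸ h2
  · exact absurd (h3 (i + 1) (by omega) (by omega)) (h _)

theorem mx_congr {n : ℕ} {f g : ℤ → ℝ} (hp : ∀ i, 0 < f i ↔ 0 < g i) (hn : ∀ i, f i < 0 ↔ g i < 0) :
    mx n f = mx n g := by
  have h0 : ∀ i, f i = 0 ↔ g i = 0 := fun i => by
    have := hp i; have := hn i
    constructor <;> intro h <;> by_contra hc <;> rcases lt_or_gt_of_ne hc with a | a <;> simp_all
  simp only [mx_eq_win, hp, hn, h0]

theorem mx_congr_mul {n : ℕ} {f g : ℤ → ℝ} (h : ∀ i, 0 < f i * g i) : mx n f = mx n g := by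
  refine mx_congr (fun i => ?_) (fun i => ?_) <;> rcases mul_pos_iff.1 (h i) with ⟨a, b⟩ | ⟨a, b⟩ <;>
    constructor <;> intro c <;> linarith

/-- `M` alternations `+ -` within a window shorter than the period. -/
def Alt (n : ℕ) (f : ℤ → ℝ) (M : ℕ) : Prop :=
  ∃ a b : ℕ → ℤ, (∀ k < M, a k < b k ∧ 0 < f (a k) ∧ f (b k) < 0 ∧ b k < a 0 + n) ∧
    ∀ k, k + 1 < M → b k < a (k + 1)

theorem le_mx_of_alt {n : ℕ} (hn : 0 < n) {f : ℤ → ℝ} (hf : ∀ i, f (i + n) = f i) {M : ℕ}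
    (h : Alt n f M) : M ≤ mx n f := by
  classical
  obtain ⟨a, b, h1, h2⟩ := h
  set A : ℤ → Prop := fun i => 0 < f i ∧ ∃ j, i < j ∧ f j < 0 ∧ ∀ k, i < k → k < j → f k = 0 with hA
  have hper : ∀ i, A (i + n) ↔ A i := by
    intro i
    simp only [hA, hf]
    refine and_congr_right fun _ => ⟨?_, ?_⟩
    · rintro ⟨j, c1, c2, c3⟩
      refine ⟨j - n, by omega, by rw [← hf]; simpa using c2, fun k d1 d2 => ?_⟩
      rw [← hf]; exact c3 _ (by omega) (by omega)
    · rintro ⟨j, c1, c2, c3⟩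
      refine ⟨j + n, by omega, by rw [hf]; exact c2, fun k d1 d2 => ?_⟩
      have := c3 (k - n) (by omega) (by omega)
      rw [← hf] at this; simpa using this
  have key : ∀ k < M, ∃ i, a k ≤ i ∧ i < b k ∧ A i := by
    intro k hk
    obtain ⟨c1, c2, c3, -⟩ := h1 k hk
    obtain ⟨i, ⟨d1, d2, d3⟩, d4⟩ := Int.exists_greatest_of_bdd
      (P := fun i => a k ≤ i ∧ i < b k ∧ 0 < f i) ⟨b k, fun z hz => hz.2.1.le⟩ ⟨a k, le_rfl, c1, c2⟩
    obtain ⟨j, ⟨e1, e2⟩, e3⟩ := Int.exists_least_of_bdd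
      (P := fun j => i < j ∧ f j ≠ 0) ⟨i, fun z hz => hz.1.le⟩ ⟨b k, d2, c3.ne⟩
    have e4 := e3 (b k) ⟨d2, c3.ne⟩
    refine ⟨i, d1, d2, d3, j, e1, ?_, fun l g1 g2 => ?_⟩
    · rcases e4.lt_or_eq with g | g
      · rcases lt_or_gt_of_ne e2 with g' | g'
        · exact g'
        · have := d4 j ⟨by omega, g, g'⟩; omega
      · exact g ▸ c3
    · by_contra hc
      have := e3 l ⟨g1, hc⟩; omega
  choose! i hi using key
  have hmono : ∀ k l, k < l → l < M → b k < a l := by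
    intro k l hkl hl
    induction l with
    | zero => omega
    | succ l ih =>
      rcases (Nat.lt_succ_iff.1 hkl).lt_or_eq with c | c
      · have := ih c (by omega); have := (h1 l (by omega)).1; have := h2 l hl; omega
      · subst c; exact h2 k hl
  rw [mx_eq_win, ← cnt_eq_win hn hper (a 0)]
  unfold cnt
  have : M = (Iio M).ncard := by simp
  rw [this]
  refine ncard_le_ncard_of_injOn i (fun k hk => ?_) (fun k hk l hl hkl => ?_) (fin_cnt _ _ _)
  · have hk' : k < M := hk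
    obtain ⟨c1, c2, c3⟩ := hi k hk'
    refine ⟨?_, by have := (h1 k hk').2.2.2; omega, c3⟩
    rcases Nat.eq_zero_or_pos k with c | c
    · subst c; exact c1
    · have := hmono 0 k c hk'; have := (h1 0 (by omega)).1; omega
  · have hk' : k < M := hk
    have hl' : l < M := hl
    have := hi k hk'; have := hi l hl'
    rcases lt_trichotomy k l with c | c | c
    · have := hmono k l c hl'; omega
    · exact c
    · have := hmono l k c hk'; omega

theorem alt_of_le_mx {n : ℕ} {f : ℤ → ℝ} (hf : ∀ i, f (i + n) = f i) {M : ℕ}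
    (h : M ≤ mx n f) : Alt n f M := by
  classical
  set S := {i : ℤ | 0 ≤ i ∧ i < n ∧ 0 < f i ∧ ∃ j, i < j ∧ f j < 0 ∧ ∀ k, i < k → k < j → f k = 0}
    with hS
  have hfin : S.Finite := fin_win n _
  have hc : M ≤ hfin.toFinset.card := by rw [← ncard_eq_toFinset_card S hfin]; exact h
  set g := hfin.toFinset.orderEmbOfCardLe hc with hg
  have hmem : ∀ k, g k ∈ S := fun k => hfin.mem_toFinset.1 (Finset.orderEmbOfCardLe_mem _ hc k)
  choose j hj using fun k => (hmem k).2.2.2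
  have key : ∀ k (i : ℤ), g k < i → 0 < f i → j k < i := by
    intro k i h1 h2
    rcases lt_trichotomy (j k) i with c | c | c
    · exact c
    · have := (hj k).2.1; rw [c] at this; linarith
    · have := (hj k).2.2 i h1 c; linarith
  refine ⟨fun k => if hk : k < M then g ⟨k, hk⟩ else 0, fun k => if hk : k < M then j ⟨k, hk⟩ else 0,
    fun k hk => ?_, fun k hk => ?_⟩
  · have h0 : 0 < M := by omega
    simp only [hk, h0, dif_pos]
    refine ⟨(hj _).1, (hmem _).2.2.1, (hj _).2.1, key _ _ ?_ ?_⟩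
    · have := (hmem ⟨k, hk⟩).2.1; have := (hmem ⟨0, h0⟩).1; omega
    · rw [hf]; exact (hmem _).2.2.1
  · have h0 : k < M := by omega
    simp only [hk, h0, dif_pos]
    exact key _ _ (g.strictMono (by simp [Fin.lt_def])) (hmem _).2.2.1

theorem le_mx_iff {n : ℕ} (hn : 0 < n) {f : ℤ → ℝ} (hf : ∀ i, f (i + n) = f i) {M : ℕ} :
    M ≤ mx n f ↔ Alt n f M := ⟨alt_of_le_mx hf, le_mx_of_alt hn hf⟩

/-- The number of sign changes of a nowhere vanishing periodic sequence is twice the number of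
maxima. -/
theorem win_chg {n : ℕ} {f : ℤ → ℝ} (hf : ∀ i, f (i + n) = f i) (h : ∀ i, f i ≠ 0) :
    win n (fun i => f i * f (i + 1) < 0) = 2 * mx n f := by
  classical
  have w : ∀ (A : ℤ → Prop) (m : ℕ), (win m A : ℤ) = ∑ i ∈ Finset.range m, if A i then 1 else 0 := by
    intro A m
    rw [Finset.sum_boole]
    congr 1
    unfold win
    rw [← ncard_coe_finset]
    symm
    refine ncard_congr (fun i _ => (i : ℤ)) ?_ ?_ ?_
    · intro i hi
      simp only [Finset.coe_filter, Finset.mem_range, mem_ofPred_eq] at hi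
      exact ⟨by omega, by omega, hi.2⟩
    · intro i j _ _ hij; exact_mod_cast hij
    · rintro j ⟨h1, h2, h3⟩
      obtain ⟨k, rfl⟩ := Int.eq_ofNat_of_zero_le h1
      exact ⟨k, by simp only [Finset.coe_filter, Finset.mem_range, mem_ofPred_eq]; exact ⟨by omega, h3⟩, rfl⟩
  rw [mx_of_ne h]
  zify
  rw [w, w, Finset.mul_sum]
  have tele := Finset.sum_range_sub (fun i : ℕ => if 0 < f i then (1 : ℤ) else 0) n
  have e0 : f (n : ℕ) = f (0 : ℕ) := by simpa using hf 0
  rw [e0, sub_self] at tele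
  rw [← sub_eq_zero, ← Finset.sum_sub_distrib]
  refine Eq.trans ?_ tele
  refine Finset.sum_congr rfl fun i _ => ?_
  push_cast
  rcases lt_or_gt_of_ne (h i) with a | a <;> rcases lt_or_gt_of_ne (h (i + 1)) with b | b
  · simp [a.not_gt, b.not_gt, (mul_pos_of_neg_of_neg a b).not_gt]
  · simp [a.not_gt, b, mul_neg_of_neg_of_pos a b]
  · simp [a, b, b.not_gt, mul_neg_of_pos_of_neg a b]
  · simp [a, b, b.not_gt, (mul_pos a b).not_gt]

/-! ### polygons -/

/-- No edge is orthogonal to `u`. -/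
def Gen (P : Poly) (u : E) : Prop := ∀ i, ⟪P.e i, u⟫ ≠ 0

theorem Poly.inner_per (P : Poly) (u : E) (i : ℤ) : ⟪P.e (i + P.n), u⟫ = ⟪P.e i, u⟫ := by
  rw [P.e_per]

theorem Poly.nmax_le (P : Poly) (u : E) : P.nmax u ≤ P.n := mx_le _ _

theorem Poly.nmax_smul (P : Poly) (u : E) {c : ℝ} (hc : 0 < c) : P.nmax (c • u) = P.nmax u := by
  refine mx_congr (fun i => ?_) (fun i => ?_) <;> rw [real_inner_smul_right]
  · exact mul_pos_iff_of_pos_left hc
  · rw [← neg_pos, ← mul_neg, mul_pos_iff_of_pos_left hc, neg_pos]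

theorem Poly.nmax_zero (P : Poly) : P.nmax 0 = 0 := by simp [Poly.nmax, mx]

theorem Poly.nmax_le_of_unit (P : Poly) {s : ℕ} (h : ∀ u : E, ‖u‖ = 1 → P.nmax u ≤ s) (u : E) :
    P.nmax u ≤ s := by
  by_cases hu : u = 0
  · rw [hu, P.nmax_zero]; exact Nat.zero_le _
  · have hn : 0 < ‖u‖ := norm_pos_iff.2 hu
    rw [← P.nmax_smul u (inv_pos.2 hn)]
    exact h _ (by rw [norm_smul, norm_inv, norm_norm, inv_mul_cancel₀ hn.ne'])

/-- In a generic direction some vertex is a local extremum. -/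
theorem Gen.exists_chg {P : Poly} {u : E} (h : Gen P u) :
    ∃ i, ⟪P.e i, u⟫ * ⟪P.e (i + 1), u⟫ < 0 := by
  by_contra hc
  push Not at hc
  have h1 : ∀ i, 0 < ⟪P.e i, u⟫ * ⟪P.e (i + 1), u⟫ := fun i =>
    (hc i).lt_of_ne (mul_ne_zero (h i) (h _)).symm
  have h2 : ∀ k : ℕ, 0 < ⟪P.e 0, u⟫ * ⟪P.e k, u⟫ := by
    intro k
    induction k with
    | zero => simpa using mul_self_pos.2 (h 0)
    | succ k ih =>
      have := h1 k
      push_cast
      rcases mul_pos_iff.1 ih with ⟨a, b⟩ | ⟨a, b⟩ <;> rcases mul_pos_iff.1 this with ⟨c, d⟩ | ⟨c, d⟩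
      · exact mul_pos a d
      · linarith
      · linarith
      · exact mul_pos_of_neg_of_neg a d
  have tele := Finset.sum_range_sub (fun i : ℕ => ⟪P.e 0, u⟫ * ⟪P.v i, u⟫) P.n
  have e0 : P.v (P.n : ℕ) = P.v (0 : ℕ) := by simpa using P.per 0
  rw [e0, sub_self] at tele
  have : 0 < ∑ i ∈ Finset.range P.n, (⟪P.e 0, u⟫ * ⟪P.v ((i + 1 : ℕ) : ℤ), u⟫ - ⟪P.e 0, u⟫ * ⟪P.v i, u⟫) := by
    refine Finset.sum_pos (fun i _ => ?_) ⟨0, Finset.mem_range.2 P.pos⟩
    have := h2 i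
    have e1 : ⟪P.e i, u⟫ = ⟪P.v (i + 1), u⟫ - ⟪P.v i, u⟫ := by simp only [Poly.e, inner_sub_left]
    rw [e1] at this
    push_cast; linarith
  linarith

end Pool.Agent.P.MP_28369d_gt.SB
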