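import Mathlib

/-!
Definitions used in the statements about the superbridge index (problem MP_28369d_gt).
-/

namespace Pool.Agent.P.MP_28369d_gt.SB

open Set
open scoped RealInnerProductSpace unitInterval

/-- Euclidean three-space. -/
abbrev E := EuclideanSpace ℝ (Fin 3)

/-- A simple closed polygon (polygonal knot) with `n` edges `[v i, v (i+1)]`, indices mod `n`. -/
structure Poly where
  n : ℕ
  v : ℤ → E
  pos : 0 < n
  per : ∀ i, v (i + n) = v i
  simple : ∀ (i j : ℤ) (s t : ℝ), s ∈ Ico (0 : ℝ) 1 → t ∈ Ico (0 : ℝ) 1 →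
    v i + s • (v (i + 1) - v i) = v j + t • (v (j + 1) - v j) → (n : ℤ) ∣ j - i ∧ s = t

/-- The subset of space traced by the polygon. -/
def Poly.carrier (P : Poly) : Set E := ⋃ i : ℤ, segment ℝ (P.v i) (P.v (i + 1))

/-- The `i`-th edge vector. -/
def Poly.e (P : Poly) (i : ℤ) : E := P.v (i + 1) - P.v i

/-- Number of `i` with `0 ≤ i < n` such that `f i > 0` and the next nonzero term after `f i` is
negative. -/
noncomputable def mx (n : ℕ) (f : ℤ → ℝ) : ℕ :=
  {i : ℤ | 0 ≤ i ∧ i < n ∧ 0 < f i ∧ ∃ j, i < j ∧ f j < 0 ∧ ∀ k, i < k → k < j → f k = 0}.ncard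

/-- Number of local maxima of the height `x ↦ ⟪x, u⟫` on the polygon (an ascending edge followed,
after edges of constant height, by a descending edge). -/
noncomputable def Poly.nmax (P : Poly) (u : E) : ℕ := mx P.n fun i => ⟪P.e i, u⟫

/-- Ambient isotopy: a level preserving homeomorphism of `I × E` starting at the identity and
carrying `K` to `L` at time one. -/
def Iso (K L : Set E) : Prop :=
  ∃ H : I → E ≃ₜ E, Continuous (fun p : I × E => H p.1 p.2) ∧
    Continuous (fun p : I × E => (H p.1).symm p.2) ∧ (∀ x, H 0 x = x) ∧ H 1 '' K = L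

/-- Superbridge index: minimum over polygonal conformations of the maximum over unit vectors of
the number of local maxima. -/
noncomputable def sb (K : Set E) : ℕ :=
  sInf {s | ∃ P : Poly, Iso K P.carrier ∧ ∀ u : E, ‖u‖ = 1 → P.nmax u ≤ s}

/-- Bridge index: minimum over polygonal conformations and unit vectors of the number of local
maxima. -/
noncomputable def br (K : Set E) : ℕ :=
  sInf {s | ∃ P : Poly, Iso K P.carrier ∧ ∃ u : E, ‖u‖ = 1 ∧ P.nmax u = s}

/-- Stick number: the least number of edges of a polygonal conformation. -/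
noncomputable def stick (K : Set E) : ℕ := sInf {s | ∃ P : Poly, Iso K P.carrier ∧ P.n = s}

/-- `K` is a connected sum of `K₁` and `K₂`: conformations of `K₁`, `K₂` lie on the two sides of
the plane `x₀ = 0`, both meet it exactly in a segment `[a, b]`, and a conformation of `K` is their
union with the open segment removed. -/
def ConnSum (K₁ K₂ K : Set E) : Prop :=
  ∃ (P₁ P₂ P : Poly) (a b : E), Iso K₁ P₁.carrier ∧ Iso K₂ P₂.carrier ∧ Iso K P.carrier ∧ a ≠ b ∧
    (∀ p ∈ P₁.carrier, p 0 ≤ 0) ∧ (∀ p ∈ P₂.carrier, 0 ≤ p 0) ∧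
    P₁.carrier ∩ {p | p 0 = 0} = segment ℝ a b ∧ P₂.carrier ∩ {p | p 0 = 0} = segment ℝ a b ∧
    P.carrier = (P₁.carrier ∪ P₂.carrier) \ openSegment ℝ a b

/-- The point with coordinates `x, y, z`. -/
def pt (x y z : ℝ) : E := WithLp.toLp 2 ![x, y, z]

/-- The torus knot `T(2, q)` on the standard torus of revolution. -/
def torus2 (q : ℤ) : Set E :=
  range fun t : ℝ => pt ((2 + Real.cos (q * t)) * Real.cos (2 * t))
    ((2 + Real.cos (q * t)) * Real.sin (2 * t)) (Real.sin (q * t))

/-- The fundamental group of the complement of `K` maps onto the dihedral group of order `2 m`. -/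
def DihQuot (K : Set E) (m : ℕ) : Prop :=
  ∃ (p : (Kᶜ : Set E)) (ρ : FundamentalGroup (Kᶜ : Set E) p →* DihedralGroup m),
    Function.Surjective ρ

end Pool.Agent.P.MP_28369d_gt.SB
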