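import Pool.Agent.P.MP_28369d_gt.SB.Tools

/-!
Comparison of the support functions of neighbouring monotone runs.
-/

namespace Pool.Agent.P.MP_28369d_gt.SB

open Set Filter Topology
open scoped RealInnerProductSpace

namespace ADJx

theorem mono_le {η : ℝ} {θ : ℤ → ℝ} {p q : ℤ} (h : Mono η θ p q) {a b : ℤ} (ha : p ≤ a)
    (hab : a ≤ b) (hb : b ≤ q) : η * θ a ≤ η * θ b := by
  induction b, hab using Int.leInduction with
  | base => exact le_rfl
  | succ b hab ih =>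
    have h1 := ih (by omega)
    have h2 := h b (by omega) (by omega)
    linarith

theorem mono_lt {η : ℝ} {θ : ℤ → ℝ} {p q : ℤ} (h : Mono η θ p q) (hpq : p < q) :
    η * θ p < η * θ q := by
  have h1 := h p le_rfl hpq
  have h2 := mono_le h (by omega : p ≤ p + 1) (by omega : p + 1 ≤ q) le_rfl
  linarith

theorem mem_iff {η a b t : ℝ} (hη : η = 1 ∨ η = -1) (hab : η * a ≤ η * b) :
    t ∈ uIcc a b ↔ η * a ≤ η * t ∧ η * t ≤ η * b := by
  rcases hη with rfl | rfl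
  · rw [uIcc_of_le (by linarith), mem_Icc]
    constructor <;> rintro ⟨h1, h2⟩ <;> constructor <;> linarith
  · rw [uIcc_of_ge (by linarith), mem_Icc]
    constructor <;> rintro ⟨h1, h2⟩ <;> constructor <;> linarith

theorem ev_mem {η : ℝ} {θ : ℤ → ℝ} {p q k : ℤ} {t : ℝ} (hη : η = 1 ∨ η = -1) (h : Mono η θ p q)
    (h1 : p < k) (h2 : k ≤ q) (hE : Ev θ k t) : η * θ p ≤ η * t ∧ η * t ≤ η * θ q := by
  obtain ⟨e1, e2⟩ := (mem_iff hη (mono_le h (by omega) (by omega : k - 1 ≤ k) h2)).mp hE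
  exact ⟨(mono_le h le_rfl (by omega) (by omega)).trans e1, e2.trans (mono_le h h1.le h2 le_rfl)⟩

theorem pos_of_ne {F : ℝ → ℝ} (hF : Continuous F) {a b : ℝ} (h : ∀ u ∈ uIcc a b, F u ≠ 0)
    (ha : 0 < F a) : 0 < F b := by
  by_contra hb
  obtain ⟨u, hu, h0⟩ := intermediate_value_uIcc hF.continuousOn
    (show (0 : ℝ) ∈ uIcc (F a) (F b) from mem_uIcc.2 (Or.inr ⟨not_lt.1 hb, ha.le⟩))
  exact h u hu h0

theorem neg_eta {η : ℝ} (hη : η = 1 ∨ η = -1) : -η = 1 ∨ -η = -1 := by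
  rcases hη with rfl | rfl <;> simp

theorem eta_ne {η : ℝ} (hη : η = 1 ∨ η = -1) : η ≠ 0 := by
  rcases hη with rfl | rfl <;> simp

variable {M : ℕ} {lo hi : ℤ} {θ ρ x y : ℤ → ℝ}

theorem key (h : AC M lo hi θ ρ x y) {η s : ℝ} (hη : η = 1 ∨ η = -1) {k : ℤ} (h1 : lo < k)
    (h2 : k < hi) (e1 : η * θ (k - 1) ≤ η * s) (e2 : η * s < η * θ k) :
    0 < η * (hv x y s (k + 1) - hv x y s k) := by
  have h3 := (h.step (k - 1) (by omega) (by omega)).2
  rw [sub_add_cancel, abs_lt] at h3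
  have h4 := (h.rho k h1.le h2).1
  rw [hv_sub h s h1.le h2]
  rcases hη with rfl | rfl
  · have := Real.sin_pos_of_pos_of_lt_pi (x := θ k - s) (by linarith) (by linarith)
    positivity
  · have := Real.sin_pos_of_pos_of_lt_pi (x := -(θ k - s)) (by linarith) (by linarith)
    rw [Real.sin_neg] at this
    nlinarith [mul_pos h4 this]

theorem flat (h : AC M lo hi θ ρ x y) {k : ℤ} (h1 : lo ≤ k) (h2 : k < hi) :
    hv x y (θ k) (k + 1) = hv x y (θ k) k := by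
  have := hv_sub h (θ k) h1 h2
  rw [sub_self, Real.sin_zero, mul_zero] at this
  linarith

theorem ev_left (θ : ℤ → ℝ) (k : ℤ) : Ev θ (k + 1) (θ k) := by
  rw [Ev, add_sub_cancel_right]; exact left_mem_uIcc

theorem ev_right (θ : ℤ → ℝ) (k : ℤ) : Ev θ k (θ k) := right_mem_uIcc

theorem nb0 (h : AC M lo hi θ ρ x y) {i j : ℤ} {t : ℝ} (h1 : lo < i) (h2 : i + 1 < j) (h3 : j < hi)
    (e1 : Ev θ i t) (e2 : Ev θ j t) : hv x y t j - hv x y t i ≠ 0 :=
  sub_ne_zero.2 (h.nb i j t 0 h1 h2 h3 e1 (by simpa using e2)).symm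

theorem part1 (hR : S_RUNF) (h : AC M lo hi θ ρ x y) {η : ℝ} (hη : η = 1 ∨ η = -1)
    (t0 t1 t2 k k' : ℤ) (t : ℝ) (a0 : lo ≤ t0) (a2 : t2 < hi) (m1 : Mono η θ t0 t1)
    (m2 : Mono (-η) θ t1 t2) (b1 : t0 < k) (b2 : k ≤ t1) (b3 : t1 < k') (b4 : k' ≤ t2)
    (e1 : Ev θ k t) (e2 : Ev θ k' t) (hne : t ≠ θ t1) :
    0 < η * (hv x y t k' - hv x y t k) := by
  have hη' := neg_eta hη
  obtain ⟨H1, c1, d1, f1⟩ := hR M lo hi θ ρ x y h η t0 t1 hη a0 (by omega) (by omega) m1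
  obtain ⟨H2, c2, d2, f2⟩ := hR M lo hi θ ρ x y h (-η) t1 t2 hη' (by omega) (by omega) a2 m2
  obtain ⟨g1, g2⟩ := ev_mem hη m1 b1 b2 e1
  obtain ⟨g3, g4⟩ := ev_mem hη' m2 b3 b4 e2
  have g5 : η * t < η * θ t1 := g2.lt_of_ne fun hc => hne (mul_left_cancel₀ (eta_ne hη) hc)
  have s1 := m1 (t1 - 1) (by omega) (by omega)
  have s2 := m2 t1 le_rfl (by omega)
  rw [sub_add_cancel] at s1
  obtain ⟨w, w1, w2, w3, w4⟩ : ∃ w, η * t ≤ η * w ∧ η * θ (t1 - 1) ≤ η * w ∧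
      η * θ (t1 + 1) ≤ η * w ∧ η * w < η * θ t1 := by
    have hh : ∀ u : ℝ, η * (η * u) = u := by
      intro u; rcases hη with rfl | rfl <;> ring
    refine ⟨η * max (η * t) (max (η * θ (t1 - 1)) (η * θ (t1 + 1))), ?_, ?_, ?_, ?_⟩ <;> rw [hh]
    · exact le_max_left _ _
    · exact (le_max_left _ _).trans (le_max_right _ _)
    · exact (le_max_right _ _).trans (le_max_right _ _)
    · exact max_lt g5 (max_lt (by linarith) (by linarith))
  rw [← d1 k t b1 b2 e1, ← d2 k' t b3 b4 e2]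
  refine pos_of_ne (F := fun s => η * (H2 s - H1 s)) (by fun_prop) (a := w) (fun s hs => ?_) ?_
  · rw [uIcc_comm, mem_iff hη w1] at hs
    obtain ⟨j, j1, j2, j3⟩ := f1 s ((mem_iff hη (by linarith)).2 ⟨by linarith, by linarith⟩)
    obtain ⟨i, i1, i2, i3⟩ := f2 s ((mem_iff hη' (by linarith)).2 ⟨by linarith, by linarith⟩)
    show η * (H2 s - H1 s) ≠ 0
    rw [d1 j s j1 j2 j3, d2 i s i1 i2 i3]
    by_cases hc : j + 1 < i
    · exact mul_ne_zero (eta_ne hη) (nb0 h (by omega) hc (by omega) j3 i3)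
    · obtain rfl : j = t1 := by omega
      obtain rfl : i = j + 1 := by omega
      exact (key h hη (by omega) (by omega) ((mem_iff hη (by linarith)).1 j3).1
        (by linarith)).ne'
  · show 0 < η * (H2 w - H1 w)
    rw [d1 t1 w (by omega) le_rfl ((mem_iff hη (by linarith)).2 ⟨w2, w4.le⟩),
      d2 (t1 + 1) w (by omega) (by omega) (by
        rw [Ev, add_sub_cancel_right]
        exact (mem_iff hη' (by linarith)).2 ⟨by linarith, by linarith⟩)]
    exact key h hη (by omega) (by omega) w2 w4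

end ADJx

open ADJx in
theorem s_ADJ (hR : S_RUNF) : S_ADJ := by
  intro M lo hi θ ρ x y h η hη
  refine ⟨part1 hR h hη, ?_⟩
  intro t0 t1 t2 t3 k k' t a0 a3 h12 m1 m2 m3 b1 b2 b3 b4 e1 e2
  have hη' := neg_eta hη
  obtain ⟨H1, c1, d1, f1⟩ := hR M lo hi θ ρ x y h η t0 t1 hη a0 (by omega) (by omega) m1
  obtain ⟨H3, c3, d3, f3⟩ := hR M lo hi θ ρ x y h η t2 t3 hη (by omega) (by omega) a3 m3
  obtain ⟨g1, g2⟩ := ev_mem hη m1 b1 b2 e1
  obtain ⟨g3, g4⟩ := ev_mem hη m3 b3 b4 e2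
  have g5 := mono_lt m2 h12
  have hne : θ t2 ≠ θ t1 := fun hc => by rw [hc] at g5; exact lt_irrefl _ g5
  have nz : ∀ s, η * θ t0 ≤ η * s → η * s ≤ η * θ t1 → η * θ t2 ≤ η * s → η * s ≤ η * θ t3 →
      H3 s - H1 s ≠ 0 := by
    intro s s1 s2 s3 s4
    obtain ⟨j, j1, j2, j3⟩ := f1 s ((mem_iff hη (by linarith)).2 ⟨s1, s2⟩)
    obtain ⟨i, i1, i2, i3⟩ := f3 s ((mem_iff hη (by linarith)).2 ⟨s3, s4⟩)
    rw [d1 j s j1 j2 j3, d3 i s i1 i2 i3]
    exact nb0 h (by omega) (by omega) (by omega) j3 i3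
  rw [← d1 k t b1 b2 e1, ← d3 k' t b3 b4 e2]
  refine ⟨fun hc => ?_, fun hc => ?_⟩
  · refine pos_of_ne (F := fun s => η * (H3 s - H1 s)) (by fun_prop) (a := θ t2)
      (fun s hs => ?_) ?_
    · rw [mem_iff hη g3] at hs
      exact mul_ne_zero (eta_ne hη) (nz s (by linarith) (by linarith) hs.1 (by linarith))
    · obtain ⟨j, j1, j2, j3⟩ := f1 (θ t2) ((mem_iff hη (by linarith)).2 ⟨hc, by linarith⟩)
      show 0 < η * (H3 (θ t2) - H1 (θ t2))
      rw [d1 j _ j1 j2 j3, d3 (t2 + 1) _ (by omega) (by omega) (ev_left θ t2),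
        flat h (by omega) (by omega)]
      exact part1 hR h hη t0 t1 t2 j t2 _ a0 (by omega) m1 m2 j1 j2 h12 le_rfl j3
        (ev_right θ t2) hne
  · have : 0 < -η * (H3 t - H1 t) := by
      refine pos_of_ne (F := fun s => -η * (H3 s - H1 s)) (by fun_prop) (a := θ t1)
        (fun s hs => ?_) ?_
      · rw [uIcc_comm, mem_iff hη g2] at hs
        exact mul_ne_zero (eta_ne hη') (nz s (by linarith) hs.2 (by linarith) (by linarith))
      · obtain ⟨j, j1, j2, j3⟩ := f3 (θ t1) ((mem_iff hη (by linarith)).2 ⟨by linarith, hc⟩)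
        show 0 < -η * (H3 (θ t1) - H1 (θ t1))
        rw [d3 j _ j1 j2 j3, d1 t1 _ (by omega) le_rfl (ev_right θ t1),
          ← flat h (k := t1) (by omega) (by omega)]
        exact part1 hR h hη' t1 t2 t3 (t1 + 1) j _ (by omega) a3 m2 (by rwa [neg_neg]) (by omega)
          (by omega) j1 j2 (ev_left θ t1) j3 hne.symm
    linarith

end Pool.Agent.P.MP_28369d_gt.SB
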