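import Pool.Agent.P.MP_28369d_gt.SB.Tools

namespace Pool.Agent.P.MP_28369d_gt.SB

open Set Filter Topology
open scoped RealInnerProductSpace

namespace ALTx

open Classical in
theorem win_sum (A : ℤ → Prop) (m : ℕ) :
    (win m A : ℤ) = ∑ i ∈ Finset.range m, if A i then 1 else 0 := by
  rw [Finset.sum_boole]
  congr 1
  unfold win
  rw [← ncard_coe_finset]
  symm
  refine ncard_congr (fun i _ => (i : ℤ)) ?_ ?_ ?_
  · intro i hi
    simp only [Finset.coe_filter, Finset.mem_range, mem_ofPred_eq] at hi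
    exact ⟨by omega, by omega, hi.2⟩
  · intro i j _ _ hij; exact_mod_cast hij
  · rintro j ⟨h1, h2, h3⟩
    obtain ⟨k, rfl⟩ := Int.eq_ofNat_of_zero_le h1
    exact ⟨k, by
      simp only [Finset.coe_filter, Finset.mem_range, mem_ofPred_eq]; exact ⟨by omega, h3⟩, rfl⟩

noncomputable def lo (φ : ℤ → ℝ) (t : ℝ) (k : ℤ) : ℤ := if φ k < t then 1 else 0

noncomputable def ep (Z φ : ℤ → ℝ) (k : ℤ) : ℤ := if 0 < jp Z φ k then 1 else -1

theorem point {Z φ : ℤ → ℝ} {t : ℝ} (k : ℤ) (hZ : 0 < Z k * Z (k + 1) ∨ Z k * Z (k + 1) < 0)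
    (h0 : φ k ≠ t) (h1 : φ (k + 1) ≠ t) :
    (if Z k * (φ k + -t) * (Z (k + 1) * (φ (k + 1) + -t)) < 0 then (1 : ℤ) else 0) =
      (if Z k * Z (k + 1) < 0 then 1 else 0) + ep Z φ k * (lo φ t k - lo φ t (k + 1)) := by
  have e : Z k * (φ k + -t) * (Z (k + 1) * (φ (k + 1) + -t)) =
      (Z k * Z (k + 1)) * ((φ k - t) * (φ (k + 1) - t)) := by ring
  rw [e]
  unfold ep lo
  rcases hZ with hZ | hZ
  · rw [jp_of_pos hZ, if_neg hZ.not_gt]
    rcases lt_or_gt_of_ne h0 with a | a <;> rcases lt_or_gt_of_ne h1 with b | b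
    · rw [if_neg (mul_pos hZ (mul_pos_of_neg_of_neg (by linarith) (by linarith))).not_gt,
        if_pos a, if_pos b]
      simp
    · rw [if_pos (mul_neg_of_pos_of_neg hZ (mul_neg_of_neg_of_pos (by linarith) (by linarith))),
        if_pos a, if_neg b.not_gt, if_pos (by linarith)]
      simp
    · rw [if_pos (mul_neg_of_pos_of_neg hZ (mul_neg_of_pos_of_neg (by linarith) (by linarith))),
        if_neg a.not_gt, if_pos b, if_neg (by linarith)]
      simp
    · rw [if_neg (mul_pos hZ (mul_pos (by linarith) (by linarith))).not_gt,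
        if_neg a.not_gt, if_neg b.not_gt]
      simp
  · rw [jp_of_neg hZ, if_pos hZ]
    rcases lt_or_gt_of_ne h0 with a | a <;> rcases lt_or_gt_of_ne h1 with b | b
    · rw [if_pos (mul_neg_of_neg_of_pos hZ (mul_pos_of_neg_of_neg (by linarith) (by linarith))),
        if_pos a, if_pos b]
      simp
    · rw [if_neg (mul_pos_of_neg_of_neg hZ
          (mul_neg_of_neg_of_pos (by linarith) (by linarith))).not_gt,
        if_pos a, if_neg b.not_gt, if_neg (by linarith)]
      simp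
    · rw [if_neg (mul_pos_of_neg_of_neg hZ
          (mul_neg_of_pos_of_neg (by linarith) (by linarith))).not_gt,
        if_neg a.not_gt, if_pos b, if_pos (by linarith)]
      simp
    · rw [if_pos (mul_neg_of_neg_of_pos hZ (mul_pos (by linarith) (by linarith))),
        if_neg a.not_gt, if_neg b.not_gt]
      simp

theorem two_mx {n : ℕ} {Z φ : ℤ → ℝ} (pZ : ∀ i, Z (i + n) = Z i) (pφ : ∀ i, φ (i + n) = φ i)
    (hZ0 : ∀ i, Z i ≠ 0) (hZ : ∀ k, 0 < Z k * Z (k + 1) ∨ Z k * Z (k + 1) < 0) {t : ℝ}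
    (ht : ∀ k, φ k ≠ t) :
    2 * (mx n (fun i => Z i * (φ i + -t)) : ℤ) =
      (∑ k ∈ Finset.range n, if Z k * Z (k + 1) < 0 then 1 else 0) +
        ∑ k ∈ Finset.range n, lo φ t k * (ep Z φ k - ep Z φ (k - 1)) := by
  have h1 := win_chg (n := n) (f := fun i => Z i * (φ i + -t)) (fun i => by simp only [pZ, pφ])
    (fun i => mul_ne_zero (hZ0 i) (by have := ht i; intro h; apply this; linarith))
  have h2 : (2 * (mx n (fun i => Z i * (φ i + -t))) : ℤ) =
      win n (fun i => Z i * (φ i + -t) * (Z (i + 1) * (φ (i + 1) + -t)) < 0) := by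
    exact_mod_cast h1.symm
  rw [h2, win_sum]
  have tele := Finset.sum_range_sub (fun i : ℕ => lo φ t i * ep Z φ (i - 1)) n
  have e0 : lo φ t (n : ℕ) * ep Z φ ((n : ℕ) - 1) = lo φ t (0 : ℕ) * ep Z φ ((0 : ℕ) - 1) := by
    have a1 : φ (n : ℕ) = φ (0 : ℕ) := by simpa using pφ 0
    have a2 : jp Z φ ((n : ℕ) - 1) = jp Z φ ((0 : ℕ) - 1) := by
      have := jp_per pZ pφ (-1)
      rw [show (-1 : ℤ) + n = n - 1 by ring] at this
      simpa using this
    unfold lo ep
    rw [a1, a2]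
  rw [e0, sub_self] at tele
  refine Eq.trans ?_ (sub_eq_self.2 tele)
  rw [← Finset.sum_add_distrib, ← Finset.sum_sub_distrib]
  refine Finset.sum_congr rfl fun k _ => ?_
  have := point k (hZ k) (ht k) (ht (k + 1))
  push_cast
  rw [add_sub_cancel_right]
  refine Eq.trans ?_ (this.trans (by ring))
  congr 1

end ALTx

open ALTx in
theorem s_ALT : S_ALT := by
  intro m n Z x y h a b i j hinj hi1 hi2 hj1 hj2 hij
  set φ := lin a b x y with hφ
  have pφ : ∀ i, φ (i + n) = φ i := h.lin_per a b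
  have hfin : (range φ).Finite := finite_range_of_per h.n_pos pφ
  have pj : ∀ i, jp Z φ (i + n) = jp Z φ i := jp_per h.pZ pφ
  obtain ⟨t0, ht0, ht0'⟩ : ∃ t0, t0 < φ i ∧ ∀ k, φ k < φ i → φ k < t0 := by
    have h1 : ∀ᶠ t in 𝓝[<] (φ i), ∀ v ∈ range φ, v < φ i → v < t := by
      refine (eventually_all_finite hfin).2 fun v _ => ?_
      by_cases hv : v < φ i
      · exact ((eventually_gt_nhds hv).filter_mono nhdsWithin_le_nhds).mono fun t ht _ => ht
      · exact Eventually.of_forall fun t hc => absurd hc hv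
    obtain ⟨t, ht1, ht2⟩ := (h1.and self_mem_nhdsWithin).exists
    exact ⟨t, ht2, fun k => ht1 _ (mem_range_self k)⟩
  obtain ⟨t1, ht1, ht1'⟩ : ∃ t1, φ j < t1 ∧ ∀ k, φ j < φ k → t1 < φ k := by
    have h1 : ∀ᶠ t in 𝓝[>] (φ j), ∀ v ∈ range φ, φ j < v → t < v := by
      refine (eventually_all_finite hfin).2 fun v _ => ?_
      by_cases hv : φ j < v
      · exact ((eventually_lt_nhds hv).filter_mono nhdsWithin_le_nhds).mono fun t ht _ => ht
      · exact Eventually.of_forall fun t hc => absurd hc hv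
    obtain ⟨t, ht1, ht2⟩ := (h1.and self_mem_nhdsWithin).exists
    exact ⟨t, ht2, fun k => ht1 _ (mem_range_self k)⟩
  have n0 : ∀ k, φ k ≠ t0 := fun k hk => by
    have := ht0' k (by linarith)
    linarith
  have n1 : ∀ k, φ k ≠ t1 := fun k hk => by
    have := ht1' k (by linarith)
    linarith
  have m0 := two_mx h.pZ pφ h.Zne h.pos_or_neg n0
  have m1 := two_mx h.pZ pφ h.Zne h.pos_or_neg n1
  have b0 := (h.two a b (-t0) fun k hk => n0 k (by linarith)).1
  have b1 := (h.two a b (-t1) fun k hk => n1 k (by linarith)).2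
  by_contra hc
  push Not at hc
  set g : ℤ → ℤ := fun k => (lo φ t1 k - lo φ t0 k) * (ep Z φ k - ep Z φ (k - 1)) with hg
  have pg : ∀ k, g (k + n) = g k := by
    intro k
    have := pj (k - 1)
    rw [show k - 1 + n = k + n - 1 by ring] at this
    simp only [hg, lo, ep, pφ, pj, this]
  have jne : ∀ k, jp Z φ k ≠ 0 := fun k hk =>
    hinj k (k + 1) (not_dvd_of_lt (by simp) (by have := h.big; simp; omega)) (jp_eq_zero.1 hk).symm
  have g0 : ∀ k, 0 ≤ g k := by
    intro k
    simp only [hg, lo, ep]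
    by_cases c0 : φ k < t0
    · rw [if_pos c0, if_pos (by linarith)]; simp
    by_cases c1 : φ k < t1
    swap
    · rw [if_neg c0, if_neg c1]; simp
    rw [if_pos c1, if_neg c0]
    by_cases d0 : 0 < jp Z φ k
    · rw [if_pos d0]; split_ifs <;> simp
    by_cases d1 : 0 < jp Z φ (k - 1)
    swap
    · rw [if_neg d0, if_neg d1]; simp
    exfalso
    have d2 : jp Z φ k < 0 := lt_of_le_of_ne (not_lt.1 d0) (jne k)
    have e1 : φ i < φ k := by
      refine lt_of_le_of_ne (not_lt.1 fun hh => c0 (ht0' k hh)) fun hh => ?_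
      by_cases hd : (n : ℤ) ∣ k - i
      · have := per_of_dvd pj hd
        linarith
      · exact hinj i k hd hh
    have e2 : φ k < φ j := by
      refine lt_of_le_of_ne (not_lt.1 fun hh => (ht1' k hh).not_gt c1) fun hh => ?_
      by_cases hd : (n : ℤ) ∣ j - k
      · have := per_of_dvd pj hd
        linarith
      · exact hinj k j hd hh
    exact (hc k d1 d2 e1).not_gt e2
  have gi : g i = 2 := by
    simp only [hg, lo, ep]
    rw [if_pos (by linarith), if_neg ht0.not_gt, if_pos hi2, if_neg hi1.not_gt]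
    norm_num
  have gj : g j = 2 := by
    simp only [hg, lo, ep]
    rw [if_pos ht1, if_neg (by linarith), if_pos hj2, if_neg hj1.not_gt]
    norm_num
  have hn : (0 : ℤ) < n := by exact_mod_cast h.n_pos
  have rep : ∀ k : ℤ, ∃ l : ℕ, l ∈ Finset.range n ∧ (n : ℤ) ∣ l - k := by
    intro k
    obtain ⟨l, hl⟩ := Int.eq_ofNat_of_zero_le (Int.emod_nonneg k hn.ne')
    refine ⟨l, Finset.mem_range.2 ?_, ?_⟩
    · have := Int.emod_lt_of_pos k hn
      omega
    · rw [← hl]
      exact ⟨-(k / n), by have := Int.emod_add_mul_ediv k n; linarith⟩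
  obtain ⟨i', hi', di⟩ := rep i
  obtain ⟨j', hj', dj⟩ := rep j
  have hne : i' ≠ j' := by
    rintro rfl
    have := per_of_dvd pφ di
    have := per_of_dvd pφ dj
    linarith
  have s1 : g i' + g j' ≤ ∑ k ∈ Finset.range n, g k :=
    Finset.add_le_sum (f := fun k : ℕ => g k) (fun k _ => g0 k) hi' hj' hne
  rw [per_of_dvd pg di, per_of_dvd pg dj, gi, gj] at s1
  simp only [hg, sub_mul, Finset.sum_sub_distrib] at s1
  have b0' : (m : ℤ) ≤ mx n (fun i => Z i * (φ i + -t0)) := by exact_mod_cast b0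
  have b1' : (mx n (fun i => Z i * (φ i + -t1)) : ℤ) ≤ m + 1 := by exact_mod_cast b1
  linarith

end Pool.Agent.P.MP_28369d_gt.SB
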