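import Pool.Agent.P.MP_28369d_gt.SB.Tools

/-!
Boundedly many breaks and cuts of the velocity polygon.
-/

namespace Pool.Agent.P.MP_28369d_gt.SB

open Set Filter Topology
open scoped RealInnerProductSpace

namespace BRKx

theorem cnt_shift (p q : ℤ) (A : ℤ → Prop) :
    cnt p q (fun i => A (i + 1)) ≤ cnt (p + 1) (q + 1) A := by
  unfold cnt
  refine ncard_le_ncard_of_injOn (fun i => i + 1) ?_ ?_ (fin_cnt _ _ _)
  · rintro i ⟨h1, h2, h3⟩
    exact ⟨by omega, by omega, h3⟩
  · intro i _ j _ h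
    simpa using h

theorem cnt_union {ι : Type} (p q : ℤ) (B : Finset ι) (A : ι → ℤ → Prop) (c : ℕ)
    (h : ∀ j, cnt p q (A j) ≤ c) : cnt p q (fun i => ∃ j ∈ B, A j i) ≤ B.card * c := by
  classical
  induction B using Finset.induction_on with
  | empty => simp [cnt]
  | insert a s ha ih =>
    rw [Finset.card_insert_of_notMem ha, add_mul, one_mul, add_comm]
    refine le_trans (cnt_mono (B := fun i => A a i ∨ ∃ j ∈ s, A j i) ?_)
      ((cnt_or _ _ _ _).trans (add_le_add (h a) ih))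
    rintro i h1 h2 ⟨j, hj, h3⟩
    refine ⟨h1, h2, ?_⟩
    rcases Finset.mem_insert.1 hj with rfl | hj
    · exact Or.inl h3
    · exact Or.inr ⟨j, hj, h3⟩

theorem sin_sign {d : ℝ} (h0 : d ≠ 0) (h1 : |d| < Real.pi) : 0 < Real.sin d * d := by
  rcases lt_or_gt_of_ne h0 with h | h
  · rw [abs_of_neg h] at h1
    have := Real.sin_pos_of_pos_of_lt_pi (x := -d) (by linarith) h1
    rw [Real.sin_neg] at this
    nlinarith
  · rw [abs_of_pos h] at h1
    exact mul_pos (Real.sin_pos_of_pos_of_lt_pi h h1) h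

theorem xc_count {M CT CS : ℕ} {p q : ℤ} {θ ρ x y : ℤ → ℝ} (h : AC M p q θ ρ x y)
    (hT : cnt (p + 1) (q - 2) (fun k => (θ k - θ (k - 1)) * (θ (k + 1) - θ k) < 0) ≤ CT)
    (hS : ∀ (η : ℝ) (p' q' : ℤ), (η = 1 ∨ η = -1) → p ≤ p' → q' < q → Mono η θ p' q' →
      cnt (p' + 1) q' (fun k => Real.cos (θ (k - 1)) * Real.cos (θ k) < 0) ≤ CS) :
    cnt (p + 1) (q - 1) (fun k => Real.cos (θ (k - 1)) * Real.cos (θ k) < 0) ≤ (CT + 1) * CS := by
  refine (cnt_le_mul (p + 1) (q - 1)
    (fun k => k ≤ q - 2 ∧ (θ k - θ (k - 1)) * (θ (k + 1) - θ k) < 0) _ CS ?_).trans ?_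
  · intro p1 q1 h1 h2 h3 h4
    have hne : ∀ k, p ≤ k → k + 1 < q → θ (k + 1) - θ k ≠ 0 := fun k a b =>
      sub_ne_zero.2 (h.step k a b).1
    have h5 := pos_chain (g := fun k => θ (k + 1) - θ k) (p := p1 - 1) (q := q1 - 1)
      (hne _ (by omega) (by omega)) (by
        intro i a b
        have c := h4 (i + 1) (by omega) (by omega)
        rw [not_and, not_lt, add_sub_cancel_right] at c
        exact lt_of_le_of_ne (c (by omega))
          (mul_ne_zero (hne i (by omega) (by omega)) (hne (i + 1) (by omega) (by omega))).symm)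
    have h6 : ∃ η : ℝ, (η = 1 ∨ η = -1) ∧ Mono η θ (p1 - 1) q1 := by
      rcases lt_or_gt_of_ne (hne (p1 - 1) (by omega) (by omega)) with c | c
      · refine ⟨-1, Or.inr rfl, fun k a b => ?_⟩
        have := h5 k a (by omega)
        nlinarith
      · refine ⟨1, Or.inl rfl, fun k a b => ?_⟩
        have := h5 k a (by omega)
        nlinarith
    obtain ⟨η, h7, h8⟩ := h6
    have := hS η (p1 - 1) q1 h7 (by omega) (by omega) h8
    rwa [sub_add_cancel] at this
  · refine Nat.mul_le_mul_right _ (Nat.succ_le_succ (le_trans (cnt_mono ?_) hT))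
    exact fun i a _ c => ⟨a, c.1, c.2⟩

theorem brk_cases {M : ℕ} {p q : ℤ} {Z θ ρ x y : ℤ → ℝ} (h : AC M p q θ ρ x y)
    (hZ : ∀ i, p ≤ i → i < q → 0 < Z i * Z (i + 1)) {i : ℤ} (h1 : p + 1 ≤ i) (h2 : i ≤ q - 2)
    (hb : brk Z x y i) : Real.cos (θ (i - 1)) * Real.cos (θ i) < 0 ∨
      Real.cos (θ (i + 1 - 1)) * Real.cos (θ (i + 1)) < 0 ∨
      (θ i - θ (i - 1)) * (θ (i + 1) - θ i) < 0 := by
  have hx : ∀ k, p ≤ k → k < q → jp Z x k = ρ k * Real.cos (θ k) := fun k a b => by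
    rw [jp_of_pos (hZ k a b), (h.rho k a b).2.1]
  have hy : ∀ k, p ≤ k → k < q → jp Z y k = ρ k * Real.sin (θ k) := fun k a b => by
    rw [jp_of_pos (hZ k a b), (h.rho k a b).2.2]
  have hc : ∀ k, p + 1 ≤ k → k < q → jp Z x (k - 1) * jp Z x k < 0 →
      Real.cos (θ (k - 1)) * Real.cos (θ k) < 0 := by
    intro k a b c
    rw [hx _ (by omega) (by omega), hx _ (by omega) b] at c
    have r := mul_pos (h.rho (k - 1) (by omega) (by omega)).1 (h.rho k (by omega) b).1
    by_contra d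
    have := mul_nonneg r.le (not_lt.1 d)
    nlinarith
  have ht : ∀ k, p + 1 ≤ k → k < q → 0 < trn Z x y k * (θ k - θ (k - 1)) := by
    intro k a b
    have r := mul_pos (h.rho (k - 1) (by omega) (by omega)).1 (h.rho k (by omega) b).1
    have s := h.step (k - 1) (by omega) (by omega)
    rw [sub_add_cancel] at s
    have e : trn Z x y k = ρ (k - 1) * ρ k * Real.sin (θ k - θ (k - 1)) := by
      unfold trn
      rw [hx (k - 1) (by omega) (by omega), hx k (by omega) b, hy (k - 1) (by omega) (by omega),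
        hy k (by omega) b, Real.sin_sub]
      ring
    rw [e, mul_assoc]
    exact mul_pos r (sin_sign (sub_ne_zero.2 s.1) s.2)
  rcases hb with c | c | c | c
  · exact absurd c (not_lt.2 (hZ i (by omega) (by omega)).le)
  · exact Or.inl (hc i h1 (by omega) c)
  · refine Or.inr (Or.inl (hc (i + 1) (by omega) (by omega) ?_))
    rwa [add_sub_cancel_right]
  · refine Or.inr (Or.inr ?_)
    have a := ht i h1 (by omega)
    have b := ht (i + 1) (by omega) (by omega)
    rw [add_sub_cancel_right] at b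
    by_contra d
    have e := mul_pos a b
    nlinarith [mul_nonneg (neg_nonneg.2 c.le) (not_lt.1 d)]

theorem two_of_mono {s : ℤ → ℝ} {η θ0 : ℝ} {p q : ℤ}
    (h : ∀ i, p ≤ i → i ≤ q → 0 < η * (s i - s (i - 1))) :
    cnt p q (fun i => θ0 ∈ uIcc (s (i - 1)) (s i)) ≤ 2 := by
  have h1 : ∀ a b, p - 1 ≤ a → a ≤ b → b ≤ q → η * s a ≤ η * s b := by
    intro a b ha hab
    induction b, hab using Int.leInduction with
    | base => exact fun _ => le_rfl
    | succ b hb ih =>
      intro hq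
      have := h (b + 1) (by omega) hq
      rw [add_sub_cancel_right] at this
      have := ih (by omega)
      linarith
  have h2 : ∀ i, p ≤ i → i ≤ q → θ0 ∈ uIcc (s (i - 1)) (s i) →
      η * s (i - 1) ≤ η * θ0 ∧ η * θ0 ≤ η * s i := by
    intro i a b c
    have d := h i a b
    rcases mem_uIcc.1 c with ⟨e, f⟩ | ⟨e, f⟩
    · have g : 0 < η := by
        by_contra g
        have := mul_nonneg (neg_nonneg.2 (not_lt.1 g)) (show 0 ≤ s i - s (i - 1) by linarith)
        linarith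
      exact ⟨mul_le_mul_of_nonneg_left e g.le, mul_le_mul_of_nonneg_left f g.le⟩
    · have g : η < 0 := by
        by_contra g
        have := mul_nonneg (not_lt.1 g) (show 0 ≤ s (i - 1) - s i by linarith)
        linarith
      exact ⟨mul_le_mul_of_nonpos_left f g.le, mul_le_mul_of_nonpos_left e g.le⟩
  by_cases hne : ∃ i, p ≤ i ∧ i ≤ q ∧ θ0 ∈ uIcc (s (i - 1)) (s i)
  · obtain ⟨i0, ⟨a, b, c⟩, hmin⟩ := Int.exists_least_of_bdd
      (P := fun i => p ≤ i ∧ i ≤ q ∧ θ0 ∈ uIcc (s (i - 1)) (s i)) ⟨p, fun z hz => hz.1⟩ hne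
    refine le_trans (cnt_mono (p' := i0) (q' := i0 + 1) (B := fun _ => True) ?_)
      ((cnt_le _ _ _).trans (by omega))
    intro i a' b' c'
    refine ⟨hmin i ⟨a', b', c'⟩, ?_, trivial⟩
    by_contra d
    have e1 := (h2 i0 a b c).2
    have e2 := (h2 i a' b' c').1
    have e3 := h1 (i0 + 1) (i - 1) (by omega) (by omega) (by omega)
    have e4 := h (i0 + 1) (by omega) (by omega)
    rw [add_sub_cancel_right] at e4
    linarith
  · refine le_trans (cnt_mono (p' := 0) (q' := 0) (B := fun _ => True) ?_)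
      ((cnt_le _ _ _).trans (by omega))
    exact fun i a b c => absurd ⟨i, a, b, c⟩ hne

end BRKx

theorem s_BRK (hA : S_ANG) (hT : S_TCN) (hS : S_SPI) : S_BRK := by
  intro m
  obtain ⟨CT, hCT⟩ := hT (m + 2)
  obtain ⟨CS, hCS⟩ := hS (m + 2)
  refine ⟨(2 * (m + 1) + 1) * (1 + (2 + ((CT + 1) * CS + ((CT + 1) * CS + CT)))),
    fun n Z x y h => ?_⟩
  rw [win_eq_cnt]
  refine (cnt_le_mul 0 (n - 1) (fun i => Z i * Z (i + 1) < 0) _
    (1 + (2 + ((CT + 1) * CS + ((CT + 1) * CS + CT)))) ?_).trans ?_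
  · intro p q _ _ _ h4
    have hZ : ∀ i, p ≤ i → i < q → 0 < Z i * Z (i + 1) := fun i a b =>
      (h.pos_or_neg i).resolve_right (h4 i a b)
    obtain ⟨θ, ρ, hAC⟩ := hA m n Z x y h p q hZ
    have t1 := hCT p q θ ρ x y hAC
    have t2 := BRKx.xc_count hAC t1 (hCS p q θ ρ x y hAC)
    refine le_trans (cnt_mono (p' := p) (q' := q) (B := fun i => i ≤ p ∨ (q - 1 ≤ i ∨
      ((p + 1 ≤ i ∧ i ≤ q - 2 ∧ Real.cos (θ (i - 1)) * Real.cos (θ i) < 0) ∨
      ((p + 1 ≤ i + 1 ∧ i + 1 ≤ q - 1 ∧ Real.cos (θ (i + 1 - 1)) * Real.cos (θ (i + 1)) < 0) ∨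
      (p + 1 ≤ i ∧ i ≤ q - 2 ∧ (θ i - θ (i - 1)) * (θ (i + 1) - θ i) < 0))))) ?_) ?_
    · intro i a b c
      refine ⟨a, b, ?_⟩
      by_cases d1 : i ≤ p
      · exact Or.inl d1
      by_cases d2 : q - 1 ≤ i
      · exact Or.inr (Or.inl d2)
      refine Or.inr (Or.inr ?_)
      rcases BRKx.brk_cases hAC hZ (by omega) (by omega) c with e | e | e
      · exact Or.inl ⟨by omega, by omega, e⟩
      · exact Or.inr (Or.inl ⟨by omega, by omega, e⟩)
      · exact Or.inr (Or.inr ⟨by omega, by omega, e⟩)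
    · refine (cnt_or _ _ _ _).trans (add_le_add ?_ ((cnt_or _ _ _ _).trans (add_le_add ?_
        ((cnt_or _ _ _ _).trans (add_le_add ?_ ((cnt_or _ _ _ _).trans (add_le_add ?_ ?_)))))))
      · refine le_trans (cnt_mono (p' := p) (q' := p) (B := fun _ => True) ?_)
          ((cnt_le _ _ _).trans (by omega))
        exact fun i a _ c => ⟨a, c, trivial⟩
      · refine le_trans (cnt_mono (p' := q - 1) (q' := q) (B := fun _ => True) ?_)
          ((cnt_le _ _ _).trans (by omega))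
        exact fun i _ b c => ⟨c, b, trivial⟩
      · exact le_trans (cnt_mono fun i _ _ c => ⟨c.1, by omega, c.2.2⟩) t2
      · refine le_trans (BRKx.cnt_shift p q (fun i => p + 1 ≤ i ∧ i ≤ q - 1 ∧
          Real.cos (θ (i - 1)) * Real.cos (θ i) < 0)) ?_
        exact le_trans (cnt_mono fun i _ _ c => c) t2
      · exact le_trans (cnt_mono fun i _ _ c => c) t1
  · refine Nat.mul_le_mul_right _ (Nat.succ_le_succ ?_)
    rw [← win_eq_cnt, win_chg h.pZ h.Zne]
    have := (h.two 0 0 1 (fun i => by simp [lin])).2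
    simp only [lin, zero_mul, add_zero, zero_add, mul_one] at this
    exact Nat.mul_le_mul_left _ this

theorem s_CUT (hB : S_BRK) : S_CUT := by
  intro m
  obtain ⟨C1, hC⟩ := hB m
  refine ⟨C1 + C1 * ((C1 + 1) * 2), fun n Z x y h => ⟨?_, fun i => ?_⟩⟩
  · have h1 := hC n Z x y h
    have hn : (0 : ℤ) < n := by exact_mod_cast h.n_pos
    have h2 : ∀ θ0 : ℝ, cnt 0 (n - 1) (fun i => θ0 ∈ uIcc (sl Z x y (i - 1)) (sl Z x y i)) ≤
        (C1 + 1) * 2 := by
      intro θ0
      refine (cnt_le_mul 0 (n - 1) (brk Z x y) _ 2 ?_).trans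
        (Nat.mul_le_mul_right _ (Nat.succ_le_succ (by rwa [← win_eq_cnt])))
      intro p q _ hpq _ h4
      rcases hpq.eq_or_lt with rfl | hlt
      · exact (cnt_le _ _ _).trans (by omega)
      refine BRKx.two_of_mono (η := trn Z x y p) fun i a b => ?_
      have c := pos_chain (g := trn Z x y) (h.trn_ne p)
        (fun i a b => (h.not_brk (h4 i a b)).2.2.2) i a b
      have d : 0 < jp Z x (i - 1) * jp Z x i := by
        rcases b.eq_or_lt with rfl | b'
        · have := (h.not_brk (h4 (i - 1) (by omega) (by omega))).2.2.1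
          rwa [sub_add_cancel] at this
        · exact (h.not_brk (h4 i a b')).2.1
      rw [h.sl_sub, ← mul_div_assoc]
      exact div_pos c d
    have h3 := BRKx.cnt_union 0 (n - 1) (fin_win n (brk Z x y)).toFinset
      (fun j i => sl Z x y j ∈ uIcc (sl Z x y (i - 1)) (sl Z x y i)) _ fun j => h2 _
    have h4 : (fin_win n (brk Z x y)).toFinset.card ≤ C1 := by
      rw [← ncard_eq_toFinset_card _ (fin_win n (brk Z x y))]
      exact h1
    rw [win_eq_cnt] at h1 ⊢
    refine le_trans (cnt_mono ?_) ((cnt_or _ _ _ _).trans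
      (add_le_add h1 (h3.trans (Nat.mul_le_mul_right _ h4))))
    rintro i a b (c | ⟨j, c, d⟩)
    · exact ⟨a, b, Or.inl c⟩
    · have e : j % n = j + (-(j / n)) * n := by
        have := Int.emod_add_mul_ediv j n
        linarith
      refine ⟨a, b, Or.inr ⟨j % n, ?_, ?_⟩⟩
      · rw [Finite.mem_toFinset]
        refine ⟨Int.emod_nonneg _ hn.ne', Int.emod_lt_of_pos _ hn, ?_⟩
        rw [e, h.brk_zmul]
        exact c
      · rw [e, per_zmul h.sl_per]
        exact d
  · unfold cut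
    rw [h.brk_per, h.sl_per, show i + n - 1 = (i - 1) + n by ring, h.sl_per]

end Pool.Agent.P.MP_28369d_gt.SB
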