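import Pool.Agent.P.MP_28369d_gt.SB.Tools

/-!
Choice of coordinates.
-/

namespace Pool.Agent.P.MP_28369d_gt.SB

open Set Filter Topology
open scoped RealInnerProductSpace

namespace COORDx

theorem lagr (a b w w' : E) : ⟪w, a⟫ * ⟪w', b⟫ - ⟪w, b⟫ * ⟪w', a⟫ = ⟪cr w w', cr a b⟫ := by
  simp only [inner3, cr, pt_0, pt_1, pt_2]
  ring

theorem cr_ne {a b w w' : E} (h : ⟪w, a⟫ * ⟪w', b⟫ - ⟪w, b⟫ * ⟪w', a⟫ ≠ 0) : cr a b ≠ 0 := by
  intro h0
  rw [lagr, h0, inner_zero_right] at h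
  exact h rfl

theorem exists_perp (a b : E) : ∃ u : E, u ≠ 0 ∧ ⟪a, u⟫ = 0 ∧ ⟪b, u⟫ = 0 := by
  have h := LinearMap.ker_ne_bot_of_finrank_lt
    (f := LinearMap.prod (innerSL ℝ a).toLinearMap (innerSL ℝ b).toLinearMap) (by simp)
  obtain ⟨u, hu, h0⟩ := (Submodule.ne_bot_iff _).1 h
  have h1 := LinearMap.mem_ker.1 hu
  exact ⟨u, h0, congrArg Prod.fst h1, congrArg Prod.snd h1⟩

theorem span3 {a b c : E} (h : det3 a b c ≠ 0) : Span3 a b c := fun v h1 h2 h3 =>
  eq_zero_of_det3 h (by rwa [real_inner_comm]) (by rwa [real_inner_comm])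
    (by rwa [real_inner_comm])

theorem indep {x y z : E} (h : det3 x y z ≠ 0) {a b c : ℝ} (h0 : a • x + b • y + c • z = 0) :
    a = 0 ∧ b = 0 := by
  have h1 : det3 y z (a • x + b • y + c • z) = a * det3 x y z := by
    rw [det3_add, det3_add, det3_smul, det3_smul, det3_smul]
    simp only [det3_eq]
    ring
  have h2 : det3 z x (a • x + b • y + c • z) = b * det3 x y z := by
    rw [det3_add, det3_add, det3_smul, det3_smul, det3_smul]
    simp only [det3_eq]
    ring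
  rw [h0, det3, inner_zero_right] at h1 h2
  exact ⟨(mul_eq_zero.1 h1.symm).resolve_right h, (mul_eq_zero.1 h2.symm).resolve_right h⟩

theorem exists_gen (P : Poly) : ∃ u, Gen P u := by
  obtain ⟨u, hu⟩ := exists_generic (finite_range_of_per P.pos P.e_per)
    (by rintro _ ⟨i, rfl⟩; exact P.e_ne i)
  exact ⟨u, fun i => hu _ ⟨i, rfl⟩⟩

theorem third {n : ℕ} (hn : 5 ≤ n) (i j : ℤ) : ∃ k, ¬ (n : ℤ) ∣ k - i ∧ ¬ (n : ℤ) ∣ k - j := by
  by_cases h : (n : ℤ) ∣ i + 1 - j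
  · refine ⟨i + 2, not_dvd_of_lt (by omega) (by simp; omega), fun h' => ?_⟩
    have := dvd_sub h' h
    exact not_dvd_of_lt (by omega) (by simp; omega) this
  · exact ⟨i + 1, not_dvd_of_lt (by omega) (by simp; omega), h⟩

theorem w_ne {P : Poly} (hn : 5 ≤ P.n) (hP : GP3 P) {uz : E} (hz : Gen P uz) {i j : ℤ}
    (hij : ¬ (P.n : ℤ) ∣ j - i) : ⟪P.e j, uz⟫ • P.e i - ⟪P.e i, uz⟫ • P.e j ≠ 0 := by
  intro h
  obtain ⟨k, h1, h2⟩ := third hn i j
  obtain ⟨u, h0, a, b⟩ := exists_perp (P.e i) (P.e k)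
  refine h0 (hP u i j k hij h1 h2 a ?_ b)
  have := congrArg (fun v => ⟪v, u⟫) h
  simp only [inner_sub_left, real_inner_smul_left, a, mul_zero, inner_zero_left, zero_sub,
    neg_eq_zero] at this
  exact (mul_eq_zero.1 this).resolve_left (hz i)

theorem key (P : Poly) {ux uy uz : E} (hz : Gen P uz) (a b c : ℝ) (i : ℤ) :
    df (co P uz) i * (lin a b (vel P ux uz) (vel P uy uz) i + c) =
      ⟪P.e i, a • ux + b • uy + c • uz⟫ := by
  have := hz i
  simp only [lin, vel, df_co', inner_add_right, real_inner_smul_right]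
  field_simp

end COORDx

open COORDx in
theorem s_COORD : S_COORD := by
  refine ⟨fun P hn hP => ?_, fun P u hu he => ?_⟩
  · obtain ⟨uz, hz⟩ := exists_gen P
    have hfin : {w : E | ∃ i j, ¬ (P.n : ℤ) ∣ j - i ∧
        w = ⟪P.e j, uz⟫ • P.e i - ⟪P.e i, uz⟫ • P.e j}.Finite := by
      have h := finite_range_of_per P.pos P.e_per
      refine ((h.prod h).image fun p : E × E => ⟪p.2, uz⟫ • p.1 - ⟪p.1, uz⟫ • p.2).subset ?_
      rintro _ ⟨i, j, -, rfl⟩
      exact ⟨(P.e i, P.e j), ⟨⟨i, rfl⟩, ⟨j, rfl⟩⟩, rfl⟩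
    obtain ⟨ux, hx⟩ := exists_generic hfin (by rintro _ ⟨i, j, h, rfl⟩; exact w_ne hn hP hz h)
    have hx' : ∀ i j, ¬ (P.n : ℤ) ∣ j - i →
        ⟪P.e i, ux⟫ * ⟪P.e j, uz⟫ - ⟪P.e i, uz⟫ * ⟪P.e j, ux⟫ ≠ 0 := fun i j h => by
      have := hx _ ⟨i, j, h, rfl⟩
      rwa [inner_sub_left, real_inner_smul_left, real_inner_smul_left, mul_comm] at this
    have hc : cr ux uz ≠ 0 := cr_ne (hx' 0 1 (not_dvd_of_lt (by omega) (by simp; omega)))
    have hd : det3 ux (cr uz ux) uz ≠ 0 := by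
      have : det3 ux (cr uz ux) uz = ⟪cr ux uz, cr ux uz⟫ := by
        simp only [det3_eq, inner3, cr, pt_0, pt_1, pt_2]
        ring
      rw [this]
      exact fun h => hc (inner_self_eq_zero.1 h)
    refine ⟨ux, cr uz ux, uz, span3 hd, hz, fun m hm => ⟨hn, fun i => ?_, fun i => ?_, fun i => ?_,
      fun i => ?_, ?_, fun i j h h' => ?_, fun a b i j k hab h1 h2 h3 e1 e2 => ?_,
      fun a b c h => ?_⟩⟩
    · simp only [df_co', P.e_per]
    · simp only [vel, df_co', P.e_per]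
    · simp only [vel, df_co', P.e_per]
    · rw [df_co']
      exact hz i
    · simpa only [df_co'] using hz.exists_chg
    · simp only [vel, df_co'] at h'
      rw [div_eq_div_iff (hz i) (hz j)] at h'
      exact hx' i j h (by linarith)
    · have h0 := hP (a • ux + b • cr uz ux + (-lin a b (vel P ux uz) (vel P (cr uz ux) uz) i) • uz)
        i j k h1 h2 h3 (by rw [← key P hz]; ring) (by rw [← key P hz, e1]; ring)
        (by rw [← key P hz, e2]; ring)
      obtain ⟨ha, hb⟩ := indep hd h0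
      exact hab.elim (fun h => h ha) fun h => h hb
    · rw [funext (key P hz a b c)]
      refine hm _ fun i => ?_
      rw [← key P hz, df_co']
      exact mul_ne_zero (hz i) (h i)
  · obtain ⟨uz, hz⟩ := exists_gen P
    have hc : cr u uz ≠ 0 := by
      refine cr_ne (w := P.e 0) (w' := u) ?_
      rw [he, zero_mul, zero_sub, neg_ne_zero]
      exact mul_ne_zero (hz 0) fun h => hu (inner_self_eq_zero.1 h)
    refine ⟨cr u uz, uz, span3 ?_, hz⟩
    have : det3 (cr u uz) u uz = ⟪cr u uz, cr u uz⟫ := by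
      simp only [det3_eq, inner3, cr, pt_0, pt_1, pt_2]
      ring
    rw [this]
    exact fun h => hc (inner_self_eq_zero.1 h)

end Pool.Agent.P.MP_28369d_gt.SB
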