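import Pool.Agent.P.MP_28369d_gt.SB.Tools

namespace Pool.Agent.P.MP_28369d_gt.SB

open Set Filter Topology
open scoped RealInnerProductSpace

namespace EMBx

/-- from local to uniform statements on the strip `|s - t| ≤ T / 2` -/
theorem unif {T : ℝ} (hT : 0 < T) {P : ℝ → ℝ → ℝ → Prop}
    (hp : ∀ c s t (k : ℤ), P c (s - k * T) (t - k * T) → P c s t)
    (h : ∀ s t, |s - t| ≤ T / 2 → ∀ᶠ z : ℝ × ℝ × ℝ in 𝓝 (0, s, t), P z.1 z.2.1 z.2.2) :
    ∃ c > (0 : ℝ), ∀ s t, |s - t| ≤ T / 2 → P c s t := by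
  have hK : IsCompact ((Icc 0 T ×ˢ Icc (-T) (2 * T)) ∩ {p : ℝ × ℝ | |p.1 - p.2| ≤ T / 2}) :=
    (isCompact_Icc.prod isCompact_Icc).inter_right (isClosed_le (by fun_prop) continuous_const)
  have h1 := hK.eventually_forall_of_forall_eventually (x₀ := (0 : ℝ))
    (P := fun c p => P c p.1 p.2) fun p hp => h p.1 p.2 hp.2
  obtain ⟨c, h2, h3⟩ := ((h1.filter_mono (nhdsWithin_le_nhds (s := Ioi 0))).and
    self_mem_nhdsWithin).exists
  refine ⟨c, h3, fun s t hst => hp c s t ⌊s / T⌋ (h2 (_, _) ⟨⟨?_, ?_⟩, ?_⟩)⟩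
  · exact ⟨Int.sub_floor_div_mul_nonneg s hT, (Int.sub_floor_div_mul_lt s hT).le⟩
  · have h4 := Int.sub_floor_div_mul_nonneg s hT
    have h5 := Int.sub_floor_div_mul_lt s hT
    rw [abs_le] at hst
    constructor <;> simp only <;> linarith [hst.1, hst.2]
  · simpa using hst

theorem near (τ : ℝ) {δ c : ℝ} (hδ : 0 < δ) (hc : 0 < c) : ∀ᶠ z : ℝ × ℝ × ℝ in 𝓝 (0, τ, τ),
    z.1 < c ∧ |z.2.1 - τ| < δ ∧ |z.2.2 - τ| < δ := by
  refine (ContinuousAt.eventually_lt (f := fun z : ℝ × ℝ × ℝ => z.1) (by fun_prop)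
    continuousAt_const hc).and (Eventually.and ?_ ?_)
  · exact ContinuousAt.eventually_lt (f := fun z : ℝ × ℝ × ℝ => |z.2.1 - τ|) (by fun_prop)
      continuousAt_const (by simpa using hδ)
  · exact ContinuousAt.eventually_lt (f := fun z : ℝ × ℝ × ℝ => |z.2.2 - τ|) (by fun_prop)
      continuousAt_const (by simpa using hδ)

theorem lowb {F : ℝ → E} {T : ℝ} (hT : 0 < T) (hp : Function.Periodic F T) (hF : Continuous F)
    (hi : InjMod F T) (h : ∀ τ, ∃ δ > (0 : ℝ), ∃ c > (0 : ℝ), ∀ s t, |s - τ| < δ → |t - τ| < δ →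
      c * |s - t| ≤ ‖F s - F t‖) : ∃ c > (0 : ℝ), LowB F T c := by
  refine unif hT (P := fun c s t => c * |s - t| ≤ ‖F s - F t‖) (fun c s t k h => ?_)
    fun s t hst => ?_
  · rwa [hp.sub_int_mul_eq, hp.sub_int_mul_eq, sub_sub_sub_cancel_right] at h
  · by_cases e : s = t
    · subst e
      obtain ⟨δ, hδ, c, hc, h⟩ := h s
      filter_upwards [near s hδ hc] with z hz
      exact (mul_le_mul_of_nonneg_right hz.1.le (abs_nonneg _)).trans (h _ _ hz.2.1 hz.2.2)
    · refine (ContinuousAt.eventually_lt (f := fun z : ℝ × ℝ × ℝ => z.1 * |z.2.1 - z.2.2|)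
        (g := fun z : ℝ × ℝ × ℝ => ‖F z.2.1 - F z.2.2‖) (by fun_prop) (by fun_prop) ?_).mono
        fun z hz => hz.le
      simp only [zero_mul, norm_pos_iff, ne_eq, sub_eq_zero]
      intro h1
      obtain ⟨k, rfl⟩ := hi s t h1
      have h2 : |(k : ℝ)| * T ≤ T / 2 := by simpa [abs_mul, abs_of_pos hT] using hst
      have h3 : k ≠ 0 := fun h => e (by simp [h])
      have h4 : (1 : ℝ) ≤ |(k : ℝ)| := by exact_mod_cast Int.one_le_abs h3
      nlinarith

theorem aff {F : ℝ → E} {τ δ : ℝ} {a b : E}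
    (h : ∀ t, 0 ≤ t → t ≤ δ → F (τ + t) = F τ + t • a ∧ F (τ - t) = F τ - t • b) {s t : ℝ}
    (hs : |s - τ| < δ) (ht : |t - τ| < δ) :
    ∃ l ∈ Icc (0 : ℝ) 1, ‖F s - F t‖ = |s - t| * ‖l • a + (1 - l) • b‖ := by
  wlog hst : t ≤ s generalizing s t
  · obtain ⟨l, h1, h2⟩ := this ht hs (not_le.1 hst).le
    exact ⟨l, h1, by rw [norm_sub_rev, h2, abs_sub_comm]⟩
  rw [abs_lt] at hs ht
  have ha : ∀ u, τ ≤ u → u - τ < δ → F u = F τ + (u - τ) • a := fun u h1 h2 => by
    simpa using (h (u - τ) (by linarith) h2.le).1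
  have hb : ∀ u, u ≤ τ → -δ < u - τ → F u = F τ + (u - τ) • b := fun u h1 h2 => by
    have := (h (τ - u) (by linarith) (by linarith)).2
    rw [sub_sub_cancel] at this
    rw [this]
    module
  suffices ∃ l ∈ Icc (0 : ℝ) 1, F s - F t = (s - t) • (l • a + (1 - l) • b) by
    obtain ⟨l, h1, h2⟩ := this
    exact ⟨l, h1, by rw [h2, norm_smul, Real.norm_eq_abs]⟩
  rcases le_total τ t with h1 | h1
  · exact ⟨1, by simp, by rw [ha s (h1.trans hst) hs.2, ha t h1 ht.2]; module⟩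
  rcases le_total s τ with h2 | h2
  · exact ⟨0, by simp, by rw [hb s h2 hs.1, hb t h1 ht.1]; module⟩
  rcases hst.eq_or_lt with rfl | hst
  · exact ⟨0, by simp, by simp⟩
  have h3 : 0 < s - t := by linarith
  refine ⟨(s - τ) / (s - t), ⟨div_nonneg (by linarith) h3.le, (div_le_one h3).2 (by linarith)⟩, ?_⟩
  rw [ha s h2 hs.2, hb t h1 ht.1]
  match_scalars <;> field_simp <;> ring

theorem up {F : ℝ → E} (h : LocAff F) (τ : ℝ) : ∃ δ > (0 : ℝ), ∃ L > (0 : ℝ), ∀ s t,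
    |s - τ| < δ → |t - τ| < δ → ‖F s - F t‖ ≤ L * |s - t| := by
  obtain ⟨δ, hδ, a, b, h⟩ := h τ
  refine ⟨δ, hδ, ‖a‖ + ‖b‖ + 1, by positivity, fun s t hs ht => ?_⟩
  obtain ⟨l, ⟨h1, h2⟩, h3⟩ := aff h hs ht
  rw [h3, mul_comm]
  refine mul_le_mul_of_nonneg_right ((norm_add_le _ _).trans ?_) (abs_nonneg _)
  rw [norm_smul, norm_smul, Real.norm_of_nonneg h1, Real.norm_of_nonneg (by linarith)]
  nlinarith [norm_nonneg a, norm_nonneg b]

theorem cont {F : ℝ → E} (h : LocAff F) : Continuous F := by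
  refine continuous_iff_continuousAt.2 fun τ => ?_
  obtain ⟨δ, hδ, L, hL, h⟩ := up h τ
  refine continuousAt_of_locally_lipschitz hδ L fun x hx => ?_
  rw [dist_eq_norm, Real.dist_eq]
  exact h x τ hx (by simpa using hδ)

end EMBx

open EMBx

theorem s_PLLIP : S_PLLIP := by
  intro F T hT hp h
  have hF := cont h
  obtain ⟨c, hc, h1⟩ := unif hT (P := fun c s t => c * ‖F s - F t‖ ≤ |s - t|)
    (fun c s t k h => by
      rwa [hp.sub_int_mul_eq, hp.sub_int_mul_eq, sub_sub_sub_cancel_right] at h)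
    fun s t _ => by
      by_cases e : s = t
      · subst e
        obtain ⟨δ, hδ, L, hL, h⟩ := up h s
        filter_upwards [near s hδ (inv_pos.2 hL)] with z hz
        refine (mul_le_mul_of_nonneg_right hz.1.le (norm_nonneg _)).trans ?_
        rw [inv_mul_le_iff₀ hL]
        exact h _ _ hz.2.1 hz.2.2
      · refine (ContinuousAt.eventually_lt (f := fun z : ℝ × ℝ × ℝ => z.1 * ‖F z.2.1 - F z.2.2‖)
          (g := fun z : ℝ × ℝ × ℝ => |z.2.1 - z.2.2|) (by fun_prop) (by fun_prop) ?_).mono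
          fun z hz => hz.le
        simpa [sub_eq_zero] using e
  refine ⟨_, LipschitzWith.of_dist_le' (K := c⁻¹) fun s t => ?_⟩
  rw [dist_eq_norm, Real.dist_eq, le_inv_mul_iff₀ hc]
  by_cases e : |s - t| ≤ T / 2
  · exact h1 s t e
  · have h2 : |s - (t - (-round ((s - t) / T) : ℤ) * T)| ≤ T / 2 := by
      have h3 := abs_sub_round ((s - t) / T)
      have h4 : s - (t - (-round ((s - t) / T) : ℤ) * T) =
          ((s - t) / T - round ((s - t) / T)) * T := by
        push_cast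
        field_simp
        ring
      rw [h4, abs_mul, abs_of_pos hT]
      nlinarith
    have h5 := h1 _ _ h2
    rw [hp.sub_int_mul_eq] at h5
    linarith [not_le.1 e]

theorem s_PLEMB : S_PLEMB := by
  intro F T hT hp h hi
  refine lowb hT hp (cont h) hi fun τ => ?_
  obtain ⟨δ, hδ, a, b, h⟩ := h τ
  obtain ⟨l, ⟨h1, h2⟩, h3⟩ := (isCompact_Icc (a := (0 : ℝ)) (b := 1)).exists_isMinOn
    (f := fun l : ℝ => ‖l • a + (1 - l) • b‖) ⟨0, by simp⟩ (by fun_prop)
  refine ⟨δ, hδ, ‖l • a + (1 - l) • b‖, norm_pos_iff.2 fun h4 => ?_, fun s t hs ht => ?_⟩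
  · obtain ⟨η, h5, h6⟩ := exists_between (lt_min hδ hT)
    rw [lt_min_iff] at h6
    have h7 := (h (η * l) (by positivity) (by nlinarith)).1
    have h8 := (h (η * (1 - l)) (mul_nonneg h5.le (by linarith)) (by nlinarith)).2
    have h9 : F (τ - η * (1 - l)) = F (τ + η * l) := by
      rw [h7, h8, ← sub_eq_zero, ← neg_zero, ← smul_zero η, ← h4]
      module
    obtain ⟨k, hk⟩ := hi _ _ h9
    have h10 : η = k * T := by linarith
    have h11 : (0 : ℝ) < k := by nlinarith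
    have h12 : (1 : ℝ) ≤ k := by exact_mod_cast (show (0 : ℤ) < k by exact_mod_cast h11)
    nlinarith
  · obtain ⟨l', h5, h6⟩ := aff h hs ht
    rw [h6, mul_comm]
    exact mul_le_mul_of_nonneg_left (h3 h5) (abs_nonneg _)

theorem s_SMEMB : S_SMEMB := by
  intro F F' T hT hp hd hc h0 hi
  refine lowb hT hp (continuous_iff_continuousAt.2 fun t => (hd t).continuousAt) hi fun τ => ?_
  have h1 : 0 < ‖F' τ‖ / 2 := half_pos (norm_pos_iff.2 (h0 τ))
  obtain ⟨δ, hδ, h2⟩ := Metric.continuousAt_iff.1 (hc.continuousAt (x := τ)) _ h1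
  refine ⟨δ, hδ, _, h1, fun s t hs ht => ?_⟩
  have h3 := (convex_ball τ δ).norm_image_sub_le_of_norm_hasDerivWithin_le
    (f := fun u => F u - u • F' τ) (f' := fun u => F' u - F' τ) (C := ‖F' τ‖ / 2)
    (fun u _ => by
      have := (hd u).fun_sub ((hasDerivAt_id' u).smul_const (F' τ))
      rw [one_smul] at this
      exact this.hasDerivWithinAt)
    (fun u hu => by rw [← dist_eq_norm]; exact (h2 hu).le) (x := t) (y := s) ht hs
  have h4 : (s - t) • F' τ = (F s - F t) - (F s - s • F' τ - (F t - t • F' τ)) := by module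
  have h5 := norm_sub_le (F s - F t) (F s - s • F' τ - (F t - t • F' τ))
  rw [← h4, norm_smul, Real.norm_eq_abs] at h5
  rw [Real.norm_eq_abs] at h3
  linarith

end Pool.Agent.P.MP_28369d_gt.SB
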