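import Pool.Agent.P.MP_28369d_gt.SB.Tools

namespace Pool.Agent.P.MP_28369d_gt.SB

open Set Filter Topology
open scoped RealInnerProductSpace

namespace ENUMx

theorem divmod {N : ℤ} (hN : 0 < N) (q r : ℤ) (h0 : 0 ≤ r) (h1 : r < N) :
    (r + N * q) / N = q ∧ (r + N * q) % N = r :=
  (Int.ediv_emod_unique hN).2 ⟨rfl, h0, h1⟩

end ENUMx

theorem s_ENUM : S_ENUM := by
  intro A T N hT hA hfin hN h0
  have hN' : (0 : ℤ) < N := by exact_mod_cast h0
  have hc : hfin.toFinset.card = N := by rw [← hN, ncard_eq_toFinset_card _ hfin]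
  let f := hfin.toFinset.orderEmbOfFin hc
  have hf : ∀ j, f j ∈ A ∩ Ico 0 T := fun j =>
    hfin.mem_toFinset.1 (Finset.orderEmbOfFin_mem _ hc j)
  have hA' : ∀ (τ : ℝ) (k : ℤ), τ + k * T ∈ A ↔ τ ∈ A := by
    intro τ k
    have : Function.Periodic (fun τ => τ ∈ A) T := fun τ => propext (hA τ)
    exact iff_of_eq (this.int_mul k τ)
  let g : ℤ → Fin N := fun k => ⟨(k % N).toNat, by
    have := Int.emod_lt_of_pos k hN'
    omega⟩
  refine ⟨fun k => f (g k) + ((k / N : ℤ) : ℝ) * T, strictMono_int_of_lt_succ fun k => ?_,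
    fun k => ?_, ?_⟩
  · have a0 := Int.emod_nonneg k hN'.ne'
    have a1 := Int.emod_lt_of_pos k hN'
    have a2 := Int.emod_add_mul_ediv k N
    rcases lt_or_ge (k % N + 1) N with h | h
    · obtain ⟨b1, b2⟩ := ENUMx.divmod hN' (k / N) (k % N + 1) (by omega) h
      rw [show k % N + 1 + N * (k / N) = k + 1 by omega] at b1 b2
      have : g k < g (k + 1) := by
        show (k % N).toNat < ((k + 1) % N).toNat
        omega
      have := f.strictMono this
      simp only [b1]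
      linarith
    · obtain ⟨b1, -⟩ := ENUMx.divmod hN' (k / N + 1) 0 le_rfl hN'
      rw [show 0 + N * (k / N + 1) = k + 1 by rw [mul_add]; omega] at b1
      have c1 := (hf (g k)).2.2
      have c2 := (hf (g (k + 1))).2.1
      simp only [b1]
      push_cast
      linarith
  · have e1 : g (k + N) = g k := Fin.ext (by simp [g])
    have e2 : (k + N) / N = k / N + 1 := by
      simpa using Int.add_mul_ediv_right k 1 hN'.ne'
    simp only [e1, e2]
    push_cast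
    ring
  · ext τ
    constructor
    · rintro ⟨k, rfl⟩
      exact (hA' _ _).2 (hf _).1
    · intro hτ
      obtain ⟨k, h1, h2⟩ := exists_shift hT 0 τ
      have hm : τ + k * T ∈ range f := by
        rw [Finset.range_orderEmbOfFin, Finset.mem_coe, hfin.mem_toFinset]
        exact ⟨(hA' _ _).2 hτ, h1, by linarith⟩
      obtain ⟨j, hj⟩ := hm
      obtain ⟨b1, b2⟩ := ENUMx.divmod hN' (-k) j (by omega) (by omega)
      refine ⟨j + N * (-k), ?_⟩
      have e1 : g (j + N * (-k)) = j := Fin.ext (by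
        show ((j + N * (-k) : ℤ) % N).toNat = j
        omega)
      simp only [e1, b1, hj]
      push_cast
      ring

theorem s_LEVC : S_LEVC := by
  intro P u hG l
  set C : ℤ → Prop := fun i => ⟪P.e i, u⟫ * ⟪P.e (i + 1), u⟫ < 0 with hC
  set S := {τ | ⟪P.γ τ, u⟫ = l} ∩ Ico 0 (P.n : ℝ) with hS
  let φ : ℝ → ℕ := fun τ => cnt 0 (⌊τ⌋ - 1) C
  have hw : win P.n C = 2 * P.nmax u := win_chg (f := fun i => ⟪P.e i, u⟫) (P.inner_per u) hG
  have hmaps : ∀ τ ∈ S, φ τ ∈ Iic (2 * P.nmax u) := by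
    intro τ hτ
    rw [mem_Iic, ← hw, win_eq_cnt]
    have : ⌊τ⌋ < P.n := Int.floor_lt.2 (by exact_mod_cast hτ.2.2)
    exact cnt_mono fun i a b c => ⟨a, by omega, c⟩
  have hlt : ∀ τ ∈ S, ∀ τ' ∈ S, τ < τ' → φ τ ≠ φ τ' := by
    intro τ hτ τ' hτ' h he
    have f0 : 0 ≤ ⌊τ⌋ := Int.floor_nonneg.2 hτ.2.1
    have f1 : ⌊τ⌋ ≤ ⌊τ'⌋ := Int.floor_mono h.le
    have e : {i : ℤ | 0 ≤ i ∧ i ≤ ⌊τ⌋ - 1 ∧ C i} = {i : ℤ | 0 ≤ i ∧ i ≤ ⌊τ'⌋ - 1 ∧ C i} :=
      eq_of_subset_of_ncard_le (fun i hi => ⟨hi.1, by have := hi.2.1; omega, hi.2.2⟩) he.ge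
        (fin_cnt _ _ _)
    have hno : ∀ i, ⌊τ⌋ ≤ i → i < ⌊τ'⌋ → 0 < ⟪P.e i, u⟫ * ⟪P.e (i + 1), u⟫ := by
      intro i a b
      refine lt_of_le_of_ne (not_lt.1 fun hc => ?_) (mul_ne_zero (hG _) (hG _)).symm
      have : i ∈ {i : ℤ | 0 ≤ i ∧ i ≤ ⌊τ⌋ - 1 ∧ C i} := by
        rw [e]
        exact ⟨by omega, by omega, hc⟩
      have := this.2.1
      omega
    have hch := pos_chain (g := fun i => ⟪P.e i, u⟫) (hG ⌊τ⌋) hno
    have hr : ∀ i : ℤ, (i : ℝ) < τ' → τ < i + 1 → 0 < ⟪P.e ⌊τ⌋, u⟫ * df (co P u) i := by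
      intro i a b
      rw [df_co']
      refine hch i ?_ (Int.le_floor.2 a.le)
      have : ⌊τ⌋ < i + 1 := Int.floor_lt.2 (by exact_mod_cast b)
      omega
    have l1 : pl (co P u) τ = l := (pl_co P u τ).trans hτ.1
    have l2 : pl (co P u) τ' = l := (pl_co P u τ').trans hτ'.1
    rcases lt_or_gt_of_ne (hG ⌊τ⌋) with hs | hs
    · have := pl_gt (co P u) h fun i a b => sub_neg.1 (neg_of_mul_pos_right (hr i a b) hs.le)
      linarith
    · have := pl_lt (co P u) h fun i a b => sub_pos.1 ((mul_pos_iff_of_pos_left hs).1 (hr i a b))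
      linarith
  have hinj : InjOn φ S := by
    intro τ hτ τ' hτ' he
    rcases lt_trichotomy τ τ' with h | h | h
    · exact absurd he (hlt τ hτ τ' hτ' h)
    · exact h
    · exact absurd he.symm (hlt τ' hτ' τ hτ h)
  refine ⟨Finite.of_injOn hmaps hinj (finite_Iic _), ?_⟩
  have := ncard_le_ncard_of_injOn φ hmaps hinj (finite_Iic _)
  rwa [← Finset.coe_Iic, ncard_coe_finset, Nat.card_Iic] at this

end Pool.Agent.P.MP_28369d_gt.SB
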