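import Pool.Agent.P.MP_28369d_gt.SB.Tools

/-! General position of the edges without new maxima. -/

namespace Pool.Agent.P.MP_28369d_gt.SB

open Set Filter Topology
open scoped RealInnerProductSpace

namespace GPx

/-- Averaging neighbours does not create maxima. -/
theorem mx_avg {n : ℕ} (hn : 0 < n) {f g : ℤ → ℝ} (hf : ∀ i, f (i + n) = f i)
    (hg : ∀ i, g (i + n) = g i) (h : ∀ l, ∃ s t : ℝ, 0 ≤ s ∧ 0 ≤ t ∧ g l = s * f l + t * f (l + 1)) :
    mx n g ≤ mx n f := by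
  obtain ⟨a, b, h1, h2⟩ := alt_of_le_mx hg le_rfl
  have hp : ∀ l, 0 < g l → ∃ l', l ≤ l' ∧ l' ≤ l + 1 ∧ 0 < f l' := fun l hl => by
    obtain ⟨s, t, s0, t0, e⟩ := h l
    by_cases c : 0 < f l
    · exact ⟨l, le_rfl, by omega, c⟩
    · exact ⟨l + 1, by omega, le_rfl, by by_contra c'; nlinarith⟩
  have hq : ∀ l, g l < 0 → ∃ l', l ≤ l' ∧ l' ≤ l + 1 ∧ f l' < 0 := fun l hl => by
    obtain ⟨s, t, s0, t0, e⟩ := h l
    by_cases c : f l < 0
    · exact ⟨l, le_rfl, by omega, c⟩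
    · exact ⟨l + 1, by omega, le_rfl, by by_contra c'; nlinarith⟩
  choose! p p1 p2 p3 using hp
  choose! q q1 q2 q3 using hq
  have ne : ∀ x y, 0 < f x → f y < 0 → x ≠ y := fun x y c d e => by subst e; linarith
  refine le_mx_of_alt hn hf ⟨fun k => p (a k), fun k => q (b k), fun k hk => ?_, fun k hk => ?_⟩
  · obtain ⟨c1, c2, c3, c4⟩ := h1 k hk
    have c5 := (h1 0 (by omega)).2.1
    have := p2 _ c2
    have := q1 _ c3
    have := q2 _ c3
    have := p1 _ c5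
    have := ne _ _ (p3 _ c2) (q3 _ c3)
    have := ne _ _ ((hf _).symm ▸ p3 _ c5 : 0 < f (p (a 0) + n)) (q3 _ c3)
    dsimp only
    exact ⟨by omega, p3 _ c2, q3 _ c3, by omega⟩
  · have c1 := (h1 k (by omega)).2.2.1
    have c2 := (h1 _ hk).2.1
    have := h2 k hk
    have := q2 _ c1
    have := p1 _ c2
    have := ne _ _ (p3 _ c2) (q3 _ c1)
    dsimp only
    omega

/-- The size of the move of the vertex `l`. -/
noncomputable def tt (n : ℕ) (i : ℤ) (ε : ℝ) (l : ℤ) : ℝ := if (n : ℤ) ∣ l - (i + 1) then ε else 0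

theorem tt_cases (n : ℕ) (i : ℤ) (ε : ℝ) (l : ℤ) : tt n i ε l = ε ∨ tt n i ε l = 0 := by
  unfold tt
  split_ifs <;> simp

theorem tt_cont (n : ℕ) (i l : ℤ) : Continuous fun ε => tt n i ε l := by
  unfold tt
  split_ifs <;> fun_prop

theorem move (hP : S_PERT) (Q : Poly) (i : ℤ) : ∀ᶠ ε in 𝓝[>] (0 : ℝ), ∃ R : Poly, R.n = Q.n ∧
    Iso Q.carrier R.carrier ∧ (∀ u, R.nmax u ≤ Q.nmax u) ∧
    ∀ l, R.e l = (1 - tt Q.n i ε l) • Q.e l + tt Q.n i ε (l + 1) • Q.e (l + 1) := by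
  obtain ⟨δ, hδ, H⟩ := hP Q
  have h0 := norm_pos_iff.2 (Q.e_ne (i + 1))
  filter_upwards [Ioo_mem_nhdsGT (div_pos hδ h0), Ioo_mem_nhdsGT one_pos] with ε e1 e2
  obtain ⟨R, r1, r2, r3⟩ := H (fun l => Q.v l + tt Q.n i ε l • Q.e l) (fun l => by
    simp only [Q.per, Q.e_per, tt, show l + Q.n - (i + 1) = l - (i + 1) + Q.n by ring,
      dvd_add_self_right]) fun l => by
    rw [add_sub_cancel_left, tt]
    split_ifs with c
    · rw [per_of_dvd Q.e_per c, norm_smul, Real.norm_of_nonneg e1.1.le]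
      exact ((lt_div_iff₀ h0).1 e1.2).le
    · simpa using hδ.le
  have r4 : ∀ l, R.e l = (1 - tt Q.n i ε l) • Q.e l + tt Q.n i ε (l + 1) • Q.e (l + 1) := fun l => by
    have : Q.v (l + 1) = Q.e l + Q.v l := (sub_add_cancel _ _).symm
    rw [Poly.e, r2, sub_smul, one_smul]
    simp only [this]
    abel
  refine ⟨R, r1, r3, fun u => ?_, r4⟩
  rw [Poly.nmax, Poly.nmax, r1]
  refine mx_avg Q.pos (Q.inner_per u) (r1 ▸ R.inner_per u) fun l =>
    ⟨1 - tt Q.n i ε l, tt Q.n i ε (l + 1), ?_, ?_, ?_⟩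
  · rcases tt_cases Q.n i ε l with c | c <;> linarith [e2.2]
  · rcases tt_cases Q.n i ε (l + 1) with c | c <;> linarith [e2.1]
  · rw [r4, inner_add_left, real_inner_smul_left, real_inner_smul_left]

section comb

variable {n : ℕ} {D : ℤ → ℤ → ℤ → Prop}

theorem down (cyc : ∀ a b c, D a b c → D c a b) (per : ∀ a a' b c, (n : ℤ) ∣ a' - a → D a b c → D a' b c)
    (mv : ∀ a b c, ¬ (n : ℤ) ∣ b - a → ¬ (n : ℤ) ∣ c - a → D (a + 1) b c → D a b c)
    {i j k : ℤ} (h1 : i < j) (h2 : j < k) (h3 : k < i + n) (m : ℕ) :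
    ∀ a b c : ℤ, a < b → b < c → c < a + n → i ≤ a → j ≤ b → k ≤ c →
      a - i + (b - j) + (c - k) ≤ m → D a b c → D i j k := by
  have nd : ∀ x : ℤ, x ≠ 0 → -n < x → x < n → ¬ (n : ℤ) ∣ x := fun x c d e =>
    not_dvd_of_lt c (abs_lt.2 ⟨d, e⟩)
  induction m with
  | zero =>
    intro a b c _ _ _ _ _ _ _ h
    rwa [show a = i by omega, show b = j by omega, show c = k by omega] at h
  | succ m ih =>
    intro a b c c1 c2 c3 c4 c5 c6 c7 h
    have : a - i + (b - j) + (c - k) ≤ m ∨ (i < a ∧ c + 1 < a + n) ∨ (j < b ∧ a + 1 < b) ∨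
      (k < c ∧ b + 1 < c) ∨ (i < a ∧ b = a + 1 ∧ c = a + 2 ∧ n = 3) := by omega
    rcases this with e | e | e | e | e
    · exact ih a b c c1 c2 c3 c4 c5 c6 e h
    · exact ih (a - 1) b c (by omega) c2 (by omega) (by omega) c5 c6 (by omega)
        (mv _ _ _ (nd _ (by omega) (by omega) (by omega)) (nd _ (by omega) (by omega) (by omega))
          (by rwa [sub_add_cancel]))
    · exact ih a (b - 1) c (by omega) (by omega) c3 c4 (by omega) c6 (by omega) (cyc _ _ _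
        (mv _ _ _ (nd _ (by omega) (by omega) (by omega)) (nd _ (by omega) (by omega) (by omega))
          (by rw [sub_add_cancel]; exact cyc _ _ _ (cyc _ _ _ h))))
    · exact ih a b (c - 1) c1 (by omega) (by omega) c4 c5 (by omega) (by omega) (cyc _ _ _ (cyc _ _ _
        (mv _ _ _ (nd _ (by omega) (by omega) (by omega)) (nd _ (by omega) (by omega) (by omega))
          (by rw [sub_add_cancel]; exact cyc _ _ _ h))))
    · exact ih (a - 1) a b (by omega) c1 (by omega) (by omega) (by omega) (by omega) (by omega)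
        (per c _ _ _ ⟨-1, by omega⟩ (cyc _ _ _ h))

theorem sort (hn : 0 < n) (cyc : ∀ a b c, D a b c → D c a b) (sw : ∀ a b c, D a b c → D a c b)
    (per : ∀ a a' b c, (n : ℤ) ∣ a' - a → D a b c → D a' b c) {i j k : ℤ} (t : ℤ)
    (h1 : ¬ (n : ℤ) ∣ j - i) (h2 : ¬ (n : ℤ) ∣ k - i) (h3 : ¬ (n : ℤ) ∣ k - j) :
    ∃ j' k', i + t * n < j' ∧ j' < k' ∧ k' < i + t * n + n ∧ (D i j k ↔ D (i + t * n) j' k') := by
  have red : ∀ x, ¬ (n : ℤ) ∣ x - i → ∃ x', i + t * n < x' ∧ x' < i + t * n + n ∧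
      (n : ℤ) ∣ x' - x := fun x hx => by
    have c1 := Int.emod_nonneg (x - i) (by omega : (n : ℤ) ≠ 0)
    have c2 := Int.emod_lt_of_pos (x - i) (by omega : (0 : ℤ) < n)
    have c3 : (x - i) % n ≠ 0 := fun e => hx (Int.dvd_of_emod_eq_zero e)
    refine ⟨i + t * n + (x - i) % n, by omega, by omega, t - (x - i) / n, ?_⟩
    linarith [Int.emod_add_mul_ediv (x - i) n]
  have all : ∀ a a' b b' c c', (n : ℤ) ∣ a' - a → (n : ℤ) ∣ b' - b → (n : ℤ) ∣ c' - c →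
      D a b c → D a' b' c' := fun a a' b b' c c' e1 e2 e3 h =>
    cyc _ _ _ (per _ _ _ _ e2 (cyc _ _ _ (per _ _ _ _ e3 (cyc _ _ _ (per _ _ _ _ e1 h)))))
  obtain ⟨j', c1, c2, c3⟩ := red j h1
  obtain ⟨k', d1, d2, d3⟩ := red k h2
  have e0 : (n : ℤ) ∣ i + t * n - i := ⟨t, by ring⟩
  have e1 : D i j k ↔ D (i + t * n) j' k' := ⟨all _ _ _ _ _ _ e0 c3 d3,
    all _ _ _ _ _ _ (dvd_sub_comm.1 e0) (dvd_sub_comm.1 c3) (dvd_sub_comm.1 d3)⟩
  rcases lt_trichotomy j' k' with e | e | e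
  · exact ⟨j', k', c1, e, d2, e1⟩
  · exact absurd (by simpa [e] using c3.sub d3) h3
  · exact ⟨k', j', d1, e, c2, e1.trans ⟨sw _ _ _, sw _ _ _⟩⟩

theorem comb (hn : 0 < n) (cyc : ∀ a b c, D a b c → D c a b) (sw : ∀ a b c, D a b c → D a c b)
    (per : ∀ a a' b c, (n : ℤ) ∣ a' - a → D a b c → D a' b c) (irr : ∀ a b, ¬ D a b a)
    (mv : ∀ a b c, ¬ (n : ℤ) ∣ b - a → ¬ (n : ℤ) ∣ c - a → D (a + 1) b c → D a b c)
    {a b c : ℤ} (h : D a b c) {i j k : ℤ}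
    (h1 : ¬ (n : ℤ) ∣ j - i) (h2 : ¬ (n : ℤ) ∣ k - i) (h3 : ¬ (n : ℤ) ∣ k - j) : D i j k := by
  obtain ⟨j', k', c1, c2, c3, c4⟩ := sort hn cyc sw per 0 h1 h2 h3
  obtain ⟨b', c', d1, d2, d3, d4⟩ := sort (i := a) (j := b) (k := c) hn cyc sw per (|i - a| + 1)
    (fun e => irr _ _ (per _ _ _ _ e (sw _ _ _ h))) (fun e => irr _ _ (per _ _ _ _ e h))
    (fun e => irr _ _ (per _ _ _ _ e (cyc _ _ _ (sw _ _ _ h))))
  have e1 : i + n ≤ a + (|i - a| + 1) * n := by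
    nlinarith [le_abs_self (i - a), abs_nonneg (i - a), (by omega : (1 : ℤ) ≤ n)]
  exact c4.2 (down cyc per mv c1 c2 c3 _ _ b' c' d1 d2 d3 (by omega) (by omega) (by omega)
    (Int.self_le_toNat _) (d4.1 h))

end comb

theorem start (P : Poly) (h : ∀ u : E, (∀ i, ⟪P.e i, u⟫ = 0) → u = 0) :
    ∃ a b c, det3 (P.e a) (P.e b) (P.e c) ≠ 0 := by
  by_contra hn
  push Not at hn
  have h1 : ∀ k, cr (P.e 0) (P.e k) = 0 := fun k =>
    h _ fun i => (real_inner_comm _ _).trans (hn 0 k i)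
  have h2 : ∀ x, cr (P.e 0) x = 0 := fun x => h _ fun i => by
    rw [real_inner_comm, ← det3, det3_swap, det3, h1, inner_zero_left, neg_zero]
  have h3 := h2 (pt 1 0 0)
  have h4 := h2 (pt 0 1 0)
  refine P.e_ne 0 (E_ext ?_ ?_ ?_)
  · simpa [cr] using congrArg (· 2) h4
  · simpa [cr] using congrArg (· 2) h3
  · simpa [cr] using congrArg (· 1) h3

/-- The independent triples of edges. -/
def G (n : ℕ) (Q : Poly) : Set (Fin n × Fin n × Fin n) :=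
  {p | det3 (Q.e (p.1 : ℕ)) (Q.e (p.2.1 : ℕ)) (Q.e (p.2.2 : ℕ)) ≠ 0}

theorem rep {n : ℕ} (hn : 0 < n) (i : ℤ) :
    ∃ a : Fin n, ∀ Q : Poly, Q.n = n → Q.e (a : ℕ) = Q.e i := by
  have c1 := Int.emod_nonneg i (by omega : (n : ℤ) ≠ 0)
  have c2 := Int.emod_lt_of_pos i (by omega : (0 : ℤ) < n)
  refine ⟨⟨(i % n).toNat, by omega⟩, fun Q hQ => per_of_dvd Q.e_per ?_⟩
  rw [hQ, Int.toNat_of_nonneg c1]
  exact Int.ModEq.dvd (Int.mod_modEq i n).symm

theorem rep3 {n : ℕ} (hn : 0 < n) (i j k : ℤ) : ∃ p, ∀ Q : Poly, Q.n = n →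
    (p ∈ G n Q ↔ det3 (Q.e i) (Q.e j) (Q.e k) ≠ 0) := by
  obtain ⟨a, ha⟩ := rep hn i
  obtain ⟨b, hb⟩ := rep hn j
  obtain ⟨c, hc⟩ := rep hn k
  exact ⟨(a, b, c), fun Q hQ => by rw [← ha Q hQ, ← hb Q hQ, ← hc Q hQ]; rfl⟩

end GPx

open GPx in
theorem s_GP (hP : S_PERT) : S_GP := by
  intro P hsp
  obtain ⟨Q, ⟨q1, q2, q3, a, b, c, q4⟩, hmax⟩ := Set.Finite.exists_maximalFor' (G P.n)
    {Q | Q.n = P.n ∧ Iso P.carrier Q.carrier ∧ (∀ u, Q.nmax u ≤ P.nmax u) ∧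
      ∃ a b c, det3 (Q.e a) (Q.e b) (Q.e c) ≠ 0} (toFinite _)
    ⟨P, rfl, Iso.refl _, fun _ => le_rfl, start P hsp⟩
  refine ⟨Q, q2, fun u i j k h1 h2 h3 => eq_zero_of_det3 (comb
    (D := fun a b c => det3 (Q.e a) (Q.e b) (Q.e c) ≠ 0) Q.pos (fun a b c h e => h ?_)
    (fun a b c h e => h ?_) (fun a a' b c e h => ?_) (fun a b h => h (det3_self_left _ _))
    (fun i j k c1 c2 h e => ?_) q4 h1 h2 h3), q3⟩
  · rw [det3_eq] at e ⊢
    linarith
  · rw [det3_swap, e, neg_zero]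
  · rwa [per_of_dvd Q.e_per e]
  · let F : ℝ → ℤ → E := fun ε l =>
      (1 - tt Q.n i ε l) • Q.e l + tt Q.n i ε (l + 1) • Q.e (l + 1)
    have hF : ∀ l, Continuous fun ε => F ε l := fun l =>
      ((continuous_const.sub (tt_cont _ _ _)).smul continuous_const).add
        ((tt_cont _ _ _).smul continuous_const)
    have h0 : ∀ l, F 0 l = Q.e l := fun l => by simp [F, tt]
    have ev : ∀ᶠ ε in 𝓝[>] (0 : ℝ), ∀ p ∈ G P.n Q,
        det3 (F ε (p.1 : ℕ)) (F ε (p.2.1 : ℕ)) (F ε (p.2.2 : ℕ)) ≠ 0 := by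
      refine (eventually_all_finite (toFinite _)).2 fun p hp =>
        Eventually.filter_mono nhdsWithin_le_nhds (ContinuousAt.eventually_ne ?_ ?_)
      · simp only [det3_eq]
        fun_prop
      · simp only [h0]
        exact hp
    obtain ⟨ε, ⟨e1, R, r1, r2, r3, r4⟩, e2⟩ :=
      ((ev.and (move hP Q i)).and (Ioo_mem_nhdsGT one_pos)).exists
    have t1 : ∀ l, 1 - tt Q.n i ε l ≠ 0 := fun l => by
      rcases tt_cases Q.n i ε l with c | c <;> linarith [e2.2]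
    have r5 : det3 (R.e i) (R.e j) (R.e k) ≠ 0 := by
      have : det3 (R.e i) (R.e j) (R.e k) = (1 - tt Q.n i ε j) * (1 - tt Q.n i ε k) *
          ((1 - tt Q.n i ε i) * det3 (Q.e i) (Q.e j) (Q.e k) +
            ε * det3 (Q.e (i + 1)) (Q.e j) (Q.e k)) := by
        rw [r4, r4, r4, show tt Q.n i ε (i + 1) = ε by simp [tt],
          show tt Q.n i ε (j + 1) = 0 by simp [tt, c1], show tt Q.n i ε (k + 1) = 0 by simp [tt, c2]]
        simp only [det3_eq, PiLp.add_apply, PiLp.smul_apply, smul_eq_mul]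
        ring
      rw [this, e, mul_zero, zero_add]
      exact mul_ne_zero (mul_ne_zero (t1 _) (t1 _)) (mul_ne_zero e2.1.ne' h)
    obtain ⟨p, hp⟩ := rep3 P.pos i j k
    exact (hp Q q1).1 (hmax ⟨r1.trans q1, q2.trans r2, fun u => (r3 u).trans (q3 u), i, j, k, r5⟩
      (fun p hp => by simpa only [G, mem_ofPred_eq, r4] using e1 p hp) ((hp R (r1.trans q1)).2 r5)) e

end Pool.Agent.P.MP_28369d_gt.SB
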