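import Pool.Agent.P.MP_28369d_gt.SB.Tools

/-!
The finite set of levels.
-/

namespace Pool.Agent.P.MP_28369d_gt.SB

open Set Filter Topology
open scoped RealInnerProductSpace

namespace LEVx

theorem zmul_iff {n : ℕ} {C : ℤ → Prop} (hC : ∀ i, C (i + n) ↔ C i) (i k : ℤ) :
    C (i + k * n) ↔ C i :=
  iff_of_eq (per_zmul (f := C) (fun i => propext (hC i)) i k)

theorem ex_nxt {n : ℕ} (hn : 0 < n) {C : ℤ → Prop} (hC : ∀ i, C (i + n) ↔ C i) (h0 : ∃ i, C i)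
    (r : ℤ) : ∃ q, r ≤ q ∧ C q ∧ ∀ i, r ≤ i → i < q → ¬ C i := by
  classical
  obtain ⟨i0, hi0⟩ := h0
  have hn' : (1 : ℤ) ≤ n := by exact_mod_cast hn
  obtain ⟨q, ⟨h1, h2⟩, h3⟩ := Int.exists_least_of_bdd (P := fun i => r ≤ i ∧ C i)
    ⟨r, fun z hz => hz.1⟩
    ⟨i0 + |r - i0| * n, by nlinarith [le_abs_self (r - i0), abs_nonneg (r - i0)],
      (zmul_iff hC _ _).2 hi0⟩
  exact ⟨q, h1, h2, fun i a b c => absurd (h3 i ⟨a, c⟩) (not_le.2 b)⟩

theorem ex_prev {n : ℕ} (hn : 0 < n) {C : ℤ → Prop} (hC : ∀ i, C (i + n) ↔ C i) (h0 : ∃ i, C i)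
    (r : ℤ) : ∃ q, q ≤ r ∧ C q ∧ ∀ i, i ≤ r → C i → i ≤ q := by
  classical
  obtain ⟨i0, hi0⟩ := h0
  have hn' : (1 : ℤ) ≤ n := by exact_mod_cast hn
  obtain ⟨q, ⟨h1, h2⟩, h3⟩ := Int.exists_greatest_of_bdd (P := fun i => i ≤ r ∧ C i)
    ⟨r, fun z hz => hz.1⟩
    ⟨i0 + (-|r - i0|) * n, by nlinarith [neg_abs_le (r - i0), abs_nonneg (r - i0)],
      (zmul_iff hC _ _).2 hi0⟩
  exact ⟨q, h1, h2, fun i a c => h3 i ⟨a, c⟩⟩

/-- An interval without marked vertices lies, after a shift, in one block. -/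
theorem ex_blk {n : ℕ} (hn : 0 < n) {C : ℤ → Prop} (hC : ∀ i, C (i + n) ↔ C i) (h0 : ∃ i, C i)
    (nxt : ℤ → ℤ) (hx : ∀ r, r ≤ nxt r ∧ C (nxt r)) (a b : ℝ)
    (hab : ∀ i : ℤ, C i → ((i + 1 : ℤ) : ℝ) ∉ Ioo a b) :
    ∃ k r : ℤ, 0 ≤ r ∧ r < n ∧ C r ∧ ((r + 1 : ℤ) : ℝ) ≤ a + k * n ∧
      b + k * n ≤ ((nxt (r + 1) + 1 : ℤ) : ℝ) := by
  obtain ⟨r0, h1, h2, h3⟩ := ex_prev hn hC h0 (⌊a⌋ - 1)
  have hn' : (0 : ℤ) < n := by exact_mod_cast hn
  have hmod : r0 % n = r0 + (-(r0 / n)) * n := by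
    have := Int.emod_add_mul_ediv r0 n
    linarith
  have hfl := Int.floor_le a
  refine ⟨-(r0 / n), r0 % n, Int.emod_nonneg _ hn'.ne', Int.emod_lt_of_pos _ hn', ?_, ?_, ?_⟩
  · rw [hmod]; exact (zmul_iff hC _ _).2 h2
  · rw [hmod]
    have : ((r0 : ℤ) : ℝ) ≤ ((⌊a⌋ - 1 : ℤ) : ℝ) := by exact_mod_cast h1
    push_cast at this ⊢
    linarith
  · obtain ⟨a1, a2⟩ := hx (r0 % n + 1)
    set q := nxt (r0 % n + 1) with hq
    have a3 : C (q + (r0 / n) * n) := (zmul_iff hC _ _).2 a2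
    have a4 : r0 < q + (r0 / n) * n := by rw [hmod] at a1; linarith
    have a5 : ⌊a⌋ - 1 < q + (r0 / n) * n := by
      by_contra hc
      exact absurd (h3 _ (not_lt.1 hc) a3) (not_le.2 a4)
    have a6 : a < ((q + (r0 / n) * n + 1 : ℤ) : ℝ) := by
      have b1 := Int.lt_floor_add_one a
      have b2 : ((⌊a⌋ : ℤ) : ℝ) ≤ ((q + (r0 / n) * n : ℤ) : ℝ) := by
        exact_mod_cast (by omega : ⌊a⌋ ≤ q + (r0 / n) * n)
      push_cast at b2 ⊢
      linarith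
    have a7 : b ≤ ((q + (r0 / n) * n + 1 : ℤ) : ℝ) := by
      by_contra hc
      exact hab _ a3 ⟨a6, not_le.1 hc⟩
    push_cast at a7 ⊢
    linarith

theorem injOn_pl {H : ℤ → ℝ} (hH : ∀ i, df H i ≠ 0) {lo hi : ℤ}
    (h : ∀ i, lo ≤ i → i < hi → 0 < df H i * df H (i + 1)) {s t : ℝ}
    (hs : (lo : ℝ) ≤ s) (hs' : s ≤ hi + 1) (ht : (lo : ℝ) ≤ t) (ht' : t ≤ hi + 1)
    (he : pl H s = pl H t) : s = t := by
  have hc := pos_chain (hH lo) h
  have key : ∀ υ τ : ℝ, (lo : ℝ) ≤ υ → τ ≤ hi + 1 → υ < τ → pl H υ ≠ pl H τ := by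
    intro υ τ h1 h2 h3
    have hb : ∀ i : ℤ, (i : ℝ) < τ → υ < i + 1 → 0 < df H lo * df H i := by
      intro i a b
      have a1 : (i : ℝ) < ((hi + 1 : ℤ) : ℝ) := by push_cast; linarith
      have b1 : (lo : ℝ) < ((i + 1 : ℤ) : ℝ) := by push_cast; linarith
      have a2 : i < hi + 1 := by exact_mod_cast a1
      have b2 : lo < i + 1 := by exact_mod_cast b1
      exact hc i (by omega) (by omega)
    rcases lt_or_gt_of_ne (hH lo) with hl | hl
    · refine (pl_gt H h3 fun i a b => ?_).ne'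
      have := hb i a b
      have h4 : df H i < 0 := by
        by_contra hc'
        nlinarith [not_lt.1 hc']
      unfold df at h4; linarith
    · refine (pl_lt H h3 fun i a b => ?_).ne
      have := hb i a b
      have h4 : 0 < df H i := by
        by_contra hc'
        nlinarith [not_lt.1 hc']
      unfold df at h4; linarith
  rcases lt_trichotomy s t with h1 | h1 | h1
  · exact absurd he (key s t hs ht' h1)
  · exact h1
  · exact absurd he.symm (key t s ht hs' h1)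

theorem ordConn {z : ℝ → ℝ} (hz : Continuous z) (Λ : Finset ℝ) (a b : ℝ)
    (h : ∀ τ ∈ Ioo a b, z τ ∉ Λ) : {y | y ∉ Λ ∧ ∃ τ ∈ Icc a b, z τ = y}.OrdConnected := by
  refine ⟨?_⟩
  rintro y1 ⟨h1, τ1, hτ1, rfl⟩ y2 ⟨h2, τ2, hτ2, rfl⟩ y hy
  by_cases e1 : y = z τ1
  · exact ⟨e1 ▸ h1, τ1, hτ1, e1.symm⟩
  by_cases e2 : y = z τ2
  · exact ⟨e2 ▸ h2, τ2, hτ2, e2.symm⟩
  obtain ⟨τ, hτ, rfl⟩ := intermediate_value_uIcc (a := τ1) (b := τ2) hz.continuousOn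
    (mem_uIcc_of_le hy.1 hy.2)
  have n1 : τ ≠ τ1 := fun e => e1 (by rw [e])
  have n2 : τ ≠ τ2 := fun e => e2 (by rw [e])
  have hm : τ ∈ Ioo a b := by
    rcases mem_uIcc.1 hτ with ⟨c1, c2⟩ | ⟨c1, c2⟩
    · exact ⟨hτ1.1.trans_lt (c1.lt_of_ne n1.symm), (c2.lt_of_ne n2).trans_le hτ2.2⟩
    · exact ⟨hτ2.1.trans_lt (c1.lt_of_ne n2.symm), (c2.lt_of_ne n1).trans_le hτ1.2⟩
  exact ⟨h τ hm, τ, Ioo_subset_Icc_self hm, rfl⟩

theorem pos_of_notC {P : Poly} {uz : E} {C : ℤ → Prop} (hG : Gen P uz)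
    (hch : ∀ i, df (co P uz) i * df (co P uz) (i + 1) < 0 → C i) {i : ℤ} (h : ¬ C i) :
    0 < df (co P uz) i * df (co P uz) (i + 1) := by
  have h1 : ¬ df (co P uz) i * df (co P uz) (i + 1) < 0 := fun a => h (hch i a)
  refine (not_lt.1 h1).lt_of_ne (mul_ne_zero ?_ ?_).symm <;> rw [df_co'] <;> exact hG _

/-- Blocks on different strands have no common point. -/
theorem sep_of_DS {P : Poly} {uz : E} {C : ℤ → Prop} (hC : ∀ i, C (i + P.n) ↔ C i)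
    (hch : ∀ i, df (co P uz) i * df (co P uz) (i + 1) < 0 → C i) {p q p' q' : ℤ}
    (h1 : ∀ i, p ≤ i → i < q → ¬ C i) (h2 : ∀ j, p' ≤ j → j < q' → ¬ C j)
    (hD : DS P.n (df (co P uz)) p p') {τ τ' : ℝ} (hτ : τ ∈ Ioo (p : ℝ) (q + 1))
    (hτ' : τ' ∈ Ioo (p' : ℝ) (q' + 1)) : P.γ τ ≠ P.γ τ' := by
  intro he
  obtain ⟨k, hk⟩ := P.injMod _ _ he
  obtain ⟨i, a1, a2, a3⟩ := hD (-k)
  have hi := hch i a3
  have b1 : ((p' + -k * P.n : ℤ) : ℝ) < ((q + 1 : ℤ) : ℝ) := by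
    push_cast; linarith [hτ.2, hτ'.1]
  have b2 : ((p : ℤ) : ℝ) < ((q' + 1 + -k * P.n : ℤ) : ℝ) := by
    push_cast; linarith [hτ.1, hτ'.2]
  have c1 : p' + -k * P.n < q + 1 := by exact_mod_cast b1
  have c2 : p < q' + 1 + -k * P.n := by exact_mod_cast b2
  rcases le_total p (p' + -k * P.n) with h | h
  · rw [min_eq_left h] at a1
    rw [max_eq_right h] at a2
    exact h1 i a1 (by omega) hi
  · rw [min_eq_right h] at a1
    rw [max_eq_left h] at a2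
    exact h2 (i + k * P.n) (by linarith) (by linarith) ((zmul_iff hC _ _).2 hi)

/-- Blocks on the same strand have no distinct points at a common height. -/
theorem eq_of_not_DS {P : Poly} {uz : E} {C : ℤ → Prop} (hG : Gen P uz)
    (hC : ∀ i, C (i + P.n) ↔ C i)
    (hch : ∀ i, df (co P uz) i * df (co P uz) (i + 1) < 0 → C i) {p q p' q' : ℤ}
    (h1 : ∀ i, p ≤ i → i < q → ¬ C i) (h2 : ∀ j, p' ≤ j → j < q' → ¬ C j)
    (hD : ¬ DS P.n (df (co P uz)) p p') {τ τ' : ℝ} (hτ : τ ∈ Ioo (p : ℝ) (q + 1))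
    (hτ' : τ' ∈ Ioo (p' : ℝ) (q' + 1)) (he : ⟪P.γ τ, uz⟫ = ⟪P.γ τ', uz⟫) : P.γ τ = P.γ τ' := by
  unfold DS at hD
  push Not at hD
  obtain ⟨k, hk⟩ := hD
  have hne : ∀ i, df (co P uz) i ≠ 0 := fun i => by rw [df_co']; exact hG i
  have hpos : ∀ i, min p (p' + k * P.n) ≤ i → i < max q (q' + k * P.n) →
      0 < df (co P uz) i * df (co P uz) (i + 1) := by
    intro i a b
    by_cases c : i < max p (p' + k * P.n)
    · exact (hk i a c).lt_of_ne (mul_ne_zero (hne _) (hne _)).symm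
    · have c' := not_lt.1 c
      have c1 := (le_max_left _ _).trans c'
      have c2 := (le_max_right _ _).trans c'
      refine pos_of_notC hG hch ?_
      rcases lt_max_iff.1 b with d | d
      · exact h1 i c1 d
      · intro hi
        exact h2 (i + -k * P.n) (by linarith) (by linarith) ((zmul_iff hC _ _).2 hi)
  have e1 : ((min p (p' + k * P.n) : ℤ) : ℝ) ≤ (p : ℝ) := by exact_mod_cast min_le_left _ _
  have e2 : ((min p (p' + k * P.n) : ℤ) : ℝ) ≤ ((p' + k * P.n : ℤ) : ℝ) := by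
    exact_mod_cast min_le_right _ _
  have e3 : (q : ℝ) ≤ ((max q (q' + k * P.n) : ℤ) : ℝ) := by exact_mod_cast le_max_left _ _
  have e4 : ((q' + k * P.n : ℤ) : ℝ) ≤ ((max q (q' + k * P.n) : ℤ) : ℝ) := by
    exact_mod_cast le_max_right _ _
  have e2' : ((p' + k * P.n : ℤ) : ℝ) = p' + k * P.n := by push_cast; ring
  have e4' : ((q' + k * P.n : ℤ) : ℝ) = q' + k * P.n := by push_cast; ring
  have := injOn_pl hne hpos (s := τ) (t := τ' + k * P.n) (by linarith [hτ.1]) (by linarith [hτ.2])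
    (by linarith [hτ'.1]) (by linarith [hτ'.2]) (by rw [pl_co, pl_co, P.γ_per]; exact he)
  rw [this, P.γ_per]

end LEVx

open LEVx in
theorem s_LEV (hP : S_PL) : S_LEV := by
  classical
  intro c
  refine ⟨c + c * c * 5, fun P ux uy uz C hS hG hC hw hch hpair => ?_⟩
  have hne : ∀ i, df (co P uz) i ≠ 0 := fun i => by rw [df_co']; exact hG i
  have h0 : ∃ i, C i := by
    obtain ⟨i, hi⟩ := hG.exists_chg
    exact ⟨i, hch i (by rw [df_co', df_co']; exact hi)⟩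
  choose nxt hx1 hx2 hx3 using ex_nxt P.pos hC h0
  have hex : ∀ r r' : ℤ, ∃ Λ : Finset ℝ, Λ.card ≤ 5 ∧ (DS P.n (df (co P uz)) r r' →
      ∀ J : Set ℝ, J.OrdConnected → (∀ l ∈ Λ, l ∉ J) → ∃ a b : ℝ,
      ∀ τ ∈ Ioo (r : ℝ) (nxt r + 1), ∀ τ' ∈ Ioo (r' : ℝ) (nxt r' + 1),
        pl (co P uz) τ = pl (co P uz) τ' → pl (co P uz) τ ∈ J →
        a * pl (co P ux) τ' + b * pl (co P uy) τ' < a * pl (co P ux) τ + b * pl (co P uy) τ) := by
    intro r r'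
    by_cases hD : DS P.n (df (co P uz)) r r'
    · obtain ⟨Λ, h1, h2⟩ := hP (co P ux) (co P uy) (co P uz) r (nxt r) r' (nxt r') (hx1 r) (hx1 r')
        hne (fun i a b => pos_of_notC hG hch (hx3 r i a b))
        (fun i a b => pos_of_notC hG hch (hx3 r' i a b))
        (hpair r (nxt r) r' (nxt r') (hx1 r) (hx1 r') (hx3 r) (hx3 r') hD) (by
          intro τ hτ τ' hτ' e1 e2 e3
          refine sep_of_DS hC hch (hx3 r) (hx3 r') hD hτ hτ' (sub_eq_zero.1 (hS _ ?_ ?_ ?_))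
          · rw [inner_sub_left, ← pl_co, ← pl_co, e2, sub_self]
          · rw [inner_sub_left, ← pl_co, ← pl_co, e3, sub_self]
          · rw [inner_sub_left, ← pl_co, ← pl_co, e1, sub_self])
      exact ⟨Λ, h1, fun _ => h2⟩
    · exact ⟨∅, by simp, fun h => absurd h hD⟩
  choose Lp hL1 hL2 using hex
  set Cw : Finset ℤ := (fin_win P.n C).toFinset with hCw
  have hcard : Cw.card ≤ c := by
    rw [hCw, ← ncard_eq_toFinset_card _ (fin_win P.n C)]; exact hw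
  have hmem : ∀ r : ℤ, 0 ≤ r → r < P.n → C r → r ∈ Cw := fun r a b d =>
    (fin_win P.n C).mem_toFinset.2 ⟨a, b, d⟩
  set Λ : Finset ℝ := Cw.image (fun i => co P uz (i + 1)) ∪
    (Cw ×ˢ Cw).biUnion fun x => Lp (x.1 + 1) (x.2 + 1) with hΛ
  have hn' : (0 : ℤ) < P.n := by exact_mod_cast P.pos
  have hext : ∀ i, C i → ⟪P.v (i + 1), uz⟫ ∈ Λ := by
    intro i hi
    have hmod : i % P.n = i + (-(i / P.n)) * P.n := by
      have := Int.emod_add_mul_ediv i P.n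
      linarith
    refine Finset.mem_union_left _ (Finset.mem_image.2 ⟨i % P.n, hmem _
      (Int.emod_nonneg _ hn'.ne') (Int.emod_lt_of_pos _ hn') ?_, ?_⟩)
    · rw [hmod]; exact (zmul_iff hC _ _).2 hi
    · rw [hmod, show i + -(i / P.n) * P.n + 1 = i + 1 + -(i / P.n) * P.n by ring, co,
        per_zmul P.per]
  refine ⟨Λ, ?_, fun i hi => hext i (hch i (by rw [df_co', df_co']; exact hi)), ?_⟩
  · refine (Finset.card_union_le _ _).trans (add_le_add (Finset.card_image_le.trans hcard) ?_)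
    refine (Finset.card_biUnion_le_card_mul _ _ 5 fun x _ => hL1 _ _).trans ?_
    rw [Finset.card_product]
    exact Nat.mul_le_mul_right _ (Nat.mul_le_mul hcard hcard)
  · intro a b a' b' t t' ht ht' he hneq hav hav'
    have blk : ∀ a b : ℝ, (∀ τ ∈ Ioo a b, ⟪P.γ τ, uz⟫ ∉ Λ) → ∃ k r : ℤ, r ∈ Cw ∧
        ∀ τ ∈ Icc a b, ⟪P.γ τ, uz⟫ ∉ Λ →
          τ + k * P.n ∈ Ioo ((r + 1 : ℤ) : ℝ) (nxt (r + 1) + 1) := by
      intro a b h
      obtain ⟨k, r, r1, r2, r3, r4, r5⟩ := ex_blk P.pos hC h0 nxt (fun r => ⟨hx1 r, hx2 r⟩) a b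
        (fun i hi hm => h _ hm (by rw [P.γ_int]; exact hext i hi))
      refine ⟨k, r, hmem r r1 r2 r3, fun τ hτ hn => ⟨?_, ?_⟩⟩
      · refine lt_of_le_of_ne (by linarith [hτ.1]) fun e => hn ?_
        rw [← P.γ_per τ k, ← e, P.γ_int]
        exact hext r r3
      · have r6 : ((nxt (r + 1) + 1 : ℤ) : ℝ) = nxt (r + 1) + 1 := by push_cast; ring
        refine lt_of_le_of_ne (by linarith [hτ.2]) fun e => hn ?_
        rw [← P.γ_per τ k, e, ← r6, P.γ_int]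
        exact hext _ (hx2 _)
    obtain ⟨k, r, hr, hb⟩ := blk a b hav
    obtain ⟨k', r', hr', hb'⟩ := blk a' b' hav'
    have hD : DS P.n (df (co P uz)) (r + 1) (r' + 1) := by
      by_contra hD
      have := eq_of_not_DS hG hC hch (hx3 (r + 1)) (hx3 (r' + 1)) hD
        (hb t (Ioo_subset_Icc_self ht) (hav t ht)) (hb' t' (Ioo_subset_Icc_self ht') (hav' t' ht'))
        (by rw [P.γ_per, P.γ_per]; exact he)
      rw [P.γ_per, P.γ_per] at this
      exact hneq this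
    have hz : Continuous fun τ => ⟪P.γ τ, uz⟫ := P.continuous_γ.inner continuous_const
    obtain ⟨α, β, hab⟩ := hL2 (r + 1) (r' + 1) hD _ (ordConn hz Λ a b hav) (fun l hl hJ =>
      hJ.1 (Finset.mem_union_right _ (Finset.mem_biUnion.2
        ⟨(r, r'), Finset.mem_product.2 ⟨hr, hr'⟩, hl⟩)))
    refine ⟨α • ux + β • uy, fun τ hτ τ' hτ' e hn => ?_⟩
    have := hab _ (hb τ hτ hn) _ (hb' τ' hτ' (e ▸ hn))
      (by rw [pl_co, pl_co, P.γ_per, P.γ_per]; exact e)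
      (by rw [pl_co, P.γ_per]; exact ⟨hn, τ, hτ, rfl⟩)
    simp only [pl_co, P.γ_per] at this
    simp only [inner_add_right, real_inner_smul_right]
    exact this

end Pool.Agent.P.MP_28369d_gt.SB
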