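import Pool.Agent.P.MP_28369d_gt.SB.Tools

/-!
Small Lipschitz perturbations of closed curves are ambient isotopic.
-/

namespace Pool.Agent.P.MP_28369d_gt.SB

open Set Filter Topology
open scoped RealInnerProductSpace unitInterval

namespace LOCx

theorem iso_of_lip {g : E → E} (hg : LipschitzWith (1 / 2) g) (K : Set E) :
    Iso K ((fun x => x + g x) '' K) := by
  have h0 : ∀ (t : I) (x x' : E), ‖(t : ℝ) • (g x - g x')‖ ≤ 1 / 2 * ‖x - x'‖ := fun t x x' => by
    have h1 : ‖g x - g x'‖ ≤ 1 / 2 * ‖x - x'‖ := by simpa using hg.norm_sub_le x x'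
    rw [norm_smul, Real.norm_of_nonneg t.2.1]
    exact (mul_le_of_le_one_left (norm_nonneg _) t.2.2).trans h1
  have h1 : ∀ (t : I) (y : E), ∃ x, x + (t : ℝ) • g x = y := fun t y => by
    have hc : ContractingWith (1 / 2) fun x => y - (t : ℝ) • g x := by
      refine ⟨by norm_num, LipschitzWith.of_dist_le_mul fun x x' => ?_⟩
      rw [dist_eq_norm, sub_sub_sub_cancel_left, ← smul_sub, dist_comm, dist_eq_norm]
      simpa using h0 t x' x
    exact ⟨_, eq_sub_iff_add_eq.1 hc.fixedPoint_isFixedPt.eq.symm⟩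
  have h2 : ∀ (t t' : I) (x x' : E), ‖x - x'‖ ≤
      2 * (‖(x + (t : ℝ) • g x) - (x' + (t' : ℝ) • g x')‖ + ‖((t : ℝ) - t') • g x'‖) :=
    fun t t' x x' => by
      have e : x - x' = (x + (t : ℝ) • g x) - (x' + (t' : ℝ) • g x') - ((t : ℝ) - t') • g x' -
        (t : ℝ) • (g x - g x') := by module
      have a1 := norm_sub_le ((x + (t : ℝ) • g x) - (x' + (t' : ℝ) • g x') -
        ((t : ℝ) - t') • g x') ((t : ℝ) • (g x - g x'))
      have a2 := norm_sub_le ((x + (t : ℝ) • g x) - (x' + (t' : ℝ) • g x'))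
        (((t : ℝ) - t') • g x')
      rw [← e] at a1
      linarith [h0 t x x']
  choose ψ hψ using h1
  have c1 : Continuous fun p : I × E => p.2 + (p.1 : ℝ) • g p.2 :=
    continuous_snd.add ((continuous_subtype_val.comp continuous_fst).smul
      (hg.continuous.comp continuous_snd))
  have c2 : Continuous fun p : I × E => ψ p.1 p.2 := by
    refine continuous_iff_continuousAt.2 fun q => ?_
    rw [ContinuousAt, tendsto_iff_norm_sub_tendsto_zero]
    refine squeeze_zero (fun _ => norm_nonneg _)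
      (g := fun p : I × E => 2 * (‖p.2 - q.2‖ + ‖((p.1 : ℝ) - q.1) • g (ψ q.1 q.2)‖))
      (fun p => by simpa only [hψ] using h2 p.1 q.1 (ψ p.1 p.2) (ψ q.1 q.2)) ?_
    exact Continuous.tendsto' (by fun_prop) _ _ (by simp)
  have h3 : ∀ (t : I) (x : E), ψ t (x + (t : ℝ) • g x) = x := fun t x => by
    have := h2 t t (ψ t (x + (t : ℝ) • g x)) x
    rw [hψ, sub_self, sub_self, zero_smul, norm_zero, add_zero, mul_zero] at this
    exact sub_eq_zero.1 (norm_le_zero_iff.1 this)
  refine ⟨fun t => ⟨⟨fun x => x + (t : ℝ) • g x, ψ t, h3 t, hψ t⟩,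
    c1.comp (Continuous.prodMk_right t), c2.comp (Continuous.prodMk_right t)⟩, c1, c2,
    fun x => ?_, image_congr fun x _ => ?_⟩
  · show x + ((0 : I) : ℝ) • g x = x
    simp
  · show x + ((1 : I) : ℝ) • g x = x + g x
    simp

end LOCx

theorem s_LOC : S_LOC := by
  have hA : (0 : ℝ) < lipschitzExtensionConstant E := lipschitzExtensionConstant_pos E
  refine ⟨min (1 / 2) (1 / (2 * lipschitzExtensionConstant E)), by positivity,
    fun γ δ T c L hT hc p1 p2 hl hδ hL => ⟨?_, fun s t hst => ?_⟩⟩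
  · have h1 : ∀ s t, c * ‖δ s - δ t‖ ≤ L * ‖γ s - γ t‖ := fun s t => by
      obtain ⟨k, k1, k2⟩ := exists_shift hT (s - T / 2) t
      have a1 := hl s (t + k * T) (by rw [abs_le]; constructor <;> linarith)
      have a2 := hδ.norm_sub_le s (t + k * T)
      rw [p1.int_mul k t] at a1
      rw [p2.int_mul k t, Real.norm_eq_abs] at a2
      nlinarith [mul_le_mul_of_nonneg_left a1 L.coe_nonneg, mul_le_mul_of_nonneg_left a2 hc.le]
    have h2 : γ.FactorsThrough γ ∧ δ.FactorsThrough γ := ⟨fun _ _ h => h, fun s t h => by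
      have := h1 s t
      rw [h, sub_self, norm_zero, mul_zero] at this
      exact sub_eq_zero.1 (norm_le_zero_iff.1 (nonpos_of_mul_nonpos_right this hc))⟩
    have h3 : LipschitzOnWith (1 / (2 * lipschitzExtensionConstant E))
        (Function.extend γ δ 0) (range γ) := by
      refine LipschitzOnWith.of_dist_le_mul ?_
      rintro _ ⟨s, rfl⟩ _ ⟨t, rfl⟩
      rw [h2.2.extend_apply, h2.2.extend_apply, dist_eq_norm, dist_eq_norm]
      refine le_of_mul_le_mul_left ((h1 s t).trans ?_) hc
      rw [← mul_assoc, mul_comm c]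
      push_cast
      exact mul_le_mul_of_nonneg_right (hL.trans
        (mul_le_mul_of_nonneg_right (min_le_right _ _) hc.le)) (norm_nonneg _)
    obtain ⟨g, g1, g2⟩ := h3.extend_finite_dimension
    have h4 : lipschitzExtensionConstant E * (1 / (2 * lipschitzExtensionConstant E)) = 1 / 2 := by
      have := (lipschitzExtensionConstant_pos E).ne'
      field_simp
    rw [h4] at g1
    have h5 := LOCx.iso_of_lip g1 (range γ)
    rw [← range_comp] at h5
    refine (congrArg (Iso _) (congrArg range (funext fun t => ?_))).mp h5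
    show γ t + g (γ t) = γ t + δ t
    rw [← g2 (mem_range_self t), h2.2.extend_apply]
  · have a1 := hl s t hst
    have a2 := hδ.norm_sub_le s t
    have a3 := norm_sub_le (γ s + δ s - (γ t + δ t)) (δ s - δ t)
    have a4 : (L : ℝ) ≤ 1 / 2 * c :=
      hL.trans (mul_le_mul_of_nonneg_right (min_le_left _ _) hc.le)
    rw [Real.norm_eq_abs] at a2
    rw [show γ s + δ s - (γ t + δ t) - (δ s - δ t) = γ s - γ t by abel] at a3
    nlinarith [mul_le_mul_of_nonneg_right a4 (abs_nonneg (s - t))]

theorem s_FAM : S_FAM := by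
  obtain ⟨κ, hκ, hK⟩ := s_LOC
  intro γ η T L hT p1 p2 hL hc
  have p3 : ∀ s : ℝ, Function.Periodic (fun t => s • (η t - γ t)) T := fun s t => by
    simp only [p1 t, p2 t]
  have h := const_of_ev (S := Icc (0 : ℝ) 1) isPreconnected_Icc
    (F := fun s => Iso (range γ) (range fun t => γ t + s • (η t - γ t))) (fun s hs => ?_)
    (left_mem_Icc.2 zero_le_one) (right_mem_Icc.2 zero_le_one)
  · simpa using h.mp (by simpa using Iso.refl _)
  · obtain ⟨c, c0, hc⟩ := hc s hs
    have h1 : ∀ᶠ s' in 𝓝 s, |s' - s| * L < κ * c :=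
      ContinuousAt.eventually_lt (by fun_prop) continuousAt_const (by simpa using mul_pos hκ c0)
    filter_upwards [h1.filter_mono nhdsWithin_le_nhds] with s' h2
    have h3 := (hK _ (fun t => (s' - s) • (η t - γ t)) T c (‖s' - s‖₊ * L) hT c0
      (p1.add (p3 s)) (p3 _) hc ((lipschitzWith_smul (s' - s)).comp hL) (by
        push_cast
        exact h2.le)).1
    have e : (fun t => (γ + fun t => s • (η t - γ t)) t + (s' - s) • (η t - γ t)) =
        fun t => γ t + s' • (η t - γ t) := funext fun t => by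
      simp only [Pi.add_apply]
      module
    rw [e] at h3
    exact propext ⟨fun a => a.trans h3.symm, fun a => a.trans h3⟩

end Pool.Agent.P.MP_28369d_gt.SB
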