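import Pool.Agent.P.MP_28369d_gt.SB.Tools

namespace Pool.Agent.P.MP_28369d_gt.SB

open Set Filter Topology
open scoped RealInnerProductSpace

namespace NOBIx

theorem sg {p q r : ℝ} (h1 : 0 < q * p) (h2 : 0 < r * q) : 0 < r * p := by
  have hq : q ≠ 0 := fun h => by simp [h] at h1
  have h3 := mul_pos h1 h2
  have h4 : q * p * (r * q) = (r * p) * (q * q) := by ring
  rw [h4] at h3
  exact (mul_pos_iff_of_pos_right (mul_self_pos.2 hq)).1 h3

theorem pert {n : ℕ} (hn : 0 < n) {u g : ℤ → ℝ} (hu : ∀ k, u (k + n) = u k)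
    (hg : ∀ k, g (k + n) = g k) : ∃ δ > (0 : ℝ), ∀ k, u k ≠ 0 → 0 < u k * (u k + δ * g k) := by
  have hfin := finite_range_of_per hn (f := fun k => (u k, g k)) (fun k => by simp [hu, hg])
  have h1 : ∀ᶠ δ in 𝓝 (0 : ℝ), ∀ p ∈ range (fun k => (u k, g k)),
      p.1 ≠ 0 → 0 < p.1 * (p.1 + δ * p.2) := by
    rw [eventually_all_finite hfin]
    intro p _
    by_cases hp : p.1 = 0
    · exact Eventually.of_forall fun _ h => absurd hp h
    · have hc : Continuous fun δ : ℝ => p.1 * (p.1 + δ * p.2) := by fun_prop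
      have := hc.continuousAt (x := 0) |>.eventually
        (lt_mem_nhds (show (0 : ℝ) < p.1 * (p.1 + 0 * p.2) by simpa using hp))
      exact this.mono fun _ h _ => h
  obtain ⟨δ, h2, h3⟩ := ((h1.filter_mono nhdsWithin_le_nhds).and
    (self_mem_nhdsWithin (s := Ioi (0 : ℝ)))).exists
  exact ⟨δ, h3, fun k => h2 _ ⟨k, rfl⟩⟩

theorem nb {Z φ : ℤ → ℝ} {i : ℤ} (hZ : ∀ k, Z k ≠ 0) (h1 : φ (i - 1) - φ i ≠ 0)
    (h2 : φ (i + 1) - φ i ≠ 0) (h : jp Z φ (i - 1) * jp Z φ i ≤ 0) :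
    0 < (Z (i - 1) * (φ (i - 1) - φ i)) * (Z (i + 1) * (φ (i + 1) - φ i)) := by
  have hne := mul_ne_zero h1 h2
  have e : i - 1 + 1 = i := by ring
  have key : (Z (i - 1) * (φ (i - 1) - φ i)) * (Z (i + 1) * (φ (i + 1) - φ i)) =
      (Z (i - 1) * Z (i + 1)) * ((φ (i - 1) - φ i) * (φ (i + 1) - φ i)) := by ring
  rw [key]
  rcases lt_or_gt_of_ne (mul_ne_zero (hZ (i - 1)) (hZ i)) with a | a <;>
    rcases lt_or_gt_of_ne (mul_ne_zero (hZ i) (hZ (i + 1))) with b | b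
  · rw [jp_of_neg (by rwa [e]), jp_of_neg b, e] at h
    have c : 0 < Z (i - 1) * Z (i + 1) := sg (q := -Z i) (by linarith) (by linarith)
    exact mul_pos c (lt_of_le_of_ne (by linarith) hne.symm)
  · rw [jp_of_neg (by rwa [e]), jp_of_pos b, e] at h
    have c : 0 < -Z (i - 1) * Z (i + 1) := sg (q := Z i) b (by linarith)
    exact mul_pos_of_neg_of_neg (by linarith) (lt_of_le_of_ne h hne)
  · rw [jp_of_pos (by rwa [e]), jp_of_neg b, e] at h
    have c : 0 < -Z (i - 1) * Z (i + 1) := sg (q := -Z i) (by linarith) (by linarith)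
    exact mul_pos_of_neg_of_neg (by linarith) (lt_of_le_of_ne (by linarith) hne)
  · rw [jp_of_pos (by rwa [e]), jp_of_pos b, e] at h
    have c : 0 < Z (i - 1) * Z (i + 1) := sg (q := Z i) b a
    exact mul_pos c (lt_of_le_of_ne (by linarith) hne.symm)

theorem ex {m n : ℕ} {Z x y : ℤ → ℝ} (h : Core m n Z x y) {a b : ℝ} {i j : ℤ}
    (hij : ¬ (n : ℤ) ∣ j - i) (he : lin a b x y i = lin a b x y j)
    (hu : ∀ k, ¬ (n : ℤ) ∣ k - i → ¬ (n : ℤ) ∣ k - j → lin a b x y k - lin a b x y i ≠ 0)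
    {s t : ℝ} (hs : s ≠ 0) (ht : t ≠ 0) :
    ∃ F : ℤ → ℝ, (∀ k, F (k + n) = F k) ∧ (∀ k, F k ≠ 0) ∧ m ≤ mx n F ∧ mx n F ≤ m + 1 ∧
      (∀ k, ¬ (n : ℤ) ∣ k - i → ¬ (n : ℤ) ∣ k - j →
        0 < (Z k * (lin a b x y k - lin a b x y i)) * F k) ∧ 0 < F i * s ∧ 0 < F j * t := by
  have hx : x j - x i ≠ 0 := sub_ne_zero.2 (h.xne i j hij).symm
  obtain ⟨α, β, gi, gj⟩ : ∃ α β : ℝ, α * x i + β = Z i * s ∧ α * x j + β = Z j * t :=
    ⟨(Z j * t - Z i * s) / (x j - x i), Z i * s - (Z j * t - Z i * s) / (x j - x i) * x i,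
      by ring, by field_simp; ring⟩
  obtain ⟨δ, hδ, H⟩ := pert h.n_pos (u := fun k => lin a b x y k - lin a b x y i)
    (g := fun k => α * x k + β) (fun k => by rw [h.lin_per]) (fun k => by rw [h.px])
  set c : ℝ := δ * β - lin a b x y i with hc
  have hw : ∀ k, lin (a + δ * α) b x y k + c =
      lin a b x y k - lin a b x y i + δ * (α * x k + β) := fun k => by
    simp only [hc, lin]; ring
  have wi : lin (a + δ * α) b x y i + c = δ * (Z i * s) := by rw [hw, gi]; ring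
  have wj : lin (a + δ * α) b x y j + c = δ * (Z j * t) := by rw [hw, gj, he]; ring
  have hne : ∀ k, lin (a + δ * α) b x y k + c ≠ 0 := by
    intro k
    by_cases h1 : (n : ℤ) ∣ k - i
    · rw [per_of_dvd (h.lin_per _ _) h1, wi]
      exact mul_ne_zero hδ.ne' (mul_ne_zero (h.Zne i) hs)
    by_cases h2 : (n : ℤ) ∣ k - j
    · rw [per_of_dvd (h.lin_per _ _) h2, wj]
      exact mul_ne_zero hδ.ne' (mul_ne_zero (h.Zne j) ht)
    have := H k (hu k h1 h2)
    rw [hw]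
    intro h0
    rw [h0] at this
    simp at this
  obtain ⟨t1, t2⟩ := h.two (a + δ * α) b c hne
  refine ⟨fun k => Z k * (lin (a + δ * α) b x y k + c), fun k => by simp only [h.pZ, h.lin_per],
    fun k => mul_ne_zero (h.Zne k) (hne k), t1, t2, fun k h1 h2 => ?_, ?_, ?_⟩
  · have a1 := mul_pos (mul_self_pos.2 (h.Zne k)) (H k (hu k h1 h2))
    simp only [hw]
    linarith
  · have a1 := mul_pos hδ (mul_self_pos.2 (mul_ne_zero (h.Zne i) hs))
    simp only [wi]
    linarith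
  · have a1 := mul_pos hδ (mul_self_pos.2 (mul_ne_zero (h.Zne j) ht))
    simp only [wj]
    linarith

theorem main {m n : ℕ} {Z x y : ℤ → ℝ} (h : Core m n Z x y) {a b : ℝ} {i j : ℤ}
    (hab : a ≠ 0 ∨ b ≠ 0) (l1 : i + 2 ≤ j) (l2 : j ≤ i + n - 2)
    (he : lin a b x y i = lin a b x y j)
    (hi : jp Z (lin a b x y) (i - 1) * jp Z (lin a b x y) i ≤ 0)
    (hj : jp Z (lin a b x y) (j - 1) * jp Z (lin a b x y) j ≤ 0) : False := by
  have nd : ∀ k : ℤ, k ≠ 0 → -(n : ℤ) < k → k < n → ¬ (n : ℤ) ∣ k := fun k h0 h1 h2 =>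
    not_dvd_of_lt h0 (abs_lt.2 ⟨h1, h2⟩)
  have hij : ¬ (n : ℤ) ∣ j - i := nd _ (by omega) (by omega) (by omega)
  have hu : ∀ k, ¬ (n : ℤ) ∣ k - i → ¬ (n : ℤ) ∣ k - j → lin a b x y k - lin a b x y i ≠ 0 :=
    fun k h1 h2 h3 => h.gp a b i j k hab hij h1 h2 he (by linarith)
  have hw : ∀ k, i - 1 ≤ k → k ≤ i + n - 1 → k ≠ i → k ≠ j →
      ¬ (n : ℤ) ∣ k - i ∧ ¬ (n : ℤ) ∣ k - j := fun k h1 h2 h3 h4 =>
    ⟨nd _ (by omega) (by omega) (by omega), nd _ (by omega) (by omega) (by omega)⟩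
  set f : ℤ → ℝ := fun k => Z k * (lin a b x y k - lin a b x y i) with hf
  have wa := hw (i - 1) (by omega) (by omega) (by omega) (by omega)
  have wb := hw (i + 1) (by omega) (by omega) (by omega) (by omega)
  have wc := hw (j - 1) (by omega) (by omega) (by omega) (by omega)
  have wd := hw (j + 1) (by omega) (by omega) (by omega) (by omega)
  have ni : 0 < f (i - 1) * f (i + 1) := nb h.Zne (hu _ wa.1 wa.2) (hu _ wb.1 wb.2) hi
  have nj : 0 < f (j - 1) * f (j + 1) := by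
    have := nb h.Zne (he ▸ hu _ wc.1 wc.2) (he ▸ hu _ wd.1 wd.2) hj
    rw [← he] at this
    exact this
  have fi : f (i + 1) ≠ 0 := fun h0 => by simp [h0] at ni
  have fj : f (j + 1) ≠ 0 := fun h0 => by simp [h0] at nj
  obtain ⟨F, p1, p2, p3, -, p5, p6, p7⟩ := ex h hij he hu fi fj
  obtain ⟨G, q1, q2, -, q4, q5, q6, q7⟩ := ex h hij he hu (neg_ne_zero.2 fi) (neg_ne_zero.2 fj)
  have c1 := win_chg p1 p2
  have c2 := win_chg q1 q2
  rw [← cnt_eq_win h.n_pos (fun k => by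
    rw [p1, show k + n + 1 = k + 1 + n by ring, p1]) (i - 1)] at c1
  rw [← cnt_eq_win h.n_pos (fun k => by
    rw [q1, show k + n + 1 = k + 1 + n by ring, q1]) (i - 1)] at c2
  have F1 : 0 < F i * F (i + 1) := sg (p5 _ wb.1 wb.2) p6
  have F2 : 0 < F i * F (i - 1) := sg (p5 _ wa.1 wa.2) (sg (q := f (i + 1)) (by linarith) p6)
  have F3 : 0 < F j * F (j + 1) := sg (p5 _ wd.1 wd.2) p7
  have F4 : 0 < F j * F (j - 1) := sg (p5 _ wc.1 wc.2) (sg (q := f (j + 1)) (by linarith) p7)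
  have G1 : 0 < -G i * G (i + 1) := sg (q5 _ wb.1 wb.2) (by linarith)
  have G2 : 0 < -G i * G (i - 1) :=
    sg (q5 _ wa.1 wa.2) (sg (q := f (i + 1)) (by linarith) (by linarith))
  have G3 : 0 < -G j * G (j + 1) := sg (q5 _ wd.1 wd.2) (by linarith)
  have G4 : 0 < -G j * G (j - 1) :=
    sg (q5 _ wc.1 wc.2) (sg (q := f (j + 1)) (by linarith) (by linarith))
  have FG : ∀ k, i - 1 ≤ k → k ≤ i + n - 1 → k ≠ i → k ≠ j → 0 < F k * G k := fun k h1 h2 h3 h4 => by
    obtain ⟨w1, w2⟩ := hw k h1 h2 h3 h4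
    exact sg (q5 k w1 w2) (by have := p5 k w1 w2; linarith)
  have out : ∀ k, F k * F (k + 1) < 0 → k ≠ i - 1 ∧ k ≠ i ∧ k ≠ j - 1 ∧ k ≠ j := fun k hk => by
    refine ⟨?_, ?_, ?_, ?_⟩ <;> rintro rfl
    · rw [sub_add_cancel] at hk; linarith
    · linarith
    · rw [sub_add_cancel] at hk; linarith
    · linarith
  have c4 : ({i - 1, i, j - 1, j} : Set ℤ).ncard = 4 := by
    rw [ncard_insert_of_notMem (by simp; omega), ncard_insert_of_notMem (by simp; omega),
      ncard_pair (by omega)]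
  have hle : cnt (i - 1) (i - 1 + n - 1) (fun k => F k * F (k + 1) < 0) + 4 ≤
      cnt (i - 1) (i - 1 + n - 1) (fun k => G k * G (k + 1) < 0) := by
    unfold cnt
    rw [← c4, ← ncard_union_eq ?_ (fin_cnt _ _ _) (toFinite _)]
    · refine ncard_le_ncard ?_ (fin_cnt _ _ _)
      rintro k (⟨h1, h2, h3⟩ | hk)
      · obtain ⟨o1, o2, o3, o4⟩ := out k h3
        have a1 := FG k h1 (by omega) o2 o4
        have a2 := FG (k + 1) (by omega) (by omega) (by omega) (by omega)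
        have a3 : 0 < -G k * G (k + 1) :=
          sg a2 (sg (q := -F k) (by linarith) (by linarith))
        exact ⟨h1, h2, by linarith⟩
      · simp only [mem_insert_iff, mem_singleton_iff] at hk
        rcases hk with rfl | rfl | rfl | rfl
        · exact ⟨le_rfl, by omega, by simp only [sub_add_cancel]; linarith⟩
        · exact ⟨by omega, by omega, by linarith⟩
        · exact ⟨by omega, by omega, by simp only [sub_add_cancel]; linarith⟩
        · exact ⟨by omega, by omega, by linarith⟩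
    · rw [disjoint_left]
      rintro k ⟨-, -, h3⟩ hk
      obtain ⟨o1, o2, o3, o4⟩ := out k h3
      simp only [mem_insert_iff, mem_singleton_iff] at hk
      omega
  omega

end NOBIx

theorem s_NOBI : S_NOBI := by
  intro m n Z x y h a b i j hab h0 h1 h2 he hi hj
  have hn : (0 : ℤ) < n := by exact_mod_cast h.n_pos
  obtain ⟨r, q, hr, r0, r1⟩ : ∃ r q : ℤ, j - i = r + q * n ∧ 0 ≤ r ∧ r < n :=
    ⟨(j - i) % n, (j - i) / n, by have := Int.emod_add_mul_ediv (j - i) n; linarith,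
      Int.emod_nonneg _ hn.ne', Int.emod_lt_of_pos _ hn⟩
  have a0 : r ≠ 0 := fun hc => h0 ⟨q, by rw [hr, hc]; ring⟩
  have a1 : r ≠ 1 := fun hc => h1 ⟨q, by rw [hr, hc]; ring⟩
  have a2 : r ≠ n - 1 := fun hc => h2 ⟨q + 1, by rw [hr, hc]; ring⟩
  have e : j = i + r + q * n := by linarith
  have pj := jp_per h.pZ (h.lin_per a b)
  refine NOBIx.main h hab (j := i + r) (by omega) (by omega) ?_ hi ?_
  · rw [he, e, per_zmul (h.lin_per a b)]
  · rwa [e, show i + r + q * n - 1 = i + r - 1 + q * n by ring, per_zmul pj, per_zmul pj] at hj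

end Pool.Agent.P.MP_28369d_gt.SB
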