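import Pool.Agent.P.MP_28369d_gt.SB.Tools

/-!
Branches of the velocity polygon and the order of their minima.
-/

namespace Pool.Agent.P.MP_28369d_gt.SB

open Set Filter Topology
open scoped RealInnerProductSpace

namespace ORDx

variable {m n : ℕ} {Z x y : ℤ → ℝ}

theorem pp {a b c : ℝ} (h1 : 0 < a * b) (h2 : 0 < a * c) : 0 < b * c := by
  have h := mul_pos h1 h2
  rw [show a * b * (a * c) = a * a * (b * c) by ring] at h
  exact (pos_iff_pos_of_mul_pos h).1 (mul_self_pos.2 (left_ne_zero_of_mul h1.ne'))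

theorem mneg {a b : ℝ} (h : 0 < a) : a * b < 0 ↔ b < 0 :=
  ⟨fun k => neg_of_mul_neg_right k h.le, mul_neg_of_pos_of_neg h⟩

theorem mono_chain {g : ℤ → ℝ} {p q : ℤ} (h : ∀ i, p ≤ i → i < q → g i ≤ g (i + 1)) {i j : ℤ}
    (hi : p ≤ i) (hij : i ≤ j) : j ≤ q → g i ≤ g j := by
  induction j, hij using Int.leInduction with
  | base => exact fun _ => le_rfl
  | succ j hj ih => exact fun hq => (ih (by omega)).trans (h j (by omega) (by omega))

theorem val_eq (η s : ℝ) (i : ℤ) : val x y η s i = η * val x y 1 s i := by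
  simp only [val, lin]
  ring

theorem exists_branch (h : Core m n Z x y) (c : ℤ) :
    ∃ p q, Branch Z x y p q ∧ p ≤ c ∧ c ≤ q := by
  obtain ⟨i, hi⟩ := h.chg
  have hb : brk Z x y i := Or.inl hi
  have hn : (1 : ℤ) ≤ n := by exact_mod_cast h.n_pos
  have h1 := le_mul_of_one_le_right (show 0 ≤ |c - i| + 1 by positivity) hn
  have h2 := le_abs_self (c - i)
  have h3 := neg_abs_le (c - i)
  obtain ⟨a, ⟨a1, a2⟩, a3⟩ := Int.exists_greatest_of_bdd (P := fun k => k < c ∧ brk Z x y k)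
    ⟨c, fun k hk => hk.1.le⟩ ⟨_, by linarith, (h.brk_zmul i (-(|c - i| + 1))).2 hb⟩
  obtain ⟨b, ⟨b1, b2⟩, b3⟩ := Int.exists_least_of_bdd (P := fun k => c ≤ k ∧ brk Z x y k)
    ⟨c, fun k hk => hk.1⟩ ⟨_, by linarith, (h.brk_zmul i (|c - i| + 1)).2 hb⟩
  refine ⟨a + 1, b, ⟨by omega, by rwa [add_sub_cancel_right], b2, fun k k1 k2 hk => ?_⟩,
    by omega, b1⟩
  by_cases hc : k < c
  · have := a3 k ⟨hc, hk⟩
    omega
  · have := b3 k ⟨not_lt.1 hc, hk⟩
    omega

theorem signs (h : Core m n Z x y) {η s : ℝ} {p q c : ℤ} (hB : Branch Z x y p q) (h1 : p ≤ c)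
    (h2 : c ≤ q) (h3 : jp Z (val x y η s) (c - 1) < 0) (h4 : 0 < jp Z (val x y η s) c) :
    (∀ i, p - 1 ≤ i → i < c → jp Z (val x y η s) i < 0) ∧
      ∀ i, c ≤ i → i ≤ q → 0 < jp Z (val x y η s) i := by
  rcases hB.1.eq_or_lt with e | hpq
  · exact ⟨fun i a b => (show c - 1 = i by omega) ▸ h3, fun i a b => (show c = i by omega) ▸ h4⟩
  have hx0 := pos_chain (g := jp Z x) (p := p - 1) (q := q) (h.jx_ne _) fun i a b => by
    rcases a.eq_or_lt with e | e
    · rw [← e, sub_add_cancel]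
      exact (h.not_brk (hB.2.2.2 p le_rfl hpq)).2.1
    · exact (h.not_brk (hB.2.2.2 i (by omega) b)).2.2.1
  have hx : ∀ i j, p - 1 ≤ i → i ≤ q → p - 1 ≤ j → j ≤ q → 0 < jp Z x i * jp Z x j :=
    fun i j a b a' b' => pp (hx0 i a b) (hx0 j a' b')
  have ht0 := pos_chain (g := trn Z x y) (p := p) (q := q) (h.trn_ne _) fun i a b =>
    (h.not_brk (hB.2.2.2 i a b)).2.2.2
  have hs : ∀ i, p ≤ i → i ≤ q → 0 < trn Z x y p * (sl Z x y i - sl Z x y (i - 1)) := fun i a b => by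
    rw [h.sl_sub, ← mul_div_assoc]
    exact div_pos (ht0 i a b) (hx _ _ (by omega) (by omega) (by omega) b)
  have e : ∀ i, jp Z x c * jp Z x i * (η * jp Z x c * (sl Z x y i - s)) =
      jp Z x c * jp Z x c * jp Z (val x y η s) i := fun i => by
    rw [h.jp_val]
    ring
  have hcc := mul_self_pos.2 (h.jx_ne c)
  have k1 : ∀ i, p - 1 ≤ i → i ≤ q →
      (η * jp Z x c * (sl Z x y i - s) < 0 ↔ jp Z (val x y η s) i < 0) := fun i a b => by
    rw [← mneg (hx c i (by omega) h2 a b), e, mneg hcc]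
  have k2 : ∀ i, p - 1 ≤ i → i ≤ q →
      (0 < η * jp Z x c * (sl Z x y i - s) ↔ 0 < jp Z (val x y η s) i) := fun i a b => by
    rw [← mul_pos_iff_of_pos_left (hx c i (by omega) h2 a b), e, mul_pos_iff_of_pos_left hcc]
  have a3 := (k1 (c - 1) (by omega) (by omega)).2 h3
  have a4 := (k2 c (by omega) h2).2 h4
  have hu : 0 < (sl Z x y c - sl Z x y (c - 1)) * (η * jp Z x c) := by linarith
  have hv : 0 < trn Z x y p * (η * jp Z x c) := pp (by rw [mul_comm]; exact hs c h1 h2) hu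
  have hm : ∀ i, p - 1 ≤ i → i < q →
      η * jp Z x c * (sl Z x y i - s) ≤ η * jp Z x c * (sl Z x y (i + 1) - s) := fun i a b => by
    have h5 := pp hv (hs (i + 1) (by omega) (by omega))
    rw [add_sub_cancel_right] at h5
    linarith
  exact ⟨fun i a b => (k1 i a (by omega)).1
      ((mono_chain hm a (show i ≤ c - 1 by omega) (by omega)).trans_lt a3),
    fun i a b => (k2 i (by omega) b).1 (a4.trans_le (mono_chain hm (by omega) a b))⟩

theorem keep (h : Core m n Z x y) {s1 s2 s s' : ℝ} (hF : Free Z x y s1 s2) (hs : s ∈ Icc s1 s2)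
    (hs' : s' ∈ Icc s1 s2) {i : ℤ} (hb : brk Z x y i) {η : ℝ} (h0 : jp Z (val x y η s) i ≠ 0) :
    0 < jp Z (val x y η s) i * jp Z (val x y η s') i := by
  rw [h.jp_val] at h0 ⊢
  rw [h.jp_val, mul_mul_mul_comm]
  refine mul_pos (mul_self_pos.2 (left_ne_zero_of_mul h0)) ?_
  rcases not_and_or.1 (hF i hb) with a | a
  · exact mul_pos_of_neg_of_neg (by linarith [hs.1]) (by linarith [hs'.1])
  · exact mul_pos (by linarith [hs.2]) (by linarith [hs'.2])

theorem weak (h : Core m n Z x y) {η s : ℝ} (hη : η = 1 ∨ η = -1) {p q i : ℤ}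
    (hB : Branch Z x y p q) (hU : UpB Z x y η p q s) (hA : Amin x y η p q s i) :
    jp Z (val x y 1 s) (i - 1) * jp Z (val x y 1 s) i ≤ 0 := by
  have h1 : jp Z (val x y η s) (i - 1) ≤ 0 := by
    rcases hA.1.eq_or_lt with e | e
    · exact e ▸ hU.1.le
    · rw [jp_of_pos (h.not_brk (hB.2.2.2 (i - 1) (by omega) (by have := hA.2.1; omega))).1,
        sub_add_cancel]
      exact sub_nonpos.2 (hA.2.2 _ (by omega) (by have := hA.2.1; omega))
  have h2 : 0 ≤ jp Z (val x y η s) i := by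
    rcases hA.2.1.eq_or_lt with e | e
    · exact e ▸ hU.2.le
    · rw [jp_of_pos (h.not_brk (hB.2.2.2 i hA.1 e)).1]
      exact sub_nonneg.2 (hA.2.2 _ (by have := hA.1; omega) (by omega))
  have h3 := mul_nonpos_of_nonpos_of_nonneg h1 h2
  simp only [h.jp_val] at h3 ⊢
  rcases hη with rfl | rfl <;> linarith

theorem dis (h : Core m n Z x y) {p q p' q' i j : ℤ} (hB : Branch Z x y p q)
    (hB' : Branch Z x y p' q') (hd : ¬ (n : ℤ) ∣ p' - p) (h1 : p ≤ i) (h2 : i ≤ q) (h3 : p' ≤ j)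
    (h4 : j ≤ q') : ¬ (n : ℤ) ∣ j - i := by
  rintro ⟨k, hk⟩
  rcases lt_trichotomy (p + k * n) p' with a | a | a
  · exact hB.2.2.2 (p' - 1 + -k * n) (by linarith) (by linarith) ((h.brk_zmul _ _).2 hB'.2.1)
  · exact hd ⟨k, by linarith⟩
  · exact hB'.2.2.2 (p - 1 + k * n) (by linarith) (by linarith) ((h.brk_zmul _ _).2 hB.2.1)

theorem adj (h : Core m n Z x y) {p q p' q' i j : ℤ} (hB : Branch Z x y p q)
    (hB' : Branch Z x y p' q') (hd : ¬ (n : ℤ) ∣ p' - p) (h1 : p ≤ i) (h2 : i ≤ q) (h3 : p' ≤ j)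
    (h4 : j ≤ q') {s1 s2 s : ℝ} (hF : Free Z x y s1 s2) (hs : s ∈ Icc s1 s2)
    (he : val x y 1 s i = val x y 1 s j) : ¬ (n : ℤ) ∣ j - i - 1 := by
  intro hc
  rw [sub_sub] at hc
  have h5 : jp Z (val x y 1 s) i = 0 :=
    jp_eq_zero.2 ((per_of_dvd (h.lin_per _ _) hc).symm.trans he.symm)
  rw [h.jp_val, one_mul] at h5
  have h6 : sl Z x y i = s := sub_eq_zero.1 ((mul_eq_zero.1 h5).resolve_left (h.jx_ne i))
  have h7 : i ≠ q := fun e => hF q hB.2.2.1 (by rwa [← e, h6])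
  exact dis h hB hB' hd (by omega) (by omega) h3 h4 hc

theorem level {η : ℝ} (hη : η = 1 ∨ η = -1) {p q : ℤ} (hpq : p ≤ q) : ∃ l : ℝ → ℝ, Continuous l ∧
    ∀ s, (∃ i, Amin x y η p q s i) ∧ ∀ i, Amin x y η p q s i → l s = val x y 1 s i := by
  have hne : (Finset.Icc p q).Nonempty := Finset.nonempty_Icc.2 hpq
  refine ⟨fun s => η * (Finset.Icc p q).inf' hne fun k => val x y η s k,
    continuous_const.mul (Continuous.finset_inf'_apply hne fun k _ => ?_), fun s => ⟨?_, ?_⟩⟩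
  · simp only [val, lin]
    fun_prop
  · obtain ⟨i, h1, h2⟩ := Finset.exists_min_image _ (val x y η s) hne
    exact ⟨i, (Finset.mem_Icc.1 h1).1, (Finset.mem_Icc.1 h1).2,
      fun k a b => h2 k (Finset.mem_Icc.2 ⟨a, b⟩)⟩
  · intro i hi
    have e : ((Finset.Icc p q).inf' hne fun k => val x y η s k) = val x y η s i :=
      le_antisymm (Finset.inf'_le _ (Finset.mem_Icc.2 ⟨hi.1, hi.2.1⟩))
        (Finset.le_inf' _ _ fun k hk => hi.2.2 k (Finset.mem_Icc.1 hk).1 (Finset.mem_Icc.1 hk).2)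
    simp only [e]
    rw [val_eq η]
    rcases hη with rfl | rfl <;> ring

end ORDx

open ORDx in
theorem s_ORD (hN : S_NOBI) : S_ORD := by
  intro m n Z x y h
  refine ⟨exists_branch h, fun η s p q c _ hB h1 h2 h3 h4 => ?_,
    fun η η' s1 s2 p q p' q' hη hη' hB hB' hd hF hU hU' => ?_⟩
  · obtain ⟨a, b⟩ := signs h hB h1 h2 h3 h4
    have e : ∀ i, p ≤ i → i < q → jp Z (val x y η s) i = val x y η s (i + 1) - val x y η s i :=
      fun i k1 k2 => jp_of_pos (h.not_brk (hB.2.2.2 i k1 k2)).1 _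
    refine ⟨⟨h1, h2, fun k k1 k2 => ?_⟩, fun s1 s2 hF hs s' hs' => ?_⟩
    · rcases le_total k c with hk | hk
      · refine neg_le_neg_iff.1 (mono_chain (g := fun i => -val x y η s i) (p := p) (q := c)
          (fun i i1 i2 => ?_) k1 hk le_rfl)
        have := a i (by omega) i2
        rw [e i i1 (by omega)] at this
        linarith
      · refine mono_chain (p := c) (q := q) (fun i i1 i2 => ?_) le_rfl hk k2
        have := b i i1 i2.le
        rw [e i (by omega) i2] at this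
        linarith
    · have a1 := a (p - 1) le_rfl (by omega)
      have b1 := b q h2 le_rfl
      exact ⟨(neg_iff_neg_of_mul_pos (keep h hF hs hs' hB.2.1 a1.ne)).1 a1,
        (pos_iff_pos_of_mul_pos (keep h hF hs hs' hB.2.2.1 b1.ne')).1 b1⟩
  · have hne : ∀ s ∈ Icc s1 s2, ∀ i j, Amin x y η p q s i → Amin x y η' p' q' s j →
        val x y 1 s i ≠ val x y 1 s j := fun s hs i j hi hj he =>
      hN m n Z x y h (-(1 * s)) 1 i j (Or.inr one_ne_zero)
        (dis h hB hB' hd hi.1 hi.2.1 hj.1 hj.2.1)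
        (adj h hB hB' hd hi.1 hi.2.1 hj.1 hj.2.1 hF hs he)
        (fun hc => adj h hB' hB (fun k => hd (dvd_sub_comm.1 k)) hj.1 hj.2.1 hi.1 hi.2.1 hF hs
          he.symm (by rw [show i - j - 1 = -(j - i + 1) by ring]; exact hc.neg_right))
        he (weak h hη hB (hU s hs) hi) (weak h hη' hB' (hU' s hs) hj)
    refine fun s hs i j hi hj => ⟨hne s hs i j hi hj, fun s' hs' i' j' hi' hj' hlt => ?_⟩
    obtain ⟨l, c1, l1⟩ := level (x := x) (y := y) hη hB.1
    obtain ⟨l', c2, l2⟩ := level (x := x) (y := y) hη' hB'.1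
    by_contra hc
    obtain ⟨t, ht, e⟩ := isPreconnected_Icc.intermediate_value₂ hs hs' c1.continuousOn
      c2.continuousOn (by rw [(l1 s).2 i hi, (l2 s).2 j hj]; exact hlt.le)
      (by rw [(l1 s').2 i' hi', (l2 s').2 j' hj']; exact not_lt.1 hc)
    obtain ⟨a, ha⟩ := (l1 t).1
    obtain ⟨b, hb⟩ := (l2 t).1
    exact hne t ht a b ha hb (by rw [← (l1 t).2 a ha, ← (l2 t).2 b hb, e])

end Pool.Agent.P.MP_28369d_gt.SB
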