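import Pool.Agent.P.MP_28369d_gt.SB.Tools

/-!
Two uncut blocks of edges.
-/

namespace Pool.Agent.P.MP_28369d_gt.SB

open Set Filter Topology
open scoped RealInnerProductSpace

namespace PAIRx

theorem chain {f : ℤ → ℝ} {c : ℝ} {a b : ℤ} (h : ∀ j, a ≤ j → j < b → 0 < c * df f j) {i j : ℤ}
    (hi : a ≤ i) (hij : i < j) (hj : j ≤ b) : c * f i < c * f j := by
  induction j, Int.add_one_le_of_lt hij using Int.leInduction with
  | base => linarith [h i hi (by omega), show c * df f i = c * f (i + 1) - c * f i from mul_sub _ _ _]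
  | succ j h1 ih =>
    linarith [ih (by omega) (by omega), h j (by omega) (by omega),
      show c * df f j = c * f (j + 1) - c * f j from mul_sub _ _ _]

theorem side {J : Set ℝ} (hJ : J.OrdConnected) {l : ℝ} (hl : l ∉ J) :
    (∀ h ∈ J, h < l) ∨ ∀ h ∈ J, l < h := by
  by_contra hn
  simp only [not_or, not_forall, not_lt] at hn
  obtain ⟨⟨a, ha, h1⟩, b, hb, h2⟩ := hn
  exact hl (hJ.out hb ha ⟨h2, h1⟩)

theorem btw {A B : Set ℝ} (hA : A.Finite) (hB : B.Finite) (h : ∀ a ∈ A, ∀ b ∈ B, a ≤ b) :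
    ∃ s, (∀ a ∈ A, a ≤ s) ∧ ∀ b ∈ B, s ≤ b := by
  rcases A.eq_empty_or_nonempty with rfl | hA'
  · exact hB.bddBelow.imp fun s hs => ⟨fun _ h => h.elim, hs⟩
  rcases B.eq_empty_or_nonempty with rfl | hB'
  · exact hA.bddAbove.imp fun s hs => ⟨hs, fun _ h => h.elim⟩
  exact exists_between_of_forall_le hA' hB' h

theorem mono_sep {A B : Set ℤ} (hA : A.Finite) (hB : B.Finite) {h s : ℤ → ℝ}
    (h1 : ∀ i ∈ A, ∀ i' ∈ A, h i ≤ h i' → s i ≤ s i')
    (h2 : ∀ j ∈ B, ∀ j' ∈ B, h j ≤ h j' → s j' ≤ s j) :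
    ∃ l, ∀ J : Set ℝ, J.OrdConnected → l ∉ J →
      (∀ i ∈ A, ∀ j ∈ B, h i ∈ J → h j ∈ J → s i ≤ s j) ∨
        ∀ i ∈ A, ∀ j ∈ B, h i ∈ J → h j ∈ J → s j ≤ s i := by
  rcases {u ∈ A ×ˢ B | s u.2 < s u.1}.eq_empty_or_nonempty with h0 | h0
  · exact ⟨0, fun J _ _ => Or.inl fun i hi j hj _ _ => not_lt.1 fun h =>
      eq_empty_iff_forall_notMem.1 h0 (i, j) ⟨⟨hi, hj⟩, h⟩⟩
  obtain ⟨u, ⟨⟨hi0, hj0⟩, hu⟩, hm⟩ := exists_min_image _ (fun u : ℤ × ℤ => max (h u.1) (h u.2))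
    ((hA.prod hB).subset (sep_subset _ _)) h0
  refine ⟨max (h u.1) (h u.2), fun J hJ hl => (side hJ hl).imp
    (fun hs i hi j hj h3 h4 => not_lt.1 fun h5 => ?_) fun hs i hi j hj h3 h4 => ?_⟩
  · exact (max_lt (hs _ h3) (hs _ h4)).not_ge (hm (i, j) ⟨⟨hi, hj⟩, h5⟩)
  · exact (h2 _ hj0 j hj ((le_max_right _ _).trans (hs _ h4).le)).trans
      (hu.le.trans (h1 _ hi0 i hi ((le_max_left _ _).trans (hs _ h3).le)))

theorem thr {P Q : ℤ → Prop} {H : ℤ → ℝ} {c : ℝ} {p q : ℤ} (hpq : p ≤ q)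
    (hH : ∀ j, p ≤ j → j < q + 1 → 0 < c * df H j) (h : ∀ j, p ≤ j → j ≤ q → P j ∨ Q j)
    (hQ : ∀ j j', p ≤ j → j < j' → j' ≤ q → Q j → Q j') :
    ∃ l, ∀ J : Set ℝ, J.OrdConnected → l ∉ J →
      (∀ j, p ≤ j → j ≤ q → Meets H j J → P j) ∨ ∀ j, p ≤ j → j ≤ q → Meets H j J → Q j := by
  obtain ⟨r, ⟨h1, h2, h3⟩, hr⟩ := Int.exists_least_of_bdd
    (P := fun r => p ≤ r ∧ r ≤ q + 1 ∧ (r ≤ q → Q r)) ⟨p, fun _ h => h.1⟩
    ⟨q + 1, by omega, le_rfl, fun h => by omega⟩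
  have k1 : ∀ j, p ≤ j → j ≤ q → j < r → P j := fun j a b e =>
    (h j a b).resolve_right fun h' => (hr j ⟨a, by omega, fun _ => h'⟩).not_gt e
  have k2 : ∀ j, p ≤ j → j ≤ q → r ≤ j → Q j := fun j a b e => by
    rcases e.eq_or_lt with rfl | e
    · exact h3 b
    · exact hQ r j h1 e b (h3 (by omega))
  have k3 : ∀ i j, p ≤ i → i ≤ j → j ≤ q + 1 → c * H i ≤ c * H j := fun i j a b e => by
    rcases b.eq_or_lt with rfl | b
    · exact le_rfl
    · exact (chain hH a b e).le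
  have hc : c ≠ 0 := fun h0 => by simpa [h0] using hH p le_rfl (by omega)
  refine ⟨H r, fun J hJ hl => ?_⟩
  rcases side hJ hl with hs | hs <;> rcases hc.lt_or_gt with hc | hc
  · refine Or.inr fun j a b ⟨u, hu, h4, _⟩ => k2 j a b (not_lt.1 fun e => ?_)
    have e1 := (mul_le_mul_left_of_neg hc).1 (k3 j r a e.le h2)
    have e2 := (mul_le_mul_left_of_neg hc).1 (k3 (j + 1) r (by omega) e h2)
    exact ((le_min e1 e2).trans_lt h4).not_gt (hs u hu)
  · refine Or.inl fun j a b ⟨u, hu, h4, _⟩ => k1 j a b (not_le.1 fun e => ?_)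
    have e1 := le_of_mul_le_mul_left (k3 r j h1 e (by omega)) hc
    have e2 := le_of_mul_le_mul_left (k3 r (j + 1) h1 (by omega) (by omega)) hc
    exact ((le_min e1 e2).trans_lt h4).not_gt (hs u hu)
  · refine Or.inl fun j a b ⟨u, hu, _, h4⟩ => k1 j a b (not_le.1 fun e => ?_)
    have e1 := (mul_le_mul_left_of_neg hc).1 (k3 r j h1 e (by omega))
    have e2 := (mul_le_mul_left_of_neg hc).1 (k3 r (j + 1) h1 (by omega) (by omega))
    exact (h4.trans_le (max_le e1 e2)).not_gt (hs u hu)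
  · refine Or.inr fun j a b ⟨u, hu, _, h4⟩ => k2 j a b (not_lt.1 fun e => ?_)
    have e1 := le_of_mul_le_mul_left (k3 j r a e.le h2) hc
    have e2 := le_of_mul_le_mul_left (k3 (j + 1) r (by omega) e h2) hc
    exact (h4.trans_le (max_le e1 e2)).not_gt (hs u hu)

variable {m n : ℕ} {H Z x y : ℤ → ℝ} {p q p' q' : ℤ}

theorem swp (h : PairJ H x y p' q' p q) : PairJ H x y p q p' q' := by
  refine h.imp fun l hl J hJ hlJ => ?_
  obtain ⟨a, b, h0, h1⟩ := hl J hJ hlJ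
  have e : ∀ i, lin (-a) (-b) x y i = -lin a b x y i := fun i => by simp only [lin]; ring
  have e' : ∀ i, df (lin (-a) (-b) x y) i = -df (lin a b x y) i := fun i => by
    simp only [df, e]; ring
  refine ⟨-a, -b, by simpa using h0, h1.imp (fun h => ⟨fun i h1 h2 h3 => ?_, fun i h1 h2 h3 => ?_⟩)
    fun h i j h1 h2 h3 h4 h5 h6 => ?_⟩
  · rw [e', mul_neg]; exact neg_nonneg.2 (h.2 i h1 h2 h3)
  · rw [e', mul_neg]; exact neg_nonpos.2 (h.1 i h1 h2 h3)
  · rw [e, e]; exact neg_le_neg (h j i h3 h4 h1 h2 h6 h5)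

/-- The signs along a block without breaks. -/
structure Blk (Z x y : ℤ → ℝ) (p q : ℤ) : Prop where
  hZ : ∀ i, p ≤ i → i < q + 1 → 0 < Z p * Z i
  hx : ∀ i, p ≤ i → i < q → 0 < jp Z x p * jp Z x i
  hs : ∀ i, p ≤ i → i < q → 0 < trn Z x y p * df (sl Z x y) i
  hd : ∀ a b i, p ≤ i → i < q → df (lin a b x y) i = jp Z x i * (a + b * sl Z x y i)

theorem blk (h : Core m n Z x y) (hb : ∀ i, p ≤ i → i < q → ¬ brk Z x y i) : Blk Z x y p q where
  hZ i h1 h2 := pos_chain (h.Zne p) (fun i a b => (h.not_brk (hb i a b)).1) i h1 (by omega)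
  hx i h1 h2 := pos_chain (h.jx_ne p) (fun i a b => (h.not_brk (hb i a b)).2.2.1) i h1 h2.le
  hs i h1 h2 := by
    have e := h.sl_sub (i + 1)
    rw [add_sub_cancel_right] at e
    rw [df, e, ← mul_div_assoc]
    exact div_pos (pos_chain (h.trn_ne p) (fun i a b => (h.not_brk (hb i a b)).2.2.2) (i + 1)
      (by omega) h2) (h.not_brk (hb i h1 h2)).2.2.1
  hd a b i h1 h2 := by
    have := h.jx_ne i
    rw [df, ← jp_of_pos (h.not_brk (hb i h1 h2)).1, jp_lin, sl]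
    field_simp

theorem Blk.sgn (h : Blk Z x y p q) {a b c : ℝ} {i : ℤ} (h1 : p ≤ i) (h2 : i < q)
    (h3 : 0 ≤ c * jp Z x p * (a + b * sl Z x y i)) : 0 ≤ c * df (lin a b x y) i := by
  refine nonneg_of_mul_nonneg_left (b := jp Z x p * jp Z x i) ?_ (h.hx i h1 h2)
  rw [h.hd a b i h1 h2]
  exact (mul_nonneg h3 (mul_self_nonneg (jp Z x i))).trans_eq (by ring)

theorem cvx (h : Blk (df H) x y p q) (h' : Blk (df H) x y p' q') {a b : ℝ} {J : Set ℝ}
    (h1 : ∀ i, p ≤ i → i < q → H (i + 1) ∈ J →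
      0 ≤ df H p * jp (df H) x p * (a + b * sl (df H) x y i))
    (h2 : ∀ i, p' ≤ i → i < q' → H (i + 1) ∈ J →
      df H p' * jp (df H) x p' * (a + b * sl (df H) x y i) ≤ 0) :
    CvxJ H (lin a b x y) p q p' q' J :=
  ⟨fun i u v w => h.sgn u v (h1 i u v w), fun i u v w => by
    have := h'.sgn (a := a) (b := b) (c := -df H p') u v (by linarith [h2 i u v w])
    linarith⟩

theorem cvx' (h : Blk (df H) x y p q) (h' : Blk (df H) x y p' q') {J : Set ℝ}
    (h0 : 0 < df H p * jp (df H) x p * (df H p' * jp (df H) x p'))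
    (h1 : (∀ i ∈ Ico p q, ∀ j ∈ Ico p' q', H (i + 1) ∈ J → H (j + 1) ∈ J →
      sl (df H) x y i ≤ sl (df H) x y j) ∨ ∀ i ∈ Ico p q, ∀ j ∈ Ico p' q', H (i + 1) ∈ J →
        H (j + 1) ∈ J → sl (df H) x y j ≤ sl (df H) x y i) : ∃ a b : ℝ, (a ≠ 0 ∨ b ≠ 0) ∧
      (CvxJ H (lin a b x y) p q p' q' J ∨ SepJ H (lin a b x y) p q p' q' J) := by
  have f : ∀ a b : ℤ, (sl (df H) x y '' {i ∈ Ico a b | H (i + 1) ∈ J}).Finite := fun a b =>
    ((finite_Ico a b).subset (sep_subset _ _)).image _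
  generalize hα : df H p * jp (df H) x p = α at h0
  have hα0 : α ≠ 0 := left_ne_zero_of_mul h0.ne'
  rcases h1 with h1 | h1
  · obtain ⟨s, h2, h3⟩ := btw (f p q) (f p' q') (by
      rintro _ ⟨i, hi, rfl⟩ _ ⟨j, hj, rfl⟩
      exact h1 i hi.1 j hj.1 hi.2 hj.2)
    refine ⟨α * s, -α, Or.inr (neg_ne_zero.2 hα0), Or.inl (cvx h h' (fun i a b c => ?_)
      fun i a b c => ?_)⟩
    · rw [hα]
      nlinarith [h2 _ ⟨i, ⟨⟨a, b⟩, c⟩, rfl⟩, mul_self_nonneg α]
    · nlinarith [h3 _ ⟨i, ⟨⟨a, b⟩, c⟩, rfl⟩]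
  · obtain ⟨s, h2, h3⟩ := btw (f p' q') (f p q) (by
      rintro _ ⟨j, hj, rfl⟩ _ ⟨i, hi, rfl⟩
      exact h1 i hi.1 j hj.1 hi.2 hj.2)
    refine ⟨-(α * s), α, Or.inr hα0, Or.inl (cvx h h' (fun i a b c => ?_) fun i a b c => ?_)⟩
    · rw [hα]
      nlinarith [h3 _ ⟨i, ⟨⟨a, b⟩, c⟩, rfl⟩, mul_self_nonneg α]
    · nlinarith [h2 _ ⟨i, ⟨⟨a, b⟩, c⟩, rfl⟩]

theorem Blk.prod (h : Blk (df H) x y p q) {i j : ℤ} (hi : i ∈ Ico p q) (hj : j ∈ Ico p q)
    (hs : sl (df H) x y i ≠ sl (df H) x y j) : 0 < df H p * trn (df H) x y p *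
      ((H (j + 1) - H (i + 1)) * (sl (df H) x y j - sl (df H) x y i)) := by
  wlog hij : i < j generalizing i j
  · exact (this hj hi hs.symm ((not_lt.1 hij).lt_of_ne fun e => hs (e ▸ rfl))).trans_eq (by ring)
  have h1 := chain h.hZ (i := i + 1) (j := j + 1) (by linarith [hi.1]) (by omega)
    (by linarith [hj.2])
  exact (mul_pos (sub_pos.2 h1) (sub_pos.2 (chain h.hs hi.1 hij hj.2.le))).trans_eq (by ring)

theorem opp (h : Blk (df H) x y p q) (h' : Blk (df H) x y p' q')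
    (h0 : 0 < df H p * jp (df H) x p * (df H p' * jp (df H) x p'))
    (h1 : 0 < df H p * trn (df H) x y p) (h2 : df H p' * trn (df H) x y p' < 0) :
    PairJ H x y p q p' q' := by
  refine (mono_sep (h := fun i => H (i + 1)) (s := sl (df H) x y) (finite_Ico p q)
    (finite_Ico p' q') (fun i hi j hj e => not_lt.1 fun e' => ?_)
    fun i hi j hj e => not_lt.1 fun e' => ?_).imp fun l hl J hJ hlJ => cvx' h h' h0 (hl J hJ hlJ)
  · exact (h.prod hi hj e'.ne').not_ge (mul_nonpos_of_nonneg_of_nonpos h1.le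
      (mul_nonpos_of_nonneg_of_nonpos (sub_nonneg.2 e) (sub_nonpos.2 e'.le)))
  · exact (h'.prod hi hj e'.ne).not_ge (mul_nonpos_of_nonpos_of_nonneg h2.le
      (mul_nonneg (sub_nonneg.2 e) (sub_nonneg.2 e'.le)))

theorem hull (hc : ∀ i, p ≤ i → i < q → ¬ cut Z x y i) {k : ℤ} (hk : brk Z x y k) :
    (∀ i ∈ Ico p q, sl Z x y k < sl Z x y i) ∨ ∀ i ∈ Ico p q, sl Z x y i < sl Z x y k := by
  have h1 : ∀ i, p - 1 ≤ i → i < q → p ≤ i → sl Z x y k ∉ uIcc (sl Z x y (p - 1)) (sl Z x y i) := by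
    intro i hi
    induction i, hi using Int.leInduction with
    | base => omega
    | succ i hi ih =>
      intro a b e
      have h2 : sl Z x y k ∉ uIcc (sl Z x y i) (sl Z x y (i + 1)) := fun e' =>
        hc (i + 1) b a (Or.inr ⟨k, hk, by rwa [add_sub_cancel_right]⟩)
      rcases hi.eq_or_lt with rfl | hi
      · exact h2 e
      · exact (uIcc_subset_uIcc_union_uIcc e).elim (ih (by omega) (by omega)) h2
  rcases le_total (sl Z x y k) (sl Z x y (p - 1)) with h2 | h2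
  · exact Or.inl fun i hi => not_le.1 fun e =>
      h1 i (by linarith [hi.1]) hi.2 hi.1 (mem_uIcc_of_ge e h2)
  · exact Or.inr fun i hi => not_le.1 fun e =>
      h1 i (by linarith [hi.1]) hi.2 hi.1 (mem_uIcc_of_le h2 e)

theorem sand (h' : Blk (df H) x y p' q') (hpq : p' ≤ q') {η s1 s2 : ℝ} (hη : η ≠ 0)
    (hx : jp (df H) x p' ≠ 0) (hs : ∀ j, p' ≤ j → j < q' → sl (df H) x y j ∈ Ioo s1 s2)
    (h : Sand x y η s1 s2 p q p' q') : PairJ H x y p q p' q' := by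
  have key : ∀ s t : ℝ, (∀ j, p' ≤ j → j < q' → η * jp (df H) x p' * (sl (df H) x y j - t) < 0) →
      Sand x y η s t p q p' q' → PairJ H x y p q p' q' := fun s t h1 h2 => by
    refine (thr hpq h'.hZ h2 fun j j' a b c e i d d' => le_trans ?_ (e i d d')).imp
      fun l hl J hJ hlJ => ?_
    · have := chain (f := val x y η t) (c := -1) (fun j a b => ?_) a b c
      · linarith
      refine pos_of_mul_pos_left (b := jp (df H) x p' * jp (df H) x j) ?_ (h'.hx j a b).le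
      rw [val, h'.hd _ _ j a b]
      exact (mul_pos (neg_pos.2 (h1 j a b)) (mul_self_pos.2 (right_ne_zero_of_mul
        (h'.hx j a b).ne'))).trans_eq (by ring)
    · rcases hl J hJ hlJ with e | e
      · exact ⟨_, η, Or.inr hη, Or.inr fun i j a b c d _ f => e j c d f i a b⟩
      · exact ⟨_, η, Or.inr hη, Or.inr fun i j a b c d _ f => e j c d f i a b⟩
  rcases (mul_ne_zero hη hx).lt_or_gt with h1 | h1
  · exact key s2 s1 (fun j a b => mul_neg_of_neg_of_pos h1 (sub_pos.2 (hs j a b).1))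
      fun j a b => (h j a b).symm
  · exact key s1 s2 (fun j a b => mul_neg_of_pos_of_neg h1 (sub_neg.2 (hs j a b).2)) h

end PAIRx

open PAIRx in
theorem s_PAIR (hS : S_SAND) : S_PAIR := by
  intro m n H x y h p q p' q' hpq hpq' hc hc' hD
  have nb := fun i a b e => hc i a b (Or.inl e)
  have nb' := fun i a b e => hc' i a b (Or.inl e)
  have B := blk h nb
  have B' := blk h nb'
  have hα := mul_ne_zero (h.Zne p) (h.jx_ne p)
  have hα' := mul_ne_zero (h.Zne p') (h.jx_ne p')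
  rcases hpq'.eq_or_lt with rfl | hlt'
  · exact ⟨0, fun J _ _ => ⟨_, 0, Or.inl hα, Or.inl (cvx B B' (fun i _ _ _ => by
      simpa using mul_self_nonneg _) fun i a b => by omega)⟩⟩
  rcases hpq.eq_or_lt with rfl | hlt
  · exact swp ⟨0, fun J _ _ => ⟨_, 0, Or.inl hα', Or.inl (cvx B' B (fun i _ _ _ => by
      simpa using mul_self_nonneg _) fun i a b => by omega)⟩⟩
  rcases (mul_ne_zero hα hα').lt_or_gt with h0 | h0
  · exact ⟨0, fun J _ _ => ⟨_, 0, Or.inl hα, Or.inl (cvx B B' (fun i _ _ _ => by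
      simpa using mul_self_nonneg _) fun i _ _ _ => by linarith)⟩⟩
  have hβ := mul_ne_zero (h.Zne p) (h.trn_ne p)
  have hβ' := mul_ne_zero (h.Zne p') (h.trn_ne p')
  rcases (mul_ne_zero hβ hβ').lt_or_gt with h1 | h1
  · rcases mul_neg_iff.1 h1 with h2 | h2
    · exact opp B B' h0 h2.1 h2.2
    · exact swp (opp B' B (by rwa [mul_comm]) h2.2 h2.1)
  by_cases h2 : (∀ i ∈ Ico p q, ∀ j ∈ Ico p' q', sl (df H) x y i ≤ sl (df H) x y j) ∨
      ∀ i ∈ Ico p q, ∀ j ∈ Ico p' q', sl (df H) x y j ≤ sl (df H) x y i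
  · exact ⟨0, fun J _ _ => cvx' B B' h0 (h2.imp (fun e i a j b _ _ => e i a j b)
      fun e i a j b _ _ => e i a j b)⟩
  simp only [not_or, not_forall, not_le] at h2
  obtain ⟨⟨i1, a1, j1, b1, e1⟩, i2, a2, j2, b2, e2⟩ := h2
  have fS : (sl (df H) x y '' (Ico p q ∪ Ico p' q')).Finite :=
    h.finite_sl.subset (image_subset_range _ _)
  obtain ⟨s1, k1, k2⟩ := Set.Finite.exists_between' (s := {t ∈ range (sl (df H) x y) |
    ∀ u ∈ sl (df H) x y '' (Ico p q ∪ Ico p' q'), t < u})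
    (h.finite_sl.subset (sep_subset _ _)) fS fun t ht => ht.2
  obtain ⟨s2, k3, k4⟩ := Set.Finite.exists_between' (t := {t ∈ range (sl (df H) x y) |
    ∀ u ∈ sl (df H) x y '' (Ico p q ∪ Ico p' q'), u < t})
    fS (h.finite_sl.subset (sep_subset _ _)) fun u hu t ht => ht.2 u hu
  have hF : Free (df H) x y s1 s2 := fun k hk ⟨c1, c2⟩ => by
    rcases hull hc hk with d | d <;> rcases hull hc' hk with d' | d'
    · exact (k1 _ ⟨mem_range_self k, forall_mem_image.2 fun i hi =>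
        hi.elim (d i) (d' i)⟩).not_ge c1
    · linarith [d i2 a2, d' j2 b2]
    · linarith [d i1 a1, d' j1 b1]
    · exact (k4 _ ⟨mem_range_self k, forall_mem_image.2 fun i hi =>
        hi.elim (d i) (d' i)⟩).not_ge c2
  have hI : ∀ i ∈ Ico p q ∪ Ico p' q', sl (df H) x y i ∈ Ioo s1 s2 := fun i hi =>
    ⟨k2 _ (mem_image_of_mem _ hi), k3 _ (mem_image_of_mem _ hi)⟩
  have h3 : 0 < jp (df H) x p * trn (df H) x y p * (jp (df H) x p' * trn (df H) x y p') :=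
    pos_of_mul_pos_left (b := df H p * df H p' * (df H p * df H p'))
      ((mul_pos h0 h1).trans_eq (by ring)) (mul_self_nonneg _)
  obtain ⟨η, hη, h4, h5⟩ : ∃ η : ℝ, (η = 1 ∨ η = -1) ∧ 0 < η * jp (df H) x p * trn (df H) x y p ∧
      0 < η * jp (df H) x p' * trn (df H) x y p' := by
    rcases mul_pos_iff.1 h3 with e | e
    · exact ⟨1, Or.inl rfl, by linarith [e.1], by linarith [e.2]⟩
    · exact ⟨-1, Or.inr rfl, by linarith [e.1], by linarith [e.2]⟩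
  have hη0 : η ≠ 0 := by rcases hη with rfl | rfl <;> norm_num
  rcases hS m n _ x y h η s1 s2 p q p' q' hη hlt hlt'
    (fun i a b => ⟨nb i a b, hI i (Or.inl ⟨a, b⟩)⟩) (fun i a b => ⟨nb' i a b, hI i (Or.inr ⟨a, b⟩)⟩)
    hD hF h4 h5 with e | e
  · exact sand B' hpq' hη0 (h.jx_ne _) (fun i a b => hI i (Or.inr ⟨a, b⟩)) e
  · exact swp (sand B hpq hη0 (h.jx_ne _) (fun i a b => hI i (Or.inl ⟨a, b⟩)) e)

end Pool.Agent.P.MP_28369d_gt.SB
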