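import Pool.Agent.P.MP_28369d_gt.SB.Tools

/-!
Small perturbations of polygons and inscribed polygons.
-/

namespace Pool.Agent.P.MP_28369d_gt.SB

open Set Filter Topology
open scoped RealInnerProductSpace

namespace PERTx

theorem edge {g : ℝ → E} {L : ℝ} (hL : 0 ≤ L)
    (h : ∀ (i : ℤ) (s t : ℝ), s ∈ Icc (i : ℝ) (i + 1) → t ∈ Icc (i : ℝ) (i + 1) →
      ‖g s - g t‖ ≤ L * |s - t|) : LipschitzWith ⟨L, hL⟩ g := by
  have key : ∀ (s : ℝ) (m : ℕ) (t : ℝ), s ≤ t → t ≤ (⌊s⌋ : ℝ) + 1 + m →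
      ‖g t - g s‖ ≤ L * (t - s) := by
    intro s m
    have h1 : (⌊s⌋ : ℝ) ≤ s := Int.floor_le s
    have h2 : s < ⌊s⌋ + 1 := Int.lt_floor_add_one s
    induction m with
    | zero =>
      intro t hst ht
      have := h ⌊s⌋ t s ⟨by linarith, by simpa using ht⟩ ⟨h1, h2.le⟩
      rwa [abs_of_nonneg (by linarith)] at this
    | succ m ih =>
      intro t hst ht
      rcases le_total t ((⌊s⌋ : ℝ) + 1 + m) with hc | hc
      · exact ih t hst hc
      have hm0 : (0 : ℝ) ≤ m := Nat.cast_nonneg m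
      have a1 := ih _ (by linarith) le_rfl
      have a2 := h (⌊s⌋ + 1 + m) t ((⌊s⌋ : ℝ) + 1 + m) (by push_cast at ht ⊢; constructor <;> linarith)
        (by push_cast; constructor <;> linarith)
      rw [abs_of_nonneg (by linarith)] at a2
      have := norm_sub_le_norm_sub_add_norm_sub (g t) (g ((⌊s⌋ : ℝ) + 1 + m)) (g s)
      linarith
  have key' : ∀ s t : ℝ, s ≤ t → ‖g t - g s‖ ≤ L * (t - s) := fun s t hst => by
    obtain ⟨m, hm⟩ := exists_nat_ge (t - ((⌊s⌋ : ℝ) + 1))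
    exact key s m t hst (by linarith)
  refine LipschitzWith.of_dist_le_mul fun s t => ?_
  rw [dist_eq_norm, Real.dist_eq]
  rcases le_total s t with hst | hst
  · rw [norm_sub_rev, abs_sub_comm, abs_of_nonneg (by linarith)]
    exact key' s t hst
  · rw [abs_of_nonneg (by linarith)]
    exact key' t s hst

theorem mk {γ : ℝ → E} {n : ℕ} (hn : 0 < n) {w : ℤ → E} (hw : ∀ i, w (i + n) = w i) {c : ℝ}
    (hc : 0 < c) (h : Iso (range γ) (range fun t => γ t + (pl w t - γ t)) ∧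
      LowB (fun t => γ t + (pl w t - γ t)) n (c / 2)) :
    ∃ Q : Poly, Q.n = n ∧ Q.v = w ∧ Iso (range γ) Q.carrier := by
  simp only [add_sub_cancel] at h
  refine ⟨mkPoly n hn w hw (h.2.injMod (by exact_mod_cast hn) (half_pos hc) (pl_periodic hw)),
    rfl, rfl, ?_⟩
  rw [← Poly.range_γ]
  exact h.1

theorem unif {F' : ℝ → E} {T : ℝ} (hT : 0 < T) (hp : Function.Periodic F' T) (hc : Continuous F')
    {ε : ℝ} (hε : 0 < ε) : ∃ N : ℕ, 0 < N ∧ ∀ s t, s ≤ t → t ≤ s + T / N → ‖F' t - F' s‖ ≤ ε := by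
  obtain ⟨δ, hδ, h⟩ := Metric.uniformContinuousOn_iff_le.1
    ((isCompact_Icc (a := 0) (b := 2 * T)).uniformContinuousOn_of_continuous hc.continuousOn) ε hε
  obtain ⟨N, hN⟩ := exists_nat_ge (T / δ)
  have hN0 : (0 : ℝ) ≤ N := Nat.cast_nonneg N
  refine ⟨N + 1, N.succ_pos, fun s t h1 h2 => ?_⟩
  obtain ⟨k, a1, a2⟩ := exists_shift hT 0 s
  push_cast at h2
  have b1 : T / (N + 1) ≤ T := div_le_self hT.le (by linarith)
  have b2 : T / (N + 1) ≤ δ := by
    rw [div_le_iff₀ hδ] at hN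
    rw [div_le_iff₀ (by linarith)]
    nlinarith
  have := h (t + k * T) ⟨by linarith, by linarith⟩ (s + k * T) ⟨a1, by linarith⟩
    (by rw [Real.dist_eq, abs_le]; constructor <;> linarith)
  rwa [hp.int_mul k, hp.int_mul k, dist_eq_norm] at this

end PERTx

open PERTx

theorem s_PERT (hL : S_LOC) (hE : S_PLEMB) : S_PERT := by
  intro P
  obtain ⟨κ, hκ, hL⟩ := hL
  obtain ⟨c, hc, hB⟩ := hE P.γ P.n P.n_pos P.γ_periodic P.locAff_γ P.injMod
  refine ⟨κ * c / 2, by positivity, fun w hw hd => ?_⟩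
  rw [← P.range_γ]
  refine mk P.pos hw hc (hL P.γ _ P.n c ⟨κ * c, by positivity⟩ P.n_pos hc P.γ_periodic
    ((pl_periodic hw).sub P.γ_periodic) hB (edge _ fun i s t hs ht => ?_) le_rfl)
  change ‖pl w s - pl P.v s - (pl w t - pl P.v t)‖ ≤ _
  rw [← pl_sub, ← pl_sub, pl_sub_of_edge _ i hs.1 hs.2 ht.1 ht.2, norm_smul, Real.norm_eq_abs,
    mul_comm]
  refine mul_le_mul_of_nonneg_right ((norm_sub_le _ _).trans ?_) (abs_nonneg _)
  linarith [hd i, hd (i + 1)]

theorem s_INSC (hL : S_LOC) (hE : S_SMEMB) : S_INSC := by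
  intro F F' T hT hp hF hc h0 hi
  obtain ⟨κ, hκ, hL⟩ := hL
  obtain ⟨c, hc0, hB⟩ := hE F F' T hT hp hF hc h0 hi
  have hp' : Function.Periodic F' T := fun t => by
    have h1 := (hF (t + T)).comp_add_const t T
    rw [show (fun x => F (x + T)) = F from funext hp] at h1
    exact h1.unique (hF t)
  obtain ⟨N, hN, hu⟩ := unif hT hp' hc (ε := κ * c / 2) (by positivity)
  have hN' : (0 : ℝ) < N := by exact_mod_cast hN
  obtain ⟨a, ha⟩ : ∃ a, a = T / N := ⟨_, rfl⟩
  have ha0 : 0 < a := by rw [ha]; positivity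
  have haN : a * N = T := by rw [ha]; field_simp
  rw [← ha] at hu
  have hγ : Function.Periodic (fun τ => F (a * τ)) N := fun τ => by
    simp only [mul_add, haN, hp _]
  have hw : ∀ i : ℤ, F (a * ((i + N : ℤ) : ℝ)) = F (a * i) := fun i => by
    push_cast
    exact hγ i
  have hr : range (fun τ => F (a * τ)) = range F :=
    (mul_left_surjective₀ ha0.ne').range_comp F
  refine (mk (γ := fun τ => F (a * τ)) (w := fun i => F (a * i)) hN hw
    (mul_pos hc0 ha0) (hL _ _ N (c * a) ⟨κ * (c * a), by positivity⟩ hN' (mul_pos hc0 ha0) hγ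
      ((pl_periodic hw).sub hγ) (fun s t hst => ?_) (edge _ fun i s t hs ht => ?_) le_rfl)).imp
    fun Q ⟨h1, h2, h3⟩ => ⟨fun i => by simp only [h1, h2, ha, div_mul_eq_mul_div], hr ▸ h3⟩
  · have e : |a * s - a * t| = a * |s - t| := by rw [← mul_sub, abs_mul, abs_of_pos ha0]
    have := hB (a * s) (a * t) (by rw [e]; nlinarith)
    rwa [e, ← mul_assoc] at this
  · have hd : ∀ τ ∈ Icc (i : ℝ) (i + 1), HasDerivWithinAt (fun τ => F (a * τ) - τ • a • F' (a * i))
        (a • F' (a * τ) - a • F' (a * i)) (Icc (i : ℝ) (i + 1)) τ := fun τ _ => by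
      have e1 := (hF (a * τ)).scomp τ ((hasDerivAt_id τ).const_mul a)
      have e2 := (hasDerivAt_id τ).smul_const (a • F' (a * i))
      rw [mul_one] at e1
      rw [one_smul] at e2
      exact (e1.sub e2).hasDerivWithinAt
    have hb : ∀ τ ∈ Icc (i : ℝ) (i + 1),
        ‖a • F' (a * τ) - a • F' (a * i)‖ ≤ a * (κ * c / 2) := fun τ hτ => by
      rw [← smul_sub, norm_smul, Real.norm_of_nonneg ha0.le]
      exact mul_le_mul_of_nonneg_left (hu _ _ (by nlinarith [hτ.1]) (by nlinarith [hτ.2])) ha0.le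
    have m1 := (convex_Icc _ _).norm_image_sub_le_of_norm_hasDerivWithin_le hd hb ht hs
    have m2 := (convex_Icc _ _).norm_image_sub_le_of_norm_hasDerivWithin_le hd hb
      (left_mem_Icc.2 (by linarith)) (right_mem_Icc.2 (by linarith))
    rw [add_sub_cancel_left, norm_one, mul_one] at m2
    have e := pl_sub_of_edge (fun i : ℤ => F (a * i)) i hs.1 hs.2 ht.1 ht.2
    push_cast at e
    have e' : pl (fun i : ℤ => F (a * i)) s - F (a * s) - (pl (fun i : ℤ => F (a * i)) t - F (a * t)) =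
        (s - t) • (F (a * (i + 1)) - ((i : ℝ) + 1) • a • F' (a * i) -
          (F (a * i) - (i : ℝ) • a • F' (a * i))) -
        (F (a * s) - s • a • F' (a * i) - (F (a * t) - t • a • F' (a * i))) := by
      rw [sub_sub_sub_comm, e]
      module
    change ‖pl (fun i : ℤ => F (a * i)) s - F (a * s) - (pl (fun i : ℤ => F (a * i)) t - F (a * t))‖ ≤ _
    rw [e']
    refine (norm_sub_le _ _).trans ?_
    rw [norm_smul]
    rw [Real.norm_eq_abs] at m1 ⊢
    nlinarith [mul_le_mul_of_nonneg_left m2 (abs_nonneg (s - t))]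

end Pool.Agent.P.MP_28369d_gt.SB
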