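import Pool.Agent.P.MP_28369d_gt.SB.Tools

/-!
Two monotone arcs are separated by a direction between five levels.
-/

namespace Pool.Agent.P.MP_28369d_gt.SB

open Set Filter Topology
open scoped RealInnerProductSpace

namespace PLx

/-- The heights of the open arc. -/
def A (H : ℤ → ℝ) (p q : ℤ) : Set ℝ := pl H '' Ioo (p : ℝ) (q + 1)

/-- A coordinate of the arc as a function of the height. -/
noncomputable def F (H : ℤ → ℝ) (p q : ℤ) (φ : ℤ → ℝ) (h : ℝ) : ℝ :=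
  pl φ (Function.invFunOn (pl H) (Ioo (p : ℝ) (q + 1)) h)

/-- Monotone arcs. -/
def Arc (H : ℤ → ℝ) (p q : ℤ) : Prop := ∀ i, p ≤ i → i ≤ q → 0 < df H p * df H i

variable {H φ v : ℤ → ℝ} {p q : ℤ}

theorem idx {τ υ : ℝ} {i : ℤ} (h1 : (p : ℝ) ≤ υ) (h2 : τ ≤ q + 1) (h3 : (i : ℝ) < τ)
    (h4 : υ < i + 1) : p ≤ i ∧ i ≤ q := by
  have a : (p : ℝ) < i + 1 := by linarith
  have b : (i : ℝ) < q + 1 := by linarith
  have a' : p < i + 1 := by exact_mod_cast a
  have b' : i < q + 1 := by exact_mod_cast b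
  omega

theorem Arc.sm (h : Arc H p q) {υ τ : ℝ} (h1 : (p : ℝ) ≤ υ) (h2 : τ ≤ q + 1) (h3 : υ < τ) :
    0 < df H p * (pl H τ - pl H υ) := by
  have := pl_lt (fun i => df H p * H i) h3 fun i a b => by
    obtain ⟨c, d⟩ := idx h1 h2 a b
    have := h i c d
    simp only [df] at this ⊢
    linarith
  simp only [pl, smul_eq_mul] at this ⊢
  linarith

theorem Arc.smi (h : Arc H p q) {i j : ℤ} (h1 : p ≤ i) (h2 : j ≤ q + 1) (h3 : i ≤ j) :
    0 ≤ df H p * (H j - H i) := by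
  rcases h3.eq_or_lt with rfl | h3
  · simp
  · have := h.sm (υ := i) (τ := j) (by exact_mod_cast h1) (by exact_mod_cast h2)
      (by exact_mod_cast h3)
    simpa using this.le

theorem Arc.F_eq (h : Arc H p q) (φ : ℤ → ℝ) {τ : ℝ} (hτ : τ ∈ Ioo (p : ℝ) (q + 1)) :
    F H p q φ (pl H τ) = pl φ τ := by
  have : InjOn (pl H) (Ioo (p : ℝ) (q + 1)) := fun a ha b hb e => by
    rcases lt_trichotomy a b with c | c | c
    · simpa [e] using h.sm ha.1.le hb.2.le c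
    · exact c
    · simpa [e] using h.sm hb.1.le ha.2.le c
  rw [F, this.leftInvOn_invFunOn hτ]

theorem btw {σ a b c : ℝ} (h1 : 0 < σ * (b - a)) (h2 : 0 < σ * (c - b)) :
    min a c < b ∧ b < max a c := by
  rcases lt_trichotomy σ 0 with s | s | s
  · exact ⟨min_lt_of_right_lt (by nlinarith), lt_max_of_lt_left (by nlinarith)⟩
  · simp [s] at h1
  · exact ⟨min_lt_of_left_lt (by nlinarith), lt_max_of_lt_right (by nlinarith)⟩

theorem btw' {σ a b c : ℝ} (h0 : 0 < σ * (c - a)) (h1 : min a c < b) (h2 : b < max a c) :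
    0 < σ * (b - a) ∧ 0 < σ * (c - b) := by
  rcases lt_trichotomy σ 0 with s | s | s
  · have : c ≤ a := by nlinarith
    rw [min_eq_right this] at h1
    rw [max_eq_left this] at h2
    constructor <;> nlinarith
  · simp [s] at h0
  · have : a ≤ c := by nlinarith
    rw [min_eq_left this] at h1
    rw [max_eq_right this] at h2
    constructor <;> nlinarith

theorem Arc.avg0 (h : Arc H p q) (hv : ∀ i, df φ i = v i * df H i) {υ τ c : ℝ}
    (h1 : (p : ℝ) ≤ υ) (h2 : τ ≤ q + 1) (h3 : υ < τ)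
    (hc : ∀ i, p ≤ i → i ≤ q →
      Meets H i (Ioo (min (pl H υ) (pl H τ)) (max (pl H υ) (pl H τ))) → c < v i) :
    0 < df H p * (pl φ τ - pl φ υ - c * (pl H τ - pl H υ)) := by
  have := pl_lt (fun i => df H p * (φ i - c * H i)) h3 fun i a b => by
    obtain ⟨d, e⟩ := idx h1 h2 a b
    have d' : (p : ℝ) ≤ i := by exact_mod_cast d
    have e' : (i : ℝ) ≤ q := by exact_mod_cast e
    obtain ⟨t, t1, t2⟩ := exists_between (show max υ i < min τ (i + 1) by
      simp only [max_lt_iff, lt_min_iff]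
      exact ⟨⟨h3, a⟩, b, by linarith⟩)
    rw [max_lt_iff] at t1
    rw [lt_min_iff] at t2
    have k1 := h.sm d' (by linarith [t2.2]) t1.2
    have k2 := h.sm (υ := t) (τ := (i + 1 : ℤ)) (by linarith [t1.2]) (by push_cast; linarith)
      (by push_cast; exact t2.2)
    rw [pl_int] at k1 k2
    have k3 := hc i d e ⟨pl H t, btw (h.sm h1 (by linarith [t2.1]) t1.1)
      (h.sm (by linarith [t1.1]) h2 t2.1), btw k1 k2⟩
    have k4 := mul_pos (h i d e) (sub_pos.2 k3)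
    have k5 := hv i
    simp only [df] at k4 k5 ⊢
    have k6 : φ (i + 1) = φ i + v i * (H (i + 1) - H i) := by linarith
    rw [k6]
    linarith
  simp only [pl, smul_eq_mul] at this ⊢
  linarith

theorem Arc.avg (h : Arc H p q) (hv : ∀ i, df φ i = v i * df H i) {a b : ℝ} (ha : a ∈ A H p q)
    (hb : b ∈ A H p q) (hab : a < b) : ∃ i, p ≤ i ∧ i ≤ q ∧ Meets H i (Ioo a b) ∧
      v i ≤ (F H p q φ b - F H p q φ a) / (b - a) := by
  obtain ⟨υ, hυ, rfl⟩ := ha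
  obtain ⟨τ, hτ, rfl⟩ := hb
  rw [h.F_eq φ hυ, h.F_eq φ hτ]
  by_contra hc
  push Not at hc
  have e : pl φ τ - pl φ υ - (pl φ τ - pl φ υ) / (pl H τ - pl H υ) * (pl H τ - pl H υ) = 0 := by
    rw [div_mul_cancel₀ _ (sub_pos.2 hab).ne', sub_self]
  rcases lt_trichotomy υ τ with c | c | c
  · have := h.avg0 hv hυ.1.le hτ.2.le c (by rwa [min_eq_left hab.le, max_eq_right hab.le])
    rw [e] at this
    simp at this
  · simp [c] at hab
  · have := h.avg0 hv hτ.1.le hυ.2.le c (by rwa [min_eq_right hab.le, max_eq_left hab.le])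
    have e' : pl φ υ - pl φ τ - (pl φ τ - pl φ υ) / (pl H τ - pl H υ) * (pl H υ - pl H τ) = 0 := by
      linarith
    rw [e'] at this
    simp at this

theorem F_neg (φ : ℤ → ℝ) (a : ℝ) : F H p q (fun i => -φ i) a = -F H p q φ a := by
  simp only [F, pl, smul_eq_mul]
  ring

theorem F_lin (X Y : ℤ → ℝ) (a b h : ℝ) :
    F H p q (lin a b X Y) h = a * F H p q X h + b * F H p q Y h := by
  simp only [F, pl, lin, smul_eq_mul]
  ring

theorem hv_neg (hv : ∀ i, df φ i = v i * df H i) (i : ℤ) :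
    df (fun i => -φ i) i = (fun i => -v i) i * df H i := by
  have := hv i
  simp only [df] at this ⊢
  linarith

theorem Arc.avg' (h : Arc H p q) (hv : ∀ i, df φ i = v i * df H i) {a b : ℝ} (ha : a ∈ A H p q)
    (hb : b ∈ A H p q) (hab : a < b) : ∃ i, p ≤ i ∧ i ≤ q ∧ Meets H i (Ioo a b) ∧
      (F H p q φ b - F H p q φ a) / (b - a) ≤ v i := by
  obtain ⟨i, h1, h2, h3, h4⟩ := h.avg (hv_neg hv) ha hb hab
  refine ⟨i, h1, h2, h3, ?_⟩
  rw [F_neg, F_neg, neg_sub_neg, ← neg_sub, neg_div] at h4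
  exact neg_le_neg_iff.1 h4

theorem Arc.cont (h : Arc H p q) (hv : ∀ i, df φ i = v i * df H i) :
    ContinuousOn (F H p q φ) (A H p q) := by
  obtain ⟨K, hK⟩ := ((Set.finite_Icc p q).image fun i => |v i|).bddAbove
  have key : ∀ a ∈ A H p q, ∀ b ∈ A H p q, a < b → |F H p q φ b - F H p q φ a| ≤ K * |b - a| := by
    intro a ha b hb hab
    obtain ⟨i, h1, h2, -, h3⟩ := h.avg hv ha hb hab
    obtain ⟨j, h4, h5, -, h6⟩ := h.avg' hv ha hb hab
    have h7 := abs_le.1 (hK ⟨i, ⟨h1, h2⟩, rfl⟩)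
    have h8 := abs_le.1 (hK ⟨j, ⟨h4, h5⟩, rfl⟩)
    rw [← div_le_iff₀ (abs_pos.2 (sub_pos.2 hab).ne'), ← abs_div, abs_le]
    exact ⟨h7.1.trans h3, h6.trans h8.2⟩
  refine (LipschitzOnWith.of_dist_le' (K := K) fun a ha b hb => ?_).continuousOn
  rcases lt_trichotomy a b with c | c | c
  · rw [dist_comm, dist_comm a]
    exact key a ha b hb c
  · simp [c]
  · exact key b hb a ha c

theorem ordA : (A H p q).OrdConnected :=
  (isPreconnected_Ioo.image _ (continuous_pl H).continuousOn).ordConnected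

theorem bddA : Bornology.IsBounded (A H p q) :=
  (isCompact_Icc.image (continuous_pl H)).isBounded.subset (image_mono Ioo_subset_Icc_self)

theorem Arc.chain (h : Arc H p q) {J : Set ℝ} (hJ : J.OrdConnected)
    (hc : ∀ i, p ≤ i → i < q → H (i + 1) ∈ J → 0 ≤ df H p * df v i) {i j : ℤ} (h1 : p ≤ i)
    (h2 : j ≤ q) (h3 : i < j) {a b : ℝ} (ha : a ∈ J) (hb : b ∈ J)
    (ha' : min (H i) (H (i + 1)) < a ∧ a < max (H i) (H (i + 1)))
    (hb' : min (H j) (H (j + 1)) < b ∧ b < max (H j) (H (j + 1))) :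
    0 < df H p * (b - a) ∧ 0 ≤ df H p * (v j - v i) := by
  have k1 := (btw' (h i h1 (by omega)) ha'.1 ha'.2).2
  have k2 := (btw' (h j (by omega) h2) hb'.1 hb'.2).1
  have k3 := h.smi (i := i + 1) (j := j) (by omega) (by omega) h3
  refine ⟨by linarith, ?_⟩
  have key : ∀ k, i ≤ k → k ≤ j → 0 ≤ df H p * (v k - v i) := by
    intro k hk
    induction k, hk using Int.leInduction with
    | base => simp
    | succ k hk ih =>
      intro hk'
      have k4 := h.smi (i := i + 1) (j := k + 1) (by omega) (by omega) (by omega)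
      have k5 := h.smi (i := k + 1) (j := j) (by omega) (by omega) hk'
      have k6 := btw (σ := df H p) (a := a) (b := H (k + 1)) (c := b) (by linarith) (by linarith)
      have k7 := hc k (by omega) (by omega) (hJ.uIcc_subset ha hb ⟨k6.1.le, k6.2.le⟩)
      have k8 := ih (by omega)
      rw [df.eq_1 v] at k7
      linarith
  exact key j h3.le le_rfl

theorem Arc.cvx (h : Arc H p q) (hv : ∀ i, df φ i = v i * df H i) {J : Set ℝ}
    (hJ : J.OrdConnected) (hc : ∀ i, p ≤ i → i < q → H (i + 1) ∈ J → 0 ≤ df H p * df v i) :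
    ConvexOn ℝ (A H p q ∩ J) (F H p q φ) := by
  have hD := (ordA (H := H) (p := p) (q := q)).inter hJ
  refine convexOn_of_slope_mono_adjacent hD.convex fun {x y z} hx hz hxy hyz => ?_
  have hy := hD.out hx hz ⟨hxy.le, hyz.le⟩
  obtain ⟨i, h1, h2, ⟨a, ha, ha'⟩, h3⟩ := h.avg' hv hx.1 hy.1 hxy
  obtain ⟨j, h4, h5, ⟨b, hb, hb'⟩, h6⟩ := h.avg hv hy.1 hz.1 hyz
  refine h3.trans (le_trans ?_ h6)
  have haJ := hJ.out hx.2 hy.2 ⟨ha.1.le, ha.2.le⟩
  have hbJ := hJ.out hy.2 hz.2 ⟨hb.1.le, hb.2.le⟩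
  have hab : 0 < b - a := sub_pos.2 (ha.2.trans hb.1)
  rcases lt_trichotomy i j with c | c | c
  · obtain ⟨k1, k2⟩ := h.chain hJ hc h1 h5 c haJ hbJ ha' hb'
    have := (mul_pos_iff_of_pos_right hab).1 k1
    exact sub_nonneg.1 ((mul_nonneg_iff_of_pos_left this).1 k2)
  · rw [c]
  · obtain ⟨k1, k2⟩ := h.chain hJ hc h4 h2 c hbJ haJ hb' ha'
    have : df H p < 0 := by nlinarith
    nlinarith

theorem levels {N : Set ℝ} (hN : Bornology.IsBounded N) {J : Set ℝ} (hJ : J.OrdConnected)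
    (h1 : sInf N ∉ J) (h2 : sSup N ∉ J) {a h : ℝ} (ha : a ∈ J) (ha' : a ∈ N) (hh : h ∈ J) :
    ∃ b ∈ N, ∃ c ∈ N, b < h ∧ h < c := by
  obtain ⟨b, hb, hb'⟩ := exists_lt_of_csInf_lt ⟨a, ha'⟩ (not_le.1 fun k =>
    h1 (hJ.out hh ha ⟨k, csInf_le hN.bddBelow ha'⟩))
  obtain ⟨c, hc, hc'⟩ := exists_lt_of_lt_csSup ⟨a, ha'⟩ (not_le.1 fun k =>
    h2 (hJ.out ha hh ⟨le_csSup hN.bddAbove ha', k⟩))
  exact ⟨b, hb, c, hc, hb', hc'⟩

theorem lemQ {D : Set ℝ} (hD : Bornology.IsBounded D) {d : ℝ → ℝ}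
    (hd : ConvexOn ℝ D d ∨ MonotoneOn d D) : ∃ l1 l2 : ℝ, ∀ J ⊆ D, J.OrdConnected → l1 ∉ J →
      l2 ∉ J → ∀ a ∈ J, d a = 0 → ∀ h ∈ J, d h = 0 := by
  rcases hd with hd | hd
  · refine ⟨sInf {h ∈ D | d h ≤ 0}, sSup {h ∈ D | d h ≤ 0}, fun J hJD hJ h1 h2 a ha ha' h hh => ?_⟩
    have L := fun h hh => levels (hD.subset (sep_subset _ _)) hJ h1 h2 (h := h) ha
      ⟨hJD ha, ha'.le⟩ hh
    obtain ⟨b, hb, c, hc, k1, k2⟩ := L h hh
    obtain ⟨b', hb', c', hc', k3, k4⟩ := L a ha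
    refine le_antisymm ((hd.le_on_segment hb.1 hc.1 (Icc_subset_segment ⟨k1.le, k2.le⟩)).trans
      (max_le hb.2 hc.2)) ?_
    rw [← ha']
    rcases lt_trichotomy h a with k | k | k
    · exact hd.le_left_of_right_le (hJD hh) hc'.1 (Ioo_subset_openSegment ⟨k, k4⟩)
        (hc'.2.trans_eq ha'.symm)
    · rw [k]
    · exact hd.le_right_of_left_le hb'.1 (hJD hh) (Ioo_subset_openSegment ⟨k3, k⟩)
        (hb'.2.trans_eq ha'.symm)
  · refine ⟨sInf {h ∈ D | d h = 0}, sSup {h ∈ D | d h = 0}, fun J hJD hJ h1 h2 a ha ha' h hh => ?_⟩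
    obtain ⟨b, hb, c, hc, k1, k2⟩ := levels (hD.subset (sep_subset _ _)) hJ h1 h2 ha
      ⟨hJD ha, ha'⟩ hh
    exact le_antisymm ((hd (hJD hh) hc.1 k2.le).trans_eq hc.2)
      (hb.2.symm.trans_le (hd hb.1 (hJD hh) k1.le))

theorem sgn {J : Set ℝ} (hJ : J.OrdConnected) {x y : ℝ → ℝ} (hx : ContinuousOn x J)
    (hy : ContinuousOn y J) (a b : ℝ) (h : ∀ t ∈ J, a * x t + b * y t ≠ 0) :
    ∃ a b : ℝ, ∀ t ∈ J, 0 < a * x t + b * y t := by
  rcases hJ.isPreconnected.mapsTo_Ioi_or_Iio ((hx.const_mul a).add (hy.const_mul b)) h with k | k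
  · exact ⟨a, b, k⟩
  · refine ⟨-a, -b, fun t ht => ?_⟩
    have : a * x t + b * y t < 0 := k ht
    linarith

theorem lemR {D : Set ℝ} (hD : Bornology.IsBounded D) {x y : ℝ → ℝ} (hx : ContinuousOn x D)
    (hy : ContinuousOn y D) (h0 : ∀ t ∈ D, x t = 0 → y t = 0 → False) {a b : ℝ}
    (hab : a ≠ 0 ∨ b ≠ 0) (hd : ConvexOn ℝ D (fun t => a * x t + b * y t) ∨
      MonotoneOn (fun t => a * x t + b * y t) D) : ∃ l1 l2 : ℝ, ∀ J ⊆ D, J.OrdConnected →
      l1 ∉ J → l2 ∉ J → ∃ a b : ℝ, ∀ t ∈ J, 0 < a * x t + b * y t := by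
  obtain ⟨l1, l2, h⟩ := lemQ hD hd
  refine ⟨l1, l2, fun J hJD hJ h1 h2 => ?_⟩
  by_cases hc : ∀ t ∈ J, a * x t + b * y t ≠ 0
  · exact sgn hJ (hx.mono hJD) (hy.mono hJD) a b hc
  · push Not at hc
    obtain ⟨s, hs, hs'⟩ := hc
    refine sgn hJ (hx.mono hJD) (hy.mono hJD) (-b) a fun t ht e => ?_
    have e' : a * x t + b * y t = 0 := h J hJD hJ h1 h2 s hs hs' t ht
    have k : a ^ 2 + b ^ 2 ≠ 0 := by
      rcases hab with k | k <;> positivity
    exact h0 t (hJD ht) (mul_left_cancel₀ k (by linear_combination a * e' - b * e))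
      (mul_left_cancel₀ k (by linear_combination b * e' + a * e))

end PLx

open PLx in
theorem s_PL : S_PL := by
  rintro X Y H p q p' q' - - hH h1 h2 ⟨l, hl⟩ h0
  have a1 : Arc H p q := pos_chain (hH p) h1
  have a2 : Arc H p' q' := pos_chain (hH p') h2
  have hX : ∀ i, df X i = df X i / df H i * df H i := fun i => (div_mul_cancel₀ _ (hH i)).symm
  have hY : ∀ i, df Y i = df Y i / df H i * df H i := fun i => (div_mul_cancel₀ _ (hH i)).symm
  have key : ∀ J0 : Set ℝ, J0.OrdConnected → l ∉ J0 → ∃ l1 l2 : ℝ,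
      ∀ J ⊆ (A H p q ∩ J0) ∩ (A H p' q' ∩ J0), J.OrdConnected → l1 ∉ J → l2 ∉ J → ∃ a b : ℝ,
        ∀ t ∈ J, 0 < a * (F H p q X t - F H p' q' X t) + b * (F H p q Y t - F H p' q' Y t) := by
    intro J0 hJ0 hl0
    obtain ⟨a, b, hab, hc⟩ := hl J0 hJ0 hl0
    have hv : ∀ i, df (lin a b X Y) i =
        lin a b (fun i => df X i / df H i) (fun i => df Y i / df H i) i * df H i := fun i => by
      have e1 := hX i
      have e2 := hY i
      simp only [lin]
      rw [add_mul, mul_assoc, mul_assoc, ← e1, ← e2]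
      simp only [df, lin]
      ring
    have e : (fun t => a * (F H p q X t - F H p' q' X t) + b * (F H p q Y t - F H p' q' Y t)) =
        F H p q (lin a b X Y) + F H p' q' fun i => -lin a b X Y i := by
      funext t
      rw [Pi.add_apply, F_neg, F_lin, F_lin]
      ring
    refine lemR (bddA.subset fun t ht => ht.1.1)
      (((a1.cont hX).mono fun t ht => ht.1.1).sub ((a2.cont hX).mono fun t ht => ht.2.1))
      (((a1.cont hY).mono fun t ht => ht.1.1).sub ((a2.cont hY).mono fun t ht => ht.2.1))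
      ?_ hab ?_
    · rintro t ⟨⟨⟨τ, hτ, rfl⟩, -⟩, ⟨τ', hτ', e'⟩, -⟩ k1 k2
      simp only [sub_eq_zero, a1.F_eq _ hτ] at k1 k2
      rw [← e', a2.F_eq _ hτ'] at k1 k2
      exact h0 τ hτ τ' hτ' e'.symm k1 k2
    · rw [e]
      refine hc.imp (fun hc => ?_) fun hc s hs t ht hst => ?_
      · have hD := ((ordA (H := H) (p := p) (q := q)).inter hJ0).inter
          ((ordA (H := H) (p := p') (q := q')).inter hJ0)
        refine ((a1.cvx hv hJ0 hc.1).subset inter_subset_left hD.convex).add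
          ((a2.cvx (hv_neg hv) hJ0 fun j k1 k2 k3 => ?_).subset inter_subset_right hD.convex)
        have := hc.2 j k1 k2 k3
        simp only [df] at this ⊢
        linarith
      · rcases hst.eq_or_lt with rfl | hst
        · exact le_rfl
        obtain ⟨i, k1, k2, ⟨x, hx, hx'⟩, k3⟩ := a1.avg hv hs.1.1 ht.1.1 hst
        obtain ⟨j, k4, k5, ⟨y, hy, hy'⟩, k6⟩ := a2.avg' hv hs.2.1 ht.2.1 hst
        have k7 := hc i j k1 k2 k4 k5 ⟨x, hJ0.out hs.1.2 ht.1.2 ⟨hx.1.le, hx.2.le⟩, hx'⟩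
          ⟨y, hJ0.out hs.1.2 ht.1.2 ⟨hy.1.le, hy.2.le⟩, hy'⟩
        have k8 := (div_le_div_iff_of_pos_right (sub_pos.2 hst)).1 (k6.trans (k7.trans k3))
        simp only [Pi.add_apply, F_neg]
        linarith
  obtain ⟨l1, l2, k1⟩ := key (Iio l) ordConnected_Iio (lt_irrefl l)
  obtain ⟨l3, l4, k2⟩ := key (Ioi l) ordConnected_Ioi (lt_irrefl l)
  refine ⟨{l, l1, l2, l3, l4}, Finset.card_le_five, fun J hJ hΛ => ?_⟩
  simp only [Finset.mem_insert, Finset.mem_singleton, forall_eq_or_imp, forall_eq] at hΛ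
  have hJ' := hJ.inter ((ordA (H := H) (p := p) (q := q)).inter (ordA (H := H) (p := p') (q := q')))
  obtain ⟨a, b, hab⟩ : ∃ a b : ℝ, ∀ t ∈ J ∩ (A H p q ∩ A H p' q'),
      0 < a * (F H p q X t - F H p' q' X t) + b * (F H p q Y t - F H p' q' Y t) := by
    rcases hJ.isPreconnected.mapsTo_Ioi_or_Iio continuousOn_id (b := l)
      (fun t ht e => hΛ.1 (by rwa [← e])) with k | k
    · exact k2 _ (fun t ht => ⟨⟨ht.2.1, k ht.1⟩, ht.2.2, k ht.1⟩) hJ' (fun c => hΛ.2.2.2.1 c.1)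
        fun c => hΛ.2.2.2.2 c.1
    · exact k1 _ (fun t ht => ⟨⟨ht.2.1, k ht.1⟩, ht.2.2, k ht.1⟩) hJ' (fun c => hΛ.2.1 c.1)
        fun c => hΛ.2.2.1 c.1
  refine ⟨a, b, fun τ hτ τ' hτ' e hτJ => ?_⟩
  have := hab _ ⟨hτJ, ⟨τ, hτ, rfl⟩, τ', hτ', e.symm⟩
  rw [a1.F_eq _ hτ, a1.F_eq _ hτ, e, a2.F_eq _ hτ', a2.F_eq _ hτ'] at this
  linarith

end Pool.Agent.P.MP_28369d_gt.SB
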