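import Pool.Agent.P.MP_28369d_gt.SB.Tools

/-!
The support function along a monotone run; zigzag sequences.
-/

namespace Pool.Agent.P.MP_28369d_gt.SB

open Set Filter Topology
open scoped RealInnerProductSpace

namespace RUNFx

theorem tele (f : ℤ → ℝ) (a b : ℤ) (h : a ≤ b) :
    ∑ k ∈ Finset.Ico a b, (f (k + 1) - f k) = f b - f a := by
  induction b, h using Int.le_induction with
  | base => simp
  | succ b hb ih =>
    have : Finset.Ico a (b + 1) = insert b (Finset.Ico a b) := by
      ext k; simp only [Finset.mem_Ico, Finset.mem_insert]; omega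
    rw [this, Finset.sum_insert (by simp), ih]
    ring

theorem mono_le {η : ℝ} {θ : ℤ → ℝ} {p q : ℤ} (h : Mono η θ p q) {a b : ℤ} (ha : p ≤ a)
    (hab : a ≤ b) (hb : b ≤ q) : η * θ a ≤ η * θ b := by
  induction b, hab using Int.le_induction with
  | base => exact le_rfl
  | succ b hab ih =>
    have h1 := ih (by omega)
    have h2 := h b (by omega) (by omega)
    linarith

theorem mem_iff {η a b t : ℝ} (hη : η = 1 ∨ η = -1) (hab : η * a ≤ η * b) :
    t ∈ uIcc a b ↔ η * a ≤ η * t ∧ η * t ≤ η * b := by
  rcases hη with rfl | rfl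
  · rw [uIcc_of_le (by linarith), mem_Icc]
    constructor <;> rintro ⟨h1, h2⟩ <;> constructor <;> linarith
  · rw [uIcc_of_ge (by linarith), mem_Icc]
    constructor <;> rintro ⟨h1, h2⟩ <;> constructor <;> linarith

theorem sin_eta {η : ℝ} (hη : η = 1 ∨ η = -1) (u : ℝ) : η * Real.sin (η * u) = Real.sin u := by
  rcases hη with rfl | rfl <;> simp

end RUNFx

open RUNFx in
theorem s_RUNF : S_RUNF := by
  intro M lo hi θ ρ x y hAC η p q hη hp hpq hq hM
  refine ⟨fun t => hv x y t (p + 1) +
    ∑ k ∈ Finset.Ico (p + 1) q, ρ k * (η * Real.sin (min (η * (θ k - t)) 0)), ?_, ?_, ?_⟩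
  · refine Continuous.add (by unfold hv; fun_prop) (continuous_finsetSum _ fun k _ => ?_)
    fun_prop
  · intro k0 t h1 h2 hE
    obtain ⟨e1, e2⟩ := (mem_iff hη (mono_le hM (by omega) (by omega : k0 - 1 ≤ k0) h2)).mp hE
    have hsplit : Finset.Ico (p + 1) q = Finset.Ico (p + 1) k0 ∪ Finset.Ico k0 q := by
      ext k; simp only [Finset.mem_Ico, Finset.mem_union]; omega
    have hdis : Disjoint (Finset.Ico (p + 1) k0) (Finset.Ico k0 q) := by
      rw [Finset.disjoint_left]
      intro k hk hk'
      simp only [Finset.mem_Ico] at hk hk'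
      omega
    have hA : ∑ k ∈ Finset.Ico (p + 1) k0, ρ k * (η * Real.sin (min (η * (θ k - t)) 0)) =
        ∑ k ∈ Finset.Ico (p + 1) k0, (hv x y t (k + 1) - hv x y t k) := by
      refine Finset.sum_congr rfl fun k hk => ?_
      rw [Finset.mem_Ico] at hk
      have := mono_le hM (by omega : p ≤ k) (by omega : k ≤ k0 - 1) (by omega)
      rw [hv_sub hAC t (by omega) (by omega), min_eq_left (by linarith), sin_eta hη]
    have hB : ∑ k ∈ Finset.Ico k0 q, ρ k * (η * Real.sin (min (η * (θ k - t)) 0)) = 0 := by
      refine Finset.sum_eq_zero fun k hk => ?_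
      rw [Finset.mem_Ico] at hk
      have := mono_le hM (by omega : p ≤ k0) hk.1 (by omega)
      rw [min_eq_right (by linarith)]
      simp
    show _ + _ = _
    rw [hsplit, Finset.sum_union hdis, hA, hB, tele (hv x y t) _ _ (by omega)]
    ring
  · intro t ht
    obtain ⟨e1, e2⟩ := (mem_iff hη (mono_le hM le_rfl hpq.le le_rfl)).mp ht
    obtain ⟨k, ⟨hk1, hk2, hk3⟩, hmin⟩ := Int.exists_least_of_bdd
      (P := fun k => p < k ∧ k ≤ q ∧ η * t ≤ η * θ k) ⟨p, fun z hz => hz.1.le⟩
      ⟨q, hpq, le_rfl, e2⟩
    refine ⟨k, hk1, hk2, (mem_iff hη (mono_le hM (by omega) (by omega : k - 1 ≤ k) hk2)).mpr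
      ⟨?_, hk3⟩⟩
    by_cases hk : k - 1 = p
    · rw [hk]; exact e1
    · by_contra hc
      have := hmin (k - 1) ⟨by omega, by omega, (not_le.mp hc).le⟩
      omega

theorem s_ZIG : S_ZIG := by
  intro v η s hη h1 h2
  rcases s with _ | r
  · refine ⟨v 0 + η, fun j hj => ?_⟩
    obtain rfl : j = 0 := by omega
    rcases hη with rfl | rfl <;> simp
  rcases h2 with h2 | h2
  · refine ⟨(v r + v (r + 1)) / 2, fun j hj => ?_⟩
    have key : ∀ d j, j + d = r + 1 → 0 < η * (-1) ^ j * ((v r + v (r + 1)) / 2 - v j) := by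
      intro d
      induction d using Nat.strong_induction_on with
      | _ d ih =>
        intro j hj
        have h0 := h1 r le_rfl
        rcases d with _ | _ | d
        · obtain rfl : j = r + 1 := by omega
          rw [pow_succ]
          linarith
        · obtain rfl : j = r := by omega
          linarith
        · have a := ih d (by omega) (j + 2) (by omega)
          have b := h2 j (by omega)
          rw [pow_add, neg_one_sq, mul_one] at a
          linarith
    exact key (r + 1 - j) j (by omega)
  · refine ⟨(v 0 + v 1) / 2, fun j => ?_⟩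
    induction j using Nat.strong_induction_on with
    | _ j ih =>
      intro hj
      have h0 := h1 0 (by omega)
      rcases j with _ | _ | j
      · linarith
      · rw [pow_succ]
        linarith
      · have a := ih j (by omega) (by omega)
        have b := h2 j (by omega)
        show 0 < η * (-1) ^ (j + 2) * ((v 0 + v 1) / 2 - v (j + 2))
        rw [pow_add, neg_one_sq, mul_one]
        linarith

end Pool.Agent.P.MP_28369d_gt.SB
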