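import Pool.Agent.P.MP_28369d_gt.SB.Tools

/-!
Two convex blocks on different strands are ordered.
-/

namespace Pool.Agent.P.MP_28369d_gt.SB

open Set Filter Topology
open scoped RealInnerProductSpace

namespace SANDx

variable {m n : ℕ} {Z x y : ℤ → ℝ} {η s1 s2 : ℝ}

theorem val_eq (η s : ℝ) (i : ℤ) : val x y η s i = η * val x y 1 s i := by
  simp only [val, lin]
  ring

theorem pick (h : Core m n Z x y) {lo hi : ℝ} (h1 : lo < hi) (h2 : lo < s2) (h3 : s1 < hi)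
    (h4 : s1 < s2) : ∃ s ∈ Ioo s1 s2, lo < s ∧ s < hi ∧
      ∀ k l, ¬ (n : ℤ) ∣ l - k → val x y 1 s k ≠ val x y 1 s l := by
  have hf := finite_range_of_per (f := fun k => (x k, y k)) h.n_pos fun i => by rw [h.px, h.py]
  obtain ⟨s, hs, hn⟩ := (Ioo_infinite (max_lt_iff.2 ⟨lt_min h1 h2, lt_min h3 h4⟩)).exists_notMem_finite
    (hf.image2 (fun u v : ℝ × ℝ => (u.2 - v.2) / (u.1 - v.1)) hf)
  obtain ⟨⟨a, b⟩, c, d⟩ := And.intro (max_lt_iff.1 hs.1) (lt_min_iff.1 hs.2)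
  refine ⟨s, ⟨b, d⟩, a, c, fun k l hk e => hn ⟨_, ⟨k, rfl⟩, _, ⟨l, rfl⟩, ?_⟩⟩
  simp only [val, lin] at e
  exact (div_eq_iff (sub_ne_zero.2 (h.xne k l hk))).2 (by linarith)

theorem gen (h : Core m n Z x y) {p q b : ℤ} (hpq : p < q)
    (hb : ∀ i, p ≤ i → i < q → ¬ brk Z x y i ∧ sl Z x y i ∈ Ioo s1 s2)
    (h0 : 0 < η * jp Z x p * trn Z x y p) (h1 : p ≤ b) (h2 : b ≤ q) : ∃ s ∈ Ioo s1 s2,
      (∀ k l, ¬ (n : ℤ) ∣ l - k → val x y 1 s k ≠ val x y 1 s l) ∧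
      jp Z (val x y η s) (b - 1) < 0 ∧ 0 < jp Z (val x y η s) b := by
  have h3 : 0 < jp Z x (b - 1) * jp Z x b ∧
      (sl Z x y b ∈ Ioo s1 s2 ∨ sl Z x y (b - 1) ∈ Ioo s1 s2) := by
    rcases h2.eq_or_lt with rfl | h2
    · have := hb (b - 1) (by omega) (by omega)
      exact ⟨by simpa using (h.not_brk this.1).2.2.1, .inr this.2⟩
    · exact ⟨(h.not_brk (hb b h1 h2).1).2.1, .inl (hb b h1 h2).2⟩
  have h4 := pos_chain (g := fun i => jp Z x i * trn Z x y i) (mul_ne_zero (h.jx_ne p) (h.trn_ne p))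
    (fun i a b => by
      have := h.not_brk (hb i a b).1
      linarith [mul_pos this.2.2.1 this.2.2.2]) b h1 h2
  have h5 : 0 < η * jp Z x b * (sl Z x y b - sl Z x y (b - 1)) := by
    rw [h.sl_sub, ← mul_div_assoc]
    refine div_pos (pos_of_mul_pos_right (a := (jp Z x p * trn Z x y p) ^ 2) ?_ (sq_nonneg _)) h3.1
    linarith [mul_pos h0 h4]
  have h6 := (hb p le_rfl hpq).2.1.trans (hb p le_rfl hpq).2.2
  have h7 : 0 < η * jp Z x (b - 1) * (η * jp Z x b) := by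
    have : η ≠ 0 := fun e => by simp [e] at h0
    linarith [mul_pos (mul_self_pos.2 this) h3.1]
  simp only [h.jp_val]
  rcases mul_pos_iff.1 h5 with ⟨a, c⟩ | ⟨a, c⟩
  · obtain ⟨s, hs, d, e, f⟩ := pick h (sub_pos.1 c) (h3.2.elim (fun t => by linarith [t.2]) (·.2))
      (h3.2.elim (·.1) fun t => by linarith [t.1]) h6
    exact ⟨s, hs, f, mul_neg_of_pos_of_neg (pos_of_mul_pos_left h7 a.le) (sub_neg.2 d),
      mul_pos a (sub_pos.2 e)⟩
  · obtain ⟨s, hs, d, e, f⟩ := pick h (sub_neg.1 c) (h3.2.elim (·.2) fun t => by linarith [t.2])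
      (h3.2.elim (fun t => by linarith [t.1]) (·.1)) h6
    exact ⟨s, hs, f, mul_neg_of_neg_of_pos (neg_of_mul_pos_left h7 a.le) (sub_pos.2 e),
      mul_pos_of_neg_of_neg a (sub_neg.2 d)⟩

theorem exists_amin (η : ℝ) {p q : ℤ} (h : p ≤ q) (s : ℝ) : ∃ i, Amin x y η p q s i := by
  obtain ⟨i, hi, hm⟩ := exists_min_image _ (val x y η s) (finite_Icc p q) (nonempty_Icc.2 h)
  exact ⟨i, hi.1, hi.2, fun k a b => hm k ⟨a, b⟩⟩

theorem tr (hO : S_ORD) (h : Core m n Z x y) (hη : η = 1 ∨ η = -1) {a a' : ℝ} {p q p' q' : ℤ}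
    (ha : a = 1 ∨ a = -1) (ha' : a' = 1 ∨ a' = -1) (hB : Branch Z x y p q)
    (hB' : Branch Z x y p' q') (hd : ¬ (n : ℤ) ∣ p' - p) (hF : Free Z x y s1 s2)
    (hU : ∀ s ∈ Icc s1 s2, UpB Z x y a p q s) (hU' : ∀ s ∈ Icc s1 s2, UpB Z x y a' p' q' s)
    {s : ℝ} (hs : s ∈ Icc s1 s2) {i j : ℤ} (hi : Amin x y a p q s i) (hj : Amin x y a' p' q' s j)
    (hl : val x y η s i < val x y η s j) : ∀ t ∈ Icc s1 s2, ∀ i' j', Amin x y a p q t i' →
      Amin x y a' p' q' t j' → val x y η t i' < val x y η t j' := by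
  intro t ht i' j' hi' hj'
  rcases hη with rfl | rfl
  · exact ((hO m n Z x y h).2.2 a a' s1 s2 p q p' q' ha ha' hB hB' hd hF hU hU' s hs i j hi
      hj).2 t ht i' j' hi' hj' hl
  · rw [val_eq, val_eq (-1)] at hl ⊢
    linarith [((hO m n Z x y h).2.2 a' a s1 s2 p' q' p q ha' ha hB' hB (mt dvd_sub_comm.1 hd) hF hU'
      hU s hs j i hj hi).2 t ht j' i' hj' hi' (by linarith)]

theorem main (hA : S_ALT) (hO : S_ORD) (h : Core m n Z x y) (hη : η = 1 ∨ η = -1)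
    {p q p' q' P Q P' Q' : ℤ} (hpq : p' < q')
    (hb : ∀ i, p' ≤ i → i < q' → ¬ brk Z x y i ∧ sl Z x y i ∈ Ioo s1 s2)
    (h0 : 0 < η * jp Z x p' * trn Z x y p') (hF : Free Z x y s1 s2) (hB : Branch Z x y P Q)
    (hB' : Branch Z x y P' Q') (h1 : P ≤ p) (h2 : q ≤ Q) (h3 : P' ≤ p') (h4 : q' ≤ Q')
    (hU : ∀ s ∈ Icc s1 s2, UpB Z x y η P Q s)
    (H : ∀ t ∈ Icc s1 s2, ∀ b a, Amin x y η P' Q' t b → Amin x y η P Q t a →
      val x y η t b < val x y η t a) : Sand x y η s1 s2 p q p' q' := by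
  intro b hb1 hb2
  obtain ⟨s, hs, hg, g1, g2⟩ := gen h hpq hb h0 hb1 hb2
  have hs' := Ioo_subset_Icc_self hs
  have hη' : -η = 1 ∨ -η = -1 := hη.symm.imp (by rintro rfl; simp) (by rintro rfl; simp)
  replace hg : ∀ k l, ¬ (n : ℤ) ∣ l - k → val x y η s k ≠ val x y η s l := fun k l hk e => by
    rw [val_eq, val_eq η] at e
    exact hg k l hk (mul_left_cancel₀ (fun e => by simp [e] at h0) e)
  have hn : ∀ i, val x y η s i ≠ val x y η s (i + 1) := fun i =>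
    hg _ _ (not_dvd_of_lt (by omega) (by have := h.big; simp; omega))
  obtain ⟨a, ha⟩ := exists_amin (x := x) (y := y) η hB.1 s
  have a1 : jp Z (val x y η s) (a - 1) < 0 := by
    rcases ha.1.eq_or_lt with rfl | hl
    · exact (hU s hs').1
    · have h5 := ha.2.1
      have h6 := hn (a - 1)
      rw [jp_of_pos (h.not_brk (hB.2.2.2 _ (by omega) (by omega))).1, sub_neg]
      rw [sub_add_cancel] at h6 ⊢
      exact (ha.2.2 _ (by omega) (by omega)).lt_of_ne h6.symm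
  have a2 : 0 < jp Z (val x y η s) a := by
    rcases ha.2.1.eq_or_lt with rfl | hl
    · exact (hU s hs').2
    · have h5 := ha.1
      rw [jp_of_pos (h.not_brk (hB.2.2.2 _ ha.1 hl)).1, sub_pos]
      exact (ha.2.2 _ (by omega) (by omega)).lt_of_ne (hn a)
  obtain ⟨c, c1, c2, c3, c4⟩ := hA m n Z x y h _ _ b a hg g1 g2 a1 a2 (H s hs' b a
    ((hO m n Z x y h).2.1 η s P' Q' b hη hB' (h3.trans hb1) (hb2.trans h4) g1 g2).1 ha)
  have ng : ∀ t i, jp Z (val x y (-η) t) i = -jp Z (val x y η t) i := fun t i => by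
    rw [h.jp_val, h.jp_val]
    ring
  obtain ⟨R, S, hC, r1, r2⟩ := (hO m n Z x y h).1 c
  obtain ⟨hc, hUC⟩ := (hO m n Z x y h).2.1 (-η) s R S c hη' hC r1 r2
    (by rw [ng]; exact neg_lt_zero.2 c1) (by rw [ng]; exact neg_pos.2 c2)
  replace hUC := hUC s1 s2 hF hs'
  have hd : ¬ (n : ℤ) ∣ P - R := fun hd => by
    have h5 := (hUC s hs').1
    rw [ng, ← per_of_dvd (jp_per h.pZ (f := val x y η s) (h.lin_per _ _)) (j := P - 1)
      (by rwa [sub_sub_sub_cancel_right])] at h5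
    linarith [(hU s hs').1]
  have key : ∀ t ∈ Icc s1 s2, ¬ (∀ i, p ≤ i → i ≤ q → val x y η t b ≤ val x y η t i) →
      val x y η t c < val x y η t b := fun t ht hi => by
    push Not at hi
    obtain ⟨i, i1, i2, i3⟩ := hi
    obtain ⟨a', ha'⟩ := exists_amin (x := x) (y := y) η hB.1 t
    obtain ⟨c', hc'⟩ := exists_amin (x := x) (y := y) (-η) hC.1 t
    have h5 := tr hO h hη hη' hη hC hB hd hF hUC hU hs' hc ha c4 t ht c' a' hc' ha'
    have h6 := hc'.2.2 c r1 r2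
    have h7 := ha'.2.2 i (h1.trans i1) (i2.trans h2)
    rw [val_eq, val_eq (-η), neg_mul, neg_mul, ← val_eq, ← val_eq] at h6
    linarith
  by_contra hc
  have h12 := (hs.1.trans hs.2).le
  have k1 := key s1 ⟨le_rfl, h12⟩ fun e => hc (.inl e)
  have k2 := key s2 ⟨h12, le_rfl⟩ fun e => hc (.inr e)
  simp only [val, lin] at k1 k2 c3
  linarith [mul_pos (sub_pos.2 hs.2) (sub_pos.2 k1), mul_pos (sub_pos.2 hs.1) (sub_pos.2 k2),
    mul_pos (sub_pos.2 (hs.1.trans hs.2)) (sub_pos.2 c3)]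

theorem branch (hO : S_ORD) (h : Core m n Z x y) (hη : η = 1 ∨ η = -1) {p q : ℤ} (hpq : p < q)
    (hb : ∀ i, p ≤ i → i < q → ¬ brk Z x y i ∧ sl Z x y i ∈ Ioo s1 s2)
    (h0 : 0 < η * jp Z x p * trn Z x y p) (hF : Free Z x y s1 s2) : ∃ P Q, Branch Z x y P Q ∧
      P ≤ p ∧ q ≤ Q ∧ ∀ s ∈ Icc s1 s2, UpB Z x y η P Q s := by
  obtain ⟨P, Q, hB, h1, h2⟩ := (hO m n Z x y h).1 p
  obtain ⟨s, hs, -, g1, g2⟩ := gen h hpq hb h0 le_rfl hpq.le
  exact ⟨P, Q, hB, h1, not_lt.1 fun e => (hb Q h2 e).1 hB.2.2.1,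
    ((hO m n Z x y h).2.1 η s P Q p hη hB h1 h2 g1 g2).2 s1 s2 hF (Ioo_subset_Icc_self hs)⟩

end SANDx

open SANDx in
theorem s_SAND (hA : S_ALT) (hO : S_ORD) : S_SAND := by
  intro m n Z x y h η s1 s2 p q p' q' hη hpq hpq' hb hb' hD hF h0 h0'
  obtain ⟨P, Q, hB, h1, h2, hU⟩ := branch hO h hη hpq hb h0 hF
  obtain ⟨P', Q', hB', h3, h4, hU'⟩ := branch hO h hη hpq' hb' h0' hF
  have hd : ¬ (n : ℤ) ∣ P' - P := fun ⟨k, hk⟩ => by
    obtain ⟨i, i1, i2, i3⟩ := hD (-k)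
    rw [neg_mul, mul_comm] at i1 i2
    rcases lt_or_ge i p with e | e
    · exact hB.2.2.2 i (by omega) (by omega) (.inl i3)
    · refine hB'.2.2.2 (i + k * n) ?_ ?_ ((h.brk_zmul i k).2 (.inl i3)) <;> rw [mul_comm] <;> omega
  have hs : s1 ∈ Icc s1 s2 := ⟨le_rfl, ((hb p le_rfl hpq).2.1.trans (hb p le_rfl hpq).2.2).le⟩
  obtain ⟨a, ha⟩ := exists_amin (x := x) (y := y) η hB.1 s1
  obtain ⟨b, hb1⟩ := exists_amin (x := x) (y := y) η hB'.1 s1
  have hne : val x y η s1 a ≠ val x y η s1 b := fun e => by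
    rw [val_eq, val_eq η] at e
    exact ((hO m n Z x y h).2.2 η η s1 s2 P Q P' Q' hη hη hB hB' hd hF hU hU' s1 hs a b ha hb1).1
      (mul_left_cancel₀ (fun e => by simp [e] at h0) e)
  rcases hne.lt_or_gt with e | e
  · exact .inr (main hA hO h hη hpq hb h0 hF hB' hB h3 h4 h1 h2 hU'
      (tr hO h hη hη hη hB hB' hd hF hU hU' hs ha hb1 e))
  · exact .inl (main hA hO h hη hpq' hb' h0' hF hB hB' h1 h2 h3 h4 hU
      (tr hO h hη hη hη hB' hB (mt dvd_sub_comm.1 hd) hF hU' hU hs hb1 ha e))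

end Pool.Agent.P.MP_28369d_gt.SB
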