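import Pool.Agent.P.MP_28369d_gt.SB.Tools

namespace Pool.Agent.P.MP_28369d_gt.SB

open Set Filter Topology
open scoped RealInnerProductSpace

namespace SPIx

theorem cos_eta {η : ℝ} (hη : η = 1 ∨ η = -1) (a : ℝ) : Real.cos (η * a) = Real.cos a := by
  rcases hη with rfl | rfl <;> simp

theorem sin_eta {η : ℝ} (hη : η = 1 ∨ η = -1) (a : ℝ) : Real.sin (η * a) = η * Real.sin a := by
  rcases hη with rfl | rfl <;> simp

theorem eta_sq {η : ℝ} (hη : η = 1 ∨ η = -1) : η * η = 1 := by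
  rcases hη with rfl | rfl <;> norm_num

theorem mono_le {η : ℝ} {θ : ℤ → ℝ} {p q : ℤ} (h : Mono η θ p q) {a b : ℤ} (ha : p ≤ a)
    (hab : a ≤ b) (hb : b ≤ q) : η * θ a ≤ η * θ b := by
  induction b, hab using Int.leInduction with
  | base => exact le_rfl
  | succ n hn ih =>
    have h1 := ih (by omega)
    have h2 := h n (by omega) (by omega)
    linarith

theorem sum_pos {f : ℤ → ℝ} {σ : ℝ} {a b : ℤ} (hab : a + 1 ≤ b)
    (h : ∀ e, a ≤ e → e < b → 0 < σ * (f (e + 1) - f e)) : 0 < σ * (f b - f a) := by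
  induction b, hab using Int.leInduction with
  | base => exact h a le_rfl (by omega)
  | succ n hn ih =>
    have h1 := ih fun e h1 h2 => h e h1 (by omega)
    have h2 := h n (by omega) (by omega)
    linarith

theorem ev_le {η : ℝ} (hη : η = 1 ∨ η = -1) {θ : ℤ → ℝ} {p q k : ℤ} (h : Mono η θ p q)
    (h1 : p < k) (h2 : k ≤ q) {u : ℝ} (he : Ev θ k u) :
    η * θ (k - 1) ≤ η * u ∧ η * u ≤ η * θ k := by
  have h3 := mono_le h (a := k - 1) (b := k) (by omega) (by omega) h2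
  unfold Ev at he
  rw [mem_uIcc] at he
  rcases hη with rfl | rfl <;> rcases he with he | he <;> constructor <;> linarith [he.1, he.2]

theorem mem_rng {η : ℝ} (hη : η = 1 ∨ η = -1) {a b w : ℝ} (h1 : η * a ≤ w) (h2 : w ≤ η * b) :
    η * w ∈ uIcc a b := by
  rw [mem_uIcc]
  rcases hη with rfl | rfl
  · left; constructor <;> linarith
  · right; constructor <;> linarith

theorem step_lt {M : ℕ} {lo hi : ℤ} {θ ρ x y : ℤ → ℝ} (h : AC M lo hi θ ρ x y) {η : ℝ}
    (hη : η = 1 ∨ η = -1) {k : ℤ} (h1 : lo < k) (h2 : k < hi) :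
    η * θ k - η * θ (k - 1) < Real.pi := by
  have h3 := (h.step (k - 1) (by omega) (by omega)).2
  rw [sub_add_cancel, abs_lt] at h3
  rcases hη with rfl | rfl <;> linarith [h3.1, h3.2]

theorem hv_shift (x y : ℤ → ℝ) {η : ℝ} (hη : η = 1 ∨ η = -1) (t : ℝ) (j : ℕ) (k : ℤ) :
    hv x y (t + η * (j * Real.pi)) k = (-1) ^ j * hv x y t k := by
  unfold hv
  rcases hη with rfl | rfl
  · rw [one_mul, Real.cos_add_nat_mul_pi, Real.sin_add_nat_mul_pi]; ring
  · rw [neg_one_mul, ← sub_eq_add_neg, Real.cos_sub_nat_mul_pi, Real.sin_sub_nat_mul_pi]; ring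

theorem floor_lt {a b : ℝ} (hab : a ≤ b) (h : Real.cos a * Real.cos b < 0) :
    ⌊a / Real.pi + 1 / 2⌋ < ⌊b / Real.pi + 1 / 2⌋ := by
  have hπ := Real.pi_pos
  have h1 : ⌊a / Real.pi + 1 / 2⌋ ≤ ⌊b / Real.pi + 1 / 2⌋ :=
    Int.floor_mono (by have := div_le_div_of_nonneg_right hab hπ.le; linarith)
  refine lt_of_le_of_ne h1 fun he => ?_
  have key : ∀ c : ℝ, 0 ≤ Real.cos (c - (⌊c / Real.pi + 1 / 2⌋ : ℤ) * Real.pi) := fun c => by
    have h2 := Int.floor_le (c / Real.pi + 1 / 2)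
    have h3 := Int.lt_floor_add_one (c / Real.pi + 1 / 2)
    have h4 : c = c / Real.pi * Real.pi := by field_simp
    refine Real.cos_nonneg_of_neg_pi_div_two_le_of_le ?_ ?_ <;> nlinarith
  have ha := key a
  have hb := key b
  rw [← he] at hb
  rw [Real.cos_sub_int_mul_pi] at ha hb
  have h5 := mul_nonneg ha hb
  have h6 : ((-1 : ℝ) ^ ⌊a / Real.pi + 1 / 2⌋) * ((-1 : ℝ) ^ ⌊a / Real.pi + 1 / 2⌋) = 1 := by
    rw [← mul_zpow]; simp
  have h7 : ((-1 : ℝ) ^ ⌊a / Real.pi + 1 / 2⌋ * Real.cos a) *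
      ((-1 : ℝ) ^ ⌊a / Real.pi + 1 / 2⌋ * Real.cos b) = Real.cos a * Real.cos b := by
    rw [mul_mul_mul_comm, h6, one_mul]
  linarith

theorem count_le {η : ℝ} (hη : η = 1 ∨ η = -1) {θ : ℤ → ℝ} {p q : ℤ} (h : Mono η θ p q) {N : ℕ}
    (hN : η * θ q - η * θ p ≤ N * Real.pi) :
    cnt (p + 1) q (fun k => Real.cos (θ (k - 1)) * Real.cos (θ k) < 0) ≤ N + 1 := by
  have hπ := Real.pi_pos
  set m : ℤ → ℤ := fun k => ⌊η * θ k / Real.pi + 1 / 2⌋ with hm
  have mono : ∀ a b, p ≤ a → a ≤ b → b ≤ q → m a ≤ m b := fun a b h1 h2 h3 =>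
    Int.floor_mono (by
      have := div_le_div_of_nonneg_right (mono_le h h1 h2 h3) hπ.le; linarith)
  have jump : ∀ k, p + 1 ≤ k → k ≤ q → Real.cos (θ (k - 1)) * Real.cos (θ k) < 0 →
      m (k - 1) < m k := fun k h1 h2 h3 =>
    floor_lt (mono_le h (by omega) (by omega) h2) (by rwa [cos_eta hη, cos_eta hη])
  have top : m q ≤ m p + N + 1 := by
    have h1 := Int.floor_le (η * θ q / Real.pi + 1 / 2)
    have h2 := Int.lt_floor_add_one (η * θ p / Real.pi + 1 / 2)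
    have h3 : η * θ q / Real.pi ≤ η * θ p / Real.pi + N := by
      rw [div_add' _ _ _ hπ.ne']
      exact div_le_div_of_nonneg_right (by linarith) hπ.le
    have h4 : (m q : ℝ) ≤ ((m p + N + 1 : ℤ) : ℝ) := by
      push_cast
      simp only [hm]
      linarith
    exact_mod_cast h4
  have h5 := ncard_le_ncard_of_injOn (s := {k : ℤ | p + 1 ≤ k ∧ k ≤ q ∧
      Real.cos (θ (k - 1)) * Real.cos (θ k) < 0}) (t := (Finset.Icc (m p + 1) (m p + N + 1) : Set ℤ))
    m (fun k hk => ?_) (fun a ha b hb hab => ?_) (Finset.finite_toSet _)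
  · rw [ncard_coe_finset, Int.card_Icc] at h5
    exact h5.trans (by omega)
  · obtain ⟨h1, h2, h3⟩ := hk
    have h6 := jump k h1 h2 h3
    have h7 := mono p (k - 1) le_rfl (by omega) (by omega)
    have h8 := mono k q (by omega) h2 le_rfl
    rw [Finset.mem_coe, Finset.mem_Icc]
    omega
  · obtain ⟨a1, a2, a3⟩ := ha
    obtain ⟨b1, b2, b3⟩ := hb
    by_contra hne
    rcases lt_or_gt_of_ne hne with hlt | hlt
    · have h6 := jump b b1 b2 b3
      have h7 := mono a (b - 1) (by omega) (by omega) (by omega)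
      omega
    · have h6 := jump a a1 a2 a3
      have h7 := mono b (a - 1) (by omega) (by omega) (by omega)
      omega

theorem exists_avoid (φ : ℤ → ℝ) (a : ℝ) :
    ∃ w, a < w ∧ w < a + Real.pi ∧ ∀ (e : ℤ) (j : ℕ), w + j * Real.pi ≠ φ e := by
  have hc : (range fun z : ℤ × ℕ => φ z.1 - z.2 * Real.pi).Countable := countable_range _
  have hd := hc.dense_compl ℝ
  obtain ⟨w, ⟨h1, h2⟩, h3⟩ := hd.inter_open_nonempty (Ioo a (a + Real.pi)) isOpen_Ioo
    (nonempty_Ioo.2 (by linarith [Real.pi_pos]))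
  exact ⟨w, h1, h2, fun e j he => h3 ⟨(e, j), by simp only; linarith⟩⟩

theorem const_sign {δ : ℝ → ℝ} (hc : Continuous δ) {a b : ℝ} (h : ∀ w ∈ Icc a b, δ w ≠ 0) :
    (∀ w ∈ Icc a b, 0 < δ w) ∨ ∀ w ∈ Icc a b, δ w < 0 := by
  by_contra hn
  push Not at hn
  obtain ⟨⟨u, hu, hu'⟩, ⟨v, hv, hv'⟩⟩ := hn
  obtain ⟨w, hw, hw'⟩ := isPreconnected_Icc.intermediate_value hu hv hc.continuousOn ⟨hu', hv'⟩
  exact h w hw hw'

theorem short (hR : S_RUNF) (hZ : S_ZIG) {M : ℕ} {lo hi : ℤ} {θ ρ x y : ℤ → ℝ}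
    (h : AC M lo hi θ ρ x y) {η : ℝ} {p q : ℤ} (hη : η = 1 ∨ η = -1) (hp : lo ≤ p) (hpq : p < q)
    (hq : q < hi) (hm : Mono η θ p q) :
    η * θ q - η * θ p ≤ ((2 * M + 1 : ℕ) : ℝ) * Real.pi := by
  have hπ := Real.pi_pos
  have hη2 := eta_sq hη
  by_contra hbig
  push Not at hbig
  push_cast at hbig
  obtain ⟨H, Hc, H1, H2⟩ := hR M lo hi θ ρ x y h η p q hη hp hpq hq hm
  have ev : ∀ w, η * θ p ≤ w → w ≤ η * θ q → ∃ k, p < k ∧ k ≤ q ∧ Ev θ k (η * w) ∧
      η * θ (k - 1) ≤ w ∧ w ≤ η * θ k := fun w h1 h2 => by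
    obtain ⟨k, k1, k2, k3⟩ := H2 _ (mem_rng hη h1 h2)
    have h3 := ev_le hη hm k1 k2 k3
    rw [← mul_assoc, hη2, one_mul] at h3
    exact ⟨k, k1, k2, k3, h3⟩
  obtain ⟨w, w1, w2, w3⟩ := exists_avoid (fun e => η * θ e) (η * θ p)
  have rng : ∀ j : ℕ, j ≤ 2 * M → η * θ p ≤ w + j * Real.pi ∧ w + j * Real.pi ≤ η * θ q :=
    fun j hj => by
      have h1 : (j : ℝ) ≤ 2 * M := by exact_mod_cast hj
      have h2 : (0 : ℝ) ≤ j := Nat.cast_nonneg j
      constructor <;> nlinarith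
  have ev' : ∀ j : ℕ, ∃ k : ℤ, j ≤ 2 * M → p < k ∧ k ≤ q ∧ Ev θ k (η * (w + j * Real.pi)) ∧
      η * θ (k - 1) < w + j * Real.pi ∧ w + j * Real.pi < η * θ k := fun j => by
    by_cases hj : j ≤ 2 * M
    · obtain ⟨k, k1, k2, k3, k4, k5⟩ := ev _ (rng j hj).1 (rng j hj).2
      exact ⟨k, fun _ => ⟨k1, k2, k3, lt_of_le_of_ne k4 (w3 _ j).symm, lt_of_le_of_ne k5 (w3 _ j)⟩⟩
    · exact ⟨0, fun hj' => absurd hj' hj⟩
  choose k hk using ev'
  have kinc : ∀ j, j + 1 ≤ 2 * M → k j < k (j + 1) := fun j hj => by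
    obtain ⟨a1, a2, -, a4, -⟩ := hk j (by omega)
    obtain ⟨b1, b2, -, -, b5⟩ := hk (j + 1) hj
    by_contra hle
    have h1 := mono_le hm b1.le (not_lt.1 hle) a2
    have h2 := step_lt h hη (k := k j) (by omega) (by omega)
    push_cast at b5
    linarith
  have hH : ∀ j : ℕ, j ≤ 2 * M →
      H (η * (w + j * Real.pi)) = (-1) ^ j * hv x y (η * w) (k j) := fun j hj => by
    obtain ⟨a1, a2, a3, -, -⟩ := hk j hj
    rw [H1 _ _ a1 a2 a3, mul_add, hv_shift x y hη]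
  have hδ : ∀ u ∈ Icc (η * θ p) (η * θ q - 2 * Real.pi),
      H (η * (u + 2 * Real.pi)) - H (η * u) ≠ 0 := fun u hu => by
    obtain ⟨i, a1, a2, a3, a4, -⟩ := ev u hu.1 (by linarith [hu.2])
    obtain ⟨j, b1, b2, b3, -, b5⟩ := ev (u + 2 * Real.pi) (by linarith [hu.1]) (by linarith [hu.2])
    have hij : i + 1 < j := by
      by_contra hle
      have h2 := step_lt h hη (k := i) (by omega) (by omega)
      rcases (not_lt.1 hle).eq_or_lt with he | hlt
      · have h3 := step_lt h hη (k := j) (by omega) (by omega)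
        rw [he, add_sub_cancel_right] at h3
        rw [he] at b5
        linarith
      · have h3 := mono_le hm b1.le (show j ≤ i by omega) a2
        linarith
    obtain ⟨r, hr⟩ : ∃ r : ℤ, (r : ℝ) = η * 2 := by
      rcases hη with rfl | rfl
      · exact ⟨2, by norm_num⟩
      · exact ⟨-2, by norm_num⟩
    have h4 := h.nb i j (η * u) r (by omega) hij (by omega) a3
      (by rw [hr]; rwa [mul_add, ← mul_assoc] at b3)
    have h5 := hv_shift x y hη (η * u) 2 j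
    rw [H1 _ _ a1 a2 a3, H1 _ _ b1 b2 b3, mul_add]
    push_cast at h5
    rw [h5]
    intro h6
    apply h4
    linarith
  have hcs := const_sign (δ := fun u => η * (H (η * (u + 2 * Real.pi)) - H (η * u)))
    (by fun_prop) (a := η * θ p) (b := η * θ q - 2 * Real.pi) fun u hu =>
      mul_ne_zero (by rcases hη with rfl | rfl <;> norm_num) (hδ u hu)
  have two : ∀ j : ℕ, j + 2 ≤ 2 * M →
      w + j * Real.pi ∈ Icc (η * θ p) (η * θ q - 2 * Real.pi) ∧
      η * (-1) ^ j * (hv x y (η * w) (k (j + 2)) - hv x y (η * w) (k j)) =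
        η * (H (η * (w + j * Real.pi + 2 * Real.pi)) - H (η * (w + j * Real.pi))) := fun j hj => by
    have h1 := rng (j + 2) hj
    have h2 := hH (j + 2) hj
    have h3 : w + ((j + 2 : ℕ) : ℝ) * Real.pi = w + j * Real.pi + 2 * Real.pi := by
      push_cast; ring
    rw [h3] at h1 h2
    refine ⟨⟨(rng j (by omega)).1, by linarith [h1.2]⟩, ?_⟩
    rw [h2, hH j (by omega)]
    ring
  have one : ∀ j : ℕ, j + 1 ≤ 2 * M →
      0 < η * (-1) ^ j * (hv x y (η * w) (k (j + 1)) - hv x y (η * w) (k j)) := fun j hj => by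
    obtain ⟨a1, a2, -, -, a5⟩ := hk j (by omega)
    obtain ⟨b1, b2, -, b4, -⟩ := hk (j + 1) hj
    refine sum_pos (f := hv x y (η * w)) (kinc j hj) fun e e1 e2 => ?_
    have h1 := mono_le hm a1.le e1 (by omega)
    have h2 := mono_le hm (a := e) (b := k (j + 1) - 1) (by omega) (by omega) (by omega)
    have h3 := (h.rho e (by omega) (by omega)).1
    push_cast at b4
    have h4 : 0 < Real.sin (η * θ e - w - j * Real.pi) :=
      Real.sin_pos_of_pos_of_lt_pi (by linarith) (by linarith)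
    have h5 : θ e - η * w = η * (η * θ e - w) := by
      rw [mul_sub, ← mul_assoc, hη2, one_mul]
    rw [Real.sin_sub_nat_mul_pi] at h4
    rw [hv_sub h _ (by omega) (by omega), h5, sin_eta hη]
    have h6 : η * (-1) ^ j * (ρ e * (η * Real.sin (η * θ e - w))) =
        η * η * (ρ e * ((-1) ^ j * Real.sin (η * θ e - w))) := by ring
    rw [h6, hη2, one_mul]
    exact mul_pos h3 h4
  obtain ⟨c, hc⟩ := hZ (fun j => hv x y (η * w) (k j)) η (2 * M) hη one
    (hcs.imp (fun h1 j hj => by rw [(two j hj).2]; exact h1 _ (two j hj).1)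
      fun h1 j hj => by rw [(two j hj).2]; exact h1 _ (two j hj).1)
  refine h.cr (η * w) c η k hη (fun j hj => kinc j hj.le) (fun j hj => ?_)
    fun j hj => hc j hj.le
  obtain ⟨a1, a2, -⟩ := hk j hj.le
  constructor <;> omega

end SPIx

theorem s_SPI (hR : S_RUNF) (hZ : S_ZIG) : S_SPI := fun M =>
  ⟨2 * M + 1 + 1, fun lo hi θ ρ x y h η p q hη hp hq hm => by
    rcases lt_or_ge p q with hpq | hpq
    · exact SPIx.count_le hη hm (SPIx.short hR hZ h hη hp hpq hq hm)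
    · have h1 := cnt_le (p + 1) q fun k => Real.cos (θ (k - 1)) * Real.cos (θ k) < 0
      omega⟩

end Pool.Agent.P.MP_28369d_gt.SB
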