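import Pool.Agent.P.MP_28369d_gt.SB.Tools

/-!
Straightening of a polygon between finitely many levels.
-/

namespace Pool.Agent.P.MP_28369d_gt.SB

open Set Filter Topology
open scoped RealInnerProductSpace

namespace STRx

theorem locAff_comb {F G : ℝ → E} (hF : LocAff F) (hG : LocAff G) (a b : ℝ) :
    LocAff fun t => a • F t + b • G t := by
  intro τ
  obtain ⟨δ, hδ, p, q, H⟩ := hF τ
  obtain ⟨δ', hδ', p', q', H'⟩ := hG τ
  refine ⟨min δ δ', lt_min hδ hδ', a • p + b • p', a • q + b • q', fun t h0 ht => ?_⟩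
  obtain ⟨h1, h2⟩ := H t h0 (ht.trans (min_le_left _ _))
  obtain ⟨h3, h4⟩ := H' t h0 (ht.trans (min_le_right _ _))
  simp only [h1, h2, h3, h4]
  constructor <;> module

/-- An arc from a lower level to the next level. -/
structure Arc (z : ℝ → ℝ) (B : Finset ℝ) (a b : ℝ) : Prop where
  lt : z a < z b
  inj : InjOn z (uIcc a b)
  lo : z a ∈ B
  hi : z b ∈ B
  mid : ∀ σ ∈ Ioo (min a b) (max a b), z σ ∉ B
  rg : ∀ σ ∈ uIcc a b, z a ≤ z σ ∧ z σ ≤ z b

theorem mem_oo {a b σ : ℝ} (h : σ ∈ uIcc a b) (ha : σ ≠ a) (hb : σ ≠ b) :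
    σ ∈ Ioo (min a b) (max a b) := by
  refine ⟨lt_of_le_of_ne h.1 ?_, lt_of_le_of_ne h.2 ?_⟩
  · rcases min_choice a b with e | e <;> rw [e]
    exacts [ha.symm, hb.symm]
  · rcases max_choice a b with e | e <;> rw [e]
    exacts [ha, hb]

theorem Arc.surj {z : ℝ → ℝ} {B : Finset ℝ} {a b : ℝ} (h : Arc z B a b) (hz : Continuous z)
    {l : ℝ} (h1 : z a ≤ l) (h2 : l ≤ z b) : ∃ σ ∈ uIcc a b, z σ = l :=
  intermediate_value_uIcc hz.continuousOn (by rw [uIcc_of_le h.lt.le]; exact ⟨h1, h2⟩)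

theorem Arc.gap {z : ℝ → ℝ} {B : Finset ℝ} {a b : ℝ} (h : Arc z B a b) (hz : Continuous z)
    {l : ℝ} (h1 : z a < l) (h2 : l < z b) : l ∉ B := by
  obtain ⟨σ, hσ, rfl⟩ := h.surj hz h1.le h2.le
  exact h.mid σ (mem_oo hσ (fun e => h1.ne' (by rw [e])) fun e => h2.ne (by rw [e]))

/-- Comparison of the end points of two arcs through a common height. -/
theorem key {z g : ℝ → ℝ} (hz : Continuous z) (hg : Continuous g) {Λ B : Finset ℝ} (hB : Λ ⊆ B)
    (hm : ∀ x ∈ Λ, ∀ y ∈ Λ, (x + y) / 2 ∈ B) {a b a' b' l : ℝ} (h : Arc z B a b)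
    (h' : Arc z B a' b') (h1 : z a < l) (h2 : l < z b) (h3 : z a' < l) (h4 : l < z b')
    (H : ∀ σ ∈ uIcc a b, ∀ σ' ∈ uIcc a' b', z σ = z σ' → z σ ∉ Λ → g σ' < g σ) :
    g a' + (l - z a') / (z b' - z a') * (g b' - g a') <
      g a + (l - z a) / (z b - z a) * (g b - g a) := by
  have ea : z a' = z a := by
    rcases lt_trichotomy (z a') (z a) with c | c | c
    · exact absurd h.lo (h'.gap hz c (h1.trans h4))
    · exact c
    · exact absurd h'.lo (h.gap hz c (h3.trans h2))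
  have eb : z b' = z b := by
    rcases lt_trichotomy (z b') (z b) with c | c | c
    · exact absurd h'.hi (h.gap hz (h1.trans h4) c)
    · exact c
    · exact absurd h.hi (h'.gap hz (h3.trans h2) c)
  have hK : IsCompact ((uIcc a b ×ˢ uIcc a' b') ∩
      {p : ℝ × ℝ | z p.1 = z p.2 ∧ g p.2 ≤ g p.1}) :=
    (isCompact_uIcc.prod isCompact_uIcc).inter_right
      ((isClosed_eq (hz.comp continuous_fst) (hz.comp continuous_snd)).inter
        (isClosed_le (hg.comp continuous_snd) (hg.comp continuous_fst)))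
  have hS := (hK.image (hz.comp continuous_fst)).isClosed
  have hsub : Icc (z a) (z b) ⊆ (z ∘ Prod.fst) '' ((uIcc a b ×ˢ uIcc a' b') ∩
      {p : ℝ × ℝ | z p.1 = z p.2 ∧ g p.2 ≤ g p.1}) := by
    rw [← closure_Ioo h.lt.ne]
    refine closure_minimal (fun x hx => ?_) hS
    obtain ⟨σ, hσ, e⟩ := h.surj hz hx.1.le hx.2.le
    obtain ⟨σ', hσ', e'⟩ := h'.surj hz (l := x) (ea ▸ hx.1.le) (eb ▸ hx.2.le)
    exact ⟨(σ, σ'), ⟨⟨hσ, hσ'⟩, e.trans e'.symm,
      (H σ hσ σ' hσ' (e.trans e'.symm) fun c => h.gap hz hx.1 hx.2 (e ▸ hB c)).le⟩, e⟩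
  have wa : g a' ≤ g a := by
    obtain ⟨p, ⟨⟨c1, c2⟩, c3, c4⟩, c5⟩ := hsub (left_mem_Icc.2 h.lt.le)
    have d1 : p.1 = a := h.inj c1 left_mem_uIcc c5
    have d2 : p.2 = a' := h'.inj c2 left_mem_uIcc (by rw [← c3, d1, ea])
    rwa [d1, d2] at c4
  have wb : g b' ≤ g b := by
    obtain ⟨p, ⟨⟨c1, c2⟩, c3, c4⟩, c5⟩ := hsub (right_mem_Icc.2 h.lt.le)
    have d1 : p.1 = b := h.inj c1 right_mem_uIcc c5
    have d2 : p.2 = b' := h'.inj c2 right_mem_uIcc (by rw [← c3, d1, eb])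
    rwa [d1, d2] at c4
  have hs : g a' < g a ∨ g b' < g b := by
    by_cases c : z a ∈ Λ
    · by_cases c' : z b ∈ Λ
      · exact absurd (hm _ c _ c') (h.gap hz (by linarith [h.lt]) (by linarith [h.lt]))
      · exact Or.inr (H b right_mem_uIcc b' right_mem_uIcc eb.symm c')
    · exact Or.inl (H a left_mem_uIcc a' left_mem_uIcc ea.symm c)
  rw [ea, eb]
  set μ := (l - z a) / (z b - z a) with hμ
  have m0 : 0 < μ := div_pos (by linarith) (by linarith)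
  have m1 : μ < 1 := (div_lt_one (by linarith)).2 (by linarith)
  rcases hs with c | c
  · nlinarith [mul_pos (sub_pos.2 m1) (sub_pos.2 c), mul_nonneg m0.le (sub_nonneg.2 wb)]
  · nlinarith [mul_nonneg (sub_pos.2 m1).le (sub_nonneg.2 wa), mul_pos m0 (sub_pos.2 c)]

/-- The height is monotone between consecutive marked parameters. -/
theorem mono {P : Poly} {u : E} (hG : Gen P u) {x y : ℝ}
    (h : ∀ i : ℤ, x < i + 1 → (i : ℝ) + 1 < y → ¬ ⟪P.e i, u⟫ * ⟪P.e (i + 1), u⟫ < 0) :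
    StrictMonoOn (pl (co P u)) (Icc x y) ∨ StrictAntiOn (pl (co P u)) (Icc x y) := by
  have hc := pos_chain (g := fun i => ⟪P.e i, u⟫) (p := ⌊x⌋) (q := ⌈y⌉ - 1) (hG _) fun i h1 h2 => by
    have a1 : (⌊x⌋ : ℝ) ≤ i := by exact_mod_cast h1
    have a2 : i + 1 < ⌈y⌉ := by omega
    have a3 := Int.lt_ceil.1 a2
    push_cast at a3
    exact lt_of_le_of_ne (not_lt.1 (h i (by linarith [Int.lt_floor_add_one x]) a3))
      (mul_ne_zero (hG _) (hG _)).symm
  have hc' : ∀ υ ∈ Icc x y, ∀ τ ∈ Icc x y, ∀ i : ℤ, (i : ℝ) < τ → υ < i + 1 →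
      0 < ⟪P.e ⌊x⌋, u⟫ * (co P u (i + 1) - co P u i) := by
    intro υ hυ τ hτ i h1 h2
    have a1 : ⌊x⌋ < i + 1 := Int.floor_lt.2 (by push_cast; linarith [hυ.1])
    have a2 : i < ⌈y⌉ := Int.lt_ceil.2 (h1.trans_le hτ.2)
    have := hc i (by omega) (by omega)
    rwa [← df_co' P u i] at this
  rcases lt_or_gt_of_ne (hG ⌊x⌋) with c | c
  · refine Or.inr fun υ hυ τ hτ hlt => pl_gt _ hlt fun i h1 h2 => ?_
    have := neg_of_mul_pos_right (hc' υ hυ τ hτ i h1 h2) c.le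
    linarith
  · refine Or.inl fun υ hυ τ hτ hlt => pl_lt _ hlt fun i h1 h2 => ?_
    have := (mul_pos_iff_of_pos_left c).1 (hc' υ hυ τ hτ i h1 h2)
    linarith

/-- An arc in one of the two directions. -/
theorem arc_of {z : ℝ → ℝ} {B : Finset ℝ} {x y : ℝ} (hxy : x < y) (hx : z x ∈ B) (hy : z y ∈ B)
    (hm : ∀ σ ∈ Ioo x y, z σ ∉ B) (h : StrictMonoOn z (Icc x y) ∨ StrictAntiOn z (Icc x y)) :
    Arc z B x y ∨ Arc z B y x := by
  have l := left_mem_Icc.2 hxy.le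
  have r := right_mem_Icc.2 hxy.le
  rcases h with h | h
  · refine Or.inl ⟨h l r hxy, ?_, hx, hy, ?_, ?_⟩
    · rw [uIcc_of_le hxy.le]
      exact h.injOn
    · rwa [min_eq_left hxy.le, max_eq_right hxy.le]
    · rw [uIcc_of_le hxy.le]
      exact fun σ hσ => ⟨h.monotoneOn l hσ hσ.1, h.monotoneOn hσ r hσ.2⟩
  · refine Or.inr ⟨h l r hxy, ?_, hy, hx, ?_, ?_⟩
    · rw [uIcc_of_ge hxy.le]
      exact h.injOn
    · rwa [min_eq_right hxy.le, max_eq_left hxy.le]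
    · rw [uIcc_of_ge hxy.le]
      exact fun σ hσ => ⟨h.antitoneOn hσ r hσ.2, h.antitoneOn l hσ hσ.1⟩

end STRx

open STRx in
theorem s_STR (hF : S_FAM) (h1 : S_PLLIP) (h2 : S_PLEMB) (h3 : S_ENUM) (h4 : S_LEVC)
    (h5 : S_REPAR) : S_STR := by
  classical
  intro M L
  refine ⟨L * L * (2 * M + 1), fun P u Λ hG hM hL hE hH => ?_⟩
  set z : ℝ → ℝ := pl (co P u) with hzdef
  have hz : ∀ τ, z τ = ⟪P.γ τ, u⟫ := pl_co P u
  have hzc : Continuous z := continuous_pl _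
  have hzp : Function.Periodic z P.n := fun τ => by rw [hz, hz, P.γ_periodic τ]
  set B : Finset ℝ := Finset.image₂ (fun x y : ℝ => (x + y) / 2) Λ Λ with hBdef
  have hm : ∀ x ∈ Λ, ∀ y ∈ Λ, (x + y) / 2 ∈ B := fun x hx y hy => Finset.mem_image₂_of_mem hx hy
  have hB : Λ ⊆ B := fun x hx => by simpa using hm x hx x hx
  have hBc : B.card ≤ L * L := (Finset.card_image₂_le _ _ _).trans (Nat.mul_le_mul hL hL)
  set A : Set ℝ := {τ | z τ ∈ B} with hA
  have hAU : A ∩ Ico 0 (P.n : ℝ) = ⋃ l ∈ B, ({τ | ⟪P.γ τ, u⟫ = l} ∩ Ico 0 (P.n : ℝ)) := by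
    ext τ
    simp only [hA, hz, mem_inter_iff, mem_ofPred_eq, mem_iUnion, exists_prop]
    exact ⟨fun h => ⟨_, h.1, rfl, h.2⟩, fun ⟨l, a, b, c⟩ => ⟨b ▸ a, c⟩⟩
  have hAf : (A ∩ Ico 0 (P.n : ℝ)).Finite := by
    rw [hAU]
    exact B.finite_toSet.biUnion fun l _ => (h4 P u hG l).1
  have hAc : (A ∩ Ico 0 (P.n : ℝ)).ncard ≤ L * L * (2 * M + 1) := by
    rw [hAU]
    refine (Finset.set_ncard_biUnion_le _ _).trans ((Finset.sum_le_card_nsmul _ _ (2 * M + 1)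
      fun l _ => (h4 P u hG l).2.trans (by omega)).trans ?_)
    exact Nat.mul_le_mul_right _ hBc
  have hext : ∀ i : ℤ, ⟪P.e i, u⟫ * ⟪P.e (i + 1), u⟫ < 0 → (i : ℝ) + 1 ∈ A := by
    intro i hi
    have e : (i : ℝ) + 1 = ((i + 1 : ℤ) : ℝ) := by push_cast; ring
    show z _ ∈ B
    rw [hz, e, P.γ_int]
    exact hB (hE i hi)
  have hA0 : 0 < (A ∩ Ico 0 (P.n : ℝ)).ncard := by
    obtain ⟨i, hi⟩ := hG.exists_chg
    obtain ⟨k, a, b⟩ := exists_shift P.n_pos 0 ((i : ℝ) + 1)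
    refine (ncard_pos hAf).2 ⟨_, ?_, a, by simpa using b⟩
    show z _ ∈ B
    rw [hzp.int_mul k]
    exact hext i hi
  set N := (A ∩ Ico 0 (P.n : ℝ)).ncard with hN
  obtain ⟨c, hc, hcp, hcr⟩ := h3 A P.n N P.n_pos
    (fun τ => by simp only [hA, mem_ofPred_eq, hzp τ]) hAf rfl hA0
  have hcB : ∀ k, z (c k) ∈ B := fun k => show c k ∈ A from hcr ▸ mem_range_self k
  have hin : ∀ k, ∀ σ ∈ Ioo (c k) (c (k + 1)), z σ ∉ B := by
    intro k σ hσ hs
    obtain ⟨j, rfl⟩ : σ ∈ range c := hcr ▸ hs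
    have a := hc.lt_iff_lt.1 hσ.1
    have b := hc.lt_iff_lt.1 hσ.2
    omega
  have hmon : ∀ k, StrictMonoOn z (Icc (c k) (c (k + 1))) ∨
      StrictAntiOn z (Icc (c k) (c (k + 1))) := fun k =>
    mono hG fun i a b hi => hin k _ ⟨a, b⟩ (hext i hi)
  have harc : ∀ k, Arc z B (c k) (c (k + 1)) ∨ Arc z B (c (k + 1)) (c k) := fun k =>
    arc_of (hc (by omega)) (hcB k) (hcB _) (hin k) (hmon k)
  have hne : ∀ k, z (c (k + 1)) - z (c k) ≠ 0 := fun k => by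
    rcases harc k with a | a <;> linarith [a.lt]
  obtain ⟨θ, hθ, hθs, hθp, hθa, hcov, hθe⟩ := h5 z c P.n N P.n_pos hc hcp hzp (locAff_pl _) hmon
  set w : ℤ → E := fun k => P.γ (c k) with hw
  have hwp : ∀ k, w (k + N) = w k := fun k => by simp only [hw, hcp, P.γ_periodic (c k)]
  set η : ℝ → E := fun τ => pl w (θ τ) with hη
  have hηp : Function.Periodic η P.n := fun τ => by
    simp only [hη, hθp]
    exact pl_periodic hwp _
  have hθc : ∀ k, θ (c k) = k := fun k => by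
    rw [hθe k _ le_rfl (hc (by omega)).le, sub_self, zero_div, add_zero]
  have hηc : ∀ k, η (c k) = P.γ (c k) := fun k => by simp only [hη, hθc, pl_int, hw]
  have hηe : ∀ k τ, c k ≤ τ → τ ≤ c (k + 1) → η τ = P.γ (c k) +
      ((z τ - z (c k)) / (z (c (k + 1)) - z (c k))) • (P.γ (c (k + 1)) - P.γ (c k)) := by
    intro k τ a b
    have a1 := hθ.monotone a
    have b1 := hθ.monotone b
    rw [hθc] at a1 b1
    push_cast at b1
    show pl w (θ τ) = _
    rw [pl_eq w k a1 b1, hθe k τ a b, add_sub_cancel_left]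
  have hηu : ∀ τ, ⟪η τ, u⟫ = z τ := by
    intro τ
    obtain ⟨k, a, b⟩ := hcov τ
    rw [hηe k τ a b.le, inner_add_left, real_inner_smul_left, inner_sub_left, ← hz, ← hz,
      div_mul_cancel₀ _ (hne k)]
    ring
  have hdat : ∀ τ, z τ ∉ B → ∃ a b, Arc z B a b ∧ τ ∈ Ioo (min a b) (max a b) ∧ z a < z τ ∧
      z τ < z b ∧ η τ = P.γ a + ((z τ - z a) / (z b - z a)) • (P.γ b - P.γ a) := by
    intro τ hτ
    obtain ⟨k, a, b⟩ := hcov τ
    have hlt : c k < c (k + 1) := hc (by omega)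
    have aux : ∀ x y, Arc z B x y → τ ∈ uIcc x y → τ ∈ Ioo (min x y) (max x y) ∧ z x < z τ ∧
        z τ < z y := fun x y h hm =>
      ⟨mem_oo hm (fun e => hτ (e ▸ h.lo)) fun e => hτ (e ▸ h.hi),
        lt_of_le_of_ne (h.rg τ hm).1 fun e => hτ (e ▸ h.lo),
        lt_of_le_of_ne (h.rg τ hm).2 fun e => hτ (e ▸ h.hi)⟩
    rcases harc k with h | h
    · obtain ⟨e1, e2, e3⟩ := aux _ _ h (by rw [uIcc_of_le hlt.le]; exact ⟨a, b.le⟩)
      exact ⟨_, _, h, e1, e2, e3, hηe k τ a b.le⟩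
    · obtain ⟨e1, e2, e3⟩ := aux _ _ h (by rw [uIcc_of_ge hlt.le]; exact ⟨a, b.le⟩)
      refine ⟨_, _, h, e1, e2, e3, ?_⟩
      have e4 : (z τ - z (c (k + 1))) / (z (c k) - z (c (k + 1))) =
          1 - (z τ - z (c k)) / (z (c (k + 1)) - z (c k)) := by
        have a1 := hne k
        have a2 : z (c k) - z (c (k + 1)) ≠ 0 := by linarith [h.lt]
        field_simp
        ring
      rw [hηe k τ a b.le, e4]
      module
  have hinj : ∀ s ∈ Icc (0 : ℝ) 1, InjMod (fun t => P.γ t + s • (η t - P.γ t)) P.n := by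
    intro s hs τ τ' he
    have he' : P.γ τ + s • (η τ - P.γ τ) = P.γ τ' + s • (η τ' - P.γ τ') := he
    have hzz : z τ = z τ' := by
      have := congrArg (fun v => ⟪v, u⟫) he'
      simpa only [inner_add_left, real_inner_smul_left, inner_sub_left, hηu, ← hz, sub_self,
        mul_zero, add_zero] using this
    by_cases hγ : P.γ τ = P.γ τ'
    · exact P.injMod _ _ hγ
    exfalso
    by_cases hb : z τ ∈ B
    · obtain ⟨k, rfl⟩ : τ ∈ range c := hcr ▸ hb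
      obtain ⟨l, rfl⟩ : τ' ∈ range c := hcr ▸ (show z τ' ∈ B from hzz ▸ hb)
      rw [hηc, hηc, sub_self, sub_self, smul_zero, add_zero, add_zero] at he'
      exact hγ he'
    obtain ⟨a, b, ha, a1, a2, a3, a4⟩ := hdat τ hb
    obtain ⟨a', b', ha', b1, b2, b3, b4⟩ := hdat τ' (hzz ▸ hb)
    obtain ⟨v, hv⟩ := hH _ _ _ _ τ τ' a1 b1 (by rw [← hz, ← hz, hzz]) hγ
      (fun σ hσ hs => ha.mid σ hσ (hB (hz σ ▸ hs))) fun σ hσ hs => ha'.mid σ hσ (hB (hz σ ▸ hs))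
    have k1 := hv τ (Ioo_subset_Icc_self a1) τ' (Ioo_subset_Icc_self b1) (by rw [← hz, ← hz, hzz])
      fun hs => hb (hB (hz τ ▸ hs))
    have k2 := key (g := fun σ => ⟪P.γ σ, v⟫) hzc (P.continuous_γ.inner continuous_const) hB hm
      ha ha' a2 a3 (hzz ▸ b2) (hzz ▸ b3)
      fun σ hσ σ' hσ' e hs => hv σ hσ σ' hσ' (by rw [← hz, ← hz, e]) (hz σ ▸ hs)
    have k3 : ⟪η τ', v⟫ < ⟪η τ, v⟫ := by
      rw [a4, b4, ← hzz]
      simpa only [inner_add_left, real_inner_smul_left, inner_sub_left] using k2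
    have k4 := congrArg (fun x => ⟪x, v⟫) he'
    simp only [inner_add_left, real_inner_smul_left, inner_sub_left] at k4
    rcases hs.1.lt_or_eq with s0 | s0
    · nlinarith [mul_pos s0 (sub_pos.2 k3), mul_nonneg (sub_nonneg.2 hs.2) (sub_pos.2 k1).le]
    · rw [← s0] at k4
      linarith
  have hiso : Iso (range P.γ) (range η) := by
    have hl : LocAff fun t => η t - P.γ t := by
      have := locAff_comb (hθa w) P.locAff_γ 1 (-1)
      simpa only [one_smul, neg_smul, ← sub_eq_add_neg] using this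
    obtain ⟨K, hK⟩ := h1 _ P.n P.n_pos (fun τ => by simp only [hηp τ, P.γ_periodic τ]) hl
    refine hF P.γ η P.n K P.n_pos P.γ_periodic hηp hK fun s hs => h2 _ _ P.n_pos
      (fun τ => by simp only [hηp τ, P.γ_periodic τ]) ?_ (hinj s hs)
    simpa only [one_smul] using locAff_comb P.locAff_γ hl 1 s
  have hQ : InjMod (pl w) N := by
    intro s t he
    obtain ⟨τ, rfl⟩ := hθs s
    obtain ⟨τ', rfl⟩ := hθs t
    obtain ⟨k, rfl⟩ := hinj 1 ⟨zero_le_one, le_rfl⟩ τ τ' (by simpa using he)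
    have hp : Function.Periodic (fun x => θ x * P.n - x * N) P.n := fun x => by
      simp only [hθp]
      ring
    have := hp.int_mul k τ
    refine ⟨k, mul_right_cancel₀ P.n_pos.ne' ?_⟩
    linarith
  refine ⟨mkPoly N hA0 w hwp hQ, hAc, ?_⟩
  rw [← P.range_γ, ← Poly.range_γ]
  have e : range η = range (pl w) := hθs.range_comp (pl w)
  rw [e] at hiso
  exact hiso

end Pool.Agent.P.MP_28369d_gt.SB
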