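import Pool.Agent.P.MP_28369d_gt.SB.Tools

namespace Pool.Agent.P.MP_28369d_gt.SB

open Set Filter Topology
open scoped RealInnerProductSpace

namespace TCNx

/-- Consecutive monotone runs with alternating directions. -/
structure Runs (lo hi : ℤ) (θ : ℤ → ℝ) (η : ℝ) (t : ℕ → ℤ) (s : ℕ) : Prop where
  sg : η = 1 ∨ η = -1
  bd : ∀ j ≤ s + 1, lo ≤ t j ∧ t j < hi
  lt : ∀ j ≤ s, t j < t (j + 1)
  mono : ∀ j ≤ s, Mono (η * (-1) ^ j) θ (t j) (t (j + 1))

/-- Run `j + 1` is not longer than run `j`. -/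
def Dn (θ : ℤ → ℝ) (η : ℝ) (t : ℕ → ℤ) (j : ℕ) : Prop :=
  η * (-1) ^ j * θ (t j) ≤ η * (-1) ^ j * θ (t (j + 2))

/-- The angle `τ` is interior to the range of run `j`. -/
def In (θ : ℤ → ℝ) (η : ℝ) (t : ℕ → ℤ) (τ : ℝ) (j : ℕ) : Prop :=
  η * (-1) ^ j * θ (t j) < η * (-1) ^ j * τ ∧ η * (-1) ^ j * τ < η * (-1) ^ j * θ (t (j + 1))

variable {M : ℕ} {lo hi : ℤ} {θ ρ x y : ℤ → ℝ} {η : ℝ} {t : ℕ → ℤ} {s : ℕ}

theorem sgn (h : η = 1 ∨ η = -1) (j : ℕ) : η * (-1) ^ j = 1 ∨ η * (-1) ^ j = -1 := by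
  rcases h with rfl | rfl <;> rcases neg_one_pow_eq_or ℝ j with e | e <;> rw [e] <;> norm_num

theorem sg_succ (η : ℝ) (j : ℕ) : η * (-1) ^ (j + 1) = -(η * (-1) ^ j) := by ring

theorem sg_two (η : ℝ) (j : ℕ) : η * (-1) ^ (j + 2) = η * (-1) ^ j := by ring

theorem mono_lt {ε : ℝ} {p q : ℤ} (h : Mono ε θ p q) (hpq : p < q) : ε * θ p < ε * θ q := by
  have key : ∀ i, p + 1 ≤ i → i ≤ q → ε * θ p < ε * θ i := by
    intro i hi
    induction i, hi using Int.leInduction with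
    | base =>
      intro _
      have := h p le_rfl hpq
      linarith
    | succ i hi ih =>
      intro hq
      have h1 := ih (by omega)
      have h2 := h i (by omega) (by omega)
      linarith
  exact key q (by omega) le_rfl

theorem mem_u {ε a b τ : ℝ} (h : ε = 1 ∨ ε = -1) (h1 : ε * a ≤ ε * τ) (h2 : ε * τ ≤ ε * b) :
    τ ∈ uIcc a b := by
  rw [mem_uIcc]
  rcases h with rfl | rfl
  · left
    constructor <;> linarith
  · right
    constructor <;> linarith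

theorem Runs.shift (h : Runs lo hi θ η t s) (a s' : ℕ) (hs : a + s' ≤ s) :
    Runs lo hi θ (η * (-1) ^ a) (fun j => t (a + j)) s' where
  sg := sgn h.sg a
  bd j hj := h.bd _ (by omega)
  lt j hj := h.lt _ (by omega)
  mono j hj := by
    rw [mul_assoc, ← pow_add]
    exact h.mono _ (by omega)

theorem dn_succ (hR : S_RUNF) (hA : S_ADJ) (hC : AC M lo hi θ ρ x y) (h : Runs lo hi θ η t s)
    {j : ℕ} (hj : j + 2 ≤ s) (hd : Dn θ η t j) : Dn θ η t (j + 1) := by
  by_contra hn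
  have hε := sgn h.sg j
  have m0 := h.mono j (by omega)
  have m1 := h.mono (j + 1) (by omega)
  have m2 := h.mono (j + 2) (by omega)
  unfold Dn at hd hn
  rw [sg_succ] at m1 hn
  rw [sg_two] at m2
  have l0 := mono_lt m0 (h.lt j (by omega))
  have l1 := mono_lt m1 (h.lt (j + 1) (by omega))
  have hu : η * (-1) ^ j * θ (t (j + 1)) ≤ η * (-1) ^ j * θ (t (j + 3)) := by
    have := not_le.1 hn
    linarith
  obtain ⟨-, -, -, e0⟩ := hR M lo hi θ ρ x y hC _ _ _ hε (h.bd j (by omega)).1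
    (h.lt j (by omega)) (h.bd (j + 1) (by omega)).2 m0
  obtain ⟨-, -, -, e2⟩ := hR M lo hi θ ρ x y hC _ _ _ hε (h.bd (j + 2) (by omega)).1
    (h.lt (j + 2) (by omega)) (h.bd (j + 3) (by omega)).2 m2
  obtain ⟨k, k1, k2, k3⟩ := e0 (θ (t (j + 1))) right_mem_uIcc
  obtain ⟨k', k1', k2', k3'⟩ := e2 (θ (t (j + 1))) (mem_u hε (by linarith) hu)
  have h3 := (hA M lo hi θ ρ x y hC _ hε).2 _ _ _ _ k k' _ (h.bd j (by omega)).1
    (h.bd (j + 3) (by omega)).2 (h.lt (j + 1) (by omega)) m0 m1 m2 k1 k2 k1' k2' k3 k3'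
  linarith [h3.1 hd, h3.2 hu]

theorem core (hR : S_RUNF) (hA : S_ADJ) (hZ : S_ZIG) (hC : AC M lo hi θ ρ x y)
    (h : Runs lo hi θ η t s) {τ : ℝ} (hτ : ∀ j ≤ s, In θ η t τ j)
    (hd : (∀ j, j + 1 ≤ s → Dn θ η t j) ∨ ∀ j, j + 1 ≤ s → ¬ Dn θ η t j) : s + 1 < 2 * M := by
  by_contra hn
  have hex : ∀ j : ℕ, ∃ k, j ≤ s → t j < k ∧ k ≤ t (j + 1) ∧ Ev θ k τ := by
    intro j
    by_cases hj : j ≤ s
    · obtain ⟨-, -, -, e⟩ := hR M lo hi θ ρ x y hC _ _ _ (sgn h.sg j) (h.bd j (by omega)).1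
        (h.lt j hj) (h.bd (j + 1) (by omega)).2 (h.mono j hj)
      obtain ⟨k, hk⟩ := e τ (mem_u (sgn h.sg j) (hτ j hj).1.le (hτ j hj).2.le)
      exact ⟨k, fun _ => hk⟩
    · exact ⟨0, fun h' => absurd h' hj⟩
  choose k hk using hex
  have h2 : ∀ j, j + 2 ≤ s → (Dn θ η t j →
      0 < η * (-1) ^ j * (hv x y τ (k (j + 2)) - hv x y τ (k j))) ∧ (¬ Dn θ η t (j + 1) →
      η * (-1) ^ j * (hv x y τ (k (j + 2)) - hv x y τ (k j)) < 0) := by
    intro j hj
    have m1 := h.mono (j + 1) (by omega)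
    have m2 := h.mono (j + 2) (by omega)
    rw [sg_succ] at m1
    rw [sg_two] at m2
    obtain ⟨a1, a2, a3⟩ := hk j (by omega)
    obtain ⟨b1, b2, b3⟩ := hk (j + 2) hj
    have h3 := (hA M lo hi θ ρ x y hC _ (sgn h.sg j)).2 _ _ _ _ _ _ _ (h.bd j (by omega)).1
      (h.bd (j + 3) (by omega)).2 (h.lt (j + 1) (by omega)) (h.mono j (by omega)) m1 m2
      a1 a2 b1 b2 a3 b3
    refine ⟨h3.1, fun hn' => h3.2 ?_⟩
    unfold Dn at hn'
    rw [sg_succ] at hn'
    have := not_le.1 hn'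
    linarith
  obtain ⟨c, hc⟩ := hZ (fun j => hv x y τ (k j)) η s h.sg (fun j hj => by
    have m1 := h.mono (j + 1) hj
    rw [sg_succ] at m1
    obtain ⟨a1, a2, a3⟩ := hk j (by omega)
    obtain ⟨b1, b2, b3⟩ := hk (j + 1) hj
    refine (hA M lo hi θ ρ x y hC _ (sgn h.sg j)).1 _ _ _ _ _ _ (h.bd j (by omega)).1
      (h.bd (j + 2) (by omega)).2 (h.mono j (by omega)) m1 a1 a2 b1 b2 a3 b3 fun e => ?_
    have h3 := (hτ j (by omega)).2
    rw [e] at h3
    exact lt_irrefl _ h3)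
    (hd.imp (fun hd j hj => (h2 j hj).1 (hd j (by omega)))
      fun hd j hj => (h2 j hj).2 (hd (j + 1) hj))
  refine hC.cr τ c η k h.sg (fun j hj => ?_) (fun j hj => ?_) fun j hj => hc j (by omega)
  · exact (hk j (by omega)).2.1.trans_lt (hk (j + 1) (by omega)).1
  · have a := hk j (by omega)
    have b := h.bd j (by omega)
    have b' := h.bd (j + 1) (by omega)
    omega

theorem in_mid (h : Runs lo hi θ η t s) {j : ℕ} (hj : j ≤ s) :
    In θ η t ((θ (t j) + θ (t (j + 1))) / 2) j := by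
  have l := mono_lt (h.mono j hj) (h.lt j hj)
  constructor <;> linarith

theorem dec (hR : S_RUNF) (hA : S_ADJ) (hZ : S_ZIG) (hC : AC M lo hi θ ρ x y)
    (h : Runs lo hi θ η t s) (hd : ∀ j, j + 1 ≤ s → Dn θ η t j) : s + 1 < 2 * M := by
  refine core hR hA hZ hC h (τ := (θ (t s) + θ (t (s + 1))) / 2) (fun j hj => ?_) (Or.inl hd)
  induction hj using Nat.decreasingInduction with
  | self => exact in_mid h le_rfl
  | of_succ j hj ih =>
    have h1 := hd j hj
    unfold In at ih ⊢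
    unfold Dn at h1
    rw [sg_succ] at ih
    constructor <;> linarith [ih.1, ih.2]

theorem inc (hR : S_RUNF) (hA : S_ADJ) (hZ : S_ZIG) (hC : AC M lo hi θ ρ x y)
    (h : Runs lo hi θ η t s) (hd : ∀ j, j + 1 ≤ s → ¬ Dn θ η t j) : s + 1 < 2 * M := by
  refine core hR hA hZ hC h (τ := (θ (t 0) + θ (t 1)) / 2) (fun j hj => ?_) (Or.inr hd)
  induction j with
  | zero => exact in_mid h hj
  | succ j ih =>
    have h1 := hd j hj
    have h2 := ih (by omega)
    unfold In at h2 ⊢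
    unfold Dn at h1
    rw [sg_succ]
    constructor <;> linarith [h2.1, h2.2, not_le.1 h1]

theorem no_runs (hR : S_RUNF) (hA : S_ADJ) (hZ : S_ZIG) (hC : AC M lo hi θ ρ x y)
    (h : Runs lo hi θ η t (4 * M + 1)) : False := by
  have hup : ∀ a b, a ≤ b → b + 1 ≤ 4 * M + 1 → Dn θ η t a → Dn θ η t b := by
    intro a b hab
    induction b, hab using Nat.le_induction with
    | base => exact fun _ h => h
    | succ b _ ih => exact fun hb hd => dn_succ hR hA hC h hb (ih (by omega) hd)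
  by_cases hd : Dn θ η t (2 * M)
  · have h1 := dec hR hA hZ hC (h.shift (2 * M) (2 * M) (by omega)) fun j hj => by
      have h2 := hup (2 * M) (2 * M + j) (by omega) (by omega) hd
      unfold Dn at h2 ⊢
      rw [mul_assoc η, ← pow_add]
      exact h2
    omega
  · have h0 : Runs lo hi θ η t (2 * M) :=
      ⟨h.sg, fun j hj => h.bd j (by omega), fun j hj => h.lt j (by omega),
        fun j hj => h.mono j (by omega)⟩
    have h1 := inc hR hA hZ hC h0 fun j hj hj' => hd (hup j (2 * M) (by omega) (by omega) hj')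
    omega

theorem enum {A : Set ℤ} (hA : A.Finite) {n : ℕ} (hn : n < A.ncard) : ∃ t : ℕ → ℤ,
    (∀ j ≤ n, t j ∈ A) ∧ ∀ j < n, t j < t (j + 1) ∧ ∀ k, t j < k → k < t (j + 1) → k ∉ A := by
  rw [ncard_eq_toFinset_card _ hA] at hn
  set e := hA.toFinset.orderEmbOfFin rfl with he
  refine ⟨fun j => if h : j < hA.toFinset.card then e ⟨j, h⟩ else 0, fun j hj => ?_,
    fun j hj => ?_⟩
  · simp only [dif_pos (show j < hA.toFinset.card by omega)]
    exact hA.mem_toFinset.1 (Finset.orderEmbOfFin_mem _ _ _)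
  · simp only [dif_pos (show j < hA.toFinset.card by omega),
      dif_pos (show j + 1 < hA.toFinset.card by omega)]
    refine ⟨e.lt_iff_lt.2 (Nat.lt_succ_self j), fun k h1 h2 hk => ?_⟩
    have h3 : k ∈ range e := by
      rw [he, Finset.range_orderEmbOfFin]
      exact hA.mem_toFinset.2 hk
    obtain ⟨i, rfl⟩ := h3
    have a : j < i.1 := e.lt_iff_lt.1 h1
    have b : i.1 < j + 1 := e.lt_iff_lt.1 h2
    omega

theorem sg_mul {ε a b : ℝ} (h : 0 < ε * a) (h' : 0 < a * b) : 0 < ε * b := by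
  by_contra hn
  have h1 := mul_pos h h'
  have h2 : ε * a * (a * b) = ε * b * (a * a) := by ring
  nlinarith [mul_self_nonneg a, not_lt.1 hn]

end TCNx

open TCNx in
theorem s_TCN (hR : S_RUNF) (hA : S_ADJ) (hZ : S_ZIG) : S_TCN := by
  intro M
  refine ⟨4 * M + 2, fun lo hi θ ρ x y hC => not_lt.1 fun hn => ?_⟩
  obtain ⟨t, h1, h2⟩ := enum (fin_cnt _ _ _) hn
  have hne : ∀ k, lo ≤ k → k + 1 < hi → θ (k + 1) - θ k ≠ 0 := fun k a b =>
    sub_ne_zero.2 (hC.step k a b).1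
  have hb : ∀ j ≤ 4 * M + 2, lo + 1 ≤ t j ∧ t j ≤ hi - 2 := fun j hj =>
    ⟨(h1 j hj).1, (h1 j hj).2.1⟩
  have hrun : ∀ (ε : ℝ) (j : ℕ), j < 4 * M + 2 → 0 < ε * (θ (t j + 1) - θ (t j)) →
      Mono ε θ (t j) (t (j + 1)) := by
    intro ε j hj hε k k1 k2
    have b0 := hb j (by omega)
    have b1 := hb (j + 1) (by omega)
    refine sg_mul hε (pos_chain (g := fun i => θ (i + 1) - θ i) (q := t (j + 1) - 1)
      (hne _ (by omega) (by omega)) (fun i i1 i2 => ?_) k k1 (by omega))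
    have h3 := (h2 j hj).2 (i + 1) (by omega) (by omega)
    have h4 : ¬ (θ (i + 1) - θ (i + 1 - 1)) * (θ (i + 1 + 1) - θ (i + 1)) < 0 := fun h =>
      h3 ⟨by omega, by omega, h⟩
    rw [add_sub_cancel_right] at h4
    exact (not_lt.1 h4).lt_of_ne
      (mul_ne_zero (hne i (by omega) (by omega)) (hne (i + 1) (by omega) (by omega))).symm
  obtain ⟨η, hη, h0⟩ : ∃ η : ℝ, (η = 1 ∨ η = -1) ∧ 0 < η * (θ (t 0 + 1) - θ (t 0)) := by
    have b0 := hb 0 (by omega)
    rcases lt_or_gt_of_ne (hne (t 0) (by omega) (by omega)) with h | h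
    · exact ⟨-1, Or.inr rfl, by linarith⟩
    · exact ⟨1, Or.inl rfl, by linarith⟩
  have hs : ∀ j ≤ 4 * M + 2, 0 < η * (-1) ^ j * (θ (t j + 1) - θ (t j)) := by
    intro j
    induction j with
    | zero => exact fun _ => by simpa using h0
    | succ j ih =>
      intro hj
      have h3 := hrun _ j (by omega) (ih (by omega)) (t (j + 1) - 1)
        (by have := (h2 j (by omega)).1; omega) (by omega)
      rw [sub_add_cancel] at h3
      have h4 : (θ (t (j + 1)) - θ (t (j + 1) - 1)) * (θ (t (j + 1) + 1) - θ (t (j + 1))) < 0 :=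
        (h1 (j + 1) hj).2.2
      have h5 := sg_mul h3 (b := -(θ (t (j + 1) + 1) - θ (t (j + 1)))) (by linarith)
      rw [sg_succ]
      linarith
  refine no_runs hR hA hZ hC (η := η) (t := t) ⟨hη, fun j hj => ?_,
    fun j hj => (h2 j (by omega)).1, fun j hj => hrun _ j (by omega) (hs j (by omega))⟩
  have := hb j hj
  omega

end Pool.Agent.P.MP_28369d_gt.SB
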