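import Pool.Agent.P.MP_28369d_gt.SB.Top
import Pool.Agent.P.MP_28369d_gt.SB.TGP
import Pool.Agent.P.MP_28369d_gt.SB.TCOORD
import Pool.Agent.P.MP_28369d_gt.SB.TBRK
import Pool.Agent.P.MP_28369d_gt.SB.TPAIR
import Pool.Agent.P.MP_28369d_gt.SB.TLEV
import Pool.Agent.P.MP_28369d_gt.SB.TSTR
import Pool.Agent.P.MP_28369d_gt.SB.TPERT
import Pool.Agent.P.MP_28369d_gt.SB.TLOC
import Pool.Agent.P.MP_28369d_gt.SB.TEMB
import Pool.Agent.P.MP_28369d_gt.SB.TANG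
import Pool.Agent.P.MP_28369d_gt.SB.TTCN
import Pool.Agent.P.MP_28369d_gt.SB.TSPI
import Pool.Agent.P.MP_28369d_gt.SB.TNOBI
import Pool.Agent.P.MP_28369d_gt.SB.TRUNF
import Pool.Agent.P.MP_28369d_gt.SB.TADJ
import Pool.Agent.P.MP_28369d_gt.SB.TSAND
import Pool.Agent.P.MP_28369d_gt.SB.TALT
import Pool.Agent.P.MP_28369d_gt.SB.TORD
import Pool.Agent.P.MP_28369d_gt.SB.TPL
import Pool.Agent.P.MP_28369d_gt.SB.TENUM
import Pool.Agent.P.MP_28369d_gt.SB.TREPAR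

/-!
The geometric theorem without hypotheses.
-/

namespace Pool.Agent.P.MP_28369d_gt.SB

theorem p_PERT : S_PERT := s_PERT s_LOC s_PLEMB

theorem p_CUT : S_CUT :=
  s_CUT (s_BRK (s_ANG s_NOBI) (s_TCN s_RUNF (s_ADJ s_RUNF) s_ZIG) (s_SPI s_RUNF s_ZIG))

theorem p_ACORE : S_ACORE :=
  acore (s_GP p_PERT) s_COORD p_CUT (s_PAIR (s_SAND s_ALT (s_ORD s_NOBI))) (s_LEV s_PL)
    (s_STR s_FAM s_PLLIP s_PLEMB s_ENUM s_LEVC s_REPAR)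

end Pool.Agent.P.MP_28369d_gt.SB
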