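import Pool.Agent.P.MP_28369d_gt.SB.Tools

/-!
Lower bounds from local systems: three maxima, bounded determinant, reflections.
-/

namespace Pool.Agent.P.MP_28369d_gt.SB

open Set Filter Topology
open scoped RealInnerProductSpace

namespace BR3x

variable {G : Type} [Group G] {ω : E → E → G}

theorem com (hG : S_GD) (hW : S_WIRT) {K : Set E} {Q : Poly} {d : E} (hd : d ≠ 0) {δ : ℝ}
    (hδ : 0 < δ) (hi : Iso K Q.carrier) (hl : LocSys ω Kᶜ) :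
    ∃ (Q' : Poly) (h : E ≃ₜ E) (μ : ℝ → G) (X : Set ℝ), Q'.n = Q.n ∧ h '' K = Q'.carrier ∧
      (∀ i, ‖Q'.v i - Q.v i‖ ≤ δ) ∧ Wirt Q' d (push h ω) μ X ∧
      Red ω Kᶜ (Subgroup.closure (range μ)) := by
  obtain ⟨Q', h1, h2, h3, h4⟩ := hG Q d hd δ hδ
  obtain ⟨h, hh⟩ := (hi.trans h2).homeo
  obtain ⟨μ, X, hw⟩ := hW G (push h ω) Q' d h3 (by rw [← hh, compl_push]; exact hl.push h)
  exact ⟨Q', h, μ, X, h1, hh, h4, hw, Red.of_push h (by rw [← compl_push, hh]; exact hw.red)⟩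

theorem exc {Q : Poly} {d : E} {μ : ℝ → G} {X : Set ℝ} (hw : Wirt Q d ω μ X) :
    ∃ Y : Set E, Y.Finite ∧ ∀ τ, Q.γ τ ∉ Y → IsMer ω Q.carrier (Q.γ τ) (μ τ) := by
  refine ⟨Q.γ '' X ∪ range Q.v, (hw.fin.image _).union (finite_range_of_per Q.pos Q.per),
    fun τ h => hw.mer τ (fun i e => h (Or.inr ⟨i, ?_⟩)) fun k e => h (Or.inl ⟨_, e, ?_⟩)⟩
  · rw [e, Q.γ_int]
  · exact Q.γ_per τ k

theorem sq {Q : Poly} {d : E} {μ : ℝ → G} {X : Set ℝ} (hw : Wirt Q d ω μ X)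
    (h2 : Loc2 ω Q.carrier) (τ : ℝ) : μ τ * μ τ = 1 := by
  obtain ⟨Y, hY, hm⟩ := exc hw
  obtain ⟨Y', hY', h2⟩ := h2
  have hc : (Q.γ ⁻¹' (Y ∪ Y')).Countable := by
    rw [← biUnion_preimage_singleton]
    refine (hY.union hY').countable.biUnion fun y _ => ?_
    rcases (Q.γ ⁻¹' {y}).eq_empty_or_nonempty with e | ⟨s, hs⟩
    · rw [e]; exact countable_empty
    · refine (countable_range fun k : ℤ => s + k * (Q.n : ℝ)).mono fun t ht => ?_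
      obtain ⟨k, hk⟩ := Q.injMod s t (hs.trans ht.symm)
      exact ⟨k, hk.symm⟩
  obtain ⟨b, hb, hsub⟩ := mem_nhdsGT_iff_exists_Ioo_subset.1 (hw.rc τ)
  obtain ⟨t, ht, ht'⟩ := (hc.dense_compl ℝ).exists_mem_open isOpen_Ioo (nonempty_Ioo.2 hb)
  obtain ⟨N, hN, a, ha, hr⟩ := h2 _ (Q.γ_mem t) fun h => ht (Or.inr h)
  obtain ⟨g, k, hk⟩ := (hm t fun h => ht (Or.inl h)).2 N hN _ hr
  have e : μ t = μ τ := hsub ht'
  have e1 : a ^ k * a ^ k = 1 := by rw [← (Commute.refl a).mul_zpow, ha, one_zpow]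
  have e2 : a ^ k = g * μ τ * g⁻¹ := e ▸ hk
  rw [e2, conj_mul, mul_inv_eq_one, mul_eq_left] at e1
  exact e1

theorem orth (u : E) : ∃ d : E, d ≠ 0 ∧ ⟪d, u⟫ = 0 := by
  by_cases h : u 0 = 0
  · exact ⟨pt 1 0 0, fun e => by simpa using congrArg (· 0) e, by simp [inner3, h]⟩
  · refine ⟨pt (-u 1) (u 0) 0, fun e => h (by simpa using congrArg (· 1) e), ?_⟩
    simp only [inner3, pt_0, pt_1, pt_2]
    ring

theorem small {Q : Poly} {u : E} (hu : Gen Q u) : ∃ δ > (0 : ℝ), ∀ Q' : Poly,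
    (∀ i, ‖Q'.v i - Q.v i‖ ≤ δ) → ∀ i, 0 < ⟪Q'.e i, u⟫ * ⟪Q.e i, u⟫ := by
  obtain ⟨_, ⟨j, rfl⟩, hj⟩ := exists_min_image (range fun i => |⟪Q.e i, u⟫|) id
    (finite_range_of_per Q.pos fun i => by rw [Q.inner_per]) (range_nonempty _)
  have h0 : 0 < |⟪Q.e j, u⟫| := abs_pos.2 (hu j)
  have hn := norm_nonneg u
  refine ⟨|⟪Q.e j, u⟫| / (2 * ‖u‖ + 1), by positivity, fun Q' h i => ?_⟩
  have h1 : |⟪Q.e j, u⟫| ≤ |⟪Q.e i, u⟫| := hj _ ⟨i, rfl⟩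
  have h2 : ‖Q'.e i - Q.e i‖ ≤ 2 * (|⟪Q.e j, u⟫| / (2 * ‖u‖ + 1)) := by
    rw [Poly.e, Poly.e, sub_sub_sub_comm]
    linarith [norm_sub_le (Q'.v (i + 1) - Q.v (i + 1)) (Q'.v i - Q.v i), h i, h (i + 1)]
  have h3 := (abs_real_inner_le_norm _ u).trans (mul_le_mul_of_nonneg_right h2 hn)
  have h4 : |⟪Q.e j, u⟫| / (2 * ‖u‖ + 1) * (2 * ‖u‖ + 1) = |⟪Q.e j, u⟫| :=
    div_mul_cancel₀ _ (by positivity)
  have h5 : 0 < |⟪Q.e j, u⟫| / (2 * ‖u‖ + 1) := by positivity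
  have h6 : |⟪Q'.e i, u⟫ - ⟪Q.e i, u⟫| < |⟪Q.e i, u⟫| := by
    rw [← inner_sub_left]
    linarith
  rw [← sq_lt_sq] at h6
  nlinarith [sq_nonneg ⟪Q'.e i, u⟫]

theorem two {S : Set ℤ} (hS : S.Finite) (h : S.ncard ≤ 2) : ∃ a b, S ⊆ {a, b} := by
  obtain h | h | h : S.ncard = 0 ∨ S.ncard = 1 ∨ S.ncard = 2 := by omega
  · exact ⟨0, 0, by simp [(ncard_eq_zero hS).1 h]⟩
  · obtain ⟨a, rfl⟩ := ncard_eq_one.1 h
    exact ⟨a, a, by simp⟩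
  · obtain ⟨a, b, -, rfl⟩ := ncard_eq_two.1 h
    exact ⟨a, b, Subset.rfl⟩

theorem refl (hM : S_MAXG) (hR : S_GRP) {m : ℕ} {ω : E → E → DihedralGroup m} {Q : Poly} {d : E}
    {μ : ℝ → DihedralGroup m} {X : Set ℝ} (hw : Wirt Q d ω μ X)
    (ht : Subgroup.closure (range μ) = ⊤) (τ : ℝ) : ∃ i, μ τ = .sr i := by
  refine hR.2.2.2.1 m _ ht ?_ _ (mem_range_self τ)
  rintro _ ⟨a, rfl⟩ _ ⟨b, rfl⟩
  exact (hM _ ω Q d 0 μ X hw).1 a b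

theorem ne : pt 1 0 0 ≠ 0 := fun e => by simpa using congrArg (· 0) e

end BR3x

theorem s_BR3 (hG : S_GD) (hW : S_WIRT) (hM : S_MAXG) (hR : S_GRP) : S_BR3 := by
  intro G _ ω K hl h2 hH Q u hi hu
  by_contra hc
  obtain ⟨d, hd, hdu⟩ := BR3x.orth u
  obtain ⟨δ, hδ, hs⟩ := BR3x.small hu
  obtain ⟨Q', h, μ, X, hn, hh, hv, hw, hr⟩ := BR3x.com hG hW hd hδ hi hl
  have hp := hs Q' hv
  have hu' : Gen Q' u := fun i => left_ne_zero_of_mul (hp i).ne'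
  have hm : Q'.nmax u ≤ 2 := by
    have : Q'.nmax u = Q.nmax u := by
      rw [Poly.nmax, Poly.nmax, hn]
      exact mx_congr_mul hp
    omega
  rw [Poly.nmax, mx_of_ne hu'] at hm
  obtain ⟨a, b, hab⟩ := BR3x.two (fin_win _ _) hm
  have hsq := BR3x.sq hw (hh ▸ h2.push h)
  have hmem := (hM G _ Q' d u μ X hw).2 hu' hdu (Subgroup.closure {μ (a + 1), μ (b + 1)}) (by
    intro i h1 h2
    have hn' : (0 : ℤ) < Q'.n := by exact_mod_cast Q'.pos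
    obtain ⟨j, k, j0, j1, rfl⟩ : ∃ j k : ℤ, 0 ≤ j ∧ j < Q'.n ∧ i = j + k * Q'.n :=
      ⟨i % Q'.n, i / Q'.n, Int.emod_nonneg _ hn'.ne', Int.emod_lt_of_pos _ hn',
        (Int.emod_add_ediv_mul i _).symm⟩
    rw [per_zmul Q'.e_per] at h1
    rw [add_right_comm, per_zmul Q'.e_per] at h2
    push_cast
    rw [add_right_comm, hw.per]
    refine Subgroup.subset_closure ?_
    rcases hab ⟨j0, j1, h1, h2⟩ with rfl | rfl
    · exact Or.inl rfl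
    · exact Or.inr rfl)
  obtain ⟨x, hx, y, hy, hxy⟩ := hH _ (hr.le ((Subgroup.closure_le _).2 (range_subset_iff.2 hmem)))
  exact hxy (hR.1 G _ _ (hsq _) (hsq _) x hx y hy)

theorem s_DETB (hG : S_GD) (hW : S_WIRT) (hM : S_MAXG) (hD : S_DET) (hR : S_GRP) : S_DETB := by
  intro N
  obtain ⟨C, hC⟩ := hD N
  refine ⟨C, fun m K Q ω hm hN hi hl hH => ?_⟩
  obtain ⟨Q', h, μ, X, hn, -, -, hw, hr⟩ := BR3x.com hG hW BR3x.ne one_pos hi hl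
  exact hC m Q' _ _ μ X hm (hn ▸ hN) hw (hH _ hr) (BR3x.refl hM hR hw (hH _ hr))

theorem s_REFL (hG : S_GD) (hW : S_WIRT) (hM : S_MAXG) (hR : S_GRP) : S_REFL := by
  intro m P ω hl hH
  obtain ⟨Q', h, μ, X, -, hh, -, hw, hr⟩ := BR3x.com hG hW BR3x.ne one_pos (Iso.refl _) hl
  obtain ⟨Y, hY, hm⟩ := BR3x.exc hw
  refine ⟨h.symm '' Y, hY.image _, fun x hx hxY => ?_⟩
  obtain ⟨τ, hτ⟩ := Q'.mem_carrier.1 (hh ▸ mem_image_of_mem h hx)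
  obtain ⟨i, hi⟩ := BR3x.refl hM hR hw (hH _ hr) τ
  have := (hm τ fun e => hxY ⟨_, e, by rw [hτ, h.symm_apply_apply]⟩).push h.symm
  rw [push_symm, ← hh, ← image_comp, h.symm_comp_self, image_id, hτ, h.symm_apply_apply, hi] at this
  exact ⟨i, this⟩

end Pool.Agent.P.MP_28369d_gt.SB
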