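import Pool.Agent.P.MP_28369d_gt.SB.Tools

/-! Complements of finitely many lines; reduction from a dense set. -/

namespace Pool.Agent.P.MP_28369d_gt.SB

open Set Filter Topology
open scoped RealInnerProductSpace

namespace CONNx

open MeasureTheory in
theorem null_plane (p a b : E) :
    volume {r : E | -p + r ∈ Submodule.span ℝ ({a, b} : Set E)} = 0 := by
  classical
  have h : Submodule.span ℝ ({a, b} : Set E) ≠ ⊤ := by
    refine (span_lt_top_of_card_lt_finrank ?_).ne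
    rw [finrank_euclideanSpace_fin, toFinset_insert, toFinset_singleton]
    exact Finset.card_le_two.trans_lt (by norm_num)
  exact (measure_preimage_add volume (-p) _).trans (Measure.addHaar_submodule volume _ h)

open MeasureTheory in
theorem avoid {O : Set E} (hO : IsOpen O) (hne : O.Nonempty) (T : Finset (E × E)) (p q : E) :
    ∃ r ∈ O, ∀ t ∈ T, -p + r ∉ Submodule.span ℝ ({t.1 - p, t.2} : Set E) ∧
      -q + r ∉ Submodule.span ℝ ({t.1 - q, t.2} : Set E) := by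
  by_contra h
  refine (hO.measure_pos volume hne).ne' (measure_mono_null (t := ⋃ t ∈ (T : Set (E × E)),
    {r : E | -p + r ∈ Submodule.span ℝ ({t.1 - p, t.2} : Set E)} ∪
      {r : E | -q + r ∈ Submodule.span ℝ ({t.1 - q, t.2} : Set E)}) (fun r hr => ?_)
    ((measure_biUnion_null_iff T.countable_toSet).2 fun t _ =>
      measure_union_null (null_plane _ _ _) (null_plane _ _ _)))
  by_contra h2
  exact h ⟨r, hr, fun t ht => not_or.1 fun e => h2 (mem_biUnion (Finset.mem_coe.2 ht) e)⟩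

theorem seg {C S : Set E} {T : Finset (E × E)} (hC : Convex ℝ C)
    (hT : ∀ p ∈ S, ∃ t ∈ T, ∃ r : ℝ, p = t.1 + r • t.2) {p r : E} (hp : p ∈ C \ S) (hr : r ∈ C)
    (h : ∀ t ∈ T, -p + r ∉ Submodule.span ℝ ({t.1 - p, t.2} : Set E)) :
    segment ℝ p r ⊆ C \ S := by
  intro y hy
  refine ⟨hC.segment_subset hp.1 hr hy, fun hS => ?_⟩
  rw [segment_eq_image'] at hy
  obtain ⟨l, -, rfl⟩ := hy
  obtain ⟨t, ht, s, e⟩ := hT _ hS
  rcases eq_or_ne l 0 with rfl | hl
  · exact hp.2 (by simpa using hS)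
  · refine h t ht (Submodule.mem_span_pair.2 ⟨l⁻¹, l⁻¹ * s, ?_⟩)
    have e2 : l • (r - p) = t.1 - p + s • t.2 := by
      rw [sub_add_eq_add_sub, ← e]
      simp
    rw [mul_smul, ← smul_add, ← e2, smul_smul, inv_mul_cancel₀ hl, one_smul, neg_add_eq_sub]

end CONNx

open CONNx in
theorem s_CONN : S_CONN := by
  classical
  refine ⟨fun C S hO hC ⟨T, hT⟩ => ⟨isPreconnected_of_forall_pair fun p hp q hq => ?_,
    fun x hx => mem_closure_iff.2 fun O h1 h2 => ?_⟩, fun P => ?_⟩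
  · obtain ⟨r, hr, h⟩ := avoid hO ⟨p, hp.1⟩ T p q
    exact ⟨segment ℝ p r ∪ segment ℝ q r,
      union_subset (seg hC hT hp hr fun t ht => (h t ht).1) (seg hC hT hq hr fun t ht => (h t ht).2),
      Or.inl (left_mem_segment _ _ _), Or.inr (left_mem_segment _ _ _),
      (convex_segment p r).isPreconnected.union r (right_mem_segment _ _ _)
        (right_mem_segment _ _ _) (convex_segment q r).isPreconnected⟩
  · obtain ⟨r, hr, h⟩ := avoid (h1.inter hO) ⟨x, h2, hx⟩ T x x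
    refine ⟨r, hr.1, hr.2, fun hS => ?_⟩
    obtain ⟨t, ht, s, e⟩ := hT _ hS
    refine (h t ht).1 (Submodule.mem_span_pair.2 ⟨1, s, ?_⟩)
    rw [e, one_smul]
    abel
  · have h := finite_range_of_per P.pos (f := fun i => (P.v i, P.v (i + 1) - P.v i)) fun i => by
      simp only [show i + P.n + 1 = i + 1 + P.n by ring, P.per]
    refine ⟨h.toFinset, fun p hp => ?_⟩
    obtain ⟨i, hi⟩ := mem_iUnion.1 hp
    rw [segment_eq_image'] at hi
    obtain ⟨l, -, rfl⟩ := hi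
    exact ⟨_, h.mem_toFinset.2 ⟨i, rfl⟩, l, rfl⟩

theorem s_DENSE : S_DENSE := by
  intro G _ ω U D H τ hU hD h
  choose! N f c h1 h2 h3 h4 using h
  refine ⟨fun x => c x * f x x, fun p hp => ?_⟩
  filter_upwards [h3 p hp p (h2 p hp), (h1 p hp).mem_nhds (h2 p hp), hU.mem_nhds hp]
    with p' a b d
  obtain ⟨y, ⟨y1, y2, y3⟩, y4⟩ := mem_closure_iff_nhds.1 (hD d) _
    (((h3 p hp).ev_ratio (h3 p' d) b (h2 p' d)).and
      (Eventually.and ((h1 p hp).mem_nhds b) ((h1 p' d).mem_nhds (h2 p' d))))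
  have := mul_mem (inv_mem (h4 p hp y ⟨y2, y4⟩)) (h4 p' d y ⟨y3, y4⟩)
  refine (congrArg (· ∈ H) ?_).mp this
  calc (τ y * (f p y)⁻¹ * (c p)⁻¹)⁻¹ * (τ y * (f p' y)⁻¹ * (c p')⁻¹)
      = c p * (f p y * (f p' y)⁻¹) * (c p')⁻¹ := by group
    _ = _ := by rw [y1, a]; group

theorem s_RRED (hC : S_CONN) (hD : S_DENSE) : S_RRED := by
  intro G _ ω U B H hU hL hB ⟨τ, hτ⟩
  refine hD G ω U (U \ B) H τ hU (fun x hx => ?_) fun x hx => ?_
  · obtain ⟨ε, hε, hb⟩ := Metric.isOpen_iff.1 hU x hx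
    exact closure_mono (sdiff_subset_sdiff_left hb)
      ((hC.1 _ B Metric.isOpen_ball (convex_ball x ε) hB).2 (Metric.mem_ball_self hε))
  · obtain ⟨N, n1, n2, f, hf⟩ := hL x hx
    obtain ⟨ε, hε, hb⟩ := Metric.isOpen_iff.1 (hU.inter n1) x ⟨hx, n2⟩
    have h := hC.1 _ B Metric.isOpen_ball (convex_ball x ε) hB
    obtain ⟨q, hq⟩ := closure_nonempty_iff.1 ⟨x, h.2 (Metric.mem_ball_self hε)⟩
    refine ⟨Metric.ball x ε, f, τ q * (f q)⁻¹, Metric.isOpen_ball, Metric.mem_ball_self hε,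
      hf.mono fun y hy => (hb hy).2, fun p hp => ?_⟩
    exact red_coset (fun y hy => hτ y ⟨(hb hy.1).1, hy.2⟩) (hf.mono fun y hy => (hb hy.1).2) h.1
      ⟨hp.1, hp.2.2⟩ hq

end Pool.Agent.P.MP_28369d_gt.SB
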