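import Pool.Agent.P.MP_28369d_gt.SB.Tools

/-!
A finite principal covering with local sections defines a local system.
-/

namespace Pool.Agent.P.MP_28369d_gt.SB

open Set Filter Topology
open scoped RealInnerProductSpace

namespace COVERx

variable {G : Type} [Group G] {W : Type}

theorem lift [Finite G] [TopologicalSpace W] [T2Space W] {X : Type} [TopologicalSpace X]
    {act : G → W → W} (hc : ∀ g, Continuous (act g)) {u v : X → W} {k : X → G} {x0 : X}
    (hu : ContinuousAt u x0) (hv : ContinuousAt v x0) (h : ∀ᶠ x in 𝓝 x0, u x = act (k x) (v x))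
    (hf : ∀ g g', act g (v x0) = act g' (v x0) → g = g') : ∀ᶠ x in 𝓝 x0, k x = k x0 := by
  have h1 : ∀ g, ∀ᶠ x in 𝓝 x0, g ≠ k x0 → u x ≠ act g (v x) := by
    intro g
    by_cases hg : g = k x0
    · exact Eventually.of_forall fun x hx => absurd hg hx
    · have h2 : u x0 ≠ act g (v x0) := fun h3 => hg (hf _ _ (h3.symm.trans h.self_of_nhds))
      have h3 : ContinuousAt (fun x => act g (v x)) x0 := (hc g).continuousAt.comp hv
      filter_upwards [(hu.ne_iff_eventually_ne h3).1 h2] with x hx _ using hx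
  filter_upwards [eventually_all.2 h1, h] with x a b
  by_contra h2
  exact a _ h2 b

open Classical in
/-- The element carrying `w'` to `w`. -/
noncomputable def dl (act : G → W → W) (w w' : W) : G :=
  if h : ∃ g, w = act g w' then h.choose else 1

theorem dl_spec {act : G → W → W} {w w' : W} (h : ∃ g, w = act g w') :
    w = act (dl act w w') w' := by
  rw [dl, dif_pos h]
  exact h.choose_spec

/-- The stabiliser of a set of group elements under right translations. -/
def St (S : G → Prop) : Subgroup G where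
  carrier := {b | ∀ g, S (g * b) ↔ S g}
  one_mem' g := by rw [mul_one]
  mul_mem' {a b} ha hb g := by rw [← mul_assoc, hb, ha]
  inv_mem' {a} ha g := by rw [← ha, inv_mul_cancel_right]

theorem St_conj {S S' : G → Prop} {o : G} (h : ∀ g, S g ↔ S' (g * o)) {b : G} (hb : b ∈ St S) :
    o⁻¹ * b * o ∈ St S' := by
  intro g
  have h1 := h (g * o⁻¹)
  have h2 := h (g * o⁻¹ * b)
  rw [inv_mul_cancel_right] at h1
  rw [← h1, ← hb (g * o⁻¹), h2]
  simp only [mul_assoc]

end COVERx

open COVERx in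
theorem s_COVER : S_COVER := by
  intro G _ _ W _ _ act Fib U hU hUc h1 hmul hc hfib hfree hsec A hA hgen
  rcases U.eq_empty_or_nonempty with rfl | ⟨x1, hx1⟩
  · exact ⟨fun _ _ => 1, fun _ h => h.elim, fun _ h => h.elim⟩
  have hne : Nonempty (E → W) := ⟨(hsec x1 hx1).choose⟩
  choose! σ hσ using hsec
  have huniq : ∀ p ∈ U, ∀ w, Fib p w → ∀ g g', act g w = act g' w → g = g' := by
    intro p hp w hw g g' h
    have h2 : act (g'⁻¹ * g) w = w := by rw [hmul, h, ← hmul, inv_mul_cancel, h1]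
    exact (inv_mul_eq_one.1 (hfree p hp w _ hw h2)).symm
  have hs0 : ∀ p ∈ U, Fib p (σ p p) := fun p hp => (hσ p hp).self_of_nhds.2
  have hdl : ∀ p ∈ U, ∀ w w', Fib p w → Fib p w' → w = act (dl act w w') w' :=
    fun p hp w w' hw hw' => dl_spec ((hfib p hp w' w hw').1 hw)
  have key : ∀ (X : Type) [TopologicalSpace X] (x0 : X) (c : X → E) (u : X → W),
      ContinuousAt c x0 → ContinuousAt u x0 → c x0 ∈ U → (∀ᶠ x in 𝓝 x0, Fib (c x) (u x)) →
      ∀ᶠ x in 𝓝 x0, dl act (u x) (σ (c x) (c x)) =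
        dl act (u x0) (σ (c x0) (c x0)) * dl act (σ (c x0) (c x)) (σ (c x) (c x)) := by
    intro X _ x0 c u hc0 hu0 hx0 hF
    have e1 : ∀ᶠ x in 𝓝 x0, c x ∈ U := hc0.eventually (hU.mem_nhds hx0)
    have e2 : ∀ᶠ x in 𝓝 x0, Fib (c x) (σ (c x0) (c x)) :=
      (hc0.eventually (hσ _ hx0)).mono fun _ h => h.2
    have e3 : ∀ᶠ x in 𝓝 x0, u x = act (dl act (u x) (σ (c x0) (c x))) (σ (c x0) (c x)) := by
      filter_upwards [e1, e2, hF] with x a b d using hdl _ a _ _ d b
    have e4 : ContinuousAt (fun x => σ (c x0) (c x)) x0 :=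
      ContinuousAt.comp (hσ _ hx0).self_of_nhds.1 hc0
    have e5 := lift hc hu0 e4 e3 (huniq _ hx0 _ (hs0 _ hx0))
    filter_upwards [e1, e2, e3, e5, hF] with x a b d e f
    refine huniq _ a _ (hs0 _ a) _ _ ?_
    rw [← hdl _ a _ _ f (hs0 _ a), hmul, ← hdl _ a _ _ b (hs0 _ a), ← e]
    exact d
  refine ⟨fun x p => dl act (σ x p) (σ p p), fun x hx => ?_, fun p hp S hS => ?_⟩
  · refine ⟨interior {p | ContinuousAt (σ x) p ∧ Fib p (σ x p)} ∩ U, isOpen_interior.inter hU,
      ⟨mem_interior_iff_mem_nhds.2 (hσ x hx), hx⟩, fun p => dl act (σ x p) (σ p p), ?_⟩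
    intro p hp
    have h2 : ∀ᶠ q in 𝓝 p, ContinuousAt (σ x) q ∧ Fib q (σ x q) := mem_interior_iff_mem_nhds.1 hp.1
    exact key E p id (σ x) continuousAt_id h2.self_of_nhds.1 hp.2 (h2.mono fun _ h => h.2)
  · have h3 : St (S p) = ⊤ := by
      refine hgen _ fun a ha => ?_
      obtain ⟨c, w, hcc, hcw, hcf, hc1, hw1⟩ := hA a ha
      have hp0 := (hcf 0).1
      set b := dl act (w 0) (σ (c 0) (c 0)) with hb
      have hb' : w 0 = act b (σ (c 0) (c 0)) := hdl _ hp0 _ _ (hcf 0).2 (hs0 _ hp0)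
      have h4 : b⁻¹ * a * b ∈ St (S (c 0)) := by
        intro g
        have hF : ∀ t, Fib (c t) (act (g * b⁻¹) (w t)) := fun t =>
          (hfib _ (hcf t).1 _ _ (hcf t).2).2 ⟨_, rfl⟩
        have h5 := const_of_ev' (S := (univ : Set ℝ))
          (F := fun t => S (c t) (dl act (act (g * b⁻¹) (w t)) (σ (c t) (c t))))
          isPreconnected_univ (fun t _ => ?_) (mem_univ 1) (mem_univ 0)
        · have h6 : dl act (act (g * b⁻¹) (w 0)) (σ (c 0) (c 0)) = g := by
            refine huniq _ hp0 _ (hs0 _ hp0) _ _ ?_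
            rw [← hdl _ hp0 _ _ (hF 0) (hs0 _ hp0), hb', ← hmul, inv_mul_cancel_right]
          have h7 : dl act (act (g * b⁻¹) (w 1)) (σ (c 0) (c 0)) = g * (b⁻¹ * a * b) := by
            have h8 := hF 1
            rw [hc1] at h8
            refine huniq _ hp0 _ (hs0 _ hp0) _ _ ?_
            rw [← hdl _ hp0 _ _ h8 (hs0 _ hp0), hw1, hb', ← hmul, ← hmul]
            simp only [mul_assoc]
          simp only [hc1, h6, h7] at h5
          exact iff_of_eq h5
        · filter_upwards [key ℝ t c (fun t => act (g * b⁻¹) (w t)) hcc.continuousAt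
            ((hc _).comp hcw).continuousAt (hcf t).1 (Eventually.of_forall hF),
            hcc.continuousAt.eventually (hS _ (hcf t).1)] with t' e1 e2
          rw [e1, eq_iff_iff, e2]
      have h9 := const_of_ev' (F := fun q => ∃ g, g * a * g⁻¹ ∈ St (S q)) hUc
        (fun q hq => ?_) hp0 hp
      · exact (iff_of_eq h9).1 ⟨b⁻¹, by rwa [inv_inv]⟩
      · filter_upwards [hS q hq] with q' e
        rw [eq_iff_iff]
        constructor
        · rintro ⟨g, hg⟩
          have e' : ∀ g, S q' g ↔ S q (g * (dl act (σ q q') (σ q' q'))⁻¹) := fun g => by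
            rw [e, inv_mul_cancel_right]
          refine ⟨dl act (σ q q') (σ q' q') * g, ?_⟩
          have := St_conj e' hg
          simpa only [inv_inv, mul_inv_rev, mul_assoc] using this
        · rintro ⟨g, hg⟩
          refine ⟨(dl act (σ q q') (σ q' q'))⁻¹ * g, ?_⟩
          have := St_conj e hg
          simpa only [inv_inv, mul_inv_rev, mul_assoc] using this
    intro g g' hg
    have h4 : g⁻¹ * g' ∈ St (S p) := h3 ▸ Subgroup.mem_top _
    have h5 := (h4 g).2 hg
    rwa [mul_inv_cancel_left] at h5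

end Pool.Agent.P.MP_28369d_gt.SB
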