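import Pool.Agent.P.MP_28369d_gt.SB.Tools

/-!
Gluing local systems along a connected sum.
-/

namespace Pool.Agent.P.MP_28369d_gt.SB

open Set Filter Topology
open scoped RealInnerProductSpace

namespace CSx

/-- Three-way case distinction according to the sign of the first coordinate. -/
noncomputable def gl {α : Type} (p : E) (x y z : α) : α :=
  if p 0 < 0 then x else if 0 < p 0 then y else z

variable {α : Type} {p : E} {x y z : α}

theorem gl_neg (h : p 0 < 0) : gl p x y z = x := if_pos h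

theorem gl_pos (h : 0 < p 0) : gl p x y z = y := by
  rw [gl, if_neg h.not_gt, if_pos h]

theorem gl_zero (h : p 0 = 0) : gl p x y z = z := by
  rw [gl, if_neg h.not_lt, if_neg h.not_gt]

theorem cont0 : Continuous fun p : E => p 0 := by fun_prop

theorem ev_neg (h : p 0 < 0) : ∀ᶠ p' in 𝓝 p, (p' : E) 0 < 0 :=
  (isOpen_lt cont0 continuous_const).mem_nhds h

theorem ev_pos (h : 0 < p 0) : ∀ᶠ p' in 𝓝 p, 0 < (p' : E) 0 :=
  (isOpen_lt continuous_const cont0).mem_nhds h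

theorem red_side {G G1 : Type} [Group G] [Group G1] {ω : E → E → G1} {L : Set E} {τ : E → G}
    {H : Subgroup G} {q : E} (φ : G1 →* G) (hf : FullAt ω L q)
    (hτ : ∀ p ∈ L, ∀ᶠ p' in 𝓝 p, τ p * φ (ω p p') * (τ p')⁻¹ ∈ H) {g : G} {x : G1}
    (hη : τ q * (φ x)⁻¹ * g⁻¹ ∈ H) (d : G1) : g * φ d * g⁻¹ ∈ H := by
  have h1 := hf (fun p e => τ q * φ e * (τ p)⁻¹ ∈ H) (fun p hp => ?_) 1 (x⁻¹ * d * x) (by simp)
  · have h2 := H.mul_mem (H.mul_mem (H.inv_mem hη) h1) hη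
    simp only [map_mul, map_inv] at h2
    convert h2 using 1
    group
  · filter_upwards [hτ p hp] with p' a e
    rw [← H.mul_mem_cancel_right a, map_mul]
    refine iff_of_eq (congrArg (· ∈ H) ?_)
    group

theorem mem_Vf {K : Set E} {a b : E} {ε : ℝ} (hε : ε = 1 ∨ ε = -1) (hK : ∀ p ∈ K, ε * p 0 ≤ 0)
    (hP : K ∩ {p | p 0 = 0} = segment ℝ a b) (h0 : p 0 = 0) (hp : p ∉ segment ℝ a b) :
    p ∈ Vf K (pt ε 0 0) := by
  intro t ht hm
  have h1 := hK _ hm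
  simp only [PiLp.add_apply, PiLp.smul_apply, pt_0, h0, smul_eq_mul, zero_add] at h1
  have h2 : t = 0 := by rcases hε with rfl | rfl <;> linarith
  rw [h2, zero_smul, add_zero] at hm
  exact hp (hP ▸ ⟨hm, h0⟩)

theorem not_mem_of_Vf {K : Set E} {d : E} (h : p ∈ Vf K d) : p ∉ K := by
  simpa using h 0 le_rfl

/-- The normal of the segment inside the plane. -/
def nu (a b : E) : E := pt 0 (a 2 - b 2) (b 1 - a 1)

variable {a b : E}

theorem nu_ne (ha : a 0 = 0) (hb : b 0 = 0) (h : a ≠ b) : nu a b ≠ 0 := fun hc => by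
  have h1 : nu a b 1 = 0 := by rw [hc]; rfl
  have h2 : nu a b 2 = 0 := by rw [hc]; rfl
  simp only [nu, pt_1, pt_2] at h1 h2
  exact h (E_ext (ha.trans hb.symm) (by linarith) (by linarith))

theorem nu_inner (a b p : E) :
    ⟪nu a b, p - a⟫ = (a 2 - b 2) * (p 1 - a 1) + (b 1 - a 1) * (p 2 - a 2) := by
  simp [inner3, nu]

theorem nu_seg (hp : p ∈ segment ℝ a b) : ⟪nu a b, p - a⟫ = 0 := by
  rw [segment_eq_image'] at hp
  obtain ⟨t, -, rfl⟩ := hp
  rw [nu_inner]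
  simp only [PiLp.add_apply, PiLp.smul_apply, PiLp.sub_apply, smul_eq_mul]
  ring

/-- The open slab over the segment. -/
def slab (a b : E) : Set E := {p | 0 < ⟪b - a, p - a⟫ ∧ ⟪b - a, p - a⟫ < ⟪b - a, b - a⟫}

theorem isOpen_slab (a b : E) : IsOpen (slab a b) := by
  have h : Continuous fun p : E => ⟪b - a, p - a⟫ := by fun_prop
  exact (isOpen_lt continuous_const h).inter (isOpen_lt h continuous_const)

theorem mem_slab (h : a ≠ b) (hp : p ∈ openSegment ℝ a b) : p ∈ slab a b := by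
  rw [openSegment_eq_image'] at hp
  obtain ⟨t, ⟨h0, h1⟩, rfl⟩ := hp
  have hpos : 0 < ⟪b - a, b - a⟫ := real_inner_self_pos.2 (sub_ne_zero.2 h.symm)
  simp only [slab, mem_ofPred_eq, add_sub_cancel_left, real_inner_smul_right]
  constructor <;> nlinarith

theorem mem_seg (ha : a 0 = 0) (hb : b 0 = 0) (hp : p ∈ slab a b) (h0 : p 0 = 0)
    (h1 : ⟪nu a b, p - a⟫ = 0) : p ∈ openSegment ℝ a b := by
  obtain ⟨h2, h3⟩ := hp
  have hpos := h2.trans h3
  rw [openSegment_eq_image']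
  refine ⟨⟪b - a, p - a⟫ / ⟪b - a, b - a⟫, ⟨div_pos h2 hpos, (div_lt_one hpos).2 h3⟩, ?_⟩
  have hne := hpos.ne'
  rw [nu_inner] at h1
  refine E_ext ?_ ?_ ?_ <;>
    simp only [PiLp.add_apply, PiLp.smul_apply, PiLp.sub_apply, smul_eq_mul] <;>
    field_simp <;> simp only [inner3, PiLp.sub_apply, ha, hb, h0]
  · ring
  · linear_combination (b 2 - a 2) * h1
  · linear_combination (a 1 - b 1) * h1

theorem lines_seg (a b : E) : Lines (openSegment ℝ a b) := by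
  refine ⟨{(a, b - a)}, fun p hp => ?_⟩
  rw [openSegment_eq_image'] at hp
  obtain ⟨t, -, rfl⟩ := hp
  exact ⟨_, Finset.mem_singleton_self _, t, rfl⟩

end CSx

open CSx in
theorem s_CS (hS : S_SIDE) (hR : S_REM) : S_CS := by
  intro G1 G2 _ _ ω1 ω2 K1 K2 a b c1 c2 hab s1 s2 e1 e2 hcl l1 l2 f1 f2
  have sK1 : segment ℝ a b ⊆ K1 := e1 ▸ inter_subset_left
  have sK2 : segment ℝ a b ⊆ K2 := e2 ▸ inter_subset_left
  have sP : ∀ p ∈ segment ℝ a b, p 0 = 0 := fun p hp => (e1.ge hp).2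
  have oP : ∀ p ∈ openSegment ℝ a b, p 0 = 0 := fun p hp => sP p (openSegment_subset_segment _ _ _ hp)
  have ha := sP a (left_mem_segment _ _ _)
  have hb := sP b (right_mem_segment _ _ _)
  have hloc : ∀ c ∈ openSegment ℝ a b, ∀ᶠ p in 𝓝 c, p ∈ K1 ∪ K2 → p ∈ segment ℝ a b := by
    intro c hc
    filter_upwards [hcl.isOpen_compl.mem_nhds fun h => h.2 hc] with p hp h
    by_contra hn
    exact hp ⟨h, fun h' => hn (openSegment_subset_segment _ _ _ h')⟩
  have s1' : ∀ p ∈ K1, 1 * p 0 ≤ 0 := fun p hp => by linarith [s1 p hp]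
  have s2' : ∀ p ∈ K2, -1 * p 0 ≤ 0 := fun p hp => by linarith [s2 p hp]
  have hν := nu_ne ha hb hab
  obtain ⟨h1, m1, o1, d1, u1, w1⟩ := hS G1 ω1 K1 a b (nu a b) 1 (Or.inl rfl) c1 hab s1' e1
    (fun c hc => (hloc c hc).mono fun p hp h => hp (Or.inl h)) hν rfl
    (nu_seg (right_mem_segment _ _ _)) l1 f1
  obtain ⟨h2, m2, o2, d2, u2, w2⟩ := hS G2 ω2 K2 a b (nu a b) (-1) (Or.inr rfl) c2 hab s2' e2
    (fun c hc => (hloc c hc).mono fun p hp h => hp (Or.inr h)) hν rfl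
    (nu_seg (right_mem_segment _ _ _)) l2 f2
  simp only [one_mul, neg_mul, Left.neg_neg_iff] at u1 w1 u2 w2
  refine ⟨m1, m2, fun c hc => ⟨(u1 c hc).1, (u2 c hc).1⟩, fun G _ φ1 φ2 hm => ?_⟩
  set V := Vf K1 (pt 1 0 0) ∩ Vf K2 (pt (-1) 0 0) with hV
  have hVo : IsOpen V := o1.inter o2
  have hVp : ∀ p : E, p 0 = 0 → p ∉ segment ℝ a b → p ∈ V := fun p h0 hp =>
    ⟨mem_Vf (Or.inl rfl) s1' e1 h0 hp, mem_Vf (Or.inr rfl) s2' e2 h0 hp⟩
  let F0 : E → G := fun p => gl p (φ1 (h1 p)) (φ2 (h2 p)) 1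
  let ω0 : E → E → G := fun p p' => gl p (φ1 (ω1 p p')) (φ2 (ω2 p p')) (F0 p')
  -- developments on the two sides
  have hL : ∀ {f : E → G1} {F : E → G} {N : Set E} {p : E}, p 0 < 0 → p ∈ N → Dev ω1 N f →
      (∀ q : E, q 0 < 0 → F q = φ1 (f q)) → ∀ᶠ p' in 𝓝 p, F p' = F p * ω0 p p' := by
    intro f F N p h0 hp hf hF
    filter_upwards [hf p hp, ev_neg h0] with p' a1 a2
    simp only [ω0, gl_neg h0, hF p h0, hF p' a2, a1, map_mul]
  have hRt : ∀ {f : E → G2} {F : E → G} {N : Set E} {p : E}, 0 < p 0 → p ∈ N → Dev ω2 N f →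
      (∀ q : E, 0 < q 0 → F q = φ2 (f q)) → ∀ᶠ p' in 𝓝 p, F p' = F p * ω0 p p' := by
    intro f F N p h0 hp hf hF
    filter_upwards [hf p hp, ev_pos h0] with p' a1 a2
    simp only [ω0, gl_pos h0, hF p h0, hF p' a2, a1, map_mul]
  have hF0 : Dev ω0 V F0 := by
    intro p hp
    rcases lt_trichotomy (p 0) 0 with h0 | h0 | h0
    · exact hL h0 hp.1 d1 fun q hq => gl_neg hq
    · exact Eventually.of_forall fun p' => by simp only [ω0, F0, gl_zero h0, one_mul]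
    · exact hRt h0 hp.2 d2 fun q hq => gl_pos hq
  have hUS : ((K1 ∪ K2) \ openSegment ℝ a b)ᶜ \ openSegment ℝ a b = (K1 ∪ K2)ᶜ := by
    ext p
    exact ⟨fun h h' => h.1 ⟨h', h.2⟩,
      fun h => ⟨fun h' => h h'.1, fun h' => h (Or.inl (sK1 (openSegment_subset_segment _ _ _ h')))⟩⟩
  have hLS : LocSys ω0 (K1 ∪ K2)ᶜ := by
    intro x hx
    rcases lt_trichotomy (x 0) 0 with h0 | h0 | h0
    · obtain ⟨N, n1, n2, f, n3⟩ := l1 x fun h => hx (Or.inl h)
      exact ⟨N ∩ {p | p 0 < 0}, n1.inter (isOpen_lt cont0 continuous_const), ⟨n2, h0⟩,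
        fun p => φ1 (f p), fun p hp => hL hp.2 hp.1 n3 fun _ _ => rfl⟩
    · exact ⟨V, hVo, hVp x h0 fun h => hx (Or.inl (sK1 h)), F0, hF0⟩
    · obtain ⟨N, n1, n2, f, n3⟩ := l2 x fun h => hx (Or.inr h)
      exact ⟨N ∩ {p | 0 < p 0}, n1.inter (isOpen_lt continuous_const cont0), ⟨n2, h0⟩,
        fun p => φ2 (f p), fun p hp => hRt hp.2 hp.1 n3 fun _ _ => rfl⟩
  have cβ : Continuous fun p : E => ⟪nu a b, p - a⟫ := by fun_prop
  obtain ⟨ω, hω, hωe⟩ := hR G ω0 _ (openSegment ℝ a b) hcl.isOpen_compl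
    (hUS ▸ (c1.union c2).isClosed.isOpen_compl) (lines_seg a b) (hUS ▸ hLS) (by
      rintro c ⟨-, hc⟩
      obtain ⟨-, r1, r10, k1, -, a1, a2, a3⟩ := u1 c hc
      obtain ⟨-, r2, r20, k2, -, b1, b2, b3⟩ := u2 c hc
      have hNo : IsOpen (Metric.ball c r1 ∩ Metric.ball c r2) :=
        Metric.isOpen_ball.inter Metric.isOpen_ball
      refine ⟨(Metric.ball c r1 ∩ Metric.ball c r2) ∩ slab a b, fun p => gl p (φ1 (k1 p)) (φ2 (k2 p))
        (if 0 < ⟪nu a b, p - a⟫ then 1 else φ1 m1), hNo.inter (isOpen_slab a b),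
        ⟨⟨Metric.mem_ball_self r10, Metric.mem_ball_self r20⟩, mem_slab hab hc⟩, ?_⟩
      rintro p ⟨⟨hp, hs⟩, hn⟩
      rcases lt_trichotomy (p 0) 0 with h0 | h0 | h0
      · exact hL h0 (show p ∈ {p | p ∈ Metric.ball c r1 ∧ p 0 < 0} from ⟨hp.1, h0⟩) a1
          fun q hq => gl_neg hq
      · rcases lt_trichotomy ⟪nu a b, p - a⟫ 0 with hβ | hβ | hβ
        · filter_upwards [hNo.mem_nhds hp, (isOpen_lt cβ continuous_const).mem_nhds hβ] with q q1 q2
          simp only [ω0, F0, gl_zero h0, if_neg hβ.not_gt]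
          rcases lt_trichotomy (q 0) 0 with q0 | q0 | q0
          · simp only [gl_neg q0, a3 q q1.1 q0 q2, map_mul]
          · simp only [gl_zero q0, if_neg (LT.lt.not_gt q2), mul_one]
          · simp only [gl_pos q0, b3 q q1.2 q0 q2, map_mul, hm]
        · exact (hn (mem_seg ha hb hs h0 hβ)).elim
        · filter_upwards [hNo.mem_nhds hp, (isOpen_lt continuous_const cβ).mem_nhds hβ] with q q1 q2
          simp only [ω0, F0, gl_zero h0, if_pos hβ, one_mul]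
          rcases lt_trichotomy (q 0) 0 with q0 | q0 | q0
          · simp only [gl_neg q0, a2 q q1.1 q0 q2]
          · simp only [gl_zero q0, if_pos (show 0 < ⟪nu a b, q - a⟫ from q2)]
          · simp only [gl_pos q0, b2 q q1.2 q0 q2]
      · exact hRt h0 (show p ∈ {p | p ∈ Metric.ball c r2 ∧ 0 < p 0} from ⟨hp.2, h0⟩) b1
          fun q hq => gl_pos hq)
  have eL : ∀ p p' : E, p 0 < 0 → ω p p' = φ1 (ω1 p p') := fun p p' h0 => by
    rw [hωe p fun h => h0.ne (oP p h)]; exact gl_neg h0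
  have eR : ∀ p p' : E, 0 < p 0 → ω p p' = φ2 (ω2 p p') := fun p p' h0 => by
    rw [hωe p fun h => h0.ne' (oP p h)]; exact gl_pos h0
  refine ⟨ω, hω, ?_, eL, eR⟩
  rintro H ⟨τ, hτ⟩
  have c0 : (a + nu a b) 0 = 0 := by simp [ha, nu]
  have cV : a + nu a b ∈ V := hVp _ c0 fun h => by
    have := nu_seg h
    rw [add_sub_cancel_left] at this
    exact hν (inner_self_eq_zero.1 this)
  obtain ⟨r, hr, hB⟩ := Metric.isOpen_iff.1 hVo _ cV
  have hη : ∀ q ∈ Metric.ball (a + nu a b) r, τ q * (F0 q)⁻¹ * (τ (a + nu a b))⁻¹ ∈ H := by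
    intro q hq
    have := red_coset (ω := ω0) (H := H) (τ := τ) (fun p hp => ?_) (hF0.mono hB)
      (convex_ball _ _).isPreconnected hq (Metric.mem_ball_self hr)
    · simpa only [F0, gl_zero c0, inv_one, mul_one] using this
    · have hp1 := not_mem_of_Vf (hB hp).1
      have hp2 := not_mem_of_Vf (hB hp).2
      rw [← hωe p fun h => hp1 (sK1 (openSegment_subset_segment _ _ _ h))]
      exact hτ p fun h => h.1.elim hp1 hp2
  have hq : ∀ s : ℝ, |s| < r → a + nu a b + pt s 0 0 ∈ Metric.ball (a + nu a b) r ∧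
      (a + nu a b + pt s 0 0) 0 = s := fun s hs => by
    refine ⟨?_, by rw [PiLp.add_apply, c0, zero_add, pt_0]⟩
    rw [Metric.mem_ball, dist_self_add_left]
    have := normsq3 (pt s 0 0)
    simp only [pt_0, pt_1, pt_2] at this
    exact lt_of_pow_lt_pow_left₀ 2 hr.le (by nlinarith [sq_lt_sq' (abs_lt.1 hs).1 (abs_lt.1 hs).2])
  obtain ⟨p1, p2⟩ := hq (-(r / 2)) (by rw [abs_lt]; constructor <;> linarith)
  obtain ⟨q1, q2⟩ := hq (r / 2) (by rw [abs_lt]; constructor <;> linarith)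
  have p3 : (a + nu a b + pt (-(r / 2)) 0 0) 0 < 0 := by linarith
  have q3 : 0 < (a + nu a b + pt (r / 2) 0 0) 0 := by linarith
  refine ⟨τ (a + nu a b), red_side φ1 (w1 _ (hB p1).1 p3) (τ := τ) (fun p hp => ?_)
    (by simpa only [F0, gl_neg p3] using hη _ p1),
    red_side φ2 (w2 _ (hB q1).2 q3) (τ := τ) (fun p hp => ?_)
    (by simpa only [F0, gl_pos q3] using hη _ q1)⟩
  · simpa only [eL p _ hp.1] using
      hτ p fun h => h.1.elim hp.2 fun h' => (s2 p h').not_gt hp.1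
  · simpa only [eR p _ hp.1] using
      hτ p fun h => h.1.elim (fun h' => (s1 p h').not_gt hp.1) hp.2

end Pool.Agent.P.MP_28369d_gt.SB
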