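import Pool.Agent.P.MP_28369d_gt.SB.Tools

/-!
A bound for the order of a dihedral quotient in terms of the number of edges.
-/

namespace Pool.Agent.P.MP_28369d_gt.SB

open Set Filter Topology
open scoped RealInnerProductSpace

namespace DETx

open Matrix

/-- The colouring matrix. -/
def Mx (R : Type) [CommRing R] {L : ℕ} (p : Fin L → Fin (L + 1)) :
    Matrix (Fin (L + 1)) (Fin (L + 1)) R :=
  Matrix.of (Fin.cases (Pi.single 0 1) fun k =>
    Pi.single k.succ 1 + Pi.single k.castSucc 1 - Pi.single (p k) 2)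

variable {R : Type} [CommRing R] {L : ℕ} (p : Fin L → Fin (L + 1))

theorem Mx_zero (v : Fin (L + 1) → R) : (Mx R p *ᵥ v) 0 = v 0 := by
  change Pi.single 0 1 ⬝ᵥ v = _
  simp

theorem Mx_succ (v : Fin (L + 1) → R) (k : Fin L) :
    (Mx R p *ᵥ v) k.succ = v k.succ + v k.castSucc - 2 * v (p k) := by
  change (Pi.single k.succ 1 + Pi.single k.castSucc 1 - Pi.single (p k) 2) ⬝ᵥ v = _
  simp

theorem Mx_det : ((Mx ℤ p).det : R) = (Mx R p).det := by
  rw [Int.cast_det]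
  congr 1
  ext i j
  refine Fin.cases ?_ (fun k => ?_) i <;> simp [Mx, Pi.single_apply]

theorem Mx_ne : (Mx ℤ p).det ≠ 0 := fun h => by
  have h1 := Mx_det (R := ZMod 2) p
  rw [h, Int.cast_zero, eq_comm, ← Matrix.exists_mulVec_eq_zero_iff] at h1
  obtain ⟨v, v1, v2⟩ := h1
  refine v1 (funext fun i => ?_)
  induction i using Fin.induction with
  | zero => exact (Mx_zero p v).symm.trans (congrFun v2 0)
  | succ k ih =>
    have := (Mx_succ p v k).symm.trans (congrFun v2 _)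
    rwa [ih, show (2 : ZMod 2) = 0 from rfl, zero_mul, sub_zero, Pi.zero_apply, add_zero] at this

theorem exists_enum (B : Finset ℝ) (h0 : ∀ t ∈ B, 0 ≤ t) (hL : B.card ≤ L) : ∃ b : ℕ → ℝ,
    (∀ k, b k ∈ insert 0 B) ∧
    (∀ k, b (k + 1) = b k ∨ (b k < b (k + 1) ∧ ∀ t ∈ Ioo (b k) (b (k + 1)), t ∉ B)) ∧
    ∀ τ, 0 ≤ τ → ∃ j ≤ L, b j ≤ τ ∧ ∀ t ∈ Ioc (b j) τ, t ∉ B := by
  obtain ⟨l, hl⟩ : ∃ l, (insert 0 B).card = l + 1 :=
    ⟨_, (Nat.succ_pred_eq_of_pos (Finset.insert_nonempty _ _).card_pos).symm⟩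
  have h1 : l ≤ L := by
    have := Finset.card_insert_le 0 B
    omega
  have hr : ∀ t ∈ insert 0 B, ∃ i, (insert 0 B).orderEmbOfFin hl i = t := fun t ht => by
    have := Finset.range_orderEmbOfFin (insert 0 B) hl
    exact this.ge (Finset.mem_coe.2 ht)
  have hm := Finset.orderEmbOfFin_mem (insert 0 B) hl
  generalize (insert 0 B).orderEmbOfFin hl = e at hr hm
  refine ⟨fun k => e ⟨min k l, by omega⟩, fun k => hm _, fun k => ?_, fun τ hτ => ?_⟩
  · rcases lt_or_ge k l with c | c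
    · refine .inr ⟨e.strictMono (Fin.mk_lt_mk.2 (by omega)), fun t ht hB => ?_⟩
      obtain ⟨i, rfl⟩ := hr t (Finset.mem_insert_of_mem hB)
      have a1 := Fin.lt_def.1 (e.lt_iff_lt.1 ht.1)
      have a2 := Fin.lt_def.1 (e.lt_iff_lt.1 ht.2)
      simp only at a1 a2
      omega
    · exact .inl (congrArg e (Fin.ext (by simp only; omega)))
  · obtain ⟨x, x1, x2⟩ := ((insert 0 B).filter (· ≤ τ)).exists_max_image id
      ⟨0, Finset.mem_filter.2 ⟨Finset.mem_insert_self _ _, hτ⟩⟩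
    obtain ⟨i, rfl⟩ := hr x (Finset.mem_filter.1 x1).1
    have : e ⟨min i l, by omega⟩ = e i := congrArg e (Fin.ext (by simp only; omega))
    refine ⟨i, by omega, this.trans_le (Finset.mem_filter.1 x1).2, fun t ht hB => ?_⟩
    exact (this.symm.trans_lt ht.1).not_ge (x2 t (Finset.mem_filter.2 ⟨Finset.mem_insert_of_mem hB, ht.2⟩))

theorem const {G : Type} [Group G] {Q : Poly} {d : E} {ω : E → E → G} {μ : ℝ → G} {X : Set ℝ}
    (h : Wirt Q d ω μ X) {a τ : ℝ} (ha : a ≤ τ)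
    (hX : ∀ t ∈ Ioc a τ, ∀ k : ℤ, t + k * Q.n ∉ X) : μ τ = μ a := by
  refine const_of_ev (isPreconnected_Icc (a := a) (b := τ)) (fun x hx => ?_) ⟨ha, le_rfl⟩
    ⟨le_rfl, ha⟩
  have h1 := eventually_nhdsWithin_iff.1 (h.rc x)
  have h2 : ∀ᶠ y in 𝓝 x, y ∈ Icc a τ → y < x → μ y = μ x := by
    rcases hx.1.eq_or_lt with rfl | c
    · exact Eventually.of_forall fun y hy hy' => absurd hy.1 hy'.not_ge
    · obtain ⟨g, g1, g2 | ⟨⟨k, g2⟩, -⟩⟩ := h.step x
      · exact (eventually_nhdsWithin_iff.1 g1).mono fun y hy _ hy' => (hy hy').trans g2.symm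
      · exact absurd g2 (hX x ⟨c, hx.2⟩ k)
  rw [eventually_nhdsWithin_iff]
  filter_upwards [h1, h2] with y a1 a2 hy
  rcases lt_trichotomy y x with c | rfl | c
  exacts [a2 hy c, rfl, a1 c]

open DihedralGroup in
/-- The dihedral subgroup attached to a subgroup of rotations. -/
def sub {m : ℕ} (A : AddSubgroup (ZMod m)) (c : ZMod m) : Subgroup (DihedralGroup m) where
  carrier := {g | (∃ i ∈ A, g = r i) ∨ ∃ i ∈ A, g = sr (c + i)}
  one_mem' := .inl ⟨0, zero_mem _, rfl⟩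
  mul_mem' := by
    rintro _ _ (⟨i, hi, rfl⟩ | ⟨i, hi, rfl⟩) (⟨j, hj, rfl⟩ | ⟨j, hj, rfl⟩)
    · exact .inl ⟨i + j, add_mem hi hj, rfl⟩
    · exact .inr ⟨j - i, sub_mem hj hi, by rw [r_mul_sr, add_sub_assoc]⟩
    · exact .inr ⟨i + j, add_mem hi hj, by rw [sr_mul_r, add_assoc]⟩
    · exact .inl ⟨j - i, sub_mem hj hi, by rw [sr_mul_sr, add_sub_add_left_eq_sub]⟩
  inv_mem' := by
    rintro _ (⟨i, hi, rfl⟩ | ⟨i, hi, rfl⟩)
    · exact .inl ⟨-i, neg_mem hi, rfl⟩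
    · exact .inr ⟨i, hi, rfl⟩

end DETx

open Matrix in
theorem s_DALG : S_DALG := by
  intro L
  refine ⟨Finset.univ.sup fun p : Fin L → Fin (L + 1) => (DETx.Mx ℤ p).det.natAbs,
    fun m _ c h1 h2 => ?_⟩
  have h3 : ∀ k : Fin L, ∃ j : Fin (L + 1), c (k + 1) = 2 * c j - c k := fun k => by
    rcases h1 k k.2 with e | ⟨j, hj, e⟩
    · exact ⟨k.castSucc, by rw [e, Fin.val_castSucc]; ring⟩
    · exact ⟨⟨j, by omega⟩, e⟩
  choose p hp using h3
  have h4 : DETx.Mx (ZMod m) p *ᵥ (fun k => c k - c 0) = 0 := by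
    funext i
    refine Fin.cases ?_ (fun k => ?_) i
    · rw [DETx.Mx_zero]
      exact sub_self _
    · rw [DETx.Mx_succ, Fin.val_succ, hp, Fin.val_castSucc, Pi.zero_apply]
      ring
  have h5 := congrArg ((DETx.Mx (ZMod m) p).adjugate *ᵥ ·) h4
  simp only [mulVec_mulVec, adjugate_mul, mulVec_zero, smul_mulVec, one_mulVec] at h5
  have h6 := h2 (AddMonoidHom.mulLeft (DETx.Mx (ZMod m) p).det).ker fun k hk =>
    congrFun h5 ⟨k, by omega⟩
  have h7 : (DETx.Mx (ZMod m) p).det * 1 = 0 := h6.ge (AddSubgroup.mem_top 1)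
  rw [mul_one, ← DETx.Mx_det, ZMod.intCast_zmod_eq_zero_iff_dvd] at h7
  exact (Nat.le_of_dvd (Int.natAbs_pos.2 (DETx.Mx_ne p)) (Int.natCast_dvd.1 h7)).trans
    (Finset.le_sup (f := fun p : Fin L → Fin (L + 1) => (DETx.Mx ℤ p).det.natAbs)
      (Finset.mem_univ p))

open DihedralGroup in
theorem s_DET (hD : S_DALG) : S_DET := by
  intro N
  obtain ⟨C, hC⟩ := hD (N ^ 2)
  refine ⟨C, fun m Q d ω μ X hm hN h hg hs => ?_⟩
  have hn := Q.n_pos
  have hB : ∀ t ∈ h.fin.toFinset.image (toIcoMod hn 0), t ∈ Ico (0 : ℝ) Q.n := fun t ht => by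
    obtain ⟨x, -, rfl⟩ := Finset.mem_image.1 ht
    exact toIcoMod_mem_Ico' hn x
  have hB' : ∀ t ∈ Ico (0 : ℝ) Q.n, t ∉ h.fin.toFinset.image (toIcoMod hn 0) →
      ∀ k : ℤ, t + k * Q.n ∉ X := fun t ht hc k hk =>
    hc (Finset.mem_image.2 ⟨_, h.fin.mem_toFinset.2 hk, by
      rw [← zsmul_eq_mul, toIcoMod_add_zsmul, toIcoMod_eq_self, zero_add]
      exact ht⟩)
  obtain ⟨b, b1, b2, b3⟩ := DETx.exists_enum (L := N ^ 2) _ (fun t ht => (hB t ht).1)
    (Finset.card_image_le.trans (by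
      rw [← Set.ncard_eq_toFinset_card X h.fin]
      exact h.card.trans (Nat.pow_le_pow_left hN 2)))
  have b4 : ∀ k, b k ∈ Ico (0 : ℝ) Q.n := fun k =>
    (Finset.mem_insert.1 (b1 k)).elim (fun e => ⟨e.ge, e.trans_lt hn⟩) (hB _)
  choose c hc using hs
  have b5 : ∀ τ, ∃ j ≤ N ^ 2, μ τ = sr (c (b j)) := fun τ => by
    obtain ⟨k, k1, k2⟩ := exists_shift hn 0 τ
    obtain ⟨j, j1, j2, j3⟩ := b3 _ k1
    refine ⟨j, j1, ?_⟩
    rw [← hc, ← h.per τ k]
    exact DETx.const h j2 fun t ht => hB' t ⟨(b4 j).1.trans ht.1.le, by linarith [ht.2]⟩ (j3 t ht)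
  refine hC m hm (fun k => c (b k)) (fun k _ => ?_) fun A hA => ?_
  · rcases b2 k with e | ⟨e1, e2⟩
    · exact .inl (by simp only [e])
    obtain ⟨a, a1, a2⟩ := h.step (b (k + 1))
    obtain ⟨t, t1, t2⟩ := (a1.and (Ioo_mem_nhdsLT e1)).exists
    have t3 : a = sr (c (b k)) := by
      rw [← t1, ← hc]
      exact DETx.const h t2.1.le fun u hu => hB' u
        ⟨(b4 k).1.trans hu.1.le, (hu.2.trans_lt t2.2).trans (b4 _).2⟩
        (e2 u ⟨hu.1, hu.2.trans_lt t2.2⟩)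
    rw [hc, t3] at a2
    rcases a2 with a2 | ⟨-, -, τ1, -, -, -, -, a2⟩
    · exact .inl (sr.inj a2)
    · obtain ⟨j, j1, j2⟩ := b5 τ1
      rw [j2, inv_sr, or_self, sr_mul_sr, r_mul_sr] at a2
      exact .inr ⟨j, j1, (sr.inj a2).trans (by ring)⟩
  · have : Subgroup.closure (range μ) ≤ DETx.sub A (c (b 0)) := by
      rw [Subgroup.closure_le]
      rintro _ ⟨τ, rfl⟩
      obtain ⟨j, j1, j2⟩ := b5 τ
      exact .inr ⟨_, hA j j1, by rw [j2, add_sub_cancel]⟩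
    rw [eq_top_iff]
    intro i _
    rcases this (hg.ge (Subgroup.mem_top (r i))) with ⟨j, hj, e⟩ | ⟨j, -, e⟩
    · exact r.inj e ▸ hj
    · cases e

end Pool.Agent.P.MP_28369d_gt.SB
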