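import Pool.Agent.P.MP_28369d_gt.SB.Tools

/-! Developments on convex sets and on the front region; tubes. -/

namespace Pool.Agent.P.MP_28369d_gt.SB

open Set Filter Topology
open scoped RealInnerProductSpace Pointwise

namespace EXTx

variable {G : Type} [Group G] {ω : E → E → G}

/-- Compatible developments can be patched. -/
theorem patch {U : Set E} (A : Set E → (E → G) → Prop)
    (h1 : ∀ V f, A V f → IsOpen V ∧ Dev ω V f)
    (h2 : ∀ V f W g, A V f → A W g → ∀ p ∈ V, p ∈ W → f p = g p)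
    (h3 : ∀ p ∈ U, ∃ V f, A V f ∧ p ∈ V) : ∃ f, Dev ω U f := by
  classical
  refine ⟨fun p => if h : ∃ x : Set E × (E → G), A x.1 x.2 ∧ p ∈ x.1 then h.choose.2 p else 1,
    Dev.of_local fun p hp => ?_⟩
  obtain ⟨V, f, a, b⟩ := h3 p hp
  refine ⟨f, V, b, (h1 V f a).2, 1, ?_⟩
  filter_upwards [(h1 V f a).1.mem_nhds b] with q hq
  have h : ∃ x : Set E × (E → G), A x.1 x.2 ∧ q ∈ x.1 := ⟨(V, f), a, hq⟩
  rw [dif_pos h, one_mul]
  exact h2 _ _ _ _ h.choose_spec.1 a q h.choose_spec.2 hq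

theorem glue {V W : Set E} {f g : E → G} (hV : IsOpen V) (hW : IsOpen W) (hf : Dev ω V f)
    (hg : Dev ω W g) (h : IsPreconnected (V ∩ W)) : ∃ f, Dev ω (V ∪ W) f := by
  obtain ⟨c, hc⟩ := (hf.mono inter_subset_left).exists_const (hg.mono inter_subset_right) h
  refine patch (fun X k => (X = V ∧ k = f) ∨ (X = W ∧ k = fun p => c * g p)) ?_ ?_ ?_
  · rintro _ _ (⟨rfl, rfl⟩ | ⟨rfl, rfl⟩)
    exacts [⟨hV, hf⟩, ⟨hW, hg.mul_left c⟩]
  · rintro _ _ _ _ (⟨e1, e2⟩ | ⟨e1, e2⟩) (⟨e3, e4⟩ | ⟨e3, e4⟩) p a b <;> rw [e1] at a <;>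
      rw [e3] at b <;> rw [e2, e4]
    exacts [hc p ⟨a, b⟩, (hc p ⟨b, a⟩).symm]
  · rintro p (hp | hp)
    exacts [⟨V, f, Or.inl ⟨rfl, rfl⟩, hp⟩, ⟨W, _, Or.inr ⟨rfl, rfl⟩, hp⟩]

/-- An open convex set with a development joins `c` to `p`. -/
def Good (ω : E → E → G) (c p : E) : Prop :=
  ∃ V, IsOpen V ∧ Convex ℝ V ∧ c ∈ V ∧ p ∈ V ∧ ∃ f, Dev ω V f

theorem step {c p : E} {N : Set E} {g : E → G} (hN : IsOpen N) (hN' : Convex ℝ N)
    (hg : Dev ω N g) {t t' : ℝ} (ht' : 0 ≤ t') (h1 : AffineMap.lineMap c p t ∈ N)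
    (h2 : AffineMap.lineMap c p t' ∈ N) (h : Good ω c (AffineMap.lineMap c p t)) :
    Good ω c (AffineMap.lineMap c p t') := by
  obtain ⟨V, a1, a2, a3, a4, f, a5⟩ := h
  obtain ⟨k, hk⟩ := glue a1 hN a5 hg (a2.inter hN').isPreconnected
  have hS : (AffineMap.lineMap c p : ℝ →ᵃ[ℝ] E) '' Icc 0 t' ⊆ V ∪ N := by
    rintro _ ⟨s, hs, rfl⟩
    rcases le_total s t with h3 | h3
    · exact Or.inl ((a2.affine_preimage (AffineMap.lineMap c p : ℝ →ᵃ[ℝ] E)).ordConnected.out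
        (show (0 : ℝ) ∈ _ by simpa using a3) a4 ⟨hs.1, h3⟩)
    · exact Or.inr ((hN'.affine_preimage (AffineMap.lineMap c p : ℝ →ᵃ[ℝ] E)).ordConnected.out
        h1 h2 ⟨h3, hs.2⟩)
  obtain ⟨δ, hδ, h3⟩ := (isCompact_Icc.image AffineMap.lineMap_continuous
    ).exists_thickening_subset_open (a1.union hN) hS
  exact ⟨_, Metric.isOpen_thickening, ((convex_Icc 0 t').affine_image _).thickening δ,
    Metric.self_subset_thickening hδ _ ⟨0, ⟨le_rfl, ht'⟩, by simp⟩,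
    Metric.self_subset_thickening hδ _ ⟨t', ⟨ht', le_rfl⟩, rfl⟩, k, hk.mono h3⟩

theorem loc {U : Set E} (hU : LocSys ω U) {x : E} (hx : x ∈ U) :
    ∃ N, IsOpen N ∧ Convex ℝ N ∧ x ∈ N ∧ ∃ g, Dev ω N g := by
  obtain ⟨N, h1, h2, g, h3⟩ := hU x hx
  obtain ⟨δ, hδ, h4⟩ := Metric.isOpen_iff.1 h1 x h2
  exact ⟨_, Metric.isOpen_ball, convex_ball x δ, Metric.mem_ball_self hδ, g, h3.mono h4⟩

theorem good {U C : Set E} (hU : LocSys ω U) (hC : Convex ℝ C) (hCU : C ⊆ U) {c p : E}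
    (hc : c ∈ C) (hp : p ∈ C) : Good ω c p := by
  have h := const_of_ev (S := Icc (0 : ℝ) 1) isPreconnected_Icc
    (F := fun t => Good ω c (AffineMap.lineMap c p t)) (fun t ht => ?_) (p := 0) (q := 1)
    ⟨le_rfl, zero_le_one⟩ ⟨zero_le_one, le_rfl⟩
  · simp only [AffineMap.lineMap_apply_zero, AffineMap.lineMap_apply_one] at h
    obtain ⟨N, h1, h2, h3, g⟩ := loc hU (hCU hc)
    exact h ▸ ⟨N, h1, h2, h3, h3, g⟩
  · obtain ⟨N, h1, h2, h3, g, h4⟩ := loc hU (hCU (hC.lineMap_mem hc hp ht))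
    filter_upwards [self_mem_nhdsWithin, mem_nhdsWithin_of_mem_nhds
      ((h1.preimage AffineMap.lineMap_continuous).mem_nhds h3)] with s hs hs'
    exact propext ⟨step h1 h2 h4 ht.1 hs' h3, step h1 h2 h4 hs.1 h3 hs'⟩

theorem closed_sweep {K : Set E} (hK : IsCompact K) (d : E) {A : Set ℝ} (hA : IsClosed A) :
    IsClosed {p : E | ∃ t ∈ A, p + t • d ∈ K} := by
  have h1 : IsClosed ((fun t : ℝ => t • -d) '' A) := by
    rcases eq_or_ne d 0 with rfl | hd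
    · refine ((finite_singleton (0 : E)).subset ?_).isClosed
      rintro _ ⟨t, -, rfl⟩
      simp
    · exact (isClosedEmbedding_smul_left (neg_ne_zero.2 hd)).isClosedMap _ hA
  have e : {p : E | ∃ t ∈ A, p + t • d ∈ K} = K + (fun t : ℝ => t • -d) '' A := by
    ext p
    constructor
    · rintro ⟨t, ht, h⟩
      exact ⟨_, h, _, ⟨t, ht, rfl⟩, by simp⟩
    · rintro ⟨x, hx, _, ⟨t, ht, rfl⟩, rfl⟩
      exact ⟨t, ht, by simpa using hx⟩
  rw [e]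
  exact h1.add_left_of_isCompact hK

end EXTx

open EXTx

theorem s_EXT : S_EXT := by
  intro G _ ω U C hU _ hC hCU
  rcases C.eq_empty_or_nonempty with rfl | ⟨c, hc⟩
  · exact ⟨fun _ => 1, fun _ h => h.elim⟩
  refine patch (fun V f => IsOpen V ∧ Convex ℝ V ∧ c ∈ V ∧ Dev ω V f ∧ f c = 1)
    (fun V f h => ⟨h.1, h.2.2.2.1⟩) (fun V f W g a b p h1 h2 => ?_) fun p hp => ?_
  · exact (a.2.2.2.1.mono inter_subset_left).eq_on (b.2.2.2.1.mono inter_subset_right)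
      (a.2.1.inter b.2.1).isPreconnected ⟨a.2.2.1, b.2.2.1⟩ (a.2.2.2.2.trans b.2.2.2.2.symm) p
      ⟨h1, h2⟩
  · obtain ⟨V, a1, a2, a3, a4, f, a5⟩ := good hU hC hCU hc hp
    exact ⟨V, _, ⟨a1, a2, a3, a5.mul_left (f c)⁻¹, inv_mul_cancel _⟩, a4⟩

theorem s_FRONT (hE : S_EXT) : S_FRONT := by
  intro G _ ω K d hK hd hω
  have hO : IsOpen (Vf K d) := by
    have e : Vf K d = {p : E | ∃ t ∈ Ici (0 : ℝ), p + t • d ∈ K}ᶜ := by
      ext p
      simp [Vf]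
    rw [e]
    exact (closed_sweep hK d isClosed_Ici).isOpen_compl
  refine ⟨hO, ?_⟩
  have hc : Continuous fun p : E => ⟪d, p⟫ := by fun_prop
  obtain ⟨R, hR⟩ := (hK.image hc).bddAbove
  have hF : Convex ℝ {p : E | R < ⟪d, p⟫} := convex_halfSpace_gt (innerSL ℝ d).isLinear R
  obtain ⟨k, hk⟩ := hE G ω Kᶜ {p : E | R < ⟪d, p⟫} hω (isOpen_lt continuous_const hc) hF
    fun p hp h => absurd (hR ⟨p, h, rfl⟩) (not_le.2 hp)
  refine patch (fun V f => IsOpen V ∧ Convex ℝ V ∧ (∀ q ∈ V, ∀ t : ℝ, 0 ≤ t → q + t • d ∈ V) ∧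
      Dev ω V f ∧ ∀ q ∈ V, R < ⟪d, q⟫ → k q = f q)
    (fun V f h => ⟨h.1, h.2.2.2.1⟩) (fun V f W g a b p h1 h2 => ?_) fun p hp => ?_
  · have h0 : 0 < ⟪d, d⟫ := real_inner_self_pos.2 hd
    have h3 : 0 ≤ (|R - ⟪d, p⟫| + 1) / ⟪d, d⟫ := by positivity
    have h4 : R < ⟪d, p + ((|R - ⟪d, p⟫| + 1) / ⟪d, d⟫) • d⟫ := by
      rw [inner_add_right, real_inner_smul_right, div_mul_cancel₀ _ h0.ne']
      linarith [le_abs_self (R - ⟪d, p⟫)]
    exact (a.2.2.2.1.mono inter_subset_left).eq_on (b.2.2.2.1.mono inter_subset_right)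
      (a.2.1.inter b.2.1).isPreconnected ⟨a.2.2.1 p h1 _ h3, b.2.2.1 p h2 _ h3⟩
      ((a.2.2.2.2 _ (a.2.2.1 p h1 _ h3) h4).symm.trans (b.2.2.2.2 _ (b.2.2.1 p h2 _ h3) h4)) p
      ⟨h1, h2⟩
  · obtain ⟨δ, hδ, h1⟩ := Metric.isOpen_iff.1 hO p hp
    have h2 : IsOpen (Metric.ball p δ + (fun t : ℝ => t • d) '' Ici 0) :=
      Metric.isOpen_ball.add_right
    have h3 : Convex ℝ (Metric.ball p δ + (fun t : ℝ => t • d) '' Ici 0) :=
      (convex_ball p δ).add ((convex_Ici 0).linear_image (LinearMap.toSpanSingleton ℝ E d))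
    obtain ⟨g, hg⟩ := hE G ω Kᶜ _ hω h2 h3 (by
      rintro _ ⟨x, hx, _, ⟨t, ht, rfl⟩, rfl⟩
      exact h1 hx t ht)
    obtain ⟨c, h4⟩ := (hk.mono inter_subset_right).exists_const (hg.mono inter_subset_left)
      (h3.inter hF).isPreconnected
    refine ⟨_, _, ⟨h2, h3, ?_, hg.mul_left c, fun q a b => h4 q ⟨a, b⟩⟩,
      p, Metric.mem_ball_self hδ, _, ⟨0, le_refl (0 : ℝ), rfl⟩, by simp⟩
    rintro _ ⟨x, hx, _, ⟨t, ht, rfl⟩, rfl⟩ s hs
    exact ⟨x, hx, _, ⟨t + s, add_nonneg ht hs, rfl⟩, by simp only [add_smul, add_assoc]⟩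

theorem s_TUBE : S_TUBE := by
  intro Q d x O hO h
  have h1 : IsOpen (⋃ k : ℤ, (fun τ : ℝ => τ + k * Q.n) ⁻¹' O) :=
    isOpen_iUnion fun k => hO.preimage (by fun_prop)
  have h2 := closed_sweep (((isCompact_Icc (a := (0 : ℝ)) (b := Q.n)).diff h1).image
    Q.continuous_γ) d isClosed_univ
  filter_upwards [h2.isOpen_compl.mem_nhds (x := x) (by
    rintro ⟨r, -, τ, hτ, e⟩
    exact hτ.2 (mem_iUnion.2 (h τ r e)))] with p hp τ r e
  have hn : (0 : ℝ) < Q.n := Nat.cast_pos.2 Q.pos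
  obtain ⟨k, hk, -⟩ := existsUnique_add_zsmul_mem_Ico hn τ 0
  rw [zsmul_eq_mul, zero_add] at hk
  by_contra h3
  refine hp ⟨r, trivial, τ + k * Q.n, ⟨Ico_subset_Icc_self hk, fun h4 => h3 ?_⟩, by
    rw [Q.γ_per, e]⟩
  obtain ⟨l, hl⟩ := mem_iUnion.1 h4
  exact ⟨k + l, by rw [Int.cast_add, add_mul, ← add_assoc]; exact hl⟩

end Pool.Agent.P.MP_28369d_gt.SB
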