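import Pool.Agent.P.MP_28369d_gt.SB.Tools

namespace Pool.Agent.P.MP_28369d_gt.SB

open Set Filter Topology
open scoped RealInnerProductSpace

namespace F0x

variable {G : Type} [Group G]

theorem exists_hol {X : Type} [TopologicalSpace X] [PathConnectedSpace X] {p : X}
    (ρ : FundamentalGroup X p →* G) (hρ : Function.Surjective ρ) :
    ∃ hol : ∀ {x y : X}, Path x y → G,
      (∀ (x y z : X) (α : Path x y) (β : Path y z), hol (α.trans β) = hol α * hol β) ∧
      (∀ (x y : X) (α β : Path x y), α.Homotopic β → hol α = hol β) ∧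
      ∀ g, ∃ l : Path p p, hol l = g := by
  let c : ∀ x : X, Path.Homotopic.Quotient p x := fun x => .mk (PathConnectedSpace.somePath p x)
  refine ⟨fun {x y} α => (ρ (FundamentalGroup.fromPath
    (((c x).trans (.mk α)).trans (c y).symm)))⁻¹, fun x y z α β => ?_, fun x y α β h => ?_,
    fun g => ?_⟩
  · rw [← mul_inv_rev, ← map_mul, FundamentalGroup.mul_def]
    refine congrArg (fun q => (ρ q)⁻¹) ?_
    change _ = Path.Homotopic.Quotient.trans (((c x).trans (.mk α)).trans (c y).symm)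
      (((c y).trans (.mk β)).trans (c z).symm)
    rw [Path.Homotopic.Quotient.mk_trans]
    simp only [Path.Homotopic.Quotient.trans_assoc]
    rw [← Path.Homotopic.Quotient.trans_assoc (c y).symm, Path.Homotopic.Quotient.symm_trans,
      Path.Homotopic.Quotient.refl_trans]
  · simp only [Path.Homotopic.Quotient.eq.2 h]
  · obtain ⟨q, hq⟩ := hρ g⁻¹
    obtain ⟨l, hl⟩ := Path.Homotopic.Quotient.mk_surjective
      ((c p).symm.trans ((FundamentalGroup.toPath q).trans (c p)))
    refine ⟨l, ?_⟩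
    rw [inv_eq_iff_eq_inv, ← hq, hl]
    refine congrArg ρ ?_
    change _ = FundamentalGroup.toPath q
    rw [← Path.Homotopic.Quotient.trans_assoc (c p), Path.Homotopic.Quotient.trans_symm,
      Path.Homotopic.Quotient.refl_trans, Path.Homotopic.Quotient.trans_assoc,
      Path.Homotopic.Quotient.trans_symm, Path.Homotopic.Quotient.trans_refl]

variable {U N : Set E}

theorem homotopic (hN : Convex ℝ N) (hU : N ⊆ U) {x y : U} (α β : Path x y)
    (h1 : ∀ t, (α t : E) ∈ N) (h2 : ∀ t, (β t : E) ∈ N) : α.Homotopic β := by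
  refine ⟨⟨⟨⟨fun q => ⟨(1 - (q.1 : ℝ)) • (α q.2 : E) + (q.1 : ℝ) • (β q.2 : E),
    hU (hN (h1 _) (h2 _) (sub_nonneg.2 q.1.2.2) q.1.2.1 (sub_add_cancel _ _))⟩, by fun_prop⟩,
    fun t => Subtype.ext (by simp), fun t => Subtype.ext (by simp)⟩, fun s t ht => ?_⟩⟩
  refine Subtype.ext ?_
  rcases ht with rfl | rfl <;> simp [← add_smul]

theorem exists_path {x y : U} (h : segment ℝ (x : E) y ⊆ U) :
    ∃ α : Path x y, ∀ t, (α t : E) ∈ segment ℝ (x : E) y := by
  obtain ⟨γ, hγ⟩ := JoinedIn.of_segment_subset (Subset.refl (segment ℝ (x : E) y))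
  exact ⟨⟨⟨fun t => ⟨γ t, h (hγ t)⟩, by fun_prop⟩, Subtype.ext γ.source, Subtype.ext γ.target⟩, hγ⟩

end F0x

open F0x in
theorem s_F0 : S_F0 := by
  classical
  intro G _ U p ρ hU hc hρ
  have : PathConnectedSpace U := isPathConnected_iff_pathConnectedSpace.1
    (hU.isConnected_iff_isPathConnected.1 ⟨⟨p, p.2⟩, hc⟩)
  obtain ⟨hol, h1, h2, h3⟩ := exists_hol ρ hρ
  obtain ⟨ω, K⟩ : ∃ ω : E → E → G, ∀ N, Convex ℝ N → N ⊆ U → ∀ (x y : U) (α : Path x y),
      (∀ t, (α t : E) ∈ N) → hol α = ω x y := by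
    refine ⟨fun x y => if h : segment ℝ x y ⊆ U then hol (exists_path
      (x := ⟨x, h (left_mem_segment ℝ x y)⟩) (y := ⟨y, h (right_mem_segment ℝ x y)⟩) h).choose
      else 1, fun N hN hNU x y α hα => ?_⟩
    have hs : segment ℝ (x : E) y ⊆ N :=
      hN.segment_subset (α.source ▸ hα 0) (α.target ▸ hα 1)
    simp only [dif_pos (hs.trans hNU)]
    exact h2 _ _ _ _ (homotopic hN hNU _ _ hα fun t =>
      hs ((exists_path (x := x) (y := y) (hs.trans hNU)).choose_spec t))
  refine ⟨ω, fun x hx => ?_, FullAt.full (fun S hS => ?_) p.2 hc⟩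
  · obtain ⟨ε, hε, hb⟩ := Metric.isOpen_iff.1 hU x hx
    have hN := convex_ball x ε
    have hx' := Metric.mem_ball_self (x := x) hε
    refine ⟨_, Metric.isOpen_ball, hx', ω x, fun y hy => ?_⟩
    filter_upwards [Metric.isOpen_ball.mem_nhds hy] with z hz
    obtain ⟨α, hα⟩ := exists_path (x := ⟨x, hx⟩) (y := ⟨y, hb hy⟩)
      ((hN.segment_subset hx' hy).trans hb)
    obtain ⟨β, hβ⟩ := exists_path (x := ⟨y, hb hy⟩) (y := ⟨z, hb hz⟩)
      ((hN.segment_subset hy hz).trans hb)
    have a1 := fun t => hN.segment_subset hx' hy (hα t)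
    have a2 := fun t => hN.segment_subset hy hz (hβ t)
    have a3 := K _ hN hb _ _ (α.trans β) fun t => by
      have : α.trans β t ∈ range α ∪ range β := Path.trans_range α β ▸ mem_range_self t
      rcases this with ⟨s, e⟩ | ⟨s, e⟩
      exacts [e ▸ a1 s, e ▸ a2 s]
    rw [h1, K _ hN hb _ _ α a1, K _ hN hb _ _ β a2] at a3
    exact a3.symm
  · intro g g' hg
    obtain ⟨l, hl⟩ := h3 (g⁻¹ * g')
    have a1 := const_of_ev' (F := fun t => S (l t) (g * hol (l.subpath 0 t))) isPreconnected_univ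
      (fun t _ => ?_) (mem_univ 0) (mem_univ 1)
    · have a2 : ∀ x : U, hol (Path.refl x) = 1 := fun x => by
        have := (h2 _ _ _ _ (Path.Homotopic.refl_trans (Path.refl x))).symm.trans (h1 _ _ _ _ _)
        exact left_eq_mul.1 this
      have a3 : ∀ (x y : U) (hx : x = p) (hy : y = p), hol (l.cast hx hy) = hol l := by
        rintro _ _ rfl rfl
        rfl
      simp only [Path.subpath_self, Path.subpath_zero_one, a2, a3, hl, mul_one,
        mul_inv_cancel_left] at a1
      rw [l.source, l.target] at a1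
      exact a1 ▸ hg
    · obtain ⟨ε, hε, hb⟩ := Metric.isOpen_iff.1 hU (l t) (l t).2
      have hl' : ContinuousAt (fun s => (l s : E)) t := by fun_prop
      filter_upwards [hl'.eventually (hS _ (l t).2), ordConnectedComponent_mem_nhds.2
        (hl'.preimage_mem_nhds (Metric.ball_mem_nhds _ hε))] with s b1 b2
      rw [eq_iff_iff, b1, mul_assoc, ← K _ (convex_ball _ ε) hb _ _ (l.subpath t s), ← h1,
        h2 _ _ _ _ ⟨Path.Homotopy.subpathTransSubpath l 0 t s⟩]
      intro r
      have : l.subpath t s r ∈ l '' uIcc t s := Path.range_subpath l t s ▸ mem_range_self r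
      obtain ⟨u, hu, e⟩ := this
      exact e ▸ b2 hu

end Pool.Agent.P.MP_28369d_gt.SB
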