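import Pool.Agent.P.MP_28369d_gt.SB.Tools

/-!
Generic diagrams: every polygon has a small perturbation whose projection is regular.
-/

namespace Pool.Agent.P.MP_28369d_gt.SB

open Set Filter Topology
open scoped RealInnerProductSpace

namespace GDx

theorem dense_ne {V : Type} [NormedAddCommGroup V] [NormedSpace ℝ V] {F : V → ℝ}
    (hF : ∀ x, AnalyticAt ℝ F x) (h : ∃ x, F x ≠ 0) : IsOpen {x | F x ≠ 0} ∧ Dense {x | F x ≠ 0} := by
  have hc : Continuous F := continuous_iff_continuousAt.2 fun x => (hF x).continuousAt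
  refine ⟨isOpen_ne_fun hc continuous_const, fun x => ?_⟩
  by_contra hx
  obtain ⟨y, hy⟩ := h
  have h1 : F =ᶠ[𝓝 x] 0 := by
    have h2 : (closure {x | F x ≠ 0})ᶜ ∈ 𝓝 x := isClosed_closure.isOpen_compl.mem_nhds hx
    filter_upwards [h2] with z hz
    by_contra h3
    exact hz (subset_closure h3)
  have h4 : AnalyticOnNhd ℝ F univ := fun z _ => hF z
  exact hy (h4.eqOn_zero_of_preconnected_of_eventuallyEq_zero isPreconnected_univ (mem_univ x) h1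
    (mem_univ y))

theorem dense_imp {V : Type} [NormedAddCommGroup V] [NormedSpace ℝ V] {F : V → ℝ} (A : Prop)
    (hF : ∀ x, AnalyticAt ℝ F x) (h : A → ∃ x, F x ≠ 0) :
    IsOpen {x | A → F x ≠ 0} ∧ Dense {x | A → F x ≠ 0} := by
  by_cases hA : A
  · simpa [hA] using dense_ne hF (h hA)
  · simp [hA]

theorem an_co {ι : Type} [Fintype ι] (i : ι) (c : Fin 3) (x : ι → E) :
    AnalyticAt ℝ (fun w : ι → E => w i c) x :=
  ((EuclideanSpace.proj c : E →L[ℝ] ℝ).comp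
    (ContinuousLinearMap.proj i : (ι → E) →L[ℝ] E)).analyticAt x

theorem an_det {ι : Type} [Fintype ι] (d : E) {f g : (ι → E) → E} {x : ι → E}
    (hf : ∀ c, AnalyticAt ℝ (fun w => f w c) x) (hg : ∀ c, AnalyticAt ℝ (fun w => g w c) x) :
    AnalyticAt ℝ (fun w => det3 d (f w) (g w)) x := by
  simp only [det3_eq]
  exact (((((hf 2).const_smul (c := d 1)).sub ((hf 1).const_smul (c := d 2))).mul (hg 0)).add
    ((((hf 0).const_smul (c := d 2)).sub ((hf 2).const_smul (c := d 0))).mul (hg 1))).add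
    ((((hf 1).const_smul (c := d 0)).sub ((hf 0).const_smul (c := d 1))).mul (hg 2))

theorem an_sub {ι : Type} [Fintype ι] (i j : ι) (x : ι → E) (c : Fin 3) :
    AnalyticAt ℝ (fun w : ι → E => (w i - w j) c) x := (an_co i c x).sub (an_co j c x)

theorem exists_basis {d : E} (hd : d ≠ 0) : ∃ b1 b2 : E, det3 d b1 b2 ≠ 0 := by
  by_contra h
  push Not at h
  have h0 := h (pt 0 1 0) (pt 0 0 1)
  have h1 := h (pt 0 0 1) (pt 1 0 0)
  have h2 := h (pt 1 0 0) (pt 0 1 0)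
  simp [det3_eq] at h0 h1 h2
  exact hd (E_ext h0 h1 h2)

/-- The concurrency condition for three lines in the projection. -/
noncomputable def F2 (d a a' b b' c c' : E) : ℝ :=
  det3 d (a' - a) a * det3 d (b' - b) (c' - c) + det3 d (b' - b) b * det3 d (c' - c) (a' - a) +
    det3 d (c' - c) c * det3 d (a' - a) (b' - b)

theorem F2_eq_zero {d a a' b b' c c' : E} {s t u r2 r3 : ℝ}
    (h2 : b + t • (b' - b) = a + s • (a' - a) + r2 • d)
    (h3 : c + u • (c' - c) = a + s • (a' - a) + r3 • d) : F2 d a a' b b' c c' = 0 := by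
  unfold F2
  generalize a' - a = e1 at *
  generalize b' - b = e2 at *
  generalize c' - c = e3 at *
  have hb : b = a + s • e1 + r2 • d - t • e2 := eq_sub_of_add_eq h2
  have hc : c = a + s • e1 + r3 • d - u • e3 := eq_sub_of_add_eq h3
  rw [hb, hc]
  simp only [det3_eq, PiLp.add_apply, PiLp.sub_apply, PiLp.smul_apply, smul_eq_mul]
  ring

/-- The edges `i` and `j` are different and `j` does not follow `i`. -/
def NA (n : ℕ) (i j : ℤ) : Prop := ¬ (n : ℤ) ∣ j - i ∧ ¬ (n : ℤ) ∣ j - (i + 1)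

theorem nonadj {Q : Poly} {d : E}
    (h1 : ∀ i j k : ℤ, ¬ (Q.n : ℤ) ∣ j - i → ¬ (Q.n : ℤ) ∣ k - i → ¬ (Q.n : ℤ) ∣ k - j →
      det3 d (Q.v j - Q.v i) (Q.v k - Q.v i) ≠ 0) {τ τ' r : ℝ} (h : Q.γ τ' = Q.γ τ + r • d)
    (hne : Q.γ τ ≠ Q.γ τ') : NA Q.n ⌊τ⌋ ⌊τ'⌋ := by
  have h3 := Q.three_le
  have key := h1 ⌊τ⌋ (⌊τ⌋ + 1) (⌊τ⌋ + 1 + 1) (not_dvd_of_lt (by omega) (by simp; omega))
    (not_dvd_of_lt (by omega) (by rw [abs_lt]; constructor <;> omega))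
    (not_dvd_of_lt (by omega) (by simp; omega))
  have hs := Int.fract_lt_one τ
  simp only [Poly.γ, pl] at h hne
  generalize Int.fract τ = s at *
  generalize Int.fract τ' = t at *
  constructor
  · intro hd
    rw [per_of_dvd Q.per hd, per_of_dvd Q.per (i := ⌊τ⌋ + 1) (j := ⌊τ'⌋ + 1) (by simpa using hd)]
      at h hne
    have hst : t - s ≠ 0 := fun h0 => hne (by rw [sub_eq_zero.1 h0])
    have h4 : (t - s) • (Q.v (⌊τ⌋ + 1) - Q.v ⌊τ⌋) = r • d := by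
      rw [sub_smul, sub_eq_iff_eq_add, ← add_right_inj (Q.v ⌊τ⌋), h]
      abel
    have h5 := congrArg (det3 d (Q.v (⌊τ⌋ + 1 + 1) - Q.v ⌊τ⌋)) h4
    rw [det3_smul, det3_smul, det3_self_left, mul_zero, det3_swap] at h5
    exact key (neg_eq_zero.1 ((mul_eq_zero.1 h5).resolve_left hst))
  · intro hd
    rw [per_of_dvd Q.per hd, per_of_dvd Q.per (i := ⌊τ⌋ + 1 + 1) (j := ⌊τ'⌋ + 1)
      (by simpa using hd)] at h
    generalize Q.v ⌊τ⌋ = a at *
    generalize Q.v (⌊τ⌋ + 1) = b at *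
    generalize Q.v (⌊τ⌋ + 1 + 1) = c at *
    have h4 : (1 - s) • (b - a) = r • d - t • (c - b) := by
      have h6 : r • d = b + t • (c - b) - (a + s • (b - a)) := by rw [h]; abel
      rw [h6]
      module
    have h5 := congrArg (det3 d (c - b)) h4
    rw [det3_sub, det3_smul, det3_smul, det3_smul, det3_self_left, det3_self_right] at h5
    have h6 : det3 d (c - b) (b - a) = 0 := by
      have h7 : (1 - s) * det3 d (c - b) (b - a) = 0 := by rw [h5]; ring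
      exact (mul_eq_zero.1 h7).resolve_left (by linarith)
    apply key
    rw [show c - a = (c - b) + (b - a) by abel, det3_add, det3_self_right, det3_swap, h6]
    simp

theorem NA.ne {n : ℕ} {i j : ℤ} (h : NA n i j) :
    (i : ZMod n) ≠ j ∧ ((i + 1 : ℤ) : ZMod n) ≠ j :=
  ⟨fun h' => h.1 ((ZMod.intCast_eq_intCast_iff_dvd_sub _ _ _).1 h'),
    fun h' => h.2 ((ZMod.intCast_eq_intCast_iff_dvd_sub _ _ _).1 h')⟩

theorem exists_conf (n : ℕ) (hn : 3 ≤ n) {d : E} (hd : d ≠ 0) (v : ZMod n → E) {δ : ℝ}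
    (hδ : 0 < δ) : ∃ w : ZMod n → E, (∀ l, ‖w l - v l‖ ≤ δ) ∧
      (∀ i j k : ℤ, ¬ (n : ℤ) ∣ j - i → ¬ (n : ℤ) ∣ k - i → ¬ (n : ℤ) ∣ k - j →
        det3 d (w j - w i) (w k - w i) ≠ 0) ∧
      ∀ i j k : ℤ, NA n i j → NA n j i → NA n i k → NA n k i → NA n j k → NA n k j →
        F2 d (w i) (w (i + 1 : ℤ)) (w j) (w (j + 1 : ℤ)) (w k) (w (k + 1 : ℤ)) ≠ 0 := by
  classical
  have : NeZero n := ⟨by omega⟩
  obtain ⟨b1, b2, hb⟩ := exists_basis hd
  have A1 : ∀ p : ℤ × ℤ × ℤ, _ := fun p => dense_imp (V := ZMod n → E)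
    (F := fun w => det3 d (w p.2.1 - w p.1) (w p.2.2 - w p.1))
    (¬ (n : ℤ) ∣ p.2.1 - p.1 ∧ ¬ (n : ℤ) ∣ p.2.2 - p.1 ∧ ¬ (n : ℤ) ∣ p.2.2 - p.2.1)
    (fun x => an_det d (an_sub _ _ x) (an_sub _ _ x)) (by
      obtain ⟨i, j, k⟩ := p
      simp only [← ZMod.intCast_eq_intCast_iff_dvd_sub]
      rintro ⟨h1, h2, h3⟩
      refine ⟨fun l => if l = j then b1 else if l = k then b2 else 0, ?_⟩
      simpa [h1, h2, Ne.symm h3] using hb)
  have A2 : ∀ p : ℤ × ℤ × ℤ, _ := fun p => dense_imp (V := ZMod n → E)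
    (F := fun w => F2 d (w p.1) (w (p.1 + 1 : ℤ)) (w p.2.1) (w (p.2.1 + 1 : ℤ)) (w p.2.2)
      (w (p.2.2 + 1 : ℤ)))
    (NA n p.1 p.2.1 ∧ NA n p.2.1 p.1 ∧ NA n p.1 p.2.2 ∧ NA n p.2.2 p.1 ∧ NA n p.2.1 p.2.2 ∧
      NA n p.2.2 p.2.1)
    (fun x => (((an_det d (an_sub _ _ x) (an_co _ · x)).mul
        (an_det d (an_sub _ _ x) (an_sub _ _ x))).add
      ((an_det d (an_sub _ _ x) (an_co _ · x)).mul (an_det d (an_sub _ _ x) (an_sub _ _ x)))).add
      ((an_det d (an_sub _ _ x) (an_co _ · x)).mul (an_det d (an_sub _ _ x) (an_sub _ _ x)))) (by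
      obtain ⟨i, j, k⟩ := p
      rintro ⟨h1, h2, h3, h4, h5, h6⟩
      have e : ∀ l : ℤ, (l : ZMod n) ≠ ((l + 1 : ℤ) : ZMod n) := fun l h =>
        not_dvd_of_lt (by omega) (by simp; omega) ((ZMod.intCast_eq_intCast_iff_dvd_sub _ _ _).1 h)
      have e' : ∀ l l' : ℤ, (l : ZMod n) ≠ l' → ((l + 1 : ℤ) : ZMod n) ≠ ((l' + 1 : ℤ) : ZMod n) :=
        fun l l' h h' => h (by simpa using h')
      refine ⟨fun l => if l = ((i + 1 : ℤ) : ZMod n) ∨ l = k then b1 else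
        if l = ((j + 1 : ℤ) : ZMod n) ∨ l = ((k + 1 : ℤ) : ZMod n) then b2 else 0, ?_⟩
      simp only [e i, h3.ne.1, h2.ne.2.symm, h4.ne.2.symm, h1.ne.2.symm, h5.ne.1, e j,
        h6.ne.2.symm, e' _ _ h2.ne.1, h5.ne.2, e' _ _ h4.ne.1, (e k).symm, or_self, if_false,
        true_or, or_true, if_true]
      have h7 : F2 d 0 b1 0 b2 b1 b2 = -(det3 d b1 b2 * det3 d b1 b2) := by
        simp only [F2, det3_eq, PiLp.sub_apply, PiLp.zero_apply]
        ring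
      rw [h7]
      exact neg_ne_zero.2 (mul_ne_zero hb hb))
  have D := dense_iInter_of_isOpen (f := fun p : ℤ × ℤ × ℤ => _ ∩ _)
    (fun p => (A1 p).1.inter (A2 p).1) fun p => (A1 p).2.inter_of_isOpen_left (A2 p).2 (A1 p).1
  obtain ⟨w, hw1, hw2⟩ := D.exists_mem_open Metric.isOpen_ball ⟨v, Metric.mem_ball_self hδ⟩
  rw [mem_iInter] at hw1
  refine ⟨w, fun l => ?_, fun i j k h1 h2 h3 => (hw1 (i, j, k)).1 ⟨h1, h2, h3⟩,
    fun i j k h1 h2 h3 h4 h5 h6 => (hw1 (i, j, k)).2 ⟨h1, h2, h3, h4, h5, h6⟩⟩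
  exact (norm_le_pi_norm (w - v) l).trans (mem_ball_iff_norm.1 hw2).le

end GDx

open GDx in
theorem s_GD (hP : S_PERT) : S_GD := by
  intro P d hd δ hδ
  obtain ⟨δ', hδ', H⟩ := hP P
  have h3 := P.three_le
  have : NeZero P.n := ⟨by omega⟩
  obtain ⟨w, hw1, hw2, hw3⟩ := exists_conf P.n h3 hd (fun l => P.v (l.val : ℤ)) (lt_min hδ hδ')
  have hv : ∀ i : ℤ, ‖w i - P.v i‖ ≤ min δ δ' := fun i => by
    have h1 := hw1 i
    rwa [per_of_dvd P.per (i := i) (j := ((i : ZMod P.n).val : ℤ))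
      ((ZMod.intCast_eq_intCast_iff_dvd_sub _ _ _).1 (by simp))] at h1
  obtain ⟨Q, hn, hQ, hI⟩ := H (fun i => w i) (fun i => by simp) fun i => (hv i).trans (min_le_right _ _)
  have h1 : ∀ i j k : ℤ, ¬ (Q.n : ℤ) ∣ j - i → ¬ (Q.n : ℤ) ∣ k - i → ¬ (Q.n : ℤ) ∣ k - j →
      det3 d (Q.v j - Q.v i) (Q.v k - Q.v i) ≠ 0 := by
    rw [hn, hQ]
    exact hw2
  refine ⟨Q, hn, hI, ⟨h1, fun τ1 τ2 τ3 r2 r3 h2 h3 => ?_⟩, fun i => ?_⟩
  · by_contra hc
    push Not at hc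
    obtain ⟨c1, c2, c3⟩ := hc
    have a1 := nonadj h1 h2 c1
    have a2 := nonadj h1 (r := -r2) (τ := τ2) (τ' := τ1) (by rw [h2]; module) c1.symm
    have a3 := nonadj h1 h3 c2
    have a4 := nonadj h1 (r := -r3) (τ := τ3) (τ' := τ1) (by rw [h3]; module) c2.symm
    have a5 := nonadj h1 (r := r3 - r2) (τ := τ2) (τ' := τ3) (by rw [h2, h3]; module) c3
    have a6 := nonadj h1 (r := r2 - r3) (τ := τ3) (τ' := τ2) (by rw [h2, h3]; module) c3.symm
    rw [hn] at a1 a2 a3 a4 a5 a6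
    refine hw3 _ _ _ a1 a2 a3 a4 a5 a6 ?_
    simp only [Poly.γ, pl, hQ] at h2 h3
    exact F2_eq_zero h2 h3
  · rw [hQ]
    exact (hv i).trans (min_le_left _ _)

end Pool.Agent.P.MP_28369d_gt.SB
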