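import Pool.Agent.P.MP_28369d_gt.SB.Tools

set_option autoImplicit false

namespace Pool.Agent.P.MP_28369d_gt.SB

open Set Filter Topology
open scoped RealInnerProductSpace

namespace GRPx

open DihedralGroup

theorem sq_mem {G : Type} [Group G] {t1 t2 : G} (h1 : t1 * t1 = 1) (h2 : t2 * t2 = 1) {g : G}
    (hg : g ∈ Subgroup.closure {t1, t2}) : g * g ∈ Subgroup.zpowers (t1 * t2) := by
  have i1 : t1⁻¹ = t1 := inv_eq_of_mul_eq_one_right h1
  have i2 : t2⁻¹ = t2 := inv_eq_of_mul_eq_one_right h2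
  have c : ∀ x ∈ Subgroup.zpowers (t1 * t2), t1 * x * t1 = x⁻¹ := by
    rintro _ ⟨k, rfl⟩
    have e : t1 * (t1 * t2) * t1⁻¹ = (t1 * t2)⁻¹ := by
      rw [← mul_assoc, h1, one_mul, mul_inv_rev, i2]
    simp only
    rw [← inv_zpow, ← e, conj_zpow, i1]
  have key : g ∈ Subgroup.zpowers (t1 * t2) ∨ t1 * g ∈ Subgroup.zpowers (t1 * t2) := by
    induction hg using Subgroup.closure_induction with
    | mem x hx =>
      rcases hx with rfl | rfl
      · exact Or.inr (h1 ▸ one_mem _)
      · exact Or.inr (Subgroup.mem_zpowers _)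
    | one => exact Or.inl (one_mem _)
    | mul x y _ _ hx hy =>
      rcases hx with hx | hx <;> rcases hy with hy | hy
      · exact Or.inl (mul_mem hx hy)
      · refine Or.inr ?_
        have : t1 * (x * y) = (t1 * x * t1) * (t1 * y) := by
          simp only [mul_assoc]; rw [← mul_assoc t1 t1, h1, one_mul]
        rw [this, c x hx]
        exact mul_mem (inv_mem hx) hy
      · exact Or.inr (mul_assoc t1 x y ▸ mul_mem hx hy)
      · refine Or.inl ?_
        have : x * y = (t1 * (t1 * x) * t1) * (t1 * y) := by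
          simp only [mul_assoc]; rw [← mul_assoc t1 t1, h1, one_mul, ← mul_assoc t1 t1, h1, one_mul]
        rw [this, c _ hx]
        exact mul_mem (inv_mem hx) hy
    | inv x _ hx =>
      rcases hx with hx | hx
      · exact Or.inl (inv_mem hx)
      · refine Or.inr ?_
        have : t1 * x⁻¹ = t1 * (t1 * x)⁻¹ * t1 := by
          rw [mul_inv_rev, i1]; simp only [mul_assoc, h1, mul_one]
        rw [this, c _ (inv_mem hx), inv_inv]
        exact hx
  rcases key with k | k
  · exact mul_mem k k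
  · have : g * g = (t1 * (t1 * g) * t1) * (t1 * g) := by
      simp only [mul_assoc]; rw [← mul_assoc t1 t1, h1, one_mul, ← mul_assoc t1 t1, h1, one_mul]
    rw [this, c _ k, inv_mul_cancel]
    exact one_mem _

/-- the action on pairs -/
def fn {m : ℕ} {Y : Type} [AddCommGroup Y] [DecidableEq Y] (i : ZMod m) :
    DihedralGroup m → ZMod m × Y → ZMod m × Y
  | r k, p => if p.2 = 0 then (p.1 + k, p.2) else p
  | sr k, p => if p.2 = 0 then (-(p.1 + (k - i)), -p.2) else -p

theorem fn_one {m : ℕ} {Y : Type} [AddCommGroup Y] [DecidableEq Y] (i : ZMod m)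
    (p : ZMod m × Y) : fn i 1 p = p := by
  change (if p.2 = 0 then (p.1 + 0, p.2) else p) = p
  simp

theorem fn_mul {m : ℕ} {Y : Type} [AddCommGroup Y] [DecidableEq Y] (i : ZMod m)
    (g h : DihedralGroup m) (p : ZMod m × Y) : fn i (g * h) p = fn i g (fn i h p) := by
  cases g <;> cases h <;> simp only [r_mul_r, r_mul_sr, sr_mul_r, sr_mul_sr, fn] <;>
    by_cases hp : p.2 = 0 <;> simp [hp] <;> ring

/-- the action as a homomorphism -/
def act {m : ℕ} (Y : Type) [AddCommGroup Y] [DecidableEq Y] (i : ZMod m) :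
    DihedralGroup m →* Equiv.Perm (ZMod m × Y) where
  toFun g := ⟨fn i g, fn i g⁻¹, fun p => by rw [← fn_mul, inv_mul_cancel, fn_one],
    fun p => by rw [← fn_mul, mul_inv_cancel, fn_one]⟩
  map_one' := Equiv.ext (fn_one i)
  map_mul' g h := Equiv.ext (fn_mul i g h)

/-- the sign map -/
def sg {m1 : ℕ} (m2 : ℕ) (i : ZMod m1) : DihedralGroup m2 →* DihedralGroup m1 where
  toFun g := match g with
    | r _ => 1
    | sr _ => sr i
  map_one' := rfl
  map_mul' g h := by
    cases g <;> cases h <;> simp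

theorem two_ne {m : ℕ} (h : 3 ≤ m) : (1 : ZMod m) + 1 ≠ 0 := by
  have : ((2 : ℕ) : ZMod m) ≠ 0 := fun e =>
    absurd (Nat.le_of_dvd two_pos ((ZMod.natCast_eq_zero_iff 2 m).1 e)) (by omega)
  rwa [Nat.cast_succ, Nat.cast_one] at this

theorem sr_ne {m : ℕ} (i : ZMod m) : (sr i : DihedralGroup m) ≠ 1 := fun e => by cases e

end GRPx

open GRPx DihedralGroup in
theorem s_GRP : S_GRP := by
  refine ⟨fun G _ t1 t2 h1 h2 g hg h hh => ?_, fun m1 m2 _ _ a1 a2 i1 i2 => ?_,
    fun m1 m2 i1 i2 => ⟨sg m2 i1, rfl⟩, fun m A hA hc a ha => ?_, fun m i a g h _ h2 => ?_⟩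
  · obtain ⟨j, e1⟩ := sq_mem h1 h2 hg
    obtain ⟨k, e2⟩ := sq_mem h1 h2 hh
    rw [← e1, ← e2]
    exact Commute.zpow_zpow_self _ _ _
  · refine ⟨act (ZMod m2) i1, (Equiv.prodComm _ _).permCongrHom.toMonoidHom.comp
      (act (ZMod m1) i2), Equiv.ext fun p => ?_, fun hc => ?_⟩
    · change (if p.2 = 0 then (-(p.1 + (i1 - i1)), -p.2) else -p) =
        Prod.swap (if p.1 = 0 then (-(p.2 + (i2 - i2)), -p.1) else -p.swap)
      split_ifs <;> ext <;> simp
    · have b1 := two_ne a1
      have b2 := two_ne a2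
      have e1 : ∀ p : ZMod m1 × ZMod m2, act (ZMod m2) i1 (r 1) p =
          if p.2 = 0 then (p.1 + 1, p.2) else p := fun p => rfl
      have e2 : ∀ p : ZMod m1 × ZMod m2, ((Equiv.prodComm _ _).permCongrHom.toMonoidHom.comp
          (act (ZMod m1) i2)) (r 1) p =
          Prod.swap (if p.1 = 0 then (p.2 + 1, p.1) else p.swap) := fun p => rfl
      have := congrArg (fun f : Equiv.Perm (ZMod m1 × ZMod m2) => (f (0, 0)).1) hc.eq
      simp only [Equiv.Perm.mul_apply, e1, e2, if_true, zero_add, Prod.swap_prod_mk, if_neg b1,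
        if_neg b2] at this
      exact b1 this.symm
  · cases a with
    | sr i => exact ⟨i, rfl⟩
    | r k =>
      have : Subgroup.closure A ≤ (sg m (0 : ZMod m)).ker := (Subgroup.closure_le _).2 fun b hb =>
        isConj_one_right.1 ((sg m (0 : ZMod m)).map_isConj (hc _ ha b hb))
      exact absurd (this (hA ▸ Subgroup.mem_top (sr 0))) (sr_ne 0)
  · cases a with
    | sr j => exact ⟨j, rfl⟩
    | r k =>
      have : Subgroup.zpowers (r k) ≤ (sg m i).ker := (Subgroup.zpowers_le).2 rfl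
      have b := this h2
      rw [MonoidHom.mem_ker, map_mul, map_mul, map_inv, conj_eq_one_iff] at b
      exact absurd b (sr_ne i)

end Pool.Agent.P.MP_28369d_gt.SB
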