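import Pool.Agent.P.MP_28369d_gt.SB.Tools

namespace Pool.Agent.P.MP_28369d_gt.SB

open Set Filter Topology
open scoped RealInnerProductSpace

namespace MAXGx

theorem ev_nhds {τ : ℝ} {A : ℝ → Prop} (h1 : ∀ᶠ t in 𝓝[<] τ, A t) (h2 : A τ)
    (h3 : ∀ᶠ t in 𝓝[>] τ, A t) : ∀ᶠ t in 𝓝 τ, A t := by
  rw [← nhdsLT_sup_nhdsGE, ← Ioi_insert, nhdsWithin_insert]
  exact eventually_sup.2 ⟨h1, eventually_sup.2 ⟨h2, h3⟩⟩

theorem up_right (Q : Poly) (u : E) (i : ℤ) {τ : ℝ} (h0 : (i : ℝ) ≤ τ) (h1 : τ < i + 1)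
    (hs : 0 < ⟪Q.e i, u⟫) : ∀ᶠ t in 𝓝[>] τ, ⟪Q.γ τ, u⟫ < ⟪Q.γ t, u⟫ := by
  filter_upwards [Ioo_mem_nhdsGT h1] with t ht
  rw [← sub_pos, ← inner_sub_left, Q.γ_sub i (h0.trans ht.1.le) ht.2.le h0 h1.le, inner_smul_left]
  exact mul_pos (sub_pos.2 ht.1) hs

theorem up_left (Q : Poly) (u : E) (i : ℤ) {τ : ℝ} (h0 : (i : ℝ) < τ) (h1 : τ ≤ i + 1)
    (hs : ⟪Q.e i, u⟫ < 0) : ∀ᶠ t in 𝓝[<] τ, ⟪Q.γ τ, u⟫ < ⟪Q.γ t, u⟫ := by
  filter_upwards [Ioo_mem_nhdsLT h0] with t ht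
  rw [← sub_pos, ← inner_sub_left, Q.γ_sub i ht.1.le (ht.2.le.trans h1) h0.le h1, inner_smul_left]
  exact mul_pos_of_neg_of_neg (sub_neg.2 ht.2) hs

theorem edges (τ : ℝ) : ∃ i j : ℤ, (i : ℝ) ≤ τ ∧ τ < i + 1 ∧ (j : ℝ) < τ ∧ τ ≤ j + 1 ∧
    (i = j ∨ (i = j + 1 ∧ τ = j + 1)) := by
  have h1 : ((⌊τ⌋ : ℤ) : ℝ) ≤ τ := Int.floor_le τ
  have h2 : τ < (⌊τ⌋ : ℤ) + 1 := Int.lt_floor_add_one τ
  rcases h1.lt_or_eq with h | h
  · exact ⟨⌊τ⌋, ⌊τ⌋, h1, h2, h, h2.le, Or.inl rfl⟩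
  · refine ⟨⌊τ⌋, ⌊τ⌋ - 1, h1, h2, ?_, ?_, Or.inr ⟨by ring, ?_⟩⟩ <;> push_cast <;> linarith

end MAXGx

open MAXGx in
theorem s_MAXG : S_MAXG := by
  intro G _ ω Q d u μ X W
  refine ⟨fun τ τ' => ?_, fun hg hd H hH => ?_⟩
  · have := const_of_ev' (S := univ) isPreconnected_univ (F := fun t => IsConj (μ τ) (μ t))
      (p := τ) (q := τ') (fun p _ => ?_) (mem_univ _) (mem_univ _)
    · exact this ▸ IsConj.refl _
    · obtain ⟨a, ha, hs⟩ := W.step p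
      have hc : IsConj a (μ p) := by
        rcases hs with h | ⟨_, _, τ1, r, _, _, _, h | h⟩
        · rw [h]
        · exact isConj_iff.2 ⟨μ τ1, h.symm⟩
        · exact isConj_iff.2 ⟨(μ τ1)⁻¹, by rw [inv_inv]; exact h.symm⟩
      refine ev_nhds ?_ rfl ?_
      · filter_upwards [ha] with t ht
        rw [ht]
        exact propext ⟨fun h => h.trans hc, fun h => h.trans hc.symm⟩
      · filter_upwards [W.rc p] with t ht
        rw [ht]
  · by_contra hne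
    push Not at hne
    have hshift : ∀ τ, μ τ ∉ H → ∃ t ∈ {t | t ∈ Icc (0 : ℝ) Q.n ∧ μ t ∉ H}, Q.γ t = Q.γ τ := by
      intro τ hτ
      obtain ⟨k, h1, h2⟩ := exists_shift Q.n_pos 0 τ
      exact ⟨τ + k * Q.n, ⟨⟨h1, by linarith⟩, by rwa [W.per]⟩, Q.γ_per τ k⟩
    obtain ⟨τ', hτ'⟩ := hne
    obtain ⟨t', ht', _⟩ := hshift τ' hτ'
    have hcpt : IsCompact (closure {t | t ∈ Icc (0 : ℝ) Q.n ∧ μ t ∉ H}) :=
      isCompact_Icc.of_isClosed_subset isClosed_closure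
        (closure_minimal (fun t ht => ht.1) isClosed_Icc)
    have hz : Continuous fun t => ⟪Q.γ t, u⟫ := Q.continuous_γ.inner continuous_const
    obtain ⟨τ0, h0, hmax⟩ := hcpt.exists_isMaxOn ⟨t', subset_closure ht'⟩ hz.continuousOn
    have habove : ∀ t, ⟪Q.γ τ0, u⟫ < ⟪Q.γ t, u⟫ → μ t ∈ H := by
      intro t ht
      by_contra h
      obtain ⟨s, hs, e⟩ := hshift t h
      have := hmax (subset_closure hs)
      simp only [mem_setOf_eq, e] at this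
      exact absurd ht (not_lt.2 this)
    have hR : ∀ (τ : ℝ) (i : ℤ), ⟪Q.γ τ, u⟫ = ⟪Q.γ τ0, u⟫ → (i : ℝ) ≤ τ → τ < i + 1 →
        0 < ⟪Q.e i, u⟫ → μ τ ∈ H := by
      intro τ i e h1 h2 h3
      obtain ⟨t, ht, ht'⟩ := ((up_right Q u i h1 h2 h3).and (W.rc τ)).exists
      exact ht' ▸ habove t (e ▸ ht)
    have hL : ∀ (τ : ℝ) (i : ℤ) (a : G), ⟪Q.γ τ, u⟫ = ⟪Q.γ τ0, u⟫ → (i : ℝ) < τ → τ ≤ i + 1 →
        ⟪Q.e i, u⟫ < 0 → (∀ᶠ t in 𝓝[<] τ, μ t = a) → a ∈ H := by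
      intro τ i a e h1 h2 h3 h4
      obtain ⟨t, ht, ht'⟩ := ((up_left Q u i h1 h2 h3).and h4).exists
      exact ht' ▸ habove t (e ▸ ht)
    obtain ⟨a, ha, hs⟩ := W.step τ0
    obtain ⟨i, j, i1, i2, j1, j2, hij⟩ := edges τ0
    have hboth : μ τ0 ∈ H ∧ a ∈ H := by
      rcases hs with h | ⟨_, hni, τ1, r, e1, hni1, hloc, h⟩
      · rw [← h, and_self]
        rcases (hg i).lt_or_gt with si | si
        · rcases (hg j).lt_or_gt with sj | sj
          · exact h ▸ hL τ0 j a rfl j1 j2 sj ha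
          · rcases hij with e | ⟨e, e'⟩
            · rw [e] at si
              exact absurd si (not_lt.2 sj.le)
            · rw [e']
              exact hH j sj (e ▸ si)
        · exact hR τ0 i rfl i1 i2 si
      · have ez : ⟪Q.γ τ1, u⟫ = ⟪Q.γ τ0, u⟫ := by
          rw [e1, inner_add_left, inner_smul_left, hd, mul_zero, add_zero]
        have h1 : μ τ1 ∈ H := by
          obtain ⟨i', j', i1', i2', j1', j2', hij'⟩ := edges τ1
          rcases hij' with e | ⟨_, e'⟩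
          · subst e
            rcases (hg i').lt_or_gt with s | s
            · exact hL τ1 i' _ ez j1' j2' s (hloc.filter_mono nhdsWithin_le_nhds)
            · exact hR τ1 i' ez i1' i2' s
          · exact absurd (by rw [e']; push_cast; rfl) (hni1 (j' + 1))
        have hiff : μ τ0 ∈ H ↔ a ∈ H := by
          rcases h with h | h
          · rw [h, H.mul_mem_cancel_right (H.inv_mem h1), H.mul_mem_cancel_left h1]
          · rw [h, H.mul_mem_cancel_right h1, H.mul_mem_cancel_left (H.inv_mem h1)]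
        rcases hij with e | ⟨_, e'⟩
        · subst e
          rcases (hg i).lt_or_gt with s | s
          · have := hL τ0 i a rfl j1 j2 s ha
            exact ⟨hiff.2 this, this⟩
          · have := hR τ0 i rfl i1 i2 s
            exact ⟨this, hiff.1 this⟩
        · exact absurd (by rw [e']; push_cast; rfl) (hni (j + 1))
    have hev : ∀ᶠ t in 𝓝 τ0, μ t ∈ H := by
      refine ev_nhds ?_ hboth.1 ?_
      · filter_upwards [ha] with t ht
        exact ht ▸ hboth.2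
      · filter_upwards [W.rc τ0] with t ht
        exact ht ▸ hboth.1
    obtain ⟨t, ht, ht'⟩ := ((mem_closure_iff_frequently.1 h0).and_eventually hev).exists
    exact ht.2 ht'

end Pool.Agent.P.MP_28369d_gt.SB
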