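import Pool.Agent.P.MP_28369d_gt.SB.Tools

/-!
One side of a connected sum.
-/

namespace Pool.Agent.P.MP_28369d_gt.SB

open Set Filter Topology
open scoped RealInnerProductSpace

namespace SIDEx

theorem cvx_gt (w a : E) (s : ℝ) : Convex ℝ {p : E | s < ⟪w, p - a⟫} := by
  have h := convex_halfSpace_gt (𝕜 := ℝ) (f := fun p : E => ⟪w, p⟫)
    ⟨fun x y => inner_add_right _ _ _, fun c x => real_inner_smul_right _ _ _⟩ (s + ⟪w, a⟫)
  have e : {p : E | s < ⟪w, p - a⟫} = {p : E | s + ⟪w, a⟫ < ⟪w, p⟫} := by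
    ext p
    simp only [mem_ofPred_eq, inner_sub_right, lt_sub_iff_add_lt]
  rwa [e]

theorem cvx_lt (w a : E) : Convex ℝ {p : E | ⟪w, p - a⟫ < 0} := by
  simpa only [inner_neg_left, neg_pos] using cvx_gt (-w) a 0

theorem cvx_L (ε : ℝ) : Convex ℝ {p : E | ε * p 0 < 0} :=
  convex_halfSpace_lt (𝕜 := ℝ) (f := fun p : E => ε * p 0)
    ⟨fun x y => by simp [mul_add], fun c x => by simp [mul_left_comm]⟩ 0

theorem cvx_pl : Convex ℝ {p : E | p 0 = 0} :=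
  convex_hyperplane (𝕜 := ℝ) (f := fun p : E => p 0) ⟨fun x y => by simp, fun c x => by simp⟩ 0

theorem open_L (ε : ℝ) : IsOpen {p : E | ε * p 0 < 0} :=
  isOpen_lt (by fun_prop) continuous_const

theorem exists_near {c : E} {N : Set E} (hN : N ∈ 𝓝 c) (w : E) : ∃ t > (0 : ℝ), c + t • w ∈ N := by
  have h : Continuous fun t : ℝ => c + t • w := by fun_prop
  have h1 : ∀ᶠ t : ℝ in 𝓝 0, c + t • w ∈ N := h.continuousAt.preimage_mem_nhds (by simpa using hN)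
  have h2 : ∀ᶠ t : ℝ in 𝓝[>] 0, c + t • w ∈ N := h1.filter_mono nhdsWithin_le_nhds
  obtain ⟨t, h3, h4⟩ := (h2.and self_mem_nhdsWithin).exists
  exact ⟨t, h4, h3⟩

theorem par {ν e w : E} (hν : ν ≠ 0) (hν0 : ν 0 = 0) (he : e ≠ 0) (he0 : e 0 = 0) (hw0 : w 0 = 0)
    (h1 : ⟪ν, e⟫ = 0) (h2 : ⟪ν, w⟫ = 0) : ∃ l : ℝ, w = l • e := by
  rw [inner3, hν0, zero_mul, zero_add] at h1 h2
  have hd : e 1 * w 2 - e 2 * w 1 = 0 := by
    by_contra hc
    refine hν (E_ext hν0 ?_ ?_)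
    · exact (mul_eq_zero.1 (show ν 1 * (e 1 * w 2 - e 2 * w 1) = 0 by
        linear_combination w 2 * h1 - e 2 * h2)).resolve_right hc
    · exact (mul_eq_zero.1 (show ν 2 * (e 1 * w 2 - e 2 * w 1) = 0 by
        linear_combination e 1 * h2 - w 1 * h1)).resolve_right hc
  have hn : e 1 ^ 2 + e 2 ^ 2 ≠ 0 := fun h =>
    he (E_ext he0 (show e 1 = 0 by nlinarith) (show e 2 = 0 by nlinarith))
  refine ⟨(w 1 * e 1 + w 2 * e 2) / (e 1 ^ 2 + e 2 ^ 2), E_ext ?_ ?_ ?_⟩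
  · simp [hw0, he0]
  · rw [PiLp.smul_apply, smul_eq_mul]
    field_simp
    linear_combination (-e 2) * hd
  · rw [PiLp.smul_apply, smul_eq_mul]
    field_simp
    linear_combination e 1 * hd

theorem seg_iff {a b p : E} : p ∈ segment ℝ a b ↔ ∃ s ∈ Icc (0 : ℝ) 1, a + s • (b - a) = p := by
  rw [segment_eq_image']
  rfl

/-- The geometric hypotheses. -/
structure Geo (K : Set E) (a b ν : E) (ε : ℝ) : Prop where
  sq : ε * ε = 1
  ne : a ≠ b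
  le : ∀ p ∈ K, ε * p 0 ≤ 0
  seg : K ∩ {p | p 0 = 0} = segment ℝ a b
  nz : ν ≠ 0
  n0 : ν 0 = 0
  ort : ⟪ν, b - a⟫ = 0

variable {K : Set E} {a b ν : E} {ε : ℝ}

theorem Geo.ray (H : Geo K a b ν ε) (p : E) (t : ℝ) : ε * (p + t • pt ε 0 0) 0 = ε * p 0 + t := by
  simp only [PiLp.add_apply, PiLp.smul_apply, pt_0, smul_eq_mul]
  linear_combination t * H.sq

theorem Geo.nd (H : Geo K a b ν ε) : ⟪ν, pt ε 0 0⟫ = 0 := by simp [inner3, H.n0]

theorem Geo.of_seg (H : Geo K a b ν ε) {p : E} (hp : p ∈ segment ℝ a b) :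
    p ∈ K ∧ p 0 = 0 ∧ ⟪ν, p - a⟫ = 0 := by
  have h : p ∈ K ∩ {p | p 0 = 0} := H.seg ▸ hp
  refine ⟨h.1, h.2, ?_⟩
  obtain ⟨s, -, rfl⟩ := seg_iff.1 hp
  rw [add_sub_cancel_left, real_inner_smul_right, H.ort, mul_zero]

theorem Geo.line (H : Geo K a b ν ε) {p : E} (h0 : p 0 = 0) (h1 : ⟪ν, p - a⟫ = 0) :
    ∃ l : ℝ, p - a = l • (b - a) := by
  have ha := (H.of_seg (left_mem_segment ℝ a b)).2.1
  have hb := (H.of_seg (right_mem_segment ℝ a b)).2.1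
  exact par H.nz H.n0 (sub_ne_zero.2 H.ne.symm) (by simp [ha, hb]) (by simp [ha, h0]) H.ort h1

theorem Geo.vf (H : Geo K a b ν ε) {p : E} (hp : p ∉ K) (h : 0 ≤ ε * p 0) :
    p ∈ Vf K (pt ε 0 0) := fun t ht hK => by
  rcases ht.eq_or_lt with rfl | h0
  · exact hp (by simpa using hK)
  · have := H.le _ hK
    rw [H.ray] at this
    linarith

theorem vf_not {d p : E} (h : p ∈ Vf K d) : p ∉ K := by simpa using h 0 le_rfl

theorem vf_add {d p : E} (h : p ∈ Vf K d) {t : ℝ} (ht : 0 ≤ t) : p + t • d ∈ Vf K d :=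
  fun s hs => by
    rw [add_assoc, ← add_smul]
    exact h _ (add_nonneg ht hs)

theorem Geo.ball (H : Geo K a b ν ε) {c : E} (hc : c ∈ openSegment ℝ a b)
    (hK : ∀ᶠ p in 𝓝 c, p ∈ K → p ∈ segment ℝ a b) :
    ∃ r > (0 : ℝ), ∀ p ∈ Metric.ball c r, p ∈ K ↔ ⟪ν, p - a⟫ = 0 ∧ p 0 = 0 := by
  obtain ⟨r, hr, h⟩ := Metric.eventually_nhds_iff_ball.1 hK
  rw [openSegment_eq_image'] at hc
  obtain ⟨s, hs, rfl⟩ := hc
  have hn : 0 < ‖b - a‖ := norm_pos_iff.2 (sub_ne_zero.2 H.ne.symm)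
  have h1 : 0 < min s (1 - s) := lt_min hs.1 (sub_pos.2 hs.2)
  refine ⟨min r (min s (1 - s) * ‖b - a‖), lt_min hr (mul_pos h1 hn), fun p hp => ⟨fun hpK => ?_,
    fun hp' => ?_⟩⟩
  · have := H.of_seg (h p (Metric.ball_subset_ball (min_le_left _ _) hp) hpK)
    exact ⟨this.2.2, this.2.1⟩
  · obtain ⟨l, hl⟩ := H.line hp'.2 hp'.1
    have h2 := (mem_ball_iff_norm.1 hp).trans_le (min_le_right _ _)
    rw [show p - (a + s • (b - a)) = (l - s) • (b - a) by rw [sub_smul, ← hl]; abel, norm_smul,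
      Real.norm_eq_abs] at h2
    have h3 := abs_lt.1 (lt_of_mul_lt_mul_right h2 hn.le)
    have h4 := min_le_left s (1 - s)
    have h5 := min_le_right s (1 - s)
    exact (H.of_seg (seg_iff.2 ⟨l, ⟨by linarith [h3.1], by linarith [h3.2]⟩, by rw [← hl]; abel⟩)).1

theorem Geo.ball_vf (H : Geo K a b ν ε) {c : E} {r : ℝ} (hc : c 0 = 0)
    (h : ∀ p ∈ Metric.ball c r, p ∈ K ↔ ⟪ν, p - a⟫ = 0 ∧ p 0 = 0) {p : E}
    (hp : p ∈ Metric.ball c r) (hβ : ⟪ν, p - a⟫ ≠ 0) : p ∈ Vf K (pt ε 0 0) := fun t ht hK => by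
  have h1 := H.le _ hK
  rw [H.ray] at h1
  have h2 : ‖p + t • pt ε 0 0 - c‖ ≤ ‖p - c‖ := by
    refine (sq_le_sq₀ (norm_nonneg _) (norm_nonneg _)).1 ?_
    rw [normsq3, normsq3]
    simp only [PiLp.add_apply, PiLp.sub_apply, PiLp.smul_apply, pt_0, pt_1, pt_2, smul_eq_mul, hc,
      mul_zero, add_zero, sub_zero]
    have e : (p 0 + t * ε) ^ 2 = p 0 ^ 2 + t * (2 * (ε * p 0) + t) := by
      linear_combination t ^ 2 * H.sq
    have : t * (2 * (ε * p 0) + t) ≤ 0 := mul_nonpos_of_nonneg_of_nonpos ht (by linarith)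
    linarith
  have h3 := ((h _ (mem_ball_iff_norm.2 (h2.trans_lt (mem_ball_iff_norm.1 hp)))).1 hK).1
  rw [add_sub_right_comm, inner_add_right, real_inner_smul_right, H.nd, mul_zero, add_zero] at h3
  exact hβ h3

theorem Geo.plane (H : Geo K a b ν ε) : IsPreconnected {p : E | p 0 = 0 ∧ p ∉ K} := by
  have ha := (H.of_seg (left_mem_segment ℝ a b)).2.1
  have hb := (H.of_seg (right_mem_segment ℝ a b)).2.1
  have hν : 0 < ⟪ν, ν⟫ := real_inner_self_pos.2 H.nz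
  have he : 0 < ⟪b - a, b - a⟫ := real_inner_self_pos.2 (sub_ne_zero.2 H.ne.symm)
  have ort' : ⟪b - a, ν⟫ = 0 := by rw [real_inner_comm, H.ort]
  have k : ∀ s t : ℝ, (a + (s • (b - a) + t • ν)) 0 = 0 ∧
      ⟪ν, a + (s • (b - a) + t • ν) - a⟫ = t * ⟪ν, ν⟫ ∧
      ⟪b - a, a + (s • (b - a) + t • ν) - a⟫ = s * ⟪b - a, b - a⟫ := fun s t =>
    ⟨by simp [ha, hb, H.n0], by
      rw [add_sub_cancel_left, inner_add_right, real_inner_smul_right, real_inner_smul_right,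
        H.ort, mul_zero, zero_add], by
      rw [add_sub_cancel_left, inner_add_right, real_inner_smul_right, real_inner_smul_right,
        ort', mul_zero, add_zero]⟩
  have c1 := (cvx_pl.inter (cvx_gt ν a 0)).isPreconnected
  have c2 := (cvx_pl.inter (cvx_gt (b - a) a ⟪b - a, b - a⟫)).isPreconnected
  have c3 := (cvx_pl.inter (cvx_lt ν a)).isPreconnected
  have c4 := (cvx_pl.inter (cvx_lt (b - a) a)).isPreconnected
  have u1 := IsPreconnected.union (a + ((2 : ℝ) • (b - a) + (1 : ℝ) • ν))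
    (by exact ⟨(k 2 1).1, by rw [mem_ofPred_eq, (k 2 1).2.1]; linarith⟩)
    (by exact ⟨(k 2 1).1, by rw [mem_ofPred_eq, (k 2 1).2.2]; linarith⟩) c1 c2
  have u2 := IsPreconnected.union (a + ((2 : ℝ) • (b - a) + (-1 : ℝ) • ν))
    (by exact Or.inr ⟨(k 2 (-1)).1, by rw [mem_ofPred_eq, (k 2 (-1)).2.2]; linarith⟩)
    (by exact ⟨(k 2 (-1)).1, by rw [mem_ofPred_eq, (k 2 (-1)).2.1]; linarith⟩) u1 c3
  have u3 := IsPreconnected.union (a + ((-1 : ℝ) • (b - a) + (1 : ℝ) • ν))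
    (by exact Or.inl (Or.inl ⟨(k (-1) 1).1, by rw [mem_ofPred_eq, (k (-1) 1).2.1]; linarith⟩))
    (by exact ⟨(k (-1) 1).1, by rw [mem_ofPred_eq, (k (-1) 1).2.2]; linarith⟩) u2 c4
  refine (congrArg IsPreconnected (Set.ext fun p => ⟨?_, ?_⟩)).mp u3
  · intro hp
    have h0 : p 0 = 0 := by rcases hp with ((h | h) | h) | h <;> exact h.1
    refine ⟨h0, fun hK => ?_⟩
    have hs : p ∈ segment ℝ a b := H.seg ▸ ⟨hK, h0⟩
    have h1 := (H.of_seg hs).2.2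
    obtain ⟨s, hs', rfl⟩ := seg_iff.1 hs
    have h2 : ⟪b - a, a + s • (b - a) - a⟫ = s * ⟪b - a, b - a⟫ := by
      rw [add_sub_cancel_left, real_inner_smul_right]
    rcases hp with ((h | h) | h) | h <;> have h' := h.2 <;> rw [mem_ofPred_eq] at h'
    · linarith
    · nlinarith [hs'.2]
    · linarith
    · nlinarith [hs'.1]
  · rintro ⟨h0, hK⟩
    rcases lt_trichotomy ⟪ν, p - a⟫ 0 with h | h | h
    · exact Or.inl (Or.inr ⟨h0, h⟩)
    · obtain ⟨l, hl⟩ := H.line h0 h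
      have h2 : ⟪b - a, p - a⟫ = l * ⟪b - a, b - a⟫ := by rw [hl, real_inner_smul_right]
      by_cases h3 : l < 0
      · exact Or.inr ⟨h0, by rw [mem_ofPred_eq, h2]; nlinarith⟩
      by_cases h4 : 1 < l
      · exact Or.inl (Or.inl (Or.inr ⟨h0, by rw [mem_ofPred_eq, h2]; nlinarith⟩))
      exact absurd (H.of_seg (seg_iff.2 ⟨l, ⟨not_lt.1 h3, not_lt.1 h4⟩, by rw [← hl]; abel⟩)).1 hK
    · exact Or.inl (Or.inl (Or.inl ⟨h0, h⟩))

/-- A function that is constant on the connected pieces of the visible part of the lower half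
space is constant. -/
theorem Geo.const (H : Geo K a b ν ε) (hV : IsOpen (Vf K (pt ε 0 0))) {T : E → Prop}
    (hT : ∀ W : Set E, IsPreconnected W → W ⊆ Vf K (pt ε 0 0) ∩ {p | ε * p 0 < 0} →
      ∀ p ∈ W, ∀ q ∈ W, T p → T q) {p q : E} (hp : p ∈ Vf K (pt ε 0 0)) (hp' : ε * p 0 < 0)
    (hq : q ∈ Vf K (pt ε 0 0)) (hq' : ε * q 0 < 0) : T p ↔ T q := by
  let F : E → Prop := fun y => ∀ᶠ z in 𝓝[{p | ε * p 0 < 0}] y, T z
  have low : ∀ y : E, ε * y 0 ≤ 0 → ∀ N ∈ 𝓝 y, ∃ z ∈ N, ε * z 0 < 0 := fun y hy N hN => by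
    obtain ⟨t, ht, h⟩ := exists_near hN (-pt ε 0 0)
    refine ⟨_, h, ?_⟩
    rw [smul_neg, ← neg_smul, H.ray]
    linarith
  have A : ∀ x ∈ Vf K (pt ε 0 0), ∃ ρ > (0 : ℝ), ∀ y ∈ Metric.ball x ρ, ε * y 0 ≤ 0 →
      ∀ z ∈ Metric.ball x ρ, ε * z 0 < 0 → (F y ↔ T z) := fun x hx => by
    obtain ⟨ρ, hρ, hb⟩ := Metric.isOpen_iff.1 hV x hx
    have h1 := hT _ ((convex_ball x ρ).inter (cvx_L ε)).isPreconnected
      (inter_subset_inter_left _ hb)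
    refine ⟨ρ, hρ, fun y hy hy' z hz hz' => ⟨fun h => ?_, fun h => ?_⟩⟩
    · obtain ⟨w, hw, hw'⟩ := low y hy' _ (inter_mem (eventually_nhdsWithin_iff.1 h)
        (Metric.isOpen_ball.mem_nhds hy))
      exact h1 w ⟨hw.2, hw'⟩ z ⟨hz, hz'⟩ (hw.1 hw')
    · filter_upwards [self_mem_nhdsWithin, mem_nhdsWithin_of_mem_nhds
        (Metric.isOpen_ball.mem_nhds hy)] with w h2 h3 using h1 z ⟨hz, hz'⟩ w ⟨h3, h2⟩ h
  have B : ∀ W : Set E, IsPreconnected W → (∀ x ∈ W, x ∈ Vf K (pt ε 0 0) ∧ ε * x 0 ≤ 0) →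
      ∀ x ∈ W, ∀ y ∈ W, F x = F y := fun W hW h x hx y hy => by
    refine const_of_ev hW (fun x hx => ?_) hx hy
    obtain ⟨ρ, hρ, h1⟩ := A x (h x hx).1
    obtain ⟨z, hz, hz'⟩ := low x (h x hx).2 _ (Metric.ball_mem_nhds x hρ)
    filter_upwards [self_mem_nhdsWithin, mem_nhdsWithin_of_mem_nhds (Metric.ball_mem_nhds x hρ)]
      with y h2 h3
    exact propext ((h1 y h3 (h y h2).2 z hz hz').trans
      (h1 x (Metric.mem_ball_self hρ) (h x hx).2 z hz hz').symm)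
  have C : ∀ x ∈ Vf K (pt ε 0 0), ε * x 0 < 0 → ∃ y : E, (y 0 = 0 ∧ y ∉ K) ∧ (T x ↔ F y) := by
    intro x hx hx'
    obtain ⟨ρ, hρ, h1⟩ := A x hx
    have h2 : ε * (x + (-(ε * x 0)) • pt ε 0 0) 0 = 0 := by rw [H.ray, add_neg_cancel]
    have h3 : IsPreconnected ((fun t : ℝ => x + t • pt ε 0 0) '' Icc 0 (-(ε * x 0))) :=
      isPreconnected_Icc.image _ (by fun_prop)
    refine ⟨_, ⟨(mul_eq_zero.1 h2).resolve_left fun h => by simpa [h] using H.sq,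
      vf_not (vf_add hx (by linarith))⟩,
      (h1 x (Metric.mem_ball_self hρ) hx'.le x (Metric.mem_ball_self hρ) hx').symm.trans
        (iff_of_eq (B _ h3 ?_ x ⟨0, ⟨le_rfl, by linarith⟩, by simp⟩ _
          ⟨_, ⟨by linarith, le_rfl⟩, rfl⟩))⟩
    rintro _ ⟨t, ht, rfl⟩
    exact ⟨vf_add hx ht.1, by rw [H.ray]; linarith [ht.2]⟩
  obtain ⟨y, hy, e⟩ := C p hp hp'
  obtain ⟨y', hy', e'⟩ := C q hq hq'
  exact e.trans ((iff_of_eq (B _ H.plane (fun x hx => ⟨H.vf hx.2 (by rw [hx.1, mul_zero]),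
    by rw [hx.1, mul_zero]⟩) y hy y' hy')).trans e'.symm)

variable {G : Type} [Group G] {ω : E → E → G} {h : E → G}

theorem Geo.full (H : Geo K a b ν ε) (hV : IsOpen (Vf K (pt ε 0 0)))
    (hh : Dev ω (Vf K (pt ε 0 0)) h) (hF : Full ω Kᶜ) {p : E} (hp : p ∈ Vf K (pt ε 0 0))
    (hp' : ε * p 0 < 0) : FullAt ω ({p | ε * p 0 < 0} \ K) p := by
  classical
  intro S hS
  have h1 : ∀ g, ∀ q ∈ Vf K (pt ε 0 0), ε * q 0 < 0 → (S q (g * h q) ↔ S p (g * h p)) :=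
    fun g q hq hq' => H.const hV (T := fun x => S x (g * h x)) (fun W hW hs x hx y hy =>
      ((hS.mono fun z hz => ⟨(hs hz).2, vf_not (hs hz).1⟩).dev (hh.mono fun z hz => (hs hz).1)
        hW hx hy g).1) hq hq' hp hp'
  let S' : E → G → Prop := fun q g => if ε * q 0 < 0 then S q g else S p (g * (h q)⁻¹ * h p)
  have h2 : ∀ q ∈ Vf K (pt ε 0 0), ∀ g, S' q g ↔ S p (g * (h q)⁻¹ * h p) := fun q hq g => by
    by_cases hq' : ε * q 0 < 0
    · simp only [S', if_pos hq']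
      rw [← h1 _ q hq hq', inv_mul_cancel_right]
    · simp only [S', if_neg hq']
  have h3 : Inv ω Kᶜ S' := fun q hq => by
    by_cases hq' : ε * q 0 < 0
    · filter_upwards [hS q ⟨hq', hq⟩, (open_L ε).mem_nhds hq'] with z k1 k2 g
      have k3 : ε * z 0 < 0 := k2
      simp only [S', if_pos hq', if_pos k3]
      exact k1 g
    · have hqV := H.vf hq (not_lt.1 hq')
      filter_upwards [hh q hqV, hV.mem_nhds hqV] with z k1 k2 g
      rw [h2 q hqV, h2 z k2, k1]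
      exact iff_of_eq (congrArg (S p) (by group))
  have h4 := hF p (vf_not hp) S' h3
  simpa only [S', if_pos hp'] using h4

/-- The local data at a point of the segment. -/
def Dat (ω : E → E → G) (h : E → G) (K : Set E) (a ν : E) (ε : ℝ) (c : E) (r : ℝ) (k : E → G)
    (m : G) : Prop :=
  0 < r ∧ (∀ p ∈ Metric.ball c r, p ∈ K ↔ ⟪ν, p - a⟫ = 0 ∧ p 0 = 0) ∧
    Dev ω {p | p ∈ Metric.ball c r ∧ ε * p 0 < 0} k ∧
    (∀ p ∈ Metric.ball c r, ε * p 0 < 0 → 0 < ⟪ν, p - a⟫ → k p = h p) ∧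
    ∀ p ∈ Metric.ball c r, ε * p 0 < 0 → ⟪ν, p - a⟫ < 0 → k p = m * h p

theorem Geo.dat (H : Geo K a b ν ε) (hE : S_EXT) (hω : LocSys ω Kᶜ)
    (hh : Dev ω (Vf K (pt ε 0 0)) h) {c : E} (hc : c ∈ openSegment ℝ a b)
    (hK : ∀ᶠ p in 𝓝 c, p ∈ K → p ∈ segment ℝ a b) : ∃ r k m, Dat ω h K a ν ε c r k m := by
  obtain ⟨r, hr, hb⟩ := H.ball hc hK
  have c0 := (H.of_seg (openSegment_subset_segment ℝ a b hc)).2.1
  have cv := (convex_ball c r).inter (cvx_L ε)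
  obtain ⟨f, hf⟩ := hE G ω Kᶜ _ hω (Metric.isOpen_ball.inter (open_L ε)) cv fun p hp hK => by
    have h1 : ε * p 0 < 0 := hp.2
    rw [((hb p hp.1).1 hK).2, mul_zero] at h1
    exact lt_irrefl _ h1
  obtain ⟨c₁, h1⟩ := (hh.mono fun p hp => H.ball_vf c0 hb hp.1.1 (ne_of_gt hp.2)).exists_const
    (hf.mono inter_subset_left) (cv.inter (cvx_gt ν a 0)).isPreconnected
  obtain ⟨m, h2⟩ := ((hf.mul_left c₁).mono inter_subset_left).exists_const
    (hh.mono fun p hp => H.ball_vf c0 hb hp.1.1 (ne_of_lt hp.2))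
    (cv.inter (cvx_lt ν a)).isPreconnected
  exact ⟨r, _, m, hr, hb, hf.mul_left c₁, fun p k1 k2 k3 => (h1 p ⟨⟨k1, k2⟩, k3⟩).symm,
    fun p k1 k2 k3 => h2 p ⟨⟨k1, k2⟩, k3⟩⟩

theorem Geo.uniq (H : Geo K a b ν ε) {c c' : E} {r r' : ℝ} {k k' : E → G} {m m' : G}
    (D : Dat ω h K a ν ε c r k m) (D' : Dat ω h K a ν ε c' r' k' m') (hc : c' ∈ segment ℝ a b)
    (hb : c' ∈ Metric.ball c r) : m' = m := by
  obtain ⟨-, c0, c1⟩ := H.of_seg hc
  have hν : 0 < ⟪ν, ν⟫ := real_inner_self_pos.2 H.nz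
  have pts : ∀ σ : ℝ, ∃ q ∈ Metric.ball c r ∩ Metric.ball c' r', ε * q 0 < 0 ∧
      ∃ t > (0 : ℝ), ⟪ν, q - a⟫ = t * (σ * ⟪ν, ν⟫) := fun σ => by
    obtain ⟨t, ht, h1⟩ := exists_near (inter_mem (Metric.isOpen_ball.mem_nhds hb)
      (Metric.ball_mem_nhds c' D'.1)) (σ • ν - pt ε 0 0)
    refine ⟨_, h1, ?_, t, ht, ?_⟩
    · simp only [PiLp.add_apply, PiLp.sub_apply, PiLp.smul_apply, pt_0, smul_eq_mul, c0, H.n0]
      have : ε * (0 + t * (σ * 0 - ε)) = -t := by linear_combination (-t) * H.sq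
      linarith
    · rw [add_sub_right_comm, inner_add_right, c1, real_inner_smul_right, inner_sub_right,
        real_inner_smul_right, H.nd, zero_add, sub_zero]
  obtain ⟨q, hq, q0, t, ht, e⟩ := pts 1
  obtain ⟨q', hq', q0', t', ht', e'⟩ := pts (-1)
  have h1 : 0 < ⟪ν, q - a⟫ := by rw [e]; positivity
  have h2 : ⟪ν, q' - a⟫ < 0 := by rw [e']; nlinarith [mul_pos ht' hν]
  have h3 := (D.2.2.1.mono fun p hp => ⟨hp.1.1, hp.2⟩).eq_on (D'.2.2.1.mono fun p hp =>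
    ⟨hp.1.2, hp.2⟩) (((convex_ball c r).inter (convex_ball c' r')).inter (cvx_L ε)).isPreconnected
    ⟨hq, q0⟩ ((D.2.2.2.1 q hq.1 q0 h1).trans (D'.2.2.2.1 q hq.2 q0 h1).symm) q' ⟨hq', q0'⟩
  rw [D.2.2.2.2 q' hq'.1 q0' h2, D'.2.2.2.2 q' hq'.2 q0' h2] at h3
  exact (mul_right_cancel h3).symm

theorem Geo.mer (H : Geo K a b ν ε) (hL : S_LINE) (hh : Dev ω (Vf K (pt ε 0 0)) h) {c : E}
    {r : ℝ} {k : E → G} {m : G} (D : Dat ω h K a ν ε c r k m) (hc : c ∈ segment ℝ a b) :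
    IsMer ω K c m := by
  obtain ⟨-, c0, c1⟩ := H.of_seg hc
  have hν : 0 < ⟪ν, ν⟫ := real_inner_self_pos.2 H.nz
  have e1 : ∀ p : E, ⟪ν, p - c⟫ = ⟪ν, p - a⟫ := fun p => by
    rw [← sub_sub_sub_cancel_right p c a, inner_sub_right, c1, sub_zero]
  have e2 : ∀ p : E, ⟪pt ε 0 0, p - c⟫ = ε * p 0 := fun p => by simp [inner3, c0]
  have e0 : ε ≠ 0 := fun h => by simpa [h] using H.sq
  have := hL G ω K c ν (pt ε 0 0) r h k 1 m⁻¹ D.1
    ⟨(⟪ν, ν⟫)⁻¹ • ν, by rw [real_inner_smul_right, inv_mul_cancel₀ hν.ne'],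
      by rw [real_inner_smul_right, real_inner_comm ν (pt ε 0 0), H.nd, mul_zero]⟩
    ⟨pt ε 0 0, H.nd, by rw [inner3]; simpa using H.sq⟩
    (fun p hp => by rw [D.2.1 p hp, e1, e2, mul_eq_zero, or_iff_right e0])
    (hh.mono fun p hp => hp.2.elim (fun k1 => H.ball_vf c0 D.2.1 hp.1 (e1 p ▸ k1)) fun k1 =>
      H.vf (fun hK => (H.le p hK).not_gt (e2 p ▸ k1)) (e2 p ▸ k1).le)
    (D.2.2.1.mono fun p hp => ⟨hp.1, e2 p ▸ hp.2⟩)
    (fun p k1 k2 k3 => by rw [D.2.2.2.1 p k1 (e2 p ▸ k2) (e1 p ▸ k3), one_mul])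
    (fun p k1 k2 k3 => by rw [D.2.2.2.2 p k1 (e2 p ▸ k2) (e1 p ▸ k3), inv_mul_cancel_left])
  rwa [inv_inv, one_mul] at this

end SIDEx

open SIDEx in
theorem s_SIDE (hE : S_EXT) (hF : S_FRONT) (hL : S_LINE) : S_SIDE := by
  intro G _ ω K a b ν ε hε hK hab hle hseg hloc hν hν0 hort hω hfull
  have H : Geo K a b ν ε :=
    ⟨by rcases hε with rfl | rfl <;> norm_num, hab, hle, hseg, hν, hν0, hort⟩
  obtain ⟨hV, h, hh⟩ := hF G ω K (pt ε 0 0) hK (fun e => by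
    have h1 := H.sq
    rw [show ε = 0 from congrArg (fun p : E => p 0) e] at h1
    simp at h1) hω
  have h1 : ∀ c : E, ∃ r k m, c ∈ openSegment ℝ a b → Dat ω h K a ν ε c r k m := fun c => by
    by_cases hc : c ∈ openSegment ℝ a b
    · obtain ⟨r, k, m, D⟩ := H.dat hE hω hh hc (hloc c hc)
      exact ⟨r, k, m, fun _ => D⟩
    · exact ⟨1, h, 1, fun h => absurd h hc⟩
  choose r k m D using h1
  have h2 : ∀ c ∈ openSegment ℝ a b, m c = m (midpoint ℝ a b) := fun c hc => by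
    refine const_of_ev (convex_openSegment a b).isPreconnected (fun x hx => ?_) hc
      (midpoint_mem_openSegment a b)
    filter_upwards [self_mem_nhdsWithin,
      mem_nhdsWithin_of_mem_nhds (Metric.ball_mem_nhds x (D x hx).1)] with y k1 k2
    exact H.uniq (D x hx) (D y k1) (openSegment_subset_segment ℝ a b k1) k2
  refine ⟨h, m (midpoint ℝ a b), hV, hh, fun c hc => ?_, fun p hp hp' => H.full hV hh hfull hp hp'⟩
  have hs := openSegment_subset_segment ℝ a b hc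
  rw [← h2 c hc]
  exact ⟨H.mer hL hh (D c hc) hs, r c, (D c hc).1, k c,
    fun p k1 k2 => H.ball_vf (H.of_seg hs).2.1 (D c hc).2.1 k1 k2, (D c hc).2.2⟩

end Pool.Agent.P.MP_28369d_gt.SB
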