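import Pool.Agent.P.MP_28369d_gt.SB.Tools

namespace Pool.Agent.P.MP_28369d_gt.SB

open Set Filter Topology
open scoped RealInnerProductSpace

namespace T1x
open Complex

noncomputable def zz (p : E) : ℂ := (p 0 : ℂ) + (p 1 : ℂ) * I
noncomputable def xx (s : ℝ) (p : E) : ℂ := ((‖zz p‖ - 2 : ℝ) : ℂ) + ((s * p 2 : ℝ) : ℂ) * I
noncomputable def yy (p : E) : ℂ := zz p / ((max ‖zz p‖ 1 : ℝ) : ℂ)

def Fb (m : ℕ) (x y : ℂ) (w : ℂ × ℂ) : Prop := w.1 * w.2 = y ∧ w.1 ^ m + w.2 ^ m = 2 * x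

theorem cont_zz : Continuous zz := by unfold zz; fun_prop
theorem cont_xx (s : ℝ) : Continuous (xx s) := by have := cont_zz; unfold xx; fun_prop
theorem max_ne (p : E) : ((max ‖zz p‖ 1 : ℝ) : ℂ) ≠ 0 := by
  have : (0 : ℝ) < max ‖zz p‖ 1 := lt_max_of_lt_right one_pos
  exact_mod_cast this.ne'
theorem cont_yy : Continuous yy := by
  have := cont_zz
  exact Continuous.div this (by fun_prop) max_ne

theorem norm_yy_le (p : E) : ‖yy p‖ ≤ 1 := by
  have h : (0 : ℝ) < max ‖zz p‖ 1 := lt_max_of_lt_right one_pos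
  rw [yy, norm_div, Complex.norm_real, Real.norm_of_nonneg h.le, div_le_one h]
  exact le_max_left _ _

theorem key {m : ℕ} (hm : Odd m) {s : ℝ} {q : ℤ} (hs : s = 1 ∨ s = -1) (hq : (q : ℝ) = s * m) {p : E}
    (h : xx s p ^ 2 = yy p ^ m) : p ∈ torus2 q := by
  have hn : ‖xx s p‖ ^ 2 = ‖yy p‖ ^ m := by rw [← norm_pow, h, norm_pow]
  have hre : (xx s p).re = ‖zz p‖ - 2 := by simp [xx]
  have him : (xx s p).im = s * p 2 := by simp [xx]
  have h1 : 1 ≤ ‖zz p‖ := by
    by_contra hc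
    push Not at hc
    have a1 : |(xx s p).re| ≤ ‖xx s p‖ := abs_re_le_norm _
    have a2 : 1 < ‖xx s p‖ := by rw [hre, abs_of_neg (by linarith)] at a1; linarith
    have a3 : ‖yy p‖ ^ m ≤ 1 := pow_le_one₀ (norm_nonneg _) (norm_yy_le p)
    nlinarith
  have hr : (0 : ℝ) < ‖zz p‖ := by linarith
  have hy : yy p = zz p / (‖zz p‖ : ℝ) := by rw [yy, max_eq_left h1]
  have hy1 : ‖yy p‖ = 1 := by
    rw [hy, norm_div, Complex.norm_real, Real.norm_of_nonneg hr.le, div_self hr.ne']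
  have hx1 : ‖xx s p‖ = 1 := by
    rw [hy1, one_pow] at hn
    exact (pow_eq_one_iff_of_nonneg (norm_nonneg _) two_ne_zero).1 hn
  obtain ⟨α, hα⟩ := (Complex.norm_eq_one_iff _).1 hx1
  obtain ⟨β, hβ⟩ := (Complex.norm_eq_one_iff _).1 hy1
  rw [← hα, ← hβ, ← Complex.exp_nat_mul, ← Complex.exp_nat_mul, Complex.exp_eq_exp_iff_exists_int] at h
  obtain ⟨k, hk⟩ := h
  have hk' : 2 * α = m * β + k * (2 * Real.pi) := by
    have := congrArg Complex.im hk
    simpa using this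
  obtain ⟨j, hj⟩ := hm
  have hmr : (m : ℝ) = 2 * j + 1 := by exact_mod_cast hj
  have e1 : (m : ℝ) * (β / 2 + k * Real.pi) = α + ((j * k : ℤ) : ℝ) * (2 * Real.pi) := by
    push_cast; rw [hmr] at hk' ⊢; linarith
  have e2 : 2 * (β / 2 + k * Real.pi) = β + (k : ℝ) * (2 * Real.pi) := by ring
  have c1 : Real.cos α = ‖zz p‖ - 2 := by rw [← hre, ← hα, exp_ofReal_mul_I_re]
  have c2 : Real.sin α = s * p 2 := by rw [← him, ← hα, exp_ofReal_mul_I_im]
  have hz : zz p = (‖zz p‖ : ℝ) * exp (β * I) := by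
    rw [hβ, hy]; field_simp [show ((‖zz p‖ : ℝ) : ℂ) ≠ 0 by exact_mod_cast hr.ne']
  have c3 : p 0 = ‖zz p‖ * Real.cos β := by
    have := congrArg Complex.re hz
    rw [re_ofReal_mul, exp_ofReal_mul_I_re] at this
    simpa [zz] using this
  have c4 : p 1 = ‖zz p‖ * Real.sin β := by
    have := congrArg Complex.im hz
    rw [im_ofReal_mul, exp_ofReal_mul_I_im] at this
    simpa [zz] using this
  have d1 : Real.cos (q * (β / 2 + k * Real.pi)) = Real.cos α := by
    rw [hq, mul_assoc, e1]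
    rcases hs with rfl | rfl
    · rw [one_mul, Real.cos_add_int_mul_two_pi]
    · rw [neg_one_mul, Real.cos_neg, Real.cos_add_int_mul_two_pi]
  have d2 : Real.sin (q * (β / 2 + k * Real.pi)) = p 2 := by
    rw [hq, mul_assoc, e1]
    rcases hs with rfl | rfl
    · rw [one_mul, Real.sin_add_int_mul_two_pi, c2, one_mul]
    · rw [neg_one_mul, Real.sin_neg, Real.sin_add_int_mul_two_pi, c2]; ring
  refine ⟨β / 2 + k * Real.pi, E_ext ?_ ?_ ?_⟩
  · simp only [pt_0]; rw [d1, e2, Real.cos_add_int_mul_two_pi, c1, c3]; ring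
  · simp only [pt_1]; rw [d1, e2, Real.sin_add_int_mul_two_pi, c1, c4]; ring
  · simp only [pt_2]; exact d2

variable {m : ℕ} [NeZero m]

noncomputable def ch (i : ZMod m) : ℂ := ZMod.stdAddChar i

theorem ch_add (i j : ZMod m) : ch (i + j) = ch i * ch j := AddChar.map_add_eq_mul _ _ _
theorem ch_zero : ch (0 : ZMod m) = 1 := AddChar.map_zero_eq_one _
theorem ch_neg (i : ZMod m) : ch i * ch (-i) = 1 := by rw [← ch_add, add_neg_cancel, ch_zero]
theorem ch_pow (i : ZMod m) : ch i ^ m = 1 := by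
  rw [ch, ← AddChar.map_nsmul_eq_pow]; simp
theorem ch_one : ch (1 : ZMod m) = exp (2 * Real.pi * I / m) := by
  simpa [ch] using ZMod.stdAddChar_coe (N := m) 1
theorem ch_inj {i : ZMod m} (h : ch i = 1) : i = 0 :=
  ZMod.injective_stdAddChar (h.trans ch_zero.symm)
theorem ch_surj {z : ℂ} (h : z ^ m = 1) : ∃ i : ZMod m, ch i = z := by
  obtain ⟨i, -, hi⟩ := (Complex.isPrimitiveRoot_exp m (NeZero.ne m)).eq_pow_of_pow_eq_one h
  refine ⟨(i : ZMod m), ?_⟩
  rw [← hi, ← ch_one, ch, ch, ← AddChar.map_nsmul_eq_pow]; simp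

noncomputable def act : DihedralGroup m → ℂ × ℂ → ℂ × ℂ
  | .r i, w => (ch i * w.1, ch (-i) * w.2)
  | .sr i, w => (ch (-i) * w.2, ch i * w.1)

theorem act_one (w : ℂ × ℂ) : act (1 : DihedralGroup m) w = w := by
  change act (.r (0 : ZMod m)) w = w
  simp only [act, neg_zero, ch_zero, one_mul]

theorem act_mul (g h : DihedralGroup m) (w : ℂ × ℂ) : act (g * h) w = act g (act h w) := by
  rcases g with i | i <;> rcases h with j | j <;>
    simp only [DihedralGroup.r_mul_r, DihedralGroup.r_mul_sr, DihedralGroup.sr_mul_r,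
      DihedralGroup.sr_mul_sr, act, ← mul_assoc, ← ch_add] <;> congr 3 <;> ring

theorem act_cont (g : DihedralGroup m) : Continuous (act g) := by
  rcases g with i | i
  · change Continuous fun w : ℂ × ℂ => (ch i * w.1, ch (-i) * w.2); fun_prop
  · change Continuous fun w : ℂ × ℂ => (ch (-i) * w.2, ch i * w.1); fun_prop

theorem ne_of_fb {x y : ℂ} (h : x ^ 2 ≠ y ^ m) {w : ℂ × ℂ} (hw : Fb m x y w) : w.1 ^ m ≠ w.2 ^ m := by
  intro he
  apply h
  have h2 := hw.2
  rw [← hw.1, mul_pow, ← he]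
  rw [← he] at h2
  linear_combination (-(x / 2) - w.1 ^ m / 2) * h2

theorem rot {a b a' b' : ℂ} (h0 : a ^ m ≠ b ^ m) (h1 : a' * b' = a * b) (h2 : a' ^ m = a ^ m)
    (h3 : b' ^ m = b ^ m) : ∃ i : ZMod m, a' = ch i * a ∧ b' = ch (-i) * b := by
  have hm := NeZero.ne m
  by_cases ha : a = 0
  · have hb : b ≠ 0 := by rintro rfl; exact h0 (by rw [ha])
    have ha' : a' = 0 := by rw [ha, zero_pow hm] at h2; exact pow_eq_zero_iff hm |>.1 h2
    obtain ⟨i, hi⟩ := ch_surj (m := m) (z := b' / b) (by rw [div_pow, h3, div_self (pow_ne_zero _ hb)])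
    exact ⟨-i, by rw [ha, ha', mul_zero], by rw [neg_neg, hi]; field_simp⟩
  · obtain ⟨i, hi⟩ := ch_surj (m := m) (z := a' / a) (by rw [div_pow, h2, div_self (pow_ne_zero _ ha)])
    have e : a' = ch i * a := by rw [hi]; field_simp
    refine ⟨i, e, ?_⟩
    have := ch_neg i
    rw [e] at h1
    have h4 : ch i * b' = b := mul_left_cancel₀ ha (by linear_combination h1)
    linear_combination ch (-i) * h4 - b' * this

theorem fb_iff {x y : ℂ} (h : x ^ 2 ≠ y ^ m) {w w' : ℂ × ℂ} (hw : Fb m x y w) :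
    Fb m x y w' ↔ ∃ g : DihedralGroup m, w' = act g w := by
  constructor
  · intro hw'
    have h0 := ne_of_fb h hw
    have hp : w'.1 ^ m * w'.2 ^ m = w.1 ^ m * w.2 ^ m := by rw [← mul_pow, ← mul_pow, hw.1, hw'.1]
    have hs : w'.1 ^ m + w'.2 ^ m = w.1 ^ m + w.2 ^ m := by rw [hw.2, hw'.2]
    have : (w'.1 ^ m - w.1 ^ m) * (w'.1 ^ m - w.2 ^ m) = 0 := by
      linear_combination w'.1 ^ m * hs - hp
    rcases mul_eq_zero.1 this with c | c
    · obtain ⟨i, a1, a2⟩ := rot h0 (hw'.1.trans hw.1.symm) (by linear_combination c)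
        (by linear_combination hs - c)
      exact ⟨.r i, Prod.ext a1 a2⟩
    · obtain ⟨i, a1, a2⟩ := rot (a' := w'.2) (b' := w'.1) h0
        (by rw [mul_comm]; exact hw'.1.trans hw.1.symm) (by linear_combination hs - c)
        (by linear_combination c)
      exact ⟨.sr i, Prod.ext a2 a1⟩
  · rintro ⟨i | i, rfl⟩
    · refine ⟨?_, ?_⟩
      · have := ch_neg i; have := hw.1; simp only [act]; linear_combination this + w.1 * w.2 * ‹ch i * ch (-i) = 1›
      · simp only [act, mul_pow, ch_pow, one_mul]; exact hw.2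
    · refine ⟨?_, ?_⟩
      · have := ch_neg i; have := hw.1; simp only [act]; linear_combination this + w.1 * w.2 * ‹ch i * ch (-i) = 1›
      · simp only [act, mul_pow, ch_pow, one_mul]; rw [add_comm]; exact hw.2

theorem free {x y : ℂ} (h : x ^ 2 ≠ y ^ m) {w : ℂ × ℂ} (hw : Fb m x y w) {g : DihedralGroup m}
    (hg : act g w = w) : g = 1 := by
  have h0 := ne_of_fb h hw
  rcases g with i | i
  · have a1 : ch i * w.1 = w.1 := congrArg Prod.fst hg
    have a2 : ch (-i) * w.2 = w.2 := congrArg Prod.snd hg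
    by_cases hw1 : w.1 = 0
    · have hw2 : w.2 ≠ 0 := fun h2 => h0 (by rw [hw1, h2])
      have : -i = 0 := ch_inj (mul_right_cancel₀ hw2 (by rw [a2, one_mul]))
      rw [neg_eq_zero.1 this]; rfl
    · rw [ch_inj (i := i) (mul_right_cancel₀ hw1 (by rw [a1, one_mul]))]; rfl
  · have a1 : ch (-i) * w.2 = w.1 := congrArg Prod.fst hg
    exact absurd (by rw [← a1, mul_pow, ch_pow, one_mul]) h0

theorem root_sec {k : ℕ} (hk : k ≠ 0) {f : E → ℂ} {x0 : E} (hf : ∀ᶠ p in 𝓝 x0, ContinuousAt f p)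
    {a : ℂ} (ha : a ^ k = f x0) (h0 : f x0 ≠ 0) :
    ∃ g : E → ℂ, g x0 = a ∧ ∀ᶠ p in 𝓝 x0, ContinuousAt g p ∧ g p ^ k = f p := by
  refine ⟨fun p => a * (f p / f x0) ^ ((k : ℂ)⁻¹), by simp [div_self h0], ?_⟩
  have h1 : ∀ᶠ p in 𝓝 x0, f p / f x0 ∈ slitPlane := by
    have : ContinuousAt (fun p => f p / f x0) x0 := hf.self_of_nhds.div_const _
    exact this.eventually (isOpen_slitPlane.mem_nhds (by simp [div_self h0]))
  filter_upwards [hf, h1] with p a1 a2
  refine ⟨continuousAt_const.mul ((a1.div_const _).cpow continuousAt_const a2), ?_⟩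
  rw [mul_pow, cpow_nat_inv_pow _ hk, ha]; field_simp

theorem sec {X Y : E → ℂ} (hX : Continuous X) (hY : Continuous Y) {x0 : E} (h : X x0 ^ 2 ≠ Y x0 ^ m) :
    ∃ s : E → ℂ × ℂ, ∀ᶠ p in 𝓝 x0, ContinuousAt s p ∧ Fb m (X p) (Y p) (s p) := by
  have hm := NeZero.ne m
  have hΔ : X x0 ^ 2 - Y x0 ^ m ≠ 0 := sub_ne_zero.2 h
  obtain ⟨s0, hs0, hu0⟩ : ∃ s0 : ℂ, s0 ^ 2 = X x0 ^ 2 - Y x0 ^ m ∧ X x0 + s0 ≠ 0 := by
    obtain ⟨s0, hs0⟩ := IsAlgClosed.exists_pow_nat_eq (X x0 ^ 2 - Y x0 ^ m) two_pos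
    by_cases hc : X x0 + s0 = 0
    · refine ⟨-s0, by rw [neg_sq, hs0], fun hc' => hΔ ?_⟩
      have : s0 = 0 := by linear_combination (hc - hc') / 2
      rw [← hs0, this]; ring
    · exact ⟨s0, hs0, hc⟩
  obtain ⟨σ, a1, a2⟩ := root_sec two_ne_zero (f := fun p => X p ^ 2 - Y p ^ m) (x0 := x0)
    (Eventually.of_forall fun p => by fun_prop) hs0 hΔ
  obtain ⟨w0, hw0⟩ := IsAlgClosed.exists_pow_nat_eq (X x0 + σ x0) (Nat.pos_of_ne_zero hm)
  have hc : ∀ᶠ p in 𝓝 x0, ContinuousAt (fun p => X p + σ p) p :=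
    a2.mono fun p hp => hX.continuousAt.add hp.1
  have hu : X x0 + σ x0 ≠ 0 := by rwa [a1]
  obtain ⟨w, -, b2⟩ := root_sec hm hc hw0 hu
  refine ⟨fun p => (w p, Y p / w p), ?_⟩
  filter_upwards [a2, b2, hc.self_of_nhds.eventually_ne hu] with p c1 c2 c3
  have hw : w p ≠ 0 := fun h0 => c3 (by rw [← c2.2, h0, zero_pow hm])
  refine ⟨c2.1.prodMk (hY.continuousAt.div c2.1 hw), by field_simp, ?_⟩
  simp only [div_pow, c2.2]
  field_simp
  linear_combination c1.2

theorem zz_pt (a b c : ℝ) : zz (pt a b c) = (a : ℂ) + (b : ℂ) * I := rfl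

theorem loopA (s : ℝ) (hm : Odd m) : ∃ (i : ZMod m) (c : ℝ → E) (w : ℝ → ℂ × ℂ), Continuous c ∧
    Continuous w ∧ (∀ t, ‖xx s (c t)‖ ≠ 1 ∧ Fb m (xx s (c t)) (yy (c t)) (w t)) ∧ c 1 = c 0 ∧
    w 1 = act (.sr i) (w 0) := by
  have hm0 : (m : ℂ) ≠ 0 := by exact_mod_cast NeZero.ne m
  set a : ℂ := exp (Real.pi * I / (2 * m)) with ha
  have ha0 : a ≠ 0 := exp_ne_zero _
  have ham : a ^ m = I := by
    rw [ha, ← exp_nat_mul]
    refine Eq.trans ?_ exp_pi_div_two_mul_I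
    congr 1; field_simp
  obtain ⟨i, hi⟩ := ch_surj (m := m) (z := -(a⁻¹ ^ 2)) (by
    rw [hm.neg_pow, ← pow_mul, mul_comm, pow_mul, inv_pow, ham]; simp)
  refine ⟨i, fun t => pt (2 * Real.cos (2 * Real.pi * t)) (2 * Real.sin (2 * Real.pi * t)) 0,
    fun t => (a * exp (Real.pi * t * I), a⁻¹ * exp (Real.pi * t * I)),
    Continuous.pt (by fun_prop) (by fun_prop) (by fun_prop), by fun_prop, fun t => ?_, by simp, ?_⟩
  · have hz : zz (pt (2 * Real.cos (2 * Real.pi * t)) (2 * Real.sin (2 * Real.pi * t)) 0) =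
        2 * exp ((2 * Real.pi * t : ℝ) * I) := by
      rw [zz_pt, exp_mul_I]; push_cast; ring
    have hn : ‖zz (pt (2 * Real.cos (2 * Real.pi * t)) (2 * Real.sin (2 * Real.pi * t)) 0)‖ = 2 := by
      rw [hz, norm_mul, norm_exp_ofReal_mul_I]; simp
    have hx : xx s (pt (2 * Real.cos (2 * Real.pi * t)) (2 * Real.sin (2 * Real.pi * t)) 0) = 0 := by
      rw [xx, hn]; simp
    rw [hx]
    refine ⟨by simp, ?_, ?_⟩
    · rw [yy, hn, hz, max_eq_left one_le_two]
      have : exp ((2 * Real.pi * t : ℝ) * I) = exp (Real.pi * t * I) * exp (Real.pi * t * I) := by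
        rw [← exp_add]; congr 1; push_cast; ring
      rw [this]; push_cast; field_simp
    · simp only [mul_pow, inv_pow, ham, inv_I]; ring
  · have h1 := ch_neg i
    have h2 : ch (-i) = -(a ^ 2) := by
      rw [hi] at h1
      have : ch (-i) = -(a ^ 2) * (-(a⁻¹ ^ 2) * ch (-i)) := by field_simp
      rw [this, h1, mul_one]
    simp only [act, hi, h2, ofReal_one, mul_one, exp_pi_mul_I, ofReal_zero, mul_zero, zero_mul,
      exp_zero]
    refine Prod.ext ?_ ?_ <;> field_simp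

theorem loopB {s : ℝ} (hs : s = 1 ∨ s = -1) : ∃ (c : ℝ → E) (w : ℝ → ℂ × ℂ), Continuous c ∧
    Continuous w ∧ (∀ t, ‖xx s (c t)‖ ≠ 1 ∧ Fb m (xx s (c t)) (yy (c t)) (w t)) ∧ c 1 = c 0 ∧
    w 1 = act (.r (1 : ZMod m)) (w 0) := by
  have hm := NeZero.ne m
  have hm0 : (m : ℂ) ≠ 0 := by exact_mod_cast hm
  set c : ℝ → E := fun t => pt (2 + 3 / 2 * Real.cos (2 * Real.pi * t)) 0
    (s * (3 / 2 * Real.sin (2 * Real.pi * t))) with hc
  have cc : Continuous c := Continuous.pt (by fun_prop) (by fun_prop) (by fun_prop)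
  have c10 : c 1 = c 0 := by simp [hc]
  have hx : ∀ t, xx s (c t) = 3 / 2 * exp ((2 * Real.pi * t : ℝ) * I) := by
    intro t
    have h1 : ‖zz (c t)‖ = 2 + 3 / 2 * Real.cos (2 * Real.pi * t) := by
      rw [hc, zz_pt]
      have := Real.neg_one_le_cos (2 * Real.pi * t)
      rw [ofReal_zero, zero_mul, add_zero, Complex.norm_real, Real.norm_of_nonneg (by linarith)]
    have h2 : s * (c t) 2 = 3 / 2 * Real.sin (2 * Real.pi * t) := by
      rcases hs with rfl | rfl <;> simp [hc]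
    rw [xx, h1, h2, exp_mul_I]; push_cast; ring
  have hn : ∀ t, ‖xx s (c t)‖ = 3 / 2 := fun t => by
    rw [hx, norm_mul, norm_exp_ofReal_mul_I]; simp
  have hx0 : ∀ t, xx s (c t) ≠ 0 := fun t h => by have := hn t; rw [h] at this; norm_num at this
  set D : ℝ → ℂ := fun t => 1 - yy (c t) ^ m / xx s (c t) ^ 2 with hD
  have hDs : ∀ t, 0 < (D t).re := by
    intro t
    have h1 : ‖yy (c t) ^ m / xx s (c t) ^ 2‖ < 1 := by
      rw [norm_div, norm_pow, norm_pow, hn, div_lt_one (by norm_num)]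
      have : ‖yy (c t)‖ ^ m ≤ 1 := pow_le_one₀ (norm_nonneg _) (norm_yy_le _)
      linarith
    have := (le_abs_self _).trans (abs_re_le_norm (yy (c t) ^ m / xx s (c t) ^ 2))
    simp only [hD, sub_re, one_re]; linarith
  have cD : Continuous D :=
    continuous_const.sub (((cont_yy.comp cc).pow _).div (((cont_xx s).comp cc).pow _)
      fun t => pow_ne_zero _ (hx0 t))
  set S : ℝ → ℂ := fun t => D t ^ ((2 : ℕ) : ℂ)⁻¹ with hS
  have cS : Continuous S := cD.cpow continuous_const fun t => Or.inl (hDs t)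
  have hS2 : ∀ t, S t ^ 2 = D t := fun t => cpow_nat_inv_pow _ two_ne_zero
  have hSre : ∀ t, 0 < (1 + S t).re := by
    intro t
    have : 0 ≤ (S t).re := by
      have := Complex.cpow_inv_two_re (D t)
      simp only [hS, Nat.cast_ofNat]; rw [this]; exact Real.sqrt_nonneg _
    simp only [add_re, one_re]; linarith
  have hS0 : ∀ t, 1 + S t ≠ 0 := fun t h => by have := hSre t; rw [h] at this; simp at this
  set w : ℝ → ℂ := fun t => exp (((2 * Real.pi * t : ℝ) * I + log (3 / 2 * (1 + S t))) / m) with hw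
  have cw : Continuous w := by
    have : Continuous fun t => log (3 / 2 * (1 + S t)) :=
      Continuous.clog (by fun_prop) fun t => Or.inl (by
        have := hSre t
        rw [show (3 / 2 : ℂ) = ((3 / 2 : ℝ) : ℂ) by push_cast; ring, re_ofReal_mul]; positivity)
    fun_prop
  have hw0 : ∀ t, w t ≠ 0 := fun t => exp_ne_zero _
  have hwm : ∀ t, w t ^ m = xx s (c t) * (1 + S t) := by
    intro t
    rw [hw, ← exp_nat_mul, mul_div_cancel₀ _ hm0, exp_add,
      exp_log (mul_ne_zero (by norm_num) (hS0 t)), hx]; ring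
  refine ⟨c, fun t => (w t, yy (c t) / w t), cc, cw.prodMk ((cont_yy.comp cc).div cw hw0),
    fun t => ⟨by rw [hn]; norm_num, ?_, ?_⟩, c10, ?_⟩
  · have := hw0 t; field_simp
  · have h1 := hS2 t
    have h2 := hx0 t
    have h3 := hS0 t
    simp only [hD] at h1
    field_simp at h1
    simp only [div_pow, hwm]
    field_simp
    linear_combination h1
  · have hS1 : S 1 = S 0 := by simp only [hS, hD, c10]
    have e : w 1 = ch (1 : ZMod m) * w 0 := by
      simp only [hw, hS1, ch_one, ← exp_add]; congr 1; push_cast; field_simp; ring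
    have h1 := ch_neg (1 : ZMod m)
    have h2 : ch (1 : ZMod m) ≠ 0 := left_ne_zero_of_mul_eq_one h1
    have h3 := hw0 0
    simp only [act, e, c10]
    refine Prod.ext rfl ?_
    field_simp
    linear_combination (-yy (c 0)) * h1

theorem gen_top (i : ZMod m) (H : Subgroup (DihedralGroup m))
    (h1 : ∃ g, g * .r 1 * g⁻¹ ∈ H) (h2 : ∃ g, g * .sr i * g⁻¹ ∈ H) : H = ⊤ := by
  have a1 : DihedralGroup.r 1 ∈ H := by
    obtain ⟨j | j, h⟩ := h1
    · simpa using h
    · have := H.inv_mem h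
      simpa using this
  have a2 : ∀ k : ZMod m, DihedralGroup.r k ∈ H := fun k => by
    have := H.pow_mem a1 k.val
    simpa using this
  obtain ⟨j, a3⟩ : ∃ j, DihedralGroup.sr j ∈ H := by
    obtain ⟨j | j, h⟩ := h2
    · exact ⟨_, h⟩
    · exact ⟨_, h⟩
  rw [eq_top_iff]
  rintro (k | k) -
  · exact a2 k
  · have := H.mul_mem a3 (a2 (k - j))
    simpa using this

end T1x

open T1x in
theorem s_T1 (hC : S_COVER) : S_T1 := by
  intro q hq hO hP
  have hm : Odd q.natAbs := Int.natAbs_odd.2 hq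
  haveI : NeZero q.natAbs := ⟨hm.pos.ne'⟩
  obtain ⟨s, hs, hqs⟩ : ∃ s : ℝ, (s = 1 ∨ s = -1) ∧ (q : ℝ) = s * q.natAbs := by
    rcases Int.natAbs_eq q with h | h
    · exact ⟨1, Or.inl rfl, by rw [one_mul, ← Int.cast_natCast, ← h]⟩
    · exact ⟨-1, Or.inr rfl, by rw [neg_one_mul, ← Int.cast_natCast, ← Int.cast_neg, ← h]⟩
  have hU : ∀ p ∈ (torus2 q)ᶜ, xx s p ^ 2 ≠ yy p ^ q.natAbs := fun p hp h => hp (key hm hs hqs h)
  have hK : ∀ p, ‖xx s p‖ ≠ 1 → p ∈ (torus2 q)ᶜ := by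
    rintro _ hp ⟨t, rfl⟩
    apply hp
    have h1 := Real.neg_one_le_cos (q * t)
    have hz : ‖zz (pt ((2 + Real.cos (q * t)) * Real.cos (2 * t))
        ((2 + Real.cos (q * t)) * Real.sin (2 * t)) (Real.sin (q * t)))‖ = 2 + Real.cos (q * t) := by
      have : zz (pt ((2 + Real.cos (q * t)) * Real.cos (2 * t))
          ((2 + Real.cos (q * t)) * Real.sin (2 * t)) (Real.sin (q * t))) =
          ((2 + Real.cos (q * t) : ℝ) : ℂ) * Complex.exp ((2 * t : ℝ) * Complex.I) := by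
        rw [zz_pt, Complex.exp_mul_I]; push_cast; ring
      rw [this, norm_mul, Complex.norm_exp_ofReal_mul_I, mul_one, Complex.norm_real,
        Real.norm_of_nonneg (by linarith)]
    rw [xx, hz, Complex.norm_add_mul_I, pt_2, Real.sqrt_eq_one]
    have := Real.cos_sq_add_sin_sq (q * t)
    rcases hs with rfl | rfl <;> nlinarith
  obtain ⟨i, cA, wA, a1, a2, a3, a4, a5⟩ := loopA (m := q.natAbs) s hm
  obtain ⟨cB, wB, b1, b2, b3, b4, b5⟩ := loopB (m := q.natAbs) hs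
  refine hC _ (ℂ × ℂ) act (fun p w => Fb q.natAbs (xx s p) (yy p) w) _ hO hP act_one act_mul act_cont
    (fun p hp w w' hw => fb_iff (hU p hp) hw) (fun p hp w g hw hg => free (hU p hp) hw hg)
    (fun x hx => sec (cont_xx s) cont_yy (hU x hx)) {.r 1, .sr i} ?_ fun H hH =>
      gen_top i H (hH _ (by simp)) (hH _ (by simp))
  rintro _ (rfl | rfl)
  · exact ⟨cB, wB, b1, b2, fun t => ⟨hK _ (b3 t).1, (b3 t).2⟩, b4, b5⟩
  · exact ⟨cA, wA, a1, a2, fun t => ⟨hK _ (a3 t).1, (a3 t).2⟩, a4, a5⟩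

end Pool.Agent.P.MP_28369d_gt.SB
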