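import Pool.Agent.P.MP_28369d_gt.SB.Tools

namespace Pool.Agent.P.MP_28369d_gt.SB

open Set Filter Topology
open scoped RealInnerProductSpace

namespace T3x

theorem pt_eq (x y z : ℝ) : pt x y z = x • pt 1 0 0 + y • pt 0 1 0 + z • pt 0 0 1 := by
  refine E_ext ?_ ?_ ?_ <;> simp

theorem hd_pt {f g h : ℝ → ℝ} {a b c t : ℝ} (hf : HasDerivAt f a t) (hg : HasDerivAt g b t)
    (hh : HasDerivAt h c t) : HasDerivAt (fun t => pt (f t) (g t) (h t)) (pt a b c) t := by
  have := ((hf.smul_const (pt 1 0 0)).add (hg.smul_const (pt 0 1 0))).add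
    (hh.smul_const (pt 0 0 1))
  rw [← pt_eq] at this
  exact this.congr_of_eventuallyEq (Eventually.of_forall fun t => pt_eq _ _ _)

theorem hcos (a t : ℝ) : HasDerivAt (fun t => Real.cos (a * t)) (-(a * Real.sin (a * t))) t :=
  ((hasDerivAt_id' t).const_mul a).cos.congr_deriv (by ring)

theorem hsin (a t : ℝ) : HasDerivAt (fun t => Real.sin (a * t)) (a * Real.cos (a * t)) t :=
  ((hasDerivAt_id' t).const_mul a).sin.congr_deriv (by ring)

theorem hd (q : ℤ) (s t : ℝ) : HasDerivAt (tor q s) (tor' q s t) t := by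
  have h := ((hcos q t).const_mul s).const_add 2
  exact hd_pt ((h.mul (hcos 2 t)).congr_deriv (by ring)) ((h.mul (hsin 2 t)).congr_deriv (by ring))
    ((((hsin q t).const_mul s).add ((hcos 4 t).const_mul (1 - s))).congr_deriv (by ring))

theorem cont (q : ℤ) (s : ℝ) : Continuous (tor' q s) :=
  Continuous.pt (by fun_prop) (by fun_prop) (by fun_prop)

theorem per (q : ℤ) (s : ℝ) : Function.Periodic (tor q s) (2 * Real.pi) := fun t => by
  have hc : ∀ n : ℤ, Real.cos (n * (t + 2 * Real.pi)) = Real.cos (n * t) := fun n => by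
    rw [mul_add, Real.cos_add_int_mul_two_pi]
  have hs : ∀ n : ℤ, Real.sin (n * (t + 2 * Real.pi)) = Real.sin (n * t) := fun n => by
    rw [mul_add, Real.sin_add_int_mul_two_pi]
  have h1 := hc 2
  have h2 := hs 2
  have h3 := hc 4
  push_cast at h1 h2 h3
  rw [tor, tor, hc, hs, h1, h2, h3]

theorem rad {s : ℝ} (h0 : 0 < s) (h1 : s ≤ 1) (a : ℝ) : 0 < 2 + s * Real.cos a := by
  nlinarith [Real.neg_one_le_cos a]

theorem ne (q : ℤ) {s : ℝ} (h0 : 0 < s) (h1 : s ≤ 1) (t : ℝ) : tor' q s t ≠ 0 := fun h => by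
  have e0 : -(s * q * Real.sin (q * t)) * Real.cos (2 * t) -
      2 * (2 + s * Real.cos (q * t)) * Real.sin (2 * t) = 0 := congrArg (fun v : E => v 0) h
  have e1 : -(s * q * Real.sin (q * t)) * Real.sin (2 * t) +
      2 * (2 + s * Real.cos (q * t)) * Real.cos (2 * t) = 0 := congrArg (fun v : E => v 1) h
  refine (rad h0 h1 (q * t)).ne' ?_
  linear_combination (Real.cos (2 * t) * e1 - Real.sin (2 * t) * e0) / 2 -
    (2 + s * Real.cos (q * t)) * Real.cos_sq_add_sin_sq (2 * t)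

theorem ang {a b : ℝ} (hc : Real.cos a = Real.cos b) (hs : Real.sin a = Real.sin b) :
    ∃ k : ℤ, k * (2 * Real.pi) = b - a := by
  rw [← Real.cos_eq_one_iff, Real.cos_sub, hc, hs]
  linear_combination Real.cos_sq_add_sin_sq b

theorem inj {q : ℤ} (hq : Odd q) {s : ℝ} (h0 : 0 < s) (h1 : s ≤ 1) :
    InjMod (tor q s) (2 * Real.pi) := fun t u h => by
  have e0 : (2 + s * Real.cos (q * t)) * Real.cos (2 * t) =
      (2 + s * Real.cos (q * u)) * Real.cos (2 * u) := congrArg (fun v : E => v 0) h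
  have e1 : (2 + s * Real.cos (q * t)) * Real.sin (2 * t) =
      (2 + s * Real.cos (q * u)) * Real.sin (2 * u) := congrArg (fun v : E => v 1) h
  have e2 : s * Real.sin (q * t) + (1 - s) * Real.cos (4 * t) =
      s * Real.sin (q * u) + (1 - s) * Real.cos (4 * u) := congrArg (fun v : E => v 2) h
  have hr := rad h0 h1 (q * u)
  have r : 2 + s * Real.cos (q * t) = 2 + s * Real.cos (q * u) := by
    refine (sq_eq_sq₀ (rad h0 h1 _).le hr.le).1 ?_
    linear_combination
      ((2 + s * Real.cos (q * t)) * Real.cos (2 * t) +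
        (2 + s * Real.cos (q * u)) * Real.cos (2 * u)) * e0 +
      ((2 + s * Real.cos (q * t)) * Real.sin (2 * t) +
        (2 + s * Real.cos (q * u)) * Real.sin (2 * u)) * e1 -
      (2 + s * Real.cos (q * t)) ^ 2 * Real.cos_sq_add_sin_sq (2 * t) +
      (2 + s * Real.cos (q * u)) ^ 2 * Real.cos_sq_add_sin_sq (2 * u)
  rw [r] at e0 e1
  have c2 := mul_left_cancel₀ hr.ne' e0
  have c4 : Real.cos (4 * t) = Real.cos (4 * u) := by
    rw [show 4 * t = 2 * (2 * t) by ring, show 4 * u = 2 * (2 * u) by ring, Real.cos_two_mul,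
      Real.cos_two_mul (2 * u), c2]
  rw [c4] at e2
  obtain ⟨k, hk⟩ := ang c2 (mul_left_cancel₀ hr.ne' e1)
  obtain ⟨m, hm⟩ := ang (mul_left_cancel₀ h0.ne' (add_left_cancel r))
    (mul_left_cancel₀ h0.ne' (add_right_cancel e2))
  have hkm : q * k = 2 * m := by
    have : ((q * k : ℤ) : ℝ) * Real.pi = ((2 * m : ℤ) : ℝ) * Real.pi := by
      push_cast
      linear_combination (q / 2 : ℝ) * hk - hm
    exact_mod_cast mul_right_cancel₀ Real.pi_ne_zero this
  have he : Even (q * k) := hkm ▸ even_two_mul m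
  obtain ⟨l, hl⟩ := (Int.even_mul.1 he).resolve_left (Int.not_even_iff_odd.2 hq)
  refine ⟨l, ?_⟩
  rw [hl] at hk
  push_cast at hk
  linear_combination (-1 / 2 : ℝ) * hk

theorem lip {F F' : ℝ → E} {T : ℝ} (hT : T ≠ 0) (hp : Function.Periodic F T)
    (hF : ∀ t, HasDerivAt F (F' t) t) (hc : Continuous F') : ∃ L, LipschitzWith L F := by
  have hp' : Function.Periodic F' T := fun t => by
    have h := (hF (t + T)).comp_add_const t T
    rw [funext hp] at h
    exact h.unique (hF t)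
  obtain ⟨C, hC⟩ := (hp'.isBounded_of_continuous hT hc).exists_norm_le
  refine ⟨C.toNNReal, lipschitzWith_of_nnnorm_deriv_le (fun t => (hF t).differentiableAt) fun t => ?_⟩
  rw [(hF t).deriv, ← NNReal.coe_le_coe, coe_nnnorm]
  exact (hC _ (mem_range_self t)).trans (Real.le_coe_toNNReal C)

theorem seg (q : ℤ) (s σ t : ℝ) :
    tor q 1 t + σ • (tor q s t - tor q 1 t) = tor q (1 + σ * (s - 1)) t := by
  refine E_ext ?_ ?_ ?_ <;> simp [tor] <;> ring

end T3x

theorem s_T3 (hF : S_FAM) (hE : S_SMEMB) : S_T3 := by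
  intro q s hq h0 h1
  refine ⟨T3x.per q s, T3x.inj hq h0 h1, T3x.hd q s, T3x.cont q s, T3x.ne q h0 h1, ?_⟩
  have e : torus2 q = range (tor q 1) := by
    unfold torus2 tor
    simp
  obtain ⟨L, hL⟩ := T3x.lip Real.two_pi_pos.ne' (T3x.per q s) (T3x.hd q s) (T3x.cont q s)
  obtain ⟨L', hL'⟩ := T3x.lip Real.two_pi_pos.ne' (T3x.per q 1) (T3x.hd q 1) (T3x.cont q 1)
  rw [e]
  refine hF _ _ _ _ Real.two_pi_pos (T3x.per q 1) (T3x.per q s) (hL.sub hL') fun σ hσ => ?_
  have a0 : 0 < 1 + σ * (s - 1) := by nlinarith [hσ.1, hσ.2]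
  have a1 : 1 + σ * (s - 1) ≤ 1 := by nlinarith [hσ.1]
  simp only [T3x.seg]
  exact hE _ _ _ Real.two_pi_pos (T3x.per q _) (T3x.hd q _) (T3x.cont q _) (T3x.ne q a0 a1)
    (T3x.inj hq a0 a1)

end Pool.Agent.P.MP_28369d_gt.SB
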