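import Pool.Agent.P.MP_28369d_gt.SB.Tools

/-!
A polygonal conformation of the torus knot with at most four maxima in every direction.
-/

namespace Pool.Agent.P.MP_28369d_gt.SB

open Set Filter Topology
open scoped RealInnerProductSpace

namespace T4x

theorem zero_between {g : ℝ → ℝ} (hg : Continuous g) {a b : ℝ} (hab : a < b)
    (h : (0 < g a ∧ g b < 0) ∨ (g a < 0 ∧ 0 < g b)) : ∃ z, a < z ∧ z < b ∧ g z = 0 := by
  rcases h with h | h
  · obtain ⟨z, hz, h0⟩ := intermediate_value_Ioo' hab.le hg.continuousOn ⟨h.2, h.1⟩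
    exact ⟨z, hz.1, hz.2, h0⟩
  · obtain ⟨z, hz, h0⟩ := intermediate_value_Ioo hab.le hg.continuousOn ⟨h.1, h.2⟩
    exact ⟨z, hz.1, hz.2, h0⟩

theorem nine {g : ℝ → ℝ} (hg : Continuous g) (α β : ℕ → ℝ)
    (h1 : ∀ k < 5, α k < β k ∧ 0 < g (α k) ∧ g (β k) < 0)
    (h2 : ∀ k, k + 1 < 5 → β k < α (k + 1)) :
    ∃ S : Finset ℝ, S.card = 9 ∧ ∀ t ∈ S, α 0 < t ∧ t < β 4 ∧ g t = 0 := by
  have A : ∀ k < 5, ∃ z, α k < z ∧ z < β k ∧ g z = 0 := fun k hk =>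
    zero_between hg (h1 k hk).1 (Or.inl (h1 k hk).2)
  have B : ∀ k, k + 1 < 5 → ∃ z, β k < z ∧ z < α (k + 1) ∧ g z = 0 := fun k hk =>
    zero_between hg (h2 k hk) (Or.inr ⟨(h1 k (by omega)).2.2, (h1 (k + 1) hk).2.1⟩)
  obtain ⟨z0, a0, b0, c0⟩ := A 0 (by omega)
  obtain ⟨z1, a1, b1, c1⟩ := B 0 (by omega)
  obtain ⟨z2, a2, b2, c2⟩ := A 1 (by omega)
  obtain ⟨z3, a3, b3, c3⟩ := B 1 (by omega)
  obtain ⟨z4, a4, b4, c4⟩ := A 2 (by omega)
  obtain ⟨z5, a5, b5, c5⟩ := B 2 (by omega)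
  obtain ⟨z6, a6, b6, c6⟩ := A 3 (by omega)
  obtain ⟨z7, a7, b7, c7⟩ := B 3 (by omega)
  obtain ⟨z8, a8, b8, c8⟩ := A 4 (by omega)
  norm_num at b1 b3 b5 b7
  have hm : StrictMono ![z0, z1, z2, z3, z4, z5, z6, z7, z8] := by
    rw [Fin.strictMono_iff_lt_succ]
    intro i
    fin_cases i <;> simp <;> linarith
  refine ⟨Finset.univ.image ![z0, z1, z2, z3, z4, z5, z6, z7, z8], ?_, fun t ht => ?_⟩
  · rw [Finset.card_image_of_injective _ hm.injective]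
    simp
  · obtain ⟨i, -, rfl⟩ := Finset.mem_image.mp ht
    have l1 : z0 ≤ ![z0, z1, z2, z3, z4, z5, z6, z7, z8] i := hm.monotone (Fin.zero_le i)
    have l2 : ![z0, z1, z2, z3, z4, z5, z6, z7, z8] i ≤ z8 := hm.monotone (Fin.le_last i)
    refine ⟨by linarith, by linarith, ?_⟩
    fin_cases i <;> assumption

end T4x

open T4x in
theorem s_T4 (h3 : S_T3) (hP : S_T4P) (hI : S_INSC) : S_T4 := by
  intro q hq
  obtain ⟨s, hs0, hs1, hS⟩ := hP q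
  obtain ⟨hper, hinj, hder, hcont, hne, hiso⟩ := h3 q s hq hs0 hs1
  have hT : 0 < 2 * Real.pi := by positivity
  obtain ⟨Q, hQv, hQ⟩ := hI (tor q s) (tor' q s) (2 * Real.pi) hT hper hder hcont hne hinj
  refine ⟨Q, hiso.trans hQ, fun u hu => ?_⟩
  by_contra hc
  have h5 : 5 ≤ mx Q.n fun i => ⟪Q.e i, u⟫ := by
    have : ¬ mx Q.n (fun i => ⟪Q.e i, u⟫) ≤ 4 := hc
    omega
  have hper' : ∀ i : ℤ, ⟪Q.e (i + Q.n), u⟫ = ⟪Q.e i, u⟫ := by
    intro i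
    simp only [Poly.e, show i + Q.n + 1 = i + 1 + Q.n by ring, Q.per]
  obtain ⟨a, b, hab, hba⟩ := alt_of_le_mx hper' h5
  have hN : (0 : ℝ) < Q.n := by exact_mod_cast Q.pos
  set c : ℤ → ℝ := fun i => 2 * Real.pi * i / Q.n with hcdef
  have hcm : ∀ i j : ℤ, i ≤ j → c i ≤ c j := by
    intro i j hij
    have : (i : ℝ) ≤ j := by exact_mod_cast hij
    simp only [hcdef]
    gcongr
  have hcs : ∀ i : ℤ, c i < c (i + 1) := by
    intro i
    simp only [hcdef]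
    push_cast
    gcongr
    linarith
  have hg : ∀ t, HasDerivAt (fun t => ⟪tor q s t, u⟫) ⟪tor' q s t, u⟫ t := by
    intro t
    simpa using (hder t).inner ℝ (hasDerivAt_const t u)
  have hg' : Continuous fun t => ⟪tor' q s t, u⟫ := hcont.inner continuous_const
  have hξ : ∀ i : ℤ, ∃ ξ ∈ Ioo (c i) (c (i + 1)),
      ⟪tor' q s ξ, u⟫ = ⟪Q.e i, u⟫ / (c (i + 1) - c i) := by
    intro i
    obtain ⟨ξ, h1, h2⟩ := exists_hasDerivAt_eq_slope (fun t => ⟪tor q s t, u⟫)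
      (fun t => ⟪tor' q s t, u⟫) (hcs i)
      (fun t _ => (hg t).continuousAt.continuousWithinAt) (fun t _ => hg t)
    refine ⟨ξ, h1, ?_⟩
    rw [h2, Poly.e, inner_sub_left, hQv, hQv]
  choose ξ hξ1 hξ2 using hξ
  have hξm : ∀ i j : ℤ, i < j → ξ i < ξ j := fun i j hij =>
    (hξ1 i).2.trans_le ((hcm _ _ (by omega)).trans (hξ1 j).1.le)
  obtain ⟨S, hcard, hSm⟩ := nine hg' (fun k => ξ (a k)) (fun k => ξ (b k))
    (fun k hk => ⟨hξm _ _ (hab k hk).1, by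
      rw [hξ2]; exact div_pos (hab k hk).2.1 (sub_pos.mpr (hcs _)), by
      rw [hξ2]; exact div_neg_of_neg_of_pos (hab k hk).2.2.1 (sub_pos.mpr (hcs _))⟩)
    fun k hk => hξm _ _ (hba k hk)
  have h8 := hS u hu (c (a 0)) S fun t ht => by
    obtain ⟨e1, e2, e3⟩ := hSm t ht
    refine ⟨((hξ1 _).1.trans e1).le, ?_, e3⟩
    have e4 : c (b 4 + 1) ≤ c (a 0 + Q.n) := hcm _ _ (by have := (hab 4 (by omega)).2.2.2; omega)
    have e5 : c (a 0 + Q.n) = c (a 0) + 2 * Real.pi := by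
      simp only [hcdef]
      push_cast
      field_simp
    have e6 := (hξ1 (b 4)).2
    linarith
  omega

end Pool.Agent.P.MP_28369d_gt.SB
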