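import Pool.Agent.P.MP_28369d_gt.SB.Tools

namespace Pool.Agent.P.MP_28369d_gt.SB

open Set Filter Topology
open scoped RealInnerProductSpace

namespace T4Px

open Polynomial

/-- The monic polynomial with roots `z j`. -/
noncomputable def MM {n : ℕ} (z : Fin n → ℂ) : ℂ[X] := ∏ j, (X - C (z j))

theorem MM_monic {n : ℕ} (z : Fin n → ℂ) : (MM z).Monic := monic_prod_X_sub_C _ _

theorem cont_rem {n : ℕ} (p : ℂ[X]) (k : ℕ) :
    Continuous fun z : Fin n → ℂ => (p %ₘ MM z).coeff k := by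
  have e : ∀ z : Fin n → ℂ, (p %ₘ MM z).coeff k = MvPolynomial.eval z
      ((p.map MvPolynomial.C %ₘ ∏ j, (X - C (MvPolynomial.X j : MvPolynomial (Fin n) ℂ))).coeff
        k) := by
    intro z
    rw [← coeff_map, map_modByMonic _ (monic_prod_X_sub_C _ _), Polynomial.map_map,
      Polynomial.map_prod]
    have : (MvPolynomial.eval z).comp MvPolynomial.C = RingHom.id ℂ := by
      ext x
      simp
    rw [this, Polynomial.map_id]
    simp [MM]
  simp only [e]
  exact MvPolynomial.continuous_eval _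

theorem pert {n : ℕ} (A B : Fin 3 → ℂ[X])
    (h : ∀ u : E, ‖u‖ = 1 → ∀ z : Fin n → ℂ, (∀ j, ‖z j‖ = 1) →
      ¬ MM z ∣ ∑ i, (u i : ℂ) • A i) :
    ∀ᶠ s : ℝ in 𝓝 0, ∀ u : E, ‖u‖ = 1 → ∀ z : Fin n → ℂ, (∀ j, ‖z j‖ = 1) →
      ¬ MM z ∣ ∑ i, (u i : ℂ) • (A i + (s : ℂ) • B i) := by
  have hK : IsCompact (Metric.sphere (0 : E) 1 ×ˢ
      (univ.pi fun _ : Fin n => Metric.sphere (0 : ℂ) 1)) :=
    (isCompact_sphere _ _).prod (isCompact_univ_pi fun _ => isCompact_sphere _ _)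
  have e : ∀ (s : ℝ) (u : E) (z : Fin n → ℂ) (k : ℕ),
      ((∑ i, (u i : ℂ) • (A i + (s : ℂ) • B i)) %ₘ MM z).coeff k =
        ∑ i, (u i : ℂ) * ((A i %ₘ MM z).coeff k + s * (B i %ₘ MM z).coeff k) := by
    intro s u z k
    simp only [Fin.sum_univ_three, add_modByMonic, smul_modByMonic, coeff_add, coeff_smul,
      smul_eq_mul]
  have key := hK.eventually_forall_of_forall_eventually (x₀ := (0 : ℝ))
    (P := fun (s : ℝ) y => ¬ MM y.2 ∣ ∑ i, (y.1 i : ℂ) • (A i + (s : ℂ) • B i)) (by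
      rintro ⟨u, z⟩ ⟨hu, hz⟩
      have h1 := h u (mem_sphere_zero_iff_norm.1 hu) z
        fun j => mem_sphere_zero_iff_norm.1 (hz j (mem_univ j))
      have h2 : (∑ i, (u i : ℂ) • (A i + ((0 : ℝ) : ℂ) • B i)) %ₘ MM z ≠ 0 := by
        simpa [modByMonic_eq_zero_iff_dvd (MM_monic z)] using h1
      obtain ⟨k, hk⟩ : ∃ k, ((∑ i, (u i : ℂ) • (A i + ((0 : ℝ) : ℂ) • B i)) %ₘ MM z).coeff k
          ≠ 0 := by
        by_contra hc
        push Not at hc
        exact h2 (Polynomial.ext fun k => by rw [hc k, coeff_zero])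
      have hc : Continuous fun y : ℝ × E × (Fin n → ℂ) =>
          ((∑ i, (y.2.1 i : ℂ) • (A i + (y.1 : ℂ) • B i)) %ₘ MM y.2.2).coeff k := by
        simp only [e]
        refine continuous_finsetSum _ fun i _ => Continuous.mul (by fun_prop) ?_
        exact ((cont_rem _ k).comp continuous_snd.snd).add
          (Continuous.mul (by fun_prop) ((cont_rem _ k).comp continuous_snd.snd))
      filter_upwards [hc.continuousAt.eventually_ne (x := (0, u, z)) hk] with y hy hd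
      rw [(modByMonic_eq_zero_iff_dvd (MM_monic _)).2 hd] at hy
      exact hy (coeff_zero k))
  filter_upwards [key] with s hs u hu z hz
  exact hs (u, z) ⟨mem_sphere_zero_iff_norm.2 hu, fun j _ => mem_sphere_zero_iff_norm.2 (hz j)⟩

/-- The point `exp (i t)` of the unit circle. -/
noncomputable def ez (t : ℝ) : ℂ := Complex.exp (t * Complex.I)

theorem ez_cos (n : ℕ) (t : ℝ) :
    ez t ^ n * (Real.cos (n * t) : ℂ) = (ez t ^ (2 * n) + 1) / 2 := by
  have h1 : ez t ^ n = Complex.exp (n * t * Complex.I) := by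
    rw [ez, ← Complex.exp_nat_mul, mul_assoc]
  have h2 : Complex.exp (n * t * Complex.I) * Complex.exp (-(n * t) * Complex.I) = 1 := by
    rw [← Complex.exp_add]
    simp
  rw [mul_comm 2 n, pow_mul, h1, Complex.ofReal_cos, Complex.cos]
  push_cast
  linear_combination h2 / 2

theorem ez_sin (n : ℕ) (t : ℝ) :
    ez t ^ n * (Real.sin (n * t) : ℂ) = (1 - ez t ^ (2 * n)) * Complex.I / 2 := by
  have h1 : ez t ^ n = Complex.exp (n * t * Complex.I) := by
    rw [ez, ← Complex.exp_nat_mul, mul_assoc]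
  have h2 : Complex.exp (n * t * Complex.I) * Complex.exp (-(n * t) * Complex.I) = 1 := by
    rw [← Complex.exp_add]
    simp
  rw [mul_comm 2 n, pow_mul, h1, Complex.ofReal_sin, Complex.sin]
  push_cast
  linear_combination h2 * Complex.I / 2

/-- Trigonometric polynomials of degree at most `D`. -/
def TP (D : ℕ) (f : ℝ → ℝ) : Prop :=
  ∃ p : ℂ[X], ∀ t : ℝ, ez t ^ D * (f t : ℂ) = p.eval (ez t)

theorem TP.mono {D D' : ℕ} {f : ℝ → ℝ} (h : TP D f) (hD : D ≤ D') : TP D' f := by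
  obtain ⟨p, hp⟩ := h
  obtain ⟨m, rfl⟩ := Nat.exists_eq_add_of_le hD
  exact ⟨X ^ m * p, fun t => by rw [eval_mul, ← hp]; simp; ring⟩

theorem TP.comb {D : ℕ} {f g : ℝ → ℝ} (h : TP D f) (h' : TP D g) (a b : ℝ) :
    TP D fun t => a * f t + b * g t := by
  obtain ⟨p, hp⟩ := h
  obtain ⟨p', hp'⟩ := h'
  exact ⟨C (a : ℂ) * p + C (b : ℂ) * p', fun t => by
    rw [eval_add, eval_mul, eval_mul, ← hp, ← hp']; simp; ring⟩

theorem TP.mul {D D' : ℕ} {f g : ℝ → ℝ} (h : TP D f) (h' : TP D' g) :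
    TP (D + D') fun t => f t * g t := by
  obtain ⟨p, hp⟩ := h
  obtain ⟨p', hp'⟩ := h'
  exact ⟨p * p', fun t => by rw [eval_mul, ← hp, ← hp']; simp; ring⟩

theorem tp_cosn (n : ℕ) : TP n fun t => Real.cos (n * t) :=
  ⟨C (1 / 2) * (X ^ (2 * n) + 1), fun t => by rw [ez_cos]; simp; ring⟩

theorem tp_sinn (n : ℕ) : TP n fun t => Real.sin (n * t) :=
  ⟨C (Complex.I / 2) * (1 - X ^ (2 * n)), fun t => by rw [ez_sin]; simp; ring⟩

theorem tp_cos (k : ℤ) : TP k.natAbs fun t => Real.cos (k * t) := by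
  obtain ⟨n, rfl | rfl⟩ := k.eq_nat_or_neg
  · simpa using tp_cosn n
  · simpa using tp_cosn n

theorem tp_sin (k : ℤ) : TP k.natAbs fun t => Real.sin (k * t) := by
  obtain ⟨n, rfl | rfl⟩ := k.eq_nat_or_neg
  · simpa using tp_sinn n
  · simpa using (tp_sinn n).comb (tp_sinn n) (-1) 0

/-- The three polynomials of the limit curve. -/
noncomputable def RR : Fin 3 → ℂ[X] :=
  ![C (2 * Complex.I) * (X ^ 6 - X ^ 2), C 2 * (X ^ 6 + X ^ 2), C (2 * Complex.I) * (X ^ 8 - 1)]

theorem not_dvd (m : ℕ) (u : E) (hu : ‖u‖ = 1) (z : Fin 9 → ℂ) (hz : ∀ j, ‖z j‖ = 1) :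
    ¬ MM z ∣ ∑ i, (u i : ℂ) • (X ^ m * RR i) := by
  intro h
  have e : ∑ i, (u i : ℂ) • (X ^ m * RR i) = X ^ m * ∑ i, (u i : ℂ) • RR i := by
    simp only [Finset.mul_sum, mul_smul_comm]
  have hc : IsCoprime (MM z) (X ^ m) := by
    refine IsCoprime.pow_right (IsCoprime.prod_left fun j _ => ?_)
    have : z j - 0 ≠ 0 := by
      rw [sub_zero, ← norm_ne_zero_iff, hz j]
      exact one_ne_zero
    simpa using isCoprime_X_sub_C_of_isUnit_sub this.isUnit
  rw [e] at h
  have h1 := hc.dvd_of_dvd_mul_left h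
  have h2 : ∑ i, (u i : ℂ) • RR i ≠ 0 := by
    intro h0
    have c0 := congrArg (coeff · 0) h0
    have c6 := congrArg (coeff · 6) h0
    simp [RR, Fin.sum_univ_three, coeff_X_pow, coeff_one, -map_mul] at c0 c6
    have r := congrArg Complex.re c6
    have i := congrArg Complex.im c6
    simp at r i
    have := normsq3 u
    rw [hu, c0, r, i] at this
    norm_num at this
  have h3 := natDegree_le_of_dvd h1 h2
  have h4 : (MM z).natDegree = 9 := by
    rw [MM, natDegree_finsetProd_X_sub_C_eq_card]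
    simp
  have h5 : (∑ i, (u i : ℂ) • RR i).natDegree ≤ 8 := by
    simp only [RR, Fin.sum_univ_three, Matrix.cons_val_zero, Matrix.cons_val_one, Matrix.cons_val]
    compute_degree
  omega

theorem ez_inj {a b : ℝ} (h : ez a = ez b) (hab : |a - b| < 2 * Real.pi) : a = b := by
  obtain ⟨n, hn⟩ := Complex.exp_eq_exp_iff_exists_int.1 h
  have h1 := congrArg Complex.im hn
  simp at h1
  have h2 : |(n : ℝ)| < 1 := by
    have hp := Real.two_pi_pos
    rw [show a - b = n * (2 * Real.pi) by linarith, abs_mul, abs_of_pos hp] at hab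
    exact (mul_lt_iff_lt_one_left hp).1 hab
  have h3 : n = 0 := Int.abs_lt_one_iff.1 (by exact_mod_cast h2)
  simpa [h3] using h1

end T4Px

open T4Px Polynomial in
theorem s_T4P : S_T4P := by
  intro q
  have c2 : TP 2 fun t => Real.cos (2 * t) := by simpa using tp_cosn 2
  have s2 : TP 2 fun t => Real.sin (2 * t) := by simpa using tp_sinn 2
  have s4 : TP 4 fun t => Real.sin (4 * t) := by simpa using tp_sinn 4
  obtain ⟨B0, b0⟩ := (((tp_sin q).mul c2).comb ((tp_cos q).mul s2) (-q) (-2)).mono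
    (D' := q.natAbs + 4) (by omega)
  obtain ⟨B1, b1⟩ := (((tp_sin q).mul s2).comb ((tp_cos q).mul c2) (-q) 2).mono
    (D' := q.natAbs + 4) (by omega)
  obtain ⟨B2, b2⟩ := ((tp_cos q).mono (D' := q.natAbs + 4) (by omega)).comb
    (s4.mono (by omega)) q 4
  have key := pert (n := 9) (fun i => X ^ q.natAbs * RR i) ![B0, B1, B2] (not_dvd _)
  have hev : ∀ᶠ s : ℝ in 𝓝[>] 0, s ∈ Ioc (0 : ℝ) 1 := Ioc_mem_nhdsGT one_pos
  obtain ⟨s, hs, hs'⟩ := (hev.and (key.filter_mono nhdsWithin_le_nhds)).exists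
  refine ⟨s, hs.1, hs.2, fun u hu t0 S hS => ?_⟩
  by_contra hc
  obtain ⟨T, hT, hT9⟩ := Finset.exists_subset_card_eq (s := S) (n := 9) (by omega)
  let e := T.orderEmbOfFin hT9
  have he : ∀ j, e j ∈ S := fun j => hT (Finset.orderEmbOfFin_mem _ hT9 j)
  have hinj : Function.Injective fun j => ez (e j) := fun i j h => e.injective (ez_inj h (by
    have a := hS _ (he i)
    have b := hS _ (he j)
    rw [abs_lt]
    constructor <;> linarith [a.1, a.2.1, b.1, b.2.1]))
  refine hs' u hu (fun j => ez (e j)) (fun j => Complex.norm_exp_ofReal_mul_I _) ?_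
  refine Finset.prod_dvd_of_coprime (fun i _ j _ hij => pairwise_coprime_X_sub_C hinj hij)
    fun j _ => dvd_iff_isRoot.2 ?_
  have h0 := (hS _ (he j)).2.2
  beta_reduce
  generalize e j = t at h0 ⊢
  rw [inner3] at h0
  simp only [tor', pt_0, pt_1, pt_2] at h0
  have h1 := congrArg (fun x : ℝ => (x : ℂ)) h0
  have a2 := ez_cos 2 t
  have a3 := ez_sin 2 t
  have a4 := ez_sin 4 t
  have a5 := b0 t
  have a6 := b1 t
  have a7 := b2 t
  simp only [IsRoot, RR, Fin.sum_univ_three, Matrix.cons_val_zero, Matrix.cons_val_one,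
    Matrix.cons_val, eval_add, eval_smul, eval_mul, eval_pow, eval_X, eval_C, eval_sub, eval_one,
    smul_eq_mul, ← a5, ← a6, ← a7]
  simp only [Complex.ofReal_add, Complex.ofReal_sub, Complex.ofReal_mul, Complex.ofReal_neg,
    Complex.ofReal_ofNat, Complex.ofReal_intCast, Complex.ofReal_zero, Complex.ofReal_one,
    Nat.cast_ofNat] at h1 a2 a3 a4 ⊢
  linear_combination ez t ^ (q.natAbs + 4) * h1 + 4 * u 0 * ez t ^ (q.natAbs + 2) * a3
    - 4 * u 1 * ez t ^ (q.natAbs + 2) * a2 + 4 * u 2 * ez t ^ q.natAbs * a4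

end Pool.Agent.P.MP_28369d_gt.SB
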