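import Pool.Agent.P.MP_28369d_gt.SB.Tools

/-!
Meridian elements along an edge and across a vertex.
-/

namespace Pool.Agent.P.MP_28369d_gt.SB

open Set Filter Topology
open scoped RealInnerProductSpace

namespace W1x

variable {G : Type} [Group G] {ω : E → E → G} {Q : Poly} {d : E} {fp fm : E → G}

theorem const (h : WC ω Q d fp fm) {C : Set E} (hC : Convex ℝ C)
    (hm : ∀ p ∈ C, ∀ τ r : ℝ, Q.γ τ ≠ p + r • d) : ∃ a, ∀ p ∈ C, fp p = a * fm p := by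
  refine Dev.exists_const (h.dp.mono fun p hp t _ ht => ?_) (h.dm.mono fun p hp t _ ht => ?_)
    hC.isPreconnected
  · obtain ⟨τ, hτ⟩ := Q.mem_carrier.1 ht
    exact hm p hp τ t hτ
  · obtain ⟨τ, hτ⟩ := Q.mem_carrier.1 ht
    exact hm p hp τ (-t) (by rw [hτ, neg_smul, smul_neg])

theorem convex_side (κ : ℝ) (a b x : E) : Convex ℝ {p | 0 < κ * det3 a b (p - x)} := by
  have h := convex_halfSpace_gt (f := fun p => κ * det3 a b p)
    ⟨fun p q => by rw [det3_add, mul_add], fun c p => by rw [det3_smul, smul_eq_mul]; ring⟩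
    (κ * det3 a b x)
  simpa only [det3_sub, mul_sub, sub_pos] using h

theorem tube (hT : S_TUBE) {x : E} {O : Set ℝ} (hO : IsOpen O)
    (h : ∀ τ r : ℝ, Q.γ τ = x + r • d → ∃ k : ℤ, τ + k * Q.n ∈ O) :
    ∀ᶠ p in 𝓝 x, ∀ τ r : ℝ, Q.γ τ = p + r • d → ∃ υ ∈ O, Q.γ υ = p + r • d :=
  (hT Q d x O hO h).mono fun p hp τ r hτ => by
    obtain ⟨k, hk⟩ := hp τ r hτ
    exact ⟨_, hk, by rw [Q.γ_per, hτ]⟩

theorem sub_eq (j : ℤ) {σ υ r : ℝ} {p : E} (hσ : σ ∈ Icc (j : ℝ) (j + 1))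
    (hυ : υ ∈ Icc (j : ℝ) (j + 1)) (h : Q.γ υ = p + r • d) :
    p - Q.γ σ = (υ - σ) • Q.e j - r • d := by
  rw [← Q.γ_sub j hυ.1 hυ.2 hσ.1 hσ.2, h]
  abel

theorem det3_comb (d e e' : E) (s r : ℝ) : det3 d e (s • e' - r • d) = s * det3 d e e' := by
  rw [det3_sub, det3_smul, det3_smul, det3_self_left, mul_zero, sub_zero]

theorem det3_shift (j : ℤ) {σ υ : ℝ} (hσ : σ ∈ Icc (j : ℝ) (j + 1))
    (hυ : υ ∈ Icc (j : ℝ) (j + 1)) (p : E) :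
    det3 d (Q.e j) (p - Q.γ υ) = det3 d (Q.e j) (p - Q.γ σ) := by
  rw [← sub_add_sub_cancel p (Q.γ σ), Q.γ_sub j hσ.1 hσ.2 hυ.1 hυ.2, det3_add, det3_smul,
    det3_self_right, mul_zero, add_zero]

theorem inner_comb (d e : E) (s r : ℝ) :
    ⟪cr e (cr d e), s • e - r • d⟫ = -(r * ⟪cr d e, cr d e⟫) := by
  simp only [inner3, cr, pt_0, pt_1, pt_2, PiLp.sub_apply, PiLp.smul_apply, smul_eq_mul]
  ring

theorem no {κ x : ℝ} (h : 0 < κ * x) (h0 : x = 0) : False := by simp [h0] at h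

theorem mer_of {i : ℤ} {τ κ : ℝ} (hτ : τ ∈ Ioo (i : ℝ) (i + 1)) (hκ : κ ≠ 0)
    (hc : cr d (Q.e i) ≠ 0) {a b : G}
    (hr : ∀ τ' r : ℝ, Q.γ τ' = Q.γ τ + r • d → ∃ υ ∈ Icc (i : ℝ) (i + 1), Q.γ υ = Q.γ τ + r • d)
    (ha : ∀ᶠ p in 𝓝 (Q.γ τ), 0 < κ * det3 d (Q.e i) (p - Q.γ τ) → fp p = a * fm p)
    (hb : ∀ᶠ p in 𝓝 (Q.γ τ), 0 < -κ * det3 d (Q.e i) (p - Q.γ τ) → fp p = b * fm p) :
    Mer Q d fp fm τ (if 0 < κ then a * b⁻¹ else b * a⁻¹) := by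
  have hf : ⌊τ⌋ = i := Int.floor_eq_iff.2 ⟨hτ.1.le, hτ.2⟩
  refine ⟨⟨fun j hj => ?_, fun τ' r h => ?_⟩, ?_⟩
  · rw [hj, Int.floor_intCast] at hf
    exact hτ.1.ne' (hf ▸ hj)
  · obtain ⟨υ, h1, h2⟩ := hr τ' r h
    have h3 := inner_comb d (Q.e i) (υ - τ) r
    rw [← sub_eq i (Ioo_subset_Icc_self hτ) h1 h2, sub_self, inner_zero_right, zero_eq_neg,
      mul_eq_zero, inner_self_eq_zero, or_iff_left hc] at h3
    rw [h, h3, zero_smul, add_zero]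
  · simp only [Side, hf]
    split_ifs with h
    · refine ⟨a, b, ha.mono fun p h1 h2 => ?_, hb.mono fun p h1 h2 => ?_, rfl⟩
      · rw [h1 (by nlinarith), mul_inv_cancel_right]
      · rw [h1 (by nlinarith), mul_inv_cancel_right]
    · have h' : κ < 0 := (not_lt.1 h).lt_of_ne hκ
      refine ⟨b, a, hb.mono fun p h1 h2 => ?_, ha.mono fun p h1 h2 => ?_, rfl⟩
      · rw [h1 (by nlinarith), mul_inv_cancel_right]
      · rw [h1 (by nlinarith), mul_inv_cancel_right]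

theorem vertex (h : GDg Q d) (i : ℤ) : det3 d (Q.e (i - 1)) (Q.e i) ≠ 0 ∧
    ∀ τ r : ℝ, Q.γ τ = Q.γ i + r • d → ∃ k : ℤ, τ + k * Q.n ∈ Ioo ((i : ℝ) - 1) (i + 1) := by
  have h3 := Q.three_le
  have h1 := h.1 i (i - 1) (i + 1) (not_dvd_of_lt (by omega) (by simp; omega))
    (not_dvd_of_lt (by omega) (by simp; omega))
    (not_dvd_of_lt (by omega) (by rw [abs_lt]; constructor <;> omega))
  refine ⟨fun h2 => h1 ?_, fun τ r hτ => ?_⟩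
  · simp only [Poly.e, sub_add_cancel, det3_eq, PiLp.sub_apply] at h2 ⊢
    linarith
  have a1 := Int.floor_le τ
  have a2 := Int.lt_floor_add_one τ
  by_cases c1 : (Q.n : ℤ) ∣ i - ⌊τ⌋
  · obtain ⟨k, hk⟩ := c1
    have : (i : ℝ) - ⌊τ⌋ = Q.n * k := by exact_mod_cast hk
    exact ⟨k, by linarith, by linarith⟩
  by_cases c2 : (Q.n : ℤ) ∣ i - (⌊τ⌋ + 1)
  · obtain ⟨k, hk⟩ := c2
    have h4 : (i : ℝ) - (⌊τ⌋ + 1) = Q.n * k := by exact_mod_cast hk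
    refine ⟨k, lt_of_le_of_ne (by linarith) fun h5 => h1 ?_, by linarith⟩
    have h6 : Q.v (i - 1) - Q.v i = r • d := by
      rw [← Q.γ_int (i - 1), Int.cast_sub, Int.cast_one, h5, Q.γ_per, hτ, Q.γ_int,
        add_sub_cancel_left]
    rw [h6, det3_swap, det3_smul, det3_self_left, mul_zero, neg_zero]
  · refine absurd ?_ (h.1 ⌊τ⌋ (⌊τ⌋ + 1) i (not_dvd_of_lt (by omega) (by simp; omega)) c1 c2)
    have h4 := sub_eq (σ := ⌊τ⌋) ⌊τ⌋ ⟨le_rfl, by linarith⟩ ⟨a1, a2.le⟩ hτ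
    rw [Q.γ_int, Q.γ_int] at h4
    rw [h4, det3_comb]
    exact mul_eq_zero_of_right _ (det3_self_right _ _)

end W1x

open W1x

theorem s_W1 (hT : S_TUBE) (hL : S_LINE) (h5 : S_W5) : S_W1 := by
  intro G _ ω Q d fp fm h τ hτ
  obtain ⟨i, hi⟩ : ∃ i : ℤ, τ ∈ Ioo (i : ℝ) (i + 1) :=
    ⟨⌊τ⌋, (Int.floor_le τ).lt_of_ne (hτ.1 _).symm, Int.lt_floor_add_one τ⟩
  have hi' := Ioo_subset_Icc_self hi
  have hc := (h5 Q d h.gd).2.1 i
  have hcc : 0 < ⟪cr d (Q.e i), cr d (Q.e i)⟫ := real_inner_self_pos.2 hc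
  have hee : ⟪Q.e i, Q.e i⟫ ≠ 0 := inner_self_ne_zero.2 (Q.e_ne i)
  have t1 := tube hT (x := Q.γ τ) (O := Ioo (i : ℝ) (i + 1)) isOpen_Ioo fun τ' r h1 => by
    obtain ⟨k, hk⟩ := Q.injMod _ _ (hτ.2 τ' r h1)
    exact ⟨k, hk ▸ hi⟩
  have t2 : ∀ᶠ p in 𝓝 (Q.γ τ), τ + ⟪Q.e i, p - Q.γ τ⟫ / ⟪Q.e i, Q.e i⟫ ∈ Ioo (i : ℝ) (i + 1) :=
    ContinuousAt.eventually_mem (by fun_prop) (isOpen_Ioo.mem_nhds (by simpa using hi))
  obtain ⟨ρ, hρ, hB⟩ := Metric.eventually_nhds_iff_ball.1 (t1.and t2)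
  have key : ∀ p ∈ Metric.ball (Q.γ τ) ρ, ∀ τ' r : ℝ, Q.γ τ' = p + r • d →
      det3 d (Q.e i) (p - Q.γ τ) = 0 ∧
        ⟪cr (Q.e i) (cr d (Q.e i)), p - Q.γ τ⟫ = -(r * ⟪cr d (Q.e i), cr d (Q.e i)⟫) := by
    intro p hp τ' r h1
    obtain ⟨υ, h2, h3⟩ := (hB p hp).1 τ' r h1
    rw [sub_eq i hi' (Ioo_subset_Icc_self h2) h3, det3_comb, det3_self_right, mul_zero]
    exact ⟨rfl, inner_comb ..⟩
  have side : ∀ κ : ℝ, ∃ a, ∀ p ∈ Metric.ball (Q.γ τ) ρ, 0 < κ * det3 d (Q.e i) (p - Q.γ τ) →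
      fp p = a * fm p := fun κ => by
    obtain ⟨a, ha⟩ := const h ((convex_ball (Q.γ τ) ρ).inter (convex_side κ d (Q.e i) (Q.γ τ)))
      fun p hp τ' r h1 => by simpa [(key p hp.1 τ' r h1).1] using hp.2
    exact ⟨a, fun p h1 h2 => ha p ⟨h1, h2⟩⟩
  obtain ⟨a, ha⟩ := side 1
  obtain ⟨b, hb⟩ := side (-1)
  refine ⟨a * b⁻¹, ?_, hL G ω _ _ (cr d (Q.e i)) (cr (Q.e i) (cr d (Q.e i))) ρ fp fm a b hρ
    ⟨⟪cr d (Q.e i), cr d (Q.e i)⟫⁻¹ • cr d (Q.e i), ?_, ?_⟩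
    ⟨⟪cr d (Q.e i), cr d (Q.e i)⟫⁻¹ • d, ?_, ?_⟩ (fun p hp => ⟨fun h1 => ?_, fun h1 => ?_⟩)
    (h.dp.mono fun p hp t ht h1 => ?_) (h.dm.mono fun p hp t ht h1 => ?_)
    (fun p hp _ h1 => ha p hp (by rwa [one_mul]))
    fun p hp _ h1 => hb p hp (by rwa [neg_one_mul, neg_pos])⟩
  · filter_upwards [isOpen_Ioo.mem_nhds hi,
      Q.continuous_γ.continuousAt.eventually_mem (Metric.ball_mem_nhds _ hρ)] with σ h1 h2
    have h3 := Metric.isOpen_ball.eventually_mem h2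
    have h4 := mer_of h1 one_ne_zero hc (fun τ' r h4 => ((hB _ h2).1 τ' r h4).imp
      fun υ h5 => ⟨Ioo_subset_Icc_self h5.1, h5.2⟩)
      (h3.mono fun p hp h5 => ha p hp (by rwa [det3_shift i hi' (Ioo_subset_Icc_self h1)] at h5))
      (h3.mono fun p hp h5 => hb p hp (by rwa [det3_shift i hi' (Ioo_subset_Icc_self h1)] at h5))
    rwa [if_pos one_pos] at h4
  · rw [real_inner_smul_right, inv_mul_cancel₀ hcc.ne']
  · rw [real_inner_smul_right]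
    exact mul_eq_zero_of_right _ (det3_self_right _ _)
  · rw [real_inner_smul_right]
    exact mul_eq_zero_of_right _ (det3_self_left _ _)
  · have := inner_comb d (Q.e i) 0 (-⟪cr d (Q.e i), cr d (Q.e i)⟫⁻¹)
    rwa [zero_smul, neg_smul, zero_sub, neg_neg, neg_mul, neg_neg,
      inv_mul_cancel₀ hcc.ne'] at this
  · obtain ⟨τ', h2⟩ := Q.mem_carrier.1 h1
    simpa only [zero_mul, neg_zero, det3] using key p hp τ' 0 (by simpa using h2)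
  · obtain ⟨s, t, h2⟩ := exists_comb_of_det3 hc h1.1
    have h3 := inner_comb d (Q.e i) t (-s)
    rw [neg_smul, sub_neg_eq_add, add_comm, ← h2, h1.2, neg_mul, neg_neg, zero_eq_mul,
      or_iff_left hcc.ne'] at h3
    rw [h3, zero_smul, zero_add] at h2
    have h4 := (hB p hp).2
    rw [h2, real_inner_smul_right, mul_div_cancel_right₀ _ hee] at h4
    refine Q.mem_carrier.2 ⟨τ + t, ?_⟩
    rw [← sub_left_inj (a := Q.γ τ), h2, Q.γ_sub i h4.1.le h4.2.le hi'.1 hi'.2,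
      add_sub_cancel_left]
  · obtain ⟨τ', h2⟩ := Q.mem_carrier.1 h1
    obtain ⟨h3, h4⟩ := key p hp.1 τ' t h2
    rcases hp.2 with h6 | h6
    · exact h6 h3
    · nlinarith
  · obtain ⟨τ', h2⟩ := Q.mem_carrier.1 h1
    obtain ⟨-, h4⟩ := key p hp.1 τ' (-t) (by rw [h2, neg_smul, smul_neg])
    nlinarith [hp.2]

theorem s_W2 (hT : S_TUBE) (h5 : S_W5) : S_W2 := by
  intro G _ ω Q d fp fm h i
  obtain ⟨hκ, hv⟩ := vertex h.gd i
  have hc := (h5 Q d h.gd).2.1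
  obtain ⟨ρ, hρ, hB⟩ := Metric.eventually_nhds_iff_ball.1 (tube hT isOpen_Ioo hv)
  have c1 : ((i - 1 : ℤ) : ℝ) = i - 1 := by push_cast; ring
  have iL : (i : ℝ) ∈ Icc ((i - 1 : ℤ) : ℝ) ((i - 1 : ℤ) + 1) := by
    rw [c1]; constructor <;> linarith
  have iR : (i : ℝ) ∈ Icc (i : ℝ) (i + 1) := by constructor <;> linarith
  have hsw : det3 d (Q.e i) (Q.e (i - 1)) = -det3 d (Q.e (i - 1)) (Q.e i) := det3_swap ..
  generalize hk : det3 d (Q.e (i - 1)) (Q.e i) = κ at hκ hsw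
  have hκ2 : 0 < κ * κ := mul_self_pos.2 hκ
  have key : ∀ p ∈ Metric.ball (Q.γ i) ρ, ∀ τ r : ℝ, Q.γ τ = p + r • d →
      ((∃ υ ∈ Icc ((i - 1 : ℤ) : ℝ) ((i - 1 : ℤ) + 1), Q.γ υ = p + r • d) ∧
        det3 d (Q.e (i - 1)) (p - Q.γ i) = 0 ∧ 0 ≤ κ * det3 d (Q.e i) (p - Q.γ i)) ∨
      ((∃ υ ∈ Icc (i : ℝ) (i + 1), Q.γ υ = p + r • d) ∧
        det3 d (Q.e i) (p - Q.γ i) = 0 ∧ 0 ≤ κ * det3 d (Q.e (i - 1)) (p - Q.γ i)) := by
    intro p hp τ r h1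
    obtain ⟨υ, h2, h3⟩ := hB p hp τ r h1
    rcases le_total υ i with h4 | h4
    · have h6 : υ ∈ Icc ((i - 1 : ℤ) : ℝ) ((i - 1 : ℤ) + 1) := by
        rw [c1]; constructor <;> linarith [h2.1]
      refine Or.inl ⟨⟨υ, h6, h3⟩, ?_⟩
      rw [sub_eq _ iL h6 h3, det3_comb, det3_comb, det3_self_right, mul_zero, hsw]
      exact ⟨rfl, by nlinarith⟩
    · have h6 : υ ∈ Icc (i : ℝ) (i + 1) := ⟨h4, h2.2.le⟩
      refine Or.inr ⟨⟨υ, h6, h3⟩, ?_⟩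
      rw [sub_eq _ iR h6 h3, det3_comb, det3_comb, det3_self_right, mul_zero, hk]
      exact ⟨rfl, by nlinarith⟩
  have cb := convex_ball (Q.γ i) ρ
  obtain ⟨a, ha⟩ := const h ((cb.inter (convex_side κ d (Q.e i) (Q.γ i))).inter
    (convex_side κ d (Q.e (i - 1)) (Q.γ i))) fun p hp τ r h1 => by
      rcases key p hp.1.1 τ r h1 with h2 | h2
      · exact no hp.2 h2.2.1
      · exact no hp.1.2 h2.2.1
  obtain ⟨b, hb⟩ := const h (cb.inter (convex_side (-κ) d (Q.e i) (Q.γ i))) fun p hp τ r h1 => by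
    have h3 : 0 < -κ * _ := hp.2
    rcases key p hp.1 τ r h1 with h2 | h2
    · linarith [h2.2.2]
    · exact no h3 h2.2.1
  obtain ⟨b', hb'⟩ := const h (cb.inter (convex_side (-κ) d (Q.e (i - 1)) (Q.γ i)))
    fun p hp τ r h1 => by
      have h3 : 0 < -κ * _ := hp.2
      rcases key p hp.1 τ r h1 with h2 | h2
      · exact no h3 h2.2.1
      · linarith [h2.2.2]
  have hbb : b' = b := by
    have h1 : ∀ᶠ t in 𝓝 (0 : ℝ), Q.γ i + t • (Q.e (i - 1) - Q.e i) ∈ Metric.ball (Q.γ i) ρ :=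
      ContinuousAt.eventually_mem (by fun_prop) (Metric.isOpen_ball.mem_nhds (by simpa using hρ))
    obtain ⟨t, h2, h3⟩ := ((h1.filter_mono nhdsWithin_le_nhds).and
      (self_mem_nhdsWithin (s := Ioi (0 : ℝ)))).exists
    have h3' : 0 < t := h3
    refine mul_right_cancel ((hb' _ ⟨h2, ?_⟩).symm.trans (hb _ ⟨h2, ?_⟩))
    · rw [mem_ofPred_eq, add_sub_cancel_left, det3_smul, det3_sub, det3_self_right, hk]
      nlinarith
    · rw [mem_ofPred_eq, add_sub_cancel_left, det3_smul, det3_sub, det3_self_right, hsw]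
      nlinarith
  subst hbb
  refine ⟨if 0 < κ then a * b'⁻¹ else b' * a⁻¹, ?_⟩
  filter_upwards [self_mem_nhdsWithin, nhdsWithin_le_nhds (isOpen_Ioo.mem_nhds
    (show (i : ℝ) ∈ Ioo ((i : ℝ) - 1) (i + 1) by constructor <;> linarith)), nhdsWithin_le_nhds
    (Q.continuous_γ.continuousAt.eventually_mem (Metric.ball_mem_nhds _ hρ))] with σ h0 h1 h2
  have h3 := Metric.isOpen_ball.eventually_mem h2
  have op : ∀ e : E, IsOpen {p | 0 < κ * det3 d e (p - Q.γ i)} := fun e =>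
    isOpen_lt continuous_const (continuous_const.mul ((continuous_det3 d e).comp (by fun_prop)))
  rcases lt_or_gt_of_ne (show σ ≠ i from h0) with h4 | h4
  · have h6 : σ ∈ Ioo ((i - 1 : ℤ) : ℝ) ((i - 1 : ℤ) + 1) := by
      rw [c1]; constructor <;> linarith [h1.1]
    have h7 := Ioo_subset_Icc_self h6
    have h8 : 0 < κ * det3 d (Q.e i) (Q.γ σ - Q.γ i) := by
      rw [Q.γ_sub _ h7.1 h7.2 iL.1 iL.2, det3_smul, hsw]
      nlinarith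
    refine mer_of h6 hκ (hc _) (fun τ r h9 => ?_) ?_
      (h3.mono fun p hp h9 => hb' p ⟨hp, by rwa [det3_shift _ iL h7] at h9⟩)
    · rcases key _ h2 τ r h9 with h10 | h10
      · exact h10.1
      · exact (no h8 h10.2.1).elim
    · filter_upwards [h3, (op _).mem_nhds h8] with p a1 a2 a3
      exact ha p ⟨⟨a1, a2⟩, by rwa [det3_shift _ iL h7] at a3⟩
  · have h6 : σ ∈ Ioo (i : ℝ) (i + 1) := ⟨h4, h1.2⟩
    have h7 := Ioo_subset_Icc_self h6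
    have h8 : 0 < κ * det3 d (Q.e (i - 1)) (Q.γ σ - Q.γ i) := by
      rw [Q.γ_sub _ h7.1 h7.2 iR.1 iR.2, det3_smul, hk]
      nlinarith
    refine mer_of h6 hκ (hc _) (fun τ r h9 => ?_) ?_
      (h3.mono fun p hp h9 => hb p ⟨hp, by rwa [det3_shift _ iR h7] at h9⟩)
    · rcases key _ h2 τ r h9 with h10 | h10
      · exact (no h8 h10.2.1).elim
      · exact h10.1
    · filter_upwards [h3, (op _).mem_nhds h8] with p a1 a2 a3
      exact ha p ⟨⟨a1, by rwa [det3_shift _ iR h7] at a3⟩, a2⟩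

end Pool.Agent.P.MP_28369d_gt.SB
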