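import Pool.Agent.P.MP_28369d_gt.SB.Tools

/-!
The Wirtinger relation at a crossing.
-/

namespace Pool.Agent.P.MP_28369d_gt.SB

open Set Filter Topology
open scoped RealInnerProductSpace

namespace W3x

theorem same {d e : E} (hc : cr d e ≠ 0) {t ρ : ℝ} (h : t • e = ρ • d) : t = 0 := by
  by_contra ht
  have h0 : t * e 0 = ρ * d 0 := congrArg (fun v : E => v 0) h
  have h1 : t * e 1 = ρ * d 1 := congrArg (fun v : E => v 1) h
  have h2 : t * e 2 = ρ * d 2 := congrArg (fun v : E => v 2) h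
  refine hc (E_ext ?_ ?_ ?_)
  · refine mul_left_cancel₀ ht ?_
    simp only [cr, pt_0, PiLp.zero_apply]
    linear_combination d 1 * h2 - d 2 * h1
  · refine mul_left_cancel₀ ht ?_
    simp only [cr, pt_1, PiLp.zero_apply]
    linear_combination d 2 * h0 - d 0 * h2
  · refine mul_left_cancel₀ ht ?_
    simp only [cr, pt_2, PiLp.zero_apply]
    linear_combination d 0 * h1 - d 1 * h0

theorem same' {d e : E} (hd : d ≠ 0) (hc : cr d e ≠ 0) {t ρ : ℝ} (h : t • e = ρ • d) : ρ = 0 := by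
  rw [same hc h, zero_smul] at h
  exact (smul_eq_zero.1 h.symm).resolve_right hd

/-- The line through a vertex does not meet the line of an edge again. -/
theorem vert {Q : Poly} {d : E} (hg : GDg Q d) (hd : d ≠ 0) (hc : ∀ i, cr d (Q.e i) ≠ 0)
    {k j : ℤ} {t ρ : ℝ} (h : Q.v k + ρ • d = Q.v j + t • Q.e j) : ρ = 0 := by
  by_cases h1 : (Q.n : ℤ) ∣ j - k
  · rw [per_of_dvd Q.per h1, add_right_inj] at h
    exact same' hd (hc j) h.symm
  by_cases h2 : (Q.n : ℤ) ∣ j + 1 - k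
  · rw [← per_of_dvd Q.per h2] at h
    refine same' hd (hc j) (t := t - 1) ?_
    have : Q.v (j + 1) = Q.v j + Q.e j := by simp [Poly.e]
    rw [this] at h
    linear_combination (norm := module) -h
  have h3 : ¬ (Q.n : ℤ) ∣ j + 1 - j :=
    not_dvd_of_lt (by omega) (by have := Q.three_le; simp; omega)
  have h4 := hg.1 k j (j + 1) h1 h2 h3
  have h5 : (1 - t) • (Q.v j - Q.v k) + t • (Q.v (j + 1) - Q.v k) = ρ • d := by
    simp only [Poly.e] at h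
    linear_combination (norm := module) -h
  have h6 := congrArg (det3 d (Q.v j - Q.v k)) h5
  rw [det3_add, det3_smul, det3_smul, det3_smul, det3_self_right, det3_self_left] at h6
  have h7 : t = 0 := (mul_eq_zero.1 (by linarith)).resolve_right h4
  rw [h7, sub_zero, one_smul, zero_smul, add_zero] at h5
  rw [det3_swap, h5, det3_smul, det3_self_left] at h4
  simp at h4

theorem kappa {Q : Poly} {d : E} (hg : GDg Q d) (hd : d ≠ 0) (hc : ∀ i, cr d (Q.e i) ≠ 0)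
    {i j : ℤ} {s t r : ℝ} (hr : r ≠ 0) (h : Q.v j + t • Q.e j = Q.v i + s • Q.e i + r • d) :
    det3 d (Q.e i) (Q.e j) ≠ 0 := by
  intro h0
  obtain ⟨α, β, he⟩ := exists_comb_of_det3 (hc i) h0
  have hv : Q.v (j + 1) = Q.v j + Q.e j := by simp [Poly.e]
  have h1 : t * α - r = 0 := vert hg hd hc (k := j) (j := i) (t := s - t * β) (by
    rw [he] at h; linear_combination (norm := module) h)
  have h2 : t * α - r - α = 0 := vert hg hd hc (k := j + 1) (j := i) (t := s - t * β + β) (by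
    rw [hv]; rw [he] at h ⊢; linear_combination (norm := module) h)
  have h3 : α = 0 := by linarith
  rw [h3] at h1
  exact hr (by linarith)

theorem far {d p c x : E} {a ρ : ℝ} (ha : 0 ≤ a) (hρ : 0 ≤ ρ) (hc : c = x + a • d)
    (h1 : ‖p - c‖ < a * ‖d‖ / 2) (h2 : ‖p + ρ • d - x‖ < a * ‖d‖ / 2) : False := by
  have h3 : (a + ρ) • d = (p + ρ • d - x) - (p - c) := by rw [hc]; module
  have h4 := norm_sub_le (p + ρ • d - x) (p - c)
  rw [← h3, norm_smul, Real.norm_of_nonneg (by linarith)] at h4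
  nlinarith [norm_nonneg d]

theorem det_shift (d e p x : E) (ρ a : ℝ) :
    det3 d e (p + ρ • d - (x + a • e)) = det3 d e (p - x) := by
  have : p + ρ • d - (x + a • e) = (p - x) + ρ • d - a • e := by abel
  rw [this, det3_sub, det3_add, det3_smul, det3_smul, det3_self_left, det3_self_right]
  ring

theorem convex_side (d e x : E) (ε : ℝ) : Convex ℝ {p | 0 < ε * det3 d e (p - x)} := by
  intro p hp q hq a b ha hb hab
  have h1 : a • p + b • q - x = a • (p - x) + b • (q - x) := by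
    linear_combination (norm := module) hab • x
  simp only [mem_ofPred_eq] at hp hq ⊢
  rw [h1, det3_add, det3_smul, det3_smul]
  rcases ha.eq_or_lt with h | h
  · subst h
    rw [zero_add] at hab
    simpa [hab] using hq
  · nlinarith [mul_pos h hp, mul_nonneg hb hq.le]

variable {G : Type} [Group G] {ω : E → E → G} {Q : Poly} {d : E} {fp fm : E → G}

/-- The ratio is constant along a line missing the knot. -/
theorem line (h : WC ω Q d fp fm) {p : E} (hp : ∀ ρ : ℝ, p + ρ • d ∉ Q.carrier) (ρ : ℝ) :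
    fp p * (fm p)⁻¹ = fp (p + ρ • d) * (fm (p + ρ • d))⁻¹ := by
  have hS : IsPreconnected (range fun t : ℝ => p + t • d) :=
    isPreconnected_range (by fun_prop)
  refine (h.dp.mono ?_).ratio (h.dm.mono ?_) hS ⟨0, by simp⟩ ⟨ρ, rfl⟩
  · rintro _ ⟨t, rfl⟩ u _
    rw [add_assoc, ← add_smul]
    exact hp _
  · rintro _ ⟨t, rfl⟩ u _
    rw [add_assoc, smul_neg, ← neg_smul, ← add_smul]
    exact hp _

/-- The local picture at a crossing. -/
theorem key (hE : S_EXT) (h : WC ω Q d fp fm) (hd : d ≠ 0) {x0 x1 e0 e1 : E} {r : ℝ} (hr : 0 < r)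
    (hx : x1 = x0 + r • d)
    (hT : ∀ᶠ p in 𝓝 (x0 + (r / 2) • d), ∀ ρ : ℝ, p + ρ • d ∈ Q.carrier →
      (∃ a : ℝ, p + ρ • d = x0 + a • e0 ∧ ‖p + ρ • d - x0‖ < r / 2 * ‖d‖ / 2) ∨
      (∃ a : ℝ, p + ρ • d = x1 + a • e1 ∧ ‖p + ρ • d - x1‖ < r / 2 * ‖d‖ / 2)) :
    ∃ (B : Set E) (A C : ℝ → G), IsOpen B ∧ x0 + (r / 2) • d ∈ B ∧
      ∀ (q : E) (ρ ε1 ε0 : ℝ), q + ρ • d ∈ B → 0 < ε1 * det3 d e1 (q - x1) →
        0 < ε0 * det3 d e0 (q - x0) → fp q * (fm q)⁻¹ = A ε1 * C ε0 := by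
  have hn : 0 < ‖d‖ := norm_pos_iff.2 hd
  set c := x0 + (r / 2) • d with hc
  have hb : ∀ᶠ p in 𝓝 c, ‖p - c‖ < r / 2 * ‖d‖ / 2 := by
    have := Metric.ball_mem_nhds c (show 0 < r / 2 * ‖d‖ / 2 by positivity)
    filter_upwards [this] with p hp using by rwa [Metric.mem_ball, dist_eq_norm] at hp
  obtain ⟨δ, hδ, hB⟩ := Metric.eventually_nhds_iff_ball.1 (hT.and hb)
  have hc1 : c = x1 + (r / 2) • (-d) := by rw [hc, hx]; module
  have z0 : ∀ (p : E) (ρ a : ℝ), p + ρ • d = x0 + a • e0 → det3 d e0 (p - x0) = 0 := by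
    intro p ρ a he
    rw [← det_shift d e0 p x0 ρ a, he, sub_self, det3_eq]; simp
  have z1 : ∀ (p : E) (ρ a : ℝ), p + ρ • d = x1 + a • e1 → det3 d e1 (p - x1) = 0 := by
    intro p ρ a he
    rw [← det_shift d e1 p x1 ρ a, he, sub_self, det3_eq]; simp
  have f0 : ∀ p ∈ Metric.ball c δ, ∀ ρ : ℝ, 0 ≤ ρ → ¬ ‖p + ρ • d - x0‖ < r / 2 * ‖d‖ / 2 :=
    fun p hp ρ hρ h2 => far (by linarith) hρ hc (hB p hp).2 h2
  have f1 : ∀ p ∈ Metric.ball c δ, ∀ ρ : ℝ, ρ ≤ 0 → ¬ ‖p + ρ • d - x1‖ < r / 2 * ‖d‖ / 2 :=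
    fun p hp ρ hρ h2 => far (d := -d) (ρ := -ρ) (by linarith) (by linarith) hc1
      (by rw [norm_neg]; exact (hB p hp).2) (by rw [norm_neg, neg_smul_neg]; exact h2)
  have hK : Metric.ball c δ ⊆ Q.carrierᶜ := by
    intro p hp hm
    rcases (hB p hp).1 0 (by simpa using hm) with ⟨a, -, h2⟩ | ⟨a, -, h2⟩
    · exact f0 p hp 0 le_rfl h2
    · exact f1 p hp 0 le_rfl h2
  obtain ⟨f, hf⟩ := hE G ω _ _ h.ls Metric.isOpen_ball (convex_ball c δ) hK
  have hA : ∀ ε : ℝ, ∃ a : G, ∀ p ∈ Metric.ball c δ ∩ {p | 0 < ε * det3 d e1 (p - x1)},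
      fp p = a * f p := by
    intro ε
    refine (h.dp.mono ?_).exists_const (hf.mono inter_subset_left)
      ((convex_ball c δ).inter (convex_side d e1 x1 ε)).isPreconnected
    rintro p ⟨hp, hs⟩ t ht hm
    rcases (hB p hp).1 t hm with ⟨a, -, h2⟩ | ⟨a, h1, -⟩
    · exact f0 p hp t ht h2
    · simp [z1 p t a h1] at hs
  have hC : ∀ ε : ℝ, ∃ a : G, ∀ p ∈ Metric.ball c δ ∩ {p | 0 < ε * det3 d e0 (p - x0)},
      f p = a * fm p := by
    intro ε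
    refine (hf.mono inter_subset_left).exists_const (h.dm.mono ?_)
      ((convex_ball c δ).inter (convex_side d e0 x0 ε)).isPreconnected
    rintro p ⟨hp, hs⟩ t ht hm
    rw [smul_neg, ← neg_smul] at hm
    rcases (hB p hp).1 (-t) hm with ⟨a, h1, -⟩ | ⟨a, -, h2⟩
    · simp [z0 p (-t) a h1] at hs
    · exact f1 p hp (-t) (by linarith) h2
  choose A hA using hA
  choose C hC using hC
  refine ⟨Metric.ball c δ, A, C, Metric.isOpen_ball, Metric.mem_ball_self hδ,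
    fun q ρ ε1 ε0 hq h1 h0 => ?_⟩
  have s1 : det3 d e1 (q + ρ • d - x1) = det3 d e1 (q - x1) := by
    simpa using det_shift d e1 q x1 ρ 0
  have s0 : det3 d e0 (q + ρ • d - x0) = det3 d e0 (q - x0) := by
    simpa using det_shift d e0 q x0 ρ 0
  rw [line h (fun t hm => ?_) ρ, hA ε1 _ ⟨hq, by rw [mem_ofPred_eq, s1]; exact h1⟩,
    hC ε0 _ ⟨hq, by rw [mem_ofPred_eq, s0]; exact h0⟩]
  · group
  · have h3 : q + t • d = q + ρ • d + (t - ρ) • d := by module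
    rcases (hB _ hq).1 (t - ρ) (h3 ▸ hm) with ⟨a, h4, -⟩ | ⟨a, h4, -⟩
    · rw [← h3] at h4
      simp [z0 q t a h4] at h0
    · rw [← h3] at h4
      simp [z1 q t a h4] at h1

theorem mem_Ioo_floor {τ : ℝ} (h : ∀ i : ℤ, τ ≠ i) : τ ∈ Ioo (⌊τ⌋ : ℝ) (⌊τ⌋ + 1) :=
  ⟨(Int.floor_le τ).lt_of_ne (h _).symm, Int.lt_floor_add_one τ⟩

theorem floor_of_mem {τ : ℝ} {i : ℤ} (h : τ ∈ Ioo (i : ℝ) (i + 1)) : ⌊τ⌋ = i :=
  Int.floor_eq_iff.2 ⟨h.1.le, h.2⟩

theorem ne_int {τ : ℝ} {i : ℤ} (h : τ ∈ Ioo (i : ℝ) (i + 1)) (k : ℤ) : τ ≠ k := by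
  rintro rfl
  have h1 : i < k := by exact_mod_cast h.1
  have h2 : k < i + 1 := by exact_mod_cast h.2
  omega

theorem γ_edge {τ σ : ℝ} {i : ℤ} (h : τ ∈ Ioo (i : ℝ) (i + 1)) (h' : σ ∈ Ioo (i : ℝ) (i + 1)) :
    Q.γ τ = Q.γ σ + (τ - σ) • Q.e i := by
  rw [← Q.γ_sub i h.1.le h.2.le h'.1.le h'.2.le]; abel

/-- The meridian element near one of the two strands. -/
theorem mer (hd : d ≠ 0) {τ σ : ℝ} {i : ℤ} (hc : cr d (Q.e i) ≠ 0) (h : τ ∈ Ioo (i : ℝ) (i + 1))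
    (h' : σ ∈ Ioo (i : ℝ) (i + 1)) {x e : E} {ε : ℝ} (hε : 0 < ε * det3 d e (Q.γ τ - x))
    (hl : ∀ ρ : ℝ, Q.γ τ + ρ • d ∈ Q.carrier → (∃ a : ℝ, Q.γ τ + ρ • d = x + a • e) ∨
      ∃ a : ℝ, Q.γ τ + ρ • d = Q.γ σ + a • Q.e i) {W : Set E} (hW : IsOpen W) (hτ : Q.γ τ ∈ W)
    {F : ℝ → G} (hF : ∀ p ∈ W, ∀ η : ℝ, 0 < ε * det3 d e (p - x) →
      0 < η * det3 d (Q.e i) (p - Q.γ σ) → fp p * (fm p)⁻¹ = F η) :
    Mer Q d fp fm τ (F 1 * (F (-1))⁻¹) := by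
  have hs : ∀ η : ℝ, Side Q d (fun p => fp p * (fm p)⁻¹) τ η (F η) := by
    intro η
    have h1 : ∀ᶠ p in 𝓝 (Q.γ τ), 0 < ε * det3 d e (p - x) := by
      have := continuous_det3 d e
      exact (isOpen_lt continuous_const (by fun_prop)).mem_nhds hε
    filter_upwards [hW.mem_nhds hτ, h1] with p hp h2 h3
    refine hF p hp η h2 ?_
    rw [floor_of_mem h, γ_edge h h'] at h3
    have h4 := det_shift d (Q.e i) p (Q.γ σ) 0 (τ - σ)
    rw [zero_smul, add_zero] at h4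
    rwa [h4] at h3
  refine ⟨⟨ne_int h, fun τ' ρ he => ?_⟩, _, _, hs 1, hs (-1), rfl⟩
  rcases hl ρ (he ▸ Q.γ_mem τ') with ⟨a, h1⟩ | ⟨a, h1⟩
  · rw [← det_shift d e _ x ρ a, h1, sub_self, det3_eq] at hε
    simp at hε
  · have h2 : ρ = 0 := same' hd hc (t := a - (τ - σ)) (by
      rw [γ_edge h h'] at h1
      linear_combination (norm := module) -h1)
    rw [he, h2, zero_smul, add_zero]

end W3x

open W3x in
theorem s_W3 (hT : S_TUBE) (hE : S_EXT) (h5 : S_W5) : S_W3 := by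
  intro G _ ω Q d fp fm h τ0 τ1 r hr hx
  obtain ⟨hd, hc, -, -⟩ := h5 Q d h.gd
  have e0 := Q.γ_eq ⌊τ0⌋ (Int.floor_le τ0) (Int.lt_floor_add_one τ0).le
  have e1 := Q.γ_eq ⌊τ1⌋ (Int.floor_le τ1) (Int.lt_floor_add_one τ1).le
  have n0 : ∀ k : ℤ, τ0 ≠ k := by
    rintro k rfl
    rw [Q.γ_int, e1] at hx
    exact hr.ne' (vert h.gd hd hc hx.symm)
  have n1 : ∀ k : ℤ, τ1 ≠ k := by
    rintro k rfl
    rw [Q.γ_int, e0] at hx
    have := vert h.gd hd hc (k := k) (ρ := -r) (j := ⌊τ0⌋) (t := τ0 - ⌊τ0⌋)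
      (by rw [hx]; module)
    linarith
  have hκ := kappa h.gd hd hc hr.ne' (e1.symm.trans (hx.trans (by rw [e0])))
  have m0 := mem_Ioo_floor n0
  have m1 := mem_Ioo_floor n1
  set i := ⌊τ0⌋
  set j := ⌊τ1⌋
  have hne : Q.γ τ0 ≠ Q.γ τ1 := fun he => by
    rw [← he, left_eq_add] at hx
    exact (smul_ne_zero hr.ne' hd) hx
  have hn : 0 < ‖d‖ := norm_pos_iff.2 hd
  have hε : 0 < r / 2 * ‖d‖ / 2 := by positivity
  have hγ := Q.continuous_γ
  have tube : ∀ u : ℝ, ∀ᶠ p in 𝓝 (Q.γ τ0 + u • d), ∀ ρ : ℝ, p + ρ • d ∈ Q.carrier →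
      (∃ a : ℝ, p + ρ • d = Q.γ τ0 + a • Q.e i ∧ ‖p + ρ • d - Q.γ τ0‖ < r / 2 * ‖d‖ / 2) ∨
      (∃ a : ℝ, p + ρ • d = Q.γ τ1 + a • Q.e j ∧ ‖p + ρ • d - Q.γ τ1‖ < r / 2 * ‖d‖ / 2) := by
    intro u
    have := hT Q d (Q.γ τ0 + u • d)
      ((Ioo (i : ℝ) (i + 1) ∩ {τ | ‖Q.γ τ - Q.γ τ0‖ < r / 2 * ‖d‖ / 2}) ∪
        (Ioo (j : ℝ) (j + 1) ∩ {τ | ‖Q.γ τ - Q.γ τ1‖ < r / 2 * ‖d‖ / 2}))
      ((isOpen_Ioo.inter (isOpen_lt (by fun_prop) continuous_const)).union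
        (isOpen_Ioo.inter (isOpen_lt (by fun_prop) continuous_const))) (by
        intro τ ρ he
        rw [add_assoc, ← add_smul] at he
        rcases h.gd.2 τ0 τ1 τ _ _ hx he with h1 | h1 | h1
        · exact (hne h1).elim
        · obtain ⟨k, hk⟩ := Q.injMod _ _ h1.symm
          exact ⟨k, hk ▸ Or.inl ⟨m0, by simpa using hε⟩⟩
        · obtain ⟨k, hk⟩ := Q.injMod _ _ h1.symm
          exact ⟨k, hk ▸ Or.inr ⟨m1, by simpa using hε⟩⟩)
    filter_upwards [this] with p hp ρ hm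
    obtain ⟨τ, hτ⟩ := Q.mem_carrier.1 hm
    obtain ⟨k, h1 | h1⟩ := hp τ ρ hτ
    · rw [← hτ, ← Q.γ_per τ k]
      exact Or.inl ⟨_, γ_edge h1.1 m0, h1.2⟩
    · rw [← hτ, ← Q.γ_per τ k]
      exact Or.inr ⟨_, γ_edge h1.1 m1, h1.2⟩
  obtain ⟨B, A, C, hB, hcB, hK⟩ := key hE h hd hr hx (tube (r / 2))
  have M0 : ∀ᶠ τ in 𝓝 τ0, ∀ s : ℝ, 0 < s * ((τ0 - τ) * det3 d (Q.e i) (Q.e j)) →
      Mer Q d fp fm τ (A s * C 1 * (A s * C (-1))⁻¹) := by
    have t0 := tube 0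
    rw [zero_smul, add_zero] at t0
    have hW : IsOpen {p : E | p + (r / 2) • d ∈ B} := hB.preimage (by fun_prop)
    filter_upwards [isOpen_Ioo.mem_nhds m0, hγ.continuousAt.eventually t0,
      hγ.continuousAt.eventually (hW.mem_nhds hcB)] with τ a1 a2 a3 s hs
    refine mer (F := fun η => A s * C η) hd (hc i) a1 m0 (x := Q.γ τ1) (e := Q.e j) (ε := s)
      ?_ (fun ρ hm => ?_) hW a3 fun p hp η b1 b2 => hK p _ s η hp b1 b2
    · have : Q.γ τ - Q.γ τ1 = (τ - τ0) • Q.e i - r • d := by rw [hx, γ_edge a1 m0]; abel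
      rw [this, det3_sub, det3_smul, det3_smul, det3_self_left, det3_swap]
      linarith
    · rcases a2 ρ hm with ⟨a, b, -⟩ | ⟨a, b, -⟩
      · exact Or.inr ⟨a, b⟩
      · exact Or.inl ⟨a, b⟩
  have M1 : ∀ᶠ τ in 𝓝[≠] τ1, Mer Q d fp fm τ (A 1 * (A (-1))⁻¹) := by
    have t1 := tube r
    rw [← hx] at t1
    have hW : IsOpen {p : E | p + (-(r / 2)) • d ∈ B} := hB.preimage (by fun_prop)
    have hm : Q.γ τ1 ∈ {p : E | p + (-(r / 2)) • d ∈ B} := by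
      have : Q.γ τ1 + (-(r / 2)) • d = Q.γ τ0 + (r / 2) • d := by rw [hx]; module
      rw [mem_ofPred_eq, this]; exact hcB
    filter_upwards [mem_nhdsWithin_of_mem_nhds (isOpen_Ioo.mem_nhds m1),
      mem_nhdsWithin_of_mem_nhds (hγ.continuousAt.eventually t1),
      mem_nhdsWithin_of_mem_nhds (hγ.continuousAt.eventually (hW.mem_nhds hm)),
      self_mem_nhdsWithin] with τ a1 a2 a3 a4
    have hs : det3 d (Q.e i) (Q.γ τ - Q.γ τ0) ≠ 0 := by
      have : Q.γ τ - Q.γ τ0 = (τ - τ1) • Q.e j + r • d := by rw [γ_edge a1 m1, hx]; abel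
      rw [this, det3_add, det3_smul, det3_smul, det3_self_left, mul_zero, add_zero]
      exact mul_ne_zero (sub_ne_zero.2 a4) hκ
    have := mer (F := fun η => A η * C (det3 d (Q.e i) (Q.γ τ - Q.γ τ0))) hd (hc j) a1 m1
      (x := Q.γ τ0) (e := Q.e i) (mul_self_pos.2 hs) (fun ρ hm => ?_) hW a3
      fun p hp η b1 b2 => hK p _ η _ hp b2 b1
    · simpa only [mul_inv_rev, mul_assoc, mul_inv_cancel_left] using this
    · rcases a2 ρ hm with ⟨a, b, -⟩ | ⟨a, b, -⟩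
      · exact Or.inl ⟨a, b⟩
      · exact Or.inr ⟨a, b⟩
  refine ⟨n0, n1, A 1 * (A (-1))⁻¹, ?_⟩
  rcases lt_or_gt_of_ne hκ with hk | hk
  · refine ⟨A (-1) * C 1 * (A (-1) * C (-1))⁻¹, A 1 * C 1 * (A 1 * C (-1))⁻¹, M1, ?_, ?_,
      Or.inl (by group)⟩
    · filter_upwards [mem_nhdsWithin_of_mem_nhds M0, self_mem_nhdsWithin] with τ a b
      exact a _ (by nlinarith [mul_pos_of_neg_of_neg (sub_neg.2 (show τ < τ0 from b)) hk])
    · filter_upwards [mem_nhdsWithin_of_mem_nhds M0, self_mem_nhdsWithin] with τ a b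
      exact a _ (by nlinarith [mul_pos_of_neg_of_neg (sub_neg.2 (show τ0 < τ from b)) hk])
  · refine ⟨A 1 * C 1 * (A 1 * C (-1))⁻¹, A (-1) * C 1 * (A (-1) * C (-1))⁻¹, M1, ?_, ?_,
      Or.inr (by group)⟩
    · filter_upwards [mem_nhdsWithin_of_mem_nhds M0, self_mem_nhdsWithin] with τ a b
      exact a _ (by nlinarith [mul_pos (sub_pos.2 (show τ < τ0 from b)) hk])
    · filter_upwards [mem_nhdsWithin_of_mem_nhds M0, self_mem_nhdsWithin] with τ a b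
      exact a _ (by nlinarith [mul_pos (sub_pos.2 (show τ0 < τ from b)) hk])

end Pool.Agent.P.MP_28369d_gt.SB
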