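import Pool.Agent.P.MP_28369d_gt.SB.Tools

/-!
Crossings of a regular diagram, and the reduction to the meridians.
-/

namespace Pool.Agent.P.MP_28369d_gt.SB

open Set Filter Topology
open scoped RealInnerProductSpace

namespace W4x

theorem det3_cyc (a b c : E) : det3 a b c = det3 b c a := by
  rw [det3_eq, det3_eq]; ring

theorem det_turn {Q : Poly} {d : E} (h : GDg Q d) (i : ℤ) :
    det3 d (Q.e i) (Q.v (i + 2) - Q.v i) ≠ 0 := by
  have h3 := Q.three_le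
  exact h.1 i (i + 1) (i + 2) (not_dvd_of_lt (by omega) (by rw [abs_lt]; omega))
    (not_dvd_of_lt (by omega) (by rw [abs_lt]; omega))
    (not_dvd_of_lt (by omega) (by rw [abs_lt]; omega))

theorem cr_ne {Q : Poly} {d : E} (h : GDg Q d) (i : ℤ) : cr d (Q.e i) ≠ 0 := fun e =>
  det_turn h i (by rw [det3, e, inner_zero_left])

theorem d_ne {Q : Poly} {d : E} (h : GDg Q d) : d ≠ 0 := fun e =>
  det_turn h 0 (by rw [e, det3_eq]; simp)

theorem γ_floor (Q : Poly) (τ : ℝ) : Q.γ τ = Q.v ⌊τ⌋ + (τ - ⌊τ⌋) • Q.e ⌊τ⌋ :=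
  Q.γ_eq _ (Int.floor_le τ) (Int.lt_floor_add_one τ).le

theorem det_cross {Q : Poly} {d : E} (h : GDg Q d) {i j : ℤ} {s s' r : ℝ} (hr : r ≠ 0)
    (e : Q.v j + s' • Q.e j = Q.v i + s • Q.e i + r • d) : det3 d (Q.e i) (Q.e j) ≠ 0 := by
  intro h0
  have h3 := Q.three_le
  by_cases c1 : (Q.n : ℤ) ∣ j - i
  · rw [per_of_dvd Q.per c1, per_of_dvd Q.e_per c1] at e
    have e1 := congrArg (det3 (Q.e i) (Q.v (i + 2) - Q.v i)) e
    simp only [det3_add, det3_smul, det3_self_left, mul_zero, add_zero] at e1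
    rw [← det3_cyc d] at e1
    exact mul_ne_zero hr (det_turn h i) (by linarith)
  by_cases c2 : (Q.n : ℤ) ∣ j - (i + 1)
  · rw [per_of_dvd Q.e_per c2] at h0
    refine det_turn h i ?_
    have : Q.v (i + 2) - Q.v i = Q.e (i + 1) + Q.e i := by
      simp only [Poly.e, show i + 1 + 1 = i + 2 by ring]; abel
    rw [this, det3_add, h0, det3_self_right, add_zero]
  · refine h.1 i (i + 1) j (not_dvd_of_lt (by omega) (by rw [abs_lt]; omega)) c1 c2 ?_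
    have e1 := congrArg (det3 d (Q.e i)) e
    simp only [det3_add, det3_smul, det3_self_left, det3_self_right, h0, mul_zero,
      add_zero] at e1
    show det3 d (Q.e i) _ = 0
    rw [det3_sub, e1, sub_self]

theorem floor_mem {n : ℕ} {τ : ℝ} (h0 : 0 ≤ τ) (h1 : τ < n) : ⌊τ⌋ ∈ Finset.Ico (0 : ℤ) n :=
  Finset.mem_Ico.2 ⟨Int.floor_nonneg.2 h0, Int.floor_lt.2 (by exact_mod_cast h1)⟩

theorem exists_rep (Q : Poly) (τ : ℝ) :
    ∃ k : ℤ, 0 ≤ τ + k * Q.n ∧ τ + k * Q.n < Q.n ∧ Q.γ (τ + k * Q.n) = Q.γ τ := by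
  obtain ⟨k, k1, k2⟩ := exists_shift Q.n_pos 0 τ
  exact ⟨k, k1, by simpa using k2, Q.γ_per τ k⟩

theorem dense_D {Q : Poly} {d : E} (h : GDg Q d) (x : E) :
    x ∈ closure (Vf Q.carrier d ∩ Vf Q.carrier (-d)) := by
  obtain ⟨u, hu⟩ := exists_generic (A := range fun i => cr d (Q.e i))
    (finite_range_of_per Q.pos fun i => by rw [Q.e_per]) (by
      rintro _ ⟨i, rfl⟩
      exact cr_ne h i)
  have hfin : (range fun i => -det3 d (Q.e i) (x - Q.v i) / det3 d (Q.e i) u).Finite :=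
    finite_range_of_per Q.pos fun i => by rw [Q.e_per, Q.per]
  have ht : Tendsto (fun s : ℝ => x + s • u) (𝓝[≠] 0) (𝓝 x) := by
    have : Continuous fun s : ℝ => x + s • u := by fun_prop
    exact (this.tendsto' 0 x (by simp)).mono_left nhdsWithin_le_nhds
  refine mem_closure_of_tendsto ht ?_
  filter_upwards [hfin.eventually_cofinite_notMem.filter_mono (nhdsNE_le_cofinite 0)] with s hs
  have key : ∀ t : ℝ, x + s • u + t • d ∉ Q.carrier := by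
    intro t hm
    obtain ⟨τ, hτ⟩ := Q.mem_carrier.1 hm
    rw [γ_floor] at hτ
    have e1 := congrArg (det3 d (Q.e ⌊τ⌋)) hτ
    simp only [det3_add, det3_smul, det3_self_left, det3_self_right, mul_zero, add_zero] at e1
    have e2 : det3 d (Q.e ⌊τ⌋) u ≠ 0 := hu _ ⟨_, rfl⟩
    refine hs ⟨⌊τ⌋, ?_⟩
    show -det3 d (Q.e ⌊τ⌋) (x - Q.v ⌊τ⌋) / det3 d (Q.e ⌊τ⌋) u = s
    rw [div_eq_iff e2, det3_sub]
    linarith
  exact ⟨fun t _ => key t, fun t _ => by simpa using key (-t)⟩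

theorem line_mem {K : Set E} {d p : E} (hp : p ∈ Vf K d ∩ Vf K (-d)) (t : ℝ) :
    p + t • d ∈ Vf K d ∩ Vf K (-d) := by
  have key : ∀ s : ℝ, p + s • d ∉ K := by
    intro s
    rcases le_total 0 s with hs | hs
    · exact hp.1 s hs
    · simpa using hp.2 (-s) (by linarith)
  refine ⟨fun s _ => ?_, fun s _ => ?_⟩
  · rw [add_assoc, ← add_smul]
    exact key _
  · rw [add_assoc, smul_neg, ← neg_smul, ← add_smul]
    exact key _

variable {G : Type} [Group G] {ω : E → E → G} {Q : Poly} {d : E} {fp fm : E → G}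

theorem ratio_line (W : WC ω Q d fp fm) {p : E} (hp : p ∈ Vf Q.carrier d ∩ Vf Q.carrier (-d))
    (t : ℝ) : fp (p + t • d) * (fm (p + t • d))⁻¹ = fp p * (fm p)⁻¹ := by
  have hS : (range fun s : ℝ => p + s • d) ⊆ Vf Q.carrier d ∩ Vf Q.carrier (-d) := by
    rintro _ ⟨s, rfl⟩
    exact line_mem hp s
  exact (W.dp.mono (hS.trans inter_subset_left)).ratio (W.dm.mono (hS.trans inter_subset_right))
    (isPreconnected_range (by fun_prop)) ⟨t, rfl⟩ ⟨0, by simp⟩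

theorem two_values (W : WC ω Q d fp fm) {τ : ℝ} {a b : G}
    (ha : Side Q d (fun p => fp p * (fm p)⁻¹) τ 1 a)
    (hb : Side Q d (fun p => fp p * (fm p)⁻¹) τ (-1) b) :
    ∀ᶠ p in 𝓝 (Q.γ τ), p ∈ Vf Q.carrier d ∩ Vf Q.carrier (-d) →
      fp p * (fm p)⁻¹ = a ∨ fp p * (fm p)⁻¹ = b := by
  filter_upwards [ha.eventually_nhds, hb] with p h1 h2 hp
  rcases lt_or_ge (det3 d (Q.e ⌊τ⌋) (p - Q.γ τ)) 0 with c | c
  · exact Or.inr (h2 (by linarith))
  left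
  have ht : Tendsto (fun s : ℝ => p + s • cr d (Q.e ⌊τ⌋)) (𝓝[>] 0) (𝓝 p) := by
    have : Continuous fun s : ℝ => p + s • cr d (Q.e ⌊τ⌋) := by fun_prop
    exact (this.tendsto' 0 p (by simp)).mono_left nhdsWithin_le_nhds
  obtain ⟨s, ⟨s1, s2⟩, s3⟩ :=
    ((ht.eventually (h1.and (W.dp.ev_ratio W.dm hp.1 hp.2))).and self_mem_nhdsWithin).exists
  rw [← s2]
  refine s1 ?_
  have e : det3 d (Q.e ⌊τ⌋) (p + s • cr d (Q.e ⌊τ⌋) - Q.γ τ) =
      det3 d (Q.e ⌊τ⌋) (p - Q.γ τ) + s * ⟪cr d (Q.e ⌊τ⌋), cr d (Q.e ⌊τ⌋)⟫ := by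
    rw [add_sub_right_comm, det3_add, det3_smul]
    rfl
  rw [one_mul, e]
  exact add_pos_of_nonneg_of_pos c (mul_pos s3 (real_inner_self_pos.2 (cr_ne W.gd _)))

end W4x

open W4x

theorem s_W5 : S_W5 := by
  intro Q d h
  have hex : ∀ τ : ℝ, ∃ τ' r : ℝ, τ ∈ Xs Q d →
      0 ≤ τ' ∧ τ' < Q.n ∧ r ≠ 0 ∧ Q.γ τ' = Q.γ τ + r • d := by
    intro τ
    by_cases hτ : τ ∈ Xs Q d
    · obtain ⟨-, -, τ', r, r0, e⟩ := hτ
      obtain ⟨k, k1, k2, k3⟩ := exists_rep Q τ'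
      exact ⟨_, r, fun _ => ⟨k1, k2, r0, k3.trans e⟩⟩
    · exact ⟨0, 0, fun a => absurd a hτ⟩
  choose σ r hσ using hex
  have hm : MapsTo (fun τ => (⌊τ⌋, ⌊σ τ⌋)) (Xs Q d)
      (↑(Finset.Ico (0 : ℤ) Q.n ×ˢ Finset.Ico (0 : ℤ) Q.n) : Set (ℤ × ℤ)) := fun τ hτ =>
    Finset.mem_coe.2 (Finset.mem_product.2
      ⟨floor_mem hτ.1 hτ.2.1, floor_mem (hσ τ hτ).1 (hσ τ hτ).2.1⟩)
  have hi : InjOn (fun τ => (⌊τ⌋, ⌊σ τ⌋)) (Xs Q d) := by
    intro τ1 h1 τ2 h2 e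
    obtain ⟨e1, e2⟩ := Prod.mk.inj e
    obtain ⟨-, -, a1, a2⟩ := hσ τ1 h1
    obtain ⟨-, -, -, b2⟩ := hσ τ2 h2
    rw [γ_floor Q (σ τ1), γ_floor Q τ1] at a2
    rw [γ_floor Q (σ τ2), γ_floor Q τ2, ← e1, ← e2] at b2
    have hd := det_cross h a1 a2
    have c1 := congrArg (det3 d (Q.e ⌊σ τ1⌋)) a2
    have c2 := congrArg (det3 d (Q.e ⌊σ τ1⌋)) b2
    simp only [det3_add, det3_smul, det3_self_left, det3_self_right, mul_zero, add_zero] at c1 c2
    rw [det3_swap d (Q.e ⌊σ τ1⌋) (Q.e ⌊τ1⌋)] at c1 c2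
    exact mul_right_cancel₀ hd (by linarith)
  refine ⟨d_ne h, cr_ne h, Finite.of_injOn hm hi (Finset.finite_toSet _), ?_⟩
  refine (ncard_le_ncard_of_injOn _ hm hi (Finset.finite_toSet _)).trans ?_
  rw [ncard_coe_finset, Finset.card_product]
  simp [sq]

theorem s_W4 (hC : S_CONN) (hD : S_DENSE) (hR : S_RRED) (h1 : S_W1) (h5 : S_W5) : S_W4 := by
  classical
  have _ := hC
  intro G _ ω Q d fp fm W H hH
  obtain ⟨d0, -, hX, -⟩ := h5 Q d W.gd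
  have hA : (Q.γ '' Xs Q d ∪ range Q.v).Finite :=
    (hX.image _).union (finite_range_of_per Q.pos Q.per)
  set A := Q.γ '' Xs Q d ∪ range Q.v with hAdef
  let B : Set E := ⋃ a ∈ A, {p | p - a ∈ ℝ ∙ d}
  have hBc : IsClosed B := hA.isClosed_biUnion fun a _ =>
    (Submodule.closed_of_finiteDimensional (ℝ ∙ d)).preimage (continuous_sub_right a)
  have hBl : Lines B := by
    refine ⟨hA.toFinset.image fun a => (a, d), fun p hp => ?_⟩
    obtain ⟨a, ha, hp⟩ := mem_iUnion₂.1 hp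
    obtain ⟨r, hr⟩ := Submodule.mem_span_singleton.1 hp
    exact ⟨(a, d), Finset.mem_image_of_mem _ (hA.mem_toFinset.2 ha), r, by simp [hr]⟩
  have hU : IsOpen Q.carrierᶜ := Q.isClosed.isOpen_compl
  refine hR G ω _ B H hU W.ls hBl (hD G ω _ (Vf Q.carrier d ∩ Vf Q.carrier (-d)) H fp
    (hU.sdiff hBc) (fun x _ => dense_D W.gd x) ?_)
  rintro x ⟨hxK, hxB⟩
  by_cases hx : x ∈ Vf Q.carrier d
  · exact ⟨_, fp, 1, W.op, hx, W.dp, fun p _ => by simp⟩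
  simp only [Vf, mem_ofPred_eq, not_forall, not_not] at hx
  obtain ⟨t, t0, ht⟩ := hx
  obtain ⟨τ, hτ⟩ := Q.mem_carrier.1 ht
  have hnA : Q.γ τ ∉ A := fun hm => hxB (mem_iUnion₂.2 ⟨_, hm,
    Submodule.mem_span_singleton.2 ⟨-t, by rw [hτ]; simp⟩⟩)
  have hreg : Reg Q d τ := by
    refine ⟨fun i e => hnA (Or.inr ⟨i, by rw [e, Q.γ_int]⟩), fun τ' r e => ?_⟩
    by_contra hne
    obtain ⟨k, k1, k2, k3⟩ := exists_rep Q τ
    refine hnA (Or.inl ⟨_, ⟨k1, k2, τ', r, ?_, by rw [k3, e]⟩, k3⟩)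
    rintro rfl
    exact hne (by simpa using e)
  have hxm : x ∈ Vf Q.carrier (-d) := by
    intro u u0 hu
    obtain ⟨τ', hτ'⟩ := Q.mem_carrier.1 hu
    have e := hreg.2 τ' (-(u + t)) (by rw [hτ', hτ]; module)
    rw [hτ', hτ] at e
    have e2 : (u + t) • d = 0 := by
      have := add_left_cancel e
      rw [add_smul, ← this]
      simp
    have e3 : t = 0 := by
      have := (smul_eq_zero.1 e2).resolve_right d0
      linarith
    rw [e3, zero_smul, add_zero] at ht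
    exact hxK ht
  obtain ⟨m, hm, -⟩ := h1 G ω Q d fp fm W τ hreg
  have hmH := hH τ m hm.self_of_nhds
  obtain ⟨-, a, b, ha, hb, rfl⟩ := hm.self_of_nhds
  have htd : Tendsto (fun p : E => p + t • d) (𝓝 x) (𝓝 (Q.γ τ)) := by
    rw [hτ]
    exact (continuous_add_const _).tendsto x
  obtain ⟨N, N1, N2, N3⟩ := eventually_nhds_iff.1
    ((htd.eventually (two_values W ha hb)).and (W.om.mem_nhds hxm))
  refine ⟨N, fm, b, N2, N3, W.dm.mono fun p hp => (N1 p hp).2, fun p hp => ?_⟩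
  have := (N1 p hp.1).1 (line_mem hp.2 t)
  rw [ratio_line W hp.2] at this
  rcases this with e | e
  · rwa [e]
  · rw [e, mul_inv_cancel]
    exact one_mem H

end Pool.Agent.P.MP_28369d_gt.SB
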