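import Pool.Agent.P.MP_28369d_gt.SB.Tools

/-! Assembly of the Wirtinger data. -/

namespace Pool.Agent.P.MP_28369d_gt.SB

open Set Filter Topology
open scoped RealInnerProductSpace

namespace WIRTx

variable {G : Type} {Q : Poly} {d : E}

theorem side_uniq (hc : ∀ i, cr d (Q.e i) ≠ 0) {g : E → G} {τ ε : ℝ} (hε : ε ≠ 0) {a a' : G}
    (h : Side Q d g τ ε a) (h' : Side Q d g τ ε a') : a = a' := by
  have ht : Tendsto (fun t : ℝ => Q.γ τ + (t * ε) • cr d (Q.e ⌊τ⌋)) (𝓝[>] 0) (𝓝 (Q.γ τ)) := by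
    have : Continuous fun t : ℝ => Q.γ τ + (t * ε) • cr d (Q.e ⌊τ⌋) := by fun_prop
    simpa using (this.tendsto 0).mono_left (nhdsWithin_le_nhds (s := Ioi 0))
  obtain ⟨t, h1, h2, h3⟩ :=
    ((ht.eventually h).and ((ht.eventually h').and self_mem_nhdsWithin)).exists
  have h4 : 0 < ε * det3 d (Q.e ⌊τ⌋) (Q.γ τ + (t * ε) • cr d (Q.e ⌊τ⌋) - Q.γ τ) := by
    rw [add_sub_cancel_left, det3_smul, det3, real_inner_self_eq_norm_sq]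
    have h5 : 0 < ‖cr d (Q.e ⌊τ⌋)‖ ^ 2 := pow_pos (norm_pos_iff.2 (hc _)) 2
    have h6 : 0 < ε * ε := mul_self_pos.2 hε
    have h7 : 0 < t := h3
    calc 0 < t * (ε * ε) * ‖cr d (Q.e ⌊τ⌋)‖ ^ 2 := by positivity
      _ = _ := by ring
  exact (h1 h4).symm.trans (h2 h4)

variable [Group G] {fp fm : E → G}

theorem mer_uniq (hc : ∀ i, cr d (Q.e i) ≠ 0) {τ : ℝ} {m m' : G} (h : Mer Q d fp fm τ m)
    (h' : Mer Q d fp fm τ m') : m = m' := by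
  obtain ⟨-, a, b, h1, h2, rfl⟩ := h
  obtain ⟨-, a', b', h1', h2', rfl⟩ := h'
  rw [side_uniq hc one_ne_zero h1 h1', side_uniq hc (by norm_num) h2 h2']

theorem mer_shift {τ : ℝ} {m : G} (k : ℤ) (h : Mer Q d fp fm (τ + k * Q.n) m) :
    Mer Q d fp fm τ m := by
  have hf : Q.e ⌊τ + k * Q.n⌋ = Q.e ⌊τ⌋ := by
    have : τ + (k : ℝ) * Q.n = τ + ((k * Q.n : ℤ) : ℝ) := by push_cast; ring
    rw [this, Int.floor_add_intCast, per_zmul Q.e_per]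
  obtain ⟨⟨h1, h2⟩, h3⟩ := h
  simp only [Side, Q.γ_per, hf] at h2 h3
  refine ⟨⟨fun i hi => h1 (i + k * Q.n) ?_, h2⟩, h3⟩
  rw [hi]; push_cast; ring

theorem mem_Xs {τ τ' r : ℝ} (hr : r ≠ 0) (h : Q.γ τ' = Q.γ τ + r • d) :
    ∃ k : ℤ, τ + k * Q.n ∈ Xs Q d := by
  obtain ⟨k, h1, h2⟩ := exists_shift Q.n_pos 0 τ
  exact ⟨k, h1, by simpa using h2, τ', r, hr, by rw [Q.γ_per, h]⟩

theorem tri (Q : Poly) (d : E) (τ : ℝ) : (∃ i : ℤ, τ = i) ∨ Reg Q d τ ∨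
    (∃ τ' r : ℝ, 0 < r ∧ Q.γ τ' = Q.γ τ + r • d) ∨
    ∃ τ' r : ℝ, 0 < r ∧ Q.γ τ = Q.γ τ' + r • d := by
  by_cases h1 : ∃ i : ℤ, τ = i
  · exact Or.inl h1
  by_cases h2 : ∀ τ' r : ℝ, Q.γ τ' = Q.γ τ + r • d → Q.γ τ' = Q.γ τ
  · exact Or.inr (Or.inl ⟨not_exists.1 h1, h2⟩)
  simp only [not_forall] at h2
  obtain ⟨τ', r, h3, h4⟩ := h2
  rcases lt_trichotomy r 0 with hr | hr | hr
  · exact Or.inr (Or.inr (Or.inr ⟨τ', -r, neg_pos.2 hr, by rw [h3, neg_smul]; abel⟩))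
  · exact absurd (by rw [h3, hr, zero_smul, add_zero]) h4
  · exact Or.inr (Or.inr (Or.inl ⟨τ', r, hr, h3⟩))

end WIRTx

open WIRTx in
theorem s_WIRT (hF : S_FRONT) (h1 : S_W1) (h2 : S_W2) (h3 : S_W3) (h4 : S_W4) (h5 : S_W5) :
    S_WIRT := by
  intro G _ ω Q d hgd hls
  obtain ⟨hd, hc, hfin, hcard⟩ := h5 Q d hgd
  obtain ⟨hop, fp, hfp⟩ := hF G ω Q.carrier d Q.isCompact hd hls
  obtain ⟨hom, fm, hfm⟩ := hF G ω Q.carrier (-d) Q.isCompact (neg_ne_zero.2 hd) hls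
  have W : WC ω Q d fp fm := ⟨hgd, hls, hop, hom, hfp, hfm⟩
  have hex : ∀ τ : ℝ, ∃ m, ∀ᶠ τ' in 𝓝[>] τ, Mer Q d fp fm τ' m := by
    intro τ
    rcases tri Q d τ with ⟨i, rfl⟩ | h | ⟨τ', r, hr, h⟩ | ⟨τ', r, hr, h⟩
    · obtain ⟨m, hm⟩ := h2 G ω Q d fp fm W i
      exact ⟨m, hm.filter_mono (nhdsGT_le_nhdsNE _)⟩
    · obtain ⟨m, hm, -⟩ := h1 G ω Q d fp fm W τ h
      exact ⟨m, hm.filter_mono nhdsWithin_le_nhds⟩
    · obtain ⟨-, -, o, a, a', -, -, ha, -⟩ := h3 G ω Q d fp fm W τ τ' r hr h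
      exact ⟨a', ha⟩
    · obtain ⟨-, -, o, a, a', ho, -⟩ := h3 G ω Q d fp fm W τ' τ r hr h
      exact ⟨o, ho.filter_mono (nhdsGT_le_nhdsNE _)⟩
  choose μ hμ using hex
  have hR : ∀ τ m, (∀ᶠ τ' in 𝓝[>] τ, Mer Q d fp fm τ' m) → μ τ = m := fun τ m h => by
    obtain ⟨τ', a, b⟩ := ((hμ τ).and h).exists
    exact mer_uniq hc a b
  have hM : ∀ τ m, Mer Q d fp fm τ m → μ τ = m := fun τ m h => by
    obtain ⟨m', hm, -⟩ := h1 G ω Q d fp fm W τ h.1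
    rw [hR τ m' (hm.filter_mono nhdsWithin_le_nhds), mer_uniq hc h hm.self_of_nhds]
  have hN : ∀ τ m, (∀ᶠ τ' in 𝓝[≠] τ, Mer Q d fp fm τ' m) →
      (∀ᶠ τ' in 𝓝[<] τ, μ τ' = m) ∧ μ τ = m := fun τ m h =>
    ⟨(h.filter_mono (nhdsLT_le_nhdsNE _)).mono fun τ' a => hM τ' m a,
      hR τ m (h.filter_mono (nhdsGT_le_nhdsNE _))⟩
  refine ⟨μ, Xs Q d, hfin, hcard, fun τ k => ?_, fun τ => (hμ τ).mono fun τ' a => hM τ' _ a,
    fun τ => ?_, fun τ hi hX => ?_, h4 G ω Q d fp fm W _ fun τ m h => ?_⟩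
  · refine (hR τ _ ?_).symm
    have ht : Tendsto (fun t : ℝ => t + k * Q.n) (𝓝[>] τ) (𝓝[>] (τ + k * Q.n)) := by
      refine tendsto_nhdsWithin_iff.2 ⟨?_, ?_⟩
      · exact ((continuous_add_const _).tendsto τ).mono_left nhdsWithin_le_nhds
      · filter_upwards [self_mem_nhdsWithin] with t ht
        exact add_lt_add_left (mem_Ioi.1 ht) _
    exact (ht.eventually (hμ _)).mono fun t a => mer_shift k a
  · rcases tri Q d τ with ⟨i, rfl⟩ | h | ⟨τ', r, hr, h⟩ | ⟨τ', r, hr, h⟩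
    · obtain ⟨m, hm⟩ := h2 G ω Q d fp fm W i
      exact ⟨m, (hN _ m hm).1, Or.inl (hN _ m hm).2⟩
    · obtain ⟨m, hm, -⟩ := h1 G ω Q d fp fm W τ h
      have := hN τ m (hm.filter_mono nhdsWithin_le_nhds)
      exact ⟨m, this.1, Or.inl this.2⟩
    · obtain ⟨hi, hi', o, a, a', ho, ha, ha', hconj⟩ := h3 G ω Q d fp fm W τ τ' r hr h
      have e1 := (hN τ' o ho).2
      refine ⟨a, ha.mono fun t b => hM t a b, Or.inr ⟨mem_Xs hr.ne' h, hi, τ', r, h, hi', ?_, ?_⟩⟩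
      · filter_upwards [eventually_nhdsWithin_iff.1 ho] with t ht
        by_cases e : t = τ'
        · rw [e]
        · rw [e1, hM t o (ht e)]
      · rw [e1, hR τ a' ha']
        exact hconj
    · obtain ⟨-, -, o, a, a', ho, -⟩ := h3 G ω Q d fp fm W τ' τ r hr h
      exact ⟨o, (hN τ o ho).1, Or.inl (hN τ o ho).2⟩
  · have hreg : Reg Q d τ := by
      refine ⟨hi, fun τ' r h => ?_⟩
      by_cases hr : r = 0
      · rw [h, hr, zero_smul, add_zero]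
      · obtain ⟨k, hk⟩ := mem_Xs hr h
        exact absurd hk (hX k)
    obtain ⟨m, hm, hm'⟩ := h1 G ω Q d fp fm W τ hreg
    rwa [hM τ m hm.self_of_nhds]
  · rw [← hM τ m h]
    exact Subgroup.subset_closure (mem_range_self τ)

end Pool.Agent.P.MP_28369d_gt.SB
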