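import Pool.Agent.P.MP_28369d_gt.SB.FinA
import Pool.Agent.P.MP_28369d_gt.SB.TBR3
import Pool.Agent.P.MP_28369d_gt.SB.TCONN
import Pool.Agent.P.MP_28369d_gt.SB.TCOVER
import Pool.Agent.P.MP_28369d_gt.SB.TCS
import Pool.Agent.P.MP_28369d_gt.SB.TDET
import Pool.Agent.P.MP_28369d_gt.SB.TEXT
import Pool.Agent.P.MP_28369d_gt.SB.TF0
import Pool.Agent.P.MP_28369d_gt.SB.TGD
import Pool.Agent.P.MP_28369d_gt.SB.TGRP
import Pool.Agent.P.MP_28369d_gt.SB.TLINE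
import Pool.Agent.P.MP_28369d_gt.SB.TMAXG
import Pool.Agent.P.MP_28369d_gt.SB.TSIDE
import Pool.Agent.P.MP_28369d_gt.SB.TT1
import Pool.Agent.P.MP_28369d_gt.SB.TT3
import Pool.Agent.P.MP_28369d_gt.SB.TT4
import Pool.Agent.P.MP_28369d_gt.SB.TT4P
import Pool.Agent.P.MP_28369d_gt.SB.TW1
import Pool.Agent.P.MP_28369d_gt.SB.TW3
import Pool.Agent.P.MP_28369d_gt.SB.TW4
import Pool.Agent.P.MP_28369d_gt.SB.TWIRT

/-!
The topological steps without hypotheses.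
-/

namespace Pool.Agent.P.MP_28369d_gt.SB

theorem p_FRONT : S_FRONT := s_FRONT s_EXT

theorem p_W1 : S_W1 := s_W1 s_TUBE s_LINE s_W5

theorem p_WIRT : S_WIRT :=
  s_WIRT p_FRONT p_W1 (s_W2 s_TUBE s_W5) (s_W3 s_TUBE s_EXT s_W5)
    (s_W4 s_CONN s_DENSE (s_RRED s_CONN s_DENSE) p_W1 s_W5) s_W5

theorem p_GD : S_GD := s_GD p_PERT

theorem p_CS : S_CS := s_CS (s_SIDE s_EXT p_FRONT s_LINE) (s_REM s_CONN)

theorem p_BR3 : S_BR3 := s_BR3 p_GD p_WIRT s_MAXG s_GRP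

theorem p_DETB : S_DETB := s_DETB p_GD p_WIRT s_MAXG (s_DET s_DALG) s_GRP

theorem p_REFL : S_REFL := s_REFL p_GD p_WIRT s_MAXG s_GRP

theorem p_T3 : S_T3 := s_T3 s_FAM s_SMEMB

theorem p_T4 : S_T4 := s_T4 p_T3 s_T4P (s_INSC s_LOC s_SMEMB)

theorem p_T1 : S_T1 := s_T1 s_COVER

end Pool.Agent.P.MP_28369d_gt.SB
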