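import Pool.Agent.P.MP_28369d_gt.SB.Iface2

/-!
Level polygons can be moved to a finite grid.
-/

namespace Pool.Agent.P.MP_28369d_gt.SB

open Set Filter Topology
open scoped RealInnerProductSpace

namespace GRIDx

/-- The coordinates of `v` and `w` have the same order. -/
def Oe (v w : ℤ → E) : Prop := ∀ c i j, v i c < v j c ↔ w i c < w j c

variable {v w : ℤ → E}

theorem Oe.eq (h : Oe v w) {c : Fin 3} {i j : ℤ} (e : w i c = w j c) : v i c = v j c :=
  le_antisymm (not_lt.1 fun k => ((h c j i).1 k).ne' e) (not_lt.1 fun k => ((h c i j).1 k).ne e)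

theorem meet (h : Oe v w) {i i' j j' : ℤ} (h0 : 0 ≤ (v i 0 - v j 0) * (v i' 0 - v j' 0))
    (h2 : v i 2 = v j 2) (h2' : v i' 2 = v j' 2) {μ : ℝ} (m0 : 0 < μ) (m1 : μ < 1)
    (e : ∀ c, (1 - μ) * (w i c - w j c) + μ * (w i' c - w j' c) = 0) :
    ∃ ν : ℝ, 0 < ν ∧ ν < 1 ∧ v i + ν • (v i' - v i) = v j + ν • (v j' - v j) := by
  have tri : ∀ c, (v i c < v j c ∧ v j' c < v i' c) ∨ (v i c = v j c ∧ v i' c = v j' c) ∨
      (v j c < v i c ∧ v i' c < v j' c) := fun c => by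
    have e1 := e c
    rcases lt_trichotomy (w i c) (w j c) with a | a | a
    · exact Or.inl ⟨(h c _ _).2 a, (h c _ _).2 (by nlinarith)⟩
    · refine Or.inr (Or.inl ⟨h.eq a, h.eq ?_⟩)
      rw [a, sub_self, mul_zero, zero_add] at e1
      exact sub_eq_zero.1 ((mul_eq_zero.1 e1).resolve_left m0.ne')
    · exact Or.inr (Or.inr ⟨(h c _ _).2 a, (h c _ _).2 (by nlinarith)⟩)
  have k0 : v i 0 = v j 0 ∧ v i' 0 = v j' 0 := by
    rcases tri 0 with a | a | a
    · nlinarith [a.1, a.2]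
    · exact a
    · nlinarith [a.1, a.2]
  obtain ⟨ν, n0, n1, hν⟩ : ∃ ν : ℝ, 0 < ν ∧ ν < 1 ∧
      (1 - ν) * (v i 1 - v j 1) + ν * (v i' 1 - v j' 1) = 0 := by
    rcases tri 1 with a | a | a
    · have d : 0 < v j 1 - v i 1 + (v i' 1 - v j' 1) := by linarith [a.1, a.2]
      refine ⟨(v j 1 - v i 1) / (v j 1 - v i 1 + (v i' 1 - v j' 1)), div_pos (sub_pos.2 a.1) d,
        (div_lt_one d).2 (by linarith [a.2]), ?_⟩
      field_simp
      ring
    · exact ⟨1 / 2, by norm_num, by norm_num, by rw [a.1, a.2]; ring⟩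
    · have d : 0 < v i 1 - v j 1 + (v j' 1 - v i' 1) := by linarith [a.1, a.2]
      refine ⟨(v i 1 - v j 1) / (v i 1 - v j 1 + (v j' 1 - v i' 1)), div_pos (sub_pos.2 a.1) d,
        (div_lt_one d).2 (by linarith [a.2]), ?_⟩
      field_simp
      ring
  refine ⟨ν, n0, n1, E_ext ?_ ?_ ?_⟩ <;>
    simp only [PiLp.add_apply, PiLp.smul_apply, PiLp.sub_apply, smul_eq_mul]
  · rw [k0.1, k0.2]
  · linarith
  · rw [h2, h2']

theorem simple {Q : Poly} (hL : Lvl Q) (h : Oe Q.v w) (i j : ℤ) (s t : ℝ) (hs : s ∈ Ico (0 : ℝ) 1)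
    (ht : t ∈ Ico (0 : ℝ) 1) (e : w i + s • (w (i + 1) - w i) = w j + t • (w (j + 1) - w j)) :
    (Q.n : ℤ) ∣ j - i ∧ s = t := by
  have ec : ∀ c, w i c + s * (w (i + 1) c - w i c) = w j c + t * (w (j + 1) c - w j c) := fun c => by
    simpa only [PiLp.add_apply, PiLp.smul_apply, PiLp.sub_apply, smul_eq_mul] using
      congrArg (fun p : E => p c) e
  have l1 : ∀ k, w (k + 1) 2 ≠ w k 2 := fun k a => hL.1 k (h.eq a)
  have l2 : ∀ k l, ¬ (min (w k 2) (w (k + 1) 2) < w l 2 ∧ w l 2 < max (w k 2) (w (k + 1) 2)) :=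
    fun k l a => hL.2.1 k l (by simpa only [min_lt_iff, lt_max_iff, ← h 2] using a)
  have mid : ∀ (k : ℤ) (r : ℝ), 0 < r → r < 1 →
      min (w k 2) (w (k + 1) 2) < w k 2 + r * (w (k + 1) 2 - w k 2) ∧
      w k 2 + r * (w (k + 1) 2 - w k 2) < max (w k 2) (w (k + 1) 2) := fun k r r0 r1 => by
    rcases lt_or_gt_of_ne (l1 k) with a | a
    · rw [min_eq_right a.le, max_eq_left a.le]
      constructor <;> nlinarith
    · rw [min_eq_left a.le, max_eq_right a.le]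
      constructor <;> nlinarith
  have e2 := ec 2
  by_cases hs0 : s = 0
  · subst hs0
    have ht0 : t = 0 := by
      by_contra a
      refine l2 j i ?_
      have := mid j t (ht.1.lt_of_ne' a) ht.2
      rwa [← e2, zero_mul, add_zero] at this
    subst ht0
    refine Q.simple i j 0 0 hs hs ?_
    simp only [zero_mul, add_zero] at ec
    simpa only [zero_smul, add_zero] using E_ext (h.eq (ec 0)) (h.eq (ec 1)) (h.eq (ec 2))
  have s0 := hs.1.lt_of_ne' hs0
  have m1 := mid i s s0 hs.2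
  have t0 : 0 < t := ht.1.lt_of_ne' fun a => l2 i j (by rwa [e2, a, zero_mul, add_zero] at m1)
  have m2 := mid j t t0 ht.2
  rw [← e2] at m2
  have a1 := l2 i j
  have a2 := l2 i (j + 1)
  have a3 := l2 j i
  have a4 := l2 j (i + 1)
  have b1 := l1 i
  have b2 := l1 j
  have hc : (w i 2 = w j 2 ∧ w (i + 1) 2 = w (j + 1) 2) ∨
      (w i 2 = w (j + 1) 2 ∧ w (i + 1) 2 = w j 2) := by
    generalize w i 2 + s * (w (i + 1) 2 - w i 2) = z at m1 m2
    grind
  rcases hc with hc | hc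
  · have hst : s = t := by
      rw [← hc.1, ← hc.2, add_right_inj] at e2
      exact mul_right_cancel₀ (sub_ne_zero.2 b1) e2
    subst hst
    obtain ⟨ν, n0, n1, hν⟩ := meet h (hL.2.2 i (i + 1) j (j + 1) (Or.inl rfl) (Or.inl rfl)
      (h.eq hc.1) (h.eq hc.2)) (h.eq hc.1) (h.eq hc.2) s0 hs.2 fun c => by linarith [ec c]
    exact ⟨(Q.simple i j ν ν ⟨n0.le, n1⟩ ⟨n0.le, n1⟩ hν).1, rfl⟩
  · have hst : t = 1 - s := by
      rw [← hc.1, ← hc.2] at e2
      exact mul_right_cancel₀ (sub_ne_zero.2 b1) (by linarith)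
    subst hst
    obtain ⟨ν, n0, n1, hν⟩ := meet h (hL.2.2 i (i + 1) (j + 1) j (Or.inl rfl) (Or.inr (by ring))
      (h.eq hc.1) (h.eq hc.2)) (h.eq hc.1) (h.eq hc.2) s0 hs.2 fun c => by linarith [ec c]
    have hd := (Q.simple i j ν (1 - ν) ⟨n0.le, n1⟩ ⟨by linarith, by linarith⟩
      (by rw [hν]; module)).1
    exact absurd (by rw [h.eq hc.2, per_of_dvd Q.per hd]) (hL.1 i)

/-- The rank of a coordinate. -/
noncomputable def rk (Q : Poly) (i : ℤ) : E :=
  WithLp.toLp 2 fun c => (win Q.n (fun k => Q.v k c < Q.v i c) : ℝ)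

theorem rk_lt (Q : Poly) {c : Fin 3} {i j : ℤ} (h : Q.v i c < Q.v j c) : rk Q i c < rk Q j c := by
  have hn : (0 : ℤ) < Q.n := by exact_mod_cast Q.pos
  have e : Q.v (i % Q.n) = Q.v i := per_of_dvd Q.per (Int.ModEq.dvd (Int.mod_modEq i Q.n).symm)
  refine Nat.cast_lt.2 (ncard_lt_ncard ⟨fun k hk => ⟨hk.1, hk.2.1, lt_trans hk.2.2 h⟩,
    fun hk => ?_⟩ (fin_win _ _))
  have := (hk (a := i % Q.n) ⟨Int.emod_nonneg _ hn.ne', Int.emod_lt_of_pos _ hn,
    (congrArg (fun p : E => p c) e).trans_lt h⟩).2.2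
  exact this.ne (congrArg (fun p : E => p c) e)

theorem oe (Q : Poly) {s : ℝ} (hs : s ∈ Icc (0 : ℝ) 1) :
    Oe Q.v fun i => Q.v i + s • (rk Q i - Q.v i) := by
  have key : ∀ c i j, Q.v i c < Q.v j c →
      (Q.v i + s • (rk Q i - Q.v i)) c < (Q.v j + s • (rk Q j - Q.v j)) c := fun c i j h => by
    have h1 := rk_lt Q h
    simp only [PiLp.add_apply, PiLp.smul_apply, PiLp.sub_apply, smul_eq_mul]
    rcases hs.1.eq_or_lt with a | a
    · simpa [← a] using h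
    · nlinarith [hs.2]
  refine fun c i j => ⟨key c i j, fun h => ?_⟩
  rcases lt_trichotomy (Q.v i c) (Q.v j c) with a | a | a
  · exact a
  · simp [rk, a] at h
  · exact absurd h (key c j i a).not_gt

/-- The intermediate polygons. -/
noncomputable def mv {Q : Poly} (hL : Lvl Q) {s : ℝ} (hs : s ∈ Icc (0 : ℝ) 1) : Poly where
  n := Q.n
  v := fun i => Q.v i + s • (rk Q i - Q.v i)
  pos := Q.pos
  per := fun i => by simp only [rk, Q.per]
  simple := simple hL (oe Q hs)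

theorem fin (N : ℕ) : {R : Poly | R.n ≤ N ∧ ∀ i c, R.v i c ∈ Nat.cast '' Iic N}.Finite := by
  have h1 : {p : E | ∀ c, p c ∈ Nat.cast '' Iic N}.Finite :=
    (Finite.pi' fun _ : Fin 3 => (finite_Iic N).image (Nat.cast : ℕ → ℝ)).preimage
      (WithLp.ofLp_injective 2).injOn
  refine Finite.of_injOn (f := fun R : Poly => (R.n, fun i : Fin N => R.v (i : ℕ)))
    ?_ ?_ ((finite_Iic N).prod (Finite.pi' fun _ => h1))
  · exact fun R hR => ⟨hR.1, fun i => hR.2 _⟩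
  rintro ⟨n, v, p, a, b⟩ hR ⟨n', v', p', a', b'⟩ - h
  obtain rfl : n = n' := congrArg Prod.fst h
  have hn : (0 : ℤ) < n := by exact_mod_cast p
  have hN : n ≤ N := hR.1
  obtain rfl : v = v' := funext fun i => by
    have d := Int.ModEq.dvd (Int.mod_modEq i n)
    have h0 := Int.emod_nonneg i hn.ne'
    have h2 := Int.emod_lt_of_pos i hn
    have e := congrFun (congrArg Prod.snd h) ⟨(i % n).toNat, by omega⟩
    simp only [Int.toNat_of_nonneg h0] at e
    rw [per_of_dvd a d, per_of_dvd a' d, e]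
  rfl

end GRIDx

open GRIDx in
theorem s_GRID (hF : S_FAM) (h1 : S_PLLIP) (h2 : S_PLEMB) : S_GRID := by
  refine fun N => ⟨_, fin N, fun Q hQ hL => ?_⟩
  have h01 : (1 : ℝ) ∈ Icc (0 : ℝ) 1 := ⟨zero_le_one, le_rfl⟩
  have ev : (mv hL h01).v = rk Q := funext fun i => by simp [mv]
  refine ⟨mv hL h01, ⟨hQ, fun i c => ⟨_, (win_le _ _).trans hQ, by rw [ev]; rfl⟩⟩, ?_⟩
  have hp := (mv hL h01).γ_periodic
  obtain ⟨L, hL'⟩ := h1 (fun t => (mv hL h01).γ t - Q.γ t) Q.n Q.n_pos (hp.sub Q.γ_periodic) (by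
    simp only [Poly.γ, ← pl_sub]
    exact locAff_pl _)
  rw [← Q.range_γ, ← (mv hL h01).range_γ]
  refine hF _ _ Q.n L Q.n_pos Q.γ_periodic hp hL' fun s hs => ?_
  have e : (fun t => Q.γ t + s • ((mv hL h01).γ t - Q.γ t)) = (mv hL hs).γ := funext fun t => by
    simp only [Poly.γ, pl, mv]
    module
  rw [e]
  exact h2 _ _ Q.n_pos (mv hL hs).γ_periodic (mv hL hs).locAff_γ (mv hL hs).injMod

end Pool.Agent.P.MP_28369d_gt.SB
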