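import Pool.Agent.P.MP_28369d_gt.SB.Iface2

/-!
Subdivision of a polygon at finitely many levels.
-/

namespace Pool.Agent.P.MP_28369d_gt.SB

open Set Filter Topology
open scoped RealInnerProductSpace

namespace SUBx

/-- A small shear makes all edges non horizontal. -/
theorem gen (hP : S_PERT) (P : Poly) :
    ∃ Q : Poly, Q.n = P.n ∧ Iso P.carrier Q.carrier ∧ ∀ i, Q.e i 2 ≠ 0 := by
  obtain ⟨δ, hδ, H⟩ := hP P
  have f1 := finite_range_of_per P.pos P.e_per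
  obtain ⟨a, ha⟩ := exists_generic f1 (by rintro _ ⟨i, rfl⟩; exact P.e_ne i)
  have h1 : ∀ᶠ t in 𝓝[≠] (0 : ℝ), ∀ x ∈ range P.e, x 2 + t * ⟪x, a⟫ ≠ 0 := by
    refine (eventually_all_finite f1).2 fun x hx => nhdsNE_le_cofinite _ ?_
    filter_upwards [eventually_cofinite_ne (-x 2 / ⟪x, a⟫)] with t ht h
    exact ht (eq_div_of_mul_eq (ha x hx) (by linarith))
  have h2 : ∀ᶠ t in 𝓝 (0 : ℝ), ∀ x ∈ range P.v, ‖(t * ⟪x, a⟫) • pt 0 0 1‖ ≤ δ := by
    refine (eventually_all_finite (finite_range_of_per P.pos P.per)).2 fun x _ => ?_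
    have : Continuous fun t : ℝ => ‖(t * ⟪x, a⟫) • pt 0 0 1‖ := by fun_prop
    exact this.continuousAt.eventually (p := fun y => y ≤ δ) (by simpa using eventually_le_nhds hδ)
  obtain ⟨t, t1, t2⟩ := (h1.and (nhdsWithin_le_nhds h2)).exists
  obtain ⟨Q, e1, e2, e3⟩ := H (fun i => P.v i + (t * ⟪P.v i, a⟫) • pt 0 0 1)
    (fun i => by simp only [P.per]) fun i => by
      rw [add_sub_cancel_left]
      exact t2 _ (mem_range_self i)
  refine ⟨Q, e1, e3, fun i h => t1 _ (mem_range_self i) ?_⟩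
  simp only [Poly.e, e2, inner_sub_left, PiLp.sub_apply, PiLp.add_apply, PiLp.smul_apply, pt_2,
    smul_eq_mul] at h ⊢
  linarith

/-- Subdivision of a polygon at the parameters `c k`. -/
theorem subdiv (P : Poly) {N : ℕ} (hN : 0 < N) {c : ℤ → ℝ} (hc : StrictMono c)
    (hcp : ∀ k, c (k + N) = c k + P.n) (hed : ∀ k, ∃ p : ℤ, (p : ℝ) ≤ c k ∧ c (k + 1) ≤ p + 1) :
    ∃ Q : Poly, Q.n = N ∧ Q.carrier = P.carrier ∧ ∀ k, Q.v k = P.γ (c k) := by
  have hz : ∀ k i : ℤ, c (i + k * N) = c i + k * P.n := by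
    intro k
    induction k using Int.induction_on with
    | zero => simp
    | succ k ih =>
      intro i
      rw [show i + (k + 1 : ℤ) * N = i + k * N + N by ring, hcp, ih]
      push_cast
      ring
    | pred k ih =>
      intro i
      have := hcp (i + (-k - 1) * N)
      rw [show i + (-k - 1 : ℤ) * N + N = i + -k * N by ring, ih] at this
      push_cast at this ⊢
      linarith
  have hφ : StrictMono (pl c) := fun _ _ h => pl_lt c h fun i _ _ => hc (lt_add_one i)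
  have hφp : ∀ (s : ℝ) (k : ℤ), pl c (s + k * N) = pl c s + k * P.n := fun s k => by
    rw [show s + (k : ℝ) * N = s + ((k * N : ℤ) : ℝ) by push_cast; ring, pl_add_int]
    simp only [hz, pl, smul_eq_mul]
    ring
  have hw : ∀ s, pl (fun k => P.γ (c k)) s = P.γ (pl c s) := fun s => by
    obtain ⟨p, h1, h2⟩ := hed ⌊s⌋
    have h3 := hφ.monotone (Int.floor_le s)
    have h4 := hφ.monotone (show s ≤ ((⌊s⌋ + 1 : ℤ) : ℝ) by
      push_cast
      exact (Int.lt_floor_add_one s).le)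
    rw [pl_int] at h3 h4
    have h5 := (hc (lt_add_one ⌊s⌋)).le
    rw [eq_add_of_sub_eq' (P.γ_sub p (h1.trans h3) (h4.trans h2) h1 (h5.trans h2)), pl,
      P.γ_sub p (h1.trans h5) h2 h1 (h5.trans h2), pl, smul_smul, add_sub_cancel_left, smul_eq_mul]
  refine ⟨mkPoly N hN (fun k => P.γ (c k)) (fun k => by simp only [hcp, P.γ_periodic (c k)])
    fun s t h => ?_, rfl, ?_, fun _ => rfl⟩
  · rw [hw, hw] at h
    obtain ⟨k, hk⟩ := P.injMod _ _ h
    exact ⟨k, hφ.injective (hk.trans (hφp s k).symm)⟩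
  · rw [← P.range_γ, ← Poly.range_γ]
    change range (pl fun k => P.γ (c k)) = _
    refine Subset.antisymm (range_subset_iff.2 fun s => ⟨_, (hw s).symm⟩) ?_
    rintro _ ⟨τ, rfl⟩
    obtain ⟨k, h1, h2⟩ := exists_shift P.n_pos (pl c 0) τ
    have h3 := hφp 0 1
    obtain ⟨s, -, hs⟩ := intermediate_value_Icc (show (0 : ℝ) ≤ 0 + ((1 : ℤ) : ℝ) * N by simp)
      (continuous_pl c).continuousOn ⟨h1, by rw [h3]; push_cast; linarith⟩
    exact ⟨s, by rw [hw, hs, P.γ_per]⟩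

theorem emod_eq {α : Type} {n : ℕ} {f : ℤ → α} (h : ∀ i, f (i + n) = f i) (i : ℤ) :
    f (i % n) = f i := per_of_dvd h (Int.ModEq.dvd (Int.mod_modEq i n).symm)

theorem main (h3 : S_ENUM) (h4 : S_LEVC) (P : Poly) (hG : ∀ i, P.e i 2 ≠ 0) :
    ∃ Q : Poly, Q.n ≤ (P.n + P.n * P.n) * (2 * P.n + 1) ∧ Q.carrier = P.carrier ∧ Lvl Q := by
  classical
  have hu : ∀ x : E, ⟪x, pt 0 0 1⟫ = x 2 := fun x => by simp [inner3]
  have hG' : Gen P (pt 0 0 1) := fun i => by rw [hu]; exact hG i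
  have hn : (0 : ℤ) < P.n := by exact_mod_cast P.pos
  set s : ℤ → ℝ := fun i => P.e i 0 / P.e i 2 with hs
  set b : ℤ → ℝ := fun i => P.v i 0 - P.v i 2 * s i with hb
  have hsp : ∀ i, s (i + P.n) = s i := fun i => by simp only [hs, P.e_per]
  have hbp : ∀ i, b (i + P.n) = b i := fun i => by simp only [hb, hsp, P.per]
  have haff : ∀ (p : ℤ) (τ : ℝ), (p : ℝ) ≤ τ → τ ≤ p + 1 → P.γ τ 0 = b p + s p * P.γ τ 2 := by
    intro p τ h1 h2
    have := hG p
    simp only [P.γ_eq p h1 h2, hb, hs, PiLp.add_apply, PiLp.smul_apply, smul_eq_mul]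
    field_simp
    ring
  set T : Finset ℤ := Finset.Ico 0 (P.n : ℤ) with hT
  have hTm : ∀ i : ℤ, i % P.n ∈ T := fun i =>
    Finset.mem_Ico.2 ⟨Int.emod_nonneg _ hn.ne', Int.emod_lt_of_pos _ hn⟩
  have hTc : T.card = P.n := by simp [hT]
  set B : Finset ℝ := T.image (fun i => P.v i 2) ∪
    Finset.image₂ (fun i j => (b j - b i) / (s i - s j)) T T with hB
  have hB1 : ∀ i, P.v i 2 ∈ B := fun i => Finset.mem_union_left _
    (Finset.mem_image.2 ⟨_, hTm i, by rw [emod_eq P.per]⟩)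
  have hB2 : ∀ i j, (b j - b i) / (s i - s j) ∈ B := fun i j => Finset.mem_union_right _
    (Finset.mem_image₂.2 ⟨_, hTm i, _, hTm j, by simp only [emod_eq hsp, emod_eq hbp]⟩)
  have hBc : B.card ≤ P.n + P.n * P.n := (Finset.card_union_le _ _).trans
    (add_le_add (Finset.card_image_le.trans hTc.le)
      ((Finset.card_image₂_le _ _ _).trans (by rw [hTc])))
  clear_value B s b
  set A : Set ℝ := {τ | P.γ τ 2 ∈ B} with hA
  have hAU : A ∩ Ico 0 (P.n : ℝ) =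
      ⋃ l ∈ B, ({τ | ⟪P.γ τ, pt 0 0 1⟫ = l} ∩ Ico 0 (P.n : ℝ)) := by
    ext τ
    simp only [hA, hu, mem_inter_iff, mem_ofPred_eq, mem_iUnion, exists_prop]
    exact ⟨fun h => ⟨_, h.1, rfl, h.2⟩, fun ⟨l, a, b, c⟩ => ⟨b ▸ a, c⟩⟩
  have hAf : (A ∩ Ico 0 (P.n : ℝ)).Finite := by
    rw [hAU]
    exact B.finite_toSet.biUnion fun l _ => (h4 P _ hG' l).1
  have hAc : (A ∩ Ico 0 (P.n : ℝ)).ncard ≤ (P.n + P.n * P.n) * (2 * P.n + 1) := by
    rw [hAU]
    refine (Finset.set_ncard_biUnion_le _ _).trans ((Finset.sum_le_card_nsmul _ _ (2 * P.n + 1)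
      fun l _ => (h4 P _ hG' l).2.trans (by have := P.nmax_le (pt 0 0 1); omega)).trans ?_)
    exact Nat.mul_le_mul_right _ hBc
  have hint : ∀ i : ℤ, (i : ℝ) ∈ A := fun i => show P.γ i 2 ∈ B by rw [P.γ_int]; exact hB1 i
  have hA0 : 0 < (A ∩ Ico 0 (P.n : ℝ)).ncard :=
    (ncard_pos hAf).2 ⟨0, by simpa using hint 0, le_rfl, P.n_pos⟩
  obtain ⟨c, hc, hcp, hcr⟩ := h3 A P.n _ P.n_pos
    (fun τ => by simp only [hA, mem_ofPred_eq, P.γ_periodic τ]) hAf rfl hA0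
  have hin : ∀ k, ∀ σ ∈ Ioo (c k) (c (k + 1)), σ ∉ A := by
    intro k σ hσ hs
    obtain ⟨j, rfl⟩ : σ ∈ range c := hcr ▸ hs
    have a := hc.lt_iff_lt.1 hσ.1
    have b := hc.lt_iff_lt.1 hσ.2
    omega
  have hed : ∀ k, ∃ p : ℤ, (p : ℝ) ≤ c k ∧ c (k + 1) ≤ p + 1 := fun k =>
    ⟨⌊c k⌋, Int.floor_le _, not_lt.1 fun h =>
      hin k _ ⟨Int.lt_floor_add_one _, h⟩ (by simpa using hint (⌊c k⌋ + 1))⟩
  have hlt : ∀ k, c k < c (k + 1) := fun k => hc (lt_add_one k)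
  have hzc : Continuous fun τ => P.γ τ 2 := by
    have := P.continuous_γ
    fun_prop
  have gap : ∀ k, ∀ l ∈ B, 0 ≤ (P.γ (c k) 2 - l) * (P.γ (c (k + 1)) 2 - l) := by
    intro k l hl
    by_contra h
    rcases mul_neg_iff.1 (not_le.1 h) with ⟨a1, a2⟩ | ⟨a1, a2⟩
    · obtain ⟨σ, h1, h2⟩ := intermediate_value_Ioo' (hlt k).le hzc.continuousOn
        (show l ∈ Ioo _ _ from ⟨sub_neg.1 a2, sub_pos.1 a1⟩)
      exact hin k σ h1 (h2.symm.subst (motive := fun x => x ∈ B) hl)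
    · obtain ⟨σ, h1, h2⟩ := intermediate_value_Ioo (hlt k).le hzc.continuousOn
        (show l ∈ Ioo _ _ from ⟨sub_neg.1 a1, sub_pos.1 a2⟩)
      exact hin k σ h1 (h2.symm.subst (motive := fun x => x ∈ B) hl)
  have piece : ∀ i i' : ℤ, (i' = i + 1 ∨ i' = i - 1) →
      (∀ l ∈ B, 0 ≤ (P.γ (c i) 2 - l) * (P.γ (c i') 2 - l)) ∧ ∃ p,
        P.γ (c i) 0 = b p + s p * P.γ (c i) 2 ∧ P.γ (c i') 0 = b p + s p * P.γ (c i') 2 := by
    rintro i i' (rfl | h)
    · obtain ⟨p, h1, h2⟩ := hed i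
      exact ⟨gap i, p, haff p _ h1 ((hlt i).le.trans h2), haff p _ (h1.trans (hlt i).le) h2⟩
    · obtain rfl : i = i' + 1 := by omega
      obtain ⟨p, h1, h2⟩ := hed i'
      exact ⟨fun l hl => mul_comm (P.γ (c i') 2 - l) _ ▸ gap i' l hl, p,
        haff p _ (h1.trans (hlt i').le) h2, haff p _ h1 ((hlt i').le.trans h2)⟩
  obtain ⟨Q, e1, e2, e3⟩ := subdiv P hA0 hc hcp hed
  refine ⟨Q, e1.trans_le hAc, e2, fun i h => ?_, fun i j h => ?_, fun i i' j j' hi hj h h' => ?_⟩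
  · obtain ⟨p, h1, h2⟩ := hed i
    have h5 := congrArg (fun x : E => x 2)
      (P.γ_sub p (h1.trans (hlt i).le) h2 h1 ((hlt i).le.trans h2))
    simp only [PiLp.sub_apply, PiLp.smul_apply, smul_eq_mul, ← e3, h, sub_self] at h5
    exact mul_ne_zero (sub_pos.2 (hlt i)).ne' (hG p) h5.symm
  · have h5 := gap i _ (show c j ∈ A from hcr ▸ mem_range_self j)
    simp only [← e3] at h5
    rcases le_total (Q.v i 2) (Q.v (i + 1) 2) with a | a
    · rw [min_eq_left a, max_eq_right a] at h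
      exact h5.not_gt (mul_neg_of_neg_of_pos (sub_neg.2 h.1) (sub_pos.2 h.2))
    · rw [min_eq_right a, max_eq_left a] at h
      exact h5.not_gt (mul_neg_of_pos_of_neg (sub_pos.2 h.2) (sub_neg.2 h.1))
  · simp only [e3] at h h' ⊢
    obtain ⟨a1, p, a2, a3⟩ := piece i i' hi
    obtain ⟨-, q, a4, a5⟩ := piece j j' hj
    rw [a2, a3, a4, a5, ← h, ← h']
    by_cases hpq : s p - s q = 0
    · rw [sub_eq_zero.1 hpq]
      nlinarith [mul_self_nonneg (b p - b q)]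
    · have a6 := mul_nonneg (mul_self_nonneg (s p - s q)) (a1 _ (hB2 p q))
      refine a6.trans_eq ?_
      field_simp
      ring

end SUBx

open SUBx in
theorem s_SUB (hP : S_PERT) (h3 : S_ENUM) (h4 : S_LEVC) (h5 : S_REPAR) : S_SUB := by
  intro N
  refine ⟨(N + N * N) * (2 * N + 1), fun P hP' => ?_⟩
  obtain ⟨P', e1, e2, e3⟩ := gen hP P
  obtain ⟨Q, f1, f2, f3⟩ := main h3 h4 P' e3
  refine ⟨Q, f1.trans ?_, f2 ▸ e2, f3⟩
  rw [e1]
  gcongr

end Pool.Agent.P.MP_28369d_gt.SB
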