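import Pool.Agent.P.MP_28369d_gt.SB.FinB
import Pool.Agent.P.MP_28369d_gt.SB.TSUB
import Pool.Agent.P.MP_28369d_gt.SB.TGRID

/-!
Finiteness forms of the theorems.
-/

namespace Pool.Agent.P.MP_28369d_gt.SB

open Set Filter Topology
open scoped RealInnerProductSpace

theorem p_FIN (N : ℕ) : ∃ S : Set Poly, S.Finite ∧ ∀ P : Poly, P.n ≤ N →
    ∃ R ∈ S, Iso P.carrier R.carrier := by
  obtain ⟨N', h1⟩ := s_SUB p_PERT s_ENUM s_LEVC s_REPAR N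
  obtain ⟨S, h2, h3⟩ := s_GRID s_FAM s_PLLIP s_PLEMB N'
  refine ⟨S, h2, fun P hP => ?_⟩
  obtain ⟨Q, a1, a2, a3⟩ := h1 P hP
  obtain ⟨R, b1, b2⟩ := h3 Q a1 a3
  exact ⟨R, b1, a2.trans b2⟩

theorem finA (m : ℕ) : ∃ S : Set Poly, S.Finite ∧ ∀ P : Poly, br P.carrier = m →
    sb P.carrier ≤ m + 1 → ∃ Q ∈ S, Iso P.carrier Q.carrier := by
  obtain ⟨N, hN⟩ := thmA p_ACORE m
  obtain ⟨S, h1, h2⟩ := p_FIN N
  refine ⟨S, h1, fun P a b => ?_⟩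
  have hne : {s | ∃ Q : Poly, Iso P.carrier Q.carrier ∧ Q.n = s}.Nonempty := ⟨P.n, P, Iso.refl _, rfl⟩
  obtain ⟨Q, c1, c2⟩ := Nat.sInf_mem hne
  obtain ⟨R, d1, d2⟩ := h2 Q (c2.trans_le (hN P a b))
  exact ⟨R, d1, c1.trans d2⟩

theorem core3 (hCS : S_CS) (hG : S_GRP) (h3 : S_BR3) (hR : S_REFL) (K1 K2 K : Set E) (m1 m2 : ℕ)
    (ω1 : E → E → DihedralGroup m1) (ω2 : E → E → DihedralGroup m2) (o1 : Odd m1) (o2 : Odd m2)
    (t1 : 3 ≤ m1) (t2 : 3 ≤ m2) (l1 : LocSys ω1 K1ᶜ) (f1 : Full ω1 K1ᶜ) (l2 : LocSys ω2 K2ᶜ)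
    (f2 : Full ω2 K2ᶜ) (hs : ConnSum K1 K2 K) :
    ∀ R : Poly, Iso K R.carrier → ∀ u, Gen R u → 3 ≤ R.nmax u := by
  obtain ⟨P1, P2, P, a, b, i1, i2, i0, hab, s1, s2, s3, s4, s5⟩ := hs
  obtain ⟨g1, e1⟩ := i1.homeo
  obtain ⟨g2, e2⟩ := i2.homeo
  have l1' := l1.push g1
  have f1' := f1.push g1
  have l2' := l2.push g2
  have f2' := f2.push g2
  rw [← compl_push, e1] at l1' f1'
  rw [← compl_push, e2] at l2' f2'
  generalize push g1 ω1 = υ1 at l1' f1'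
  generalize push g2 ω2 = υ2 at l2' f2'
  obtain ⟨X1, x1, y1⟩ := hR m1 P1 υ1 l1' (f1'.top P1.isCompact)
  obtain ⟨X2, x2, y2⟩ := hR m2 P2 υ2 l2' (f2'.top P2.isCompact)
  obtain ⟨n1, n2, c1, c2⟩ := hCS _ _ υ1 υ2 P1.carrier P2.carrier a b P1.isCompact P2.isCompact hab
    s1 s2 s3 s4 (s5 ▸ P.isClosed) l1' l2' f1' f2'
  rw [← s5] at c2
  obtain ⟨c, hc1, hc2⟩ := ((openSegment_infinite hab).sdiff (x1.union x2)).nonempty
  have hc3 : c ∈ segment ℝ a b := openSegment_subset_segment ℝ a b hc1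
  obtain ⟨j1, rfl⟩ : ∃ j, n1 = .sr j := by
    obtain ⟨i, hi⟩ := y1 c (s3 ▸ hc3 : c ∈ P1.carrier ∩ _).1 fun h => hc2 (Or.inl h)
    obtain ⟨g, hg⟩ := hi.conj (c1 c hc1).1
    obtain ⟨h, hh⟩ := (c1 c hc1).1.conj hi
    exact hG.2.2.2.2 m1 i n1 g h hg hh
  obtain ⟨j2, rfl⟩ : ∃ j, n2 = .sr j := by
    obtain ⟨i, hi⟩ := y2 c (s4 ▸ hc3 : c ∈ P2.carrier ∩ _).1 fun h => hc2 (Or.inr h)
    obtain ⟨g, hg⟩ := hi.conj (c1 c hc1).2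
    obtain ⟨h, hh⟩ := (c1 c hc1).2.conj hi
    exact hG.2.2.2.2 m2 i n2 g h hg hh
  obtain ⟨φ1, φ2, p1, p2⟩ := hG.2.1 m1 m2 o1 o2 t1 t2 j1 j2
  obtain ⟨ω, w1, w2, w3, w4⟩ := c2 _ φ1 φ2 p1
  refine fun R hR' u hu => h3 _ ω P.carrier w1 ?_ (fun H hH => ?_) R u (i0.symm.trans hR') hu
  · refine ⟨X1 ∪ X2 ∪ {a, b}, (x1.union x2).union (toFinite _), fun x hx hX => ?_⟩
    simp only [mem_union, not_or, mem_insert_iff, mem_singleton_iff] at hX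
    have hx' := hx
    rw [s5] at hx'
    have hx0 : x 0 ≠ 0 := by
      intro h0
      have : x ∈ segment ℝ a b := by
        rcases hx'.1 with h | h
        · exact s3 ▸ ⟨h, h0⟩
        · exact s4 ▸ ⟨h, h0⟩
      rw [← insert_endpoints_openSegment] at this
      rcases this with h | h | h
      · exact hX.2.1 h
      · exact hX.2.2 h
      · exact hx'.2 h
    have hcont : Continuous fun p : E => p 0 := by fun_prop
    have hos : ∀ p ∈ openSegment ℝ a b, p 0 = 0 := fun p hp =>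
      (s3 ▸ openSegment_subset_segment ℝ a b hp : p ∈ P1.carrier ∩ {p | p 0 = 0}).2
    rcases lt_or_gt_of_ne hx0 with h | h
    · have hx1 : x ∈ P1.carrier := hx'.1.resolve_right fun h' => (s2 x h').not_gt h
      obtain ⟨i, ⟨N', a1, a2⟩, -⟩ := y1 x hx1 hX.1.1
      refine ⟨N' ∩ {p | p 0 < 0}, inter_mem a1 ((isOpen_lt hcont continuous_const).mem_nhds h),
        φ1 (.sr i), by rw [← map_mul]; simp, ?_⟩
      rw [← MonoidHom.map_zpowers]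
      refine ((a2.map φ1).mono fun p hp => ⟨hp.1.1, fun h' => hp.2 ?_⟩).congr
        fun p hp => Eventually.of_forall fun p' => w3 p p' hp.1.2
      rw [s5]; exact ⟨Or.inl h', fun h'' => (ne_of_lt hp.1.2) (hos p h'')⟩
    · have hx1 : x ∈ P2.carrier := hx'.1.resolve_left fun h' => (s1 x h').not_gt h
      obtain ⟨i, ⟨N', a1, a2⟩, -⟩ := y2 x hx1 hX.1.2
      refine ⟨N' ∩ {p | 0 < p 0}, inter_mem a1 ((isOpen_lt continuous_const hcont).mem_nhds h),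
        φ2 (.sr i), by rw [← map_mul]; simp, ?_⟩
      rw [← MonoidHom.map_zpowers]
      refine ((a2.map φ2).mono fun p hp => ⟨hp.1.1, fun h' => hp.2 ?_⟩).congr
        fun p hp => Eventually.of_forall fun p' => w4 p p' hp.1.2
      rw [s5]; exact ⟨Or.inr h', fun h'' => (ne_of_gt hp.1.2) (hos p h'')⟩
  · obtain ⟨g, g1', g2'⟩ := w2 H hH
    refine ⟨_, g1' (.r 1), _, g2' (.r 1), fun hcm => p2 ?_⟩
    have := hcm.conj g⁻¹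
    simpa [mul_assoc] using this

theorem finB : ∃ S : Set Poly, S.Finite ∧ ∀ (K₁ K₂ K : Set E) (m₁ m₂ : ℕ), Odd m₁ → Odd m₂ →
    3 ≤ m₁ → 3 ≤ m₂ → DihQuot K₁ m₁ → DihQuot K₂ m₂ → ConnSum K₁ K₂ K →
    (∀ Q ∈ S, ¬ Iso K Q.carrier) → 5 ≤ sb K := by
  obtain ⟨N, hN⟩ := p_ACORE 3
  obtain ⟨S, h1, h2⟩ := p_FIN N
  refine ⟨S, h1, fun K1 K2 K m1 m2 o1 o2 t1 t2 ⟨p1, ρ1, a1⟩ ⟨p2, ρ2, a2⟩ hs hS => ?_⟩
  obtain ⟨P1, P2, P, -, -, i1, i2, i0, -⟩ := id hs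
  obtain ⟨ω1, b1, c1⟩ := s_F0 _ _ p1 ρ1 (compl_good s_CONN i1).1 (compl_good s_CONN i1).2 a1
  obtain ⟨ω2, b2, c2⟩ := s_F0 _ _ p2 ρ2 (compl_good s_CONN i2).1 (compl_good s_CONN i2).2 a2
  have h3 := core3 p_CS s_GRP p_BR3 p_REFL K1 K2 K m1 m2 ω1 ω2 o1 o2 t1 t2 b1 c1 b2 c2 hs
  by_contra hlt
  obtain ⟨Q, q1, q2⟩ := exists_sb i0
  obtain ⟨R, r1, r2⟩ := hN Q (fun R hR => h3 R (q1.trans hR)) fun u => (q2 u).trans (by omega)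
  obtain ⟨T, e1, e2⟩ := h2 R r1
  exact hS T e1 ((q1.trans r2).trans e2)

end Pool.Agent.P.MP_28369d_gt.SB
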