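import Pool.Agent.P.MP_28369d_gt.SB.Loc

/-!
Interface: auxiliary definitions and the statements `S_*` of all steps.
-/

namespace Pool.Agent.P.MP_28369d_gt.SB

open Set Filter Topology
open scoped RealInnerProductSpace

/-! ## Part G: isotopies of closed curves -/

def S_LOC : Prop := ∃ κ > (0 : ℝ), ∀ (γ δ : ℝ → E) (T c : ℝ) (L : NNReal), 0 < T → 0 < c →
  Function.Periodic γ T → Function.Periodic δ T → LowB γ T c → LipschitzWith L δ →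
  (L : ℝ) ≤ κ * c →
  Iso (range γ) (range fun t => γ t + δ t) ∧ LowB (fun t => γ t + δ t) T (c / 2)

def S_FAM : Prop := ∀ (γ η : ℝ → E) (T : ℝ) (L : NNReal), 0 < T → Function.Periodic γ T →
  Function.Periodic η T → LipschitzWith L (fun t => η t - γ t) →
  (∀ s ∈ Icc (0 : ℝ) 1, ∃ c > (0 : ℝ), LowB (fun t => γ t + s • (η t - γ t)) T c) →
  Iso (range γ) (range η)

def S_PLLIP : Prop := ∀ (F : ℝ → E) (T : ℝ), 0 < T → Function.Periodic F T → LocAff F →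
  ∃ L : NNReal, LipschitzWith L F

def S_PLEMB : Prop := ∀ (F : ℝ → E) (T : ℝ), 0 < T → Function.Periodic F T → LocAff F →
  InjMod F T → ∃ c > (0 : ℝ), LowB F T c

def S_SMEMB : Prop := ∀ (F F' : ℝ → E) (T : ℝ), 0 < T → Function.Periodic F T →
  (∀ t, HasDerivAt F (F' t) t) → Continuous F' → (∀ t, F' t ≠ 0) → InjMod F T →
  ∃ c > (0 : ℝ), LowB F T c

def S_PERT : Prop := ∀ P : Poly, ∃ δ > (0 : ℝ), ∀ w : ℤ → E, (∀ i, w (i + P.n) = w i) →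
  (∀ i, ‖w i - P.v i‖ ≤ δ) → ∃ Q : Poly, Q.n = P.n ∧ Q.v = w ∧ Iso P.carrier Q.carrier

def S_INSC : Prop := ∀ (F F' : ℝ → E) (T : ℝ), 0 < T → Function.Periodic F T →
  (∀ t, HasDerivAt F (F' t) t) → Continuous F' → (∀ t, F' t ≠ 0) → InjMod F T →
  ∃ Q : Poly, (∀ i : ℤ, Q.v i = F (T * i / Q.n)) ∧ Iso (range F) Q.carrier

def S_ENUM : Prop := ∀ (A : Set ℝ) (T : ℝ) (N : ℕ), 0 < T → (∀ τ, τ + T ∈ A ↔ τ ∈ A) →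
  (A ∩ Ico 0 T).Finite → (A ∩ Ico 0 T).ncard = N → 0 < N →
  ∃ c : ℤ → ℝ, StrictMono c ∧ (∀ k, c (k + N) = c k + T) ∧ range c = A

def S_LEVC : Prop := ∀ (P : Poly) (u : E), Gen P u → ∀ l : ℝ,
  ({τ | ⟪P.γ τ, u⟫ = l} ∩ Ico 0 (P.n : ℝ)).Finite ∧
  ({τ | ⟪P.γ τ, u⟫ = l} ∩ Ico 0 (P.n : ℝ)).ncard ≤ 2 * P.nmax u + 1

def S_REPAR : Prop := ∀ (z : ℝ → ℝ) (c : ℤ → ℝ) (T : ℝ) (N : ℕ), 0 < T → StrictMono c →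
  (∀ k, c (k + N) = c k + T) → Function.Periodic z T → LocAff z →
  (∀ k, StrictMonoOn z (Icc (c k) (c (k + 1))) ∨ StrictAntiOn z (Icc (c k) (c (k + 1)))) →
  ∃ θ : ℝ → ℝ, StrictMono θ ∧ Function.Surjective θ ∧ (∀ τ, θ (τ + T) = θ τ + N) ∧
    (∀ w : ℤ → E, LocAff fun τ => pl w (θ τ)) ∧ (∀ τ, ∃ k, c k ≤ τ ∧ τ < c (k + 1)) ∧
    ∀ (k : ℤ) (τ : ℝ), c k ≤ τ → τ ≤ c (k + 1) →
      θ τ = k + (z τ - z (c k)) / (z (c (k + 1)) - z (c k))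

/-- The heights of all extremal vertices are among the levels. -/
def Ext (P : Poly) (u : E) (Λ : Finset ℝ) : Prop :=
  ∀ i, ⟪P.e i, u⟫ * ⟪P.e (i + 1), u⟫ < 0 → ⟪P.v (i + 1), u⟫ ∈ Λ

/-- Two arcs that avoid the levels and have distinct points at a common height are separated, at
each common height, by one fixed linear functional. -/
def Half (P : Poly) (u : E) (Λ : Finset ℝ) : Prop :=
  ∀ a b a' b' t t' : ℝ, t ∈ Ioo a b → t' ∈ Ioo a' b' → ⟪P.γ t, u⟫ = ⟪P.γ t', u⟫ → P.γ t ≠ P.γ t' →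
    (∀ τ ∈ Ioo a b, ⟪P.γ τ, u⟫ ∉ Λ) → (∀ τ ∈ Ioo a' b', ⟪P.γ τ, u⟫ ∉ Λ) →
    ∃ w : E, ∀ τ ∈ Icc a b, ∀ τ' ∈ Icc a' b', ⟪P.γ τ, u⟫ = ⟪P.γ τ', u⟫ → ⟪P.γ τ, u⟫ ∉ Λ →
      ⟪P.γ τ', w⟫ < ⟪P.γ τ, w⟫

def S_STR : Prop := ∀ M L : ℕ, ∃ N : ℕ, ∀ (P : Poly) (u : E) (Λ : Finset ℝ), Gen P u →
  P.nmax u ≤ M → Λ.card ≤ L → Ext P u Λ → Half P u Λ → ∃ Q : Poly, Q.n ≤ N ∧ Iso P.carrier Q.carrier

/-! ## Part C: the planar velocity polygon -/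

def df (f : ℤ → ℝ) (i : ℤ) : ℝ := f (i + 1) - f i

def lin (a b : ℝ) (x y : ℤ → ℝ) (i : ℤ) : ℝ := a * x i + b * y i

/-- Jump of `f` at the vertex between the edges `i` and `i + 1`, with the sign that makes it
projectively meaningful when `Z` changes sign. -/
noncomputable def jp (Z f : ℤ → ℝ) (i : ℤ) : ℝ :=
  if 0 < Z i * Z (i + 1) then f (i + 1) - f i else f i - f (i + 1)

noncomputable def trn (Z x y : ℤ → ℝ) (i : ℤ) : ℝ :=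
  jp Z x (i - 1) * jp Z y i - jp Z y (i - 1) * jp Z x i

noncomputable def sl (Z x y : ℤ → ℝ) (i : ℤ) : ℝ := jp Z y i / jp Z x i

def brk (Z x y : ℤ → ℝ) (i : ℤ) : Prop :=
  Z i * Z (i + 1) < 0 ∨ jp Z x (i - 1) * jp Z x i < 0 ∨ jp Z x i * jp Z x (i + 1) < 0 ∨
    trn Z x y i * trn Z x y (i + 1) < 0

def cut (Z x y : ℤ → ℝ) (i : ℤ) : Prop :=
  brk Z x y i ∨ ∃ j, brk Z x y j ∧ sl Z x y j ∈ uIcc (sl Z x y (i - 1)) (sl Z x y i)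

/-- Edge `i` is the vector `Z i • (x i, y i, 1)`; general position; the number of maxima takes
only the values `m` and `m + 1`. -/
structure Core (m n : ℕ) (Z x y : ℤ → ℝ) : Prop where
  big : 5 ≤ n
  pZ : ∀ i, Z (i + n) = Z i
  px : ∀ i, x (i + n) = x i
  py : ∀ i, y (i + n) = y i
  Zne : ∀ i, Z i ≠ 0
  chg : ∃ i, Z i * Z (i + 1) < 0
  xne : ∀ i j, ¬ (n : ℤ) ∣ j - i → x i ≠ x j
  gp : ∀ (a b : ℝ) (i j k : ℤ), (a ≠ 0 ∨ b ≠ 0) → ¬ (n : ℤ) ∣ j - i → ¬ (n : ℤ) ∣ k - i →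
    ¬ (n : ℤ) ∣ k - j → lin a b x y i = lin a b x y j → lin a b x y i = lin a b x y k → False
  two : ∀ a b c : ℝ, (∀ i, lin a b x y i + c ≠ 0) →
    m ≤ mx n (fun i => Z i * (lin a b x y i + c)) ∧ mx n (fun i => Z i * (lin a b x y i + c)) ≤ m + 1

/-- No line supports the velocity polygon at two non adjacent vertices. -/
def S_NOBI : Prop := ∀ (m n : ℕ) (Z x y : ℤ → ℝ), Core m n Z x y → ∀ (a b : ℝ) (i j : ℤ),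
  (a ≠ 0 ∨ b ≠ 0) → ¬ (n : ℤ) ∣ j - i → ¬ (n : ℤ) ∣ j - i - 1 → ¬ (n : ℤ) ∣ j - i + 1 →
  lin a b x y i = lin a b x y j → jp Z (lin a b x y) (i - 1) * jp Z (lin a b x y) i ≤ 0 →
  jp Z (lin a b x y) (j - 1) * jp Z (lin a b x y) j ≤ 0 → False

/-- Between two up events there is a down event. -/
def S_ALT : Prop := ∀ (m n : ℕ) (Z x y : ℤ → ℝ), Core m n Z x y → ∀ (a b : ℝ) (i j : ℤ),
  (∀ k l, ¬ (n : ℤ) ∣ l - k → lin a b x y k ≠ lin a b x y l) →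
  jp Z (lin a b x y) (i - 1) < 0 → 0 < jp Z (lin a b x y) i →
  jp Z (lin a b x y) (j - 1) < 0 → 0 < jp Z (lin a b x y) j → lin a b x y i < lin a b x y j →
  ∃ c, 0 < jp Z (lin a b x y) (c - 1) ∧ jp Z (lin a b x y) c < 0 ∧
    lin a b x y i < lin a b x y c ∧ lin a b x y c < lin a b x y j

noncomputable def hv (x y : ℤ → ℝ) (t : ℝ) (k : ℤ) : ℝ := Real.cos t * y k - Real.sin t * x k

def Ev (θ : ℤ → ℝ) (k : ℤ) (t : ℝ) : Prop := t ∈ uIcc (θ (k - 1)) (θ k)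

def Mono (η : ℝ) (θ : ℤ → ℝ) (p q : ℤ) : Prop := ∀ k, p ≤ k → k < q → 0 < η * (θ (k + 1) - θ k)

/-- An open planar chain with vertices `lo ≤ k ≤ hi` and lifted edge angles `θ`. -/
structure AC (M : ℕ) (lo hi : ℤ) (θ ρ x y : ℤ → ℝ) : Prop where
  rho : ∀ k, lo ≤ k → k < hi → 0 < ρ k ∧ x (k + 1) - x k = ρ k * Real.cos (θ k) ∧
    y (k + 1) - y k = ρ k * Real.sin (θ k)
  step : ∀ k, lo ≤ k → k + 1 < hi → θ (k + 1) ≠ θ k ∧ |θ (k + 1) - θ k| < Real.pi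
  nb : ∀ (i j : ℤ) (t : ℝ) (r : ℤ), lo < i → i + 1 < j → j < hi → Ev θ i t →
    Ev θ j (t + r * Real.pi) → hv x y t i ≠ hv x y t j
  cr : ∀ (t c η : ℝ) (k : ℕ → ℤ), (η = 1 ∨ η = -1) → (∀ j, j + 1 < 2 * M → k j < k (j + 1)) →
    (∀ j < 2 * M, lo ≤ k j ∧ k j ≤ hi) → ¬ ∀ j < 2 * M, 0 < η * (-1) ^ j * (c - hv x y t (k j))

def S_ANG : Prop := ∀ (m n : ℕ) (Z x y : ℤ → ℝ), Core m n Z x y → ∀ lo hi : ℤ,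
  (∀ i, lo ≤ i → i < hi → 0 < Z i * Z (i + 1)) → ∃ θ ρ, AC (m + 2) lo hi θ ρ x y

def S_RUNF : Prop := ∀ (M : ℕ) (lo hi : ℤ) (θ ρ x y : ℤ → ℝ), AC M lo hi θ ρ x y →
  ∀ (η : ℝ) (p q : ℤ), (η = 1 ∨ η = -1) → lo ≤ p → p < q → q < hi → Mono η θ p q →
  ∃ H : ℝ → ℝ, Continuous H ∧ (∀ k t, p < k → k ≤ q → Ev θ k t → H t = hv x y t k) ∧
    ∀ t ∈ uIcc (θ p) (θ q), ∃ k, p < k ∧ k ≤ q ∧ Ev θ k t

def S_ADJ : Prop := ∀ (M : ℕ) (lo hi : ℤ) (θ ρ x y : ℤ → ℝ), AC M lo hi θ ρ x y →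
  ∀ η : ℝ, (η = 1 ∨ η = -1) →
  (∀ (t0 t1 t2 k k' : ℤ) (t : ℝ), lo ≤ t0 → t2 < hi → Mono η θ t0 t1 → Mono (-η) θ t1 t2 →
    t0 < k → k ≤ t1 → t1 < k' → k' ≤ t2 → Ev θ k t → Ev θ k' t → t ≠ θ t1 →
    0 < η * (hv x y t k' - hv x y t k)) ∧
  ∀ (t0 t1 t2 t3 k k' : ℤ) (t : ℝ), lo ≤ t0 → t3 < hi → t1 < t2 → Mono η θ t0 t1 →
    Mono (-η) θ t1 t2 → Mono η θ t2 t3 → t0 < k → k ≤ t1 → t2 < k' → k' ≤ t3 → Ev θ k t →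
    Ev θ k' t → (η * θ t0 ≤ η * θ t2 → 0 < η * (hv x y t k' - hv x y t k)) ∧
      (η * θ t1 ≤ η * θ t3 → η * (hv x y t k' - hv x y t k) < 0)

def S_ZIG : Prop := ∀ (v : ℕ → ℝ) (η : ℝ) (s : ℕ), (η = 1 ∨ η = -1) →
  (∀ j, j + 1 ≤ s → 0 < η * (-1) ^ j * (v (j + 1) - v j)) →
  ((∀ j, j + 2 ≤ s → 0 < η * (-1) ^ j * (v (j + 2) - v j)) ∨
    ∀ j, j + 2 ≤ s → η * (-1) ^ j * (v (j + 2) - v j) < 0) →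
  ∃ c, ∀ j ≤ s, 0 < η * (-1) ^ j * (c - v j)

/-- Boundedly many changes of the turning direction. -/
def S_TCN : Prop := ∀ M : ℕ, ∃ C : ℕ, ∀ (lo hi : ℤ) (θ ρ x y : ℤ → ℝ), AC M lo hi θ ρ x y →
  cnt (lo + 1) (hi - 2) (fun k => (θ k - θ (k - 1)) * (θ (k + 1) - θ k) < 0) ≤ C

/-- Boundedly many half turns in a monotone run. -/
def S_SPI : Prop := ∀ M : ℕ, ∃ C : ℕ, ∀ (lo hi : ℤ) (θ ρ x y : ℤ → ℝ), AC M lo hi θ ρ x y →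
  ∀ (η : ℝ) (p q : ℤ), (η = 1 ∨ η = -1) → lo ≤ p → q < hi → Mono η θ p q →
  cnt (p + 1) q (fun k => Real.cos (θ (k - 1)) * Real.cos (θ k) < 0) ≤ C

def S_BRK : Prop := ∀ m : ℕ, ∃ C : ℕ, ∀ (n : ℕ) (Z x y : ℤ → ℝ), Core m n Z x y →
  win n (brk Z x y) ≤ C

def S_CUT : Prop := ∀ m : ℕ, ∃ C : ℕ, ∀ (n : ℕ) (Z x y : ℤ → ℝ), Core m n Z x y →
  win n (cut Z x y) ≤ C ∧ ∀ i, cut Z x y (i + n) ↔ cut Z x y i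

def val (x y : ℤ → ℝ) (η s : ℝ) : ℤ → ℝ := lin (-(η * s)) η x y

def Branch (Z x y : ℤ → ℝ) (p q : ℤ) : Prop :=
  p ≤ q ∧ brk Z x y (p - 1) ∧ brk Z x y q ∧ ∀ i, p ≤ i → i < q → ¬ brk Z x y i

def Free (Z x y : ℤ → ℝ) (s1 s2 : ℝ) : Prop := ∀ j, brk Z x y j → sl Z x y j ∉ Icc s1 s2

def UpB (Z x y : ℤ → ℝ) (η : ℝ) (p q : ℤ) (s : ℝ) : Prop :=
  jp Z (val x y η s) (p - 1) < 0 ∧ 0 < jp Z (val x y η s) q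

def Amin (x y : ℤ → ℝ) (η : ℝ) (p q : ℤ) (s : ℝ) (i : ℤ) : Prop :=
  p ≤ i ∧ i ≤ q ∧ ∀ k, p ≤ k → k ≤ q → val x y η s i ≤ val x y η s k

def S_ORD : Prop := ∀ (m n : ℕ) (Z x y : ℤ → ℝ), Core m n Z x y →
  (∀ c, ∃ p q, Branch Z x y p q ∧ p ≤ c ∧ c ≤ q) ∧
  (∀ (η s : ℝ) (p q c : ℤ), (η = 1 ∨ η = -1) → Branch Z x y p q → p ≤ c → c ≤ q →
    jp Z (val x y η s) (c - 1) < 0 → 0 < jp Z (val x y η s) c →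
    Amin x y η p q s c ∧ ∀ s1 s2, Free Z x y s1 s2 → s ∈ Icc s1 s2 → ∀ s' ∈ Icc s1 s2,
      UpB Z x y η p q s') ∧
  ∀ (η η' s1 s2 : ℝ) (p q p' q' : ℤ), (η = 1 ∨ η = -1) → (η' = 1 ∨ η' = -1) →
    Branch Z x y p q → Branch Z x y p' q' → ¬ (n : ℤ) ∣ p' - p → Free Z x y s1 s2 →
    (∀ s ∈ Icc s1 s2, UpB Z x y η p q s) → (∀ s ∈ Icc s1 s2, UpB Z x y η' p' q' s) →
    ∀ s ∈ Icc s1 s2, ∀ i j, Amin x y η p q s i → Amin x y η' p' q' s j →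
      val x y 1 s i ≠ val x y 1 s j ∧ ∀ s' ∈ Icc s1 s2, ∀ i' j', Amin x y η p q s' i' →
        Amin x y η' p' q' s' j' → val x y 1 s i < val x y 1 s j → val x y 1 s' i' < val x y 1 s' j'

/-- The edges `p` and `p'` lie on different monotone strands. -/
def DS (n : ℕ) (Z : ℤ → ℝ) (p p' : ℤ) : Prop :=
  ∀ k : ℤ, ∃ i, min p (p' + k * n) ≤ i ∧ i < max p (p' + k * n) ∧ Z i * Z (i + 1) < 0

def Sand (x y : ℤ → ℝ) (η s1 s2 : ℝ) (p q p' q' : ℤ) : Prop :=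
  ∀ j, p' ≤ j → j ≤ q' → (∀ i, p ≤ i → i ≤ q → val x y η s1 j ≤ val x y η s1 i) ∨
    ∀ i, p ≤ i → i ≤ q → val x y η s2 j ≤ val x y η s2 i

def S_SAND : Prop := ∀ (m n : ℕ) (Z x y : ℤ → ℝ), Core m n Z x y →
  ∀ (η s1 s2 : ℝ) (p q p' q' : ℤ), (η = 1 ∨ η = -1) → p < q → p' < q' →
  (∀ i, p ≤ i → i < q → ¬ brk Z x y i ∧ sl Z x y i ∈ Ioo s1 s2) →
  (∀ j, p' ≤ j → j < q' → ¬ brk Z x y j ∧ sl Z x y j ∈ Ioo s1 s2) →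
  DS n Z p p' → Free Z x y s1 s2 → 0 < η * jp Z x p * trn Z x y p →
  0 < η * jp Z x p' * trn Z x y p' → Sand x y η s1 s2 p q p' q' ∨ Sand x y η s1 s2 p' q' p q

/-- The open height range of edge `i` meets `J`. -/
def Meets (H : ℤ → ℝ) (i : ℤ) (J : Set ℝ) : Prop :=
  ∃ h ∈ J, min (H i) (H (i + 1)) < h ∧ h < max (H i) (H (i + 1))

def CvxJ (H φ : ℤ → ℝ) (p q p' q' : ℤ) (J : Set ℝ) : Prop :=
  (∀ i, p ≤ i → i < q → H (i + 1) ∈ J → 0 ≤ df H p * df φ i) ∧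
    ∀ j, p' ≤ j → j < q' → H (j + 1) ∈ J → df H p' * df φ j ≤ 0

def SepJ (H φ : ℤ → ℝ) (p q p' q' : ℤ) (J : Set ℝ) : Prop :=
  ∀ i j, p ≤ i → i ≤ q → p' ≤ j → j ≤ q' → Meets H i J → Meets H j J → φ j ≤ φ i

def PairJ (H x y : ℤ → ℝ) (p q p' q' : ℤ) : Prop :=
  ∃ l : ℝ, ∀ J : Set ℝ, J.OrdConnected → l ∉ J → ∃ a b : ℝ, (a ≠ 0 ∨ b ≠ 0) ∧
    (CvxJ H (lin a b x y) p q p' q' J ∨ SepJ H (lin a b x y) p q p' q' J)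

def S_PAIR : Prop := ∀ (m n : ℕ) (H x y : ℤ → ℝ), Core m n (df H) x y → ∀ p q p' q' : ℤ,
  p ≤ q → p' ≤ q' → (∀ i, p ≤ i → i < q → ¬ cut (df H) x y i) →
  (∀ j, p' ≤ j → j < q' → ¬ cut (df H) x y j) → DS n (df H) p p' → PairJ H x y p q p' q'

def S_PL : Prop := ∀ (X Y H : ℤ → ℝ) (p q p' q' : ℤ), p ≤ q → p' ≤ q' → (∀ i, df H i ≠ 0) →
  (∀ i, p ≤ i → i < q → 0 < df H i * df H (i + 1)) →
  (∀ j, p' ≤ j → j < q' → 0 < df H j * df H (j + 1)) →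
  PairJ H (fun i => df X i / df H i) (fun i => df Y i / df H i) p q p' q' →
  (∀ τ ∈ Ioo (p : ℝ) (q + 1), ∀ τ' ∈ Ioo (p' : ℝ) (q' + 1), pl H τ = pl H τ' → pl X τ = pl X τ' →
    pl Y τ = pl Y τ' → False) →
  ∃ Λ : Finset ℝ, Λ.card ≤ 5 ∧ ∀ J : Set ℝ, J.OrdConnected → (∀ l ∈ Λ, l ∉ J) → ∃ a b : ℝ,
    ∀ τ ∈ Ioo (p : ℝ) (q + 1), ∀ τ' ∈ Ioo (p' : ℝ) (q' + 1), pl H τ = pl H τ' → pl H τ ∈ J →
      a * pl X τ' + b * pl Y τ' < a * pl X τ + b * pl Y τ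

/-- Coordinate of the vertices. -/
noncomputable def co (P : Poly) (u : E) (i : ℤ) : ℝ := ⟪P.v i, u⟫

/-- Coordinate of the velocity (displacement per unit of height) of the edges. -/
noncomputable def vel (P : Poly) (u uz : E) (i : ℤ) : ℝ := df (co P u) i / df (co P uz) i

def Span3 (a b c : E) : Prop := ∀ v : E, ⟪v, a⟫ = 0 → ⟪v, b⟫ = 0 → ⟪v, c⟫ = 0 → v = 0

def S_LEV : Prop := ∀ c : ℕ, ∃ L : ℕ, ∀ (P : Poly) (ux uy uz : E) (C : ℤ → Prop),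
  Span3 ux uy uz → Gen P uz → (∀ i, C (i + P.n) ↔ C i) → win P.n C ≤ c →
  (∀ i, df (co P uz) i * df (co P uz) (i + 1) < 0 → C i) →
  (∀ p q p' q' : ℤ, p ≤ q → p' ≤ q' → (∀ i, p ≤ i → i < q → ¬ C i) →
    (∀ j, p' ≤ j → j < q' → ¬ C j) → DS P.n (df (co P uz)) p p' →
    PairJ (co P uz) (vel P ux uz) (vel P uy uz) p q p' q') →
  ∃ Λ : Finset ℝ, Λ.card ≤ L ∧ Ext P uz Λ ∧ Half P uz Λ

/-- Any three distinct edges are linearly independent. -/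
def GP3 (P : Poly) : Prop := ∀ (u : E) (i j k : ℤ), ¬ (P.n : ℤ) ∣ j - i → ¬ (P.n : ℤ) ∣ k - i →
  ¬ (P.n : ℤ) ∣ k - j → ⟪P.e i, u⟫ = 0 → ⟪P.e j, u⟫ = 0 → ⟪P.e k, u⟫ = 0 → u = 0

def S_GP : Prop := ∀ P : Poly, (∀ u : E, (∀ i, ⟪P.e i, u⟫ = 0) → u = 0) →
  ∃ Q : Poly, Iso P.carrier Q.carrier ∧ GP3 Q ∧ ∀ u, Q.nmax u ≤ P.nmax u

def S_COORD : Prop :=
  (∀ P : Poly, 5 ≤ P.n → GP3 P → ∃ ux uy uz : E, Span3 ux uy uz ∧ Gen P uz ∧ ∀ m : ℕ,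
    (∀ u, Gen P u → m ≤ P.nmax u ∧ P.nmax u ≤ m + 1) →
    Core m P.n (df (co P uz)) (vel P ux uz) (vel P uy uz)) ∧
  ∀ (P : Poly) (u : E), u ≠ 0 → (∀ i, ⟪P.e i, u⟫ = 0) → ∃ ux uz : E, Span3 ux u uz ∧ Gen P uz

/-- The geometric theorem. -/
def S_ACORE : Prop := ∀ m : ℕ, ∃ N : ℕ, ∀ P : Poly,
  (∀ Q : Poly, Iso P.carrier Q.carrier → ∀ u, Gen Q u → m ≤ Q.nmax u) →
  (∀ u, P.nmax u ≤ m + 1) → ∃ Q : Poly, Q.n ≤ N ∧ Iso P.carrier Q.carrier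

/-! ## Part T: local systems on knot complements -/

def S_EXT : Prop := ∀ (G : Type) [Group G] (ω : E → E → G) (U C : Set E), LocSys ω U →
  IsOpen C → Convex ℝ C → C ⊆ U → ∃ f, Dev ω C f

/-- Points whose ray in direction `d` misses `K`. -/
def Vf (K : Set E) (d : E) : Set E := {p | ∀ t : ℝ, 0 ≤ t → p + t • d ∉ K}

def S_FRONT : Prop := ∀ (G : Type) [Group G] (ω : E → E → G) (K : Set E) (d : E), IsCompact K →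
  d ≠ 0 → LocSys ω Kᶜ → IsOpen (Vf K d) ∧ ∃ f, Dev ω (Vf K d) f

def S_TUBE : Prop := ∀ (Q : Poly) (d x : E) (O : Set ℝ), IsOpen O →
  (∀ τ r : ℝ, Q.γ τ = x + r • d → ∃ k : ℤ, τ + k * Q.n ∈ O) →
  ∀ᶠ p in 𝓝 x, ∀ τ r : ℝ, Q.γ τ = p + r • d → ∃ k : ℤ, τ + k * Q.n ∈ O

/-- `S` is covered by finitely many lines. -/
def Lines (S : Set E) : Prop :=
  ∃ T : Finset (E × E), ∀ p ∈ S, ∃ t ∈ T, ∃ r : ℝ, p = t.1 + r • t.2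

def S_CONN : Prop := (∀ C S : Set E, IsOpen C → Convex ℝ C → Lines S →
  IsPreconnected (C \ S) ∧ C ⊆ closure (C \ S)) ∧ ∀ P : Poly, Lines P.carrier

def S_LINE : Prop := ∀ (G : Type) [Group G] (ω : E → E → G) (K : Set E) (x a b : E) (r : ℝ)
  (h k : E → G) (A A' : G), 0 < r → (∃ v, ⟪a, v⟫ = 1 ∧ ⟪b, v⟫ = 0) →
  (∃ w, ⟪a, w⟫ = 0 ∧ ⟪b, w⟫ = 1) →
  (∀ p ∈ Metric.ball x r, p ∈ K ↔ ⟪a, p - x⟫ = 0 ∧ ⟪b, p - x⟫ = 0) →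
  Dev ω {p | p ∈ Metric.ball x r ∧ (⟪a, p - x⟫ ≠ 0 ∨ 0 < ⟪b, p - x⟫)} h →
  Dev ω {p | p ∈ Metric.ball x r ∧ ⟪b, p - x⟫ < 0} k →
  (∀ p ∈ Metric.ball x r, ⟪b, p - x⟫ < 0 → 0 < ⟪a, p - x⟫ → h p = A * k p) →
  (∀ p ∈ Metric.ball x r, ⟪b, p - x⟫ < 0 → ⟪a, p - x⟫ < 0 → h p = A' * k p) →
  IsMer ω K x (A * A'⁻¹)

def S_DENSE : Prop := ∀ (G : Type) [Group G] (ω : E → E → G) (U D : Set E) (H : Subgroup G)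
  (τ : E → G), IsOpen U → U ⊆ closure D →
  (∀ x ∈ U, ∃ N f c, IsOpen N ∧ x ∈ N ∧ Dev ω N f ∧ ∀ p ∈ N ∩ D, τ p * (f p)⁻¹ * c⁻¹ ∈ H) →
  Red ω U H

def S_RRED : Prop := ∀ (G : Type) [Group G] (ω : E → E → G) (U B : Set E) (H : Subgroup G),
  IsOpen U → LocSys ω U → Lines B → Red ω (U \ B) H → Red ω U H

def S_REM : Prop := ∀ (G : Type) [Group G] (ω : E → E → G) (U S : Set E), IsOpen U →
  IsOpen (U \ S) → Lines S → LocSys ω (U \ S) →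
  (∀ x ∈ U ∩ S, ∃ N f, IsOpen N ∧ x ∈ N ∧ Dev ω (N \ S) f) →
  ∃ ω' : E → E → G, LocSys ω' U ∧ ∀ p, p ∉ S → ω' p = ω p

/-- Cross product. -/
def cr (a b : E) : E := pt (a 1 * b 2 - a 2 * b 1) (a 2 * b 0 - a 0 * b 2) (a 0 * b 1 - a 1 * b 0)

/-- Determinant of three vectors. -/
noncomputable def det3 (a b c : E) : ℝ := ⟪cr a b, c⟫

/-- The projection along `d` is a regular diagram. -/
def GDg (Q : Poly) (d : E) : Prop :=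
  (∀ i j k : ℤ, ¬ (Q.n : ℤ) ∣ j - i → ¬ (Q.n : ℤ) ∣ k - i → ¬ (Q.n : ℤ) ∣ k - j →
    det3 d (Q.v j - Q.v i) (Q.v k - Q.v i) ≠ 0) ∧
  ∀ τ1 τ2 τ3 r2 r3 : ℝ, Q.γ τ2 = Q.γ τ1 + r2 • d → Q.γ τ3 = Q.γ τ1 + r3 • d →
    Q.γ τ1 = Q.γ τ2 ∨ Q.γ τ1 = Q.γ τ3 ∨ Q.γ τ2 = Q.γ τ3

def S_GD : Prop := ∀ (P : Poly) (d : E), d ≠ 0 → ∀ δ > (0 : ℝ), ∃ Q : Poly, Q.n = P.n ∧
  Iso P.carrier Q.carrier ∧ GDg Q d ∧ ∀ i, ‖Q.v i - P.v i‖ ≤ δ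

def Reg (Q : Poly) (d : E) (τ : ℝ) : Prop :=
  (∀ i : ℤ, τ ≠ i) ∧ ∀ τ' r : ℝ, Q.γ τ' = Q.γ τ + r • d → Q.γ τ' = Q.γ τ

def Side {G : Type} (Q : Poly) (d : E) (g : E → G) (τ ε : ℝ) (a : G) : Prop :=
  ∀ᶠ p in 𝓝 (Q.γ τ), 0 < ε * det3 d (Q.e ⌊τ⌋) (p - Q.γ τ) → g p = a

def Mer {G : Type} [Group G] (Q : Poly) (d : E) (fp fm : E → G) (τ : ℝ) (m : G) : Prop :=
  Reg Q d τ ∧ ∃ a b, Side Q d (fun p => fp p * (fm p)⁻¹) τ 1 a ∧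
    Side Q d (fun p => fp p * (fm p)⁻¹) τ (-1) b ∧ m = a * b⁻¹

structure WC {G : Type} [Group G] (ω : E → E → G) (Q : Poly) (d : E) (fp fm : E → G) : Prop where
  gd : GDg Q d
  ls : LocSys ω Q.carrierᶜ
  op : IsOpen (Vf Q.carrier d)
  om : IsOpen (Vf Q.carrier (-d))
  dp : Dev ω (Vf Q.carrier d) fp
  dm : Dev ω (Vf Q.carrier (-d)) fm

def S_W1 : Prop := ∀ (G : Type) [Group G] (ω : E → E → G) (Q : Poly) (d : E) (fp fm : E → G),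
  WC ω Q d fp fm → ∀ τ, Reg Q d τ →
  ∃ m, (∀ᶠ τ' in 𝓝 τ, Mer Q d fp fm τ' m) ∧ IsMer ω Q.carrier (Q.γ τ) m

def S_W2 : Prop := ∀ (G : Type) [Group G] (ω : E → E → G) (Q : Poly) (d : E) (fp fm : E → G),
  WC ω Q d fp fm → ∀ i : ℤ, ∃ m, ∀ᶠ τ' in 𝓝[≠] (i : ℝ), Mer Q d fp fm τ' m

def S_W3 : Prop := ∀ (G : Type) [Group G] (ω : E → E → G) (Q : Poly) (d : E) (fp fm : E → G),
  WC ω Q d fp fm → ∀ τ0 τ1 r : ℝ, 0 < r → Q.γ τ1 = Q.γ τ0 + r • d →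
  (∀ i : ℤ, τ0 ≠ i) ∧ (∀ i : ℤ, τ1 ≠ i) ∧ ∃ o a a' : G, (∀ᶠ τ in 𝓝[≠] τ1, Mer Q d fp fm τ o) ∧
    (∀ᶠ τ in 𝓝[<] τ0, Mer Q d fp fm τ a) ∧ (∀ᶠ τ in 𝓝[>] τ0, Mer Q d fp fm τ a') ∧
    (a' = o * a * o⁻¹ ∨ a' = o⁻¹ * a * o)

/-- Parameters of the crossings in one period. -/
def Xs (Q : Poly) (d : E) : Set ℝ :=
  {τ | 0 ≤ τ ∧ τ < Q.n ∧ ∃ τ' r : ℝ, r ≠ 0 ∧ Q.γ τ' = Q.γ τ + r • d}

def S_W5 : Prop := ∀ (Q : Poly) (d : E), GDg Q d →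
  d ≠ 0 ∧ (∀ i, cr d (Q.e i) ≠ 0) ∧ (Xs Q d).Finite ∧ (Xs Q d).ncard ≤ Q.n ^ 2

def S_W4 : Prop := ∀ (G : Type) [Group G] (ω : E → E → G) (Q : Poly) (d : E) (fp fm : E → G),
  WC ω Q d fp fm → ∀ H : Subgroup G, (∀ τ m, Mer Q d fp fm τ m → m ∈ H) → Red ω Q.carrierᶜ H

/-- Wirtinger data: `μ τ` is the meridian element at the parameter `τ`. -/
structure Wirt {G : Type} [Group G] (Q : Poly) (d : E) (ω : E → E → G) (μ : ℝ → G) (X : Set ℝ) :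
    Prop where
  fin : X.Finite
  card : X.ncard ≤ Q.n ^ 2
  per : ∀ (τ : ℝ) (k : ℤ), μ (τ + k * Q.n) = μ τ
  rc : ∀ τ, ∀ᶠ τ' in 𝓝[>] τ, μ τ' = μ τ
  step : ∀ τ, ∃ a, (∀ᶠ τ' in 𝓝[<] τ, μ τ' = a) ∧ (μ τ = a ∨ ((∃ k : ℤ, τ + k * Q.n ∈ X) ∧
    (∀ i : ℤ, τ ≠ i) ∧ ∃ τ1 r : ℝ, Q.γ τ1 = Q.γ τ + r • d ∧ (∀ i : ℤ, τ1 ≠ i) ∧
      (∀ᶠ τ' in 𝓝 τ1, μ τ' = μ τ1) ∧ (μ τ = μ τ1 * a * (μ τ1)⁻¹ ∨ μ τ = (μ τ1)⁻¹ * a * μ τ1)))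
  mer : ∀ τ : ℝ, (∀ i : ℤ, τ ≠ i) → (∀ k : ℤ, τ + k * Q.n ∉ X) → IsMer ω Q.carrier (Q.γ τ) (μ τ)
  red : Red ω Q.carrierᶜ (Subgroup.closure (range μ))

def S_WIRT : Prop := ∀ (G : Type) [Group G] (ω : E → E → G) (Q : Poly) (d : E), GDg Q d →
  LocSys ω Q.carrierᶜ → ∃ μ X, Wirt Q d ω μ X

def S_MAXG : Prop := ∀ (G : Type) [Group G] (ω : E → E → G) (Q : Poly) (d u : E) (μ : ℝ → G)
  (X : Set ℝ), Wirt Q d ω μ X → (∀ τ τ', IsConj (μ τ) (μ τ')) ∧ (Gen Q u → ⟪d, u⟫ = 0 →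
    ∀ H : Subgroup G, (∀ i : ℤ, 0 < ⟪Q.e i, u⟫ → ⟪Q.e (i + 1), u⟫ < 0 → μ (i + 1) ∈ H) →
      ∀ τ, μ τ ∈ H)

def S_DALG : Prop := ∀ L : ℕ, ∃ C : ℕ, ∀ m : ℕ, Odd m → ∀ c : ℕ → ZMod m,
  (∀ k < L, c (k + 1) = c k ∨ ∃ j ≤ L, c (k + 1) = 2 * c j - c k) →
  (∀ A : AddSubgroup (ZMod m), (∀ k ≤ L, c k - c 0 ∈ A) → A = ⊤) → m ≤ C

def S_DET : Prop := ∀ N : ℕ, ∃ C : ℕ, ∀ (m : ℕ) (Q : Poly) (d : E) (ω : E → E → DihedralGroup m)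
  (μ : ℝ → DihedralGroup m) (X : Set ℝ), Odd m → Q.n ≤ N → Wirt Q d ω μ X →
  Subgroup.closure (range μ) = ⊤ → (∀ τ, ∃ i, μ τ = DihedralGroup.sr i) → m ≤ C

def S_GRP : Prop :=
  (∀ (G : Type) [Group G] (t1 t2 : G), t1 * t1 = 1 → t2 * t2 = 1 →
    ∀ g ∈ Subgroup.closure {t1, t2}, ∀ h ∈ Subgroup.closure {t1, t2}, Commute (g * g) (h * h)) ∧
  (∀ m1 m2 : ℕ, Odd m1 → Odd m2 → 3 ≤ m1 → 3 ≤ m2 → ∀ (i1 : ZMod m1) (i2 : ZMod m2),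
    ∃ (φ1 : DihedralGroup m1 →* Equiv.Perm (ZMod m1 × ZMod m2))
      (φ2 : DihedralGroup m2 →* Equiv.Perm (ZMod m1 × ZMod m2)),
      φ1 (.sr i1) = φ2 (.sr i2) ∧ ¬ Commute (φ1 (.r 1) * φ1 (.r 1)) (φ2 (.r 1) * φ2 (.r 1))) ∧
  (∀ (m1 m2 : ℕ) (i1 : ZMod m1) (i2 : ZMod m2),
    ∃ φ : DihedralGroup m2 →* DihedralGroup m1, φ (.sr i2) = .sr i1) ∧
  (∀ (m : ℕ) (A : Set (DihedralGroup m)), Subgroup.closure A = ⊤ →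
    (∀ a ∈ A, ∀ b ∈ A, IsConj a b) → ∀ a ∈ A, ∃ i, a = .sr i) ∧
  ∀ (m : ℕ) (i : ZMod m) (a g h : DihedralGroup m), g * a * g⁻¹ ∈ Subgroup.zpowers (.sr i) →
    h * .sr i * h⁻¹ ∈ Subgroup.zpowers a → ∃ j, a = .sr j

def S_BR3 : Prop := ∀ (G : Type) [Group G] (ω : E → E → G) (K : Set E), LocSys ω Kᶜ → Loc2 ω K →
  (∀ H, Red ω Kᶜ H → ∃ g ∈ H, ∃ h ∈ H, ¬ Commute (g * g) (h * h)) →
  ∀ (Q : Poly) (u : E), Iso K Q.carrier → Gen Q u → 3 ≤ Q.nmax u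

def S_DETB : Prop := ∀ N : ℕ, ∃ C : ℕ, ∀ (m : ℕ) (K : Set E) (Q : Poly)
  (ω : E → E → DihedralGroup m), Odd m → Q.n ≤ N → Iso K Q.carrier → LocSys ω Kᶜ →
  (∀ H, Red ω Kᶜ H → H = ⊤) → m ≤ C

def S_REFL : Prop := ∀ (m : ℕ) (P : Poly) (ω : E → E → DihedralGroup m), LocSys ω P.carrierᶜ →
  (∀ H, Red ω P.carrierᶜ H → H = ⊤) →
  ∃ X : Set E, X.Finite ∧ ∀ x ∈ P.carrier, x ∉ X → ∃ i, IsMer ω P.carrier x (.sr i)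

/-- One side of a connected sum. `ε = 1`: the knot lies in `p 0 ≤ 0`. -/
def S_SIDE : Prop := ∀ (G : Type) [Group G] (ω : E → E → G) (K : Set E) (a b ν : E) (ε : ℝ),
  (ε = 1 ∨ ε = -1) → IsCompact K → a ≠ b → (∀ p ∈ K, ε * p 0 ≤ 0) →
  K ∩ {p | p 0 = 0} = segment ℝ a b →
  (∀ c ∈ openSegment ℝ a b, ∀ᶠ p in 𝓝 c, p ∈ K → p ∈ segment ℝ a b) →
  ν ≠ 0 → ν 0 = 0 → ⟪ν, b - a⟫ = 0 → LocSys ω Kᶜ → Full ω Kᶜ →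
  ∃ (h : E → G) (m : G), IsOpen (Vf K (pt ε 0 0)) ∧ Dev ω (Vf K (pt ε 0 0)) h ∧
    (∀ c ∈ openSegment ℝ a b, IsMer ω K c m ∧ ∃ r > (0 : ℝ), ∃ k : E → G,
      (∀ p ∈ Metric.ball c r, ⟪ν, p - a⟫ ≠ 0 → p ∈ Vf K (pt ε 0 0)) ∧
      Dev ω {p | p ∈ Metric.ball c r ∧ ε * p 0 < 0} k ∧
      (∀ p ∈ Metric.ball c r, ε * p 0 < 0 → 0 < ⟪ν, p - a⟫ → k p = h p) ∧
      ∀ p ∈ Metric.ball c r, ε * p 0 < 0 → ⟪ν, p - a⟫ < 0 → k p = m * h p) ∧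
    ∀ p ∈ Vf K (pt ε 0 0), ε * p 0 < 0 → FullAt ω ({p | ε * p 0 < 0} \ K) p

def S_CS : Prop := ∀ (G1 G2 : Type) [Group G1] [Group G2] (ω1 : E → E → G1) (ω2 : E → E → G2)
  (K1 K2 : Set E) (a b : E), IsCompact K1 → IsCompact K2 → a ≠ b → (∀ p ∈ K1, p 0 ≤ 0) →
  (∀ p ∈ K2, 0 ≤ p 0) → K1 ∩ {p | p 0 = 0} = segment ℝ a b → K2 ∩ {p | p 0 = 0} = segment ℝ a b →
  IsClosed ((K1 ∪ K2) \ openSegment ℝ a b) → LocSys ω1 K1ᶜ → LocSys ω2 K2ᶜ → Full ω1 K1ᶜ →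
  Full ω2 K2ᶜ → ∃ (m1 : G1) (m2 : G2),
    (∀ c ∈ openSegment ℝ a b, IsMer ω1 K1 c m1 ∧ IsMer ω2 K2 c m2) ∧
    ∀ (G : Type) [Group G] (φ1 : G1 →* G) (φ2 : G2 →* G), φ1 m1 = φ2 m2 →
      ∃ ω : E → E → G, LocSys ω ((K1 ∪ K2) \ openSegment ℝ a b)ᶜ ∧
        (∀ H, Red ω ((K1 ∪ K2) \ openSegment ℝ a b)ᶜ H →
          ∃ g, (∀ d, g * φ1 d * g⁻¹ ∈ H) ∧ ∀ d, g * φ2 d * g⁻¹ ∈ H) ∧
        (∀ p p' : E, p 0 < 0 → ω p p' = φ1 (ω1 p p')) ∧ ∀ p p' : E, 0 < p 0 → ω p p' = φ2 (ω2 p p')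

def S_COVER : Prop := ∀ (G : Type) [Group G] [Finite G] (W : Type) [TopologicalSpace W] [T2Space W]
  (act : G → W → W) (Fib : E → W → Prop) (U : Set E), IsOpen U → IsPreconnected U →
  (∀ w, act 1 w = w) → (∀ g h w, act (g * h) w = act g (act h w)) → (∀ g, Continuous (act g)) →
  (∀ p ∈ U, ∀ w w', Fib p w → (Fib p w' ↔ ∃ g, w' = act g w)) →
  (∀ p ∈ U, ∀ w g, Fib p w → act g w = w → g = 1) →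
  (∀ x ∈ U, ∃ s : E → W, ∀ᶠ p in 𝓝 x, ContinuousAt s p ∧ Fib p (s p)) →
  ∀ A : Set G, (∀ a ∈ A, ∃ (c : ℝ → E) (w : ℝ → W), Continuous c ∧ Continuous w ∧
    (∀ t, c t ∈ U ∧ Fib (c t) (w t)) ∧ c 1 = c 0 ∧ w 1 = act a (w 0)) →
  (∀ H : Subgroup G, (∀ a ∈ A, ∃ g, g * a * g⁻¹ ∈ H) → H = ⊤) →
  ∃ ω : E → E → G, LocSys ω U ∧ Full ω U

def S_T1 : Prop := ∀ q : ℤ, Odd q → IsOpen (torus2 q)ᶜ → IsPreconnected (torus2 q)ᶜ →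
  ∃ ω : E → E → DihedralGroup q.natAbs, LocSys ω (torus2 q)ᶜ ∧ Full ω (torus2 q)ᶜ

/-- A family of conformations of `T(2, q)`, standard for `s = 1`, thin for small `s`. -/
noncomputable def tor (q : ℤ) (s t : ℝ) : E :=
  pt ((2 + s * Real.cos (q * t)) * Real.cos (2 * t)) ((2 + s * Real.cos (q * t)) * Real.sin (2 * t))
    (s * Real.sin (q * t) + (1 - s) * Real.cos (4 * t))

noncomputable def tor' (q : ℤ) (s t : ℝ) : E :=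
  pt (-(s * q * Real.sin (q * t)) * Real.cos (2 * t) - 2 * (2 + s * Real.cos (q * t)) * Real.sin (2 * t))
    (-(s * q * Real.sin (q * t)) * Real.sin (2 * t) + 2 * (2 + s * Real.cos (q * t)) * Real.cos (2 * t))
    (s * q * Real.cos (q * t) - 4 * (1 - s) * Real.sin (4 * t))

def S_T3 : Prop := ∀ (q : ℤ) (s : ℝ), Odd q → 0 < s → s ≤ 1 →
  Function.Periodic (tor q s) (2 * Real.pi) ∧ InjMod (tor q s) (2 * Real.pi) ∧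
  (∀ t, HasDerivAt (tor q s) (tor' q s t) t) ∧ Continuous (tor' q s) ∧ (∀ t, tor' q s t ≠ 0) ∧
  Iso (torus2 q) (range (tor q s))

def S_T4P : Prop := ∀ q : ℤ, ∃ s : ℝ, 0 < s ∧ s ≤ 1 ∧ ∀ u : E, ‖u‖ = 1 → ∀ (t0 : ℝ) (S : Finset ℝ),
  (∀ t ∈ S, t0 ≤ t ∧ t < t0 + 2 * Real.pi ∧ ⟪tor' q s t, u⟫ = 0) → S.card ≤ 8

def S_T4 : Prop := ∀ q : ℤ, Odd q →
  ∃ Q : Poly, Iso (torus2 q) Q.carrier ∧ ∀ u : E, ‖u‖ = 1 → Q.nmax u ≤ 4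

def S_F0 : Prop := ∀ (G : Type) [Group G] (U : Set E) (p : U) (ρ : FundamentalGroup U p →* G),
  IsOpen U → IsPreconnected U → Function.Surjective ρ → ∃ ω : E → E → G, LocSys ω U ∧ Full ω U

end Pool.Agent.P.MP_28369d_gt.SB
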