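import Pool.Agent.P.MP_28369d_gt.SB.Tools

/-!
Interface, second part: finitely many knot types with a bounded number of edges.
-/

namespace Pool.Agent.P.MP_28369d_gt.SB

open Set Filter Topology
open scoped RealInnerProductSpace

/-- Every edge joins two consecutive levels and two edges between the same levels do not exchange
the order of their first coordinates. -/
def Lvl (Q : Poly) : Prop :=
  (∀ i, Q.v (i + 1) 2 ≠ Q.v i 2) ∧
  (∀ i j, ¬ (min (Q.v i 2) (Q.v (i + 1) 2) < Q.v j 2 ∧ Q.v j 2 < max (Q.v i 2) (Q.v (i + 1) 2))) ∧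
  ∀ i i' j j' : ℤ, (i' = i + 1 ∨ i' = i - 1) → (j' = j + 1 ∨ j' = j - 1) → Q.v i 2 = Q.v j 2 →
    Q.v i' 2 = Q.v j' 2 → 0 ≤ (Q.v i 0 - Q.v j 0) * (Q.v i' 0 - Q.v j' 0)

def S_SUB : Prop := ∀ N : ℕ, ∃ N' : ℕ, ∀ P : Poly, P.n ≤ N →
  ∃ Q : Poly, Q.n ≤ N' ∧ Iso P.carrier Q.carrier ∧ Lvl Q

def S_GRID : Prop := ∀ N : ℕ, ∃ S : Set Poly, S.Finite ∧ ∀ Q : Poly, Q.n ≤ N → Lvl Q →
  ∃ R ∈ S, Iso Q.carrier R.carrier

end Pool.Agent.P.MP_28369d_gt.SB
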