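import Pool.Agent.P.MP_28369d_gt.SB.Count

/-!
Local systems on open subsets of space, given by germs of transition functions; proved toolbox.
-/

namespace Pool.Agent.P.MP_28369d_gt.SB

open Set Filter Topology
open scoped RealInnerProductSpace

variable {G G' : Type} [Group G] [Group G']

/-- `f` is a development (flat section) of `ω` on `U`. -/
def Dev (ω : E → E → G) (U : Set E) (f : E → G) : Prop :=
  ∀ p ∈ U, ∀ᶠ p' in 𝓝 p, f p' = f p * ω p p'

/-- `ω` has local developments near every point of `U`. -/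
def LocSys (ω : E → E → G) (U : Set E) : Prop :=
  ∀ x ∈ U, ∃ N, IsOpen N ∧ x ∈ N ∧ ∃ f, Dev ω N f

/-- The structure group of `ω` on `U` reduces to `H`. -/
def Red (ω : E → E → G) (U : Set E) (H : Subgroup G) : Prop :=
  ∃ τ : E → G, ∀ p ∈ U, ∀ᶠ p' in 𝓝 p, τ p * ω p p' * (τ p')⁻¹ ∈ H

/-- `S` is an open and closed subset of the covering space. -/
def Inv (ω : E → E → G) (U : Set E) (S : E → G → Prop) : Prop :=
  ∀ p ∈ U, ∀ᶠ p' in 𝓝 p, ∀ g, S p g ↔ S p' (g * ω p p')

/-- The monodromy at `p` is the whole group. -/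
def FullAt (ω : E → E → G) (U : Set E) (p : E) : Prop :=
  ∀ S, Inv ω U S → ∀ g g', S p g → S p g'

def Full (ω : E → E → G) (U : Set E) : Prop := ∀ p ∈ U, FullAt ω U p

/-- The local monodromy around `K` at `x` is generated by a conjugate of `m`. -/
def IsMer (ω : E → E → G) (K : Set E) (x : E) (m : G) : Prop :=
  (∃ N ∈ 𝓝 x, Red ω (N \ K) (Subgroup.zpowers m)) ∧
    ∀ N ∈ 𝓝 x, ∀ H, Red ω (N \ K) H → ∃ g, g * m * g⁻¹ ∈ H

/-- At all but finitely many points of `K` the local monodromy has order at most two. -/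
def Loc2 (ω : E → E → G) (K : Set E) : Prop :=
  ∃ X : Set E, X.Finite ∧ ∀ x ∈ K, x ∉ X →
    ∃ N ∈ 𝓝 x, ∃ t : G, t * t = 1 ∧ Red ω (N \ K) (Subgroup.zpowers t)

/-- Transport along a homeomorphism. -/
def push (h : E ≃ₜ E) (ω : E → E → G) : E → E → G := fun p p' => ω (h.symm p) (h.symm p')

/-- A locally constant function is constant on a preconnected set. -/
theorem const_of_ev {X α : Type} [TopologicalSpace X] {S : Set X} (hS : IsPreconnected S)
    {F : X → α} (h : ∀ p ∈ S, ∀ᶠ p' in 𝓝[S] p, F p' = F p) {p q : X} (hp : p ∈ S) (hq : q ∈ S) :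
    F p = F q := by
  refine hS.induction₂' (fun a b => F a = F b) (fun x hx => ?_) (fun _ _ _ _ _ _ a b => a.trans b) hp hq
  filter_upwards [h x hx] with y hy using ⟨hy.symm, hy⟩

theorem const_of_ev' {X α : Type} [TopologicalSpace X] {S : Set X} (hS : IsPreconnected S)
    {F : X → α} (h : ∀ p ∈ S, ∀ᶠ p' in 𝓝 p, F p' = F p) {p q : X} (hp : p ∈ S) (hq : q ∈ S) :
    F p = F q := const_of_ev hS (fun x hx => (h x hx).filter_mono nhdsWithin_le_nhds) hp hq

variable {ω : E → E → G} {U V S K : Set E} {f g : E → G} {H : Subgroup G}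

theorem Dev.mono (h : Dev ω U f) (hV : V ⊆ U) : Dev ω V f := fun p hp => h p (hV hp)

theorem Dev.mul_left (h : Dev ω U f) (c : G) : Dev ω U fun p => c * f p := fun p hp => by
  filter_upwards [h p hp] with p' hp'; rw [hp', mul_assoc]

theorem Dev.map (h : Dev ω U f) (φ : G →* G') :
    Dev (fun p p' => φ (ω p p')) U fun p => φ (f p) := fun p hp => by
  filter_upwards [h p hp] with p' hp'; rw [hp', map_mul]

/-- A function that agrees locally with a development is a development. -/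
theorem Dev.of_local (h : ∀ p ∈ U, ∃ g V, p ∈ V ∧ Dev ω V g ∧ ∃ c, ∀ᶠ p' in 𝓝 p, f p' = c * g p') :
    Dev ω U f := fun p hp => by
  obtain ⟨g, V, h1, h2, c, h3⟩ := h p hp
  filter_upwards [h2 p h1, h3] with p' a b
  rw [b, a, h3.self_of_nhds, mul_assoc]

theorem Dev.ev_ratio (hf : Dev ω U f) (hg : Dev ω V g) {p : E} (hp : p ∈ U) (hp' : p ∈ V) :
    ∀ᶠ p' in 𝓝 p, f p' * (g p')⁻¹ = f p * (g p)⁻¹ := by
  filter_upwards [hf p hp, hg p hp'] with p' a b
  rw [a, b]; group

theorem Dev.ratio (hf : Dev ω S f) (hg : Dev ω S g) (hS : IsPreconnected S) {p q : E} (hp : p ∈ S)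
    (hq : q ∈ S) : f p * (g p)⁻¹ = f q * (g q)⁻¹ :=
  const_of_ev' (F := fun p => f p * (g p)⁻¹) hS (fun _ hx => hf.ev_ratio hg hx hx) hp hq

/-- Two developments on a preconnected set differ by a constant. -/
theorem Dev.exists_const (hf : Dev ω S f) (hg : Dev ω S g) (hS : IsPreconnected S) :
    ∃ c, ∀ p ∈ S, f p = c * g p := by
  rcases S.eq_empty_or_nonempty with h | ⟨q, hq⟩
  · exact ⟨1, by simp [h]⟩
  · exact ⟨f q * (g q)⁻¹, fun p hp => by rw [← hf.ratio hg hS hp hq]; group⟩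

theorem Dev.eq_on (hf : Dev ω S f) (hg : Dev ω S g) (hS : IsPreconnected S) {q : E} (hq : q ∈ S)
    (h : f q = g q) : ∀ p ∈ S, f p = g p := fun p hp => by
  have := hf.ratio hg hS hp hq
  rwa [h, mul_inv_cancel, mul_inv_eq_one] at this

theorem LocSys.mono (h : LocSys ω U) (hV : V ⊆ U) : LocSys ω V := fun p hp => h p (hV hp)

theorem LocSys.map (h : LocSys ω U) (φ : G →* G') : LocSys (fun p p' => φ (ω p p')) U :=
  fun p hp => by
    obtain ⟨N, h1, h2, f, h3⟩ := h p hp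
    exact ⟨N, h1, h2, _, h3.map φ⟩

theorem Red.mono (h : Red ω U H) (hV : V ⊆ U) : Red ω V H :=
  h.imp fun _ h p hp => h p (hV hp)

theorem Red.le {H' : Subgroup G} (h : Red ω U H) (hH : H ≤ H') : Red ω U H' :=
  h.imp fun _ h p hp => (h p hp).mono fun _ a => hH a

theorem Red.map (h : Red ω U H) (φ : G →* G') : Red (fun p p' => φ (ω p p')) U (H.map φ) := by
  obtain ⟨τ, h⟩ := h
  exact ⟨fun p => φ (τ p), fun p hp => (h p hp).mono fun p' a => ⟨_, a, by simp⟩⟩

/-- Only the germs of `ω p` at `p` matter. -/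
theorem Red.congr {ω' : E → E → G} (h : Red ω U H)
    (he : ∀ p ∈ U, ∀ᶠ p' in 𝓝 p, ω' p p' = ω p p') : Red ω' U H :=
  h.imp fun _ h p hp => by
    filter_upwards [h p hp, he p hp] with p' a b; rwa [b]

theorem Dev.congr {ω' : E → E → G} (h : Dev ω U f)
    (he : ∀ p ∈ U, ∀ᶠ p' in 𝓝 p, ω' p p' = ω p p') : Dev ω' U f := fun p hp => by
  filter_upwards [h p hp, he p hp] with p' a b; rwa [b]

/-- A reducing gauge and a development on a preconnected set define a constant coset. -/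
theorem red_coset {τ : E → G} (h : ∀ p ∈ S, ∀ᶠ p' in 𝓝 p, τ p * ω p p' * (τ p')⁻¹ ∈ H)
    (hf : Dev ω S f) (hS : IsPreconnected S) {p q : E} (hp : p ∈ S) (hq : q ∈ S) :
    τ p * (f p)⁻¹ * (τ q * (f q)⁻¹)⁻¹ ∈ H := by
  have := const_of_ev' (F := fun x => τ x * (f x)⁻¹ * (τ q * (f q)⁻¹)⁻¹ ∈ H) hS (fun x hx => ?_) hp hq
  · simp only [mul_inv_cancel, one_mem, eq_iff_iff, iff_true] at this; exact this
  · filter_upwards [h x hx, hf x hx] with y a b
    rw [eq_iff_iff, ← H.mul_mem_cancel_left a, b]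
    refine iff_of_eq (congrArg (· ∈ H) ?_); group

theorem Inv.mono {S : E → G → Prop} (h : Inv ω U S) (hV : V ⊆ U) : Inv ω V S :=
  fun p hp => h p (hV hp)

theorem Inv.dev {T : E → G → Prop} (h : Inv ω S T) (hf : Dev ω S f) (hS : IsPreconnected S)
    {p q : E} (hp : p ∈ S) (hq : q ∈ S) (c : G) : T p (c * f p) ↔ T q (c * f q) := by
  refine iff_of_eq (const_of_ev' (F := fun x => T x (c * f x)) hS (fun x hx => ?_) hp hq)
  filter_upwards [h x hx, hf x hx] with y a b
  rw [b, eq_iff_iff, a, mul_assoc]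

theorem FullAt.red {p : E} (h : FullAt ω U p) (hr : Red ω U H) : H = ⊤ := by
  obtain ⟨τ, hτ⟩ := hr
  have := h (fun x g => g * (τ x)⁻¹ ∈ H) (fun x hx => ?_) (τ p)
  · rw [eq_top_iff]; intro g _
    simpa using this (g * τ p) (by simp)
  · filter_upwards [hτ x hx] with y a g
    rw [← H.mul_mem_cancel_right a]
    refine iff_of_eq (congrArg (· ∈ H) ?_); group

theorem FullAt.full {p : E} (h : FullAt ω U p) (hp : p ∈ U) (hU : IsPreconnected U) : Full ω U := by
  intro q hq S hS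
  have := const_of_ev' (F := fun x => ∀ g g', S x g → S x g') hU (fun x hx => ?_) hp hq
  · exact (iff_of_eq this).1 (h S hS)
  · filter_upwards [hS x hx] with y a
    rw [eq_iff_iff]
    constructor
    · intro b g g' c; rw [a] at c ⊢; exact b _ _ c
    · intro b g g' c
      have := (a (g' * (ω x y)⁻¹)).1 (b (g * (ω x y)⁻¹) _ ((a _).2 (by simpa using c)))
      simpa using this

/-! ### transport -/

theorem ev_push (h : E ≃ₜ E) {p : E} {A : E → Prop} (H : ∀ᶠ p' in 𝓝 (h.symm p), A p') :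
    ∀ᶠ p' in 𝓝 p, A (h.symm p') := h.symm.continuous.continuousAt.eventually H

theorem mem_push (h : E ≃ₜ E) {p : E} : p ∈ h '' U ↔ h.symm p ∈ U :=
  ⟨by rintro ⟨q, hq, rfl⟩; simpa using hq, fun a => ⟨_, a, by simp⟩⟩

theorem compl_push (h : E ≃ₜ E) (K : Set E) : (h '' K)ᶜ = h '' Kᶜ := (h.image_compl K).symm

theorem push_symm (h : E ≃ₜ E) (ω : E → E → G) : push h.symm (push h ω) = ω := by
  funext p p'; simp [push]

theorem Dev.push (hf : Dev ω U f) (h : E ≃ₜ E) : Dev (push h ω) (h '' U) fun p => f (h.symm p) :=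
  fun p hp => ev_push h (hf _ ((mem_push h).1 hp))

theorem LocSys.push (hω : LocSys ω U) (h : E ≃ₜ E) : LocSys (push h ω) (h '' U) := by
  intro x hx
  obtain ⟨N, h1, h2, f, h3⟩ := hω _ ((mem_push h).1 hx)
  exact ⟨h '' N, h.isOpenMap _ h1, (mem_push h).2 h2, _, h3.push h⟩

theorem Red.push (hr : Red ω U H) (h : E ≃ₜ E) : Red (push h ω) (h '' U) H := by
  obtain ⟨τ, hτ⟩ := hr
  exact ⟨fun p => τ (h.symm p), fun p hp => ev_push h (hτ _ ((mem_push h).1 hp))⟩

theorem Red.of_push (h : E ≃ₜ E) (hr : Red (SB.push h ω) (h '' U) H) : Red ω U H := by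
  have := hr.push h.symm
  rwa [push_symm, ← image_comp, h.symm_comp_self, image_id] at this

theorem FullAt.push {p : E} (hf : FullAt ω U p) (h : E ≃ₜ E) :
    FullAt (push h ω) (h '' U) (h p) := by
  intro S hS
  refine hf (fun x g => S (h x) g) fun x hx => ?_
  have := h.continuous.continuousAt.eventually (hS (h x) ⟨x, hx, rfl⟩)
  simpa [SB.push] using this

theorem Full.push (hf : Full ω U) (h : E ≃ₜ E) : Full (push h ω) (h '' U) := by
  rintro _ ⟨p, hp, rfl⟩; exact (hf p hp).push h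

theorem IsMer.push {x : E} {m : G} (hm : IsMer ω K x m) (h : E ≃ₜ E) :
    IsMer (push h ω) (h '' K) (h x) m := by
  obtain ⟨⟨N, h1, h2⟩, h3⟩ := hm
  refine ⟨⟨h '' N, h.isOpenMap.image_mem_nhds h1, ?_⟩, fun N hN H hH => ?_⟩
  · rw [← image_sdiff h.injective]; exact h2.push h
  · refine h3 (h ⁻¹' N) (h.continuous.continuousAt.preimage_mem_nhds hN) H (Red.of_push h ?_)
    rwa [image_sdiff h.injective, h.image_preimage]

theorem Loc2.push (hm : Loc2 ω K) (h : E ≃ₜ E) : Loc2 (push h ω) (h '' K) := by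
  obtain ⟨X, h1, h2⟩ := hm
  refine ⟨h '' X, h1.image _, ?_⟩
  rintro _ ⟨x, hx, rfl⟩ hX
  obtain ⟨N, a, t, b, c⟩ := h2 x hx fun hc => hX ⟨x, hc, rfl⟩
  refine ⟨h '' N, h.isOpenMap.image_mem_nhds a, t, b, ?_⟩
  rw [← image_sdiff h.injective]; exact c.push h

/-- Two meridian elements at the same point generate conjugate subgroups. -/
theorem IsMer.conj {x : E} {m m' : G} (h : IsMer ω K x m) (h' : IsMer ω K x m') :
    ∃ g, g * m' * g⁻¹ ∈ Subgroup.zpowers m := by
  obtain ⟨N, h1, h2⟩ := h.1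
  exact h'.2 N h1 _ h2

end Pool.Agent.P.MP_28369d_gt.SB
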