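import Pool.Agent.P.MP_28369d_gt.SB.Tools

/-!
Lifted edge angles of a monotone strand.
-/

namespace Pool.Agent.P.MP_28369d_gt.SB

open Set Filter Topology
open scoped RealInnerProductSpace

namespace ANGx

theorem lift (ζ : ℤ → ℂ) (hζ : ∀ k, ζ k ≠ 0) (lo : ℤ) : ∃ θ : ℤ → ℝ, ∀ k, lo ≤ k →
    ζ k = ‖ζ k‖ * Complex.exp (θ k * Complex.I) ∧ -Real.pi < θ (k + 1) - θ k ∧
      θ (k + 1) - θ k ≤ Real.pi := by
  obtain ⟨θ, h0, h1⟩ : ∃ θ : ℤ → ℝ, θ lo = (ζ lo).arg ∧
      ∀ k, lo ≤ k → θ (k + 1) = θ k + (ζ (k + 1) / ζ k).arg := by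
    refine ⟨fun k => (ζ lo).arg + ∑ j ∈ Finset.range (k - lo).toNat,
      (ζ (lo + j + 1) / ζ (lo + j)).arg, by simp, fun k hk => ?_⟩
    have e1 : (k + 1 - lo).toNat = (k - lo).toNat + 1 := by omega
    have e2 : lo + ((k - lo).toNat : ℤ) = k := by omega
    simp only [e1, Finset.sum_range_succ, e2]
    ring
  refine ⟨θ, fun k hk => ⟨?_, ?_, ?_⟩⟩
  · induction k, hk using Int.leInduction with
    | base => rw [h0, Complex.norm_mul_exp_arg_mul_I]
    | succ k hk ih =>
      have e1 := Complex.norm_mul_exp_arg_mul_I (ζ (k + 1) / ζ k)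
      have e2 : ζ (k + 1) = ζ (k + 1) / ζ k * ζ k := (div_mul_cancel₀ _ (hζ k)).symm
      have e3 : ‖ζ (k + 1)‖ = ‖ζ (k + 1) / ζ k‖ * ‖ζ k‖ := by rw [← norm_mul, ← e2]
      rw [h1 k hk, e3, Complex.ofReal_add, add_mul, Complex.exp_add, Complex.ofReal_mul]
      linear_combination e2 + (ζ (k + 1) / ζ k) * ih -
        ((‖ζ k‖ : ℂ) * Complex.exp (θ k * Complex.I)) * e1
  · rw [h1 k hk, add_sub_cancel_left]
    exact Complex.neg_pi_lt_arg _
  · rw [h1 k hk, add_sub_cancel_left]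
    exact Complex.arg_le_pi _

theorem sin_mul {u v s : ℝ} (hs : s ∈ uIcc u v) (h : |v - u| < Real.pi) :
    Real.sin (u - s) * Real.sin (v - s) ≤ 0 := by
  rw [abs_lt] at h
  rcases mem_uIcc.1 hs with ⟨a, b⟩ | ⟨a, b⟩
  · exact mul_nonpos_of_nonpos_of_nonneg
      (Real.sin_nonpos_of_nonpos_of_neg_pi_le (by linarith) (by linarith))
      (Real.sin_nonneg_of_nonneg_of_le_pi (by linarith) (by linarith))
  · exact mul_nonpos_of_nonneg_of_nonpos
      (Real.sin_nonneg_of_nonneg_of_le_pi (by linarith) (by linarith))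
      (Real.sin_nonpos_of_nonpos_of_neg_pi_le (by linarith) (by linarith))

theorem sin_mul' {u v t : ℝ} {r : ℤ} (hs : t + r * Real.pi ∈ uIcc u v) (h : |v - u| < Real.pi) :
    Real.sin (u - t) * Real.sin (v - t) ≤ 0 := by
  have e : ∀ w, Real.sin (w - t) = (-1) ^ r * Real.sin (w - (t + r * Real.pi)) := fun w => by
    rw [← Real.sin_add_int_mul_pi]
    congr 1
    ring
  rw [e u, e v, mul_mul_mul_comm]
  exact mul_nonpos_of_nonneg_of_nonpos (mul_self_nonneg _) (sin_mul hs h)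

theorem short {m n : ℕ} {Z x y : ℤ → ℝ} (h : Core m n Z x y) {lo hi : ℤ}
    (hZ : ∀ i, lo ≤ i → i < hi → 0 < Z i * Z (i + 1)) : hi < lo + n := by
  by_contra hc
  obtain ⟨i, hi⟩ := h.chg
  have hn : (0 : ℤ) < n := by exact_mod_cast h.n_pos
  have e1 := Int.emod_add_mul_ediv (i - lo) n
  have e2 := Int.emod_nonneg (i - lo) hn.ne'
  have e3 := Int.emod_lt_of_pos (i - lo) hn
  have e4 := hZ (i + (-((i - lo) / n)) * n) (by linarith) (by linarith)
  rw [add_right_comm, per_zmul h.pZ, per_zmul h.pZ] at e4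
  linarith

end ANGx

open ANGx in
theorem s_ANG (hN : S_NOBI) : S_ANG := by
  intro m n Z x y h lo hi hZ
  have hlt := short h hZ
  have hζ : ∀ k, (⟨x (k + 1) - x k, y (k + 1) - y k⟩ : ℂ) ≠ 0 := fun k hk =>
    h.jx_ne k (jp_eq_zero.2 (sub_eq_zero.1 (congrArg Complex.re hk)))
  obtain ⟨θ, hθ⟩ := lift _ hζ lo
  set ρ : ℤ → ℝ := fun k => ‖(⟨x (k + 1) - x k, y (k + 1) - y k⟩ : ℂ)‖ with hρ
  have rho : ∀ k, lo ≤ k → k < hi → 0 < ρ k ∧ x (k + 1) - x k = ρ k * Real.cos (θ k) ∧
      y (k + 1) - y k = ρ k * Real.sin (θ k) := by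
    intro k hk _
    have e := (hθ k hk).1
    have e1 := congrArg Complex.re e
    have e2 := congrArg Complex.im e
    rw [Complex.re_ofReal_mul, Complex.exp_ofReal_mul_I_re] at e1
    rw [Complex.im_ofReal_mul, Complex.exp_ofReal_mul_I_im] at e2
    exact ⟨norm_pos_iff.2 (hζ k), e1, e2⟩
  have step : ∀ k, lo ≤ k → k + 1 < hi → θ (k + 1) ≠ θ k ∧ |θ (k + 1) - θ k| < Real.pi := by
    intro k h1 h2
    have hs : Real.sin (θ (k + 1) - θ k) ≠ 0 := by
      intro hs
      apply h.trn_ne (k + 1)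
      obtain ⟨-, a1, a2⟩ := rho k h1 (by omega)
      obtain ⟨-, b1, b2⟩ := rho (k + 1) (by omega) h2
      rw [trn, add_sub_cancel_right, jp_of_pos (hZ k h1 (by omega)), jp_of_pos (hZ k h1 (by omega)),
        jp_of_pos (hZ (k + 1) (by omega) h2), jp_of_pos (hZ (k + 1) (by omega) h2), a1, a2, b1, b2]
      rw [Real.sin_sub] at hs
      linear_combination ρ k * ρ (k + 1) * hs
    refine ⟨fun e => hs (by rw [e, sub_self, Real.sin_zero]),
      abs_lt.2 ⟨(hθ k h1).2.1, (hθ k h1).2.2.lt_of_ne fun e => hs (by rw [e, Real.sin_pi])⟩⟩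
  have hlin : ∀ t k, lin (-Real.sin t) (Real.cos t) x y k = hv x y t k := fun t k => by
    simp only [lin, hv]
    ring
  have hjp : ∀ t k, lo ≤ k → k < hi →
      jp Z (lin (-Real.sin t) (Real.cos t) x y) k = ρ k * Real.sin (θ k - t) := by
    intro t k h1 h2
    obtain ⟨-, a, b⟩ := rho k h1 h2
    rw [jp_lin, jp_of_pos (hZ k h1 h2), jp_of_pos (hZ k h1 h2), a, b, Real.sin_sub]
    ring
  have hev : ∀ (t : ℝ) (r k : ℤ), lo < k → k < hi → Ev θ k (t + r * Real.pi) →
      jp Z (lin (-Real.sin t) (Real.cos t) x y) (k - 1) *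
        jp Z (lin (-Real.sin t) (Real.cos t) x y) k ≤ 0 := by
    intro t r k h1 h2 he
    have e := (step (k - 1) (by omega) (by omega)).2
    rw [sub_add_cancel] at e
    rw [hjp t (k - 1) (by omega) (by omega), hjp t k h1.le h2, mul_mul_mul_comm]
    exact mul_nonpos_of_nonneg_of_nonpos (mul_nonneg (norm_nonneg _) (norm_nonneg _))
      (sin_mul' he e)
  refine ⟨θ, ρ, rho, step, fun i j t r h1 h2 h3 e1 e2 e3 => ?_, fun t c η k hη hk hr hs => ?_⟩
  · refine hN m n Z x y h (-Real.sin t) (Real.cos t) i j ?_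
      (not_dvd_of_lt (by omega) (by rw [abs_lt]; constructor <;> omega))
      (not_dvd_of_lt (by omega) (by rw [abs_lt]; constructor <;> omega))
      (not_dvd_of_lt (by omega) (by rw [abs_lt]; constructor <;> omega))
      (by rw [hlin, hlin, e3]) (hev t 0 i h1 (by omega) (by simpa using e1))
      (hev t r j (by omega) h3 e2)
    by_contra hc
    push Not at hc
    have := Real.sin_sq_add_cos_sq t
    rw [neg_eq_zero.1 hc.1, hc.2] at this
    norm_num at this
  · have hfin : (range (hv x y t)).Finite :=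
      finite_range_of_per h.n_pos fun i => by simp only [hv, h.px, h.py]
    have hnb : {c' | ∀ j ∈ Finset.range (2 * (m + 2)),
        0 < η * (-1) ^ j * (c' - hv x y t (k j))} ∈ 𝓝 c := by
      refine (eventually_all_finset _).2 fun j hj => ?_
      exact (isOpen_lt continuous_const (by fun_prop)).mem_nhds (hs j (Finset.mem_range.1 hj))
    obtain ⟨c', hc1, hc2⟩ := (infinite_of_mem_nhds c hnb).exists_notMem_finite hfin
    have hη0 : η ≠ 0 := by rcases hη with rfl | rfl <;> norm_num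
    have e : ∀ i, lin (Z lo * η * Real.sin t) (-(Z lo * η * Real.cos t)) x y i + Z lo * η * c' =
        Z lo * η * (c' - hv x y t i) := fun i => by
      simp only [lin, hv]
      ring
    have h2 := (h.two (Z lo * η * Real.sin t) (-(Z lo * η * Real.cos t)) (Z lo * η * c') fun i => by
      rw [e]
      exact mul_ne_zero (mul_ne_zero (h.Zne lo) hη0) (sub_ne_zero.2 fun h0 => hc2 ⟨i, h0.symm⟩)).2
    have hp := pos_chain (h.Zne lo) hZ
    have hq : ∀ j < 2 * (m + 2), 0 < (-1) ^ j * (Z (k j) * (Z lo * η * (c' - hv x y t (k j)))) := by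
      intro j hj
      have := mul_pos (hp (k j) (hr j hj).1 (hr j hj).2) (hc1 j (Finset.mem_range.2 hj))
      linarith
    have h3 : m + 2 ≤ mx n fun i => Z i *
        (lin (Z lo * η * Real.sin t) (-(Z lo * η * Real.cos t)) x y i + Z lo * η * c') := by
      refine le_mx_of_alt h.n_pos (fun i => by rw [h.pZ, h.lin_per])
        ⟨fun j => k (2 * j), fun j => k (2 * j + 1), fun j hj => ⟨hk _ (by omega), ?_, ?_, ?_⟩,
          fun j hj => hk (2 * j + 1) (by omega)⟩
      · have := hq (2 * j) (by omega)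
        rw [pow_mul, neg_one_sq, one_pow, one_mul] at this
        simpa only [e] using this
      · have := hq (2 * j + 1) (by omega)
        rw [pow_succ, pow_mul, neg_one_sq, one_pow, one_mul, neg_one_mul, neg_pos] at this
        simpa only [e] using this
      · have a1 := (hr (2 * j + 1) (by omega)).2
        have a2 := (hr (2 * 0) (by omega)).1
        show k (2 * j + 1) < k (2 * 0) + n
        omega
    omega

end Pool.Agent.P.MP_28369d_gt.SB
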