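import Pool.Agent.P.MP_28369d_gt.SB.Tools

/-! The local monodromy around a line; removable singularities. -/

namespace Pool.Agent.P.MP_28369d_gt.SB

open Set Filter Topology
open scoped RealInnerProductSpace

namespace LINEx

theorem cont (a x : E) : Continuous fun p : E => ⟪a, p - x⟫ := by fun_prop

theorem pos (a x : E) (ρ : ℝ) : IsPreconnected {p | p ∈ Metric.ball x ρ ∧ 0 < ⟪a, p - x⟫} := by
  have h : Convex ℝ {p : E | ⟪a, x⟫ < ⟪a, p⟫} :=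
    convex_halfSpace_gt (innerSL ℝ a).toLinearMap.isLinear _
  simp only [inner_sub_right, sub_pos]
  exact ((convex_ball x ρ).inter h).isPreconnected

theorem neg (a x : E) (ρ : ℝ) : IsPreconnected {p | p ∈ Metric.ball x ρ ∧ ⟪a, p - x⟫ < 0} := by
  simpa only [inner_neg_left, neg_pos] using pos (-a) x ρ

theorem pt {a b x v w : E} (hv : ⟪a, v⟫ = 1 ∧ ⟪b, v⟫ = 0) (hw : ⟪a, w⟫ = 0 ∧ ⟪b, w⟫ = 1)
    {ρ : ℝ} (hρ : 0 < ρ) (s t : ℝ) : ∃ p ∈ Metric.ball x ρ, ∃ ε > (0 : ℝ),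
      ⟪a, p - x⟫ = ε * s ∧ ⟪b, p - x⟫ = ε * t := by
  have h : ∀ᶠ ε in 𝓝 (0 : ℝ), x + ε • (s • v + t • w) ∈ Metric.ball x ρ :=
    (by fun_prop : Continuous fun ε : ℝ => x + ε • (s • v + t • w)).continuousAt.eventually_mem
      (Metric.isOpen_ball.mem_nhds (by simpa using hρ))
  obtain ⟨ε, h1, h2⟩ := ((h.filter_mono nhdsWithin_le_nhds).and
    (self_mem_nhdsWithin (s := Ioi (0 : ℝ)))).exists
  exact ⟨_, h1, ε, h2, by simp [inner_add_right, inner_smul_right, hv.1, hw.1],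
    by simp [inner_add_right, inner_smul_right, hv.2, hw.2]⟩

end LINEx

theorem s_LINE : S_LINE := by
  classical
  rintro G _ ω K x a b r h k A A' hr ⟨v, hv⟩ ⟨w, hw⟩ hK hh hk e1 e2
  refine ⟨⟨Metric.ball x r, Metric.ball_mem_nhds x hr,
    fun p => if ⟪a, p - x⟫ ≠ 0 ∨ 0 < ⟪b, p - x⟫ then h p else A * k p, ?_⟩, ?_⟩
  · rintro p ⟨p1, p2⟩
    by_cases c : ⟪a, p - x⟫ ≠ 0 ∨ 0 < ⟪b, p - x⟫
    · have o : IsOpen {p : E | ⟪a, p - x⟫ ≠ 0 ∨ 0 < ⟪b, p - x⟫} :=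
        (isOpen_ne_fun (LINEx.cont a x) continuous_const).union
          (isOpen_lt continuous_const (LINEx.cont b x))
      filter_upwards [hh p ⟨p1, c⟩, o.mem_nhds c] with p' a1 a2
      simp only [if_pos c, if_pos a2, a1, mul_inv_cancel, one_mem]
    · have c1 : ⟪a, p - x⟫ = 0 := not_not.1 fun h => c (Or.inl h)
      have c2 : ⟪b, p - x⟫ < 0 := lt_of_le_of_ne (not_lt.1 fun h => c (Or.inr h))
        fun h => p2 ((hK p p1).2 ⟨c1, h⟩)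
      filter_upwards [hk p ⟨p1, c2⟩, Metric.isOpen_ball.mem_nhds p1,
        (isOpen_lt (LINEx.cont b x) continuous_const).mem_nhds c2] with p' a1 a2 a3
      simp only [if_neg c]
      rw [mul_assoc A, ← a1]
      rcases lt_trichotomy ⟪a, p' - x⟫ 0 with a4 | a4 | a4
      · rw [if_pos (Or.inl a4.ne), e2 p' a2 a3 a4, mul_inv_rev, mul_assoc, mul_inv_cancel_left]
        exact Subgroup.mem_zpowers _
      · rw [if_neg fun h => h.elim (fun h => h a4) (not_lt.2 a3.le), mul_inv_cancel]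
        exact one_mem _
      · rw [if_pos (Or.inl a4.ne'), e1 p' a2 a3 a4, mul_inv_cancel]
        exact one_mem _
  · rintro N hN H ⟨τ, hτ⟩
    obtain ⟨ρ, hρ, hB⟩ := Metric.mem_nhds_iff.1 (inter_mem hN (Metric.ball_mem_nhds x hr))
    have sub : ∀ p ∈ Metric.ball x ρ, ⟪a, p - x⟫ ≠ 0 ∨ ⟪b, p - x⟫ ≠ 0 → p ∈ N \ K :=
      fun p hp c => ⟨(hB hp).1, fun h => c.elim (fun c => c ((hK p (hB hp).2).1 h).1)
        fun c => c ((hK p (hB hp).2).1 h).2⟩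
    obtain ⟨p₁, b1, ε₁, z1, s1, t1⟩ := LINEx.pt (x := x) hv hw hρ 1 (-1)
    obtain ⟨p₂, b2, ε₂, z2, s2, t2⟩ := LINEx.pt (x := x) hv hw hρ 1 1
    obtain ⟨p₃, b3, ε₃, z3, s3, t3⟩ := LINEx.pt (x := x) hv hw hρ (-1) 1
    obtain ⟨p₄, b4, ε₄, z4, s4, t4⟩ := LINEx.pt (x := x) hv hw hρ (-1) (-1)
    have r1 := red_coset (fun p hp => hτ p (sub p hp.1 (Or.inl hp.2.ne')))
      (hh.mono fun p hp => ⟨(hB hp.1).2, Or.inl hp.2.ne'⟩) (LINEx.pos a x ρ)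
      (p := p₁) (q := p₂) ⟨b1, by linarith⟩ ⟨b2, by linarith⟩
    have r2 := red_coset (fun p hp => hτ p (sub p hp.1 (Or.inr hp.2.ne')))
      (hh.mono fun p hp => ⟨(hB hp.1).2, Or.inr hp.2⟩) (LINEx.pos b x ρ)
      (p := p₂) (q := p₃) ⟨b2, by linarith⟩ ⟨b3, by linarith⟩
    have r3 := red_coset (fun p hp => hτ p (sub p hp.1 (Or.inl hp.2.ne)))
      (hh.mono fun p hp => ⟨(hB hp.1).2, Or.inl hp.2.ne⟩) (LINEx.neg a x ρ)
      (p := p₃) (q := p₄) ⟨b3, by linarith⟩ ⟨b4, by linarith⟩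
    have r4 := red_coset (fun p hp => hτ p (sub p hp.1 (Or.inr hp.2.ne)))
      (hk.mono fun p hp => ⟨(hB hp.1).2, hp.2⟩) (LINEx.neg b x ρ)
      (p := p₁) (q := p₄) ⟨b1, by linarith⟩ ⟨b4, by linarith⟩
    have r5 := mul_mem r4 (inv_mem (mul_mem (mul_mem r1 r2) r3))
    rw [e1 p₁ (hB b1).2 (by linarith) (by linarith),
      e2 p₄ (hB b4).2 (by linarith) (by linarith)] at r5
    refine ⟨τ p₁ * (k p₁)⁻¹ * A⁻¹, (congrArg (· ∈ H) ?_).mp r5⟩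
    group

theorem s_REM (hC : S_CONN) : S_REM := by
  classical
  intro G _ ω U S hU hUS hS hω hx
  have h1 : ∀ x, ∃ (N : Set E) (f : E → G), x ∈ U ∩ S →
      IsOpen N ∧ x ∈ N ∧ N ⊆ U ∧ Dev ω (N \ S) f := fun x => by
    by_cases c : x ∈ U ∩ S
    · obtain ⟨N, f, a1, a2, a3⟩ := hx x c
      exact ⟨N ∩ U, f, fun _ => ⟨a1.inter hU, ⟨a2, c.1⟩, inter_subset_right,
        a3.mono fun p hp => ⟨hp.1.1, hp.2⟩⟩⟩
    · exact ⟨∅, 1, fun h => (c h).elim⟩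
  choose N F hN using h1
  have h2 : ∀ x p, ∃ c : G, x ∈ U ∩ S → p ∈ S → p ∈ N x →
      ∀ᶠ q in 𝓝 p, q ∉ S → F x q = c * F p q := fun x p => by
    by_cases c : x ∈ U ∩ S ∧ p ∈ S ∧ p ∈ N x
    · obtain ⟨a1, -, a3, a4⟩ := hN x c.1
      obtain ⟨b1, b2, -, b4⟩ := hN p ⟨a3 c.2.2, c.2.1⟩
      obtain ⟨ρ, hρ, hB⟩ := Metric.isOpen_iff.1 (a1.inter b1) p ⟨c.2.2, b2⟩
      obtain ⟨g, hg⟩ := (a4.mono fun q hq => ⟨(hB hq.1).1, hq.2⟩).exists_const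
        (b4.mono fun q hq => ⟨(hB hq.1).2, hq.2⟩)
        (hC.1 _ S Metric.isOpen_ball (convex_ball p ρ) hS).1
      exact ⟨g, fun _ _ _ => mem_of_superset (Metric.ball_mem_nhds p hρ)
        fun q hq hq' => hg q ⟨hq, hq'⟩⟩
    · exact ⟨1, fun a b d => (c ⟨a, b, d⟩).elim⟩
  choose k hk using h2
  have hd : ∀ p : E, ∃ᶠ q in 𝓝 p, q ∉ S := fun p =>
    (mem_closure_iff_frequently.1 ((hC.1 univ S isOpen_univ convex_univ hS).2 (mem_univ p))).mono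
      fun _ h => h.2
  refine ⟨fun p => if p ∈ S then fun p' => if p' ∈ S then k p p' else F p p' else ω p,
    fun x hx => ?_, fun p hp => if_neg hp⟩
  by_cases c : x ∈ S
  · obtain ⟨a1, a2, a3, a4⟩ := hN x ⟨hx, c⟩
    refine ⟨N x, a1, a2, fun p' => if p' ∈ S then k x p' else F x p', fun p hp => ?_⟩
    by_cases d : p ∈ S
    · obtain ⟨b1, b2, -, -⟩ := hN p ⟨a3 hp, d⟩
      have e := hk x p ⟨hx, c⟩ d hp
      filter_upwards [e, e.eventually_nhds, a1.mem_nhds hp, b1.mem_nhds b2] with p' f1 f2 f3 f4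
      simp only [if_pos d]
      by_cases d' : p' ∈ S
      · simp only [if_pos d']
        obtain ⟨q, q1, q2, q3, q4⟩ := ((hd p').and_eventually (f2.and
          ((hk x p' ⟨hx, c⟩ d' f3).and (hk p p' ⟨a3 hp, d⟩ d' f4)))).exists
        refine mul_right_cancel (b := F p' q) ?_
        rw [← q3 q1, q2 q1, q4 q1, mul_assoc]
      · simp only [if_neg d']
        exact f1 d'
    · filter_upwards [a4 p ⟨hp, d⟩, hUS.mem_nhds ⟨a3 hp, d⟩] with p' f1 f2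
      simp only [if_neg d, if_neg f2.2]
      exact f1
  · obtain ⟨M, a1, a2, f, a3⟩ := hω x ⟨hx, c⟩
    refine ⟨M ∩ (U \ S), a1.inter hUS, ⟨a2, hx, c⟩, f, fun p hp => ?_⟩
    simp only [if_neg hp.2.2]
    exact a3 p hp.1

end Pool.Agent.P.MP_28369d_gt.SB
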