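import Pool.Agent.P.MP_28369d_gt.SB.Tools

namespace Pool.Agent.P.MP_28369d_gt.SB

open Set Filter Topology
open scoped RealInnerProductSpace

namespace REPARx

/-- The normalised height on the `k`-th interval. -/
noncomputable def ph (z : ℝ → ℝ) (c : ℤ → ℝ) (k : ℤ) (τ : ℝ) : ℝ :=
  k + (z τ - z (c k)) / (z (c (k + 1)) - z (c k))

theorem c_shift {c : ℤ → ℝ} {T : ℝ} {N : ℕ} (h : ∀ k, c (k + N) = c k + T) (j : ℤ) :
    c (j * N) = c 0 + j * T := by
  induction j using Int.induction_on with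
  | zero => simp
  | succ i ih =>
    have := h ((i : ℤ) * N)
    rw [show ((i : ℤ) + 1) * N = (i : ℤ) * N + N by ring, this, ih]; push_cast; ring
  | pred i ih =>
    have := h ((-(i : ℤ) - 1) * N)
    rw [show (-(i : ℤ) - 1) * N + N = -(i : ℤ) * N by ring, ih] at this
    push_cast at this ⊢; linarith

theorem ex_idx {c : ℤ → ℝ} {T : ℝ} {N : ℕ} (hT : 0 < T) (hc : StrictMono c)
    (h : ∀ k, c (k + N) = c k + T) (τ : ℝ) : ∃ k, c k ≤ τ ∧ τ < c (k + 1) := by
  obtain ⟨j, h1, h2⟩ := exists_shift hT τ (c 0)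
  have e1 : c ((j - 1) * N) ≤ τ := by rw [c_shift h]; push_cast; linarith
  have e2 : τ ≤ c (j * N) := by rw [c_shift h]; linarith
  obtain ⟨k, hk, hmax⟩ := Int.exists_greatest_of_bdd (P := fun k => c k ≤ τ)
    ⟨j * N, fun k hk => hc.le_iff_le.1 (hk.trans e2)⟩ ⟨_, e1⟩
  refine ⟨k, hk, ?_⟩
  by_contra hn
  have := hmax (k + 1) (not_lt.1 hn)
  omega

theorem ex_idx' {c : ℤ → ℝ} {T : ℝ} {N : ℕ} (hT : 0 < T) (hc : StrictMono c)
    (h : ∀ k, c (k + N) = c k + T) (τ : ℝ) : ∃ k, c k < τ ∧ τ ≤ c (k + 1) := by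
  obtain ⟨k, h1, h2⟩ := ex_idx hT hc h τ
  rcases h1.lt_or_eq with h3 | h3
  · exact ⟨k, h3, h2.le⟩
  · refine ⟨k - 1, ?_, ?_⟩
    · rw [← h3]; exact hc (by omega)
    · rw [sub_add_cancel, h3]

theorem idx_uniq {c : ℤ → ℝ} (hc : StrictMono c) {τ : ℝ} {k l : ℤ} (h1 : c k ≤ τ)
    (h2 : τ < c (k + 1)) (h3 : c l ≤ τ) (h4 : τ < c (l + 1)) : k = l := by
  have a := hc.lt_iff_lt.1 (h1.trans_lt h4)
  have b := hc.lt_iff_lt.1 (h3.trans_lt h2)
  omega

section
variable {z : ℝ → ℝ} {c : ℤ → ℝ} (hc : StrictMono c)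
  (hz : ∀ k, StrictMonoOn z (Icc (c k) (c (k + 1))) ∨ StrictAntiOn z (Icc (c k) (c (k + 1))))
include hc hz

theorem den_ne (k : ℤ) : z (c (k + 1)) - z (c k) ≠ 0 := by
  have h : c k < c (k + 1) := hc (by omega)
  rcases hz k with h1 | h1
  · have := h1 (left_mem_Icc.2 h.le) (right_mem_Icc.2 h.le) h
    intro h2; linarith
  · have := h1 (left_mem_Icc.2 h.le) (right_mem_Icc.2 h.le) h
    intro h2; linarith

theorem ph_right (k : ℤ) : ph z c k (c (k + 1)) = k + 1 := by
  rw [ph, div_self (den_ne hc hz k)]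

theorem ph_mono (k : ℤ) : StrictMonoOn (ph z c k) (Icc (c k) (c (k + 1))) := by
  have h : c k < c (k + 1) := hc (by omega)
  intro a ha b hb hab
  simp only [ph]
  rcases hz k with h1 | h1
  · have h2 := h1 (left_mem_Icc.2 h.le) (right_mem_Icc.2 h.le) h
    have h3 := h1 ha hb hab
    have := div_lt_div_of_pos_right (show z a - z (c k) < z b - z (c k) by linarith)
      (show 0 < z (c (k + 1)) - z (c k) by linarith)
    linarith
  · have h2 := h1 (left_mem_Icc.2 h.le) (right_mem_Icc.2 h.le) h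
    have h3 := h1 ha hb hab
    have := div_lt_div_of_pos_right (show z (c k) - z a < z (c k) - z b by linarith)
      (show 0 < z (c k) - z (c (k + 1)) by linarith)
    rw [← neg_div_neg_eq (z a - z (c k)), ← neg_div_neg_eq (z b - z (c k))]
    simp only [neg_sub]
    linarith

end

theorem ph_left (z : ℝ → ℝ) (c : ℤ → ℝ) (k : ℤ) : ph z c k (c k) = k := by simp [ph]

end REPARx

open REPARx

theorem s_REPAR : S_REPAR := by
  intro z c T N hT hc hcN hper hla hz
  choose idx hi1 hi2 using ex_idx hT hc hcN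
  set θ : ℝ → ℝ := fun τ => ph z c (idx τ) τ with hθ
  have form : ∀ (k : ℤ) (τ : ℝ), c k ≤ τ → τ ≤ c (k + 1) → θ τ = ph z c k τ := by
    intro k τ h1 h2
    rcases h2.lt_or_eq with h3 | h3
    · simp only [hθ]; rw [idx_uniq hc (hi1 τ) (hi2 τ) h1 h3]
    · have e : idx τ = k + 1 :=
        idx_uniq hc (hi1 τ) (hi2 τ) h3.ge (by rw [h3]; exact hc (by omega))
      simp only [hθ]
      rw [e, h3, ph_left, ph_right hc hz]; push_cast; ring
  have lo : ∀ (k : ℤ) (τ : ℝ), c k ≤ τ → τ ≤ c (k + 1) → (k : ℝ) ≤ θ τ := by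
    intro k τ h1 h2
    rw [form k τ h1 h2, ← ph_left z c k]
    exact (ph_mono hc hz k).monotoneOn (left_mem_Icc.2 (h1.trans h2)) ⟨h1, h2⟩ h1
  have hi : ∀ (k : ℤ) (τ : ℝ), c k ≤ τ → τ ≤ c (k + 1) → θ τ ≤ k + 1 := by
    intro k τ h1 h2
    rw [form k τ h1 h2, ← ph_right hc hz k]
    exact (ph_mono hc hz k).monotoneOn ⟨h1, h2⟩ (right_mem_Icc.2 (h1.trans h2)) h2
  refine ⟨θ, ?_, ?_, ?_, ?_, fun τ => ⟨idx τ, hi1 τ, hi2 τ⟩, form⟩
  · intro a b hab
    by_cases h : b ≤ c (idx a + 1)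
    · rw [form _ a (hi1 a) (hi2 a).le, form _ b ((hi1 a).trans hab.le) h]
      exact ph_mono hc hz _ ⟨hi1 a, (hi2 a).le⟩ ⟨(hi1 a).trans hab.le, h⟩ hab
    · push Not at h
      have h1 : idx a + 1 < idx b + 1 := hc.lt_iff_lt.1 (h.trans (hi2 b))
      have h2 : θ a < idx a + 1 := by
        rw [form _ a (hi1 a) (hi2 a).le, ← ph_right hc hz]
        exact ph_mono hc hz _ ⟨hi1 a, (hi2 a).le⟩
          (right_mem_Icc.2 ((hi1 a).trans (hi2 a).le)) (hi2 a)
      have h3 := lo _ b (hi1 b) (hi2 b).le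
      have h4 : ((idx a + 1 : ℤ) : ℝ) ≤ idx b := by exact_mod_cast (by omega : idx a + 1 ≤ idx b)
      push_cast at h4
      linarith
  · intro y
    have h : c ⌊y⌋ ≤ c (⌊y⌋ + 1) := hc.monotone (by omega)
    have hcont : Continuous (ph z c ⌊y⌋) := by
      have := hla.continuous
      unfold ph
      fun_prop
    have := intermediate_value_Icc h hcont.continuousOn
    rw [ph_left, ph_right hc hz] at this
    obtain ⟨τ, hτ, e⟩ := this ⟨Int.floor_le y, (Int.lt_floor_add_one y).le⟩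
    exact ⟨τ, by rw [form _ τ hτ.1 hτ.2, e]⟩
  · intro τ
    have e1 := hcN (idx τ)
    have e2 : c (idx τ + N + 1) = c (idx τ + 1) + T := by
      rw [← hcN]; congr 1; ring
    rw [form (idx τ + N) (τ + T) (by linarith [hi1 τ]) (by linarith [hi2 τ]),
      form _ τ (hi1 τ) (hi2 τ).le]
    simp only [ph]
    rw [e1, e2, hper, hper, hper]; push_cast; ring
  · intro w τ
    obtain ⟨δ, hδ, a, b, H⟩ := hla τ
    obtain ⟨l, hl1, hl2⟩ := ex_idx' hT hc hcN τ
    have hk1 := hi1 τ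
    have hk2 := hi2 τ
    set k := idx τ with hk
    refine ⟨min δ (min (c (k + 1) - τ) (τ - c l)),
      lt_min hδ (lt_min (by linarith) (by linarith)),
      (a / (z (c (k + 1)) - z (c k))) • (w (k + 1) - w k),
      (b / (z (c (l + 1)) - z (c l))) • (w (l + 1) - w l), fun t h0 ht => ⟨?_, ?_⟩⟩
    · have t1 := ht.trans (min_le_left _ _)
      have t2 := (ht.trans (min_le_right _ _)).trans (min_le_left _ _)
      have := pl_sub_of_edge w k (τ := θ (τ + t)) (υ := θ τ)
        (lo k _ (by linarith) (by linarith)) (hi k _ (by linarith) (by linarith))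
        (lo k _ hk1 hk2.le) (hi k _ hk1 hk2.le)
      have e : θ (τ + t) - θ τ = t * (a / (z (c (k + 1)) - z (c k))) := by
        rw [form k _ (by linarith) (by linarith), form k τ hk1 hk2.le]
        simp only [ph]
        rw [(H t h0 t1).1, smul_eq_mul]; ring
      rw [e, mul_smul] at this
      show pl w (θ (τ + t)) = pl w (θ τ) + _
      rw [← this]; abel
    · have t1 := ht.trans (min_le_left _ _)
      have t2 := (ht.trans (min_le_right _ _)).trans (min_le_right _ _)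
      have := pl_sub_of_edge w l (τ := θ τ) (υ := θ (τ - t))
        (lo l _ hl1.le hl2) (hi l _ hl1.le hl2)
        (lo l _ (by linarith) (by linarith)) (hi l _ (by linarith) (by linarith))
      have e : θ τ - θ (τ - t) = t * (b / (z (c (l + 1)) - z (c l))) := by
        rw [form l _ hl1.le hl2, form l (τ - t) (by linarith) (by linarith)]
        simp only [ph]
        rw [(H t h0 t1).2, smul_eq_mul]; ring
      rw [e, mul_smul] at this
      show pl w (θ (τ - t)) = pl w (θ τ) - _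
      rw [← this]; abel

end Pool.Agent.P.MP_28369d_gt.SB
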