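import Pool.Agent.P.MP_28369d_gt.SB.Iface

/-!
Proved toolbox for the interface definitions.
-/

namespace Pool.Agent.P.MP_28369d_gt.SB

open Set Filter Topology
open scoped RealInnerProductSpace

/-! ### coordinates -/

@[simp] theorem pt_0 (x y z : ℝ) : pt x y z 0 = x := rfl
@[simp] theorem pt_1 (x y z : ℝ) : pt x y z 1 = y := rfl
@[simp] theorem pt_2 (x y z : ℝ) : pt x y z 2 = z := rfl

theorem E_ext {a b : E} (h0 : a 0 = b 0) (h1 : a 1 = b 1) (h2 : a 2 = b 2) : a = b := by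
  ext i; fin_cases i <;> assumption

theorem inner3 (a b : E) : ⟪a, b⟫ = a 0 * b 0 + a 1 * b 1 + a 2 * b 2 := by
  simp [PiLp.inner_apply, Fin.sum_univ_three, mul_comm]

theorem normsq3 (a : E) : ‖a‖ ^ 2 = a 0 ^ 2 + a 1 ^ 2 + a 2 ^ 2 := by
  rw [← real_inner_self_eq_norm_sq, inner3]; ring

theorem Continuous.pt {X : Type} [TopologicalSpace X] {f g h : X → ℝ} (hf : Continuous f)
    (hg : Continuous g) (hh : Continuous h) : Continuous fun x => pt (f x) (g x) (h x) := by
  refine (PiLp.continuous_toLp 2 _).comp (continuous_pi fun i => ?_)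
  fin_cases i <;> simpa

theorem det3_eq (a b c : E) : det3 a b c = (a 1 * b 2 - a 2 * b 1) * c 0 +
    (a 2 * b 0 - a 0 * b 2) * c 1 + (a 0 * b 1 - a 1 * b 0) * c 2 := by
  simp [det3, cr, inner3]

theorem det3_add (a b c c' : E) : det3 a b (c + c') = det3 a b c + det3 a b c' :=
  inner_add_right _ _ _

theorem det3_sub (a b c c' : E) : det3 a b (c - c') = det3 a b c - det3 a b c' :=
  inner_sub_right _ _ _

theorem det3_smul (a b c : E) (t : ℝ) : det3 a b (t • c) = t * det3 a b c :=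
  real_inner_smul_right _ _ _

@[simp] theorem det3_self_left (a b : E) : det3 a b a = 0 := by rw [det3_eq]; ring
@[simp] theorem det3_self_right (a b : E) : det3 a b b = 0 := by rw [det3_eq]; ring
theorem det3_swap (a b c : E) : det3 a b c = -det3 a c b := by rw [det3_eq, det3_eq]; ring

theorem continuous_det3 (a b : E) : Continuous (det3 a b) := by
  unfold det3; fun_prop

/-- Cramer's rule. -/
theorem det3_cramer (a b c p : E) :
    det3 a b c • p = det3 p b c • a + det3 a p c • b + det3 a b p • c := by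
  refine E_ext ?_ ?_ ?_ <;> simp [det3_eq] <;> ring

theorem eq_zero_of_det3 {a b c u : E} (h : det3 a b c ≠ 0) (ha : ⟪a, u⟫ = 0) (hb : ⟪b, u⟫ = 0)
    (hc : ⟪c, u⟫ = 0) : u = 0 := by
  have h1 := congrArg (fun v => ⟪v, u⟫) (det3_cramer a b c u)
  simp only [inner_add_left, real_inner_smul_left, ha, hb, hc, mul_zero, add_zero] at h1
  exact inner_self_eq_zero.1 ((mul_eq_zero.1 h1).resolve_left h)

/-- A vector in the plane of `a` and `b`. -/
theorem exists_comb_of_det3 {a b p : E} (h : cr a b ≠ 0) (hp : det3 a b p = 0) :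
    ∃ s t : ℝ, p = s • a + t • b := by
  have hc : det3 a b (cr a b) ≠ 0 := fun h' => h (inner_self_eq_zero.1 h')
  have := det3_cramer a b (cr a b) p
  rw [hp, zero_smul, add_zero] at this
  refine ⟨(det3 a b (cr a b))⁻¹ * det3 p b (cr a b), (det3 a b (cr a b))⁻¹ * det3 a p (cr a b), ?_⟩
  rw [mul_smul, mul_smul, ← smul_add, ← this, smul_smul, inv_mul_cancel₀ hc, one_smul]

/-- A vector not orthogonal to finitely many nonzero vectors. -/
theorem exists_generic {A : Set E} (hA : A.Finite) (h0 : ∀ a ∈ A, a ≠ 0) :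
    ∃ u : E, ∀ a ∈ A, ⟪a, u⟫ ≠ 0 := by
  have := Subspace.biUnion_ne_univ_of_top_notMem (k := ℝ) (E := E)
    (s := hA.toFinset.image fun a => (ℝ ∙ a)ᗮ) (by
      simp only [Finset.mem_image, Finite.mem_toFinset, not_exists, not_and]
      intro a ha h
      rw [Submodule.orthogonal_eq_top_iff, Submodule.span_singleton_eq_bot] at h
      exact h0 a ha h)
  obtain ⟨u, hu⟩ := (ne_univ_iff_exists_notMem _).1 this
  refine ⟨u, fun a ha h => hu ?_⟩
  simp only [mem_iUnion]
  exact ⟨(ℝ ∙ a)ᗮ, Finset.mem_image.2 ⟨a, hA.mem_toFinset.2 ha, rfl⟩,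
    Submodule.mem_orthogonal_singleton_iff_inner_right.2 h⟩

/-- A periodic sequence has finite range. -/
theorem finite_range_of_per {α : Type} {n : ℕ} (hn : 0 < n) {f : ℤ → α} (h : ∀ i, f (i + n) = f i) :
    (range f).Finite := by
  refine ((finite_Ico (0 : ℤ) n).image f).subset ?_
  rintro _ ⟨i, rfl⟩
  have hn' : (0 : ℤ) < n := by exact_mod_cast hn
  exact ⟨i % n, ⟨Int.emod_nonneg _ hn'.ne', Int.emod_lt_of_pos _ hn'⟩,
    per_of_dvd h (Int.ModEq.dvd (Int.mod_modEq i n).symm)⟩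

theorem pl_co (P : Poly) (u : E) (τ : ℝ) : pl (co P u) τ = ⟪P.γ τ, u⟫ := by
  simp only [pl, co, Poly.γ, inner_add_left, real_inner_smul_left, inner_sub_left, smul_eq_mul]

theorem df_co' (P : Poly) (u : E) (i : ℤ) : df (co P u) i = ⟪P.e i, u⟫ := by
  simp only [df, co, Poly.e, inner_sub_left]

theorem not_dvd_of_lt {n : ℕ} {k : ℤ} (h0 : k ≠ 0) (h : |k| < n) : ¬ (n : ℤ) ∣ k :=
  fun hd => h0 (Int.eq_zero_of_abs_lt_dvd hd h)

/-! ### jumps -/

variable {m n : ℕ} {Z x y f : ℤ → ℝ}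

theorem jp_lin (Z x y : ℤ → ℝ) (a b : ℝ) (i : ℤ) :
    jp Z (lin a b x y) i = a * jp Z x i + b * jp Z y i := by
  simp only [jp, lin]; split_ifs <;> ring

theorem jp_of_pos {i : ℤ} (h : 0 < Z i * Z (i + 1)) (f : ℤ → ℝ) : jp Z f i = f (i + 1) - f i :=
  if_pos h

theorem jp_of_neg {i : ℤ} (h : Z i * Z (i + 1) < 0) (f : ℤ → ℝ) : jp Z f i = f i - f (i + 1) :=
  if_neg h.not_gt

theorem jp_eq_zero {i : ℤ} : jp Z f i = 0 ↔ f (i + 1) = f i := by
  simp only [jp]; split_ifs <;> constructor <;> intro h <;> linarith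

theorem jp_per (hZ : ∀ i, Z (i + n) = Z i) (hf : ∀ i, f (i + n) = f i) (i : ℤ) :
    jp Z f (i + n) = jp Z f i := by
  simp only [jp, show i + n + 1 = i + 1 + n by ring, hZ, hf]

theorem Core.n_pos (h : Core m n Z x y) : 0 < n := by have := h.big; omega

theorem Core.lin_per (h : Core m n Z x y) (a b : ℝ) (i : ℤ) :
    lin a b x y (i + n) = lin a b x y i := by simp only [lin, h.px, h.py]

theorem Core.pos_or_neg (h : Core m n Z x y) (i : ℤ) : 0 < Z i * Z (i + 1) ∨ Z i * Z (i + 1) < 0 :=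
  (lt_or_gt_of_ne (mul_ne_zero (h.Zne i) (h.Zne (i + 1)))).symm

theorem Core.jx_ne (h : Core m n Z x y) (i : ℤ) : jp Z x i ≠ 0 := fun hc =>
  h.xne i (i + 1) (not_dvd_of_lt (by omega) (by have := h.big; simp; omega)) (jp_eq_zero.1 hc).symm

theorem Core.trn_ne (h : Core m n Z x y) (i : ℤ) : trn Z x y i ≠ 0 := by
  intro hc
  have hb := h.big
  have h1 : jp Z (lin (jp Z y i) (-jp Z x i) x y) i = 0 := by rw [jp_lin]; ring
  have h2 : jp Z (lin (jp Z y i) (-jp Z x i) x y) (i - 1) = 0 := by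
    rw [jp_lin]; unfold trn at hc; linarith
  rw [jp_eq_zero] at h1 h2
  rw [sub_add_cancel] at h2
  exact h.gp _ _ i (i + 1) (i - 1) (Or.inr (neg_ne_zero.2 (h.jx_ne i)))
    (not_dvd_of_lt (by omega) (by simp; omega)) (not_dvd_of_lt (by omega) (by simp; omega))
    (not_dvd_of_lt (by omega) (by rw [abs_lt]; constructor <;> omega)) h1.symm h2

theorem Core.jx_per (h : Core m n Z x y) (i : ℤ) : jp Z x (i + n) = jp Z x i := jp_per h.pZ h.px i
theorem Core.jy_per (h : Core m n Z x y) (i : ℤ) : jp Z y (i + n) = jp Z y i := jp_per h.pZ h.py i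

theorem Core.trn_per (h : Core m n Z x y) (i : ℤ) : trn Z x y (i + n) = trn Z x y i := by
  simp only [trn, show i + n - 1 = i - 1 + n by ring, h.jx_per, h.jy_per]

theorem Core.sl_per (h : Core m n Z x y) (i : ℤ) : sl Z x y (i + n) = sl Z x y i := by
  simp only [sl, h.jx_per, h.jy_per]

theorem Core.brk_per (h : Core m n Z x y) (i : ℤ) : brk Z x y (i + n) ↔ brk Z x y i := by
  simp only [brk, show i + n - 1 = i - 1 + n by ring, show i + n + 1 = i + 1 + n by ring, h.jx_per,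
    h.trn_per, h.pZ]

theorem Core.brk_zmul (h : Core m n Z x y) (i k : ℤ) : brk Z x y (i + k * n) ↔ brk Z x y i :=
  iff_of_eq (per_zmul (f := brk Z x y) (fun i => propext (h.brk_per i)) i k)

theorem Core.jp_val (h : Core m n Z x y) (η s : ℝ) (i : ℤ) :
    jp Z (val x y η s) i = η * jp Z x i * (sl Z x y i - s) := by
  have := h.jx_ne i
  rw [val, jp_lin, sl]; field_simp; ring

theorem Core.sl_sub (h : Core m n Z x y) (i : ℤ) :
    sl Z x y i - sl Z x y (i - 1) = trn Z x y i / (jp Z x (i - 1) * jp Z x i) := by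
  have := h.jx_ne i
  have := h.jx_ne (i - 1)
  simp only [sl, trn]; field_simp

/-- Away from a break all signs persist. -/
theorem Core.not_brk (h : Core m n Z x y) {i : ℤ} (hb : ¬ brk Z x y i) :
    0 < Z i * Z (i + 1) ∧ 0 < jp Z x (i - 1) * jp Z x i ∧ 0 < jp Z x i * jp Z x (i + 1) ∧
      0 < trn Z x y i * trn Z x y (i + 1) := by
  simp only [brk, not_or, not_lt] at hb
  exact ⟨hb.1.lt_of_ne (mul_ne_zero (h.Zne _) (h.Zne _)).symm,
    hb.2.1.lt_of_ne (mul_ne_zero (h.jx_ne _) (h.jx_ne _)).symm,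
    hb.2.2.1.lt_of_ne (mul_ne_zero (h.jx_ne _) (h.jx_ne _)).symm,
    hb.2.2.2.lt_of_ne (mul_ne_zero (h.trn_ne _) (h.trn_ne _)).symm⟩

theorem Core.finite_sl (h : Core m n Z x y) : (range (sl Z x y)).Finite :=
  finite_range_of_per h.n_pos h.sl_per

/-- Signs propagate along a chain of positive products. -/
theorem pos_chain {g : ℤ → ℝ} {p q : ℤ} (hp : g p ≠ 0)
    (h : ∀ i, p ≤ i → i < q → 0 < g i * g (i + 1)) : ∀ i, p ≤ i → i ≤ q → 0 < g p * g i := by
  intro i hi
  induction i, hi using Int.le_induction with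
  | base => exact fun _ => mul_self_pos.2 hp
  | succ i hi ih =>
    intro hq
    have a := ih (by omega)
    have b := h i hi (by omega)
    rcases mul_pos_iff.1 a with ⟨a1, a2⟩ | ⟨a1, a2⟩ <;> rcases mul_pos_iff.1 b with ⟨b1, b2⟩ | ⟨b1, b2⟩
    · exact mul_pos a1 b2
    · linarith
    · linarith
    · exact mul_pos_of_neg_of_neg a1 b2

theorem hv_sub {M : ℕ} {lo hi : ℤ} {θ ρ : ℤ → ℝ} (h : AC M lo hi θ ρ x y) (t : ℝ) {k : ℤ}
    (h1 : lo ≤ k) (h2 : k < hi) : hv x y t (k + 1) - hv x y t k = ρ k * Real.sin (θ k - t) := by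
  obtain ⟨-, a, b⟩ := h.rho k h1 h2
  rw [Real.sin_sub]; simp only [hv]; linear_combination Real.cos t * b - Real.sin t * a

end Pool.Agent.P.MP_28369d_gt.SB
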