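import Pool.Agent.P.MP_28369d_gt.SB.Iface

/-!
The three theorems from the interface statements.
-/

namespace Pool.Agent.P.MP_28369d_gt.SB

open Set Filter Topology
open scoped RealInnerProductSpace

theorem df_co (P : Poly) (u : E) (i : ℤ) : df (co P u) i = ⟪P.e i, u⟫ := by
  simp only [df, co, Poly.e, inner_sub_left]

theorem acore (hGP : S_GP) (hCO : S_COORD) (hCUT : S_CUT) (hPAIR : S_PAIR) (hLEV : S_LEV)
    (hSTR : S_STR) : S_ACORE := by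
  intro m
  obtain ⟨C, hC⟩ := hCUT m
  obtain ⟨L, hL⟩ := hLEV (max C (2 * (m + 1)))
  obtain ⟨N, hN⟩ := hSTR (m + 1) L
  refine ⟨max N 5, fun P hlo hup => ?_⟩
  by_cases hpl : ∀ u : E, (∀ i, ⟪P.e i, u⟫ = 0) → u = 0
  · obtain ⟨Q, h1, h2, h3⟩ := hGP P hpl
    by_cases h5 : 5 ≤ Q.n
    · obtain ⟨ux, uy, uz, a1, a2, a3⟩ := hCO.1 Q h5 h2
      have hc := a3 m fun u hu => ⟨hlo Q h1 u hu, (h3 u).trans (hup u)⟩
      obtain ⟨b1, b2⟩ := hC _ _ _ _ hc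
      obtain ⟨Λ, c1, c2, c3⟩ := hL Q ux uy uz _ a1 a2 b2 (b1.trans (le_max_left _ _))
        (fun i hi => Or.inl (Or.inl hi)) (hPAIR m _ _ _ _ hc)
      obtain ⟨R, d1, d2⟩ := hN Q uz Λ a2 ((h3 uz).trans (hup uz)) c1 c2 c3
      exact ⟨R, d1.trans (le_max_left _ _), h1.trans d2⟩
    · exact ⟨Q, le_trans (by omega) (le_max_right _ _), h1⟩
  · push Not at hpl
    obtain ⟨u, h1, h2⟩ := hpl
    obtain ⟨ux, uz, a1, a2⟩ := hCO.2 P u h2 h1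
    have hv0 : ∀ i, vel P u uz i = 0 := fun i => by simp [vel, df_co, h1]
    obtain ⟨Λ, c1, c2, c3⟩ := hL P ux u uz (fun i => ⟪P.e i, uz⟫ * ⟪P.e (i + 1), uz⟫ < 0) a1 a2
      (fun i => by rw [show i + P.n + 1 = i + 1 + P.n by ring, P.e_per, P.e_per])
      (by
        rw [win_chg (f := fun i => ⟪P.e i, uz⟫) (P.inner_per uz) a2]
        exact le_trans (Nat.mul_le_mul_left 2 (hup uz)) (le_max_right _ _))
      (fun i hi => by simpa only [df_co] using hi)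
      (fun p q p' q' _ _ _ _ _ => ⟨0, fun J _ _ => ⟨0, 1, Or.inr one_ne_zero, Or.inr
        fun i j _ _ _ _ _ _ => by simp [lin, hv0]⟩⟩)
    obtain ⟨R, d1, d2⟩ := hN P uz Λ a2 (hup uz) c1 c2 c3
    exact ⟨R, d1.trans (le_max_left _ _), d2⟩

theorem exists_sb {K : Set E} {P : Poly} (h : Iso K P.carrier) :
    ∃ Q : Poly, Iso K Q.carrier ∧ ∀ u, Q.nmax u ≤ sb K := by
  have hne : {s | ∃ P : Poly, Iso K P.carrier ∧ ∀ u : E, ‖u‖ = 1 → P.nmax u ≤ s}.Nonempty :=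
    ⟨P.n, P, h, fun u _ => P.nmax_le u⟩
  obtain ⟨Q, h1, h2⟩ := Nat.sInf_mem hne
  exact ⟨Q, h1, Q.nmax_le_of_unit h2⟩

theorem Gen.ne_zero {P : Poly} {u : E} (h : Gen P u) : u ≠ 0 := by
  rintro rfl; exact h 0 (by simp)

theorem thmA (h : S_ACORE) : ∀ m : ℕ, ∃ N : ℕ, ∀ P : Poly, br P.carrier = m →
    sb P.carrier ≤ m + 1 → stick P.carrier ≤ N := by
  intro m
  obtain ⟨N, hN⟩ := h m
  refine ⟨N, fun P h1 h2 => ?_⟩
  obtain ⟨Q, a1, a2⟩ := exists_sb (Iso.refl P.carrier)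
  have hlo : ∀ R : Poly, Iso Q.carrier R.carrier → ∀ u, Gen R u → m ≤ R.nmax u := by
    intro R hR u hu
    have hn : 0 < ‖u‖ := norm_pos_iff.2 hu.ne_zero
    rw [← h1]
    exact Nat.sInf_le ⟨R, a1.trans hR, ‖u‖⁻¹ • u,
      by rw [norm_smul, norm_inv, norm_norm, inv_mul_cancel₀ hn.ne'], R.nmax_smul u (inv_pos.2 hn)⟩
  obtain ⟨R, b1, b2⟩ := hN Q hlo fun u => (a2 u).trans h2
  exact le_trans (Nat.sInf_le ⟨R, a1.trans b2, rfl⟩) b1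

theorem Full.top {G : Type} [Group G] {ω : E → E → G} {K : Set E} (hK : IsCompact K)
    (h : Full ω Kᶜ) (H : Subgroup G) (hr : Red ω Kᶜ H) : H = ⊤ := by
  obtain ⟨p, hp⟩ : Kᶜ.Nonempty := nonempty_compl.2 hK.ne_univ
  exact (h p hp).red hr

theorem openSegment_infinite {a b : E} (h : a ≠ b) : (openSegment ℝ a b).Infinite := by
  rw [openSegment_eq_image']
  refine (Ioo_infinite (zero_lt_one' ℝ)).image fun s _ t _ hst => ?_
  have : (s - t) • (b - a) = 0 := by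
    have h1 : s • (b - a) = t • (b - a) := add_left_cancel hst
    rw [sub_smul, h1, sub_self]
  rcases smul_eq_zero.1 this with c | c
  · linarith
  · exact absurd (sub_eq_zero.1 c).symm h

theorem coreB (hA : S_ACORE) (hCS : S_CS) (hG : S_GRP) (h3 : S_BR3) (hD : S_DETB) (hR : S_REFL) :
    ∃ C : ℕ, ∀ (K1 K2 K : Set E) (m1 m2 : ℕ) (ω1 : E → E → DihedralGroup m1)
      (ω2 : E → E → DihedralGroup m2), Odd m1 → Odd m2 → 3 ≤ m1 → 3 ≤ m2 → C < max m1 m2 →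
      LocSys ω1 K1ᶜ → Full ω1 K1ᶜ → LocSys ω2 K2ᶜ → Full ω2 K2ᶜ → ConnSum K1 K2 K → 5 ≤ sb K := by
  obtain ⟨N, hN⟩ := hA 3
  obtain ⟨C, hC⟩ := hD N
  refine ⟨C, fun K1 K2 K m1 m2 ω1 ω2 o1 o2 t1 t2 hm l1 f1 l2 f2 hs => ?_⟩
  obtain ⟨P1, P2, P, a, b, i1, i2, i0, hab, s1, s2, s3, s4, s5⟩ := hs
  obtain ⟨g1, e1⟩ := i1.homeo
  obtain ⟨g2, e2⟩ := i2.homeo
  have l1' := l1.push g1
  have f1' := f1.push g1
  have l2' := l2.push g2
  have f2' := f2.push g2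
  rw [← compl_push, e1] at l1' f1'
  rw [← compl_push, e2] at l2' f2'
  generalize push g1 ω1 = υ1 at l1' f1'
  generalize push g2 ω2 = υ2 at l2' f2'
  obtain ⟨X1, x1, y1⟩ := hR m1 P1 υ1 l1' (f1'.top P1.isCompact)
  obtain ⟨X2, x2, y2⟩ := hR m2 P2 υ2 l2' (f2'.top P2.isCompact)
  obtain ⟨n1, n2, c1, c2⟩ := hCS _ _ υ1 υ2 P1.carrier P2.carrier a b P1.isCompact P2.isCompact hab
    s1 s2 s3 s4 (s5 ▸ P.isClosed) l1' l2' f1' f2'
  rw [← s5] at c2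
  obtain ⟨c, hc1, hc2⟩ := ((openSegment_infinite hab).sdiff (x1.union x2)).nonempty
  have hc3 : c ∈ segment ℝ a b := openSegment_subset_segment ℝ a b hc1
  obtain ⟨j1, rfl⟩ : ∃ j, n1 = .sr j := by
    obtain ⟨i, hi⟩ := y1 c (s3 ▸ hc3 : c ∈ P1.carrier ∩ _).1 fun h => hc2 (Or.inl h)
    obtain ⟨g, hg⟩ := hi.conj (c1 c hc1).1
    obtain ⟨h, hh⟩ := (c1 c hc1).1.conj hi
    exact hG.2.2.2.2 m1 i n1 g h hg hh
  obtain ⟨j2, rfl⟩ : ∃ j, n2 = .sr j := by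
    obtain ⟨i, hi⟩ := y2 c (s4 ▸ hc3 : c ∈ P2.carrier ∩ _).1 fun h => hc2 (Or.inr h)
    obtain ⟨g, hg⟩ := hi.conj (c1 c hc1).2
    obtain ⟨h, hh⟩ := (c1 c hc1).2.conj hi
    exact hG.2.2.2.2 m2 i n2 g h hg hh
  by_contra hlt
  obtain ⟨Q, q1, q2⟩ := exists_sb i0
  have q3 : Iso P.carrier Q.carrier := i0.symm.trans q1
  have hb : ∀ R : Poly, Iso Q.carrier R.carrier → ∀ u, Gen R u → 3 ≤ R.nmax u := by
    obtain ⟨φ1, φ2, p1, p2⟩ := hG.2.1 m1 m2 o1 o2 t1 t2 j1 j2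
    obtain ⟨ω, w1, w2, w3, w4⟩ := c2 _ φ1 φ2 p1
    refine fun R hR' u hu => h3 _ ω P.carrier w1 ?_ (fun H hH => ?_) R u (q3.trans hR') hu
    · refine ⟨X1 ∪ X2 ∪ {a, b}, (x1.union x2).union (toFinite _), fun x hx hX => ?_⟩
      simp only [mem_union, not_or, mem_insert_iff, mem_singleton_iff] at hX
      have hx' := hx
      rw [s5] at hx'
      have hx0 : x 0 ≠ 0 := by
        intro h0
        have : x ∈ segment ℝ a b := by
          rcases hx'.1 with h | h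
          · exact s3 ▸ ⟨h, h0⟩
          · exact s4 ▸ ⟨h, h0⟩
        rw [← insert_endpoints_openSegment] at this
        rcases this with h | h | h
        · exact hX.2.1 h
        · exact hX.2.2 h
        · exact hx'.2 h
      have hcont : Continuous fun p : E => p 0 := by fun_prop
      have hos : ∀ p ∈ openSegment ℝ a b, p 0 = 0 := fun p hp =>
        (s3 ▸ openSegment_subset_segment ℝ a b hp : p ∈ P1.carrier ∩ {p | p 0 = 0}).2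
      rcases lt_or_gt_of_ne hx0 with h | h
      · have hx1 : x ∈ P1.carrier := hx'.1.resolve_right fun h' => (s2 x h').not_gt h
        obtain ⟨i, ⟨N', a1, a2⟩, -⟩ := y1 x hx1 hX.1.1
        refine ⟨N' ∩ {p | p 0 < 0}, inter_mem a1 ((isOpen_lt hcont continuous_const).mem_nhds h),
          φ1 (.sr i), by rw [← map_mul]; simp, ?_⟩
        rw [← MonoidHom.map_zpowers]
        refine ((a2.map φ1).mono fun p hp => ⟨hp.1.1, fun h' => hp.2 ?_⟩).congr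
          fun p hp => Eventually.of_forall fun p' => w3 p p' hp.1.2
        rw [s5]; exact ⟨Or.inl h', fun h'' => (ne_of_lt hp.1.2) (hos p h'')⟩
      · have hx1 : x ∈ P2.carrier := hx'.1.resolve_left fun h' => (s1 x h').not_gt h
        obtain ⟨i, ⟨N', a1, a2⟩, -⟩ := y2 x hx1 hX.1.2
        refine ⟨N' ∩ {p | 0 < p 0}, inter_mem a1 ((isOpen_lt continuous_const hcont).mem_nhds h),
          φ2 (.sr i), by rw [← map_mul]; simp, ?_⟩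
        rw [← MonoidHom.map_zpowers]
        refine ((a2.map φ2).mono fun p hp => ⟨hp.1.1, fun h' => hp.2 ?_⟩).congr
          fun p hp => Eventually.of_forall fun p' => w4 p p' hp.1.2
        rw [s5]; exact ⟨Or.inr h', fun h'' => (ne_of_gt hp.1.2) (hos p h'')⟩
    · obtain ⟨g, g1', g2'⟩ := w2 H hH
      refine ⟨_, g1' (.r 1), _, g2' (.r 1), fun hcm => p2 ?_⟩
      have := hcm.conj g⁻¹
      simpa [mul_assoc] using this
  obtain ⟨R, r1, r2⟩ := hN Q hb fun u => (q2 u).trans (by omega)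
  rcases lt_max_iff.1 hm with h | h
  · obtain ⟨φ, p1⟩ := hG.2.2.1 m1 m2 j1 j2
    obtain ⟨ω, w1, w2, -⟩ := c2 _ (MonoidHom.id _) φ p1.symm
    refine absurd (hC m1 P.carrier R ω o1 r1 (q3.trans r2) w1 fun H hH => ?_) h.not_ge
    obtain ⟨g, g1', -⟩ := w2 H hH
    rw [eq_top_iff]; intro d _
    simpa [mul_assoc] using g1' (g⁻¹ * d * g)
  · obtain ⟨φ, p1⟩ := hG.2.2.1 m2 m1 j2 j1
    obtain ⟨ω, w1, w2, -⟩ := c2 _ φ (MonoidHom.id _) p1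
    refine absurd (hC m2 P.carrier R ω o2 r1 (q3.trans r2) w1 fun H hH => ?_) h.not_ge
    obtain ⟨g, -, g1'⟩ := w2 H hH
    rw [eq_top_iff]; intro d _
    simpa [mul_assoc] using g1' (g⁻¹ * d * g)

theorem compl_good (hC : S_CONN) {K : Set E} {P : Poly} (h : Iso K P.carrier) :
    IsOpen Kᶜ ∧ IsPreconnected Kᶜ := by
  obtain ⟨g, hg⟩ := h.symm.homeo
  rw [← hg, compl_push]
  refine ⟨g.isOpenMap _ P.isClosed.isOpen_compl, IsPreconnected.image ?_ _ g.continuous.continuousOn⟩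
  have := (hC.1 univ _ isOpen_univ convex_univ (hC.2 P)).1
  rwa [← compl_eq_univ_sdiff] at this

theorem thmB (hA : S_ACORE) (hCS : S_CS) (hG : S_GRP) (h3 : S_BR3) (hD : S_DETB) (hR : S_REFL)
    (hC : S_CONN) (hF : S_F0) : ∃ C : ℕ, ∀ (K₁ K₂ K : Set E) (m₁ m₂ : ℕ), Odd m₁ → Odd m₂ →
      3 ≤ m₁ → 3 ≤ m₂ → C < max m₁ m₂ → DihQuot K₁ m₁ → DihQuot K₂ m₂ → ConnSum K₁ K₂ K →
      5 ≤ sb K := by
  obtain ⟨C, h⟩ := coreB hA hCS hG h3 hD hR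
  refine ⟨C, fun K1 K2 K m1 m2 o1 o2 t1 t2 hm ⟨p1, ρ1, a1⟩ ⟨p2, ρ2, a2⟩ hs => ?_⟩
  obtain ⟨P1, P2, -, -, -, i1, i2, -⟩ := id hs
  obtain ⟨ω1, b1, c1⟩ := hF _ _ p1 ρ1 (compl_good hC i1).1 (compl_good hC i1).2 a1
  obtain ⟨ω2, b2, c2⟩ := hF _ _ p2 ρ2 (compl_good hC i2).1 (compl_good hC i2).2 a2
  exact h K1 K2 K m1 m2 ω1 ω2 o1 o2 t1 t2 hm b1 c1 b2 c2 hs

theorem thmC (hA : S_ACORE) (hCS : S_CS) (hG : S_GRP) (h3 : S_BR3) (hD : S_DETB) (hR : S_REFL)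
    (hC : S_CONN) (h1 : S_T1) (h4 : S_T4) : ∃ C : ℕ, ∀ (q r : ℤ) (K : Set E), Odd q → Odd r →
      3 ≤ |q| → 3 ≤ |r| → (C : ℤ) < max |q| |r| → ConnSum (torus2 q) (torus2 r) K →
      max (sb (torus2 q)) (sb (torus2 r)) < sb K := by
  obtain ⟨C, h⟩ := coreB hA hCS hG h3 hD hR
  refine ⟨C, fun q r K o1 o2 t1 t2 hm hs => ?_⟩
  obtain ⟨Q1, i1, u1⟩ := h4 q o1
  obtain ⟨Q2, i2, u2⟩ := h4 r o2
  obtain ⟨ω1, b1, c1⟩ := h1 q o1 (compl_good hC i1).1 (compl_good hC i1).2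
  obtain ⟨ω2, b2, c2⟩ := h1 r o2 (compl_good hC i2).1 (compl_good hC i2).2
  rw [Int.abs_eq_natAbs] at t1 t2
  rw [Int.abs_eq_natAbs, Int.abs_eq_natAbs] at hm
  have := h _ _ K _ _ ω1 ω2 (Int.natAbs_odd.2 o1) (Int.natAbs_odd.2 o2) (by omega) (by omega)
    (by omega) b1 c1 b2 c2 hs
  have a1 : sb (torus2 q) ≤ 4 := Nat.sInf_le ⟨Q1, i1, u1⟩
  have a2 : sb (torus2 r) ≤ 4 := Nat.sInf_le ⟨Q2, i2, u2⟩
  omega

end Pool.Agent.P.MP_28369d_gt.SB
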